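import Pool.Agent.Work.MP_2cf110_an.Hyp.Pot0
import Pool.Agent.Work.MP_217185_an.CauL2b

/-! # The Cauchy transform of a bounded function with compact support

bound: pot_ball.  continuity: Cau g z = (1/π) ∫ g(z - t)/t... use translation: Cau g is the convolution of the
locally integrable kernel with the bounded function g of compact support: approximate, or: |Cau g z - Cau g z'| ≤
(N/π) ∫_{closedBall a ρ} |1/(z-ζ) - 1/(z'-ζ)| → 0 (dominated convergence, or HasCompactSupport/continuity of convolution of L^1 and L^∞: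
BddAbove.continuous_convolution_right_of_integrable is for continuous; another way: the restriction to a ball of the
kernel is integrable and the shift is continuous in L^1), or apply QC.tendsto.. for L².
limit: QC.tendsto_mul_cau.  weak derivative: QC.cau_WD (its field db) or cau_fubini + QC.dz_cau + QC.cau_dzb. -/

open MeasureTheory Complex Set Metric Filter
open scoped Topology ContDiff ComplexConjugate

noncomputable section

namespace Pool.Agent.Work.MP_2cf110_an.Hyp

open QC (dz dzb Test Cau)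

private theorem cb_aux {F : ℂ → ℂ} {a z : ℂ} {r M : ℝ} (hr : 0 < r) (hM : 0 ≤ M)
    (h1 : ∀ ζ ∈ closedBall a r, ‖F ζ‖ ≤ M * (1 / ‖z - ζ‖))
    (h0 : ∀ ζ, ζ ∉ closedBall a r → F ζ = 0) : ‖∫ ζ, F ζ‖ ≤ M * (6 * Real.pi * r) := by
  obtain ⟨hi, hb⟩ := pot_ball (a := a) (z := z) hr
  rw [← setIntegral_eq_integral_of_forall_compl_eq_zero (s := closedBall a r)
    (fun ζ hζ => h0 ζ hζ)]
  have h2 : ‖∫ ζ in closedBall a r, F ζ‖ ≤ ∫ ζ in closedBall a r, M * (1 / ‖z - ζ‖) := by
    refine norm_integral_le_of_norm_le (hi.const_mul M) ?_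
    exact (ae_restrict_iff' measurableSet_closedBall).2 (Eventually.of_forall fun ζ hζ => h1 ζ hζ)
  refine h2.trans ?_
  rw [integral_const_mul]
  exact mul_le_mul_of_nonneg_left hb hM

/-- the regularised kernel -/
private def ke (ε : ℝ) (w : ℂ) : ℂ := conj w / ((max ‖w‖ ε ^ 2 : ℝ) : ℂ)

private theorem ke_cont {ε : ℝ} (hε : 0 < ε) : Continuous (ke ε) := by
  unfold ke
  refine Continuous.div (continuous_conj) ?_ ?_
  · exact continuous_ofReal.comp ((continuous_norm.max continuous_const).pow 2)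
  · intro w
    have : 0 < max ‖w‖ ε := lt_max_of_lt_right hε
    exact_mod_cast (pow_pos this 2).ne'

private theorem ke_le {ε : ℝ} (hε : 0 < ε) (w : ℂ) : ‖ke ε w‖ ≤ 1 / ε := by
  have h0 : 0 < max ‖w‖ ε := lt_max_of_lt_right hε
  unfold ke
  rw [norm_div, Complex.norm_real, Real.norm_of_nonneg (by positivity)]
  have h1 : ‖conj w‖ = ‖w‖ := Complex.norm_conj w
  rw [h1, div_le_div_iff₀ (by positivity) hε, one_mul, pow_two]
  exact mul_le_mul (le_max_left _ _) (le_max_right _ _) hε.le h0.le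

private theorem ke_eq {ε : ℝ} {w : ℂ} (hε : 0 < ε) (hw : ε ≤ ‖w‖) : ke ε w = 1 / w := by
  have h0 : w ≠ 0 := by
    intro h
    rw [h, norm_zero] at hw
    linarith
  unfold ke
  rw [max_eq_left hw]
  have h1 : ((‖w‖ ^ 2 : ℝ) : ℂ) = w * conj w := by
    rw [Complex.mul_conj, Complex.normSq_eq_norm_sq]
  have h2 : conj w ≠ 0 := by
    rw [Ne, map_eq_zero]
    exact h0
  rw [h1]
  field_simp

private theorem ke_sub {ε : ℝ} {w : ℂ} (hε : 0 < ε) (hw : ‖w‖ ≤ ε) :
    ‖1 / w - ke ε w‖ ≤ 1 / ‖w‖ := by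
  by_cases h0 : w = 0
  · rw [h0]
    simp [ke]
  have hn : 0 < ‖w‖ := norm_pos_iff.2 h0
  have h1 : 1 / w - ke ε w = (1 / w) * ((1 - ‖w‖ ^ 2 / ε ^ 2 : ℝ) : ℂ) := by
    unfold ke
    rw [max_eq_right hw]
    have h1 : ((‖w‖ : ℝ) : ℂ) ^ 2 = w * conj w := by
      rw [Complex.mul_conj, Complex.normSq_eq_norm_sq]
      push_cast
      rfl
    have he : (ε : ℂ) ≠ 0 := by exact_mod_cast hε.ne'
    push_cast
    rw [h1]
    field_simp
  rw [h1, norm_mul, norm_div, norm_one, Complex.norm_real]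
  have h3 : ‖w‖ ^ 2 / ε ^ 2 ≤ 1 := by
    rw [div_le_one (by positivity)]
    exact pow_le_pow_left₀ hn.le hw 2
  have h4 : 0 ≤ ‖w‖ ^ 2 / ε ^ 2 := by positivity
  have h5 : ‖(1 - ‖w‖ ^ 2 / ε ^ 2 : ℝ)‖ ≤ 1 := by
    rw [Real.norm_eq_abs, abs_le]
    constructor <;> linarith
  calc 1 / ‖w‖ * ‖(1 - ‖w‖ ^ 2 / ε ^ 2 : ℝ)‖ ≤ 1 / ‖w‖ * 1 :=
        mul_le_mul_of_nonneg_left h5 (by positivity)
    _ = 1 / ‖w‖ := mul_one _

theorem cauBdd_cont {g : ℂ → ℂ} {a : ℂ} {ρ N : ℝ} (hρ : 0 < ρ) (hg : Measurable g)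
    (hN : ∀ z, ‖g z‖ ≤ N) (hs : ∀ z, z ∉ closedBall a ρ → g z = 0) : Continuous (Cau g) := by
  have hN0 : 0 ≤ N := (norm_nonneg _).trans (hN 0)
  have hint1 : ∀ z, Integrable (fun ζ => g ζ * (1 / (z - ζ))) := by
    intro z
    have h1 : IntegrableOn (fun ζ => g ζ * (1 / (z - ζ))) (closedBall a ρ) := by
      refine Integrable.mono' ((pot_ball (a := a) (z := z) hρ).1.const_mul N) ?_ ?_
      · exact (hg.mul (measurable_const.div (measurable_const.sub measurable_id))).aestronglyMeasurable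
      · refine Eventually.of_forall fun ζ => ?_
        rw [norm_mul, norm_div, norm_one]
        exact mul_le_mul_of_nonneg_right (hN ζ) (by positivity)
    refine (integrableOn_iff_integrable_of_support_subset ?_).1 h1
    intro ζ hζ
    by_contra h
    apply hζ
    simp only
    rw [hs ζ h, zero_mul]
  have hbd : ∀ (ε : ℝ), 0 < ε → ∀ z ζ, ‖g ζ * ke ε (z - ζ)‖ ≤
      (closedBall a ρ).indicator (fun _ => N * (1 / ε)) ζ := by
    intro ε hε z ζ
    by_cases h : ζ ∈ closedBall a ρ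
    · rw [indicator_of_mem h, norm_mul]
      exact mul_le_mul (hN ζ) (ke_le hε _) (norm_nonneg _) hN0
    · rw [indicator_of_notMem h, hs ζ h, zero_mul, norm_zero]
  have hbi : ∀ ε : ℝ, Integrable ((closedBall a ρ).indicator (fun _ : ℂ => N * (1 / ε))) := by
    intro ε
    rw [integrable_indicator_iff measurableSet_closedBall]
    exact integrableOn_const measure_closedBall_lt_top.ne
  have hms : ∀ (ε : ℝ), 0 < ε → ∀ z, AEStronglyMeasurable (fun ζ => g ζ * ke ε (z - ζ)) volume := by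
    intro ε hε z
    exact (hg.mul ((ke_cont hε).measurable.comp
      (measurable_const.sub measurable_id))).aestronglyMeasurable
  have hcont : ∀ ε : ℝ, 0 < ε → Continuous (fun z => (1 / (Real.pi : ℂ)) *
      ∫ ζ, g ζ * ke ε (z - ζ)) := by
    intro ε hε
    refine continuous_const.mul (continuous_of_dominated (hms ε hε)
      (fun z => Eventually.of_forall fun ζ => hbd ε hε z ζ) (hbi ε) ?_)
    refine Eventually.of_forall fun ζ => ?_
    exact continuous_const.mul ((ke_cont hε).comp (continuous_id.sub continuous_const))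
  have hdiff : ∀ ε : ℝ, 0 < ε → ∀ z, ‖Cau g z - (1 / (Real.pi : ℂ)) *
      ∫ ζ, g ζ * ke ε (z - ζ)‖ ≤ 6 * N * ε := by
    intro ε hε z
    have h1 : Cau g z - (1 / (Real.pi : ℂ)) * ∫ ζ, g ζ * ke ε (z - ζ) =
        (1 / (Real.pi : ℂ)) * ∫ ζ, g ζ * (1 / (z - ζ) - ke ε (z - ζ)) := by
      have h2 : Integrable (fun ζ => g ζ * ke ε (z - ζ)) :=
        (hbi ε).mono' (hms ε hε z) (Eventually.of_forall fun ζ => hbd ε hε z ζ)
      have h3 := integral_sub (hint1 z) h2
      unfold Cau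
      rw [← mul_sub]
      congr 1
      have h4 : ∫ ζ, g ζ / (z - ζ) = ∫ ζ, g ζ * (1 / (z - ζ)) := by
        refine integral_congr_ae (Eventually.of_forall fun ζ => ?_)
        simp only
        rw [mul_one_div]
      rw [h4, ← h3]
      refine integral_congr_ae (Eventually.of_forall fun ζ => ?_)
      simp only
      rw [mul_sub]
    have h5 := cb_aux (F := fun ζ => g ζ * (1 / (z - ζ) - ke ε (z - ζ))) (a := z) (z := z)
      (r := ε) (M := N) hε hN0 (by
        intro ζ hζ
        rw [mem_closedBall, dist_comm, dist_eq_norm] at hζ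
        rw [norm_mul]
        exact mul_le_mul (hN ζ) (ke_sub hε hζ) (norm_nonneg _) hN0) (by
        intro ζ hζ
        rw [mem_closedBall, dist_comm, dist_eq_norm, not_le] at hζ
        rw [ke_eq hε hζ.le, sub_self, mul_zero])
    rw [h1, norm_mul, norm_div, norm_one, Complex.norm_real, Real.norm_of_nonneg Real.pi_pos.le]
    calc 1 / Real.pi * ‖∫ ζ, g ζ * (1 / (z - ζ) - ke ε (z - ζ))‖
        ≤ 1 / Real.pi * (N * (6 * Real.pi * ε)) :=
          mul_le_mul_of_nonneg_left h5 (by positivity)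
      _ = 6 * N * ε := by
          field_simp
  refine continuous_of_uniform_approx_of_continuous ?_
  intro u hu
  obtain ⟨δ, hδ, hδu⟩ := Metric.mem_uniformity_dist.1 hu
  refine ⟨fun z => (1 / (Real.pi : ℂ)) * ∫ ζ, g ζ * ke (δ / (6 * N + 6)) (z - ζ),
    hcont _ (by positivity), fun z => ?_⟩
  apply hδu
  rw [dist_eq_norm]
  refine (hdiff _ (by positivity) z).trans_lt ?_
  rw [mul_div_assoc', div_lt_iff₀ (by positivity)]
  nlinarith

theorem cauBdd_le {g : ℂ → ℂ} {a : ℂ} {ρ N : ℝ} (hρ : 0 < ρ) (hg : Measurable g)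
    (hN : ∀ z, ‖g z‖ ≤ N) (hs : ∀ z, z ∉ closedBall a ρ → g z = 0) (z : ℂ) :
    ‖Cau g z‖ ≤ 6 * ρ * N := by
  have hN0 : 0 ≤ N := (norm_nonneg _).trans (hN 0)
  have h5 := cb_aux (F := fun ζ => g ζ / (z - ζ)) (a := a) (z := z)
    (r := ρ) (M := N) hρ hN0 (by
      intro ζ _
      rw [norm_div, div_eq_mul_one_div]
      exact mul_le_mul_of_nonneg_right (hN ζ) (by positivity)) (by
      intro ζ hζ
      rw [hs ζ hζ, zero_div])
  unfold Cau
  rw [norm_mul, norm_div, norm_one, Complex.norm_real, Real.norm_of_nonneg Real.pi_pos.le]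
  calc 1 / Real.pi * ‖∫ ζ, g ζ / (z - ζ)‖
      ≤ 1 / Real.pi * (N * (6 * Real.pi * ρ)) :=
        mul_le_mul_of_nonneg_left h5 (by positivity)
    _ = 6 * ρ * N := by
        field_simp

end Pool.Agent.Work.MP_2cf110_an.Hyp

end
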