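import Pool.Agent.Work.MP_2cf110_an.Hyp.Pot0
import Pool.Agent.Work.MP_217185_an.CauL2a
import Pool.Agent.Work.MP_217185_an.CauL2b

/-! # The Cauchy transform of a bounded function with compact support, 2

g is in L² with support in a ball centred at 0: QC.tendsto_mul_cau, QC.cau_WD (field db), QC.cau_fubini.
The L¹ bound: Fubini (cau_int_le: ∫_{closedBall b ρ'} ‖Cau g‖ ≤ (1/π) ∫ ‖g ζ‖ ∫_{z ∈ closedBall b ρ'} 1/‖z-ζ‖ ≤ 6 ρ' ∫ ‖g‖). -/

open MeasureTheory Complex Set Metric Filter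
open scoped Topology ContDiff ComplexConjugate

noncomputable section

namespace Pool.Agent.Work.MP_2cf110_an.Hyp

open QC (dz dzb Test Cau)

private theorem cb2_supp {g : ℂ → ℂ} {a : ℂ} {ρ : ℝ} (hs : ∀ z, z ∉ closedBall a ρ → g z = 0) :
    QC.SuppIn (‖a‖ + |ρ| + 1) g := by
  intro z hz
  apply hs
  intro h
  rw [mem_closedBall, dist_eq_norm] at h
  have h1 : ‖z‖ ≤ ‖z - a‖ + ‖a‖ := by
    calc ‖z‖ = ‖(z - a) + a‖ := by rw [sub_add_cancel]
      _ ≤ ‖z - a‖ + ‖a‖ := norm_add_le _ _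
  have h2 := le_abs_self ρ
  linarith

private theorem cb2_memLp {g : ℂ → ℂ} {a : ℂ} {ρ N : ℝ} (hg : Measurable g)
    (hN : ∀ z, ‖g z‖ ≤ N) (hs : ∀ z, z ∉ closedBall a ρ → g z = 0) (p : ENNReal) :
    MemLp g p (volume : Measure ℂ) := by
  have h1 : MemLp g p (volume.restrict (closedBall a ρ)) := by
    have : IsFiniteMeasure ((volume : Measure ℂ).restrict (closedBall a ρ)) :=
      ⟨by rw [Measure.restrict_apply_univ]; exact measure_closedBall_lt_top⟩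
    exact MemLp.of_bound hg.aestronglyMeasurable N (Eventually.of_forall hN)
  have h2 : g = (closedBall a ρ).indicator g := by
    funext z
    by_cases h : z ∈ closedBall a ρ
    · rw [indicator_of_mem h]
    · rw [indicator_of_notMem h, hs z h]
  rw [h2]
  exact (memLp_indicator_iff_restrict measurableSet_closedBall).2 h1

private theorem cb2_int {g : ℂ → ℂ} {a : ℂ} {ρ N : ℝ} (hg : Measurable g)
    (hN : ∀ z, ‖g z‖ ≤ N) (hs : ∀ z, z ∉ closedBall a ρ → g z = 0) : Integrable g :=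
  memLp_one_iff_integrable.1 (cb2_memLp hg hN hs 1)

theorem cauBdd_lim {g : ℂ → ℂ} {a : ℂ} {ρ N : ℝ} (hg : Measurable g)
    (hN : ∀ z, ‖g z‖ ≤ N) (hs : ∀ z, z ∉ closedBall a ρ → g z = 0) :
    Tendsto (fun z => z * Cau g z) (cocompact ℂ) (𝓝 ((1 / (Real.pi : ℂ)) * ∫ ζ, g ζ)) :=
  QC.tendsto_mul_cau (cb2_memLp hg hN hs 2) (cb2_supp hs)

theorem cauBdd_weak {g : ℂ → ℂ} {a : ℂ} {ρ N : ℝ} (hg : Measurable g)
    (hN : ∀ z, ‖g z‖ ≤ N) (hs : ∀ z, z ∉ closedBall a ρ → g z = 0) {φ : ℂ → ℂ}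
    (hφ : Test univ φ) : ∫ z, Cau g z * dzb φ z = - ∫ z, g z * φ z :=
  (QC.cau_WD (cb2_memLp hg hN hs 2) (cb2_supp hs)).db φ hφ

theorem cauBdd_fubini {g : ℂ → ℂ} {a : ℂ} {ρ N : ℝ} (hg : Measurable g)
    (hN : ∀ z, ‖g z‖ ≤ N) (hs : ∀ z, z ∉ closedBall a ρ → g z = 0) {φ : ℂ → ℂ}
    (hφ : Test univ φ) : ∫ z, Cau g z * φ z = - ∫ z, g z * Cau φ z :=
  QC.cau_fubini (cb2_int hg hN hs) (cb2_supp hs) hφ.smooth.continuous hφ.cpt

private theorem cb2_ker (ζ b : ℂ) {ρ' : ℝ} (hρ' : 0 < ρ') :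
    ∫⁻ z in closedBall b ρ', ‖1 / (z - ζ)‖ₑ ≤ ENNReal.ofReal (6 * Real.pi * ρ') := by
  obtain ⟨h1, h2⟩ := pot_ball (a := b) (z := ζ) hρ'
  have h3 := ofReal_integral_norm_eq_lintegral_enorm h1
  have h4 : ∀ z : ℂ, ‖(1 / (z - ζ))‖ₑ = ‖1 / ‖ζ - z‖‖ₑ := by
    intro z
    rw [← ofReal_norm_eq_enorm, ← ofReal_norm_eq_enorm, norm_div, norm_div, norm_one, norm_one,
      norm_norm, norm_sub_rev]
  simp only [h4]
  rw [← h3]
  apply ENNReal.ofReal_le_ofReal
  refine le_trans (le_of_eq ?_) h2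
  refine integral_congr_ae (Eventually.of_forall fun z => ?_)
  simp only
  rw [Real.norm_of_nonneg (by positivity)]

theorem cauBdd_int {g : ℂ → ℂ} {a : ℂ} {ρ N : ℝ} (hg : Measurable g)
    (hN : ∀ z, ‖g z‖ ≤ N) (hs : ∀ z, z ∉ closedBall a ρ → g z = 0) {b : ℂ} {ρ' : ℝ}
    (hρ' : 0 < ρ') : ∫ z in closedBall b ρ', ‖Cau g z‖ ≤ 6 * ρ' * ∫ ζ, ‖g ζ‖ := by
  have hgi := cb2_int hg hN hs
  have hR : 0 ≤ 6 * ρ' * ∫ ζ, ‖g ζ‖ :=
    mul_nonneg (by positivity) (integral_nonneg fun _ => norm_nonneg _)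
  by_cases hI : IntegrableOn (fun z => ‖Cau g z‖) (closedBall b ρ')
  · rw [← ENNReal.ofReal_le_ofReal_iff hR]
    have h1 := ofReal_integral_norm_eq_lintegral_enorm hI
    simp only [norm_norm, enorm_norm] at h1
    rw [h1]
    have hpi := Real.pi_pos
    have h2 : ∀ z, ‖Cau g z‖ₑ ≤
        ∫⁻ ζ, ENNReal.ofReal (1 / Real.pi) * (‖g ζ‖ₑ * ‖1 / (z - ζ)‖ₑ) := by
      intro z
      unfold Cau
      rw [← integral_const_mul]
      refine (enorm_integral_le_lintegral_enorm _).trans (le_of_eq ?_)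
      refine lintegral_congr fun ζ => ?_
      rw [enorm_mul, div_eq_mul_one_div (g ζ), enorm_mul]
      congr 1
      rw [← ofReal_norm_eq_enorm, norm_div, norm_one, Complex.norm_real,
        Real.norm_of_nonneg hpi.le]
    have h3 : ∫⁻ z in closedBall b ρ', ‖Cau g z‖ₑ ≤ ∫⁻ z in closedBall b ρ',
        ∫⁻ ζ, ENNReal.ofReal (1 / Real.pi) * (‖g ζ‖ₑ * ‖1 / (z - ζ)‖ₑ) :=
      lintegral_mono h2
    refine h3.trans ?_
    rw [lintegral_lintegral_swap]
    · have h4 : ∀ ζ, ∫⁻ z in closedBall b ρ',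
          ENNReal.ofReal (1 / Real.pi) * (‖g ζ‖ₑ * ‖1 / (z - ζ)‖ₑ) ≤
          ENNReal.ofReal (6 * ρ') * ‖g ζ‖ₑ := by
        intro ζ
        have hm : Measurable fun z : ℂ => ‖1 / (z - ζ)‖ₑ :=
          (measurable_const.div (measurable_id.sub measurable_const)).enorm
        rw [lintegral_const_mul _ (hm.const_mul _), lintegral_const_mul _ hm]
        calc ENNReal.ofReal (1 / Real.pi) * (‖g ζ‖ₑ * ∫⁻ z in closedBall b ρ', ‖1 / (z - ζ)‖ₑ)
            ≤ ENNReal.ofReal (1 / Real.pi) * (‖g ζ‖ₑ * ENNReal.ofReal (6 * Real.pi * ρ')) := by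
              gcongr
              exact cb2_ker ζ b hρ'
          _ = (ENNReal.ofReal (1 / Real.pi) * ENNReal.ofReal (6 * Real.pi * ρ')) * ‖g ζ‖ₑ := by
              ring
          _ = ENNReal.ofReal (6 * ρ') * ‖g ζ‖ₑ := by
              rw [← ENNReal.ofReal_mul (by positivity)]
              congr 2
              field_simp
      refine (lintegral_mono h4).trans (le_of_eq ?_)
      rw [lintegral_const_mul _ hg.enorm,
        ENNReal.ofReal_mul (show (0 : ℝ) ≤ 6 * ρ' by positivity),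
        ofReal_integral_norm_eq_lintegral_enorm hgi]
    · refine Measurable.aemeasurable ?_
      refine Measurable.const_mul ?_ _
      have m1 : Measurable (fun x : ℂ × ℂ => ‖g x.2‖ₑ) := (hg.comp measurable_snd).enorm
      have m2 : Measurable (fun x : ℂ × ℂ => ‖1 / (x.1 - x.2)‖ₑ) :=
        (measurable_const.div (measurable_fst.sub measurable_snd)).enorm
      exact m1.mul m2
  · rw [integral_undef hI]
    exact hR

end Pool.Agent.Work.MP_2cf110_an.Hyp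

end
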