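import Pool.Agent.Work.MP_2cf110_an.Hyp.CauBdd
import Pool.Agent.Work.MP_2cf110_an.Hyp.CauBdd2
import Pool.Agent.Work.MP_217185_an.Weyl

/-! # Vitushkin localization: analyticity

T = TT V h ψ.  On the open set V ∩ U: T = ψ h - Cau g with g = 1_V h dzb ψ; T is continuous there and for test functions
φ in V ∩ U: ∫ T dzb φ = ∫ ψ h dzb φ + ∫ g φ = 0 (integrate by parts, h analytic, cauBdd_weak); QC.weyl_cont.
On the open set (tsupport ψ)ᶜ: T = - Cau g and g = 0 there: the same.  The union of both is the complement of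
tsupport ψ \ V. -/

open MeasureTheory Complex Set Metric Filter
open scoped Topology ContDiff ComplexConjugate

noncomputable section

namespace Pool.Agent.Work.MP_2cf110_an.Hyp

open QC (dz dzb Test Cau)

private theorem meas_ind {W : Set ℂ} (hW : IsOpen W) {f : ℂ → ℂ} (hf : ContinuousOn f W) :
    Measurable (W.indicator f) := by
  classical
  have h := ContinuousOn.measurable_piecewise hf (continuousOn_const (c := (0 : ℂ)))
    hW.measurableSet
  have h1 : W.piecewise f (fun _ => 0) = W.indicator f := Set.piecewise_eq_indicator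
  rwa [h1] at h

private theorem ind_eq {V U : Set ℂ} {h u : ℂ → ℂ} (hu : ∀ z, z ∉ U → u z = 0) :
    V.indicator (fun w => u w * h w) = (V ∩ U).indicator (fun w => u w * h w) := by
  funext w
  by_cases hw : w ∈ V
  · by_cases hU : w ∈ U
    · have h1 : w ∈ V ∩ U := ⟨hw, hU⟩
      rw [indicator_of_mem hw, indicator_of_mem h1]
    · rw [indicator_of_mem hw, indicator_of_notMem (fun h => hU h.2)]
      simp [hu w hU]
  · rw [indicator_of_notMem hw, indicator_of_notMem (fun h => hw h.1)]

private theorem test_zero {U : Set ℂ} {ψ : ℂ → ℂ} (hψ : Test U ψ) {z : ℂ} (hz : z ∉ U) :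
    ψ z = 0 := image_eq_zero_of_notMem_tsupport fun h => hz (hψ.sub h)

private theorem test_bdd {U : Set ℂ} {ψ : ℂ → ℂ} (hψ : Test U ψ) :
    ∃ M : ℝ, 0 ≤ M ∧ ∀ z, ‖ψ z‖ ≤ M := by
  obtain ⟨M, hM⟩ := hψ.cpt.exists_bound_of_continuous hψ.smooth.continuous
  exact ⟨M, (norm_nonneg _).trans (hM 0), hM⟩

private theorem tt_meas {V U : Set ℂ} {h ψ : ℂ → ℂ} (hV : IsOpen V) (hU : IsOpen U)
    (hh : DifferentiableOn ℂ h (V ∩ U)) (hψ : Test U ψ) :
    Measurable (V.indicator fun w => ψ w * h w) ∧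
      Measurable (V.indicator fun w => h w * dzb ψ w) := by
  have hD := (QC.Test.dz hψ).2
  constructor
  · rw [ind_eq (fun z hz => test_zero hψ hz)]
    exact meas_ind (hV.inter hU) (hψ.smooth.continuous.continuousOn.mul hh.continuousOn)
  · have h1 : (fun w => h w * dzb ψ w) = fun w => dzb ψ w * h w := by
      funext w
      rw [mul_comm]
    rw [h1, ind_eq (fun z hz => test_zero hD hz)]
    exact meas_ind (hV.inter hU) (hD.smooth.continuous.continuousOn.mul hh.continuousOn)

private theorem ind_bdd {V U : Set ℂ} {h u : ℂ → ℂ} {N M : ℝ} (hN : ∀ z ∈ V ∩ U, ‖h z‖ ≤ N)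
    (hu : ∀ z, z ∉ U → u z = 0) (hM0 : 0 ≤ M) (hM : ∀ z, ‖u z‖ ≤ M) (z : ℂ) :
    ‖V.indicator (fun w => u w * h w) z‖ ≤ M * |N| := by
  rw [ind_eq hu]
  by_cases hz : z ∈ V ∩ U
  · rw [indicator_of_mem hz, norm_mul]
    exact mul_le_mul (hM z) ((hN z hz).trans (le_abs_self N)) (norm_nonneg _) hM0
  · rw [indicator_of_notMem hz, norm_zero]
    positivity

theorem TT_holo {V U : Set ℂ} {h ψ : ℂ → ℂ} {N : ℝ} (hV : IsOpen V) (hU : IsOpen U)
    (hh : DifferentiableOn ℂ h (V ∩ U)) (hN : ∀ z ∈ V ∩ U, ‖h z‖ ≤ N) (hψ : Test U ψ) :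
    DifferentiableOn ℂ (TT V h ψ) (tsupport ψ \ V)ᶜ := by
  have hψ' : Test (tsupport ψ) ψ := ⟨hψ.smooth, hψ.cpt, subset_rfl⟩
  have hD := (QC.Test.dz hψ).2
  have hD' := (QC.Test.dz hψ').2
  obtain ⟨hmA, hmg⟩ := tt_meas hV hU hh hψ
  obtain ⟨M0, hM0, hM0'⟩ := test_bdd hψ
  obtain ⟨M1, hM1, hM1'⟩ := test_bdd hD
  set g : ℂ → ℂ := V.indicator fun w => h w * dzb ψ w with hg
  set A : ℂ → ℂ := V.indicator fun w => ψ w * h w with hA
  have hT : TT V h ψ = fun z => A z - Cau g z := rfl
  -- the bounds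
  have hgb : ∀ z, ‖g z‖ ≤ M1 * |N| := by
    intro z
    have h1 := ind_bdd (V := V) hN (fun z hz => test_zero hD hz) hM1 hM1' z
    have h2 : g = V.indicator fun w => dzb ψ w * h w := by
      rw [hg]
      congr 1
      funext w
      rw [mul_comm]
    rw [h2]
    exact h1
  have hAb : ∀ z, ‖A z‖ ≤ M0 * |N| := ind_bdd (V := V) hN (fun z hz => test_zero hψ hz) hM0 hM0'
  have hg0 : ∀ z, z ∉ tsupport ψ → g z = 0 := by
    intro z hz
    rw [hg]
    by_cases hzV : z ∈ V
    · rw [indicator_of_mem hzV, test_zero hD' hz, mul_zero]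
    · rw [indicator_of_notMem hzV]
  obtain ⟨ρ, hρ, hρ'⟩ : ∃ ρ : ℝ, 0 < ρ ∧ tsupport ψ ⊆ closedBall 0 ρ := by
    obtain ⟨ρ, hρ⟩ := hψ.cpt.isBounded.subset_closedBall (0 : ℂ)
    exact ⟨max ρ 1, by positivity, hρ.trans (closedBall_subset_closedBall (le_max_left _ _))⟩
  have hgs : ∀ z, z ∉ closedBall (0 : ℂ) ρ → g z = 0 := fun z hz => hg0 z fun h => hz (hρ' h)
  have hcont : Continuous (Cau g) := cauBdd_cont hρ hmg hgb hgs
  -- the integral of the Cauchy transform against a test function
  have hCi : ∀ φ : ℂ → ℂ, Test univ φ → Integrable fun z => Cau g z * dzb φ z := by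
    intro φ hφ
    have h1 := (QC.Test.dz hφ).2
    exact (hcont.mul h1.smooth.continuous).integrable_of_hasCompactSupport h1.cpt.mul_left
  have hW1 : DifferentiableOn ℂ (TT V h ψ) (V ∩ U) := by
    apply QC.weyl_cont (hV.inter hU)
    · rw [hT]
      refine ContinuousOn.sub ?_ hcont.continuousOn
      have h1 : ContinuousOn (fun w => ψ w * h w) (V ∩ U) :=
        hψ.smooth.continuous.continuousOn.mul hh.continuousOn
      refine h1.congr fun z hz => ?_
      rw [hA, indicator_of_mem hz.1]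
    · intro φ hφ
      have hφ' : Test univ φ := ⟨hφ.smooth, hφ.cpt, subset_univ _⟩
      have hDφ := (QC.Test.dz hφ').2
      have hAi : Integrable fun z => A z * dzb φ z :=
        (hDφ.smooth.continuous.integrable_of_hasCompactSupport hDφ.cpt).bdd_mul
          hmA.aestronglyMeasurable (Eventually.of_forall hAb)
      have h1 : ∫ z, TT V h ψ z * dzb φ z = (∫ z, A z * dzb φ z) - ∫ z, Cau g z * dzb φ z := by
        rw [← integral_sub hAi (hCi φ hφ')]
        refine integral_congr_ae (Eventually.of_forall fun z => ?_)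
        show (A z - Cau g z) * dzb φ z = _
        ring
      have hcd : ContDiffOn ℝ 1 (fun w => ψ w * h w) (V ∩ U) := by
        have h2 : ContDiffOn ℂ 1 h (V ∩ U) := hh.contDiffOn (hV.inter hU)
        exact (hψ.smooth.of_le (by simp)).contDiffOn.mul (h2.restrict_scalars ℝ)
      have h2 := (QC.integral_mul_dz (hV.inter hU) hcd (hφ.smooth.of_le (by simp)) hφ.cpt
        hφ.sub).2
      have h3 : ∫ z, A z * dzb φ z = ∫ z, ψ z * h z * dzb φ z := by
        refine integral_congr_ae (Eventually.of_forall fun z => ?_)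
        show A z * dzb φ z = ψ z * h z * dzb φ z
        by_cases hz : z ∈ V ∩ U
        · rw [hA, indicator_of_mem hz.1]
        · rw [test_zero (QC.Test.dz hφ).2 hz, mul_zero, mul_zero]
      have h4 : ∫ z, dzb (fun w => ψ w * h w) z * φ z = ∫ z, g z * φ z := by
        refine integral_congr_ae (Eventually.of_forall fun z => ?_)
        show dzb (fun w => ψ w * h w) z * φ z = g z * φ z
        by_cases hz : z ∈ V ∩ U
        · have h5 : DifferentiableAt ℂ h z := hh.differentiableAt ((hV.inter hU).mem_nhds hz)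
          have h6 : DifferentiableAt ℝ ψ z := (hψ.smooth.differentiable (by simp)) z
          rw [(QC.dz_mul h6 (h5.restrictScalars ℝ)).2, (QC.dz_of_holo h5).2, hg,
            indicator_of_mem hz.1]
          ring
        · rw [test_zero hφ hz, mul_zero, mul_zero]
      rw [h1, h3, h2, h4, cauBdd_weak hmg hgb hgs hφ']
      ring
  have hW2 : DifferentiableOn ℂ (TT V h ψ) (tsupport ψ)ᶜ := by
    have hTz : ∀ z ∈ (tsupport ψ)ᶜ, TT V h ψ z = -Cau g z := by
      intro z hz
      rw [hT]
      show A z - Cau g z = -Cau g z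
      have : A z = 0 := by
        rw [hA]
        by_cases hzV : z ∈ V
        · rw [indicator_of_mem hzV, test_zero hψ' hz, zero_mul]
        · rw [indicator_of_notMem hzV]
      rw [this, zero_sub]
    apply QC.weyl_cont (isClosed_tsupport ψ).isOpen_compl
    · exact hcont.neg.continuousOn.congr hTz
    · intro φ hφ
      have hφ' : Test univ φ := ⟨hφ.smooth, hφ.cpt, subset_univ _⟩
      have h1 : ∫ z, TT V h ψ z * dzb φ z = -∫ z, Cau g z * dzb φ z := by
        rw [← integral_neg]
        refine integral_congr_ae (Eventually.of_forall fun z => ?_)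
        show TT V h ψ z * dzb φ z = -(Cau g z * dzb φ z)
        by_cases hz : z ∈ (tsupport ψ)ᶜ
        · rw [hTz z hz, neg_mul]
        · rw [test_zero (QC.Test.dz hφ).2 hz, mul_zero, mul_zero, neg_zero]
      have h2 : ∫ z, g z * φ z = 0 := by
        refine integral_eq_zero_of_ae (Eventually.of_forall fun z => ?_)
        show g z * φ z = 0
        by_cases hz : z ∈ (tsupport ψ)ᶜ
        · rw [hg0 z hz, zero_mul]
        · rw [test_zero hφ hz, mul_zero]
      rw [h1, cauBdd_weak hmg hgb hgs hφ', h2]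
      simp
  intro z hz
  refine DifferentiableAt.differentiableWithinAt ?_
  by_cases hz' : z ∈ tsupport ψ
  · have hzV : z ∈ V := by
      by_contra h1
      exact hz ⟨hz', h1⟩
    exact hW1.differentiableAt ((hV.inter hU).mem_nhds ⟨hzV, hψ.sub hz'⟩)
  · exact hW2.differentiableAt ((isClosed_tsupport ψ).isOpen_compl.mem_nhds hz')

/-- measurability of the two pieces -/
theorem TT_meas {V U : Set ℂ} {h ψ : ℂ → ℂ} (hV : IsOpen V) (hU : IsOpen U)
    (hh : DifferentiableOn ℂ h (V ∩ U)) (hψ : Test U ψ) :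
    Measurable (V.indicator fun w => ψ w * h w) ∧ Measurable (V.indicator fun w => h w * dzb ψ w) :=
  tt_meas hV hU hh hψ

end Pool.Agent.Work.MP_2cf110_an.Hyp

end
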