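import Pool.Agent.Work.MP_2cf110_an.Hyp.CutF
import Pool.Agent.Work.MP_2cf110_an.Hyp.CauBdd
import Pool.Agent.Work.MP_2cf110_an.Hyp.CauBdd2
import Pool.Agent.Work.MP_217185_an.Weyl
import Pool.Agent.Work.MP_2cf110_an.Hyp.VitA

/-! # The replacement functions

al V a R h = Cau g with g = 1_V h dzb (cut a (6R) (8R)), which vanishes on ball a (6R) and outside closedBall a (8R) and is
bounded by N C/R: bounded (cauBdd_le), analytic on ball a (6R) (QC.weyl_cont). -/

open MeasureTheory Complex Set Metric Filter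
open scoped Topology ContDiff ComplexConjugate

noncomputable section

namespace Pool.Agent.Work.MP_2cf110_an.Hyp

open QC (dz dzb Test Cau)

theorem al_facts : ∃ C : ℝ, 0 < C ∧ ∀ (V : Set ℂ) (a : ℂ) (R N : ℝ) (h : ℂ → ℂ), IsOpen V → 0 < R →
    0 ≤ N → DifferentiableOn ℂ h (V ∩ ball a (10 * R)) → (∀ z ∈ V ∩ ball a (10 * R), ‖h z‖ ≤ N) →
    DifferentiableOn ℂ (al V a R h) (ball a (6 * R)) ∧ Continuous (al V a R h) ∧
    ∀ z, ‖al V a R h z‖ ≤ C * N := by
  obtain ⟨C₀, hC₀, hD⟩ := cut_dzb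
  refine ⟨14 * C₀, by linarith, fun V a R N h hV hR hN hh hb => ?_⟩
  have h6 : (0 : ℝ) < 6 * R := by linarith
  have h68 : 6 * R < 8 * R := by linarith
  obtain ⟨hT, hsup, -, -, hin, hout⟩ := cut_facts (a := a) h6 h68
  have hsub : closedBall a (8 * R) ⊆ ball a (10 * R) :=
    closedBall_subset_ball (by linarith)
  have hT' : Test (ball a (10 * R)) (cut a (6 * R) (8 * R)) :=
    ⟨hT.smooth, hT.cpt, hsup.trans hsub⟩
  obtain ⟨g, hg⟩ : ∃ g : ℂ → ℂ, g = V.indicator fun w => h w * dzb (cut a (6 * R) (8 * R)) w :=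
    ⟨_, rfl⟩
  have hal : al V a R h = Cau g := by rw [hg]; rfl
  have hm : Measurable g := by
    rw [hg]
    exact (TT_meas hV isOpen_ball hh hT').2
  have h28 : C₀ * (8 * R) / ((8 * R) ^ 2 - (6 * R) ^ 2) = 2 / 7 * C₀ / R := by
    field_simp
    ring
  have hle : ∀ z, ‖g z‖ ≤ N * (2 / 7 * C₀ / R) := by
    intro z
    have hpos : 0 ≤ N * (2 / 7 * C₀ / R) := by positivity
    rw [hg]
    by_cases hz : z ∈ V
    swap
    · rw [indicator_of_notMem hz, norm_zero]
      exact hpos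
    rw [indicator_of_mem hz]
    by_cases hz2 : z ∈ closedBall a (8 * R)
    swap
    · rw [hout z hz2, mul_zero, norm_zero]
      exact hpos
    rw [norm_mul]
    refine mul_le_mul (hb z ⟨hz, hsub hz2⟩) ?_ (norm_nonneg _) hN
    rw [← h28]
    exact hD a (6 * R) (8 * R) h6 h68 z
  have hs : ∀ z, z ∉ closedBall a (8 * R) → g z = 0 := by
    intro z hz
    rw [hg]
    by_cases hzV : z ∈ V
    · rw [indicator_of_mem hzV, hout z hz, mul_zero]
    · rw [indicator_of_notMem hzV]
  have h0 : ∀ z ∈ ball a (6 * R), g z = 0 := by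
    intro z hz
    rw [hg]
    by_cases hzV : z ∈ V
    · rw [indicator_of_mem hzV, hin z hz, mul_zero]
    · rw [indicator_of_notMem hzV]
  have h8 : (0 : ℝ) < 8 * R := by linarith
  have hcont : Continuous (Cau g) := cauBdd_cont h8 hm hle hs
  rw [hal]
  refine ⟨QC.weyl_cont isOpen_ball hcont.continuousOn fun φ hφ => ?_, hcont, fun z => ?_⟩
  · rw [cauBdd_weak hm hle hs ⟨hφ.smooth, hφ.cpt, subset_univ _⟩]
    have : (fun z => g z * φ z) = fun _ => 0 := by
      funext z
      by_cases hz : z ∈ ball a (6 * R)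
      · rw [h0 z hz, zero_mul]
      · rw [image_eq_zero_of_notMem_tsupport fun hz' => hz (hφ.sub hz'), mul_zero]
    rw [this, integral_zero, neg_zero]
  · refine (cauBdd_le h8 hm hle hs z).trans ?_
    have h9 : 6 * (8 * R) * (N * (2 / 7 * C₀ / R)) = 96 / 7 * C₀ * N := by
      field_simp
      ring
    rw [h9]
    have : 0 ≤ C₀ * N := by positivity
    nlinarith

end Pool.Agent.Work.MP_2cf110_an.Hyp

end
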