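import Pool.Agent.Work.MP_2cf110_an.Hyp.Defs

/-! # The algebra of the comparison

Triangle inequalities.  With A_j = Σ x_i σ_ij: Σ α_j A_j = 1 + O(e), Σ α_j G_j = 1 + O(e), so
Σ x_i β_ip + Σ_j α_j (A_j G_p - A_p G_j) = A_p + O(e) + G_p - A_p = G_p + O(e).
dA_j = Σ dx_i σ_ij + x_i dσ_ij: Σ α_j dA_j = Σ dx_i (1 + O(e)) + O(eT) = O(eT); Σ α_j dG_j = Σ F_j dG_j + O(eT) = O(eT);
dA_p = Σ dx_i β_ip + O(eT). -/

open MeasureTheory Complex Set Metric Filter
open scoped Topology ContDiff ComplexConjugate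

noncomputable section

namespace Pool.Agent.Work.MP_2cf110_an.Hyp

open QC (dz dzb Test Cau)

private theorem nsum {m : ℕ} {f : Fin m → ℂ} {B : ℝ} (h : ∀ i, ‖f i‖ ≤ B) :
    ‖∑ i, f i‖ ≤ m * B := by
  calc ‖∑ i, f i‖ ≤ ∑ _i : Fin m, B := norm_sum_le_of_le _ (fun i _ => h i)
    _ = m * B := by simp

private theorem nmul {a b : ℂ} {A B : ℝ} (ha : ‖a‖ ≤ A) (hb : ‖b‖ ≤ B) : ‖a * b‖ ≤ A * B := by
  rw [norm_mul]
  exact mul_le_mul ha hb (norm_nonneg _) ((norm_nonneg _).trans ha)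

private theorem nadd {a b : ℂ} {A B : ℝ} (ha : ‖a‖ ≤ A) (hb : ‖b‖ ≤ B) : ‖a + b‖ ≤ A + B :=
  (norm_add_le _ _).trans (add_le_add ha hb)

private theorem nsub {a b : ℂ} {A B : ℝ} (ha : ‖a‖ ≤ A) (hb : ‖b‖ ≤ B) : ‖a - b‖ ≤ A + B :=
  (norm_sub_le _ _).trans (add_le_add ha hb)

theorem algE (n L : ℕ) {K : ℝ} (hK : 1 ≤ K) : ∃ C : ℝ, 0 < C ∧
    ∀ (e T : ℝ) (F α G dF dG : Fin n → ℂ) (β σ dσ : Fin L → Fin n → ℂ) (x dx : Fin L → ℂ),
    0 ≤ e → e ≤ K → 0 ≤ T → (∀ j, ‖F j‖ ≤ K) → (∀ j, ‖G j‖ ≤ K) → (∀ j, ‖dG j‖ ≤ K * T) →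
    (∀ i, ‖x i‖ ≤ 1) → (∀ i, ‖dx i‖ ≤ K * T) → ∑ i, x i = 1 → ∑ i, dx i = 0 →
    (∀ j, ‖F j - α j‖ ≤ K * e) → (∀ j, ‖dF j‖ ≤ K * (e * T)) →
    ∑ j, F j * G j = 1 → ∑ j, (dF j * G j + F j * dG j) = 0 →
    (∀ i, (x i = 0 ∧ dx i = 0) ∨ ((∀ j, ‖β i j‖ ≤ K) ∧ (∀ j, ‖σ i j - β i j‖ ≤ K * e) ∧
      ‖∑ j, α j * β i j - 1‖ ≤ K * e ∧ ∀ j, ‖dσ i j‖ ≤ K * (e * T))) →
    ∀ p,
    ‖(∑ i, x i * β i p + ∑ j, α j * ((∑ i, x i * σ i j) * G p - (∑ i, x i * σ i p) * G j)) - G p‖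
      ≤ C * e ∧
    ‖(∑ i, dx i * β i p + ∑ j, α j *
        ((∑ i, (dx i * σ i j + x i * dσ i j)) * G p + (∑ i, x i * σ i j) * dG p
          - (∑ i, (dx i * σ i p + x i * dσ i p)) * G j - (∑ i, x i * σ i p) * dG j)) - dG p‖
      ≤ C * (e * T) := by
  have hK0 : 0 ≤ K := zero_le_one.trans hK
  obtain ⟨M, hM⟩ : ∃ M : ℝ, M = K + K * K := ⟨_, rfl⟩
  obtain ⟨t, ht⟩ : ∃ t : ℝ, t = K + n * (M * K) := ⟨_, rfl⟩
  have hM0 : 0 ≤ M := by rw [hM]; positivity
  have hn0 : (0 : ℝ) ≤ n := Nat.cast_nonneg n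
  have hL0 : (0 : ℝ) ≤ L := Nat.cast_nonneg L
  have ht0 : 0 ≤ t := by rw [ht]; positivity
  obtain ⟨C1, hC1⟩ : ∃ C1 : ℝ, C1 = L * K + (L * M) * (n * (K * K)) + (L * t) * K := ⟨_, rfl⟩
  obtain ⟨C2, hC2⟩ : ∃ C2 : ℝ, C2 = L * (K * K + K) + (L * (K * M + K * K)) * (n * (K * K)) +
    (L * t) * K + (L * (K * t + n * (M * K))) * K + (L * M) * (n * (K * K + K * K)) := ⟨_, rfl⟩
  have hC10 : 0 ≤ C1 := by rw [hC1]; positivity
  have hC20 : 0 ≤ C2 := by rw [hC2]; positivity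
  refine ⟨C1 + C2 + 1, by linarith, ?_⟩
  intro e T F α G dF dG β σ dσ x dx he heK hT hF hG hdG hx hdx hx1 hdx0 hFα hdF hFG hdFG hact p
  have heT : 0 ≤ e * T := mul_nonneg he hT
  have hα : ∀ j, ‖α j‖ ≤ M := by
    intro j
    have h1 := nsub (hF j) (hFα j)
    rw [sub_sub_cancel] at h1
    rw [hM]
    nlinarith
  -- active indices
  have hA : ∀ i, (x i = 0 ∧ dx i = 0) ∨ ((∀ j, ‖β i j‖ ≤ K) ∧ (∀ j, ‖β i j - σ i j‖ ≤ K * e) ∧
      (∀ j, ‖σ i j‖ ≤ M) ∧ ‖∑ j, α j * σ i j - 1‖ ≤ t * e ∧ ∀ j, ‖dσ i j‖ ≤ K * (e * T)) := by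
    intro i
    rcases hact i with h | ⟨h1, h2, h3, h4⟩
    · exact Or.inl h
    · right
      refine ⟨h1, fun j => by rw [norm_sub_rev]; exact h2 j, fun j => ?_, ?_, h4⟩
      · have h5 := nadd (h1 j) (h2 j)
        rw [add_sub_cancel] at h5
        rw [hM]
        nlinarith
      · have h5 : ∑ j, α j * σ i j - 1 = (∑ j, α j * β i j - 1) + ∑ j, α j * (σ i j - β i j) := by
          have h6 : ∑ j, α j * (σ i j - β i j) = ∑ j, α j * σ i j - ∑ j, α j * β i j := by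
            rw [← Finset.sum_sub_distrib]
            exact Finset.sum_congr rfl (fun j _ => by ring)
          rw [h6]
          ring
        rw [h5]
        have h6 : ‖∑ j, α j * (σ i j - β i j)‖ ≤ n * (M * (K * e)) :=
          nsum (fun j => nmul (hα j) (h2 j))
        refine (nadd h3 h6).trans (le_of_eq ?_)
        rw [ht]
        ring
  -- abbreviations
  obtain ⟨A, hAd⟩ : ∃ A : Fin n → ℂ, ∀ j, A j = ∑ i, x i * σ i j := ⟨_, fun _ => rfl⟩
  obtain ⟨D, hDd⟩ : ∃ D : Fin n → ℂ, ∀ j, D j = ∑ i, (dx i * σ i j + x i * dσ i j) :=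
    ⟨_, fun _ => rfl⟩
  simp only [← hAd, ← hDd]
  have b1 : ‖∑ i, x i * (β i p - σ i p)‖ ≤ L * (K * e) := by
    refine nsum (fun i => ?_)
    rcases hA i with ⟨h, -⟩ | ⟨-, h2, -⟩
    · rw [h, zero_mul, norm_zero]
      positivity
    · exact (nmul (hx i) (h2 p)).trans (le_of_eq (one_mul _))
  have b2 : ‖A p‖ ≤ L * M := by
    rw [hAd]
    refine nsum (fun i => ?_)
    rcases hA i with ⟨h, -⟩ | ⟨-, -, h2, -⟩
    · rw [h, zero_mul, norm_zero]
      exact hM0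
    · exact (nmul (hx i) (h2 p)).trans (le_of_eq (one_mul _))
  have b3 : ‖∑ i, x i * (∑ j, α j * σ i j - 1)‖ ≤ L * (t * e) := by
    refine nsum (fun i => ?_)
    rcases hA i with ⟨h, -⟩ | ⟨-, -, -, h2, -⟩
    · rw [h, zero_mul, norm_zero]
      positivity
    · exact (nmul (hx i) h2).trans (le_of_eq (one_mul _))
  have b4 : ‖∑ i, (dx i * (β i p - σ i p) - x i * dσ i p)‖ ≤ L * ((K * K + K) * (e * T)) := by
    refine nsum (fun i => ?_)
    rcases hA i with ⟨h, h'⟩ | ⟨-, h2, -, -, h3⟩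
    · rw [h, h', zero_mul, zero_mul, sub_zero, norm_zero]
      positivity
    · refine (nsub (nmul (hdx i) (h2 p)) (nmul (hx i) (h3 p))).trans (le_of_eq ?_)
      ring
  have b5 : ‖D p‖ ≤ L * ((K * M + K * K) * T) := by
    rw [hDd]
    refine nsum (fun i => ?_)
    rcases hA i with ⟨h, h'⟩ | ⟨-, -, h2, -, h3⟩
    · rw [h, h', zero_mul, zero_mul, add_zero, norm_zero]
      positivity
    · refine (nadd (nmul (hdx i) (h2 p)) (nmul (hx i) (h3 p))).trans ?_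
      have h5 : K * (e * T) ≤ K * (K * T) :=
        mul_le_mul_of_nonneg_left (mul_le_mul_of_nonneg_right heK hT) hK0
      linarith
  have b6 : ‖∑ i, (dx i * (∑ j, α j * σ i j - 1) + x i * ∑ j, α j * dσ i j)‖ ≤
      L * ((K * t + n * (M * K)) * (e * T)) := by
    refine nsum (fun i => ?_)
    rcases hA i with ⟨h, h'⟩ | ⟨-, -, -, h2, h3⟩
    · rw [h, h', zero_mul, zero_mul, add_zero, norm_zero]
      positivity
    · have h4 : ‖∑ j, α j * dσ i j‖ ≤ n * (M * (K * (e * T))) :=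
        nsum (fun j => nmul (hα j) (h3 j))
      refine (nadd (nmul (hdx i) h2) (nmul (hx i) h4)).trans (le_of_eq ?_)
      ring
  have hαF : ∀ j, ‖α j - F j‖ ≤ K * e := fun j => by
    rw [norm_sub_rev]
    exact hFα j
  have b7 : ‖∑ j, (α j - F j) * G j‖ ≤ n * (K * e * K) :=
    nsum (fun j => nmul (hαF j) (hG j))
  have b8 : ‖∑ j, ((α j - F j) * dG j - dF j * G j)‖ ≤ n * ((K * K + K * K) * (e * T)) := by
    refine nsum (fun j => ?_)
    refine (nsub (nmul (hαF j) (hdG j)) (nmul (hdF j) (hG j))).trans (le_of_eq ?_)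
    ring
  -- the identities
  have i3 : ∑ i, x i * (∑ j, α j * σ i j - 1) = ∑ j, α j * A j - 1 := by
    have h1 : ∑ j, α j * A j = ∑ i, x i * ∑ j, α j * σ i j := by
      simp only [hAd, Finset.mul_sum]
      rw [Finset.sum_comm]
      exact Finset.sum_congr rfl (fun i _ => Finset.sum_congr rfl (fun j _ => by ring))
    have h2 : ∑ i, x i * (∑ j, α j * σ i j - 1) = ∑ i, x i * ∑ j, α j * σ i j - ∑ i, x i := by
      rw [← Finset.sum_sub_distrib]
      exact Finset.sum_congr rfl (fun i _ => by ring)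
    rw [h1, h2, hx1]
  have i6 : ∑ i, (dx i * (∑ j, α j * σ i j - 1) + x i * ∑ j, α j * dσ i j) = ∑ j, α j * D j := by
    have h1 : ∑ j, α j * D j = ∑ i, (dx i * ∑ j, α j * σ i j + x i * ∑ j, α j * dσ i j) := by
      simp only [hDd, Finset.mul_sum, ← Finset.sum_add_distrib]
      rw [Finset.sum_comm]
      exact Finset.sum_congr rfl (fun i _ => Finset.sum_congr rfl (fun j _ => by ring))
    have h2 : ∑ i, (dx i * (∑ j, α j * σ i j - 1) + x i * ∑ j, α j * dσ i j) =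
        ∑ i, (dx i * ∑ j, α j * σ i j + x i * ∑ j, α j * dσ i j) - ∑ i, dx i := by
      rw [← Finset.sum_sub_distrib]
      exact Finset.sum_congr rfl (fun i _ => by ring)
    rw [h1, h2, hdx0, sub_zero]
  have i7 : ∑ j, (α j - F j) * G j = ∑ j, α j * G j - 1 := by
    rw [← hFG, ← Finset.sum_sub_distrib]
    exact Finset.sum_congr rfl (fun j _ => by ring)
  have i8 : ∑ j, ((α j - F j) * dG j - dF j * G j) = ∑ j, α j * dG j := by
    have h1 : ∑ j, ((α j - F j) * dG j - dF j * G j) =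
        ∑ j, α j * dG j - ∑ j, (dF j * G j + F j * dG j) := by
      rw [← Finset.sum_sub_distrib]
      exact Finset.sum_congr rfl (fun j _ => by ring)
    rw [h1, hdFG, sub_zero]
  have i1 : ∑ i, x i * (β i p - σ i p) = ∑ i, x i * β i p - A p := by
    rw [hAd, ← Finset.sum_sub_distrib]
    exact Finset.sum_congr rfl (fun i _ => by ring)
  have i4 : ∑ i, (dx i * (β i p - σ i p) - x i * dσ i p) = ∑ i, dx i * β i p - D p := by
    rw [hDd, ← Finset.sum_sub_distrib]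
    exact Finset.sum_congr rfl (fun i _ => by ring)
  constructor
  · have h1 : ∑ j, α j * (A j * G p - A p * G j) =
        (∑ j, α j * A j) * G p - A p * ∑ j, α j * G j := by
      rw [Finset.sum_mul, Finset.mul_sum, ← Finset.sum_sub_distrib]
      exact Finset.sum_congr rfl (fun j _ => by ring)
    have h2 : (∑ i, x i * β i p + ∑ j, α j * (A j * G p - A p * G j)) - G p =
        ∑ i, x i * (β i p - σ i p) - A p * (∑ j, (α j - F j) * G j) +
          (∑ i, x i * (∑ j, α j * σ i j - 1)) * G p := by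
      rw [h1, i1, i7, i3]
      ring
    rw [h2]
    refine (nadd (nsub b1 (nmul b2 b7)) (nmul b3 (hG p))).trans ?_
    have h3 : L * (K * e) + L * M * (n * (K * e * K)) + L * (t * e) * K = C1 * e := by
      rw [hC1]
      ring
    rw [h3]
    nlinarith
  · have h1 : ∑ j, α j * (D j * G p + A j * dG p - D p * G j - A p * dG j) =
        (∑ j, α j * D j) * G p + (∑ j, α j * A j) * dG p - D p * ∑ j, α j * G j -
          A p * ∑ j, α j * dG j := by
      rw [Finset.sum_mul, Finset.sum_mul, Finset.mul_sum, Finset.mul_sum,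
        ← Finset.sum_add_distrib, ← Finset.sum_sub_distrib, ← Finset.sum_sub_distrib]
      exact Finset.sum_congr rfl (fun j _ => by ring)
    have h2 : (∑ i, dx i * β i p + ∑ j, α j * (D j * G p + A j * dG p - D p * G j - A p * dG j)) -
        dG p = ∑ i, (dx i * (β i p - σ i p) - x i * dσ i p) -
          D p * (∑ j, (α j - F j) * G j) +
          (∑ i, x i * (∑ j, α j * σ i j - 1)) * dG p +
          (∑ i, (dx i * (∑ j, α j * σ i j - 1) + x i * ∑ j, α j * dσ i j)) * G p -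
          A p * ∑ j, ((α j - F j) * dG j - dF j * G j) := by
      rw [h1, i4, i7, i3, i6, i8]
      ring
    rw [h2]
    refine (nsub (nadd (nadd (nsub b4 (nmul b5 b7)) (nmul b3 (hdG p))) (nmul b6 (hG p)))
      (nmul b2 b8)).trans ?_
    have h3 : L * ((K * K + K) * (e * T)) + L * ((K * M + K * K) * T) * (n * (K * e * K)) +
        L * (t * e) * (K * T) + L * ((K * t + n * (M * K)) * (e * T)) * K +
        L * M * (n * ((K * K + K * K) * (e * T))) = C2 * (e * T) := by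
      rw [hC2]
      ring
    rw [h3]
    nlinarith

end Pool.Agent.Work.MP_2cf110_an.Hyp

end
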