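import Pool.Agent.Work.MP_2cf110_an.Hyp.Defs

/-! # The cut-off functions

The argument of smoothTransition is a polynomial in (z.re, z.im), so cut is smooth; derivative by the chain rule:
the derivative of smoothTransition is bounded (see gl_sT in MP_217185_an/GlueA) and ∂̄‖z-a‖² = z - a; it
vanishes unless ρ₁ ≤ ‖z - a‖ ≤ ρ₂. -/

open MeasureTheory Complex Set Metric Filter
open scoped Topology ContDiff ComplexConjugate

noncomputable section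

namespace Pool.Agent.Work.MP_2cf110_an.Hyp

open QC (dz dzb Test Cau)

private theorem cut_zero {a : ℂ} {ρ₁ ρ₂ : ℝ} (h1 : 0 < ρ₁) (h2 : ρ₁ < ρ₂) {z : ℂ}
    (hz : ρ₂ ≤ ‖z - a‖) : cut a ρ₁ ρ₂ z = 0 := by
  have h3 : 0 < ρ₂ ^ 2 - ρ₁ ^ 2 := by nlinarith
  have h4 : (ρ₂ ^ 2 - ‖z - a‖ ^ 2) / (ρ₂ ^ 2 - ρ₁ ^ 2) ≤ 0 := by
    apply div_nonpos_of_nonpos_of_nonneg _ h3.le
    nlinarith
  unfold cut
  rw [Real.smoothTransition.zero_of_nonpos h4, ofReal_zero]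

private theorem cut_one {a : ℂ} {ρ₁ ρ₂ : ℝ} (h1 : 0 < ρ₁) (h2 : ρ₁ < ρ₂) {z : ℂ}
    (hz : ‖z - a‖ ≤ ρ₁) : cut a ρ₁ ρ₂ z = 1 := by
  have h3 : 0 < ρ₂ ^ 2 - ρ₁ ^ 2 := by nlinarith
  have h4 : 1 ≤ (ρ₂ ^ 2 - ‖z - a‖ ^ 2) / (ρ₂ ^ 2 - ρ₁ ^ 2) := by
    rw [le_div_iff₀ h3]
    nlinarith [norm_nonneg (z - a)]
  unfold cut
  rw [Real.smoothTransition.one_of_one_le h4, ofReal_one]

private theorem dzb_const {f : ℂ → ℂ} {z c : ℂ} (h : f =ᶠ[𝓝 z] fun _ => c) : dzb f z = 0 := by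
  unfold QC.dzb
  rw [h.fderiv_eq]
  simp

theorem cut_facts {a : ℂ} {ρ₁ ρ₂ : ℝ} (h1 : 0 < ρ₁) (h2 : ρ₁ < ρ₂) :
    Test univ (cut a ρ₁ ρ₂) ∧ tsupport (cut a ρ₁ ρ₂) ⊆ closedBall a ρ₂ ∧
    (∀ z, ‖cut a ρ₁ ρ₂ z‖ ≤ 1) ∧ (∀ z ∈ closedBall a ρ₁, cut a ρ₁ ρ₂ z = 1) ∧
    (∀ z ∈ ball a ρ₁, dzb (cut a ρ₁ ρ₂) z = 0) ∧
    (∀ z ∉ closedBall a ρ₂, dzb (cut a ρ₁ ρ₂) z = 0) := by
  have hsub : tsupport (cut a ρ₁ ρ₂) ⊆ closedBall a ρ₂ := by
    refine closure_minimal ?_ isClosed_closedBall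
    intro z hz
    rw [mem_closedBall, dist_eq]
    by_contra h
    exact hz (cut_zero h1 h2 (not_le.1 h).le)
  refine ⟨⟨?_, ?_, subset_univ _⟩, hsub, ?_, ?_, ?_, ?_⟩
  · unfold cut
    apply ofRealCLM.contDiff.comp
    apply Real.smoothTransition.contDiff.comp
    apply ContDiff.div_const
    apply contDiff_const.sub
    exact (contDiff_norm_sq ℝ).comp (contDiff_id.sub contDiff_const)
  · exact (isCompact_closedBall a ρ₂).of_isClosed_subset (isClosed_tsupport _) hsub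
  · intro z
    unfold cut
    rw [norm_real, Real.norm_eq_abs, abs_of_nonneg (Real.smoothTransition.nonneg _)]
    exact Real.smoothTransition.le_one _
  · intro z hz
    rw [mem_closedBall, dist_eq] at hz
    exact cut_one h1 h2 hz
  · intro z hz
    refine dzb_const (c := 1) ?_
    filter_upwards [isOpen_ball.mem_nhds hz] with w hw
    rw [mem_ball, dist_eq] at hw
    exact cut_one h1 h2 hw.le
  · intro z hz
    refine dzb_const (c := 0) ?_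
    filter_upwards [isClosed_closedBall.isOpen_compl.mem_nhds hz] with w hw
    rw [mem_compl_iff, mem_closedBall, dist_eq, not_le] at hw
    exact cut_zero h1 h2 hw.le

private theorem sT_bound : ∃ C : ℝ, 0 ≤ C ∧ ∀ x, |deriv Real.smoothTransition x| ≤ C := by
  have hc : Continuous (deriv Real.smoothTransition) :=
    (Real.smoothTransition.contDiff (n := 1)).continuous_deriv le_rfl
  have h1 : ∀ x, 1 < x → deriv Real.smoothTransition x = 0 := by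
    intro x hx
    have h : Real.smoothTransition =ᶠ[𝓝 x] fun _ => (1 : ℝ) := by
      filter_upwards [isOpen_Ioi.mem_nhds hx] with y hy
      exact Real.smoothTransition.one_of_one_le (le_of_lt hy)
    rw [h.deriv_eq]
    simp
  have h0 : ∀ x, x < 0 → deriv Real.smoothTransition x = 0 := by
    intro x hx
    have h : Real.smoothTransition =ᶠ[𝓝 x] fun _ => (0 : ℝ) := by
      filter_upwards [isOpen_Iio.mem_nhds hx] with y hy
      exact Real.smoothTransition.zero_of_nonpos (le_of_lt hy)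
    rw [h.deriv_eq]
    simp
  obtain ⟨C, hC⟩ := (isCompact_Icc (a := (0 : ℝ)) (b := 1)).exists_bound_of_continuousOn
    hc.continuousOn
  have hC0 : 0 ≤ C := (norm_nonneg _).trans (hC 0 ⟨le_rfl, zero_le_one⟩)
  refine ⟨C, hC0, fun x => ?_⟩
  rcases lt_or_ge x 0 with hx | hx
  · rw [h0 x hx, abs_zero]; exact hC0
  rcases lt_or_ge 1 x with hx' | hx'
  · rw [h1 x hx', abs_zero]; exact hC0
  · exact hC x ⟨hx, hx'⟩

theorem cut_dzb : ∃ C : ℝ, 1 ≤ C ∧ ∀ (a : ℂ) (ρ₁ ρ₂ : ℝ), 0 < ρ₁ → ρ₁ < ρ₂ → ∀ z,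
    ‖dzb (cut a ρ₁ ρ₂) z‖ ≤ C * ρ₂ / (ρ₂ ^ 2 - ρ₁ ^ 2) := by
  obtain ⟨C, hC0, hC⟩ := sT_bound
  refine ⟨2 * C + 1, by linarith, fun a ρ₁ ρ₂ h1 h2 z => ?_⟩
  have h3 : 0 < ρ₂ ^ 2 - ρ₁ ^ 2 := by nlinarith
  obtain ⟨D, hD⟩ : ∃ D : ℝ, D = ρ₂ ^ 2 - ρ₁ ^ 2 := ⟨_, rfl⟩
  rw [← hD] at h3 ⊢
  have hρ : 0 < ρ₂ := h1.trans h2
  by_cases hz : z ∈ closedBall a ρ₂
  swap
  · rw [(cut_facts h1 h2).2.2.2.2.2 z hz, norm_zero]
    positivity
  rw [mem_closedBall, dist_eq] at hz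
  have hg : HasFDerivAt (fun z : ℂ => (ρ₂ ^ 2 - ‖z - a‖ ^ 2) / D)
      ((-(1 / D)) • ((2 : ℝ) • innerSL ℝ (z - a))) z := by
    have h4 : HasFDerivAt (fun w : ℂ => ‖w‖ ^ 2) ((2 : ℝ) • innerSL ℝ (z - a)) (z - a) := by
      have h0 := (hasStrictFDerivAt_norm_sq (F := ℂ) (z - a)).hasFDerivAt
      refine h0.congr_fderiv ?_
      rw [two_smul, two_smul]
    have h5 : HasFDerivAt (fun w : ℂ => ‖w - a‖ ^ 2) ((2 : ℝ) • innerSL ℝ (z - a)) z := by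
      have h6 := h4.comp z ((hasFDerivAt_id z).sub_const a)
      rw [ContinuousLinearMap.comp_id] at h6
      exact h6
    have h6 := (h5.const_sub (ρ₂ ^ 2)).const_mul (1 / D)
    have h7 : (fun w : ℂ => (ρ₂ ^ 2 - ‖w - a‖ ^ 2) / D) =
        fun w : ℂ => 1 / D * (ρ₂ ^ 2 - ‖w - a‖ ^ 2) := by
      funext w
      ring
    rw [h7]
    refine h6.congr_fderiv ?_
    rw [smul_neg, neg_smul]
  obtain ⟨t, ht⟩ : ∃ t : ℝ, t = (ρ₂ ^ 2 - ‖z - a‖ ^ 2) / D := ⟨_, rfl⟩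
  have hs : HasDerivAt Real.smoothTransition (deriv Real.smoothTransition t)
      ((ρ₂ ^ 2 - ‖z - a‖ ^ 2) / D) := by
    rw [← ht]
    exact ((Real.smoothTransition.contDiff (n := 1)).differentiable (by simp) _).hasDerivAt
  have hE : HasFDerivAt (cut a ρ₁ ρ₂) (ofRealCLM.comp
      ((deriv Real.smoothTransition t) • ((-(1 / D)) • ((2 : ℝ) • innerSL ℝ (z - a))))) z := by
    have h4 := ofRealCLM.hasFDerivAt.comp z (hs.comp_hasFDerivAt z hg)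
    refine h4.congr_of_eventuallyEq (Eventually.of_forall fun x => ?_)
    simp only [cut, hD, Function.comp_apply, ofRealCLM_apply]
  refine (QC.norm_dzb_le _ _).trans ?_
  rw [hE.fderiv]
  refine (ContinuousLinearMap.opNorm_comp_le _ _).trans ?_
  rw [ofRealCLM_norm, one_mul, norm_smul, norm_smul, norm_smul, innerSL_apply_norm,
    Real.norm_eq_abs, Real.norm_eq_abs, Real.norm_eq_abs, abs_two, abs_neg,
    abs_of_pos (by positivity : 0 < 1 / D)]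
  have h8 : |deriv Real.smoothTransition t| * (1 / D * (2 * ‖z - a‖)) ≤
      C * (1 / D * (2 * ρ₂)) := by
    have h9 : 1 / D * (2 * ‖z - a‖) ≤ 1 / D * (2 * ρ₂) := by
      apply mul_le_mul_of_nonneg_left _ (by positivity)
      linarith
    exact mul_le_mul (hC t) h9 (by positivity) hC0
  refine h8.trans ?_
  have h9 : C * (1 / D * (2 * ρ₂)) = (2 * C) * ρ₂ / D := by ring
  rw [h9]
  have h10 : 2 * C * ρ₂ ≤ (2 * C + 1) * ρ₂ := by nlinarith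
  exact div_le_div_of_nonneg_right h10 h3.le

end Pool.Agent.Work.MP_2cf110_an.Hyp

end
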