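import Pool.Agent.Work.MP_2cf110_an.Hyp.Green
import Pool.Agent.Work.MP_2cf110_an.Hyp.CutF

/-! # Basic facts on the capacity

green with φ = cut a (2ρ) (3ρ): π |c| ≤ ∫ |dzb φ| ≤ (C 3ρ/(5ρ²)) area(closedBall a (3ρ)).  Adm E 0 0 holds. -/

open MeasureTheory Complex Set Metric Filter
open scoped Topology ContDiff ComplexConjugate

noncomputable section

namespace Pool.Agent.Work.MP_2cf110_an.Hyp

open QC (dz dzb Test Cau)

theorem adm_le : ∃ C : ℝ, 0 < C ∧ ∀ (E : Set ℂ) (a : ℂ) (ρ : ℝ) (b : ℂ → ℂ) (c : ℂ), 0 < ρ →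
    E ⊆ closedBall a ρ → Adm E b c → ‖c‖ ≤ C * ρ := by
  obtain ⟨C, hC1, hC⟩ := cut_dzb
  refine ⟨6 * C, by linarith, fun E a ρ b c hρ hE h => ?_⟩
  have h2 : 0 < 2 * ρ := by linarith
  have h3 : 2 * ρ < 3 * ρ := by linarith
  obtain ⟨f1, f2, f3, f4, f5, f6⟩ := cut_facts (a := a) h2 h3
  have hg := green (h.holo.mono (compl_subset_compl.2 hE)) h.lim f1 (show ρ < 2 * ρ by linarith)
    (fun z hz => f4 z (ball_subset_closedBall hz))
  have hB : ∀ z, ‖b z * dzb (cut a (2 * ρ) (3 * ρ)) z‖ ≤ C * (3 / 5) / ρ := by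
    intro z
    rw [norm_mul]
    have h4 := hC a (2 * ρ) (3 * ρ) h2 h3 z
    have h5 : C * (3 * ρ) / ((3 * ρ) ^ 2 - (2 * ρ) ^ 2) = C * (3 / 5) / ρ := by
      field_simp
      ring
    rw [h5] at h4
    calc ‖b z‖ * ‖dzb (cut a (2 * ρ) (3 * ρ)) z‖ ≤ 1 * ‖dzb (cut a (2 * ρ) (3 * ρ)) z‖ :=
          mul_le_mul_of_nonneg_right (h.le z) (norm_nonneg _)
      _ ≤ C * (3 / 5) / ρ := by rw [one_mul]; exact h4
  have hvol : volume (closedBall a (3 * ρ)) < ⊤ := (isCompact_closedBall _ _).measure_lt_top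
  have hvr : volume.real (closedBall a (3 * ρ)) = (3 * ρ) ^ 2 * Real.pi := by
    rw [Measure.real, Complex.volume_closedBall, ENNReal.toReal_mul, ENNReal.toReal_pow,
      ENNReal.toReal_ofReal (by linarith)]
    rfl
  have h6 : ∫ z in closedBall a (3 * ρ), b z * dzb (cut a (2 * ρ) (3 * ρ)) z =
      ∫ z, b z * dzb (cut a (2 * ρ) (3 * ρ)) z := by
    apply setIntegral_eq_integral_of_forall_compl_eq_zero
    intro z hz
    rw [f6 z hz, mul_zero]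
  have h7 := norm_setIntegral_le_of_norm_le_const hvol (fun z _ => hB z)
  rw [h6, hg, hvr, norm_neg, norm_mul, Complex.norm_real, Real.norm_eq_abs,
    abs_of_pos Real.pi_pos] at h7
  have h8 : C * (3 / 5) / ρ * ((3 * ρ) ^ 2 * Real.pi) = Real.pi * (27 / 5 * C * ρ) := by
    field_simp
    ring
  rw [h8] at h7
  have h9 := le_of_mul_le_mul_left h7 Real.pi_pos
  nlinarith [mul_pos (show 0 < C by linarith) hρ]

private theorem adm_zero (E : Set ℂ) : Adm E (fun _ => 0) 0 := by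
  refine ⟨measurable_const, fun z => by rw [norm_zero]; exact zero_le_one,
    differentiableOn_const _, ?_⟩
  have h : (fun z : ℂ => z * (0 : ℂ)) = fun _ => 0 := by
    funext z
    exact mul_zero z
  rw [h]
  exact tendsto_const_nhds

theorem cap_nonneg (E : Set ℂ) : 0 ≤ cap E := by
  apply Real.sSup_nonneg
  rintro t ⟨b, c, -, rfl⟩
  exact norm_nonneg c

private theorem cap_bdd {E : Set ℂ} {a : ℂ} {ρ : ℝ} (hE : E ⊆ closedBall a ρ) :
    BddAbove {t | ∃ b c, Adm E b c ∧ t = ‖c‖} := by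
  obtain ⟨C, -, hC⟩ := adm_le
  refine ⟨C * (|ρ| + 1), ?_⟩
  rintro t ⟨b, c, h, rfl⟩
  refine hC E a (|ρ| + 1) b c (by positivity) (hE.trans (closedBall_subset_closedBall ?_)) h
  linarith [le_abs_self ρ]

theorem le_cap {E : Set ℂ} {a : ℂ} {ρ : ℝ} (hE : E ⊆ closedBall a ρ) {b : ℂ → ℂ} {c : ℂ}
    (h : Adm E b c) : ‖c‖ ≤ cap E :=
  le_csSup (cap_bdd hE) ⟨b, c, h, rfl⟩

theorem cap_le : ∃ C : ℝ, 0 < C ∧ ∀ (E : Set ℂ) (a : ℂ) (ρ : ℝ), 0 < ρ →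
    E ⊆ closedBall a ρ → cap E ≤ C * ρ := by
  obtain ⟨C, hC0, hC⟩ := adm_le
  refine ⟨C, hC0, fun E a ρ hρ hE => ?_⟩
  apply Real.sSup_le _ (by positivity)
  rintro t ⟨b, c, h, rfl⟩
  exact hC E a ρ b c hρ hE h

theorem exists_half {E : Set ℂ} (h : 0 < cap E) : ∃ b c, Adm E b c ∧ cap E / 2 ≤ ‖c‖ := by
  have hne : {t | ∃ b c, Adm E b c ∧ t = ‖c‖}.Nonempty := ⟨_, _, _, adm_zero E, rfl⟩
  obtain ⟨t, ⟨b, c, h1, rfl⟩, h2⟩ := exists_lt_of_lt_csSup hne (show cap E / 2 < cap E by linarith)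
  exact ⟨b, c, h1, h2.le⟩

end Pool.Agent.Work.MP_2cf110_an.Hyp

end
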