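import Pool.Agent.Work.MP_2cf110_an.Hyp.CauBdd
import Pool.Agent.Work.MP_2cf110_an.Hyp.CauBdd2
import Pool.Agent.Work.MP_2cf110_an.Hyp.CapB
import Pool.Agent.Work.MP_217185_an.Weyl

/-! # Area and capacity

b = Cau (1_E) / (72 R): bounded by 1 (cauBdd_le), analytic off E (QC.weyl_cont and cauBdd_weak), z b → area(E)/(72 π R). -/

open MeasureTheory Complex Set Metric Filter
open scoped Topology ContDiff ComplexConjugate

noncomputable section

namespace Pool.Agent.Work.MP_2cf110_an.Hyp

open QC (dz dzb Test Cau)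

theorem area_le : ∃ C : ℝ, 0 < C ∧ ∀ (E : Set ℂ) (a : ℂ) (R : ℝ), 0 < R → IsCompact E →
    E ⊆ closedBall a (12 * R) → volume.real E ≤ C * R * cap E := by
  refine ⟨72 * Real.pi, by positivity, fun E a R hR hE hsub => ?_⟩
  set g : ℂ → ℂ := E.indicator (fun _ => (1 : ℂ)) with hg
  have hEm : MeasurableSet E := hE.measurableSet
  have gm : Measurable g := measurable_const.indicator hEm
  have gb : ∀ z, ‖g z‖ ≤ 1 := fun z => by
    rw [hg]
    refine (norm_indicator_le_norm_self _ _).trans ?_
    simp
  have gs : ∀ z, z ∉ closedBall a (12 * R) → g z = 0 := fun z hz => by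
    rw [hg]
    exact indicator_of_notMem (fun h => hz (hsub h)) _
  have hR' : (0 : ℝ) < 12 * R := by positivity
  have hc : ((72 * R : ℝ) : ℂ) ≠ 0 := by
    exact_mod_cast (by positivity : (72 * R : ℝ) ≠ 0)
  have hi : ∫ z, g z = ((volume.real E : ℝ) : ℂ) := by
    rw [hg, integral_indicator hEm, setIntegral_const, Complex.real_smul, mul_one]
  have hadm : Adm E (fun z => Cau g z / ((72 * R : ℝ) : ℂ))
      ((1 / (Real.pi : ℂ)) * ((volume.real E : ℝ) : ℂ) / ((72 * R : ℝ) : ℂ)) := by
    have hcont := cauBdd_cont hR' gm gb gs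
    refine ⟨(hcont.measurable).div_const _, fun z => ?_, ?_, ?_⟩
    · rw [norm_div, Complex.norm_real, Real.norm_of_nonneg (by positivity),
        div_le_one (by positivity)]
      have := cauBdd_le hR' gm gb gs z
      linarith
    · refine DifferentiableOn.div_const ?_ _
      refine QC.weyl_cont hE.isClosed.isOpen_compl hcont.continuousOn fun φ hφ => ?_
      rw [cauBdd_weak gm gb gs ⟨hφ.smooth, hφ.cpt, subset_univ _⟩, neg_eq_zero]
      refine integral_eq_zero_of_ae (Eventually.of_forall fun z => ?_)
      by_cases hz : z ∈ E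
      · have : φ z = 0 := image_eq_zero_of_notMem_tsupport (fun h => (hφ.sub h) hz)
        simp [this]
      · have : g z = 0 := by rw [hg]; exact indicator_of_notMem hz _
        simp [this]
    · have h1 := (cauBdd_lim gm gb gs).div_const ((72 * R : ℝ) : ℂ)
      rw [hi] at h1
      refine h1.congr fun z => ?_
      ring
  have h1 := le_cap hsub hadm
  rw [norm_div, norm_mul, norm_div, norm_one, Complex.norm_real, Complex.norm_real,
    Complex.norm_real, Real.norm_of_nonneg Real.pi_pos.le,
    Real.norm_of_nonneg (measureReal_nonneg), Real.norm_of_nonneg (by positivity)] at h1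
  rw [div_le_iff₀ (by positivity), one_div, inv_mul_le_iff₀ Real.pi_pos] at h1
  linarith

end Pool.Agent.Work.MP_2cf110_an.Hyp

end
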