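import Pool.Agent.Work.MP_2cf110_an.Hyp.Defs

/-! # Measurability and integrability of the data

f j is continuous on the open set V, so the indicator is measurable; bounded measurable functions are locally integrable. -/

open MeasureTheory Complex Set Metric Filter
open scoped Topology ContDiff ComplexConjugate

noncomputable section

namespace Pool.Agent.Work.MP_2cf110_an.Hyp

open QC (dz dzb Test Cau)

variable {n L : ℕ} {s K : ℝ} {V : Set ℂ} {f : Fin n → ℂ → ℂ} {X : Fin L → ℂ → ℂ}
  {g : Fin L → Fin n → ℂ → ℂ}

theorem Data.f_meas (D : Data s K V f X g) (j : Fin n) : Measurable (V.indicator (f j)) := by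
  classical
  rw [← Set.piecewise_eq_indicator]
  exact ContinuousOn.measurable_piecewise (D.f_holo j).continuousOn continuousOn_const
    D.V_open.measurableSet

theorem Data.f_ind (D : Data s K V f X g) (hK : 0 ≤ K) (j : Fin n) (z : ℂ) :
    ‖V.indicator (f j) z‖ ≤ K := by
  by_cases hz : z ∈ V
  · rw [Set.indicator_of_mem hz]
    exact D.f_le j z hz
  · rw [Set.indicator_of_notMem hz, norm_zero]
    exact hK

theorem Data.g_ind (D : Data s K V f X g) (hK : 0 ≤ K) (i : Fin L) (j : Fin n) (z : ℂ) :
    ‖V.indicator (g i j) z‖ ≤ K := by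
  by_cases hz : z ∈ V
  · rw [Set.indicator_of_mem hz]
    exact D.g_le i j z
  · rw [Set.indicator_of_notMem hz, norm_zero]
    exact hK

theorem li_of_bdd {h : ℂ → ℂ} {N : ℝ} (hm : Measurable h) (hb : ∀ z, ‖h z‖ ≤ N) :
    LocallyIntegrable h := by
  have h1 : MemLp h ⊤ (volume : Measure ℂ) :=
    memLp_top_of_bound hm.aestronglyMeasurable N (Filter.Eventually.of_forall hb)
  exact h1.locallyIntegrable le_top

end Pool.Agent.Work.MP_2cf110_an.Hyp

end
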