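import Pool.Agent.Work.MP_2cf110_an.Hyp.KerA

/-! # Kernels: bound of the integral transform

|∫ f K_z| ≤ N C y^(-d) area(closedBall z (s y)). -/

open MeasureTheory Complex Set Metric Filter
open scoped Topology ContDiff ComplexConjugate

noncomputable section

namespace Pool.Agent.Work.MP_2cf110_an.Hyp

open QC (dz dzb Test Cau)

theorem Ker.int_le {s : ℝ} {d : ℕ} {K : ℂ → ℂ → ℂ} (hs : 0 < s) (h : Ker s d K) :
    ∃ C : ℝ, 0 < C ∧ ∀ (f : ℂ → ℂ) (N : ℝ) (z : ℂ), z ∈ Hp →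
      (∀ ζ ∈ closedBall z (s * z.im), ‖f ζ‖ ≤ N) →
      ‖∫ ζ, f ζ * K z ζ‖ ≤ C * N * z.im ^ 2 / z.im ^ d := by
  obtain ⟨C, hC, hb⟩ := h.bound
  refine ⟨C * (Real.pi * s ^ 2), by positivity, ?_⟩
  intro f N z hz hf
  have hy : 0 < z.im := hz
  have hr : 0 ≤ s * z.im := by positivity
  have hN : 0 ≤ N := (norm_nonneg _).trans (hf z (mem_closedBall_self hr))
  have h1 : ∫ ζ, f ζ * K z ζ = ∫ ζ in closedBall z (s * z.im), f ζ * K z ζ := by
    symm
    apply setIntegral_eq_integral_of_forall_compl_eq_zero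
    intro ζ hζ
    rw [mem_closedBall, dist_eq_norm, not_le] at hζ
    rw [h.supp z hz ζ hζ, mul_zero]
  have h2 : ∀ ζ ∈ closedBall z (s * z.im), ‖f ζ * K z ζ‖ ≤ N * (C / z.im ^ d) := by
    intro ζ hζ
    rw [norm_mul]
    exact mul_le_mul (hf ζ hζ) (hb z hz ζ) (norm_nonneg _) hN
  have h3 := norm_setIntegral_le_of_norm_le_const (μ := (volume : Measure ℂ))
    (s := closedBall z (s * z.im)) measure_closedBall_lt_top h2
  rw [h1]
  refine h3.trans (le_of_eq ?_)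
  rw [Measure.real, Complex.volume_closedBall, ENNReal.toReal_mul, ENNReal.toReal_pow,
    ENNReal.toReal_ofReal hr, ENNReal.coe_toReal, NNReal.coe_real_pi]
  ring

end Pool.Agent.Work.MP_2cf110_an.Hyp

end
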