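import Pool.Agent.Work.MP_2cf110_an.Hyp.SmF
import Pool.Agent.Work.MP_2cf110_an.Hyp.KerE

/-! # Bounds for the smoothing of a bounded function

Ker.int_le for kap, dz_left kap, dzb_right psi, dzb_right psi1 (degrees 2, 3, 3, 4) and Ker.par_deriv. -/

open MeasureTheory Complex Set Metric Filter
open scoped Topology ContDiff ComplexConjugate

noncomputable section

namespace Pool.Agent.Work.MP_2cf110_an.Hyp

open QC (dz dzb Test Cau)

private theorem smG_dz_const {f : ℂ → ℂ} {z : ℂ} (c : ℂ) (hf : DifferentiableAt ℝ f z) :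
    dz (fun w => c * f w) z = c * dz f z := by
  have h : fderiv ℝ (fun w => c * f w) z = c • fderiv ℝ f z := fderiv_const_mul hf c
  unfold QC.dz
  rw [h]
  simp only [smul_apply, smul_eq_mul]
  ring

private theorem smG_dz {s : ℝ} (hs : 0 < s) {h : ℂ → ℂ} (hh : LocallyIntegrable h) {z : ℂ}
    (hz : z ∈ Hp) :
    dz (Sm s h) z = (1 / (Real.pi : ℂ)) * ∫ ζ, h ζ * dz (fun w => kap s w ζ) z := by
  have hd : DifferentiableAt ℝ (fun z => ∫ ζ, h ζ * kap s z ζ) z :=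
    (((kap_ker hs).par_smooth hh).differentiableOn (by simp)).differentiableAt
      (isOpen_Hp.mem_nhds hz)
  have h1 : dz (Sm s h) z = (1 / (Real.pi : ℂ)) * dz (fun z => ∫ ζ, h ζ * kap s z ζ) z :=
    smG_dz_const _ hd
  rw [h1, ((kap_ker hs).par_deriv hh hz).1]

private theorem smG_pi : ‖(1 / (Real.pi : ℂ))‖ ≤ 1 := by
  rw [norm_div, norm_one, Complex.norm_real, Real.norm_of_nonneg Real.pi_pos.le,
    div_le_iff₀ Real.pi_pos]
  linarith [Real.pi_gt_three]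

private theorem smG_mul (x : ℂ) : ‖(1 / (Real.pi : ℂ)) * x‖ ≤ ‖x‖ := by
  rw [norm_mul]
  exact mul_le_of_le_one_left (norm_nonneg _) smG_pi

private theorem smG_aux {s : ℝ} {d : ℕ} {K : ℂ → ℂ → ℂ} (h : Ker s d K) {C : ℝ}
    (hC : ∀ z ∈ Hp, ∀ ζ, ‖K z ζ‖ ≤ C / z.im ^ d) {k : ℂ → ℂ} (hk : LocallyIntegrable k) {z : ℂ}
    (hz : z ∈ Hp) :
    ‖(1 / (Real.pi : ℂ)) * ∫ ζ, k ζ * K z ζ‖
      ≤ C / z.im ^ d * ∫ ζ in closedBall z (s * z.im), ‖k ζ‖ := by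
  have hset : ∫ ζ, k ζ * K z ζ = ∫ ζ in closedBall z (s * z.im), k ζ * K z ζ := by
    refine (setIntegral_eq_integral_of_forall_compl_eq_zero fun ζ hζ => ?_).symm
    rw [mem_closedBall, not_le, dist_eq_norm] at hζ
    rw [h.supp z hz ζ hζ, mul_zero]
  have hint : IntegrableOn (fun ζ => ‖k ζ‖) (closedBall z (s * z.im)) :=
    (hk.integrableOn_isCompact (isCompact_closedBall _ _)).norm
  have hb : ‖∫ ζ in closedBall z (s * z.im), k ζ * K z ζ‖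
      ≤ ∫ ζ in closedBall z (s * z.im), C / z.im ^ d * ‖k ζ‖ := by
    refine norm_integral_le_of_norm_le (hint.const_mul _) (Eventually.of_forall fun ζ => ?_)
    rw [norm_mul, mul_comm]
    exact mul_le_mul_of_nonneg_right (hC z hz ζ) (norm_nonneg _)
  rw [integral_const_mul] at hb
  refine (smG_mul _).trans ?_
  rw [hset]
  exact hb

private theorem smG_pow {y : ℝ} (hy : 0 < y) (A : ℝ) : A * y ^ 2 / y ^ 2 = A ∧
    A * y ^ 2 / y ^ 3 = A / y ∧ A * y ^ 2 / y ^ 4 = A / y ^ 2 := by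
  refine ⟨?_, ?_, ?_⟩ <;> field_simp

theorem sm_bounds {s : ℝ} (hs : 0 < s) : ∃ C : ℝ, 0 < C ∧ ∀ (h : ℂ → ℂ) (N : ℝ), Measurable h →
    (∀ z, ‖h z‖ ≤ N) → ∀ z ∈ Hp,
    ‖Sm s h z‖ ≤ C * N ∧ ‖dz (Sm s h) z‖ ≤ C * N / z.im ∧ ‖dzb (Sm s h) z‖ ≤ C * N / z.im ∧
    ‖dz (dzb (Sm s h)) z‖ ≤ C * N / z.im ^ 2 := by
  obtain ⟨C1, hC1, hb1⟩ := Ker.int_le hs (kap_ker hs)
  obtain ⟨C2, hC2, hb2⟩ := Ker.int_le hs (kap_ker hs).dz_left
  obtain ⟨C3, hC3, hb3⟩ := Ker.int_le hs (psi_ker hs).dzb_right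
  obtain ⟨C4, hC4, hb4⟩ := Ker.int_le hs (psi1_ker hs).dzb_right
  refine ⟨C1 + C2 + C3 + C4, by positivity, fun h N hm hN z hz => ?_⟩
  have hy : 0 < z.im := hz
  have hN0 : 0 ≤ N := (norm_nonneg _).trans (hN 0)
  have hl : LocallyIntegrable h := by
    refine (MeasureTheory.locallyIntegrable_const N).mono hm.aestronglyMeasurable
      (Eventually.of_forall fun w => ?_)
    rw [Real.norm_of_nonneg hN0]
    exact hN w
  obtain ⟨p1, p2, p3⟩ := smG_pow hy (C1 * N)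
  have q : ∀ ζ ∈ closedBall z (s * z.im), ‖h ζ‖ ≤ N := fun ζ _ => hN ζ
  refine ⟨?_, ?_, ?_, ?_⟩
  · refine (smG_mul _).trans ((hb1 h N z hz q).trans ?_)
    rw [(smG_pow hy (C1 * N)).1]
    exact mul_le_mul_of_nonneg_right (by linarith) hN0
  · rw [smG_dz hs hl hz]
    refine (smG_mul _).trans ((hb2 h N z hz q).trans ?_)
    rw [(smG_pow hy (C2 * N)).2.1]
    exact div_le_div_of_nonneg_right (mul_le_mul_of_nonneg_right (by linarith) hN0) hy.le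
  · rw [sm_dzb hs hl hz]
    refine (smG_mul _).trans ((hb3 h N z hz q).trans ?_)
    rw [(smG_pow hy (C3 * N)).2.1]
    exact div_le_div_of_nonneg_right (mul_le_mul_of_nonneg_right (by linarith) hN0) hy.le
  · rw [sm_dz_dzb hs hl hz]
    refine (smG_mul _).trans ((hb4 h N z hz q).trans ?_)
    rw [(smG_pow hy (C4 * N)).2.2]
    exact div_le_div_of_nonneg_right (mul_le_mul_of_nonneg_right (by linarith) hN0)
      (pow_nonneg hy.le 2)

/-- sharp bound of `Sm`: the kernel is nonnegative of mass `π` is not needed; a weak form on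
balls: if `h` is only bounded by `N` on `closedBall z (s Im z)` -/
theorem sm_bounds_loc {s : ℝ} (hs : 0 < s) : ∃ C : ℝ, 0 < C ∧ ∀ (h : ℂ → ℂ),
    LocallyIntegrable h → ∀ z ∈ Hp,
    ‖Sm s h z‖ ≤ C / z.im ^ 2 * ∫ ζ in closedBall z (s * z.im), ‖h ζ‖ ∧
    ‖dz (Sm s h) z‖ ≤ C / z.im ^ 3 * ∫ ζ in closedBall z (s * z.im), ‖h ζ‖ := by
  obtain ⟨C1, hC1, hb1⟩ := (kap_ker hs).bound
  obtain ⟨C2, hC2, hb2⟩ := (kap_ker hs).dz_left.bound
  have h1 : ∀ z ∈ Hp, ∀ ζ, ‖kap s z ζ‖ ≤ max C1 C2 / z.im ^ 2 := fun z hz ζ =>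
    (hb1 z hz ζ).trans (div_le_div_of_nonneg_right (le_max_left _ _) (pow_nonneg (le_of_lt hz) _))
  have h2 : ∀ z ∈ Hp, ∀ ζ, ‖dz (fun w => kap s w ζ) z‖ ≤ max C1 C2 / z.im ^ 3 := fun z hz ζ =>
    (hb2 z hz ζ).trans (div_le_div_of_nonneg_right (le_max_right _ _) (pow_nonneg (le_of_lt hz) _))
  refine ⟨max C1 C2, lt_max_of_lt_left hC1, fun h hh z hz => ⟨?_, ?_⟩⟩
  · exact smG_aux (kap_ker hs) h1 hh hz
  · rw [smG_dz hs hh hz]
    exact smG_aux (K := fun z ζ => dz (fun w => kap s w ζ) z) (kap_ker hs).dz_left h2 hh hz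

end Pool.Agent.Work.MP_2cf110_an.Hyp

end
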