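import Pool.Agent.Work.MP_2cf110_an.Hyp.MacS
import Pool.Agent.Work.MP_2cf110_an.Hyp.SmG

/-! # Bounds for the macroscopic functions

sm_bounds, lam_nsq, product rules QC.dz_mul, QC.dz_conj. -/

open MeasureTheory Complex Set Metric Filter
open scoped Topology ContDiff ComplexConjugate

noncomputable section

namespace Pool.Agent.Work.MP_2cf110_an.Hyp

open QC (dz dzb Test Cau)

private theorem macB_mul {u v : ℂ → ℂ} {z : ℂ} {A A' B B' : ℝ} (hu : DifferentiableAt ℝ u z)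
    (hv : DifferentiableAt ℝ v z) (h1 : ‖u z‖ ≤ A) (h2 : ‖dzb u z‖ ≤ A') (h3 : ‖v z‖ ≤ B)
    (h4 : ‖dzb v z‖ ≤ B') :
    ‖u z * v z‖ ≤ A * B ∧ ‖dzb (fun z => u z * v z) z‖ ≤ A' * B + A * B' := by
  have hA : 0 ≤ A := (norm_nonneg _).trans h1
  have hA' : 0 ≤ A' := (norm_nonneg _).trans h2
  refine ⟨?_, ?_⟩
  · rw [norm_mul]
    exact mul_le_mul h1 h3 (norm_nonneg _) hA
  · rw [(QC.dz_mul hu hv).2]
    refine (norm_add_le _ _).trans ?_
    rw [norm_mul, norm_mul]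
    exact add_le_add (mul_le_mul h2 h3 (norm_nonneg _) hA') (mul_le_mul h1 h4 (norm_nonneg _) hA)

private theorem macB_sum {L : ℕ} {u : Fin L → ℂ → ℂ} {z : ℂ} {A B : ℝ}
    (hu : ∀ c, DifferentiableAt ℝ (u c) z) (h1 : ∀ c, ‖u c z‖ ≤ A) (h2 : ∀ c, ‖dzb (u c) z‖ ≤ B) :
    ‖∑ c, u c z‖ ≤ L * A ∧ ‖dzb (fun z => ∑ c, u c z) z‖ ≤ L * B := by
  have hd : dzb (fun z => ∑ c, u c z) z = ∑ c, dzb (u c) z := by
    unfold QC.dzb
    rw [fderiv_fun_sum (fun c _ => hu c)]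
    simp only [sum_apply]
    rw [Finset.mul_sum, ← Finset.sum_add_distrib, Finset.sum_div]
  refine ⟨?_, ?_⟩
  · refine (norm_sum_le _ _).trans ?_
    have h := Finset.sum_le_card_nsmul Finset.univ (fun c => ‖u c z‖) A fun c _ => h1 c
    simpa using h
  · rw [hd]
    refine (norm_sum_le _ _).trans ?_
    have h := Finset.sum_le_card_nsmul Finset.univ (fun c => ‖dzb (u c) z‖) B fun c _ => h2 c
    simpa using h

theorem mac_bounds {n L : ℕ} {s K c : ℝ} (hs : 0 < s) (hK : 0 ≤ K) (hc : 0 < c) :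
    ∃ C : ℝ, 0 < C ∧
    ∀ (V : Set ℂ) (f : Fin n → ℂ → ℂ) (X : Fin L → ℂ → ℂ) (g : Fin L → Fin n → ℂ → ℂ),
    Data s K V f X g → ∀ z ∈ Hp,
    (∀ j, ‖FF s V f j z‖ ≤ C ∧ ‖dz (FF s V f j) z‖ ≤ C / z.im ∧ ‖dzb (FF s V f j) z‖ ≤ C / z.im) ∧
    (∀ p, ‖Gm c (FF s V f) p z‖ ≤ C ∧ ‖dzb (Gm c (FF s V f) p) z‖ ≤ C / z.im) ∧
    (∀ j, ‖AA s V X g j z‖ ≤ C ∧ ‖dzb (AA s V X g j) z‖ ≤ C / z.im) ∧
    (∀ j p, ‖BB s c V f X g j p z‖ ≤ C ∧ ‖dzb (BB s c V f X g j p) z‖ ≤ C / z.im) := by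
  obtain ⟨C0, hC0, hsm⟩ := sm_bounds hs
  obtain ⟨C1, hC1e⟩ : ∃ C1, C1 = C0 * K + 1 := ⟨_, rfl⟩
  have hC1 : 0 < C1 := by
    rw [hC1e]
    have := mul_nonneg hC0.le hK
    linarith
  have hKC : C0 * K ≤ C1 := by
    rw [hC1e]
    linarith
  obtain ⟨C', hC', hlam⟩ := lam_nsq (n := n) hc hC1
  obtain ⟨G, hG⟩ : ∃ G, G = C' * C1 := ⟨_, rfl⟩
  obtain ⟨G1, hG1⟩ : ∃ G1, G1 = C' * (n * (2 * C1)) * C1 + C' * C1 := ⟨_, rfl⟩
  obtain ⟨A, hA⟩ : ∃ A, A = (L : ℝ) * C1 := ⟨_, rfl⟩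
  obtain ⟨A1, hA1⟩ : ∃ A1, A1 = (L : ℝ) * (K * C1 + C1) := ⟨_, rfl⟩
  have hG0 : 0 ≤ G := by rw [hG]; positivity
  have hG10 : 0 ≤ G1 := by rw [hG1]; positivity
  have hA0 : 0 ≤ A := by rw [hA]; positivity
  have hA10 : 0 ≤ A1 := by rw [hA1]; positivity
  have hB0 : 0 ≤ 2 * (A * G) := by positivity
  have hB10 : 0 ≤ 2 * (A1 * G + A * G1) := by positivity
  obtain ⟨C, hC⟩ : ∃ C, C = C1 + G + G1 + A + A1 + 2 * (A * G) + 2 * (A1 * G + A * G1) := ⟨_, rfl⟩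
  refine ⟨C, by rw [hC]; linarith, fun V f X g D z hz => ?_⟩
  have hy : 0 < z.im := hz
  have hnhd : Hp ∈ 𝓝 z := isOpen_Hp.mem_nhds hz
  have hFs : ∀ j, ContDiffOn ℝ ∞ (FF s V f j) Hp := fun j => mac_FF hs hK D j
  have hdiff : ∀ {u : ℂ → ℂ}, ContDiffOn ℝ ∞ u Hp → DifferentiableAt ℝ u z := fun h =>
    (h.contDiffAt hnhd).differentiableAt (by simp)
  have hdivle : ∀ {t u : ℝ}, t ≤ u → t / z.im ≤ u / z.im := fun h =>
    div_le_div_of_nonneg_right h hy.le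
  -- the functions F
  have hF : ∀ j, ‖FF s V f j z‖ ≤ C1 ∧ ‖dz (FF s V f j) z‖ ≤ C1 / z.im ∧
      ‖dzb (FF s V f j) z‖ ≤ C1 / z.im := by
    intro j
    have h := hsm (V.indicator (f j)) K (D.f_meas j) (D.f_ind hK j) z hz
    exact ⟨h.1.trans hKC, h.2.1.trans (hdivle hKC), h.2.2.1.trans (hdivle hKC)⟩
  have hg : ∀ i j, ‖Sm s (V.indicator (g i j)) z‖ ≤ C1 ∧
      ‖dzb (Sm s (V.indicator (g i j))) z‖ ≤ C1 / z.im := by
    intro i j
    have h := hsm (V.indicator (g i j)) K (D.g_meas i j) (D.g_ind hK i j) z hz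
    exact ⟨h.1.trans hKC, h.2.2.1.trans (hdivle hKC)⟩
  -- the functions G
  have hGm : ∀ p, ‖Gm c (FF s V f) p z‖ ≤ G ∧ ‖dzb (Gm c (FF s V f) p) z‖ ≤ G1 / z.im := by
    intro p
    obtain ⟨h1, h2⟩ := hlam (FF s V f) hFs
    obtain ⟨h3, -, h4⟩ := h2 z hz fun j => (hF j).1
    have h5 : ∑ j, (‖dz (FF s V f j) z‖ + ‖dzb (FF s V f j) z‖) ≤ n * (2 * C1) / z.im := by
      have h6 := Finset.sum_le_card_nsmul Finset.univ
        (fun j => ‖dz (FF s V f j) z‖ + ‖dzb (FF s V f j) z‖) (2 * C1 / z.im) fun j _ => by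
          have h7 := (hF j).2.1
          have h8 := (hF j).2.2
          have h9 : 2 * C1 / z.im = C1 / z.im + C1 / z.im := by ring
          rw [h9]
          exact add_le_add h7 h8
      rw [Finset.card_univ, Fintype.card_fin, nsmul_eq_mul] at h6
      rw [mul_div_assoc]
      exact h6
    have h6 : ‖dzb (fun z => ((lam c (nsq (FF s V f) z) : ℝ) : ℂ)) z‖
        ≤ C' * (n * (2 * C1) / z.im) := h4.trans (mul_le_mul_of_nonneg_left h5 hC'.le)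
    have h7 : ‖((lam c (nsq (FF s V f) z) : ℝ) : ℂ)‖ ≤ C' := by
      rw [Complex.norm_real, Real.norm_eq_abs]
      exact h3
    have h8 : ‖conj (FF s V f p z)‖ ≤ C1 := by
      rw [Complex.norm_conj]
      exact (hF p).1
    have h9 : ‖dzb (fun z => conj (FF s V f p z)) z‖ ≤ C1 / z.im := by
      rw [(QC.dz_conj _ z).2, Complex.norm_conj]
      exact (hF p).2.1
    have hcd : DifferentiableAt ℝ (fun z => conj (FF s V f p z)) z :=
      hdiff (Complex.conjCLE.contDiff.comp_contDiffOn (hFs p))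
    obtain ⟨h10, h11⟩ := macB_mul (hdiff h1) hcd h7 h6 h8 h9
    refine ⟨?_, ?_⟩
    · rw [hG]
      exact h10
    · refine le_trans h11 (le_of_eq ?_)
      rw [hG1]
      ring
  -- the functions A
  have hAA : ∀ j, ‖AA s V X g j z‖ ≤ A ∧ ‖dzb (AA s V X g j) z‖ ≤ A1 / z.im := by
    intro j
    have hSs : ∀ i, DifferentiableAt ℝ (Sm s (V.indicator (g i j))) z := fun i =>
      hdiff (sm_smooth hs (li_of_bdd (D.g_meas i j) (D.g_ind hK i j)))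
    have h1 : ∀ i, ‖X i z * Sm s (V.indicator (g i j)) z‖ ≤ 1 * C1 ∧
        ‖dzb (fun z => X i z * Sm s (V.indicator (g i j)) z) z‖ ≤
          K / z.im * C1 + 1 * (C1 / z.im) := fun i =>
      macB_mul (hdiff (D.X_smooth i)) (hSs i) (D.X_le i z hz) (D.X_der i z hz) (hg i j).1 (hg i j).2
    obtain ⟨h2, h3⟩ := macB_sum (z := z) (u := fun i z => X i z * Sm s (V.indicator (g i j)) z)
      (fun i => (hdiff (D.X_smooth i)).mul (hSs i)) (fun i => (h1 i).1) (fun i => (h1 i).2)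
    refine ⟨?_, ?_⟩
    · rw [hA]
      rw [one_mul] at h2
      exact h2
    · refine le_trans h3 (le_of_eq ?_)
      rw [hA1]
      ring
  -- the functions B
  have hBB : ∀ j p, ‖BB s c V f X g j p z‖ ≤ 2 * (A * G) ∧
      ‖dzb (BB s c V f X g j p) z‖ ≤ 2 * (A1 * G + A * G1) / z.im := by
    intro j p
    have dA : ∀ j, DifferentiableAt ℝ (AA s V X g j) z := fun j => hdiff (mac_AA hs hK D j)
    have dG : ∀ j, DifferentiableAt ℝ (Gm c (FF s V f) j) z := fun j => hdiff (mac_Gm hs hK hc D j)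
    obtain ⟨h1, h2⟩ := macB_mul (dA j) (dG p) (hAA j).1 (hAA j).2 (hGm p).1 (hGm p).2
    obtain ⟨h3, h4⟩ := macB_mul (dA p) (dG j) (hAA p).1 (hAA p).2 (hGm j).1 (hGm j).2
    refine ⟨?_, ?_⟩
    · refine (norm_sub_le _ _).trans ?_
      linarith
    · have h5 : dzb (BB s c V f X g j p) z =
          dzb (fun z => AA s V X g j z * Gm c (FF s V f) p z) z -
          dzb (fun z => AA s V X g p z * Gm c (FF s V f) j z) z :=
        (QC.dz_sub ((dA j).mul (dG p)) ((dA p).mul (dG j))).2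
      rw [h5]
      refine (norm_sub_le _ _).trans ((add_le_add h2 h4).trans (le_of_eq ?_))
      ring
  have e1 : C1 ≤ C := by rw [hC]; linarith
  have e2 : G ≤ C := by rw [hC]; linarith
  have e3 : G1 ≤ C := by rw [hC]; linarith
  have e4 : A ≤ C := by rw [hC]; linarith
  have e5 : A1 ≤ C := by rw [hC]; linarith
  have e6 : 2 * (A * G) ≤ C := by rw [hC]; linarith
  have e7 : 2 * (A1 * G + A * G1) ≤ C := by rw [hC]; linarith
  exact ⟨fun j => ⟨(hF j).1.trans e1, (hF j).2.1.trans (hdivle e1), (hF j).2.2.trans (hdivle e1)⟩,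
    fun p => ⟨(hGm p).1.trans e2, (hGm p).2.trans (hdivle e3)⟩,
    fun j => ⟨(hAA j).1.trans e4, (hAA j).2.trans (hdivle e5)⟩,
    fun j p => ⟨(hBB j p).1.trans e6, (hBB j p).2.trans (hdivle e7)⟩⟩

end Pool.Agent.Work.MP_2cf110_an.Hyp

end
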