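import Pool.Agent.Work.MP_2cf110_an.Hyp.Defs

/-! # The function lam

lam c is smooth: near t ≤ 0 it vanishes (for t < c/2 the numerator is zero).  lam c t = 1/t for c ≤ t. -/

open MeasureTheory Complex Set Metric Filter
open scoped Topology ContDiff ComplexConjugate

noncomputable section

namespace Pool.Agent.Work.MP_2cf110_an.Hyp

open QC (dz dzb Test Cau)

theorem lam_smooth {c : ℝ} (hc : 0 < c) : ContDiff ℝ ∞ (lam c) := by
  rw [contDiff_iff_contDiffAt]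
  intro t
  by_cases ht : t < c / 2
  · have h : lam c =ᶠ[𝓝 t] fun _ => (0 : ℝ) := by
      filter_upwards [Iio_mem_nhds ht] with u hu
      unfold lam
      rw [Real.smoothTransition.zero_of_nonpos, zero_div]
      rw [mem_Iio] at hu
      exact div_nonpos_of_nonpos_of_nonneg (by linarith) hc.le
    exact contDiffAt_const.congr_of_eventuallyEq h
  · have ht0 : t ≠ 0 := by
      push Not at ht
      have : 0 < t := by linarith
      exact this.ne'
    unfold lam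
    refine ContDiffAt.div ?_ contDiffAt_id ht0
    exact Real.smoothTransition.contDiffAt.comp t
      (((contDiffAt_const.mul contDiffAt_id).sub contDiffAt_const).div_const c)

theorem lam_eq {c t : ℝ} (hc : 0 < c) (ht : c ≤ t) : lam c t = 1 / t := by
  unfold lam
  rw [Real.smoothTransition.one_of_one_le]
  rw [le_div_iff₀ hc]
  linarith

private theorem nsq_smooth {n : ℕ} {F : Fin n → ℂ → ℂ} (hF : ∀ j, ContDiffOn ℝ ∞ (F j) Hp) :
    ContDiffOn ℝ ∞ (nsq F) Hp := by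
  unfold nsq
  exact ContDiffOn.sum fun j _ => (hF j).norm_sq ℝ

private theorem nsq_deriv {n : ℕ} {F : Fin n → ℂ → ℂ} {z : ℂ}
    (hF : ∀ j, DifferentiableAt ℝ (F j) z) {C : ℝ} (hC : ∀ j, ‖F j z‖ ≤ C) :
    ‖fderiv ℝ (nsq F) z‖ ≤ 2 * C * ∑ j, (‖dz (F j) z‖ + ‖dzb (F j) z‖) := by
  have h : HasFDerivAt (nsq F)
      (∑ j, 2 • (innerSL ℝ (F j z)).comp (fderiv ℝ (F j) z)) z := by
    unfold nsq
    exact HasFDerivAt.fun_sum fun j _ => (hF j).hasFDerivAt.norm_sq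
  rw [h.fderiv, Finset.mul_sum]
  refine (norm_sum_le _ _).trans (Finset.sum_le_sum fun j _ => ?_)
  have h1 : ‖(2 : ℕ) • (innerSL ℝ (F j z)).comp (fderiv ℝ (F j) z)‖
      ≤ 2 * ‖(innerSL ℝ (F j z)).comp (fderiv ℝ (F j) z)‖ := by
    refine (norm_nsmul_le).trans ?_
    simp
  have h2 := ContinuousLinearMap.opNorm_comp_le (innerSL ℝ (F j z)) (fderiv ℝ (F j) z)
  rw [innerSL_apply_norm] at h2
  have h3 := QC.norm_fderiv_le (F j) z
  have h4 : ‖F j z‖ * ‖fderiv ℝ (F j) z‖ ≤ C * (‖dz (F j) z‖ + ‖dzb (F j) z‖) :=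
    mul_le_mul (hC j) h3 (norm_nonneg _) ((norm_nonneg _).trans (hC j))
  calc _ ≤ _ := h1
    _ ≤ 2 * (C * (‖dz (F j) z‖ + ‖dzb (F j) z‖)) := by linarith
    _ = _ := by ring

/-- `λ(|F|²)` is smooth and has bounded derivatives -/
theorem lam_nsq {n : ℕ} {c C : ℝ} (hc : 0 < c) (hC : 0 < C) : ∃ C' : ℝ, 0 < C' ∧
    ∀ (F : Fin n → ℂ → ℂ), (∀ j, ContDiffOn ℝ ∞ (F j) Hp) →
      ContDiffOn ℝ ∞ (fun z => ((lam c (nsq F z) : ℝ) : ℂ)) Hp ∧
      ∀ z ∈ Hp, (∀ j, ‖F j z‖ ≤ C) → |lam c (nsq F z)| ≤ C' ∧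
        ‖dz (fun z => ((lam c (nsq F z) : ℝ) : ℂ)) z‖ ≤ C' * ∑ j, (‖dz (F j) z‖ + ‖dzb (F j) z‖) ∧
        ‖dzb (fun z => ((lam c (nsq F z) : ℝ) : ℂ)) z‖ ≤ C' * ∑ j, (‖dz (F j) z‖ + ‖dzb (F j) z‖) := by
  have hl := lam_smooth hc
  have hl1 : Continuous (deriv (lam c)) := hl.continuous_deriv (by simp)
  obtain ⟨M, hM⟩ := (isCompact_Icc (a := (0:ℝ)) (b := n * C ^ 2)).exists_bound_of_continuousOn
    hl.continuous.continuousOn
  obtain ⟨M1, hM1⟩ := (isCompact_Icc (a := (0:ℝ)) (b := n * C ^ 2)).exists_bound_of_continuousOn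
    hl1.continuousOn
  refine ⟨max M (|M1| * (2 * C)) + 1, ?_, fun F hF => ?_⟩
  · have : 0 ≤ |M1| * (2 * C) := by positivity
    have := le_max_right M (|M1| * (2 * C))
    linarith
  have hs := nsq_smooth hF
  refine ⟨?_, fun z hz hb => ?_⟩
  · exact Complex.ofRealCLM.contDiff.comp_contDiffOn (hl.comp_contDiffOn hs)
  have hmem : nsq F z ∈ Icc (0:ℝ) (n * C ^ 2) := by
    constructor
    · exact Finset.sum_nonneg fun j _ => by positivity
    · have : ∀ j ∈ (Finset.univ : Finset (Fin n)), ‖F j z‖ ^ 2 ≤ C ^ 2 := fun j _ =>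
        pow_le_pow_left₀ (norm_nonneg _) (hb j) 2
      have h := Finset.sum_le_card_nsmul _ _ _ this
      simpa [nsq] using h
  have hA : |lam c (nsq F z)| ≤ max M (|M1| * (2 * C)) + 1 := by
    have := hM _ hmem
    rw [Real.norm_eq_abs] at this
    have := le_max_left M (|M1| * (2 * C))
    linarith
  have hnhd : Hp ∈ 𝓝 z := isOpen_Hp.mem_nhds hz
  have hFd : ∀ j, DifferentiableAt ℝ (F j) z := fun j =>
    ((hF j).contDiffAt hnhd).differentiableAt (by simp)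
  have hnd : DifferentiableAt ℝ (nsq F) z := (hs.contDiffAt hnhd).differentiableAt (by simp)
  have hld : DifferentiableAt ℝ (lam c) (nsq F z) := hl.contDiffAt.differentiableAt (by simp)
  have hS : 0 ≤ ∑ j, (‖dz (F j) z‖ + ‖dzb (F j) z‖) :=
    Finset.sum_nonneg fun j _ => by positivity
  have hD : ‖fderiv ℝ (fun z => ((lam c (nsq F z) : ℝ) : ℂ)) z‖
      ≤ (max M (|M1| * (2 * C)) + 1) * ∑ j, (‖dz (F j) z‖ + ‖dzb (F j) z‖) := by
    have h1 : HasFDerivAt (fun z => ((lam c (nsq F z) : ℝ) : ℂ))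
        (Complex.ofRealCLM.comp ((deriv (lam c) (nsq F z)) • fderiv ℝ (nsq F) z)) z := by
      have h2 : HasFDerivAt (fun z => lam c (nsq F z))
          ((deriv (lam c) (nsq F z)) • fderiv ℝ (nsq F) z) z :=
        hld.hasDerivAt.comp_hasFDerivAt z hnd.hasFDerivAt
      exact Complex.ofRealCLM.hasFDerivAt.comp z h2
    rw [h1.fderiv]
    refine (ContinuousLinearMap.opNorm_comp_le _ _).trans ?_
    rw [Complex.ofRealCLM_norm, one_mul, norm_smul]
    have h3 := hM1 _ hmem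
    have h4 := nsq_deriv hFd hb
    have h5 : ‖deriv (lam c) (nsq F z)‖ ≤ |M1| := h3.trans (le_abs_self _)
    calc _ ≤ |M1| * (2 * C * ∑ j, (‖dz (F j) z‖ + ‖dzb (F j) z‖)) :=
          mul_le_mul h5 h4 (norm_nonneg _) (abs_nonneg _)
      _ = (|M1| * (2 * C)) * ∑ j, (‖dz (F j) z‖ + ‖dzb (F j) z‖) := by ring
      _ ≤ _ := mul_le_mul_of_nonneg_right
          (by have := le_max_right M (|M1| * (2 * C)); linarith) hS
  exact ⟨hA, (QC.norm_dz_le _ _).trans hD, (QC.norm_dzb_le _ _).trans hD⟩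

end Pool.Agent.Work.MP_2cf110_an.Hyp

end
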