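import Pool.Agent.Work.MP_2cf110_an.Hyp.Defs

/-! # Kernels: derivatives are kernels of degree d + 1

smooth: the partial derivative at (z, ζ) is the total derivative applied to (v, 0) (or (0, v));
use ContDiffOn.fderiv_of_isOpen.  supp: the condition s Im z < ‖ζ - z‖ is open in (z, ζ), so K vanishes near
(z, ζ).  hom: differentiate the identity K(l w + b, l ζ + b) = K(w, ζ)/l^d in w (or in ζ). -/

open MeasureTheory Complex Set Metric Filter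
open scoped Topology ContDiff ComplexConjugate

noncomputable section

namespace Pool.Agent.Work.MP_2cf110_an.Hyp

open QC (dz dzb Test Cau)

private theorem KerB_mem {l b : ℝ} (hl : 0 < l) {z : ℂ} (hz : z ∈ Hp) : (l * z + b : ℂ) ∈ Hp := by
  have h1 : (l * z + b : ℂ).im = l * z.im := by simp
  show 0 < (l * z + b : ℂ).im
  rw [h1]
  exact mul_pos hl hz

private theorem KerB_congr {s : ℝ} {d : ℕ} {K K' : ℂ → ℂ → ℂ} (h : Ker s d K)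
    (e : ∀ z ∈ Hp, ∀ ζ, K' z ζ = K z ζ) : Ker s d K' := by
  refine ⟨h.smooth.congr fun p hp => e p.1 hp.1 p.2, fun z hz ζ hζ => ?_,
    fun l b hl z hz ζ => ?_⟩
  · rw [e z hz ζ]
    exact h.supp z hz ζ hζ
  · rw [e _ (KerB_mem hl hz), e z hz]
    exact h.hom l b hl z hz ζ

private theorem KerB_at {s : ℝ} {d : ℕ} {K : ℂ → ℂ → ℂ} (h : Ker s d K) {z : ℂ} (hz : z ∈ Hp)
    (ζ : ℂ) : ContDiffAt ℝ ∞ (fun p : ℂ × ℂ => K p.1 p.2) (z, ζ) :=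
  h.smooth.contDiffAt ((isOpen_Hp.prod isOpen_univ).mem_nhds ⟨hz, mem_univ _⟩)

private theorem KerB_D {s : ℝ} {d : ℕ} {K : ℂ → ℂ → ℂ} (h : Ker s d K) {z : ℂ} (hz : z ∈ Hp)
    (ζ : ℂ) : HasFDerivAt (fun p : ℂ × ℂ => K p.1 p.2)
      (fderiv ℝ (fun p : ℂ × ℂ => K p.1 p.2) (z, ζ)) (z, ζ) :=
  ((KerB_at h hz ζ).differentiableAt (by simp)).hasFDerivAt

private theorem KerB_zero {s : ℝ} {d : ℕ} {K : ℂ → ℂ → ℂ} (h : Ker s d K) {z : ℂ} (hz : z ∈ Hp)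
    {ζ : ℂ} (hζ : s * z.im < ‖ζ - z‖) :
    fderiv ℝ (fun p : ℂ × ℂ => K p.1 p.2) (z, ζ) = 0 := by
  have h1 : IsOpen {p : ℂ × ℂ | 0 < p.1.im ∧ s * p.1.im < ‖p.2 - p.1‖} := by
    apply IsOpen.inter
    · exact isOpen_lt continuous_const (Complex.continuous_im.comp continuous_fst)
    · exact isOpen_lt (continuous_const.mul (Complex.continuous_im.comp continuous_fst))
        (continuous_snd.sub continuous_fst).norm
  have h2 : (fun p : ℂ × ℂ => K p.1 p.2) =ᶠ[𝓝 (z, ζ)] fun _ => (0 : ℂ) := by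
    filter_upwards [h1.mem_nhds (show (z, ζ) ∈ {p : ℂ × ℂ | 0 < p.1.im ∧
      s * p.1.im < ‖p.2 - p.1‖} from ⟨hz, hζ⟩)] with p hp
    exact h.supp p.1 hp.1 p.2 hp.2
  rw [h2.fderiv_eq]
  simp

private theorem KerB_hom {s : ℝ} {d : ℕ} {K : ℂ → ℂ → ℂ} (h : Ker s d K) {l b : ℝ} (hl : 0 < l)
    {z : ℂ} (hz : z ∈ Hp) (ζ : ℂ) (v : ℂ × ℂ) :
    fderiv ℝ (fun p : ℂ × ℂ => K p.1 p.2) (l * z + b, l * ζ + b) v =
      fderiv ℝ (fun p : ℂ × ℂ => K p.1 p.2) (z, ζ) v / (l : ℂ) ^ (d + 1) := by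
  set F : ℂ × ℂ → ℂ := fun p => K p.1 p.2 with hF
  have hl0 : (l : ℂ) ≠ 0 := ofReal_ne_zero.2 hl.ne'
  have h1 : HasFDerivAt (fun p : ℂ × ℂ => l • p + ((b : ℂ), (b : ℂ)))
      (l • ContinuousLinearMap.id ℝ (ℂ × ℂ)) (z, ζ) :=
    ((hasFDerivAt_id (𝕜 := ℝ) ((z, ζ) : ℂ × ℂ)).const_smul l).add_const _
  have e0 : l • ((z, ζ) : ℂ × ℂ) + ((b : ℂ), (b : ℂ)) = (l * z + b, l * ζ + b) := by
    ext1 <;> simp
  have h2 : HasFDerivAt (fun p : ℂ × ℂ => F (l • p + ((b : ℂ), (b : ℂ))))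
      ((fderiv ℝ F (l * z + b, l * ζ + b)).comp (l • ContinuousLinearMap.id ℝ (ℂ × ℂ)))
      (z, ζ) := by
    have h3 := KerB_D h (KerB_mem (b := b) hl hz) (l * ζ + b)
    rw [← e0] at h3 ⊢
    exact h3.comp (z, ζ) h1
  have h4 : HasFDerivAt (fun p : ℂ × ℂ => F (l • p + ((b : ℂ), (b : ℂ))))
      (((l : ℂ) ^ d)⁻¹ • fderiv ℝ F (z, ζ)) (z, ζ) := by
    have h5 := (KerB_D h hz ζ).const_mul (((l : ℂ) ^ d)⁻¹)
    refine h5.congr_of_eventuallyEq ?_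
    filter_upwards [(isOpen_Hp.prod isOpen_univ).mem_nhds
      (show ((z, ζ) : ℂ × ℂ) ∈ Hp ×ˢ (univ : Set ℂ) from ⟨hz, mem_univ _⟩)] with p hp
    have h6 := h.hom l b hl p.1 hp.1 p.2
    have h7 : F (l • p + ((b : ℂ), (b : ℂ))) = K (l * p.1 + b) (l * p.2 + b) := by
      simp [hF]
    rw [h7, h6]
    rw [div_eq_inv_mul]
  have h8 := congrArg (fun T : ℂ × ℂ →L[ℝ] ℂ => T v) (h2.unique h4)
  simp only [ContinuousLinearMap.comp_apply, smul_apply,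
    ContinuousLinearMap.id_apply, map_smul, smul_eq_mul, real_smul] at h8
  rw [eq_div_iff (pow_ne_zero _ hl0), pow_succ]
  have h9 : ((l : ℂ) ^ d) * (((l : ℂ) ^ d)⁻¹ * fderiv ℝ F (z, ζ) v) = fderiv ℝ F (z, ζ) v := by
    rw [← mul_assoc, mul_inv_cancel₀ (pow_ne_zero _ hl0), one_mul]
  rw [← h9, ← h8]
  ring

private theorem KerB_ker {s : ℝ} {d : ℕ} {K : ℂ → ℂ → ℂ} (h : Ker s d K) (x y : ℂ × ℂ) (c : ℂ) :
    Ker s (d + 1) (fun z ζ => (fderiv ℝ (fun p : ℂ × ℂ => K p.1 p.2) (z, ζ) x +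
      c * fderiv ℝ (fun p : ℂ × ℂ => K p.1 p.2) (z, ζ) y) / 2) := by
  refine ⟨?_, fun z hz ζ hζ => ?_, fun l b hl z hz ζ => ?_⟩
  · have h1 : ContDiffOn ℝ ∞ (fderiv ℝ (fun p : ℂ × ℂ => K p.1 p.2)) (Hp ×ˢ univ) :=
      h.smooth.fderiv_of_isOpen (isOpen_Hp.prod isOpen_univ) (by simp)
    have h2 : ∀ v : ℂ × ℂ, ContDiffOn ℝ ∞
        (fun p : ℂ × ℂ => fderiv ℝ (fun p : ℂ × ℂ => K p.1 p.2) p v) (Hp ×ˢ univ) := fun v =>
      h1.clm_apply contDiffOn_const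
    have h3 := ((h2 x).add (contDiffOn_const (c := c).mul (h2 y))).div_const 2
    exact h3
  · simp only [KerB_zero h hz hζ]
    simp
  · simp only [KerB_hom h hl hz ζ]
    ring

private theorem KerB_left {s : ℝ} {d : ℕ} {K : ℂ → ℂ → ℂ} (h : Ker s d K) {z : ℂ} (hz : z ∈ Hp)
    (ζ u : ℂ) : fderiv ℝ (fun w => K w ζ) z u =
      fderiv ℝ (fun p : ℂ × ℂ => K p.1 p.2) (z, ζ) (u, 0) := by
  have e1 : HasFDerivAt (fun w => K w ζ)
      ((fderiv ℝ (fun p : ℂ × ℂ => K p.1 p.2) (z, ζ)).comp (ContinuousLinearMap.inl ℝ ℂ ℂ)) z :=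
    HasFDerivAt.comp (g := fun p : ℂ × ℂ => K p.1 p.2) (f := fun w : ℂ => (w, ζ)) z
      (KerB_D h hz ζ) (hasFDerivAt_prodMk_left z ζ)
  rw [e1.fderiv]
  simp only [ContinuousLinearMap.comp_apply, ContinuousLinearMap.inl_apply]

private theorem KerB_right {s : ℝ} {d : ℕ} {K : ℂ → ℂ → ℂ} (h : Ker s d K) {z : ℂ} (hz : z ∈ Hp)
    (ζ u : ℂ) : fderiv ℝ (K z) ζ u =
      fderiv ℝ (fun p : ℂ × ℂ => K p.1 p.2) (z, ζ) (0, u) := by
  have e1 : HasFDerivAt (K z)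
      ((fderiv ℝ (fun p : ℂ × ℂ => K p.1 p.2) (z, ζ)).comp (ContinuousLinearMap.inr ℝ ℂ ℂ)) ζ :=
    HasFDerivAt.comp (g := fun p : ℂ × ℂ => K p.1 p.2) (f := fun w : ℂ => (z, w)) ζ
      (KerB_D h hz ζ) (hasFDerivAt_prodMk_right z ζ)
  rw [e1.fderiv]
  simp only [ContinuousLinearMap.comp_apply, ContinuousLinearMap.inr_apply]

theorem Ker.dz_left {s : ℝ} {d : ℕ} {K : ℂ → ℂ → ℂ} (h : Ker s d K) :
    Ker s (d + 1) (fun z ζ => dz (fun w => K w ζ) z) := by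
  refine KerB_congr (KerB_ker h (1, 0) (I, 0) (-I)) fun z hz ζ => ?_
  unfold dz
  rw [KerB_left h hz, KerB_left h hz]
  ring

theorem Ker.dzb_left {s : ℝ} {d : ℕ} {K : ℂ → ℂ → ℂ} (h : Ker s d K) :
    Ker s (d + 1) (fun z ζ => dzb (fun w => K w ζ) z) := by
  refine KerB_congr (KerB_ker h (1, 0) (I, 0) I) fun z hz ζ => ?_
  unfold dzb
  rw [KerB_left h hz, KerB_left h hz]

theorem Ker.dzb_right {s : ℝ} {d : ℕ} {K : ℂ → ℂ → ℂ} (h : Ker s d K) :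
    Ker s (d + 1) (fun z ζ => dzb (K z) ζ) := by
  refine KerB_congr (KerB_ker h (0, 1) (0, I) I) fun z hz ζ => ?_
  unfold dzb
  rw [KerB_right h hz, KerB_right h hz]

end Pool.Agent.Work.MP_2cf110_an.Hyp

end
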