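import Pool.Agent.Work.MP_2cf110_an.Hyp.Defs

/-! # Kernels: mixed derivatives commute

Write both sides through the second derivative of (z, ζ) ↦ K z ζ at (z, ζ) (it is smooth on the open set
Hp ×ˢ univ) and use the symmetry of the second derivative (ContDiffAt.isSymmSndFDerivAt or
second_derivative_symmetric); compare QC.dz_dzb_comm. -/

open MeasureTheory Complex Set Metric Filter
open scoped Topology ContDiff ComplexConjugate

noncomputable section

namespace Pool.Agent.Work.MP_2cf110_an.Hyp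

open QC (dz dzb Test Cau)

private theorem KerC_comb {E : Type*} [NormedAddCommGroup E] [NormedSpace ℝ E]
    {G : ℂ → (E →L[ℝ] ℂ)} {G' : ℂ →L[ℝ] (E →L[ℝ] ℂ)} {z : ℂ} (hG : HasFDerivAt G G' z) (x y : E)
    (c u : ℂ) : fderiv ℝ (fun w => (G w x + c * G w y) / 2) z u = (G' u x + c * G' u y) / 2 := by
  have h2 : ∀ v : E, HasFDerivAt (fun w => G w v) ((ContinuousLinearMap.apply ℝ ℂ v).comp G') z :=
    fun v => (ContinuousLinearMap.apply ℝ ℂ v).hasFDerivAt.comp z hG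
  have h3 : HasFDerivAt (fun w => (G w x + c * G w y) / 2)
      ((2 : ℂ)⁻¹ • ((ContinuousLinearMap.apply ℝ ℂ x).comp G' +
        c • (ContinuousLinearMap.apply ℝ ℂ y).comp G')) z := by
    have h4 := ((h2 x).add ((h2 y).const_mul c)).const_mul (2 : ℂ)⁻¹
    refine h4.congr_of_eventuallyEq (Filter.Eventually.of_forall fun w => ?_)
    simp only [Pi.add_apply]
    ring
  rw [h3.fderiv]
  simp only [smul_apply, add_apply, ContinuousLinearMap.comp_apply,
    ContinuousLinearMap.apply_apply, smul_eq_mul]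
  ring

theorem Ker.comm {s : ℝ} {d : ℕ} {K : ℂ → ℂ → ℂ} (h : Ker s d K) {z : ℂ} (hz : z ∈ Hp) (ζ : ℂ) :
    dz (fun w => dzb (K w) ζ) z = dzb (fun ξ => dz (fun w => K w ξ) z) ζ := by
  set F : ℂ × ℂ → ℂ := fun p => K p.1 p.2 with hFdef
  set D := fderiv ℝ F with hD
  have hF : ∀ w ∈ Hp, ∀ ξ, ContDiffAt ℝ ∞ F (w, ξ) := fun w hw ξ =>
    h.smooth.contDiffAt ((isOpen_Hp.prod isOpen_univ).mem_nhds ⟨hw, mem_univ _⟩)
  have hdiff : ∀ w ∈ Hp, ∀ ξ, HasFDerivAt F (D (w, ξ)) (w, ξ) := fun w hw ξ =>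
    ((hF w hw ξ).differentiableAt (by simp)).hasFDerivAt
  have h1 : ∀ w ∈ Hp, dzb (K w) ζ = (D (w, ζ) (0, 1) + I * D (w, ζ) (0, I)) / 2 := by
    intro w hw
    have e1 : HasFDerivAt (K w) ((D (w, ζ)).comp (ContinuousLinearMap.inr ℝ ℂ ℂ)) ζ :=
      (hdiff w hw ζ).comp ζ (hasFDerivAt_prodMk_right w ζ)
    unfold dzb
    rw [e1.fderiv]
    simp only [ContinuousLinearMap.comp_apply, ContinuousLinearMap.inr_apply]
  have h2 : ∀ ξ, dz (fun w => K w ξ) z = (D (z, ξ) (1, 0) + (-I) * D (z, ξ) (I, 0)) / 2 := by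
    intro ξ
    have e1 : HasFDerivAt (fun w => K w ξ) ((D (z, ξ)).comp (ContinuousLinearMap.inl ℝ ℂ ℂ)) z :=
      HasFDerivAt.comp (g := F) (f := fun w : ℂ => (w, ξ)) z (hdiff z hz ξ)
        (hasFDerivAt_prodMk_left z ξ)
    unfold dz
    rw [e1.fderiv]
    simp only [ContinuousLinearMap.comp_apply, ContinuousLinearMap.inl_apply]
    ring
  have hDd : HasFDerivAt D (fderiv ℝ D (z, ζ)) (z, ζ) :=
    (((hF z hz ζ).fderiv_right (m := ∞) (by simp)).differentiableAt (by simp)).hasFDerivAt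
  have g1 : HasFDerivAt (fun w => D (w, ζ))
      ((fderiv ℝ D (z, ζ)).comp (ContinuousLinearMap.inl ℝ ℂ ℂ)) z :=
    hDd.comp z (hasFDerivAt_prodMk_left z ζ)
  have g2 : HasFDerivAt (fun ξ => D (z, ξ))
      ((fderiv ℝ D (z, ζ)).comp (ContinuousLinearMap.inr ℝ ℂ ℂ)) ζ :=
    hDd.comp ζ (hasFDerivAt_prodMk_right z ζ)
  have hev : (fun w => dzb (K w) ζ) =ᶠ[𝓝 z]
      fun w => (D (w, ζ) (0, 1) + I * D (w, ζ) (0, I)) / 2 := by
    filter_upwards [isOpen_Hp.mem_nhds hz] with w hw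
    exact h1 w hw
  have hfun : (fun ξ => dz (fun w => K w ξ) z) =
      fun ξ => (D (z, ξ) (1, 0) + (-I) * D (z, ξ) (I, 0)) / 2 := funext h2
  have hsymm : ∀ u v : ℂ × ℂ, fderiv ℝ D (z, ζ) u v = fderiv ℝ D (z, ζ) v u := by
    intro u v
    have := (hF z hz ζ).isSymmSndFDerivAt (by
      simp only [minSmoothness_of_isRCLikeNormedField]
      exact WithTop.coe_le_coe.2 (le_top : (2 : ℕ∞) ≤ ⊤))
    exact this u v
  rw [hfun]
  unfold dz dzb
  rw [show (fun w => (fderiv ℝ (K w) ζ 1 + I * fderiv ℝ (K w) ζ I) / 2) =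
    fun w => dzb (K w) ζ from rfl, hev.fderiv_eq, KerC_comb g1, KerC_comb g1, KerC_comb g2,
    KerC_comb g2]
  simp only [ContinuousLinearMap.comp_apply, ContinuousLinearMap.inl_apply,
    ContinuousLinearMap.inr_apply]
  rw [hsymm (0, 1) (1, 0), hsymm (0, 1) (I, 0), hsymm (0, I) (1, 0), hsymm (0, I) (I, 0)]
  ring

end Pool.Agent.Work.MP_2cf110_an.Hyp

end
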