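import Pool.Agent.Work.MP_2cf110_an.Hyp.KerA

/-! # Kernels: the integral transform is smooth

z ↦ ∫ f ζ K z ζ = (f ⋆ k_z)(z) with k_p(u) = K(p, p' - u)...: use
HasCompactSupport.contDiffOn_convolution_right_with_param (or ..._left) near a point z₀ with the parameter
p = z in ball z₀ (z₀.im / 2) and the kernel g p u = K p (p - u) (so that g p (z - ζ) at z = p is K p ζ), whose
support in u is in a fixed compact ball; then compose with z ↦ (z, z). -/

open MeasureTheory Complex Set Metric Filter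
open scoped Topology ContDiff ComplexConjugate

noncomputable section

namespace Pool.Agent.Work.MP_2cf110_an.Hyp

open QC (dz dzb Test Cau)

theorem Ker.par_smooth {s : ℝ} {d : ℕ} {K : ℂ → ℂ → ℂ} (h : Ker s d K) {f : ℂ → ℂ}
    (hf : LocallyIntegrable f) :
    ContDiffOn ℝ ∞ (fun z => ∫ ζ, f ζ * K z ζ) Hp := by
  refine contDiffOn_of_locally_contDiffOn fun z₀ hz₀ => ?_
  have hy : 0 < z₀.im := hz₀
  have him : ∀ p ∈ ball z₀ (z₀.im / 2), z₀.im / 2 < p.im ∧ p.im < 2 * z₀.im := by
    intro p hp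
    rw [mem_ball, dist_eq_norm] at hp
    have h1 := (Complex.abs_im_le_norm (p - z₀)).trans_lt hp
    rw [Complex.sub_im, abs_lt] at h1
    constructor <;> linarith [h1.1, h1.2]
  have hsub : ball z₀ (z₀.im / 2) ⊆ Hp := by
    intro p hp
    show 0 < p.im
    linarith [(him p hp).1]
  refine ⟨ball z₀ (z₀.im / 2), isOpen_ball, mem_ball_self (by positivity), ?_⟩
  have h1 := contDiffOn_convolution_right_with_param_comp (𝕜 := ℝ) (μ := (volume : Measure ℂ))
    (n := (⊤ : ℕ∞)) (ContinuousLinearMap.mul ℝ ℂ) (s := ball z₀ (z₀.im / 2)) (v := fun p : ℂ => p)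
    (f := f) (g := fun p u => K p (p - u)) (k := closedBall (0 : ℂ) (|s| * (2 * z₀.im)))
    contDiffOn_id isOpen_ball (isCompact_closedBall _ _) ?_ hf ?_
  · refine (h1.mono inter_subset_right).congr fun z _ => ?_
    rw [convolution_def]
    simp only [ContinuousLinearMap.mul_apply', sub_sub_cancel]
  · intro p u hp hu
    apply h.supp p (hsub hp)
    rw [mem_closedBall, dist_zero_right, not_le] at hu
    have e1 : p - u - p = -u := by ring
    rw [e1, norm_neg]
    refine lt_of_le_of_lt ?_ hu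
    have h2 : s * p.im ≤ |s| * p.im :=
      mul_le_mul_of_nonneg_right (le_abs_self s) (by linarith [(him p hp).1])
    exact h2.trans (mul_le_mul_of_nonneg_left (him p hp).2.le (abs_nonneg s))
  · have h2 : ContDiff ℝ ((⊤ : ℕ∞) : WithTop ℕ∞) (fun q : ℂ × ℂ => (q.1, q.1 - q.2)) :=
      contDiff_fst.prodMk (contDiff_fst.sub contDiff_snd)
    exact h.smooth.comp h2.contDiffOn fun q hq => ⟨hsub hq.1, mem_univ _⟩

end Pool.Agent.Work.MP_2cf110_an.Hyp

end
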