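import Pool.Agent.Work.MP_2cf110_an.Hyp.KerA
import Pool.Agent.Work.MP_2cf110_an.Hyp.KerB

/-! # Kernels: differentiation under the integral sign

hasFDerivAt_integral_of_dominated_of_fderiv_le near z (in a ball z (z.im / 2) all K w are supported in a fixed compact
set and the derivatives are bounded there, by continuity on a compact set or by Ker.bound of dz_left
and dzb_left). -/

open MeasureTheory Complex Set Metric Filter
open scoped Topology ContDiff ComplexConjugate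

noncomputable section

namespace Pool.Agent.Work.MP_2cf110_an.Hyp

open QC (dz dzb Test Cau)

private theorem KerD2_fd {s : ℝ} {d : ℕ} {K : ℂ → ℂ → ℂ} (h : Ker s d K) {f : ℂ → ℂ}
    (hf : LocallyIntegrable f) {z₀ : ℂ} (hz₀ : z₀ ∈ Hp) (v : ℂ) :
    fderiv ℝ (fun z => ∫ ζ, f ζ * K z ζ) z₀ v =
      ∫ ζ, f ζ * fderiv ℝ (fun w => K w ζ) z₀ v := by
  have hy : 0 < z₀.im := hz₀
  have him : ∀ p ∈ ball z₀ (z₀.im / 2), z₀.im / 2 < p.im ∧ p.im < 2 * z₀.im := by
    intro p hp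
    rw [mem_ball, dist_eq_norm] at hp
    have h1 := (Complex.abs_im_le_norm (p - z₀)).trans_lt hp
    rw [Complex.sub_im, abs_lt] at h1
    constructor <;> linarith [h1.1, h1.2]
  have hsub : ball z₀ (z₀.im / 2) ⊆ Hp := by
    intro p hp
    show 0 < p.im
    linarith [(him p hp).1]
  have hz₀' : z₀ ∈ ball z₀ (z₀.im / 2) := mem_ball_self (by positivity)
  set g : ℂ → ℂ → ℂ := fun p u => K p (p - u) with hg
  set k : Set ℂ := closedBall (0 : ℂ) (|s| * (2 * z₀.im)) with hk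
  have hkc : IsCompact k := isCompact_closedBall _ _
  have hgs : ∀ p, ∀ x, p ∈ ball z₀ (z₀.im / 2) → x ∉ k → g p x = 0 := by
    intro p u hp hu
    apply h.supp p (hsub hp)
    rw [hk, mem_closedBall, dist_zero_right, not_le] at hu
    have e1 : p - u - p = -u := by ring
    rw [e1, norm_neg]
    refine lt_of_le_of_lt ?_ hu
    have h2 : s * p.im ≤ |s| * p.im :=
      mul_le_mul_of_nonneg_right (le_abs_self s) (by linarith [(him p hp).1])
    exact h2.trans (mul_le_mul_of_nonneg_left (him p hp).2.le (abs_nonneg s))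
  have hmap : ContDiff ℝ ((⊤ : ℕ∞) : WithTop ℕ∞) (fun q : ℂ × ℂ => (q.1, q.1 - q.2)) :=
    contDiff_fst.prodMk (contDiff_fst.sub contDiff_snd)
  have hgsm : ContDiffOn ℝ ∞ (Function.uncurry g) (ball z₀ (z₀.im / 2) ×ˢ univ) :=
    h.smooth.comp hmap.contDiffOn fun q hq => ⟨hsub hq.1, mem_univ _⟩
  have hg1 : ContDiffOn ℝ 1 (Function.uncurry g) (ball z₀ (z₀.im / 2) ×ˢ univ) :=
    hgsm.of_le (by exact_mod_cast (le_top : (1 : ℕ∞) ≤ ⊤))
  have hopen : IsOpen (ball z₀ (z₀.im / 2) ×ˢ (univ : Set ℂ)) := isOpen_ball.prod isOpen_univ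
  have h1 := hasFDerivAt_convolution_right_with_param (𝕜 := ℝ) (μ := (volume : Measure ℂ))
    (ContinuousLinearMap.mul ℝ ℂ) (g := g) isOpen_ball hkc hgs hf hg1 ((z₀, z₀) : ℂ × ℂ) hz₀'
  have h2 : HasFDerivAt (fun z : ℂ => ((z, z) : ℂ × ℂ))
      ((ContinuousLinearMap.id ℝ ℂ).prod (ContinuousLinearMap.id ℝ ℂ)) z₀ :=
    (hasFDerivAt_id z₀).prodMk (hasFDerivAt_id z₀)
  have h3 := HasFDerivAt.comp z₀ (by exact h1) h2
  have e1 : (fun z => ∫ ζ, f ζ * K z ζ) = (fun q : ℂ × ℂ =>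
      (convolution f (g q.1) (ContinuousLinearMap.mul ℝ ℂ) volume) q.2) ∘
        (fun z : ℂ => ((z, z) : ℂ × ℂ)) := by
    funext z
    simp only [Function.comp_apply]
    rw [convolution_def]
    simp only [ContinuousLinearMap.mul_apply', hg, sub_sub_cancel]
  have hcont : Continuous fun x : ℂ => fderiv ℝ (Function.uncurry g) (z₀, x) := by
    have h5 := hg1.continuousOn_fderiv_of_isOpen hopen le_rfl
    exact h5.comp_continuous (by fun_prop) fun x => ⟨hz₀', mem_univ _⟩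
  have hzero : ∀ x ∉ k, fderiv ℝ (Function.uncurry g) (z₀, x) = 0 := by
    intro x hx
    have h6 : Function.uncurry g =ᶠ[𝓝 (z₀, x)] fun _ => (0 : ℂ) := by
      have h7 : ball z₀ (z₀.im / 2) ×ˢ kᶜ ∈ 𝓝 (z₀, x) :=
        prod_mem_nhds (isOpen_ball.mem_nhds hz₀') (hkc.isClosed.isOpen_compl.mem_nhds hx)
      filter_upwards [h7] with q hq
      exact hgs q.1 q.2 hq.1 hq.2
    rw [h6.fderiv_eq]
    simp
  have hcs : HasCompactSupport fun x : ℂ => fderiv ℝ (Function.uncurry g) (z₀, x) :=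
    HasCompactSupport.intro hkc hzero
  rw [e1, h3.fderiv]
  simp only [ContinuousLinearMap.comp_apply, ContinuousLinearMap.prod_apply,
    ContinuousLinearMap.id_apply]
  change (convolution f (fun x => fderiv ℝ (Function.uncurry g) (z₀, x))
    (ContinuousLinearMap.precompR (ℂ × ℂ) (ContinuousLinearMap.mul ℝ ℂ)) volume z₀) (v, v) = _
  rw [convolution_precompR_apply (ContinuousLinearMap.mul ℝ ℂ) hf hcs hcont, convolution_def]
  refine integral_congr_ae (Eventually.of_forall fun t => ?_)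
  simp only [ContinuousLinearMap.mul_apply']
  congr 1
  have hF : HasFDerivAt (fun p : ℂ × ℂ => K p.1 p.2)
      (fderiv ℝ (fun p : ℂ × ℂ => K p.1 p.2) (z₀, t)) (z₀, t) :=
    ((h.smooth.contDiffAt ((isOpen_Hp.prod isOpen_univ).mem_nhds
      ⟨hz₀, mem_univ _⟩)).differentiableAt (by simp)).hasFDerivAt
  have e2 : HasFDerivAt (fun w => K w t)
      ((fderiv ℝ (fun p : ℂ × ℂ => K p.1 p.2) (z₀, t)).comp (ContinuousLinearMap.inl ℝ ℂ ℂ))
      z₀ :=
    HasFDerivAt.comp (g := fun p : ℂ × ℂ => K p.1 p.2) (f := fun w : ℂ => (w, t)) z₀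
      hF (hasFDerivAt_prodMk_left z₀ t)
  have e3 : HasFDerivAt (fun q : ℂ × ℂ => ((q.1, q.1 - q.2) : ℂ × ℂ))
      ((ContinuousLinearMap.fst ℝ ℂ ℂ).prod
        (ContinuousLinearMap.fst ℝ ℂ ℂ - ContinuousLinearMap.snd ℝ ℂ ℂ)) (z₀, z₀ - t) :=
    hasFDerivAt_fst.prodMk (hasFDerivAt_fst.sub hasFDerivAt_snd)
  have e4 : HasFDerivAt (Function.uncurry g)
      ((fderiv ℝ (fun p : ℂ × ℂ => K p.1 p.2) (z₀, t)).comp
        ((ContinuousLinearMap.fst ℝ ℂ ℂ).prod
          (ContinuousLinearMap.fst ℝ ℂ ℂ - ContinuousLinearMap.snd ℝ ℂ ℂ))) (z₀, z₀ - t) := by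
    have e5 : (((z₀, z₀ - t) : ℂ × ℂ).1, ((z₀, z₀ - t) : ℂ × ℂ).1 - ((z₀, z₀ - t) : ℂ × ℂ).2) =
        (z₀, t) := by
      simp
    exact HasFDerivAt.comp (g := fun p : ℂ × ℂ => K p.1 p.2)
      (f := fun q : ℂ × ℂ => ((q.1, q.1 - q.2) : ℂ × ℂ)) (z₀, z₀ - t) (by beta_reduce; rw [e5]; exact hF) e3
  rw [e4.fderiv, e2.fderiv]
  simp

theorem Ker.par_deriv {s : ℝ} {d : ℕ} {K : ℂ → ℂ → ℂ} (h : Ker s d K) {f : ℂ → ℂ}
    (hf : LocallyIntegrable f) {z : ℂ} (hz : z ∈ Hp) :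
    dz (fun z => ∫ ζ, f ζ * K z ζ) z = ∫ ζ, f ζ * dz (fun w => K w ζ) z ∧
    dzb (fun z => ∫ ζ, f ζ * K z ζ) z = ∫ ζ, f ζ * dzb (fun w => K w ζ) z := by
  have ha := (h.dz_left.test hz).1
  have hb := (h.dzb_left.test hz).1
  have ia : Integrable fun ζ => f ζ * dz (fun w => K w ζ) z := by
    have := hf.integrable_smul_right_of_hasCompactSupport ha.1.continuous ha.cpt
    simpa only [smul_eq_mul] using this
  have ib : Integrable fun ζ => f ζ * dzb (fun w => K w ζ) z := by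
    have := hf.integrable_smul_right_of_hasCompactSupport hb.1.continuous hb.cpt
    simpa only [smul_eq_mul] using this
  have e1 : ∫ ζ, f ζ * fderiv ℝ (fun w => K w ζ) z 1 =
      (∫ ζ, f ζ * dz (fun w => K w ζ) z) + ∫ ζ, f ζ * dzb (fun w => K w ζ) z := by
    rw [← integral_add ia ib]
    refine integral_congr_ae (Eventually.of_forall fun t => ?_)
    simp only [dz, dzb]
    ring
  have e2 : ∫ ζ, f ζ * fderiv ℝ (fun w => K w ζ) z I =
      I * ((∫ ζ, f ζ * dz (fun w => K w ζ) z) - ∫ ζ, f ζ * dzb (fun w => K w ζ) z) := by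
    rw [← integral_sub ia ib, ← integral_const_mul]
    refine integral_congr_ae (Eventually.of_forall fun t => ?_)
    simp only [dz, dzb]
    linear_combination (f t * fderiv ℝ (fun w => K w t) z I) * I_sq
  have h1 := KerD2_fd h hf hz 1
  have h2 := KerD2_fd h hf hz I
  rw [e1] at h1
  rw [e2] at h2
  constructor
  · conv_lhs => unfold dz
    rw [h1, h2]
    linear_combination (-((∫ ζ, f ζ * dz (fun w => K w ζ) z) -
      ∫ ζ, f ζ * dzb (fun w => K w ζ) z) / 2) * I_sq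
  · conv_lhs => unfold dzb
    rw [h1, h2]
    linear_combination (((∫ ζ, f ζ * dz (fun w => K w ζ) z) -
      ∫ ζ, f ζ * dzb (fun w => K w ζ) z) / 2) * I_sq

end Pool.Agent.Work.MP_2cf110_an.Hyp

end
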