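import Pool.Agent.Work.MP_2cf110_an.Hyp.KapB
import Pool.Agent.Work.MP_2cf110_an.Hyp.KerB
import Pool.Agent.Work.MP_2cf110_an.Hyp.KerC
import Pool.Agent.Work.MP_2cf110_an.Hyp.KerD1
import Pool.Agent.Work.MP_2cf110_an.Hyp.KerD2

/-! # Derivatives of the smoothing

Sm s h = (1/π) ∫ h kap; ∂̄ under the integral (Ker.par_deriv for kap_ker), ∂̄_z kap = ∂̄_ζ psi (kap_psi);
then apply Ker.par_deriv to the kernel ∂̄_ζ psi (psi_ker.dzb_right) and Ker.comm. -/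

open MeasureTheory Complex Set Metric Filter
open scoped Topology ContDiff ComplexConjugate

noncomputable section

namespace Pool.Agent.Work.MP_2cf110_an.Hyp

open QC (dz dzb Test Cau)

/-- the `z`-derivative of `psi` -/
def psi1 (s : ℝ) (z ζ : ℂ) : ℂ := dz (fun w => psi s w ζ) z

private theorem smF_dz_const {f : ℂ → ℂ} {z : ℂ} (c : ℂ) (hf : DifferentiableAt ℝ f z) :
    dz (fun w => c * f w) z = c * dz f z ∧ dzb (fun w => c * f w) z = c * dzb f z := by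
  have h : fderiv ℝ (fun w => c * f w) z = c • fderiv ℝ f z := fderiv_const_mul hf c
  unfold QC.dz QC.dzb
  rw [h]
  simp only [ContinuousLinearMap.smul_apply, smul_eq_mul]
  constructor <;> ring

private theorem smF_congr {f g : ℂ → ℂ} {z : ℂ} (h : f =ᶠ[𝓝 z] g) : dz f z = dz g z := by
  unfold QC.dz
  rw [h.fderiv_eq]

theorem psi1_ker {s : ℝ} (hs : 0 < s) : Ker s 3 (psi1 s) := (psi_ker hs).dz_left

theorem sm_smooth {s : ℝ} (hs : 0 < s) {h : ℂ → ℂ} (hh : LocallyIntegrable h) :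
    ContDiffOn ℝ ∞ (Sm s h) Hp :=
  contDiffOn_const.mul ((kap_ker hs).par_smooth hh)

private theorem smF_diff {s : ℝ} {d : ℕ} {K : ℂ → ℂ → ℂ} (hK : Ker s d K) {h : ℂ → ℂ}
    (hh : LocallyIntegrable h) {z : ℂ} (hz : z ∈ Hp) :
    DifferentiableAt ℝ (fun z => ∫ ζ, h ζ * K z ζ) z :=
  ((hK.par_smooth hh).differentiableOn (by simp)).differentiableAt (isOpen_Hp.mem_nhds hz)

theorem sm_dzb {s : ℝ} (hs : 0 < s) {h : ℂ → ℂ} (hh : LocallyIntegrable h) {z : ℂ} (hz : z ∈ Hp) :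
    dzb (Sm s h) z = (1 / (Real.pi : ℂ)) * ∫ ζ, h ζ * dzb (psi s z) ζ := by
  have h1 : dzb (Sm s h) z = (1 / (Real.pi : ℂ)) * dzb (fun z => ∫ ζ, h ζ * kap s z ζ) z :=
    (smF_dz_const _ (smF_diff (kap_ker hs) hh hz)).2
  rw [h1, ((kap_ker hs).par_deriv hh hz).2]
  simp only [kap_psi hs hz]

theorem sm_dz_dzb {s : ℝ} (hs : 0 < s) {h : ℂ → ℂ} (hh : LocallyIntegrable h) {z : ℂ}
    (hz : z ∈ Hp) :
    dz (dzb (Sm s h)) z = (1 / (Real.pi : ℂ)) * ∫ ζ, h ζ * dzb (psi1 s z) ζ := by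
  have hK : Ker s 3 (fun z ζ => dzb (psi s z) ζ) := (psi_ker hs).dzb_right
  have h0 : dzb (Sm s h) =ᶠ[𝓝 z]
      fun w => (1 / (Real.pi : ℂ)) * ∫ ζ, h ζ * dzb (psi s w) ζ := by
    filter_upwards [isOpen_Hp.mem_nhds hz] with w hw
    exact sm_dzb hs hh hw
  rw [smF_congr h0, (smF_dz_const _ (smF_diff hK hh hz)).1, (hK.par_deriv hh hz).1]
  congr 1
  refine integral_congr_ae (Eventually.of_forall fun ζ => ?_)
  simp only
  rw [(psi_ker hs).comm hz ζ]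
  rfl

end Pool.Agent.Work.MP_2cf110_an.Hyp

end
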