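import Pool.Agent.Work.MP_2cf110_an.Hyp.DataF
import Pool.Agent.Work.MP_2cf110_an.Hyp.LamF
import Pool.Agent.Work.MP_2cf110_an.Hyp.SmF

/-! # The macroscopic functions are smooth on Hp

sm_smooth, lam_nsq, products and finite sums, conj is a real linear map. -/

open MeasureTheory Complex Set Metric Filter
open scoped Topology ContDiff ComplexConjugate

noncomputable section

namespace Pool.Agent.Work.MP_2cf110_an.Hyp

open QC (dz dzb Test Cau)

variable {n L : ℕ} {s K c : ℝ} {V : Set ℂ} {f : Fin n → ℂ → ℂ} {X : Fin L → ℂ → ℂ}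
  {g : Fin L → Fin n → ℂ → ℂ}

theorem mac_FF (hs : 0 < s) (hK : 0 ≤ K) (D : Data s K V f X g) (j : Fin n) :
    ContDiffOn ℝ ∞ (FF s V f j) Hp :=
  sm_smooth hs (li_of_bdd (D.f_meas j) (D.f_ind hK j))

theorem mac_Gm (hs : 0 < s) (hK : 0 ≤ K) (hc : 0 < c) (D : Data s K V f X g) (p : Fin n) :
    ContDiffOn ℝ ∞ (Gm c (FF s V f) p) Hp := by
  obtain ⟨C', -, h⟩ := lam_nsq (n := n) hc (zero_lt_one : (0 : ℝ) < 1)
  have h1 := (h (FF s V f) (fun j => mac_FF hs hK D j)).1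
  have h2 : ContDiffOn ℝ ∞ (fun z => conj (FF s V f p z)) Hp :=
    Complex.conjCLE.contDiff.comp_contDiffOn (mac_FF hs hK D p)
  exact h1.mul h2

theorem mac_AA (hs : 0 < s) (hK : 0 ≤ K) (D : Data s K V f X g) (j : Fin n) :
    ContDiffOn ℝ ∞ (AA s V X g j) Hp := by
  have h : ∀ c ∈ (Finset.univ : Finset (Fin L)), ContDiffOn ℝ ∞
      (fun z => X c z * Sm s (V.indicator (g c j)) z) Hp := fun c _ =>
    (D.X_smooth c).mul (sm_smooth hs (li_of_bdd (D.g_meas c j) (D.g_ind hK c j)))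
  exact ContDiffOn.sum h

theorem mac_BB (hs : 0 < s) (hK : 0 ≤ K) (hc : 0 < c) (D : Data s K V f X g) (j p : Fin n) :
    ContDiffOn ℝ ∞ (BB s c V f X g j p) Hp :=
  ((mac_AA hs hK D j).mul (mac_Gm hs hK hc D p)).sub
    ((mac_AA hs hK D p).mul (mac_Gm hs hK hc D j))

end Pool.Agent.Work.MP_2cf110_an.Hyp

end
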