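import Pool.Agent.Work.MP_2cf110_an.Hyp.Defs

/-! # Kernels: bound and support

By continuity and compactness of the support K(i, ·) is bounded; by homogeneity
K(l i + b, l ζ + b) = K(i, ζ) / l^d, so with l = Im z, b = Re z the bound follows for all z.
The function K z is smooth (compose the joint smoothness on Hp ×ˢ univ with ζ ↦ (z, ζ)) and vanishes
outside the closed ball (for ‖ζ - z‖ > s Im z it is zero, so the support is in the closed ball). -/

open MeasureTheory Complex Set Metric Filter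
open scoped Topology ContDiff ComplexConjugate

noncomputable section

namespace Pool.Agent.Work.MP_2cf110_an.Hyp

open QC (dz dzb Test Cau)

private theorem ker_smooth {s : ℝ} {d : ℕ} {K : ℂ → ℂ → ℂ} (h : Ker s d K) {z : ℂ}
    (hz : z ∈ Hp) : ContDiff ℝ ∞ (K z) := by
  rw [← contDiffOn_univ]
  have h1 : ContDiffOn ℝ ∞ (fun ζ : ℂ => (z, ζ)) univ :=
    (contDiff_const.prodMk contDiff_id).contDiffOn
  exact h.smooth.comp h1 fun ζ _ => ⟨hz, mem_univ _⟩

private theorem ker_zero {s : ℝ} {d : ℕ} {K : ℂ → ℂ → ℂ} (h : Ker s d K) {z : ℂ}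
    (hz : z ∈ Hp) {ζ : ℂ} (hζ : ζ ∉ closedBall z (s * z.im)) : K z ζ = 0 := by
  apply h.supp z hz
  rw [mem_closedBall, dist_eq_norm, not_le] at hζ
  exact hζ

theorem Ker.bound {s : ℝ} {d : ℕ} {K : ℂ → ℂ → ℂ} (h : Ker s d K) :
    ∃ C : ℝ, 0 < C ∧ ∀ z ∈ Hp, ∀ ζ, ‖K z ζ‖ ≤ C / z.im ^ d := by
  have hI : (I : ℂ) ∈ Hp := by
    show 0 < (I : ℂ).im
    rw [I_im]
    exact one_pos
  obtain ⟨C, hC⟩ := (isCompact_closedBall (I : ℂ) (s * (I : ℂ).im)).exists_bound_of_continuousOn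
    (ker_smooth h hI).continuous.continuousOn
  have hb : ∀ ζ, ‖K I ζ‖ ≤ |C| + 1 := by
    intro ζ
    by_cases hζ : ζ ∈ closedBall (I : ℂ) (s * (I : ℂ).im)
    · exact (hC ζ hζ).trans ((le_abs_self C).trans (by linarith))
    · rw [ker_zero h hI hζ, norm_zero]
      positivity
  refine ⟨|C| + 1, by positivity, ?_⟩
  intro z hz ζ
  have hz' : 0 < z.im := hz
  have hz0 : (z.im : ℂ) ≠ 0 := ofReal_ne_zero.2 hz'.ne'
  have h1 := h.hom z.im z.re hz' I hI ((ζ - z.re) / z.im)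
  have e1 : (z.im : ℂ) * I + z.re = z := by
    rw [add_comm]
    exact re_add_im z
  have e2 : (z.im : ℂ) * ((ζ - z.re) / z.im) + z.re = ζ := by
    field_simp
    ring
  rw [e1, e2] at h1
  rw [h1, norm_div, norm_pow, norm_real, Real.norm_of_nonneg hz'.le]
  exact div_le_div_of_nonneg_right (hb _) (pow_pos hz' d).le

theorem Ker.test {s : ℝ} {d : ℕ} {K : ℂ → ℂ → ℂ} (h : Ker s d K) {z : ℂ} (hz : z ∈ Hp) :
    Test univ (K z) ∧ tsupport (K z) ⊆ closedBall z (s * z.im) := by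
  refine ⟨⟨ker_smooth h hz, ?_, subset_univ _⟩, ?_⟩
  · exact HasCompactSupport.intro (isCompact_closedBall z (s * z.im)) fun ζ hζ => ker_zero h hz hζ
  · refine closure_minimal ?_ isClosed_closedBall
    intro ζ hζ
    by_contra h1
    exact hζ (ker_zero h hz h1)

end Pool.Agent.Work.MP_2cf110_an.Hyp

end
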