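import Pool.Agent.Work.MP_2cf110_an.Hyp.VitB
import Pool.Agent.Work.MP_2cf110_an.Hyp.SmF
import Pool.Agent.Work.MP_2cf110_an.Hyp.KerA

/-! # The ∂̄-derivatives of the smoothed functions are small

sm_dzb and sm_dz_dzb, vit with ψ = psi s z (bounded by C/R², dzb by C/R³: Ker.bound for psi_ker, psi_ker.dzb_right) and
ψ = psi1 s z (C/R³, C/R⁴), U = ball a (10R), E = Ea V s a. -/

open MeasureTheory Complex Set Metric Filter
open scoped Topology ContDiff ComplexConjugate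

noncomputable section

namespace Pool.Agent.Work.MP_2cf110_an.Hyp

open QC (dz dzb Test Cau)

private theorem rep2_aux {s : ℝ} (hs : 0 < s) (hs1 : s ≤ 1 / 64) {d : ℕ} {K : ℂ → ℂ → ℂ}
    (hK : Ker s d K) : ∃ C : ℝ, 0 < C ∧
    ∀ (V : Set ℂ) (a : ℂ) (N : ℝ) (h : ℂ → ℂ), IsOpen V → a ∈ Hp → 0 ≤ N →
    DifferentiableOn ℂ h (V ∩ ball a (10 * (s * a.im))) →
    (∀ z ∈ V ∩ ball a (10 * (s * a.im)), ‖h z‖ ≤ N) → ∀ z ∈ ball a (2 * (s * a.im)),
    ‖(1 / (Real.pi : ℂ)) * ∫ ζ, V.indicator h ζ * dzb (K z) ζ‖ ≤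
      C * N * gam V s a / (s * a.im) ^ d := by
  obtain ⟨C1, hC1, hv⟩ := vit
  obtain ⟨C2, hC2, hb2⟩ := hK.bound
  obtain ⟨C3, hC3, hb3⟩ := hK.dzb_right.bound
  have hQ0 : 0 < C2 * 2 ^ d + C3 * 2 ^ (d + 1) * s := by positivity
  refine ⟨C1 * ((C2 * 2 ^ d + C3 * 2 ^ (d + 1) * s) * s ^ d), by positivity, ?_⟩
  intro V a N h hV ha hN hh hhN z hz
  have hy : 0 < a.im := ha
  have hR : 0 < s * a.im := mul_pos hs hy
  rw [mem_ball, dist_eq_norm] at hz
  have hzi : |z.im - a.im| ≤ ‖z - a‖ := by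
    rw [← sub_im]
    exact abs_im_le_norm _
  have hsa : s * a.im ≤ a.im / 64 := by nlinarith
  have hz1 : a.im / 2 ≤ z.im := by
    have := (abs_le.1 hzi).1
    linarith
  have hz2 : z.im ≤ 2 * a.im := by
    have := (abs_le.1 hzi).2
    linarith
  have hzH : z ∈ Hp := show 0 < z.im by linarith
  have hzim : 0 < z.im := hzH
  have hball : closedBall z (s * z.im) ⊆ closedBall a (5 * (s * a.im)) := by
    apply closedBall_subset_closedBall'
    rw [dist_eq_norm]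
    nlinarith
  have hsub1 : closedBall a (5 * (s * a.im)) ⊆ ball a (10 * (s * a.im)) :=
    closedBall_subset_ball (by linarith)
  have hsub2 : closedBall a (5 * (s * a.im)) ⊆ closedBall a (8 * (s * a.im)) :=
    closedBall_subset_closedBall (by linarith)
  have hsub3 : closedBall a (8 * (s * a.im)) ⊆ closedBall a (12 * (s * a.im)) :=
    closedBall_subset_closedBall (by linarith)
  obtain ⟨ht, hts⟩ := hK.test hzH
  have hts' := hts.trans hball
  have hpow : ∀ (C : ℝ) (e : ℕ), 0 < C → C / z.im ^ e ≤ C * 2 ^ e / a.im ^ e := by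
    intro C e hC
    rw [div_le_div_iff₀ (pow_pos hzim e) (pow_pos hy e), mul_assoc, ← mul_pow]
    exact mul_le_mul_of_nonneg_left (pow_le_pow_left₀ hy.le (by linarith) e) hC.le
  have hQ : ∀ ζ, ‖K z ζ‖ ≤ (C2 * 2 ^ d + C3 * 2 ^ (d + 1) * s) / a.im ^ d := by
    intro ζ
    refine (hb2 z hzH ζ).trans ((hpow C2 d hC2).trans ?_)
    exact div_le_div_of_nonneg_right (le_add_of_nonneg_right (by positivity)) (pow_pos hy d).le
  have hQ' : ∀ ζ, ‖dzb (K z) ζ‖ ≤
      (C2 * 2 ^ d + C3 * 2 ^ (d + 1) * s) / a.im ^ d / (s * a.im) := by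
    intro ζ
    refine (hb3 z hzH ζ).trans ((hpow C3 (d + 1) hC3).trans ?_)
    have e1 : C3 * 2 ^ (d + 1) / a.im ^ (d + 1) = C3 * 2 ^ (d + 1) * s / a.im ^ d / (s * a.im) := by
      rw [pow_succ a.im d]
      field_simp
    rw [e1]
    exact div_le_div_of_nonneg_right (div_le_div_of_nonneg_right
      (le_add_of_nonneg_left (by positivity)) (pow_pos hy d).le) hR.le
  have key := hv V (ball a (10 * (s * a.im))) (Ea V s a) a (s * a.im) N
    ((C2 * 2 ^ d + C3 * 2 ^ (d + 1) * s) / a.im ^ d) h (K z) hV isOpen_ball hR hN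
    (by positivity) hh hhN ⟨ht.smooth, ht.cpt, hts'.trans hsub1⟩
    ((hts'.trans hsub2).trans hsub3)
    (sdiff_subset_sdiff_left (hts'.trans hsub2)) (sdiff_subset.trans hsub3) hQ hQ'
  have hint : ∫ ζ, V.indicator h ζ * dzb (K z) ζ = ∫ ζ in V, h ζ * dzb (K z) ζ := by
    rw [← integral_indicator hV.measurableSet]
    refine integral_congr_ae (Eventually.of_forall fun ζ => ?_)
    by_cases hζ : ζ ∈ V
    · simp only [indicator_of_mem hζ]
    · simp only [indicator_of_notMem hζ, zero_mul]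
  have hpi : ‖(1 / (Real.pi : ℂ))‖ ≤ 1 := by
    rw [norm_div, norm_one, Complex.norm_real, Real.norm_of_nonneg Real.pi_pos.le,
      div_le_iff₀ Real.pi_pos]
    linarith [Real.pi_gt_three]
  rw [norm_mul, hint]
  refine (mul_le_mul hpi key (norm_nonneg _) zero_le_one).trans (le_of_eq ?_)
  rw [one_mul, gam, mul_pow]
  have hsd : s ^ d ≠ 0 := (pow_pos hs d).ne'
  have had : a.im ^ d ≠ 0 := (pow_pos hy d).ne'
  field_simp

theorem rep2 {s : ℝ} (hs : 0 < s) (hs1 : s ≤ 1 / 64) : ∃ C : ℝ, 0 < C ∧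
    ∀ (V : Set ℂ) (a : ℂ) (N : ℝ) (h : ℂ → ℂ), IsOpen V → a ∈ Hp → 0 ≤ N →
    LocallyIntegrable (V.indicator h) →
    DifferentiableOn ℂ h (V ∩ ball a (10 * (s * a.im))) →
    (∀ z ∈ V ∩ ball a (10 * (s * a.im)), ‖h z‖ ≤ N) → ∀ z ∈ ball a (2 * (s * a.im)),
    ‖dzb (Sm s (V.indicator h)) z‖ ≤ C * N * gam V s a / (s * a.im) ^ 2 ∧
    ‖dz (dzb (Sm s (V.indicator h))) z‖ ≤ C * N * gam V s a / (s * a.im) ^ 3 := by
  obtain ⟨C1, hC1, h1⟩ := rep2_aux hs hs1 (psi_ker hs)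
  obtain ⟨C2, hC2, h2⟩ := rep2_aux hs hs1 (psi1_ker hs)
  refine ⟨max C1 C2, lt_max_of_lt_left hC1, ?_⟩
  intro V a N h hV ha hN hl hh hhN z hz
  have hy : 0 < a.im := ha
  have hR : 0 < s * a.im := mul_pos hs hy
  have hzH : z ∈ Hp := by
    rw [mem_ball, dist_eq_norm] at hz
    have hzi : |z.im - a.im| ≤ ‖z - a‖ := by
      rw [← sub_im]
      exact abs_im_le_norm _
    have hsa : s * a.im ≤ a.im / 64 := by nlinarith
    have := (abs_le.1 hzi).1
    show 0 < z.im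
    linarith
  have hg : 0 ≤ gam V s a := by
    apply Real.sSup_nonneg
    rintro t ⟨b, c, -, rfl⟩
    exact norm_nonneg _
  constructor
  · rw [sm_dzb hs hl hzH]
    refine (h1 V a N h hV ha hN hh hhN z hz).trans ?_
    gcongr
    exact le_max_left _ _
  · rw [sm_dz_dzb hs hl hzH]
    refine (h2 V a N h hV ha hN hh hhN z hz).trans ?_
    gcongr
    exact le_max_right _ _

end Pool.Agent.Work.MP_2cf110_an.Hyp

end
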