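import Pool.Agent.Work.MP_2cf110_an.Hyp.SumL
import Pool.Agent.Work.MP_2cf110_an.Hyp.MacB
import Pool.Agent.Work.MP_2cf110_an.Hyp.Rep2
import Pool.Agent.Work.MP_2cf110_an.Hyp.DataF
import Pool.Agent.Work.MP_2cf110_an.Hyp.MacS
import Pool.Agent.Work.MP_2cf110_an.Hyp.CapB

/-! # The macroscopic functions satisfy FD

T z = Σ_i 1_{closedBall (a i) (s Im a_i)}(z) gam (a i)/(s Im a_i).  On tsupport κ some χ i z ≠ 0, so z in closedBall (a i) R_i ⊆ ball (a i) (2 R_i) and
rep2 (with h = f j, N = K) bounds dzb (FF j), dz (dzb (FF j)) by C T z/y, C T z/y² (y comparable to Im a_i).  ∫ T Φ/y ≤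
Σ_i (gam/R_i) S_i area(closedBall)/(y) ≤ C Σ gam S_i ≤ C B (Φ ≤ |κ| + ε ≤ S i). -/

open MeasureTheory Complex Set Metric Filter
open scoped Topology ContDiff ComplexConjugate

noncomputable section

namespace Pool.Agent.Work.MP_2cf110_an.Hyp

open QC (dz dzb Test Cau)

private theorem fd_vol (a : ℂ) {R : ℝ} (hR : 0 ≤ R) :
    (volume (closedBall a R)).toReal = Real.pi * R ^ 2 := by
  rw [Complex.volume_closedBall, ENNReal.toReal_mul, ENNReal.toReal_pow, ENNReal.toReal_ofReal hR,
    ENNReal.coe_toReal]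
  show R ^ 2 * Real.pi = Real.pi * R ^ 2
  ring

private theorem fd_im {s : ℝ} (hs1 : s ≤ 1 / 64) {a z : ℂ} (ha : a ∈ Hp)
    (hz : z ∈ closedBall a (s * a.im)) : z.im ≤ 2 * a.im ∧ a.im ≤ 2 * z.im := by
  have ha' : 0 < a.im := ha
  have h1 : |z.im - a.im| ≤ s * a.im := by
    have h2 := Complex.abs_im_le_norm (z - a)
    rw [mem_closedBall, dist_eq_norm] at hz
    rw [Complex.sub_im] at h2
    exact h2.trans hz
  have h2 : s * a.im ≤ 1 / 64 * a.im := mul_le_mul_of_nonneg_right hs1 ha'.le
  rw [abs_le] at h1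
  constructor <;> linarith [h1.1, h1.2]

private theorem fd_Ph {κ : ℂ → ℂ} {ε : ℂ → ℝ} (hε : ∀ z, 0 ≤ ε z) (z : ℂ) :
    0 ≤ Ph κ ε z ∧ Ph κ ε z ≤ ‖κ z‖ + ε z := by
  refine ⟨Real.sqrt_nonneg _, ?_⟩
  unfold Ph
  rw [Real.sqrt_le_left (add_nonneg (norm_nonneg _) (hε z))]
  nlinarith [mul_nonneg (norm_nonneg (κ z)) (hε z)]

theorem fdE (n L : ℕ) {s K C₀ : ℝ} (hs : 0 < s) (hs1 : s ≤ 1 / 64) (hK : 0 ≤ K) (hC₀ : 0 < C₀) :
    ∃ C : ℝ, 0 < C ∧
    ∀ (V : Set ℂ) (f : Fin n → ℂ → ℂ) (X : Fin L → ℂ → ℂ) (g : Fin L → Fin n → ℂ → ℂ)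
      (κ : ℂ → ℂ) (ε : ℂ → ℝ) (B : ℝ) (m : ℕ) (a : Fin m → ℂ) (χ : Fin m → ℂ → ℂ) (S : Fin m → ℝ),
    Data s K V f X g → PotD C₀ B κ ε →
    (∀ i, a i ∈ Hp) → (∀ i, tsupport (χ i) ⊆ closedBall (a i) (s * (a i).im)) →
    (∀ z ∈ tsupport κ, ∑ i, χ i z = 1) →
    (∀ i, ∀ z ∈ closedBall (a i) (s * (a i).im), ‖κ z‖ + ε z ≤ S i) →
    ∑ i, gam V s (a i) * S i ≤ C₀ * B →
    ∃ T : ℂ → ℝ, FD C (C * B) κ ε (FF s V f) T := by
  obtain ⟨C1, hC1, hmac⟩ := mac_bounds (n := n) (L := L) (s := s) (K := K) (c := 1) hs hK one_pos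
  obtain ⟨C2, hC2, hrep⟩ := rep2 hs hs1
  have hpi := Real.pi_pos
  obtain ⟨C, hCd⟩ : ∃ C : ℝ, C = C1 + C2 * K * (2 / s) + C2 * K * (2 / s) ^ 2 +
      2 * Real.pi * s * C₀ := ⟨_, rfl⟩
  have g1 : 0 ≤ C2 * K * (2 / s) := by positivity
  have g2 : 0 ≤ C2 * K * (2 / s) ^ 2 := by positivity
  have g3 : 0 < 2 * Real.pi * s * C₀ := by positivity
  have hC : 0 < C := by linarith
  refine ⟨C, hC, ?_⟩
  intro V f X g κ ε B m a χ S D P ha hχ hsum hS hgam
  have hB : 0 ≤ B := by
    refine le_trans (setIntegral_nonneg isOpen_Hp.measurableSet fun z hz => ?_) P.int_le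
    exact div_nonneg (P.nonneg z) (le_of_lt hz)
  have hR : ∀ i, 0 < s * (a i).im := fun i => mul_pos hs (ha i)
  have hgam0 : ∀ i, 0 ≤ gam V s (a i) := fun i => cap_nonneg _
  obtain ⟨T, hT⟩ : ∃ T : ℂ → ℝ, T = fun z => ∑ i, (closedBall (a i) (s * (a i).im)).indicator
      (fun _ => gam V s (a i) / (s * (a i).im)) z := ⟨_, rfl⟩
  have hTi : ∀ i z, z ∈ closedBall (a i) (s * (a i).im) → gam V s (a i) / (s * (a i).im) ≤ T z := by
    intro i z hz
    rw [hT]
    have h1 : (closedBall (a i) (s * (a i).im)).indicator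
        (fun _ => gam V s (a i) / (s * (a i).im)) z ≤
          ∑ i, (closedBall (a i) (s * (a i).im)).indicator
            (fun _ => gam V s (a i) / (s * (a i).im)) z :=
      Finset.single_le_sum (s := Finset.univ)
        (f := fun i => (closedBall (a i) (s * (a i).im)).indicator
          (fun _ => gam V s (a i) / (s * (a i).im)) z)
        (fun j _ => indicator_nonneg (fun _ _ => div_nonneg (hgam0 j) (hR j).le) z)
        (Finset.mem_univ i)
    rw [indicator_of_mem hz] at h1
    exact h1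
  have hT0 : ∀ z, 0 ≤ T z := by
    intro z
    rw [hT]
    exact Finset.sum_nonneg fun i _ =>
      indicator_nonneg (fun _ _ => div_nonneg (hgam0 i) (hR i).le) z
  have key : ∀ j z, z ∈ tsupport κ →
      ‖dzb (FF s V f j) z‖ ≤ C2 * K * (2 / s) * T z / z.im ∧
      ‖dz (dzb (FF s V f j)) z‖ ≤ C2 * K * (2 / s) ^ 2 * T z / z.im ^ 2 := by
    intro j z hz
    have hzH : 0 < z.im := P.test.sub hz
    obtain ⟨i, hi⟩ : ∃ i, χ i z ≠ 0 := by
      by_contra hcon
      push Not at hcon
      have h1 := hsum z hz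
      rw [Finset.sum_eq_zero fun i _ => hcon i] at h1
      exact zero_ne_one h1
    have hzB : z ∈ closedBall (a i) (s * (a i).im) := hχ i (subset_tsupport _ (Function.mem_support.2 hi))
    have hz2 : z ∈ ball (a i) (2 * (s * (a i).im)) := by
      rw [mem_ball]
      rw [mem_closedBall] at hzB
      linarith [hR i]
    obtain ⟨h1, h2⟩ := hrep V (a i) K (f j) D.V_open (ha i) hK
      (li_of_bdd (D.f_meas j) (D.f_ind hK j)) ((D.f_holo j).mono inter_subset_left)
      (fun w hw => D.f_le j w hw.1) z hz2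
    obtain ⟨him, -⟩ := fd_im hs1 (ha i) hzB
    have ht := hTi i z hzB
    have haim : 0 < (a i).im := ha i
    have hinv : 1 / (s * (a i).im) ≤ (2 / s) / z.im := by
      rw [div_div, div_le_div_iff₀ (hR i) (mul_pos hs hzH)]
      nlinarith
    have hinv0 : 0 ≤ 1 / (s * (a i).im) := by positivity
    have hA : 0 ≤ gam V s (a i) / (s * (a i).im) := div_nonneg (hgam0 i) (hR i).le
    constructor
    · refine h1.trans ?_
      have e1 : C2 * K * gam V s (a i) / (s * (a i).im) ^ 2 =
          C2 * K * ((gam V s (a i) / (s * (a i).im)) * (1 / (s * (a i).im))) := by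
        field_simp
      have e2 : C2 * K * (2 / s) * T z / z.im = C2 * K * (T z * ((2 / s) / z.im)) := by ring
      rw [e1, e2]
      exact mul_le_mul_of_nonneg_left (mul_le_mul ht hinv hinv0 (hT0 z)) (by positivity)
    · refine h2.trans ?_
      have e1 : C2 * K * gam V s (a i) / (s * (a i).im) ^ 3 =
          C2 * K * ((gam V s (a i) / (s * (a i).im)) * (1 / (s * (a i).im)) ^ 2) := by
        field_simp
      have e2 : C2 * K * (2 / s) ^ 2 * T z / z.im ^ 2 = C2 * K * (T z * ((2 / s) / z.im) ^ 2) := by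
        ring
      rw [e1, e2]
      exact mul_le_mul_of_nonneg_left (mul_le_mul ht (pow_le_pow_left₀ hinv0 hinv 2)
        (pow_nonneg hinv0 2) (hT0 z)) (by positivity)
  -- the integral
  have hcpt : IsCompact (tsupport κ) := P.test.cpt
  have hφ : ContinuousOn (fun z => Ph κ ε z / z.im) (tsupport κ) := by
    have hsub : tsupport κ ⊆ Hp := P.test.sub
    refine ContinuousOn.div ?_ Complex.continuous_im.continuousOn fun z hz => (hsub hz).ne'
    unfold Ph
    exact ((P.test.smooth.continuous.norm.continuousOn.pow 2).add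
      ((P.smooth.continuousOn.mono hsub).pow 2)).sqrt
  have hφi : IntegrableOn (fun z => Ph κ ε z / z.im) (tsupport κ) :=
    hφ.integrableOn_compact hcpt
  have hmeasK : MeasurableSet (tsupport κ) := (isClosed_tsupport κ).measurableSet
  have hfun : (fun z => T z * Ph κ ε z / z.im) = fun z => ∑ i,
      (closedBall (a i) (s * (a i).im)).indicator
        (fun z => gam V s (a i) / (s * (a i).im) * (Ph κ ε z / z.im)) z := by
    funext z
    rw [hT]
    simp only
    rw [mul_div_assoc, Finset.sum_mul]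
    refine Finset.sum_congr rfl fun i _ => ?_
    by_cases hz : z ∈ closedBall (a i) (s * (a i).im)
    · rw [indicator_of_mem hz, indicator_of_mem hz]
    · rw [indicator_of_notMem hz, indicator_of_notMem hz, zero_mul]
  have hterm : ∀ i, IntegrableOn ((closedBall (a i) (s * (a i).im)).indicator
      (fun z => gam V s (a i) / (s * (a i).im) * (Ph κ ε z / z.im))) (tsupport κ) := by
    intro i
    exact (hφi.const_mul _).indicator isClosed_closedBall.measurableSet
  have hS0 : ∀ i, 0 ≤ S i := by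
    intro i
    refine le_trans (add_nonneg (norm_nonneg _) (P.nonneg (a i))) (hS i (a i) ?_)
    exact mem_closedBall_self (hR i).le
  have hint : ∀ i, ∫ z in tsupport κ, (closedBall (a i) (s * (a i).im)).indicator
      (fun z => gam V s (a i) / (s * (a i).im) * (Ph κ ε z / z.im)) z ≤
        2 * Real.pi * s * (gam V s (a i) * S i) := by
    intro i
    have haim : 0 < (a i).im := ha i
    have hfin : volume (closedBall (a i) (s * (a i).im)) ≠ ⊤ :=
      (isCompact_closedBall _ _).measure_lt_top.ne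
    have hcst : Integrable ((closedBall (a i) (s * (a i).im)).indicator
        (fun _ : ℂ => gam V s (a i) / (s * (a i).im) * (S i * (2 / (a i).im)))) :=
      (integrable_indicator_iff isClosed_closedBall.measurableSet).2 (integrableOn_const hfin)
    calc
      ∫ z in tsupport κ, (closedBall (a i) (s * (a i).im)).indicator
          (fun z => gam V s (a i) / (s * (a i).im) * (Ph κ ε z / z.im)) z
      _ ≤ ∫ z in tsupport κ, (closedBall (a i) (s * (a i).im)).indicator
            (fun _ => gam V s (a i) / (s * (a i).im) * (S i * (2 / (a i).im))) z := by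
          refine setIntegral_mono_on (hterm i) hcst.integrableOn hmeasK fun z hz => ?_
          by_cases hzB : z ∈ closedBall (a i) (s * (a i).im)
          · rw [indicator_of_mem hzB, indicator_of_mem hzB]
            have hzH : 0 < z.im := P.test.sub hz
            obtain ⟨-, him⟩ := fd_im hs1 (ha i) hzB
            refine mul_le_mul_of_nonneg_left ?_ (div_nonneg (hgam0 i) (hR i).le)
            rw [div_eq_mul_one_div]
            refine mul_le_mul ((fd_Ph P.nonneg z).2.trans (hS i z hzB)) ?_ (by positivity) (hS0 i)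
            rw [div_le_div_iff₀ hzH haim]
            linarith
          · rw [indicator_of_notMem hzB, indicator_of_notMem hzB]
      _ ≤ ∫ z, (closedBall (a i) (s * (a i).im)).indicator
            (fun _ => gam V s (a i) / (s * (a i).im) * (S i * (2 / (a i).im))) z := by
          refine setIntegral_le_integral hcst (Eventually.of_forall fun z => ?_)
          refine indicator_nonneg (fun _ _ => ?_) z
          exact mul_nonneg (div_nonneg (hgam0 i) (hR i).le)
            (mul_nonneg (hS0 i) (by positivity))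
      _ = 2 * Real.pi * s * (gam V s (a i) * S i) := by
          rw [integral_indicator isClosed_closedBall.measurableSet, setIntegral_const,
            Measure.real, fd_vol _ (hR i).le, smul_eq_mul]
          field_simp
  refine ⟨T, ?_, ?_, ?_, ?_, hT0, ?_, ?_, ?_, ?_⟩
  · exact fun j => mac_FF hs hK D j
  · intro j z hz
    refine ((hmac V f X g D z hz).1 j).1.trans ?_
    linarith
  · intro j z hz
    refine ((hmac V f X g D z hz).1 j).2.1.trans ?_
    exact div_le_div_of_nonneg_right (by linarith) (le_of_lt hz)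
  · intro j z hz
    refine ((hmac V f X g D z hz).1 j).2.2.trans ?_
    exact div_le_div_of_nonneg_right (by linarith) (le_of_lt hz)
  · intro j z hz
    have hzH : 0 < z.im := P.test.sub hz
    refine (key j z hz).1.trans (div_le_div_of_nonneg_right ?_ hzH.le)
    exact mul_le_mul_of_nonneg_right (by linarith) (hT0 z)
  · intro j z hz
    have hzH : 0 < z.im := P.test.sub hz
    refine (key j z hz).2.trans (div_le_div_of_nonneg_right ?_ (by positivity))
    exact mul_le_mul_of_nonneg_right (by linarith) (hT0 z)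
  · rw [hfun]
    exact integrable_finset_sum _ fun i _ => hterm i
  · rw [hfun, integral_finset_sum _ fun i _ => hterm i]
    calc
      ∑ i, ∫ z in tsupport κ, (closedBall (a i) (s * (a i).im)).indicator
          (fun z => gam V s (a i) / (s * (a i).im) * (Ph κ ε z / z.im)) z
      _ ≤ ∑ i, 2 * Real.pi * s * (gam V s (a i) * S i) := Finset.sum_le_sum fun i _ => hint i
      _ = 2 * Real.pi * s * ∑ i, gam V s (a i) * S i := by rw [Finset.mul_sum]
      _ ≤ 2 * Real.pi * s * (C₀ * B) := mul_le_mul_of_nonneg_left hgam (by positivity)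
      _ = 2 * Real.pi * s * C₀ * B := by ring
      _ ≤ C * B := mul_le_mul_of_nonneg_right (by linarith) hB

end Pool.Agent.Work.MP_2cf110_an.Hyp

end
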