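import Pool.Agent.Work.MP_2cf110_an.Hyp.MacS
import Pool.Agent.Work.MP_2cf110_an.Hyp.MacB

/-! # The smooth solution on V

Near z in V: if X i vanishes on ball z (2 s Im z) then X i * g i p = 0 there, otherwise g i p is analytic on
V ∩ ball z (10 s Im z).  Sum: Σ_p f_p Gh_p = Σ_i X_i Σ_p f_p g_ip + Σ_{j,p} f_p f_j BB_jp = 1 + 0 (BB antisymmetric). -/

open MeasureTheory Complex Set Metric Filter
open scoped Topology ContDiff ComplexConjugate

noncomputable section

namespace Pool.Agent.Work.MP_2cf110_an.Hyp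

open QC (dz dzb Test Cau)

variable {n L : ℕ} {s K c : ℝ} {V : Set ℂ} {f : Fin n → ℂ → ℂ} {X : Fin L → ℂ → ℂ}
  {g : Fin L → Fin n → ℂ → ℂ}

/-- a function which is analytic on an open set is smooth at its points -/
private theorem ghF_smooth {h : ℂ → ℂ} {W : Set ℂ} (hW : IsOpen W) (hh : DifferentiableOn ℂ h W)
    {z : ℂ} (hz : z ∈ W) : ContDiffAt ℝ ∞ h z ∧ dzb h z = 0 := by
  have h1 : ContDiffOn ℂ ∞ h W := hh.contDiffOn hW
  refine ⟨(h1.contDiffAt (hW.mem_nhds hz)).restrict_scalars ℝ, ?_⟩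
  exact (QC.dz_of_holo (hh.differentiableAt (hW.mem_nhds hz))).2

private theorem ghF_zero {h : ℂ → ℂ} {z : ℂ} (h0 : h =ᶠ[𝓝 z] fun _ => (0 : ℂ)) :
    ContDiffAt ℝ ∞ h z ∧ dzb h z = 0 := by
  refine ⟨contDiffAt_const.congr_of_eventuallyEq h0, ?_⟩
  unfold QC.dzb
  rw [h0.fderiv_eq]
  simp

private theorem ghF_local (hs : 0 < s) (D : Data s K V f X g) {z : ℂ} (hz : z ∈ V) (i : Fin L)
    (p : Fin n) :
    ContDiffAt ℝ ∞ (fun w => X i w * g i p w) z ∧
    dzb (fun w => X i w * g i p w) z = dzb (X i) z * g i p z := by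
  have hzH : z ∈ Hp := D.V_sub hz
  have hz' : 0 < z.im := hzH
  have hR : 0 < s * z.im := mul_pos hs hz'
  by_cases hX : ∃ w ∈ ball z (2 * (s * z.im)), X i w ≠ 0
  · obtain ⟨hg, -⟩ := D.loc z hzH i hX
    obtain ⟨h1, h2⟩ := ghF_smooth (D.V_open.inter isOpen_ball) (hg p)
      ⟨hz, mem_ball_self (by positivity)⟩
    have h3 : ContDiffAt ℝ ∞ (X i) z := (D.X_smooth i).contDiffAt (isOpen_Hp.mem_nhds hzH)
    refine ⟨h3.mul h1, ?_⟩
    rw [(QC.dz_mul (h3.differentiableAt (by simp)) (h1.differentiableAt (by simp))).2, h2]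
    ring
  · push Not at hX
    have h0 : X i =ᶠ[𝓝 z] fun _ => (0 : ℂ) := by
      filter_upwards [ball_mem_nhds z (show (0 : ℝ) < 2 * (s * z.im) by positivity)] with w hw
      exact hX w hw
    have h0' : (fun w => X i w * g i p w) =ᶠ[𝓝 z] fun _ => (0 : ℂ) := by
      filter_upwards [h0] with w hw
      rw [hw, zero_mul]
    obtain ⟨h1, h2⟩ := ghF_zero h0'
    refine ⟨h1, ?_⟩
    rw [h2, (ghF_zero h0).2, zero_mul]

private theorem ghF_sum {ι : Type*} (S : Finset ι) (F : ι → ℂ → ℂ) {z : ℂ}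
    (hF : ∀ i ∈ S, ContDiffAt ℝ ∞ (F i) z) :
    dzb (fun w => ∑ i ∈ S, F i w) z = ∑ i ∈ S, dzb (F i) z := by
  have h : fderiv ℝ (fun w => ∑ i ∈ S, F i w) z = ∑ i ∈ S, fderiv ℝ (F i) z :=
    fderiv_fun_sum fun i hi => (hF i hi).differentiableAt (by simp)
  unfold QC.dzb
  rw [h]
  simp only [sum_apply, Finset.mul_sum]
  rw [← Finset.sum_add_distrib, Finset.sum_div]

private theorem ghF_second (hs : 0 < s) (hK : 0 ≤ K) (hc : 0 < c) (D : Data s K V f X g) {z : ℂ}
    (hz : z ∈ V) (j p : Fin n) :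
    ContDiffAt ℝ ∞ (fun w => f j w * BB s c V f X g j p w) z ∧
    dzb (fun w => f j w * BB s c V f X g j p w) z = f j z * dzb (BB s c V f X g j p) z := by
  obtain ⟨h1, h2⟩ := ghF_smooth D.V_open (D.f_holo j) hz
  have h3 : ContDiffAt ℝ ∞ (BB s c V f X g j p) z :=
    (mac_BB hs hK hc D j p).contDiffAt (isOpen_Hp.mem_nhds (D.V_sub hz))
  refine ⟨h1.mul h3, ?_⟩
  rw [(QC.dz_mul (h1.differentiableAt (by simp)) (h3.differentiableAt (by simp))).2, h2]
  ring

private theorem ghF_gh (hs : 0 < s) (hK : 0 ≤ K) (hc : 0 < c) (D : Data s K V f X g) {z : ℂ}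
    (hz : z ∈ V) (p : Fin n) :
    ContDiffAt ℝ ∞ (Gh s c V f X g p) z ∧
    dzb (Gh s c V f X g p) z = Dh s c V f X g p z := by
  have h1 : ∀ i ∈ (Finset.univ : Finset (Fin L)), ContDiffAt ℝ ∞ (fun w => X i w * g i p w) z :=
    fun i _ => (ghF_local hs D hz i p).1
  have h2 : ∀ j ∈ (Finset.univ : Finset (Fin n)),
      ContDiffAt ℝ ∞ (fun w => f j w * BB s c V f X g j p w) z :=
    fun j _ => (ghF_second hs hK hc D hz j p).1
  have h1' : ContDiffAt ℝ ∞ (fun w => ∑ i, X i w * g i p w) z := ContDiffAt.sum h1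
  have h2' : ContDiffAt ℝ ∞ (fun w => ∑ j, f j w * BB s c V f X g j p w) z := ContDiffAt.sum h2
  refine ⟨h1'.add h2', ?_⟩
  have e : Gh s c V f X g p = fun w => (fun w => ∑ i, X i w * g i p w) w +
      (fun w => ∑ j, f j w * BB s c V f X g j p w) w := rfl
  rw [e, (QC.dz_add (h1'.differentiableAt (by simp)) (h2'.differentiableAt (by simp))).2,
    ghF_sum _ _ h1, ghF_sum _ _ h2]
  unfold Dh
  congr 1
  · exact Finset.sum_congr rfl fun i _ => (ghF_local hs D hz i p).2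
  · exact Finset.sum_congr rfl fun j _ => (ghF_second hs hK hc D hz j p).2

private theorem ghF_anti (j p : Fin n) (z : ℂ) :
    BB s c V f X g j p z = - BB s c V f X g p j z := by
  unfold BB
  ring

private theorem ghF_one (hs : 0 < s) (D : Data s K V f X g) {z : ℂ}
    (hz : z ∈ V) : ∑ p, f p z * Gh s c V f X g p z = 1 := by
  have hzH : z ∈ Hp := D.V_sub hz
  have hz' : 0 < z.im := hzH
  have hR : 0 < s * z.im := mul_pos hs hz'
  have e1 : ∑ p, f p z * Gh s c V f X g p z =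
      (∑ i, X i z * ∑ p, f p z * g i p z) +
        ∑ p, ∑ j, f p z * f j z * BB s c V f X g j p z := by
    have : ∀ p, f p z * Gh s c V f X g p z = (∑ i, X i z * (f p z * g i p z)) +
        ∑ j, f p z * f j z * BB s c V f X g j p z := by
      intro p
      unfold Gh
      rw [mul_add, Finset.mul_sum, Finset.mul_sum]
      congr 1
      · exact Finset.sum_congr rfl fun i _ => by ring
      · exact Finset.sum_congr rfl fun i _ => by ring
    rw [Finset.sum_congr rfl fun p _ => this p, Finset.sum_add_distrib]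
    congr 1
    rw [Finset.sum_comm]
    exact Finset.sum_congr rfl fun i _ => by rw [Finset.mul_sum]
  have e2 : ∑ p, ∑ j, f p z * f j z * BB s c V f X g j p z = 0 := by
    have h : ∑ p, ∑ j, f p z * f j z * BB s c V f X g j p z =
        - ∑ p, ∑ j, f p z * f j z * BB s c V f X g j p z := by
      conv_lhs => rw [Finset.sum_comm]
      rw [← Finset.sum_neg_distrib]
      refine Finset.sum_congr rfl fun j _ => ?_
      rw [← Finset.sum_neg_distrib]
      refine Finset.sum_congr rfl fun p _ => ?_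
      rw [ghF_anti j p z]
      ring
    have h2 : (2 : ℂ) * ∑ p, ∑ j, f p z * f j z * BB s c V f X g j p z = 0 := by
      linear_combination h
    rcases mul_eq_zero.1 h2 with h3 | h3
    · norm_num at h3
    · exact h3
  have e3 : ∀ i, X i z * ∑ p, f p z * g i p z = X i z := by
    intro i
    by_cases hX : X i z = 0
    · rw [hX, zero_mul]
    · obtain ⟨-, h1⟩ := D.loc z hzH i ⟨z, mem_ball_self (by positivity), hX⟩
      rw [h1 z ⟨hz, mem_ball_self (by positivity)⟩, mul_one]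
  rw [e1, e2, add_zero, Finset.sum_congr rfl fun i _ => e3 i]
  exact D.X_sum z hzH

private theorem ghF_norm_sum {m : ℕ} (F : Fin m → ℂ) (B : ℝ) (h : ∀ i, ‖F i‖ ≤ B) :
    ‖∑ i, F i‖ ≤ m * B := by
  refine (norm_sum_le _ _).trans ((Finset.sum_le_sum fun i _ => h i).trans ?_)
  simp

theorem gh_facts {n L : ℕ} {s K c : ℝ} (hs : 0 < s) (hs1 : s ≤ 1 / 64) (hK : 0 ≤ K) (hc : 0 < c) :
    ∃ C : ℝ, 0 < C ∧
    ∀ (V : Set ℂ) (f : Fin n → ℂ → ℂ) (X : Fin L → ℂ → ℂ) (g : Fin L → Fin n → ℂ → ℂ),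
    Data s K V f X g →
    (∀ p, ContDiffOn ℝ ∞ (Gh s c V f X g p) V) ∧
    (∀ p, ∀ z ∈ V, dzb (Gh s c V f X g p) z = Dh s c V f X g p z) ∧
    (∀ z ∈ V, ∑ p, f p z * Gh s c V f X g p z = 1) ∧
    (∀ p, ∀ z ∈ V, ‖Gh s c V f X g p z‖ ≤ C) ∧
    (∀ p l, ∀ z ∈ V, ‖om s c V f X g p l z‖ ≤ C / z.im) := by
  obtain ⟨C₁, hC₁, hM⟩ := mac_bounds (n := n) (L := L) hs hK hc
  set A : ℝ := L * (1 * K) + n * (K * C₁) with hA
  set B : ℝ := L * (K * K) + n * (K * C₁) with hB
  have hA0 : 0 ≤ A := by positivity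
  have hB0 : 0 ≤ B := by positivity
  refine ⟨A + 2 * A * B + 1, by positivity, ?_⟩
  intro V f X g D
  have hGb : ∀ p, ∀ z ∈ V, ‖Gh s c V f X g p z‖ ≤ A := by
    intro p z hz
    have hzH : z ∈ Hp := D.V_sub hz
    unfold Gh
    refine (norm_add_le _ _).trans (add_le_add (ghF_norm_sum _ _ fun i => ?_)
      (ghF_norm_sum _ _ fun j => ?_))
    · rw [norm_mul]
      exact mul_le_mul (D.X_le i z hzH) (D.g_le i p z) (norm_nonneg _) zero_le_one
    · rw [norm_mul]
      exact mul_le_mul (D.f_le j z hz) ((hM V f X g D z hzH).2.2.2 j p).1 (norm_nonneg _) hK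
  have hDb : ∀ p, ∀ z ∈ V, ‖Dh s c V f X g p z‖ ≤ B / z.im := by
    intro p z hz
    have hzH : z ∈ Hp := D.V_sub hz
    have hz' : 0 < z.im := hzH
    have e : B / z.im = L * (K / z.im * K) + n * (K * (C₁ / z.im)) := by
      rw [hB]; ring
    rw [e]
    unfold Dh
    refine (norm_add_le _ _).trans (add_le_add (ghF_norm_sum _ _ fun i => ?_)
      (ghF_norm_sum _ _ fun j => ?_))
    · rw [norm_mul]
      exact mul_le_mul (D.X_der i z hzH) (D.g_le i p z) (norm_nonneg _) (by positivity)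
    · rw [norm_mul]
      exact mul_le_mul (D.f_le j z hz) ((hM V f X g D z hzH).2.2.2 j p).2 (norm_nonneg _) hK
  refine ⟨fun p z hz => (ghF_gh hs hK hc D hz p).1.contDiffWithinAt,
    fun p z hz => (ghF_gh hs hK hc D hz p).2, fun z hz => ghF_one hs D hz, ?_, ?_⟩
  · intro p z hz
    exact (hGb p z hz).trans (by nlinarith [mul_nonneg hA0 hB0])
  · intro p l z hz
    have hz' : 0 < z.im := D.V_sub hz
    unfold om
    have h1 : ‖Gh s c V f X g p z * Dh s c V f X g l z‖ ≤ A * (B / z.im) := by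
      rw [norm_mul]
      exact mul_le_mul (hGb p z hz) (hDb l z hz) (norm_nonneg _) hA0
    have h2 : ‖Gh s c V f X g l z * Dh s c V f X g p z‖ ≤ A * (B / z.im) := by
      rw [norm_mul]
      exact mul_le_mul (hGb l z hz) (hDb p z hz) (norm_nonneg _) hA0
    refine (norm_sub_le _ _).trans ((add_le_add h1 h2).trans ?_)
    have e : A * (B / z.im) + A * (B / z.im) = (2 * A * B) / z.im := by ring
    rw [e]
    exact div_le_div_of_nonneg_right (by linarith) hz'.le

end Pool.Agent.Work.MP_2cf110_an.Hyp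

end
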