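import Pool.Agent.Work.MP_2cf110_an.Hyp.Defs

/-! # Definitions: the potential side -/

open MeasureTheory Complex Set Metric Filter
open scoped Topology ContDiff ComplexConjugate

noncomputable section

namespace Pool.Agent.Work.MP_2cf110_an.Hyp

open QC (dz dzb Test Cau)

/-- `Φ - ε` as a complex valued function -/
def PP (κ : ℂ → ℂ) (ε : ℂ → ℝ) (z : ℂ) : ℂ := ((Ph κ ε z - ε z : ℝ) : ℂ)

/-- the properties of the smoothing `κ` of a test function and of the auxiliary function `ε` -/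
structure PotD (C B : ℝ) (κ : ℂ → ℂ) (ε : ℂ → ℝ) : Prop where
  test : Test Hp κ
  smooth : ContDiffOn ℝ ∞ ε Hp
  nonneg : ∀ z, 0 ≤ ε z
  pos : ∀ z ∈ Hp, 0 < ε z
  k1 : ∀ z ∈ Hp, ‖dzb κ z‖ ≤ ε z / z.im
  k2 : ∀ z ∈ Hp, ‖dz (dzb κ) z‖ ≤ ε z / z.im ^ 2
  e1 : ∀ z ∈ Hp, ‖dz (fun w => (ε w : ℂ)) z‖ ≤ C * ε z / z.im
  e2 : ∀ z ∈ Hp, ‖dz (dzb fun w => (ε w : ℂ)) z‖ ≤ C * ε z / z.im ^ 2
  int : IntegrableOn (fun z => ε z / z.im) Hp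
  int_le : ∫ z in Hp, ε z / z.im ≤ B

/-- the properties of the smoothed functions `F` on the support of `κ`; `T` is the local
thickness of the complement of `V` -/
structure FD {n : ℕ} (C B : ℝ) (κ : ℂ → ℂ) (ε : ℂ → ℝ) (F : Fin n → ℂ → ℂ) (T : ℂ → ℝ) : Prop where
  smooth : ∀ j, ContDiffOn ℝ ∞ (F j) Hp
  le : ∀ j, ∀ z ∈ Hp, ‖F j z‖ ≤ C
  d1 : ∀ j, ∀ z ∈ Hp, ‖dz (F j) z‖ ≤ C / z.im
  d2 : ∀ j, ∀ z ∈ Hp, ‖dzb (F j) z‖ ≤ C / z.im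
  t0 : ∀ z, 0 ≤ T z
  t1 : ∀ j, ∀ z ∈ tsupport κ, ‖dzb (F j) z‖ ≤ C * T z / z.im
  t2 : ∀ j, ∀ z ∈ tsupport κ, ‖dz (dzb (F j)) z‖ ≤ C * T z / z.im ^ 2
  tint : IntegrableOn (fun z => T z * Ph κ ε z / z.im) (tsupport κ)
  tle : ∫ z in tsupport κ, T z * Ph κ ε z / z.im ≤ B

end Pool.Agent.Work.MP_2cf110_an.Hyp

end
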