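import Pool.Agent.Work.MP_2cf110_an.Hyp.Kap
import Pool.Agent.Work.MP_2cf110_an.Hyp.KerD1

/-! # The smoothing of a test function in Hp is a test function in Hp

Smooth on Hp by Ker.par_smooth.  If z is not in Hp then Sm s k z = 0 (for Im z < 0 and ζ in Hp: ‖ζ - z‖ > |Im z|, so
q > 1; for Im z = 0: q = 0).  The support: if Sm s k z ≠ 0 then some ζ in tsupport k has ‖ζ - z‖ ≤ s Im z, so
z is in a compact subset of Hp (Im z (1+s) ≥ Im ζ ≥ y₀ > 0, ‖z‖ bounded). -/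

open MeasureTheory Complex Set Metric Filter
open scoped Topology ContDiff ComplexConjugate

noncomputable section

namespace Pool.Agent.Work.MP_2cf110_an.Hyp

open QC (dz dzb Test Cau)

private theorem smc_kap_zero {s : ℝ} {z ζ : ℂ} (h : 1 < qq s z ζ) : kap s z ζ = 0 := by
  unfold kap
  have h1 : deriv mm (qq s z ζ) = 0 := by
    have h2 : mm =ᶠ[𝓝 (qq s z ζ)] fun _ => (1 : ℝ) := by
      filter_upwards [lt_mem_nhds h] with t ht
      exact mm_facts.2.2.2 t ht.le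
    rw [h2.deriv_eq, deriv_const]
  rw [h1, zero_div, Complex.ofReal_zero]

private theorem smc_ne {s : ℝ} (hs : 0 < s) (hs1 : s ≤ 1 / 2) {k : ℂ → ℂ} (hk : Test Hp k) {z : ℂ}
    (h : Sm s k z ≠ 0) : 0 < z.im ∧ ∃ ζ ∈ tsupport k, ‖ζ - z‖ ≤ s * z.im := by
  obtain ⟨ζ, hζ⟩ : ∃ ζ, k ζ * kap s z ζ ≠ 0 := by
    by_contra hcon
    push Not at hcon
    apply h
    unfold Sm
    simp only [hcon, integral_zero, mul_zero]
  have h1 : k ζ ≠ 0 := left_ne_zero_of_mul hζ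
  have h2 : kap s z ζ ≠ 0 := right_ne_zero_of_mul hζ
  have h3 : ζ ∈ tsupport k := subset_tsupport k h1
  have h4 : 0 < ζ.im := hk.sub h3
  have h5 : qq s z ζ ≤ 1 := by
    by_contra hc
    exact h2 (smc_kap_zero (not_le.1 hc))
  have h6 : z.im ≠ 0 := by
    intro e
    apply h2
    unfold kap
    rw [e]
    simp
  have h7 : 0 < (s * z.im) ^ 2 := by positivity
  have h8 : ‖ζ - z‖ ^ 2 ≤ (s * z.im) ^ 2 := by
    unfold qq at h5
    rwa [div_le_one h7] at h5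
  have h9 : ‖ζ - z‖ ≤ s * |z.im| := by
    have := sq_le_sq.1 h8
    rwa [abs_norm, abs_mul, abs_of_pos hs] at this
  have h10 : |ζ.im - z.im| ≤ ‖ζ - z‖ := by
    have := Complex.abs_im_le_norm (ζ - z)
    rwa [Complex.sub_im] at this
  have h11 := le_abs_self (ζ.im - z.im)
  have h12 : 0 < z.im := by
    rcases lt_or_gt_of_ne h6 with h13 | h13
    · exfalso
      rw [abs_of_neg h13] at h9
      nlinarith
    · exact h13
  rw [abs_of_pos h12] at h9
  exact ⟨h12, ζ, h3, h9⟩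

theorem sm_test {s : ℝ} (hs : 0 < s) (hs1 : s ≤ 1 / 2) {k : ℂ → ℂ} (hk : Test Hp k) :
    Test Hp (Sm s k) := by
  obtain ⟨y₀, hy₀, hy₁⟩ : ∃ y₀ : ℝ, 0 < y₀ ∧ ∀ ζ ∈ tsupport k, y₀ ≤ ζ.im := by
    rcases (tsupport k).eq_empty_or_nonempty with he | hne
    · refine ⟨1, one_pos, ?_⟩
      intro ζ hζ
      rw [he] at hζ
      exact absurd hζ (Set.notMem_empty ζ)
    · obtain ⟨ζ₀, h1, h2⟩ := hk.cpt.isCompact.exists_isMinOn hne Complex.continuous_im.continuousOn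
      exact ⟨ζ₀.im, hk.sub h1, fun ζ hζ => h2 hζ⟩
  obtain ⟨R₀, hR₀⟩ : ∃ R₀ : ℝ, ∀ ζ ∈ tsupport k, ‖ζ‖ ≤ R₀ :=
    hk.cpt.isCompact.isBounded.exists_norm_le
  obtain ⟨C, hC⟩ : ∃ C : Set ℂ, C = closedBall (0 : ℂ) (2 * R₀) ∩ {z | y₀ / 2 ≤ z.im} := ⟨_, rfl⟩
  have hCc : IsCompact C := by
    rw [hC]
    exact (isCompact_closedBall _ _).inter_right
      (isClosed_le continuous_const Complex.continuous_im)
  have hCH : C ⊆ Hp := by
    rw [hC]
    rintro z ⟨-, hz⟩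
    have hz' : y₀ / 2 ≤ z.im := hz
    have : 0 < z.im := by linarith
    exact this
  have hsupp : Function.support (Sm s k) ⊆ C := by
    intro z hz
    obtain ⟨h1, ζ, h2, h3⟩ := smc_ne hs hs1 hk hz
    have h4 := hy₁ ζ h2
    have h5 := hR₀ ζ h2
    have h6 : |ζ.im - z.im| ≤ ‖ζ - z‖ := by
      have := Complex.abs_im_le_norm (ζ - z)
      rwa [Complex.sub_im] at this
    have h7 := le_abs_self (ζ.im - z.im)
    have h8 : ‖z‖ ≤ ‖ζ‖ + ‖ζ - z‖ := by
      have := norm_sub_le ζ (ζ - z)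
      rwa [sub_sub_cancel] at this
    have h9 : z.im ≤ ‖z‖ := (le_abs_self _).trans (Complex.abs_im_le_norm z)
    rw [hC]
    refine ⟨?_, ?_⟩
    · rw [mem_closedBall_zero_iff]
      nlinarith
    · change y₀ / 2 ≤ z.im
      nlinarith
  have htsupp : tsupport (Sm s k) ⊆ C := closure_minimal hsupp hCc.isClosed
  refine ⟨?_, HasCompactSupport.of_support_subset_isCompact hCc hsupp, htsupp.trans hCH⟩
  have h1 := (kap_ker hs).par_smooth (hk.smooth.continuous.locallyIntegrable)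
  rw [contDiff_iff_contDiffAt]
  intro z
  by_cases hz : z ∈ Hp
  · have h2 := (h1.contDiffAt (isOpen_Hp.mem_nhds hz))
    exact contDiffAt_const.mul h2
  · have h3 : z ∈ (tsupport (Sm s k))ᶜ := fun e => hz (hCH (htsupp e))
    have h4 : Sm s k =ᶠ[𝓝 z] fun _ => (0 : ℂ) :=
      notMem_tsupport_iff_eventuallyEq.1 h3
    exact (contDiffAt_const (c := (0 : ℂ))).congr_of_eventuallyEq h4

end Pool.Agent.Work.MP_2cf110_an.Hyp

end
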