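import Pool.Agent.Work.MP_2cf110_an.Hyp.SmF
import Pool.Agent.Work.MP_2cf110_an.Hyp.KerA

/-! # The ∂̄-derivative of the smoothing of a test function is small where ∂̄k is small

sm_dzb, integrate by parts: ∫ k ∂̄psi = -∫ (∂̄k) psi, and the bound of the kernels psi (degree 2) and psi1 (degree 3),
which are supported in closedBall z (s Im z). -/

open MeasureTheory Complex Set Metric Filter
open scoped Topology ContDiff ComplexConjugate

noncomputable section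

namespace Pool.Agent.Work.MP_2cf110_an.Hyp

open QC (dz dzb Test Cau)

private theorem smE_aux {s : ℝ} {d : ℕ} {K : ℂ → ℂ → ℂ} (h : Ker s d K) {C : ℝ}
    (hC : ∀ z ∈ Hp, ∀ ζ, ‖K z ζ‖ ≤ C / z.im ^ d) (k : ℂ → ℂ) (hk : Test univ k) {z : ℂ}
    (hz : z ∈ Hp) :
    ‖(1 / (Real.pi : ℂ)) * ∫ ζ, k ζ * dzb (K z) ζ‖
      ≤ C / z.im ^ d * ∫ ζ in closedBall z (s * z.im), ‖dzb k ζ‖ := by
  have ht := h.test hz
  have hpi : ‖(1 / (Real.pi : ℂ))‖ ≤ 1 := by
    rw [norm_div, norm_one, Complex.norm_real, Real.norm_of_nonneg Real.pi_pos.le,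
      div_le_iff₀ Real.pi_pos]
    linarith [Real.pi_gt_three]
  have hC0 : 0 ≤ C / z.im ^ d := (norm_nonneg _).trans (hC z hz z)
  have hI : ∫ ζ, k ζ * dzb (K z) ζ = - ∫ ζ, dzb k ζ * K z ζ :=
    (QC.integral_mul_dz isOpen_univ
      ((hk.smooth.of_le (by exact_mod_cast le_top)).contDiffOn)
      (ht.1.smooth.of_le (by exact_mod_cast le_top)) ht.1.cpt (subset_univ _)).2
  have hset : ∫ ζ, dzb k ζ * K z ζ = ∫ ζ in closedBall z (s * z.im), dzb k ζ * K z ζ := by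
    refine (setIntegral_eq_integral_of_forall_compl_eq_zero fun ζ hζ => ?_).symm
    rw [mem_closedBall, not_le, dist_eq_norm] at hζ
    rw [h.supp z hz ζ hζ, mul_zero]
  have hcont : Continuous (dzb k) := (QC.contDiff_dz hk.smooth).2.continuous
  have hint : IntegrableOn (fun ζ => ‖dzb k ζ‖) (closedBall z (s * z.im)) :=
    hcont.norm.continuousOn.integrableOn_compact (isCompact_closedBall _ _)
  have hb : ‖∫ ζ in closedBall z (s * z.im), dzb k ζ * K z ζ‖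
      ≤ ∫ ζ in closedBall z (s * z.im), C / z.im ^ d * ‖dzb k ζ‖ := by
    refine norm_integral_le_of_norm_le (hint.const_mul _) (Eventually.of_forall fun ζ => ?_)
    rw [norm_mul, mul_comm]
    exact mul_le_mul_of_nonneg_right (hC z hz ζ) (norm_nonneg _)
  rw [integral_const_mul] at hb
  rw [norm_mul, hI, norm_neg, hset]
  calc ‖(1 / (Real.pi : ℂ))‖ * ‖∫ ζ in closedBall z (s * z.im), dzb k ζ * K z ζ‖
      ≤ 1 * ‖∫ ζ in closedBall z (s * z.im), dzb k ζ * K z ζ‖ :=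
        mul_le_mul_of_nonneg_right hpi (norm_nonneg _)
    _ = ‖∫ ζ in closedBall z (s * z.im), dzb k ζ * K z ζ‖ := one_mul _
    _ ≤ _ := hb

theorem sm_dzb_le {s : ℝ} (hs : 0 < s) : ∃ C : ℝ, 0 < C ∧ ∀ k : ℂ → ℂ, Test univ k → ∀ z ∈ Hp,
    ‖dzb (Sm s k) z‖ ≤ C / z.im ^ 2 * ∫ ζ in closedBall z (s * z.im), ‖dzb k ζ‖ ∧
    ‖dz (dzb (Sm s k)) z‖ ≤ C / z.im ^ 3 * ∫ ζ in closedBall z (s * z.im), ‖dzb k ζ‖ := by
  obtain ⟨C2, hC2, hb2⟩ := (psi_ker hs).bound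
  obtain ⟨C3, hC3, hb3⟩ := (psi1_ker hs).bound
  have hb2x : ∀ z ∈ Hp, ∀ ζ, ‖psi s z ζ‖ ≤ max C2 C3 / z.im ^ 2 := fun z hz ζ =>
    (hb2 z hz ζ).trans (div_le_div_of_nonneg_right (le_max_left _ _) (pow_nonneg (le_of_lt hz) _))
  have hb3x : ∀ z ∈ Hp, ∀ ζ, ‖psi1 s z ζ‖ ≤ max C2 C3 / z.im ^ 3 := fun z hz ζ =>
    (hb3 z hz ζ).trans (div_le_div_of_nonneg_right (le_max_right _ _) (pow_nonneg (le_of_lt hz) _))
  refine ⟨max C2 C3, lt_max_of_lt_left hC2, fun k hk z hz => ?_⟩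
  have hl : LocallyIntegrable k := hk.smooth.continuous.locallyIntegrable
  constructor
  · rw [sm_dzb hs hl hz]
    exact smE_aux (psi_ker hs) hb2x k hk hz
  · rw [sm_dz_dzb hs hl hz]
    exact smE_aux (psi1_ker hs) hb3x k hk hz

end Pool.Agent.Work.MP_2cf110_an.Hyp

end
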