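import Pool.Agent.Work.MP_2cf110_an.Hyp.Eps
import Pool.Agent.Work.MP_2cf110_an.Hyp.SmC
import Pool.Agent.Work.MP_2cf110_an.Hyp.SmE
import Pool.Agent.Work.MP_2cf110_an.Hyp.PotDef
import Pool.Agent.Work.MP_217185_an.CauB

/-! # The potential data of a test function

v = dzb k; if ∫ |v| = 0 then v = 0 and k = Cau v = 0.  Otherwise ε from exists_eps multiplied by a constant ≥ 1 such that sm_dzb_le gives k1 and
k2 (C/y² ∫ ≤ ε/y). -/

open MeasureTheory Complex Set Metric Filter
open scoped Topology ContDiff ComplexConjugate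

noncomputable section

namespace Pool.Agent.Work.MP_2cf110_an.Hyp

open QC (dz dzb Test Cau)

private theorem dz_const (M : ℂ) (f : ℂ → ℂ) :
    (dz fun w => M * f w) = (fun z => M * dz f z) ∧ (dzb fun w => M * f w) = fun z => M * dzb f z := by
  have h : fderiv ℝ (fun w => M * f w) = M • fderiv ℝ f := fderiv_const_smul_field M
  constructor
  · funext z
    simp only [QC.dz, h, Pi.smul_apply, smul_apply, smul_eq_mul]
    ring
  · funext z
    simp only [QC.dzb, h, Pi.smul_apply, smul_apply, smul_eq_mul]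
    ring

theorem potE {s : ℝ} (hs : 0 < s) (hs1 : s ≤ 1 / 64) : ∃ C : ℝ, 0 < C ∧ ∀ k : ℂ → ℂ, Test Hp k →
    (∀ z, k z = 0) ∨ ∃ ε : ℂ → ℝ, PotD C (C * ∫ z, ‖dzb k z‖) (Sm s k) ε ∧
      ∀ a ∈ Hp, ∀ z ∈ ball a (16 * (s * a.im)), ε z ≤ C * ε a ∧ ε a ≤ C * ε z := by
  obtain ⟨C1, hC1, h1⟩ := exists_eps hs hs1
  obtain ⟨C2, hC2, h2⟩ := sm_dzb_le hs
  set M := max 1 C2 with hM
  have hM1 : 1 ≤ M := le_max_left _ _
  have hM2 : C2 ≤ M := le_max_right _ _
  have hM0 : 0 < M := by linarith
  refine ⟨M * C1, by positivity, fun k hk => ?_⟩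
  have hku : Test univ k := ⟨hk.smooth, hk.cpt, subset_univ _⟩
  have hv := hk.dz.2
  have hvc : Continuous (dzb k) := hv.smooth.continuous
  have hvi : Integrable (dzb k) := hvc.integrable_of_hasCompactSupport hv.cpt
  rcases (integral_nonneg (μ := volume) (f := fun z => ‖dzb k z‖)
    fun z => norm_nonneg _).eq_or_lt with h0 | h0
  · left
    have e1 : (fun z => ‖dzb k z‖) =ᵐ[volume] 0 :=
      (integral_eq_zero_iff_of_nonneg (fun z => norm_nonneg _) hvi.norm).1 h0.symm
    have e2 : (fun z => ‖dzb k z‖) = fun _ => 0 :=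
      (hvc.norm.ae_eq_iff_eq volume continuous_const).1 e1
    have e3 : ∀ z, dzb k z = 0 := fun z => norm_eq_zero.1 (congrFun e2 z)
    intro z
    rw [← QC.cau_dzb hku z]
    unfold QC.Cau
    simp [e3]
  · right
    obtain ⟨ε, a1, a2, a3, a4, a5, a6, a7, a8⟩ := h1 (dzb k) hvc hv.cpt hv.sub h0
    have hcast : (fun w => ((M * ε w : ℝ) : ℂ)) = fun w => (M : ℂ) * (ε w : ℂ) := by
      funext w
      push_cast
      ring
    have hd := dz_const (M : ℂ) fun w => (ε w : ℂ)
    have hnM : ‖(M : ℂ)‖ = M := by rw [Complex.norm_real, Real.norm_of_nonneg hM0.le]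
    have hMC : C1 ≤ M * C1 := by nlinarith
    refine ⟨fun z => M * ε z, ⟨sm_test hs (by linarith) hk, contDiffOn_const.mul a1,
      fun z => mul_nonneg hM0.le (a2 z), fun z hz => mul_pos hM0 (a3 z hz), ?_, ?_, ?_, ?_, ?_, ?_⟩,
      ?_⟩
    · intro z hz
      have hy : 0 < z.im := hz
      calc ‖dzb (Sm s k) z‖ ≤ C2 / z.im ^ 2 * ∫ ζ in closedBall z (s * z.im), ‖dzb k ζ‖ :=
            (h2 k hku z hz).1
        _ = C2 / z.im * (1 / z.im * ∫ ζ in closedBall z (s * z.im), ‖dzb k ζ‖) := by
            field_simp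
        _ ≤ M / z.im * ε z := by
            have := a7 z hz
            have h3 := a2 z
            gcongr
        _ = M * ε z / z.im := by ring
    · intro z hz
      have hy : 0 < z.im := hz
      calc ‖dz (dzb (Sm s k)) z‖ ≤ C2 / z.im ^ 3 * ∫ ζ in closedBall z (s * z.im), ‖dzb k ζ‖ :=
            (h2 k hku z hz).2
        _ = C2 / z.im ^ 2 * (1 / z.im * ∫ ζ in closedBall z (s * z.im), ‖dzb k ζ‖) := by
            field_simp
        _ ≤ M / z.im ^ 2 * ε z := by
            have := a7 z hz
            have h3 := a2 z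
            gcongr
        _ = M * ε z / z.im ^ 2 := by ring
    · intro z hz
      have hy : 0 < z.im := hz
      have h3 := a2 z
      rw [hcast, hd.1]
      simp only [norm_mul, hnM]
      calc M * ‖dz (fun w => (ε w : ℂ)) z‖ ≤ M * (C1 * ε z / z.im) := by
            gcongr
            exact (a4 z hz).1
        _ = C1 * (M * ε z) / z.im := by ring
        _ ≤ M * C1 * (M * ε z) / z.im := by gcongr
    · intro z hz
      have hy : 0 < z.im := hz
      have h3 := a2 z
      rw [hcast, hd.2, (dz_const (M : ℂ) (dzb fun w => (ε w : ℂ))).1]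
      simp only [norm_mul, hnM]
      calc M * ‖dz (dzb fun w => (ε w : ℂ)) z‖ ≤ M * (C1 * ε z / z.im ^ 2) := by
            gcongr
            exact (a4 z hz).2
        _ = C1 * (M * ε z) / z.im ^ 2 := by ring
        _ ≤ M * C1 * (M * ε z) / z.im ^ 2 := by gcongr
    · have e : (fun z : ℂ => M * ε z / z.im) = fun z => M * (ε z / z.im) := by
        funext z
        ring
      rw [e]
      exact a5.const_mul M
    · have e : (fun z : ℂ => M * ε z / z.im) = fun z => M * (ε z / z.im) := by
        funext z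
        ring
      rw [e, integral_const_mul, mul_assoc]
      exact mul_le_mul_of_nonneg_left a6 hM0.le
    · intro a ha z hz
      obtain ⟨b1, b2⟩ := a8 a ha z hz
      have h3 := a2 z
      have h4 := a2 a
      constructor
      · calc M * ε z ≤ M * (C1 * ε a) := by gcongr
          _ = C1 * (M * ε a) := by ring
          _ ≤ M * C1 * (M * ε a) := by gcongr
      · calc M * ε a ≤ M * (C1 * ε z) := by gcongr
          _ = C1 * (M * ε z) := by ring
          _ ≤ M * C1 * (M * ε z) := by gcongr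

end Pool.Agent.Work.MP_2cf110_an.Hyp

end
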