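import Pool.Agent.Work.MP_2cf110_an.Hyp.Defs

/-! # The potential of a ball

If dist z a ≤ 2 ρ the closed ball is in the ball of centre z and radius 3 ρ (integrate 1/‖w‖ in polar
coordinates: Complex.integral... or integrableOn_fun_norm_addHaar and its integral version
integral_fun_norm_addHaar), otherwise 1/‖z-ζ‖ ≤ 1/ρ and the area is π ρ². -/

open MeasureTheory Complex Set Metric Filter
open scoped Topology ContDiff ComplexConjugate

noncomputable section

namespace Pool.Agent.Work.MP_2cf110_an.Hyp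

open QC (dz dzb Test Cau)

private theorem pot0_rad {ρ : ℝ} (hρ : 0 < ρ) :
    Integrable (fun w : ℂ => if ‖w‖ < ρ then ‖w‖⁻¹ else 0) ∧
    ∫ w : ℂ, (if ‖w‖ < ρ then ‖w‖⁻¹ else 0) = 2 * Real.pi * ρ := by
  constructor
  · have h1 : IntegrableOn (fun z : ℂ => ‖z‖⁻¹) (Metric.ball 0 ρ) := by
      have := integrableOn_fun_norm_addHaar (E := ℂ) (μ := volume) (f := fun y : ℝ => y⁻¹) (r := ρ)
      rw [this, Complex.finrank_real_complex]
      have h2 : IntegrableOn (fun _ : ℝ => (1 : ℝ)) (Ioo 0 ρ) :=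
        integrableOn_const (by simp)
      refine h2.congr_fun (fun y hy => ?_) measurableSet_Ioo
      have : y ≠ 0 := ne_of_gt hy.1
      simp [this]
    rw [← integrable_indicator_iff measurableSet_ball] at h1
    refine h1.congr (Eventually.of_forall fun w => ?_)
    show (ball (0 : ℂ) ρ).indicator (fun z : ℂ => ‖z‖⁻¹) w = if ‖w‖ < ρ then ‖w‖⁻¹ else 0
    by_cases h : ‖w‖ < ρ
    · rw [indicator_of_mem (mem_ball_zero_iff.2 h), if_pos h]
    · rw [indicator_of_notMem (fun h2 => h (mem_ball_zero_iff.1 h2)), if_neg h]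
  · have h1 := integral_fun_norm_addHaar (E := ℂ) (F := ℝ) (volume : Measure ℂ)
      (fun r => if r < ρ then r⁻¹ else 0)
    rw [Complex.finrank_real_complex] at h1
    have h2 : (volume : Measure ℂ).real (ball 0 1) = Real.pi := by
      rw [Measure.real, Complex.volume_ball]
      simp
    have h3 : ∫ y in Ioi (0 : ℝ), y ^ (2 - 1) • (if y < ρ then y⁻¹ else (0 : ℝ)) = ρ := by
      have e1 : ∫ y in Ioi (0 : ℝ), y ^ (2 - 1) • (if y < ρ then y⁻¹ else (0 : ℝ)) =
          ∫ _y in Ioo (0 : ℝ) ρ, (1 : ℝ) := by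
        rw [← integral_indicator measurableSet_Ioi, ← integral_indicator measurableSet_Ioo]
        refine integral_congr_ae (Eventually.of_forall fun y => ?_)
        by_cases h0 : 0 < y
        · by_cases h : y < ρ
          · rw [indicator_of_mem (show y ∈ Ioi (0 : ℝ) from h0),
              indicator_of_mem (show y ∈ Ioo (0 : ℝ) ρ from ⟨h0, h⟩), if_pos h]
            simp [h0.ne']
          · rw [indicator_of_mem (show y ∈ Ioi (0 : ℝ) from h0),
              indicator_of_notMem (show y ∉ Ioo (0 : ℝ) ρ from fun hh => h hh.2), if_neg h]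
            simp
        · rw [indicator_of_notMem (show y ∉ Ioi (0 : ℝ) from h0),
            indicator_of_notMem (show y ∉ Ioo (0 : ℝ) ρ from fun hh => h0 hh.1)]
      rw [e1, setIntegral_const]
      simp [hρ.le]
    rw [h2, h3] at h1
    rw [h1]
    simp
    ring

theorem pot_ball {a z : ℂ} {ρ : ℝ} (hρ : 0 < ρ) :
    IntegrableOn (fun ζ => 1 / ‖z - ζ‖) (closedBall a ρ) ∧
    ∫ ζ in closedBall a ρ, 1 / ‖z - ζ‖ ≤ 6 * Real.pi * ρ := by
  obtain ⟨r1, r2⟩ := pot0_rad hρ
  set F : ℂ → ℝ := fun w => if ‖w‖ < ρ then ‖w‖⁻¹ else 0 with hF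
  have hF0 : ∀ w, 0 ≤ F w := by
    intro w
    simp only [hF]
    split_ifs
    · positivity
    · exact le_refl _
  have hi1 : Integrable (fun ζ => F (z - ζ)) := r1.comp_sub_left z
  have hi2 : ∫ ζ, F (z - ζ) = 2 * Real.pi * ρ := by
    rw [integral_sub_left_eq_self (fun w => F w) volume z]
    exact r2
  have hvol : (volume : Measure ℂ).real (closedBall a ρ) = Real.pi * ρ ^ 2 := by
    rw [Measure.real, Complex.volume_closedBall, ENNReal.toReal_mul, ENNReal.toReal_pow,
      ENNReal.toReal_ofReal hρ.le]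
    simp [mul_comm]
  have hfin : volume (closedBall a ρ) ≠ ⊤ := measure_closedBall_lt_top.ne
  have hc : IntegrableOn (fun _ : ℂ => 1 / ρ) (closedBall a ρ) := integrableOn_const hfin
  have hg : IntegrableOn (fun ζ => F (z - ζ) + 1 / ρ) (closedBall a ρ) := hi1.integrableOn.add hc
  have hle : ∀ ζ, 1 / ‖z - ζ‖ ≤ F (z - ζ) + 1 / ρ := by
    intro ζ
    by_cases h : ‖z - ζ‖ < ρ
    · simp only [hF, if_pos h]
      rw [one_div]
      have : 0 ≤ 1 / ρ := by positivity
      linarith
    · simp only [hF, if_neg h, zero_add]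
      exact one_div_le_one_div_of_le hρ (not_lt.1 h)
  have hm : Measurable (fun ζ : ℂ => 1 / ‖z - ζ‖) := by fun_prop
  have hf : IntegrableOn (fun ζ => 1 / ‖z - ζ‖) (closedBall a ρ) := by
    refine Integrable.mono' hg hm.aestronglyMeasurable (Eventually.of_forall fun ζ => ?_)
    rw [Real.norm_of_nonneg (by positivity)]
    exact hle ζ
  refine ⟨hf, ?_⟩
  calc ∫ ζ in closedBall a ρ, 1 / ‖z - ζ‖ ≤ ∫ ζ in closedBall a ρ, (F (z - ζ) + 1 / ρ) :=
        setIntegral_mono hf hg hle
    _ = (∫ ζ in closedBall a ρ, F (z - ζ)) + ∫ _ζ in closedBall a ρ, 1 / ρ :=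
        integral_add hi1.integrableOn hc
    _ ≤ 2 * Real.pi * ρ + Real.pi * ρ := by
        apply add_le_add
        · rw [← hi2]
          exact setIntegral_le_integral hi1 (Eventually.of_forall fun ζ => hF0 _)
        · rw [setIntegral_const, hvol, smul_eq_mul]
          apply le_of_eq
          field_simp
    _ ≤ 6 * Real.pi * ρ := by
        have : 0 < Real.pi * ρ := by positivity
        linarith

end Pool.Agent.Work.MP_2cf110_an.Hyp

end
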