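import Pool.Agent.Work.MP_2cf110_an.Hyp.SmA
import Pool.Agent.Work.MP_2cf110_an.Hyp.Pot0

/-! # The error of the smoothing

‖k - Sm s k‖(z) ≤ (1/π) ∫_{‖ζ-z‖ < s Im z} ‖dzb k ζ‖ / ‖z - ζ‖ (sm_formula).  Fubini (lintegral version
for integrability): for fixed ζ, ∫_{z : ‖ζ-z‖ < s Im z} 1/(‖z-ζ‖ Im z) ≤ C since Im z ≥ Im ζ/(1+s) and ‖z-ζ‖ ≤ s Im ζ/(1-s). -/

open MeasureTheory Complex Set Metric Filter
open scoped Topology ContDiff ComplexConjugate

noncomputable section

namespace Pool.Agent.Work.MP_2cf110_an.Hyp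

open QC (dz dzb Test Cau)

/-- the pairs `(z, ζ)` with `‖ζ - z‖ < s Im z` -/
private def smA (s : ℝ) : Set (ℂ × ℂ) := {p | ‖p.2 - p.1‖ < s * p.1.im ∧ 0 < p.1.im}

private theorem smA_meas (s : ℝ) : MeasurableSet (smA s) := by
  have h1 : Continuous fun p : ℂ × ℂ => p.1.im := Complex.continuous_im.comp continuous_fst
  have h2 : Continuous fun p : ℂ × ℂ => ‖p.2 - p.1‖ := (continuous_snd.sub continuous_fst).norm
  exact (measurableSet_lt h2.measurable (h1.measurable.const_mul s)).inter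
    (measurableSet_lt measurable_const h1.measurable)

private def smG (s : ℝ) : ℂ × ℂ → ENNReal := (smA s).indicator fun p =>
  ENNReal.ofReal (1 / ‖p.2 - p.1‖) * ENNReal.ofReal (1 / p.1.im)

private theorem smG_meas (s : ℝ) : Measurable (smG s) :=
  Measurable.indicator (by fun_prop) (smA_meas s)

private theorem smG_int {s : ℝ} (hs : 0 < s) (hs1 : s ≤ 1 / 2) (ζ : ℂ) :
    ∫⁻ z, smG s (z, ζ) ≤ ENNReal.ofReal (9 * Real.pi) := by
  have him : ∀ z : ℂ, (z, ζ) ∈ smA s → z.im / 2 ≤ ζ.im ∧ ζ.im ≤ 3 * z.im / 2 ∧ 0 < z.im ∧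
      ‖ζ - z‖ < s * z.im := by
    rintro z ⟨h1, h2⟩
    have h1' : ‖ζ - z‖ < s * z.im := h1
    have h2' : 0 < z.im := h2
    have h3 := Complex.abs_im_le_norm (ζ - z)
    rw [Complex.sub_im] at h3
    have h4 := abs_le.1 (h3.trans h1'.le)
    have h5 : s * z.im ≤ z.im / 2 := by nlinarith
    exact ⟨by linarith [h4.1], by linarith [h4.2], h2', h1'⟩
  by_cases hζ : 0 < ζ.im
  · have h1 : ∀ z : ℂ, smG s (z, ζ) ≤
        (closedBall ζ ζ.im).indicator (fun z => ENNReal.ofReal (1 / ‖ζ - z‖)) z *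
          ENNReal.ofReal (3 / (2 * ζ.im)) := by
      intro z
      by_cases hz : (z, ζ) ∈ smA s
      · obtain ⟨a1, a2, a3, a4⟩ := him z hz
        have hz2 : z ∈ closedBall ζ ζ.im := by
          rw [mem_closedBall, dist_comm, dist_eq_norm]
          have : s * z.im ≤ z.im / 2 := by nlinarith
          linarith
        unfold smG
        rw [indicator_of_mem hz, indicator_of_mem hz2]
        refine mul_le_mul' le_rfl (ENNReal.ofReal_le_ofReal ?_)
        rw [div_le_div_iff₀ a3 (by linarith)]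
        linarith
      · unfold smG
        rw [indicator_of_notMem hz]
        exact zero_le
    refine (lintegral_mono h1).trans ?_
    rw [lintegral_mul_const' _ _ ENNReal.ofReal_ne_top, lintegral_indicator measurableSet_closedBall]
    obtain ⟨h2, h3⟩ := pot_ball (a := ζ) (z := ζ) hζ
    rw [← ofReal_integral_eq_lintegral_ofReal h2 (Eventually.of_forall fun z => by positivity),
      ← ENNReal.ofReal_mul (integral_nonneg fun z => by positivity)]
    refine ENNReal.ofReal_le_ofReal ?_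
    calc _ ≤ 6 * Real.pi * ζ.im * (3 / (2 * ζ.im)) := by gcongr
      _ = 9 * Real.pi := by
        field_simp
        ring
  · have h1 : ∀ z : ℂ, smG s (z, ζ) = 0 := by
      intro z
      unfold smG
      rw [indicator_of_notMem]
      intro hz
      obtain ⟨a1, a2, a3, a4⟩ := him z hz
      apply hζ
      linarith
    simp [h1]

private theorem sm_pt {s : ℝ} (hs : 0 < s) {k : ℂ → ℂ} (hk : Test univ k) {z : ℂ} (hz : z ∈ Hp) :
    ENNReal.ofReal (‖k z - Sm s k z‖ / z.im) ≤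
      ENNReal.ofReal (1 / Real.pi) * ∫⁻ ζ, ‖dzb k ζ‖ₑ * smG s (z, ζ) := by
  have hz' : 0 < z.im := hz
  obtain ⟨-, mm1, -, mm3⟩ := mm_facts
  rw [div_eq_mul_one_div, ENNReal.ofReal_mul (norm_nonneg _), ofReal_norm,
    sm_formula hs hk hz, enorm_mul, mul_assoc]
  have hpi : ‖(1 / (Real.pi : ℂ))‖ₑ = ENNReal.ofReal (1 / Real.pi) := by
    rw [← ofReal_norm, norm_div, norm_one, Complex.norm_real, Real.norm_eq_abs,
      abs_of_pos Real.pi_pos]
  rw [hpi]
  refine mul_le_mul' le_rfl ?_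
  refine (mul_le_mul' (enorm_integral_le_lintegral_enorm _) le_rfl).trans ?_
  rw [← lintegral_mul_const' _ _ ENNReal.ofReal_ne_top]
  refine lintegral_mono fun ζ => ?_
  show ‖dzb k ζ * (((1 - mm (qq s z ζ) : ℝ) : ℂ) / (z - ζ))‖ₑ * ENNReal.ofReal (1 / z.im) ≤
    ‖dzb k ζ‖ₑ * smG s (z, ζ)
  rw [enorm_mul, mul_assoc]
  refine mul_le_mul' le_rfl ?_
  by_cases h : ‖ζ - z‖ < s * z.im
  · have hA : (z, ζ) ∈ smA s := ⟨h, hz'⟩
    unfold smG
    rw [indicator_of_mem hA]
    refine mul_le_mul' ?_ le_rfl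
    rw [← ofReal_norm]
    refine ENNReal.ofReal_le_ofReal ?_
    rw [norm_div, Complex.norm_real, Real.norm_eq_abs, norm_sub_rev z ζ]
    show _ ≤ 1 / ‖ζ - z‖
    have h1 := mm1 (qq s z ζ)
    have h2 : |1 - mm (qq s z ζ)| ≤ 1 := by
      rw [abs_le]
      constructor <;> linarith [h1.1, h1.2]
    gcongr
  · have h1 : 1 ≤ qq s z ζ := by
      unfold qq
      rw [le_div_iff₀ (by positivity), one_mul]
      have := not_lt.1 h
      gcongr
    rw [mm3 _ h1]
    simp

theorem sm_err {s : ℝ} (hs : 0 < s) (hs1 : s ≤ 1 / 2) : ∃ C : ℝ, 0 < C ∧ ∀ k : ℂ → ℂ, Test Hp k →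
    ∫ z in Hp, ‖k z - Sm s k z‖ / z.im ≤ C * ∫ z, ‖dzb k z‖ := by
  refine ⟨9, by norm_num, fun k hk => ?_⟩
  have hku : Test univ k := ⟨hk.smooth, hk.cpt, subset_univ _⟩
  have hD : Test univ (dzb k) := (QC.Test.dz hku).2
  have hDi : Integrable (dzb k) := hD.smooth.continuous.integrable_of_hasCompactSupport hD.cpt
  have h0 : 0 ≤ 9 * ∫ z, ‖dzb k z‖ :=
    mul_nonneg (by norm_num) (integral_nonneg fun _ => norm_nonneg _)
  have hHp : MeasurableSet Hp := isOpen_Hp.measurableSet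
  by_cases hm : AEStronglyMeasurable (fun z => ‖k z - Sm s k z‖ / z.im) (volume.restrict Hp)
  · rw [integral_eq_lintegral_of_nonneg_ae ?_ hm]
    · refine ENNReal.toReal_le_of_le_ofReal h0 ?_
      calc ∫⁻ z in Hp, ENNReal.ofReal (‖k z - Sm s k z‖ / z.im)
          ≤ ∫⁻ z in Hp, ENNReal.ofReal (1 / Real.pi) * ∫⁻ ζ, ‖dzb k ζ‖ₑ * smG s (z, ζ) :=
            setLIntegral_mono' hHp fun z hz => sm_pt hs hku hz
        _ ≤ ∫⁻ z, ENNReal.ofReal (1 / Real.pi) * ∫⁻ ζ, ‖dzb k ζ‖ₑ * smG s (z, ζ) :=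
            setLIntegral_le_lintegral _ _
        _ = ENNReal.ofReal (1 / Real.pi) * ∫⁻ z, ∫⁻ ζ, ‖dzb k ζ‖ₑ * smG s (z, ζ) :=
            lintegral_const_mul' _ _ ENNReal.ofReal_ne_top
        _ = ENNReal.ofReal (1 / Real.pi) * ∫⁻ ζ, ∫⁻ z, ‖dzb k ζ‖ₑ * smG s (z, ζ) := by
            congr 1
            apply lintegral_lintegral_swap
            refine Measurable.aemeasurable ?_
            have h1 : Measurable fun p : ℂ × ℂ => ‖dzb k p.2‖ₑ :=
              (hD.smooth.continuous.measurable.comp measurable_snd).enorm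
            exact h1.mul (smG_meas s)
        _ = ENNReal.ofReal (1 / Real.pi) * ∫⁻ ζ, ‖dzb k ζ‖ₑ * ∫⁻ z, smG s (z, ζ) := by
            congr 1
            refine lintegral_congr fun ζ => ?_
            exact lintegral_const_mul' _ _ enorm_ne_top
        _ ≤ ENNReal.ofReal (1 / Real.pi) * ∫⁻ ζ, ‖dzb k ζ‖ₑ * ENNReal.ofReal (9 * Real.pi) := by
            gcongr with ζ
            exact smG_int hs hs1 ζ
        _ = ENNReal.ofReal (1 / Real.pi) * ((∫⁻ ζ, ‖dzb k ζ‖ₑ) * ENNReal.ofReal (9 * Real.pi)) := by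
            rw [lintegral_mul_const' _ _ ENNReal.ofReal_ne_top]
        _ = ENNReal.ofReal (9 * ∫ z, ‖dzb k z‖) := by
            rw [← ofReal_integral_norm_eq_lintegral_enorm hDi,
              ← ENNReal.ofReal_mul (integral_nonneg fun _ => norm_nonneg _),
              ← ENNReal.ofReal_mul (by positivity)]
            congr 1
            field_simp
    · refine (ae_restrict_iff' hHp).2 (Eventually.of_forall fun z hz => ?_)
      have hz' : 0 < z.im := hz
      show 0 ≤ ‖k z - Sm s k z‖ / z.im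
      positivity
  · rw [integral_non_aestronglyMeasurable hm]
    exact h0

end Pool.Agent.Work.MP_2cf110_an.Hyp

end
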