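import Pool.Agent.Work.MP_2cf110_an.Hyp.Defs

/-! # Green's formula in the half plane with y and with z - z̄

y = (z - conj z)/(2i), dz y = 1/(2i), dzb y = i/2, so dz (dzb (y ...)): ∫ y ∂∂̄φ = -∫ ∂y ∂̄φ = -(1/(2i)) ∫ ∂̄φ = 0
(QC.integral_mul_dz, QC.integral_dz_eq_zero).  ∫ (z - conj z) ∂X = -∫ X. -/

open MeasureTheory Complex Set Metric Filter
open scoped Topology ContDiff ComplexConjugate

noncomputable section

namespace Pool.Agent.Work.MP_2cf110_an.Hyp

open QC (dz dzb Test Cau)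

private theorem gy_im : HasFDerivAt (fun w : ℂ => ((w.im : ℝ) : ℂ))
    (Complex.ofRealCLM.comp Complex.imCLM) (0 : ℂ) ∧ ∀ z : ℂ,
    HasFDerivAt (fun w : ℂ => ((w.im : ℝ) : ℂ)) (Complex.ofRealCLM.comp Complex.imCLM) z := by
  have h : ∀ z : ℂ, HasFDerivAt (fun w : ℂ => ((w.im : ℝ) : ℂ))
      (Complex.ofRealCLM.comp Complex.imCLM) z := fun z =>
    (Complex.ofRealCLM.comp Complex.imCLM).hasFDerivAt
  exact ⟨h 0, h⟩

private theorem gy_conj (z : ℂ) : HasFDerivAt (fun w : ℂ => w - conj w)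
    (ContinuousLinearMap.id ℝ ℂ - (Complex.conjCLE : ℂ →L[ℝ] ℂ)) z :=
  (ContinuousLinearMap.id ℝ ℂ - (Complex.conjCLE : ℂ →L[ℝ] ℂ)).hasFDerivAt

theorem green_y {φ : ℂ → ℂ} (hφ : Test Hp φ) : ∫ z, ((z.im : ℝ) : ℂ) * dz (dzb φ) z = 0 := by
  have h1 : Test Hp (dzb φ) := hφ.dz.2
  have h2 : ContDiffOn ℝ 1 (fun w : ℂ => ((w.im : ℝ) : ℂ)) univ :=
    ((Complex.ofRealCLM.comp Complex.imCLM).contDiff).contDiffOn
  have h3 := (QC.integral_mul_dz isOpen_univ h2 (h1.smooth.of_le (by simp)) h1.cpt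
    (subset_univ _)).1
  have h4 : ∀ z : ℂ, dz (fun w : ℂ => ((w.im : ℝ) : ℂ)) z = -(I / 2) := by
    intro z
    unfold QC.dz
    rw [(gy_im.2 z).fderiv]
    simp only [ContinuousLinearMap.comp_apply, Complex.ofRealCLM_apply, Complex.imCLM_apply,
      Complex.one_im, Complex.I_im, Complex.ofReal_zero, Complex.ofReal_one]
    ring
  rw [h3]
  simp only [h4]
  rw [integral_const_mul, (QC.integral_dz_eq_zero (hφ.smooth.of_le (by simp)) hφ.cpt).2]
  simp

theorem int_y {X : ℂ → ℂ} (hX : ContDiff ℝ 1 X) (hc : HasCompactSupport X) :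
    ∫ z, X z = - ∫ z, (z - conj z) * dz X z := by
  have h2 : ContDiffOn ℝ 1 (fun w : ℂ => w - conj w) univ :=
    ((ContinuousLinearMap.id ℝ ℂ - (Complex.conjCLE : ℂ →L[ℝ] ℂ)).contDiff).contDiffOn
  have h3 := (QC.integral_mul_dz isOpen_univ h2 hX hc (subset_univ _)).1
  have h4 : ∀ z : ℂ, dz (fun w : ℂ => w - conj w) z = 1 := by
    intro z
    unfold QC.dz
    rw [(gy_conj z).fderiv]
    simp only [sub_apply, ContinuousLinearMap.id_apply, ContinuousLinearEquiv.coe_coe,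
      Complex.conjCLE_apply, map_one, Complex.conj_I]
    linear_combination (-1 : ℂ) * I_sq
  rw [h3]
  simp only [h4, one_mul, neg_neg]

/-- the consequence used for Wolff's estimate -/
theorem int_y_le {X : ℂ → ℂ} (hX : ContDiff ℝ 1 X) (hc : HasCompactSupport X)
    (hs : tsupport X ⊆ Hp) : ‖∫ z, X z‖ ≤ 2 * ∫ z in tsupport X, z.im * ‖dz X z‖ := by
  have hzero : ∀ z, z ∉ tsupport X → dz X z = 0 := by
    intro z hz
    have h1 : fderiv ℝ X z = 0 := by
      by_contra h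
      exact hz (support_fderiv_subset ℝ h)
    unfold QC.dz
    simp [h1]
  rw [int_y hX hc, norm_neg]
  refine (norm_integral_le_integral_norm _).trans ?_
  rw [← setIntegral_eq_integral_of_forall_compl_eq_zero (s := tsupport X)
    (fun z hz => by rw [hzero z hz, mul_zero, norm_zero]), ← integral_const_mul]
  refine le_of_eq ?_
  refine setIntegral_congr_fun (isClosed_tsupport X).measurableSet fun z hz => ?_
  have h1 : 0 < z.im := hs hz
  have h2 : ‖z - conj z‖ = 2 * z.im := by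
    rw [Complex.sub_conj, norm_mul, Complex.norm_I, mul_one, Complex.norm_real,
      Real.norm_of_nonneg (by linarith)]
  rw [norm_mul, h2]
  ring

end Pool.Agent.Work.MP_2cf110_an.Hyp

end
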