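import Pool.Agent.Work.MP_2cf110_an.Hyp.W0a
import Pool.Agent.Work.MP_2cf110_an.Hyp.GreenY

/-! # The basic estimate (W0)

0 = ∫ y ∂∂̄P (green_y, PP_test) and PP_low: ∫ y |∂κ|²/(8Φ) ≤ (2+2C) ∫_Hp ε/y; ∂∂̄P is real and ≥ -(2+2C) ε/y², so
∫ y |∂∂̄P| = ∫ y ∂∂̄P + 2 ∫ y (∂∂̄P)^- ≤ 2 (2+2C) ∫ ε/y. -/

open MeasureTheory Complex Set Metric Filter
open scoped Topology ContDiff ComplexConjugate

noncomputable section

namespace Pool.Agent.Work.MP_2cf110_an.Hyp

open QC (dz dzb Test Cau)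

private theorem w0_int {f : ℂ → ℂ} (hf : Test Hp f) :
    ∫ z in Hp, z.im * (f z).re = (∫ z, ((z.im : ℝ) : ℂ) * f z).re ∧
    IntegrableOn (fun z => z.im * (f z).re) Hp := by
  have hc : Continuous (fun z : ℂ => ((z.im : ℝ) : ℂ) * f z) :=
    (Complex.continuous_ofReal.comp Complex.continuous_im).mul hf.smooth.continuous
  have hi : Integrable (fun z : ℂ => ((z.im : ℝ) : ℂ) * f z) :=
    hc.integrable_of_hasCompactSupport hf.cpt.mul_left
  have h1 : ∀ z : ℂ, (((z.im : ℝ) : ℂ) * f z).re = z.im * (f z).re := by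
    intro z
    rw [Complex.re_ofReal_mul]
  have hi2 : Integrable (fun z : ℂ => z.im * (f z).re) := by
    have := hi.re
    refine this.congr (Eventually.of_forall fun z => ?_)
    simpa using h1 z
  constructor
  · have h2 : ∫ z in Hp, z.im * (f z).re = ∫ z, z.im * (f z).re := by
      refine setIntegral_eq_integral_of_forall_compl_eq_zero fun z hz => ?_
      have hz' : z ∉ tsupport f := fun hc => hz (hf.sub hc)
      rw [image_eq_zero_of_notMem_tsupport hz', Complex.zero_re, mul_zero]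
    rw [h2]
    have h3 := integral_re hi
    rw [show (∫ z, ((z.im : ℝ) : ℂ) * f z).re = RCLike.re (∫ z, ((z.im : ℝ) : ℂ) * f z) from rfl,
      ← h3]
    exact integral_congr_ae (Eventually.of_forall fun z => (h1 z).symm)
  · exact hi2.integrableOn

theorem w0 {C : ℝ} (hC : 0 ≤ C) : ∃ C' : ℝ, 0 < C' ∧ ∀ (B : ℝ) (κ : ℂ → ℂ) (ε : ℂ → ℝ),
    PotD C B κ ε →
    IntegrableOn (fun z => z.im * (‖dz κ z‖ ^ 2 / Ph κ ε z)) Hp ∧
    ∫ z in Hp, z.im * (‖dz κ z‖ ^ 2 / Ph κ ε z) ≤ C' * B ∧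
    IntegrableOn (fun z => z.im * ‖dz (dzb (PP κ ε)) z‖) Hp ∧
    ∫ z in Hp, z.im * ‖dz (dzb (PP κ ε)) z‖ ≤ C' * B := by
  refine ⟨8 * (2 + 2 * C), by positivity, fun B κ ε h => ?_⟩
  have hP := (PP_test h).1
  have hQ : Test Hp (dz (dzb (PP κ ε))) := hP.dz.2.dz.1
  obtain ⟨e1, e2⟩ := w0_int hQ
  have hg : ∫ z in Hp, z.im * (dz (dzb (PP κ ε)) z).re = 0 := by
    rw [e1, green_y hP, Complex.zero_re]
  have hε := h.int
  have hεB := h.int_le
  have hε0 : 0 ≤ ∫ z in Hp, ε z / z.im :=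
    setIntegral_nonneg isOpen_Hp.measurableSet fun z hz => div_nonneg (h.nonneg z) (le_of_lt hz)
  have hms : MeasurableSet Hp := isOpen_Hp.measurableSet
  -- the first function
  have hPhpos : ∀ z ∈ Hp, 0 < Ph κ ε z := by
    intro z hz
    unfold Ph
    have := h.pos z hz
    positivity
  have hcont1 : ContinuousOn (fun z => z.im * (‖dz κ z‖ ^ 2 / Ph κ ε z)) Hp := by
    refine Complex.continuous_im.continuousOn.mul ?_
    refine ContinuousOn.div ?_ ?_ fun z hz => (hPhpos z hz).ne'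
    · exact ((h.test.dz.1.smooth.continuous.norm).pow 2).continuousOn
    · unfold Ph
      refine ContinuousOn.sqrt ?_
      exact ((h.test.smooth.continuous.norm.pow 2).continuousOn).add (h.smooth.continuousOn.pow 2)
  have hb1 : IntegrableOn (fun z => 8 * (z.im * (dz (dzb (PP κ ε)) z).re
      + (2 + 2 * C) * (ε z / z.im))) Hp := (e2.add (hε.const_mul _)).const_mul 8
  have hb2 : IntegrableOn (fun z => z.im * (dz (dzb (PP κ ε)) z).re
      + 2 * (2 + 2 * C) * (ε z / z.im)) Hp := e2.add (hε.const_mul _)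
  have p1 : ∀ z ∈ Hp, z.im * (‖dz κ z‖ ^ 2 / Ph κ ε z) ≤
      8 * (z.im * (dz (dzb (PP κ ε)) z).re + (2 + 2 * C) * (ε z / z.im)) := by
    intro z hz
    have hz' : 0 < z.im := hz
    have h1 := (PP_low hC h hz).1
    have h2 := mul_le_mul_of_nonneg_left h1 hz'.le
    have h3 : z.im * ((2 + 2 * C) * ε z / z.im ^ 2) = (2 + 2 * C) * (ε z / z.im) := by
      field_simp
    have h4 : z.im * (‖dz κ z‖ ^ 2 / (8 * Ph κ ε z)) = z.im * (‖dz κ z‖ ^ 2 / Ph κ ε z) / 8 := by
      have := (hPhpos z hz).ne'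
      field_simp
    rw [mul_sub, h3, h4] at h2
    linarith
  have p2 : ∀ z ∈ Hp, z.im * ‖dz (dzb (PP κ ε)) z‖ ≤
      z.im * (dz (dzb (PP κ ε)) z).re + 2 * (2 + 2 * C) * (ε z / z.im) := by
    intro z hz
    have hz' : 0 < z.im := hz
    obtain ⟨h1, h0⟩ := PP_low hC h hz
    have hn : ‖dz (dzb (PP κ ε)) z‖ = |(dz (dzb (PP κ ε)) z).re| := by
      have : dz (dzb (PP κ ε)) z = (((dz (dzb (PP κ ε)) z).re : ℝ) : ℂ) :=
        Complex.ext (by simp) (by simp [h0])
      conv_lhs => rw [this]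
      rw [Complex.norm_real, Real.norm_eq_abs]
    have h5 : 0 ≤ ‖dz κ z‖ ^ 2 / (8 * Ph κ ε z) := by
      have := (hPhpos z hz)
      positivity
    have h6 : -((2 + 2 * C) * ε z / z.im ^ 2) ≤ (dz (dzb (PP κ ε)) z).re := by linarith
    have h7 : 0 ≤ (2 + 2 * C) * ε z / z.im ^ 2 := by
      have := h.nonneg z
      positivity
    have h8 : |(dz (dzb (PP κ ε)) z).re| ≤
        (dz (dzb (PP κ ε)) z).re + 2 * ((2 + 2 * C) * ε z / z.im ^ 2) := by
      rw [abs_le]
      constructor <;> linarith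
    rw [hn]
    have h9 := mul_le_mul_of_nonneg_left h8 hz'.le
    have h3 : z.im * (2 * ((2 + 2 * C) * ε z / z.im ^ 2)) = 2 * (2 + 2 * C) * (ε z / z.im) := by
      field_simp
    rw [mul_add, h3] at h9
    exact h9
  have i1 : IntegrableOn (fun z => z.im * (‖dz κ z‖ ^ 2 / Ph κ ε z)) Hp := by
    refine Integrable.mono' hb1 (hcont1.aestronglyMeasurable hms) ?_
    filter_upwards [ae_restrict_mem hms] with z hz
    have h0 : 0 ≤ z.im * (‖dz κ z‖ ^ 2 / Ph κ ε z) := by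
      have := (hPhpos z hz)
      have hz' : 0 < z.im := hz
      positivity
    rw [Real.norm_of_nonneg h0]
    exact p1 z hz
  have i2 : IntegrableOn (fun z => z.im * ‖dz (dzb (PP κ ε)) z‖) Hp := by
    have hc : Continuous (fun z : ℂ => z.im * ‖dz (dzb (PP κ ε)) z‖) :=
      Complex.continuous_im.mul hQ.smooth.continuous.norm
    exact (hc.integrable_of_hasCompactSupport hQ.cpt.norm.mul_left).integrableOn
  refine ⟨i1, ?_, i2, ?_⟩
  · have h1 := setIntegral_mono_on i1 hb1 hms p1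
    rw [integral_const_mul, integral_add e2 (hε.const_mul _), hg, integral_const_mul] at h1
    calc _ ≤ _ := h1
      _ = 8 * (2 + 2 * C) * ∫ z in Hp, ε z / z.im := by ring
      _ ≤ _ := mul_le_mul_of_nonneg_left hεB (by positivity)
  · have h1 := setIntegral_mono_on i2 hb2 hms p2
    rw [integral_add e2 (hε.const_mul _), hg, integral_const_mul, zero_add] at h1
    calc _ ≤ _ := h1
      _ ≤ 8 * (2 + 2 * C) * ∫ z in Hp, ε z / z.im := by
          refine mul_le_mul_of_nonneg_right (by nlinarith) hε0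
      _ ≤ _ := mul_le_mul_of_nonneg_left hεB (by positivity)

end Pool.Agent.Work.MP_2cf110_an.Hyp

end
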