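import Pool.Agent.Work.MP_2cf110_an.Hyp.W1a
import Pool.Agent.Work.MP_2cf110_an.Hyp.W0

/-! # The estimate (W1)

Integrate y times w1a (green_y for the test function N PP).  On tsupport κ (everything vanishes outside): Ph = (Ph - ε) + ε,
|∂F|² ≤ C²/y² for the ε part; |∂P| ≤ (|∂κ| + |∂̄κ|)/2 + 2|∂ε| ≤ |∂κ|/2 + (1/2 + 2C) ε/y; y|∂F||∂κ| ≤ δ y|∂F|²Φ + y|∂κ|²/(4δ Φ);
y|∂F| ε/y ≤ C ε/y; y|∂̄F||∂κ| ≤ y|∂̄F|²Φ + y|∂κ|²/Φ with |∂̄F|² ≤ (C/y)(C T/y); y Φ |F||∂∂̄F| ≤ C² TΦ/y.  All functions are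
continuous on the compact set tsupport κ except T, for which use tint.  Absorb δ ∫ y|∂F|²Φ (finite). -/

open MeasureTheory Complex Set Metric Filter
open scoped Topology ContDiff ComplexConjugate

noncomputable section

namespace Pool.Agent.Work.MP_2cf110_an.Hyp

open QC (dz dzb Test Cau)

private theorem w1_test {n : ℕ} {F : Fin n → ℂ → ℂ} {P : ℂ → ℂ}
    (hF : ∀ j, ContDiffOn ℝ ∞ (F j) Hp) (hP : Test Hp P) :
    Test Hp (fun z => ((nsq F z : ℝ) : ℂ) * P z) ∧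
    tsupport (fun z => ((nsq F z : ℝ) : ℂ) * P z) ⊆ tsupport P := by
  have hsub : tsupport (fun z => ((nsq F z : ℝ) : ℂ) * P z) ⊆ tsupport P :=
    tsupport_mul_subset_right
  have hN : ContDiffOn ℝ ∞ (fun z => ((nsq F z : ℝ) : ℂ)) Hp := by
    apply ContDiff.comp_contDiffOn (g := fun t : ℝ => (t : ℂ)) ofRealCLM.contDiff
    unfold nsq
    apply ContDiffOn.sum
    intro j _
    exact (hF j).norm_sq ℝ
  refine ⟨⟨?_, hP.cpt.mul_left, hsub.trans hP.sub⟩, hsub⟩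
  rw [contDiff_iff_contDiffAt]
  intro z
  by_cases hz : z ∈ Hp
  · exact (hN.contDiffAt (isOpen_Hp.mem_nhds hz)).mul hP.smooth.contDiffAt
  · have hz' : z ∉ tsupport (fun z => ((nsq F z : ℝ) : ℂ) * P z) :=
      fun h => hz (hP.sub (hsub h))
    exact (contDiffAt_const (c := (0 : ℂ))).congr_of_eventuallyEq
      (notMem_tsupport_iff_eventuallyEq.1 hz')

private theorem w1_zero {S : Set ℂ} {φ : ℂ → ℂ} (hφ : Test Hp φ) (hS : tsupport φ ⊆ S) :
    Integrable (fun z => z.im * (dz (dzb φ) z).re) ∧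
    ∫ z in S, z.im * (dz (dzb φ) z).re = 0 := by
  have h2 : Test Hp (dz (dzb φ)) := (QC.Test.dz (QC.Test.dz hφ).2).1
  have hsupp : tsupport (dz (dzb φ)) ⊆ tsupport φ := by
    have a1 : tsupport (dzb φ) ⊆ tsupport φ := by
      have := (QC.Test.dz (U := tsupport φ) ⟨hφ.smooth, hφ.cpt, subset_rfl⟩).2.sub
      exact this
    exact ((QC.Test.dz (U := tsupport φ) ⟨(QC.Test.dz hφ).2.smooth, (QC.Test.dz hφ).2.cpt,
      a1⟩).1).sub
  have hint : Integrable (fun z : ℂ => ((z.im : ℝ) : ℂ) * dz (dzb φ) z) := by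
    apply Continuous.integrable_of_hasCompactSupport
    · exact (continuous_ofReal.comp Complex.continuous_im).mul h2.smooth.continuous
    · exact h2.cpt.mul_left
  have hre : ∀ z : ℂ, z.im * (dz (dzb φ) z).re = (((z.im : ℝ) : ℂ) * dz (dzb φ) z).re := by
    intro z
    rw [Complex.re_ofReal_mul]
  have hint2 : Integrable (fun z => z.im * (dz (dzb φ) z).re) := by
    have := hint.re
    refine this.congr (Filter.Eventually.of_forall fun z => ?_)
    exact (hre z).symm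
  refine ⟨hint2, ?_⟩
  rw [setIntegral_eq_integral_of_forall_compl_eq_zero]
  · have h3 : ∫ z, z.im * (dz (dzb φ) z).re = (∫ z, ((z.im : ℝ) : ℂ) * dz (dzb φ) z).re := by
      simp_rw [hre]
      exact integral_re hint
    rw [h3, green_y hφ]
    simp
  · intro z hz
    have : dz (dzb φ) z = 0 := by
      by_contra hne
      exact hz (hS (hsupp (subset_tsupport _ hne)))
    rw [this]
    simp

private theorem w1_sum {μ : Measure ℂ} {g0 g1 g2 g3 g4 : ℂ → ℝ} (h0 : Integrable g0 μ)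
    (h1 : Integrable g1 μ) (h2 : Integrable g2 μ) (h3 : Integrable g3 μ) (h4 : Integrable g4 μ)
    (a0 a1 a2 a3 a4 : ℝ) :
    ∫ z, (a0 * g0 z + a1 * g1 z + a2 * g2 z + a3 * g3 z + a4 * g4 z) ∂μ =
      a0 * ∫ z, g0 z ∂μ + a1 * ∫ z, g1 z ∂μ + a2 * ∫ z, g2 z ∂μ + a3 * ∫ z, g3 z ∂μ +
      a4 * ∫ z, g4 z ∂μ := by
  have k0 : Integrable (fun z => a0 * g0 z) μ := h0.const_mul _
  have k1 : Integrable (fun z => a1 * g1 z) μ := h1.const_mul _
  have k2 : Integrable (fun z => a2 * g2 z) μ := h2.const_mul _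
  have k3 : Integrable (fun z => a3 * g3 z) μ := h3.const_mul _
  have k4 : Integrable (fun z => a4 * g4 z) μ := h4.const_mul _
  have k01 : Integrable (fun z => a0 * g0 z + a1 * g1 z) μ := k0.add k1
  have k012 : Integrable (fun z => a0 * g0 z + a1 * g1 z + a2 * g2 z) μ := k01.add k2
  have k0123 : Integrable (fun z => a0 * g0 z + a1 * g1 z + a2 * g2 z + a3 * g3 z) μ :=
    k012.add k3
  rw [integral_add k0123 k4, integral_add k012 k3, integral_add k01 k2, integral_add k0 k1,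
    integral_const_mul, integral_const_mul, integral_const_mul, integral_const_mul,
    integral_const_mul]

private theorem w1_scal {y C f A D E K Q Φ p ε T : ℝ} (hy : 0 < y) (hC : 0 ≤ C) (hf0 : 0 ≤ f)
    (hf : f ≤ C) (hA0 : 0 ≤ A) (hA : A ≤ C / y) (hD0 : 0 ≤ D) (hD1 : D ≤ C / y)
    (hD2 : D ≤ C * T / y) (hE0 : 0 ≤ E) (hE : E ≤ C * T / y ^ 2) (hK0 : 0 ≤ K) (hQ0 : 0 ≤ Q)
    (hQ : Q ≤ K / 2 + (1 / 2 + 2 * C) * (ε / y)) (hΦ : 0 < Φ) (hp0 : 0 ≤ p) (hp : p ≤ Φ)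
    (hε : 0 ≤ ε) :
    2 * (y * (f * (A + D) * Q)) + 2 * (y * (p * (f * E))) + y * (ε * A ^ 2) ≤
      (1 / 2) * (y * (A ^ 2 * Φ)) + (C ^ 2 * (y * (K ^ 2 / Φ)) + 5 / 2 * (C ^ 2 * (T * Φ / y)) +
        C ^ 2 * (3 + 8 * C) * (ε / y)) := by
  have hεy : 0 ≤ ε / y := div_nonneg hε hy.le
  have hyA : y * A ≤ C := by
    have := mul_le_mul_of_nonneg_left hA hy.le
    rwa [mul_div_cancel₀ _ hy.ne'] at this
  have hyD : y * D ≤ C := by
    have := mul_le_mul_of_nonneg_left hD1 hy.le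
    rwa [mul_div_cancel₀ _ hy.ne'] at this
  have s1 : 2 * (y * (f * (A + D) * Q)) ≤
      y * (C * (A + D) * (K + (1 + 4 * C) * (ε / y))) := by
    have h1 : f * (A + D) * Q ≤ C * (A + D) * (K / 2 + (1 / 2 + 2 * C) * (ε / y)) := by
      apply mul_le_mul _ hQ hQ0 (by positivity)
      exact mul_le_mul_of_nonneg_right hf (by positivity)
    have h2 := mul_le_mul_of_nonneg_left h1 hy.le
    calc 2 * (y * (f * (A + D) * Q)) ≤
        2 * (y * (C * (A + D) * (K / 2 + (1 / 2 + 2 * C) * (ε / y)))) := by linarith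
      _ = _ := by ring
  have key : ∀ X : ℝ, C * X * K ≤ 1 / 2 * (X ^ 2 * Φ) + 1 / 2 * (C ^ 2 * (K ^ 2 / Φ)) := by
    intro X
    have h1 : 0 ≤ (X * Φ - C * K) ^ 2 / Φ := div_nonneg (sq_nonneg _) hΦ.le
    have h2 : (X * Φ - C * K) ^ 2 / Φ = X ^ 2 * Φ - 2 * (C * X * K) + C ^ 2 * (K ^ 2 / Φ) := by
      field_simp
      ring
    rw [h2] at h1
    linarith
  have s2 := mul_le_mul_of_nonneg_left (key A) hy.le
  have s3 := mul_le_mul_of_nonneg_left (key D) hy.le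
  have s3' : y * (D ^ 2 * Φ) ≤ C ^ 2 * (T * Φ / y) := by
    have h1 : D * D ≤ (C / y) * (C * T / y) := mul_le_mul hD1 hD2 hD0 (by positivity)
    have h2 := mul_le_mul_of_nonneg_left (mul_le_mul_of_nonneg_right h1 hΦ.le) hy.le
    calc y * (D ^ 2 * Φ) = y * (D * D * Φ) := by ring
      _ ≤ y * ((C / y) * (C * T / y) * Φ) := h2
      _ = C ^ 2 * (T * Φ / y) := by field_simp
  have s4 : y * A * (C * ((1 + 4 * C) * (ε / y))) ≤ C * (C * ((1 + 4 * C) * (ε / y))) :=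
    mul_le_mul_of_nonneg_right hyA (by positivity)
  have s5 : y * D * (C * ((1 + 4 * C) * (ε / y))) ≤ C * (C * ((1 + 4 * C) * (ε / y))) :=
    mul_le_mul_of_nonneg_right hyD (by positivity)
  have s6 : y * (p * (f * E)) ≤ C ^ 2 * (T * Φ / y) := by
    have h1 : f * E ≤ C * (C * T / y ^ 2) := mul_le_mul hf hE hE0 hC
    have h2 : p * (f * E) ≤ Φ * (C * (C * T / y ^ 2)) :=
      mul_le_mul hp h1 (by positivity) hΦ.le
    calc y * (p * (f * E)) ≤ y * (Φ * (C * (C * T / y ^ 2))) :=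
          mul_le_mul_of_nonneg_left h2 hy.le
      _ = _ := by field_simp
  have s7 : y * (ε * A ^ 2) ≤ C ^ 2 * (ε / y) := by
    have h1 : A ^ 2 ≤ (C / y) ^ 2 := pow_le_pow_left₀ hA0 hA 2
    calc y * (ε * A ^ 2) ≤ y * (ε * (C / y) ^ 2) :=
          mul_le_mul_of_nonneg_left (mul_le_mul_of_nonneg_left h1 hε) hy.le
      _ = _ := by field_simp
  have e1 : y * (C * (A + D) * (K + (1 + 4 * C) * (ε / y))) =
      y * (C * A * K) + y * (C * D * K) + y * A * (C * ((1 + 4 * C) * (ε / y))) +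
      y * D * (C * ((1 + 4 * C) * (ε / y))) := by ring
  rw [e1] at s1
  nlinarith [s1, s2, s3, s3', s4, s5, s6, s7]

/-- the pointwise inequality -/
private theorem w1_pt {n : ℕ} {C B : ℝ} (hC : 0 ≤ C) {κ : ℂ → ℂ} {ε : ℂ → ℝ} {F : Fin n → ℂ → ℂ}
    {T : ℂ → ℝ} (hp : PotD C B κ ε) (hF : FD C B κ ε F T) {z : ℂ} (hz : z ∈ tsupport κ) :
    ∑ j, z.im * (‖dz (F j) z‖ ^ 2 * Ph κ ε z) ≤
      2 * (z.im * (dz (dzb fun z => ((nsq F z : ℝ) : ℂ) * PP κ ε z) z).re) +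
      2 * (n * C ^ 2) * (z.im * ‖dz (dzb (PP κ ε)) z‖) +
      2 * (n * C ^ 2) * (z.im * (‖dz κ z‖ ^ 2 / Ph κ ε z)) +
      2 * (n * C ^ 2 * (3 + 8 * C)) * (ε z / z.im) +
      5 * (n * C ^ 2) * (T z * Ph κ ε z / z.im) := by
  have hzH : z ∈ Hp := hp.test.sub hz
  have hy : 0 < z.im := hzH
  obtain ⟨hPt, hPs, hP0, hPd⟩ := PP_test hp
  have hPre : (PP κ ε z).re = Ph κ ε z - ε z := by
    unfold PP
    exact Complex.ofReal_re _
  have hΦ : 0 < Ph κ ε z := by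
    unfold Ph
    apply Real.sqrt_pos.2
    have := hp.pos z hzH
    positivity
  have hw := w1a (P := PP κ ε) hF.smooth hPt.smooth.contDiffOn
    (fun z => by unfold PP; exact Complex.ofReal_im _)
    (fun z => by unfold PP; rw [Complex.ofReal_re]; exact hP0 z) hzH
  rw [hPre] at hw
  have hN : nsq F z ≤ n * C ^ 2 := by
    unfold nsq
    calc ∑ j, ‖F j z‖ ^ 2 ≤ ∑ _j : Fin n, C ^ 2 :=
          Finset.sum_le_sum fun j _ => pow_le_pow_left₀ (norm_nonneg _) (hF.le j z hzH) 2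
      _ = _ := by simp
  have hQ : ‖dz (PP κ ε) z‖ ≤ ‖dz κ z‖ / 2 + (1 / 2 + 2 * C) * (ε z / z.im) := by
    refine (hPd z hzH).trans ?_
    have h1 := hp.k1 z hzH
    have h2 := hp.e1 z hzH
    have h3 : C * ε z / z.im = C * (ε z / z.im) := by ring
    rw [h3] at h2
    linarith
  have hj : ∀ j, 2 * (z.im * (‖F j z‖ * (‖dz (F j) z‖ + ‖dzb (F j) z‖) * ‖dz (PP κ ε) z‖)) +
      2 * (z.im * ((Ph κ ε z - ε z) * (‖F j z‖ * ‖dz (dzb (F j)) z‖))) +
      z.im * (ε z * ‖dz (F j) z‖ ^ 2) ≤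
      (1 / 2) * (z.im * (‖dz (F j) z‖ ^ 2 * Ph κ ε z)) +
      (C ^ 2 * (z.im * (‖dz κ z‖ ^ 2 / Ph κ ε z)) + 5 / 2 * (C ^ 2 * (T z * Ph κ ε z / z.im)) +
        C ^ 2 * (3 + 8 * C) * (ε z / z.im)) := fun j =>
    w1_scal hy hC (norm_nonneg _) (hF.le j z hzH) (norm_nonneg _) (hF.d1 j z hzH)
      (norm_nonneg _) (hF.d2 j z hzH) (hF.t1 j z hz) (norm_nonneg _) (hF.t2 j z hz)
      (norm_nonneg _) (norm_nonneg _) hQ hΦ (hP0 z) (by linarith [hp.nonneg z]) (hp.nonneg z)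
  have hsum := Finset.sum_le_sum (s := Finset.univ) fun j _ => hj j
  rw [Finset.sum_add_distrib, Finset.sum_add_distrib, Finset.sum_add_distrib,
    Finset.sum_const, Finset.card_univ, Fintype.card_fin, nsmul_eq_mul,
    ← Finset.mul_sum, ← Finset.mul_sum, ← Finset.mul_sum, ← Finset.mul_sum, ← Finset.mul_sum,
    ← Finset.mul_sum, ← Finset.sum_mul, ← Finset.mul_sum, ← Finset.mul_sum, ← Finset.mul_sum,
    ← Finset.sum_mul] at hsum
  rw [← Finset.mul_sum, ← Finset.sum_mul]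
  have hw' := mul_le_mul_of_nonneg_left hw hy.le
  have hNW : z.im * (nsq F z * ‖dz (dzb (PP κ ε)) z‖) ≤
      z.im * (n * C ^ 2 * ‖dz (dzb (PP κ ε)) z‖) :=
    mul_le_mul_of_nonneg_left (mul_le_mul_of_nonneg_right hN (norm_nonneg _)) hy.le
  generalize (dz (dzb fun z => ((nsq F z : ℝ) : ℂ) * PP κ ε z) z).re = R at *
  generalize (∑ j, ‖dz (F j) z‖ ^ 2) = SA at *
  generalize (∑ j, ‖F j z‖ * (‖dz (F j) z‖ + ‖dzb (F j) z‖)) = SB at *
  generalize (∑ j, ‖F j z‖ * ‖dz (dzb (F j)) z‖) = SC at *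
  nlinarith [hsum, hw', hNW]

theorem w1 (n : ℕ) {C : ℝ} (hC : 0 ≤ C) : ∃ C' : ℝ, 0 < C' ∧
    ∀ (B : ℝ) (κ : ℂ → ℂ) (ε : ℂ → ℝ) (F : Fin n → ℂ → ℂ) (T : ℂ → ℝ),
    PotD C B κ ε → FD C B κ ε F T → ∀ j,
    ∫ z in tsupport κ, z.im * (‖dz (F j) z‖ ^ 2 * Ph κ ε z) ≤ C' * B := by
  obtain ⟨C₀, hC₀, hw⟩ := w0 hC
  refine ⟨n * C ^ 2 * (4 * C₀ + 11 + 16 * C) + 1, by positivity, ?_⟩
  intro B κ ε F T hp hF j
  obtain ⟨i1, e1, i2, e2⟩ := hw B κ ε hp
  have hSub : tsupport κ ⊆ Hp := hp.test.sub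
  have hSm : MeasurableSet (tsupport κ) := (isClosed_tsupport κ).measurableSet
  have hHm : MeasurableSet Hp := isOpen_Hp.measurableSet
  have hB : 0 ≤ B := by
    refine le_trans (setIntegral_nonneg hHm ?_) hp.int_le
    intro z hz
    exact div_nonneg (hp.nonneg z) (le_of_lt hz)
  obtain ⟨hPt, hPs, hP0, hPd⟩ := PP_test hp
  obtain ⟨hφ, hφs⟩ := w1_test hF.smooth hPt
  obtain ⟨hi, hz0⟩ := w1_zero hφ (hφs.trans hPs)
  have hΦ0 : ∀ z, 0 ≤ Ph κ ε z := fun z => Real.sqrt_nonneg _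
  -- integrals over S
  have j1 : ∫ z in tsupport κ, z.im * (‖dz κ z‖ ^ 2 / Ph κ ε z) ≤ C₀ * B := by
    refine le_trans (setIntegral_mono_set i1 ?_ (Filter.Eventually.of_forall hSub)) e1
    rw [Filter.EventuallyLE, ae_restrict_iff' hHm]
    refine Filter.Eventually.of_forall fun z hz => ?_
    exact mul_nonneg (le_of_lt hz) (div_nonneg (sq_nonneg _) (hΦ0 z))
  have j2 : ∫ z in tsupport κ, z.im * ‖dz (dzb (PP κ ε)) z‖ ≤ C₀ * B := by
    refine le_trans (setIntegral_mono_set i2 ?_ (Filter.Eventually.of_forall hSub)) e2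
    rw [Filter.EventuallyLE, ae_restrict_iff' hHm]
    refine Filter.Eventually.of_forall fun z hz => ?_
    exact mul_nonneg (le_of_lt hz) (norm_nonneg _)
  have j3 : ∫ z in tsupport κ, ε z / z.im ≤ B := by
    refine le_trans (setIntegral_mono_set hp.int ?_ (Filter.Eventually.of_forall hSub)) hp.int_le
    rw [Filter.EventuallyLE, ae_restrict_iff' hHm]
    refine Filter.Eventually.of_forall fun z hz => ?_
    exact div_nonneg (hp.nonneg z) (le_of_lt hz)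
  have k0 := hi.integrableOn (s := tsupport κ)
  have k1 := i1.mono_set hSub
  have k2 := i2.mono_set hSub
  have k3 := hp.int.mono_set hSub
  have k4 := hF.tint
  have hmain : ∫ z in tsupport κ, z.im * (‖dz (F j) z‖ ^ 2 * Ph κ ε z) ≤
      ∫ z in tsupport κ,
      (2 * (z.im * (dz (dzb fun z => ((nsq F z : ℝ) : ℂ) * PP κ ε z) z).re) +
      2 * (n * C ^ 2) * (z.im * ‖dz (dzb (PP κ ε)) z‖) +
      2 * (n * C ^ 2) * (z.im * (‖dz κ z‖ ^ 2 / Ph κ ε z)) +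
      2 * (n * C ^ 2 * (3 + 8 * C)) * (ε z / z.im) +
      5 * (n * C ^ 2) * (T z * Ph κ ε z / z.im)) := by
    apply integral_mono_of_nonneg
    · rw [Filter.EventuallyLE, ae_restrict_iff' hSm]
      refine Filter.Eventually.of_forall fun z hz => ?_
      exact mul_nonneg (le_of_lt (hSub hz)) (mul_nonneg (sq_nonneg _) (hΦ0 z))
    · exact ((((k0.const_mul _).add (k2.const_mul _)).add (k1.const_mul _)).add
        (k3.const_mul _)).add (k4.const_mul _)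
    · rw [Filter.EventuallyLE, ae_restrict_iff' hSm]
      refine Filter.Eventually.of_forall fun z hz => ?_
      refine le_trans ?_ (w1_pt hC hp hF hz)
      exact Finset.single_le_sum (f := fun j => z.im * (‖dz (F j) z‖ ^ 2 * Ph κ ε z))
        (fun i _ => mul_nonneg (le_of_lt (hSub hz)) (mul_nonneg (sq_nonneg _) (hΦ0 z)))
        (Finset.mem_univ j)
  refine hmain.trans ?_
  rw [w1_sum (μ := volume.restrict (tsupport κ)) k0 k2 k1 k3 k4 2 (2 * (n * C ^ 2))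
    (2 * (n * C ^ 2)) (2 * (n * C ^ 2 * (3 + 8 * C))) (5 * (n * C ^ 2)), hz0]
  have hnC : 0 ≤ (n : ℝ) * C ^ 2 := by positivity
  have m1 := mul_le_mul_of_nonneg_left j1 hnC
  have m2 := mul_le_mul_of_nonneg_left j2 hnC
  have m3 := mul_le_mul_of_nonneg_left j3 (mul_nonneg hnC (by linarith : 0 ≤ 3 + 8 * C))
  have m4 := mul_le_mul_of_nonneg_left hF.tle hnC
  nlinarith [m1, m2, m3, m4, hB]

end Pool.Agent.Work.MP_2cf110_an.Hyp

end
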