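import Pool.Agent.Work.MP_2cf110_an.Hyp.Wo1
import Pool.Agent.Work.MP_2cf110_an.Hyp.W1
import Pool.Agent.Work.MP_2cf110_an.Hyp.GreenY

/-! # Wolff's estimate

omM c F p l κ = XX p l - XX l p; int_y_le, wo1, w1, w0 (continuity on the compact set tsupport κ for integrability). -/

open MeasureTheory Complex Set Metric Filter
open scoped Topology ContDiff ComplexConjugate

noncomputable section

namespace Pool.Agent.Work.MP_2cf110_an.Hyp

open QC (dz dzb Test Cau)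

private theorem cdo_dz {f : ℂ → ℂ} (h : ContDiffOn ℝ ∞ f Hp) : ContinuousOn (dz f) Hp := by
  have h1 : ContDiffOn ℝ ∞ (fderiv ℝ f) Hp := h.fderiv_of_isOpen isOpen_Hp (by simp)
  have h2 : ∀ v : ℂ, ContDiffOn ℝ ∞ (fun z => fderiv ℝ f z v) Hp :=
    fun v => h1.clm_apply contDiffOn_const
  exact (((h2 1).sub (contDiffOn_const.mul (h2 I))).div_const 2).continuousOn

private theorem wo_int {n : ℕ} {C B : ℝ} {κ : ℂ → ℂ} {ε : ℂ → ℝ} {F : Fin n → ℂ → ℂ}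
    {T : ℂ → ℝ} (hp : PotD C B κ ε) (hF : FD C B κ ε F T) (j : Fin n) :
    IntegrableOn (fun z => z.im * (‖dz (F j) z‖ ^ 2 * Ph κ ε z)) (tsupport κ) := by
  have hSub : tsupport κ ⊆ Hp := hp.test.sub
  apply ContinuousOn.integrableOn_compact hp.test.cpt
  have h1 : ContinuousOn (dz (F j)) (tsupport κ) := (cdo_dz (hF.smooth j)).mono hSub
  have h2 : ContinuousOn (fun z => Ph κ ε z) (tsupport κ) := by
    unfold Ph
    have e1 : ContinuousOn ε (tsupport κ) := hp.smooth.continuousOn.mono hSub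
    have e2 : ContinuousOn κ (tsupport κ) := hp.test.smooth.continuous.continuousOn
    exact ((e2.norm.pow 2).add (e1.pow 2)).sqrt
  exact Complex.continuous_im.continuousOn.mul ((h1.norm.pow 2).mul h2)

private theorem wo_one (n : ℕ) {C c : ℝ} (hC : 0 < C) (hc : 0 < c) : ∃ C' : ℝ, 0 < C' ∧
    ∀ (B : ℝ) (κ : ℂ → ℂ) (ε : ℂ → ℝ) (F : Fin n → ℂ → ℂ) (T : ℂ → ℝ),
    PotD C B κ ε → FD C B κ ε F T → ∀ p l,
    Test Hp (XX c F κ p l) ∧ ‖∫ z, XX c F κ p l z‖ ≤ C' * B := by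
  obtain ⟨C₀, hC₀, hw0⟩ := w0 hC.le
  obtain ⟨C₁, hC₁, hw1⟩ := w1 n hC.le
  obtain ⟨C₂, hC₂, hwo⟩ := wo1 n hC hc
  refine ⟨2 * (C₂ * (n * C₁ + C₀ + 1)), by positivity, ?_⟩
  intro B κ ε F T hp hF p l
  obtain ⟨i1, e1, -, -⟩ := hw0 B κ ε hp
  obtain ⟨hX, hXs, hXb⟩ := hwo B κ ε F T hp hF p l
  refine ⟨hX, ?_⟩
  have hSub : tsupport κ ⊆ Hp := hp.test.sub
  have hSm : MeasurableSet (tsupport κ) := (isClosed_tsupport κ).measurableSet
  have hHm : MeasurableSet Hp := isOpen_Hp.measurableSet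
  have hΦ0 : ∀ z, 0 ≤ Ph κ ε z := fun z => Real.sqrt_nonneg _
  have j1 : ∫ z in tsupport κ, z.im * (‖dz κ z‖ ^ 2 / Ph κ ε z) ≤ C₀ * B := by
    refine le_trans (setIntegral_mono_set i1 ?_ (Filter.Eventually.of_forall hSub)) e1
    rw [Filter.EventuallyLE, ae_restrict_iff' hHm]
    refine Filter.Eventually.of_forall fun z hz => ?_
    exact mul_nonneg (le_of_lt hz) (div_nonneg (sq_nonneg _) (hΦ0 z))
  have k1 := i1.mono_set hSub
  have k4 := hF.tint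
  have kj : ∀ j, IntegrableOn (fun z => z.im * (‖dz (F j) z‖ ^ 2 * Ph κ ε z)) (tsupport κ) :=
    fun j => wo_int hp hF j
  have ks : IntegrableOn (fun z => ∑ j, z.im * (‖dz (F j) z‖ ^ 2 * Ph κ ε z)) (tsupport κ) :=
    integrable_finset_sum _ fun j _ => kj j
  have hX1 : ContDiff ℝ 1 (XX c F κ p l) := hX.smooth.of_le (by simp)
  have a1 := int_y_le hX1 hX.cpt hX.sub
  have hcont : Continuous (fun z : ℂ => z.im * ‖dz (XX c F κ p l) z‖) :=
    Complex.continuous_im.mul (QC.Test.dz hX).1.smooth.continuous.norm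
  have kX : IntegrableOn (fun z : ℂ => z.im * ‖dz (XX c F κ p l) z‖) (tsupport κ) :=
    hcont.continuousOn.integrableOn_compact hp.test.cpt
  have a2 : ∫ z in tsupport (XX c F κ p l), z.im * ‖dz (XX c F κ p l) z‖ ≤
      ∫ z in tsupport κ, z.im * ‖dz (XX c F κ p l) z‖ := by
    refine setIntegral_mono_set kX ?_ (Filter.Eventually.of_forall hXs)
    rw [Filter.EventuallyLE, ae_restrict_iff' hSm]
    refine Filter.Eventually.of_forall fun z hz => ?_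
    exact mul_nonneg (le_of_lt (hSub hz)) (norm_nonneg _)
  have a3 : ∫ z in tsupport κ, z.im * ‖dz (XX c F κ p l) z‖ ≤
      ∫ z in tsupport κ, C₂ * ((∑ j, z.im * (‖dz (F j) z‖ ^ 2 * Ph κ ε z)) +
        z.im * (‖dz κ z‖ ^ 2 / Ph κ ε z) + T z * Ph κ ε z / z.im) := by
    refine setIntegral_mono_on kX (((ks.add k1).add k4).const_mul _) hSm ?_
    intro z hz
    exact hXb z hz
  have a4 : ∫ z in tsupport κ, C₂ * ((∑ j, z.im * (‖dz (F j) z‖ ^ 2 * Ph κ ε z)) +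
        z.im * (‖dz κ z‖ ^ 2 / Ph κ ε z) + T z * Ph κ ε z / z.im) =
      C₂ * ((∑ j, ∫ z in tsupport κ, z.im * (‖dz (F j) z‖ ^ 2 * Ph κ ε z)) +
        (∫ z in tsupport κ, z.im * (‖dz κ z‖ ^ 2 / Ph κ ε z)) +
        ∫ z in tsupport κ, T z * Ph κ ε z / z.im) := by
    rw [integral_const_mul]
    congr 1
    have b1 : ∫ z in tsupport κ, ((∑ j, z.im * (‖dz (F j) z‖ ^ 2 * Ph κ ε z)) +
        z.im * (‖dz κ z‖ ^ 2 / Ph κ ε z) + T z * Ph κ ε z / z.im) =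
        (∫ z in tsupport κ, ((∑ j, z.im * (‖dz (F j) z‖ ^ 2 * Ph κ ε z)) +
        z.im * (‖dz κ z‖ ^ 2 / Ph κ ε z))) + ∫ z in tsupport κ, T z * Ph κ ε z / z.im :=
      integral_add (ks.add k1) k4
    rw [b1, integral_add ks k1, integral_finset_sum _ fun j _ => kj j]
  have a5 : ∑ j, ∫ z in tsupport κ, z.im * (‖dz (F j) z‖ ^ 2 * Ph κ ε z) ≤ n * (C₁ * B) := by
    calc ∑ j, ∫ z in tsupport κ, z.im * (‖dz (F j) z‖ ^ 2 * Ph κ ε z)
        ≤ ∑ _j : Fin n, C₁ * B := Finset.sum_le_sum fun j _ => hw1 B κ ε F T hp hF j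
      _ = n * (C₁ * B) := by simp
  have a6 := hF.tle
  calc ‖∫ z, XX c F κ p l z‖ ≤ 2 * ∫ z in tsupport (XX c F κ p l), z.im * ‖dz (XX c F κ p l) z‖ := a1
    _ ≤ 2 * (C₂ * ((∑ j, ∫ z in tsupport κ, z.im * (‖dz (F j) z‖ ^ 2 * Ph κ ε z)) +
        (∫ z in tsupport κ, z.im * (‖dz κ z‖ ^ 2 / Ph κ ε z)) +
        ∫ z in tsupport κ, T z * Ph κ ε z / z.im)) := by
      rw [← a4]
      linarith [a2.trans a3]
    _ ≤ 2 * (C₂ * (n * (C₁ * B) + C₀ * B + B)) := by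
      have := mul_le_mul_of_nonneg_left (add_le_add (add_le_add a5 j1) a6) hC₂.le
      linarith
    _ = 2 * (C₂ * (n * C₁ + C₀ + 1)) * B := by ring

theorem wolff (n : ℕ) {C c : ℝ} (hC : 0 < C) (hc : 0 < c) : ∃ C' : ℝ, 0 < C' ∧
    ∀ (B : ℝ) (κ : ℂ → ℂ) (ε : ℂ → ℝ) (F : Fin n → ℂ → ℂ) (T : ℂ → ℝ),
    PotD C B κ ε → FD C B κ ε F T → ∀ p l,
    ‖∫ z, omM c F p l z * κ z‖ ≤ C' * B := by
  obtain ⟨C', hC', h⟩ := wo_one n hC hc
  refine ⟨2 * C', by positivity, ?_⟩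
  intro B κ ε F T hp hF p l
  obtain ⟨t1, b1⟩ := h B κ ε F T hp hF p l
  obtain ⟨t2, b2⟩ := h B κ ε F T hp hF l p
  have e : (fun z => omM c F p l z * κ z) = fun z => XX c F κ p l z - XX c F κ l p z := by
    funext z
    unfold omM XX
    ring
  have i1 : Integrable (XX c F κ p l) := t1.smooth.continuous.integrable_of_hasCompactSupport t1.cpt
  have i2 : Integrable (XX c F κ l p) := t2.smooth.continuous.integrable_of_hasCompactSupport t2.cpt
  rw [e, integral_sub i1 i2]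
  calc ‖(∫ z, XX c F κ p l z) - ∫ z, XX c F κ l p z‖
      ≤ ‖∫ z, XX c F κ p l z‖ + ‖∫ z, XX c F κ l p z‖ := norm_sub_le _ _
    _ ≤ C' * B + C' * B := add_le_add b1 b2
    _ = 2 * C' * B := by ring

end Pool.Agent.Work.MP_2cf110_an.Hyp

end
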