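import Pool.Agent.Work.MP_2cf110_an.Hyp.E
import Pool.Agent.Work.MP_2cf110_an.Hyp.PotE
import Pool.Agent.Work.MP_2cf110_an.Hyp.FDE
import Pool.Agent.Work.MP_2cf110_an.Hyp.Wo
import Pool.Agent.Work.MP_2cf110_an.Hyp.GhF
import Pool.Agent.Work.MP_2cf110_an.Hyp.SmD

/-! # The estimate ∫ ω k

k in Test V, κ = Sm s k.  ∫_V ω k = ∫_V ω (k - κ) + (∫_V ω κ - ∫ omM κ) + ∫ omM κ.  First: |ω| ≤ C/y (gh_facts) and sm_err.  Second: κ = Σ χ i κ,
mainE with w = χ i κ, W = S i, and sumL.  Third: wolff with FD from fdE (constants: PotD and FD with the same C and B: enlarge). -/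

open MeasureTheory Complex Set Metric Filter
open scoped Topology ContDiff ComplexConjugate

noncomputable section

namespace Pool.Agent.Work.MP_2cf110_an.Hyp

open QC (dz dzb Test Cau)

private theorem asm_im {φ : ℂ → ℂ} (hc : HasCompactSupport φ) (hs : tsupport φ ⊆ Hp) :
    ∃ y : ℝ, 0 < y ∧ ∀ z ∈ Hp, ‖φ z‖ / z.im ≤ ‖φ z‖ / y := by
  rcases (tsupport φ).eq_empty_or_nonempty with he | hne
  · refine ⟨1, one_pos, fun z _ => ?_⟩
    have h1 : φ z = 0 := by
      by_contra h
      have := subset_tsupport φ h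
      rw [he] at this
      exact this
    rw [h1]
    simp
  · obtain ⟨z₀, h1, h2⟩ := hc.isCompact.exists_isMinOn hne Complex.continuous_im.continuousOn
    refine ⟨z₀.im, hs h1, fun z hz => ?_⟩
    by_cases h : φ z = 0
    · rw [h]; simp
    · have h3 : z₀.im ≤ z.im := h2 (subset_tsupport φ h)
      have h4 : 0 < z₀.im := hs h1
      exact div_le_div_of_nonneg_left (norm_nonneg _) h4 h3

private theorem asm_cont {f g : ℂ → ℂ} (hf : ContinuousOn f Hp)
    (hg : Continuous g) (hs : tsupport g ⊆ Hp) : Continuous (fun z => f z * g z) := by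
  rw [continuous_iff_continuousAt]
  intro z
  by_cases hz : z ∈ tsupport g
  · exact (hf.continuousAt (isOpen_Hp.mem_nhds (hs hz))).mul hg.continuousAt
  · have h1 : (fun z => f z * g z) =ᶠ[𝓝 z] fun _ => 0 := by
      filter_upwards [notMem_tsupport_iff_eventuallyEq.1 hz] with w hw
      rw [hw]
      simp
    exact (continuousAt_const).congr h1.symm

private theorem asm_int {f g : ℂ → ℂ} (hf : ContinuousOn f Hp)
    (hg : Continuous g) (hc : HasCompactSupport g) (hs : tsupport g ⊆ Hp) :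
    Integrable (fun z => f z * g z) :=
  (asm_cont hf hg hs).integrable_of_hasCompactSupport hc.mul_left

private theorem asm_int_V {V : Set ℂ} (hV : IsOpen V) (hVH : V ⊆ Hp) {w φ : ℂ → ℂ} {C : ℝ}
    (hC : 0 ≤ C) (hw : ContinuousOn w V) (hwle : ∀ z ∈ V, ‖w z‖ ≤ C / z.im) (hg : Continuous φ)
    (hc : HasCompactSupport φ) (hs : tsupport φ ⊆ Hp) : IntegrableOn (fun z => w z * φ z) V := by
  obtain ⟨y, hy, hyle⟩ := asm_im hc hs
  have hi : Integrable (fun z => C * (‖φ z‖ / y)) (volume.restrict V) :=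
    (((hg.integrable_of_hasCompactSupport hc).norm.div_const y).const_mul C).restrict
  refine hi.mono' ((hw.aestronglyMeasurable hV.measurableSet).mul
    hg.aestronglyMeasurable.restrict) ?_
  refine (ae_restrict_iff' hV.measurableSet).2 (Filter.Eventually.of_forall fun z hz => ?_)
  have hzi : 0 < z.im := hVH hz
  calc ‖w z * φ z‖ = ‖w z‖ * ‖φ z‖ := norm_mul _ _
    _ ≤ C / z.im * ‖φ z‖ := mul_le_mul_of_nonneg_right (hwle z hz) (norm_nonneg _)
    _ = C * (‖φ z‖ / z.im) := by ring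
    _ ≤ C * (‖φ z‖ / y) := mul_le_mul_of_nonneg_left (hyle z (hVH hz)) hC

private theorem asm_dz_cont {V : Set ℂ} (hV : IsOpen V) {f : ℂ → ℂ} (hf : ContDiffOn ℝ ∞ f V) :
    ContinuousOn (dz f) V ∧ ContinuousOn (dzb f) V := by
  have h1 : ContinuousOn (fderiv ℝ f) V := hf.continuousOn_fderiv_of_isOpen hV (by simp)
  have h2 : ∀ v : ℂ, ContinuousOn (fun z => fderiv ℝ f z v) V := fun v =>
    h1.clm_apply continuousOn_const
  constructor
  · exact ((h2 1).sub (continuousOn_const.mul (h2 I))).div_const 2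
  · exact ((h2 1).add (continuousOn_const.mul (h2 I))).div_const 2

private theorem asm_potD_mono {C C' B B' : ℝ} {κ : ℂ → ℂ} {ε : ℂ → ℝ} (h : PotD C B κ ε)
    (hC : C ≤ C') (hB : B ≤ B') : PotD C' B' κ ε where
  test := h.test
  smooth := h.smooth
  nonneg := h.nonneg
  pos := h.pos
  k1 := h.k1
  k2 := h.k2
  e1 := fun z hz => (h.e1 z hz).trans (by
    have h1 : 0 < z.im := hz
    have h2 := h.nonneg z
    gcongr)
  e2 := fun z hz => (h.e2 z hz).trans (by
    have h1 : 0 < z.im := hz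
    have h2 := h.nonneg z
    gcongr)
  int := h.int
  int_le := h.int_le.trans hB

private theorem asm_fd_mono {n : ℕ} {C C' B B' : ℝ} {κ : ℂ → ℂ} {ε : ℂ → ℝ}
    {F : Fin n → ℂ → ℂ} {T : ℂ → ℝ} (hκ : tsupport κ ⊆ Hp) (h : FD C B κ ε F T)
    (hC : C ≤ C') (hB : B ≤ B') : FD C' B' κ ε F T where
  smooth := h.smooth
  le := fun j z hz => (h.le j z hz).trans hC
  d1 := fun j z hz => (h.d1 j z hz).trans (by
    have h1 : 0 < z.im := hz
    gcongr)
  d2 := fun j z hz => (h.d2 j z hz).trans (by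
    have h1 : 0 < z.im := hz
    gcongr)
  t0 := h.t0
  t1 := fun j z hz => (h.t1 j z hz).trans (by
    have h1 : 0 < z.im := hκ hz
    have h2 := h.t0 z
    gcongr)
  t2 := fun j z hz => (h.t2 j z hz).trans (by
    have h1 : 0 < z.im := hκ hz
    have h2 := h.t0 z
    gcongr)
  tint := h.tint
  tle := h.tle.trans hB

theorem asm (n L : ℕ) {s K : ℝ} (hs : 0 < s) (hs1 : s ≤ 1 / 64) (hK : 0 ≤ K) :
    ∃ c C : ℝ, 0 < c ∧ 0 < C ∧
    ∀ (V : Set ℂ) (f : Fin n → ℂ → ℂ) (X : Fin L → ℂ → ℂ) (g : Fin L → Fin n → ℂ → ℂ),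
    Data s K V f X g → ∀ p l, ∀ k, Test V k →
    ‖∫ z in V, om s c V f X g p l z * k z‖ ≤ C * ∫ z, ‖dzb k z‖ := by
  obtain ⟨c, CE, hc, hCE, hE⟩ := mainE n L hs hs1 hK
  obtain ⟨Cg, hCg, hG⟩ := gh_facts (n := n) (L := L) hs hs1 hK hc
  obtain ⟨Ce, hCe, hSm⟩ := sm_err hs (hs1.trans (by norm_num))
  obtain ⟨Cp, hCp, hP⟩ := potE hs hs1
  obtain ⟨Cs, hCs, hS⟩ := sumL hs hs1 hCp
  obtain ⟨Cf, hCf, hF⟩ := fdE n L hs hs1 hK (C₀ := Cp + Cs) (by positivity)
  obtain ⟨Cw, hCw, hW⟩ := wolff n (C := Cp + Cs + Cf) (c := c) (by positivity) hc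
  refine ⟨c, Cg * Ce + CE * (Cs * (1 + Cp)) + Cw * ((1 + Cf) * (1 + Cp)), hc, by positivity, ?_⟩
  intro V f X g D p l k hk
  have hI0 : 0 ≤ ∫ z, ‖dzb k z‖ := integral_nonneg fun _ => norm_nonneg _
  set I₀ := ∫ z, ‖dzb k z‖ with hI
  have hkH : Test Hp k := ⟨hk.smooth, hk.cpt, hk.sub.trans D.V_sub⟩
  rcases hP k hkH with hz | ⟨ε, hpot, hhar⟩
  · have h0 : ∫ z in V, om s c V f X g p l z * k z = 0 := by
      simp only [hz, mul_zero, integral_zero]
    rw [h0, norm_zero]
    positivity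
  set κ := Sm s k with hκd
  have hκ : Test Hp κ := hpot.test
  obtain ⟨hGs, hGd, -, hGle, hGom⟩ := hG V f X g D
  have hκle : ∀ z, 0 ≤ ε z := hpot.nonneg
  -- enlarge the constants
  set B := (1 + Cp) * I₀ with hBd
  have hB0 : 0 ≤ B := by positivity
  have hCI : Cp * I₀ ≤ B := by
    rw [hBd]
    nlinarith
  have hIB : I₀ ≤ B := by
    rw [hBd]
    nlinarith [mul_nonneg hCp.le hI0]
  have hpot1 : PotD Cp B κ ε := asm_potD_mono hpot le_rfl hCI
  obtain ⟨m, a, χ, S, ha, hχt, hχs, hχ1, hχsum, hSle, hSsum⟩ :=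
    hS V k ε B D.V_open D.V_sub hk hpot1 hIB hhar
  have hpot2 : PotD (Cp + Cs) B κ ε := asm_potD_mono hpot1 (by linarith) le_rfl
  obtain ⟨T, hT⟩ := hF V f X g κ ε B m a χ S D hpot2 ha hχs hχsum hSle
    (hSsum.trans (mul_le_mul_of_nonneg_right (by linarith) hB0))
  have hpot3 : PotD (Cp + Cs + Cf) ((1 + Cf) * B) κ ε :=
    asm_potD_mono hpot1 (by linarith) (by nlinarith)
  have hT3 : FD (Cp + Cs + Cf) ((1 + Cf) * B) κ ε (FF s V f) T :=
    asm_fd_mono hκ.sub hT (by linarith) (by nlinarith)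
  have hthird := hW ((1 + Cf) * B) κ ε (FF s V f) T hpot3 hT3 p l
  -- continuity of the forms
  have hDc : ∀ p, ContinuousOn (Dh s c V f X g p) V := fun p =>
    (asm_dz_cont D.V_open (hGs p)).2.congr fun z hz => (hGd p z hz).symm
  have homc : ContinuousOn (om s c V f X g p l) V :=
    ((hGs p).continuousOn.mul (hDc l)).sub ((hGs l).continuousOn.mul (hDc p))
  have hFs : ∀ j, ContDiffOn ℝ ∞ (FF s V f j) Hp := hT.smooth
  have homM : ContinuousOn (omM c (FF s V f) p l) Hp := by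
    obtain ⟨C', -, h⟩ := lam_nsq (n := n) hc (zero_lt_one : (0 : ℝ) < 1)
    have h1 := ((h (FF s V f) hFs).1).continuousOn
    have hconj : ∀ {q : ℂ → ℂ}, ContinuousOn q Hp → ContinuousOn (fun z => conj (q z)) Hp :=
      fun hq => Complex.continuous_conj.comp_continuousOn hq
    exact (h1.pow 2).mul (((hconj (hFs p).continuousOn).mul
      (hconj (asm_dz_cont isOpen_Hp (hFs l)).1)).sub ((hconj (hFs l).continuousOn).mul
      (hconj (asm_dz_cont isOpen_Hp (hFs p)).1)))
  -- the first part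
  have hik : IntegrableOn (fun z => om s c V f X g p l z * k z) V :=
    asm_int_V D.V_open D.V_sub hCg.le homc (hGom p l) hkH.smooth.continuous hkH.cpt hkH.sub
  have hiκ : IntegrableOn (fun z => om s c V f X g p l z * κ z) V :=
    asm_int_V D.V_open D.V_sub hCg.le homc (hGom p l) hκ.smooth.continuous hκ.cpt hκ.sub
  have hsplit : ∫ z in V, om s c V f X g p l z * k z =
      (∫ z in V, om s c V f X g p l z * (k z - κ z)) + ∫ z in V, om s c V f X g p l z * κ z := by
    have h1 : IntegrableOn (fun z => om s c V f X g p l z * (k z - κ z)) V := by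
      have := hik.sub hiκ
      refine this.congr (Filter.Eventually.of_forall fun z => ?_)
      change om s c V f X g p l z * k z - om s c V f X g p l z * κ z = _
      ring
    rw [← integral_add h1 hiκ]
    congr 1
    funext z
    ring
  have hidiff : IntegrableOn (fun z => ‖k z - κ z‖ / z.im) Hp := by
    obtain ⟨y₁, hy₁, h1⟩ := asm_im hkH.cpt hkH.sub
    obtain ⟨y₂, hy₂, h2⟩ := asm_im hκ.cpt hκ.sub
    have hi1 : Integrable (fun z => ‖k z‖ / y₁) (volume.restrict Hp) :=
      ((hkH.smooth.continuous.integrable_of_hasCompactSupport hkH.cpt).norm.div_const y₁).restrict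
    have hi2 : Integrable (fun z => ‖κ z‖ / y₂) (volume.restrict Hp) :=
      ((hκ.smooth.continuous.integrable_of_hasCompactSupport hκ.cpt).norm.div_const y₂).restrict
    refine (hi1.add hi2).mono' ?_ ?_
    · exact (((hkH.smooth.continuous.sub hκ.smooth.continuous).norm.measurable).div
        Complex.measurable_im).aestronglyMeasurable
    · refine (ae_restrict_iff' isOpen_Hp.measurableSet).2
        (Filter.Eventually.of_forall fun z hz => ?_)
      have hzi : 0 < z.im := hz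
      change ‖‖k z - κ z‖ / z.im‖ ≤ ‖k z‖ / y₁ + ‖κ z‖ / y₂
      rw [Real.norm_of_nonneg (by positivity)]
      calc ‖k z - κ z‖ / z.im ≤ (‖k z‖ + ‖κ z‖) / z.im :=
            div_le_div_of_nonneg_right (norm_sub_le _ _) hzi.le
        _ = ‖k z‖ / z.im + ‖κ z‖ / z.im := add_div _ _ _
        _ ≤ ‖k z‖ / y₁ + ‖κ z‖ / y₂ := add_le_add (h1 z hz) (h2 z hz)
  have hfirst : ‖∫ z in V, om s c V f X g p l z * (k z - κ z)‖ ≤ Cg * (Ce * I₀) := by
    have h1 : ‖∫ z in V, om s c V f X g p l z * (k z - κ z)‖ ≤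
        ∫ z in V, Cg * (‖k z - κ z‖ / z.im) := by
      refine norm_integral_le_of_norm_le ((hidiff.mono_set D.V_sub).const_mul Cg) ?_
      refine (ae_restrict_iff' D.V_open.measurableSet).2
        (Filter.Eventually.of_forall fun z hz => ?_)
      rw [norm_mul]
      calc ‖om s c V f X g p l z‖ * ‖k z - κ z‖ ≤ Cg / z.im * ‖k z - κ z‖ :=
            mul_le_mul_of_nonneg_right (hGom p l z hz) (norm_nonneg _)
        _ = Cg * (‖k z - κ z‖ / z.im) := by ring
    have h2 : ∫ z in V, ‖k z - κ z‖ / z.im ≤ ∫ z in Hp, ‖k z - κ z‖ / z.im := by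
      refine setIntegral_mono_set hidiff ?_ (D.V_sub.eventuallyLE)
      refine (ae_restrict_iff' isOpen_Hp.measurableSet).2
        (Filter.Eventually.of_forall fun z hz => ?_)
      have hzi : 0 < z.im := hz
      change 0 ≤ ‖k z - κ z‖ / z.im
      positivity
    have h3 : ∫ z in Hp, ‖k z - κ z‖ / z.im ≤ Ce * I₀ := hSm k hkH
    rw [integral_const_mul] at h1
    exact h1.trans (mul_le_mul_of_nonneg_left (h2.trans h3) hCg.le)
  -- the second part
  have hφt : ∀ i, Test univ (fun z => χ i z * κ z) := fun i =>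
    ⟨(hχt i).smooth.mul hκ.smooth, (hχt i).cpt.mul_right, subset_univ _⟩
  have hφs : ∀ i, tsupport (fun z => χ i z * κ z) ⊆ closedBall (a i) (s * (a i).im) := fun i =>
    (tsupport_mul_subset_left (f := χ i) (g := κ)).trans (hχs i)
  have hφH : ∀ i, tsupport (fun z => χ i z * κ z) ⊆ Hp := fun i =>
    (tsupport_mul_subset_right (f := χ i) (g := κ)).trans hκ.sub
  have hS0 : ∀ i, 0 ≤ S i := fun i => by
    have h1 : 0 < (a i).im := ha i
    have h2 := hSle i (a i) (mem_closedBall_self (by positivity))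
    have h3 := norm_nonneg (κ (a i))
    have h4 := hκle (a i)
    linarith
  have hφle : ∀ i z, ‖χ i z * κ z‖ ≤ S i := by
    intro i z
    by_cases hz : z ∈ closedBall (a i) (s * (a i).im)
    · have h1 := hSle i z hz
      have h2 := hκle z
      rw [norm_mul]
      calc ‖χ i z‖ * ‖κ z‖ ≤ 1 * ‖κ z‖ := mul_le_mul_of_nonneg_right (hχ1 i z) (norm_nonneg _)
        _ ≤ S i := by linarith
    · have h1 : χ i z = 0 := by
        by_contra h
        exact hz (hχs i (subset_tsupport _ h))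
      rw [h1, zero_mul, norm_zero]
      exact hS0 i
  have hκsum : ∀ z, κ z = ∑ i, χ i z * κ z := by
    intro z
    rw [← Finset.sum_mul]
    by_cases hz : z ∈ tsupport κ
    · rw [hχsum z hz, one_mul]
    · have h1 : κ z = 0 := by
        by_contra h
        exact hz (subset_tsupport _ h)
      rw [h1, mul_zero]
  have hiV : ∀ i, IntegrableOn (fun z => om s c V f X g p l z * (χ i z * κ z)) V := fun i =>
    asm_int_V D.V_open D.V_sub hCg.le homc (hGom p l) (hφt i).smooth.continuous (hφt i).cpt (hφH i)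
  have hiM : ∀ i, Integrable (fun z => omM c (FF s V f) p l z * (χ i z * κ z)) := fun i =>
    asm_int homM (hφt i).smooth.continuous (hφt i).cpt (hφH i)
  have hsumV : ∫ z in V, om s c V f X g p l z * κ z =
      ∑ i, ∫ z in V, om s c V f X g p l z * (χ i z * κ z) := by
    rw [← integral_finsetSum _ fun i _ => hiV i]
    congr 1
    funext z
    rw [← Finset.mul_sum, ← hκsum z]
  have hsumM : ∫ z, omM c (FF s V f) p l z * κ z =
      ∑ i, ∫ z, omM c (FF s V f) p l z * (χ i z * κ z) := by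
    rw [← integral_finsetSum _ fun i _ => hiM i]
    congr 1
    funext z
    rw [← Finset.mul_sum, ← hκsum z]
  have hsecond : ‖(∫ z in V, om s c V f X g p l z * κ z) - ∫ z, omM c (FF s V f) p l z * κ z‖ ≤
      CE * (Cs * B) := by
    rw [hsumV, hsumM, ← Finset.sum_sub_distrib]
    refine (norm_sum_le _ _).trans ?_
    calc ∑ i, ‖(∫ z in V, om s c V f X g p l z * (χ i z * κ z)) -
          ∫ z, omM c (FF s V f) p l z * (χ i z * κ z)‖
        ≤ ∑ i, CE * (gam V s (a i) * S i) := Finset.sum_le_sum fun i _ => by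
          have h := hE V f X g D (a i) (ha i) (fun z => χ i z * κ z) (S i) (hS0 i) (hφt i)
            (hφs i) (hφle i) p l
          calc _ ≤ CE * S i * gam V s (a i) := h
            _ = _ := by ring
      _ = CE * ∑ i, gam V s (a i) * S i := by rw [Finset.mul_sum]
      _ ≤ CE * (Cs * B) := mul_le_mul_of_nonneg_left hSsum hCE.le
  -- conclusion
  have e1 : (∫ z in V, om s c V f X g p l z * κ z) =
      ((∫ z in V, om s c V f X g p l z * κ z) - ∫ z, omM c (FF s V f) p l z * κ z) +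
        ∫ z, omM c (FF s V f) p l z * κ z := by ring
  rw [hsplit, e1]
  refine (norm_add_le _ _).trans ?_
  have e2 := norm_add_le ((∫ z in V, om s c V f X g p l z * κ z) -
    ∫ z, omM c (FF s V f) p l z * κ z) (∫ z, omM c (FF s V f) p l z * κ z)
  calc _ ≤ Cg * (Ce * I₀) + (CE * (Cs * B) + Cw * ((1 + Cf) * B)) :=
        add_le_add hfirst (e2.trans (add_le_add hsecond hthird))
    _ = _ := by
      rw [hBd]
      ring

end Pool.Agent.Work.MP_2cf110_an.Hyp

end
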