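import Pool.Agent.Work.MP_2cf110_an.Hyp.Rep1
import Pool.Agent.Work.MP_2cf110_an.Hyp.DataF

/-! # The Bezout equation for the replacement functions

Sm s (1_V Σ_j f_j g_ij)(z) = Sm s (1_V)(z) since Σ_j f_j g_ij = 1 on V ∩ ball a (10R), which contains the support of kap s z in V;
rep3 for each j and rep4. -/

open MeasureTheory Complex Set Metric Filter
open scoped Topology ContDiff ComplexConjugate

noncomputable section

namespace Pool.Agent.Work.MP_2cf110_an.Hyp

open QC (dz dzb Test Cau)

theorem bezA {n L : ℕ} {s K : ℝ} (hs : 0 < s) (hs1 : s ≤ 1 / 64) (hK : 0 ≤ K) :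
    ∃ C : ℝ, 0 < C ∧
    ∀ (V : Set ℂ) (f : Fin n → ℂ → ℂ) (X : Fin L → ℂ → ℂ) (g : Fin L → Fin n → ℂ → ℂ),
    Data s K V f X g → ∀ a ∈ Hp, ∀ i, (∃ z ∈ ball a (2 * (s * a.im)), X i z ≠ 0) →
    ∀ z ∈ ball a (2 * (s * a.im)),
    ‖∑ j, al V a (s * a.im) (f j) z * al V a (s * a.im) (g i j) z - 1‖ ≤
      C * gam V s a / (s * a.im) := by
  obtain ⟨C3, hC3, h3⟩ := rep3 hs hs1
  obtain ⟨C4, hC4, h4⟩ := rep4 hs hs1
  refine ⟨n * (C3 * K * K) + C4, by positivity, ?_⟩
  intro V f X g D a ha i hX z hz
  have ha' : 0 < a.im := ha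
  obtain ⟨hgd, hgs⟩ := D.loc a ha i hX
  have hR : 0 < s * a.im := mul_pos hs ha'
  have hza : ‖z - a‖ < 2 * (s * a.im) := by
    rw [mem_ball, dist_eq_norm] at hz
    exact hz
  have him : |z.im - a.im| < 2 * (s * a.im) := by
    have h := Complex.abs_im_le_norm (z - a)
    rw [Complex.sub_im] at h
    exact lt_of_le_of_lt h hza
  have him2 := abs_lt.1 him
  have hsa : s * a.im ≤ a.im / 64 := by
    have := mul_le_mul_of_nonneg_right hs1 ha'.le
    linarith
  have hz' : 0 < z.im := by linarith [him2.1]
  have hzH : z ∈ Hp := hz'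
  have hzim : z.im ≤ 2 * a.im := by linarith [him2.2]
  have hszim : s * z.im ≤ 2 * (s * a.im) := by
    have := mul_le_mul_of_nonneg_left hzim hs.le
    linarith
  have hkt := (kap_ker hs).test hzH
  -- integrability
  have hint : ∀ j, Integrable (fun ζ => V.indicator (fun w => f j w * g i j w) ζ * kap s z ζ) := by
    intro j
    have e1 : V.indicator (fun w => f j w * g i j w) =
        fun w => V.indicator (f j) w * V.indicator (g i j) w := by
      funext w
      by_cases hw : w ∈ V
      · simp [indicator_of_mem hw]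
      · simp [indicator_of_notMem hw]
    have hm : Measurable (V.indicator (fun w => f j w * g i j w)) := by
      rw [e1]
      exact (D.f_meas j).mul (D.g_meas i j)
    have hb : ∀ w, ‖V.indicator (fun w => f j w * g i j w) w‖ ≤ K * K := by
      intro w
      rw [e1]
      simp only
      rw [norm_mul]
      exact mul_le_mul (D.f_ind hK j w) (D.g_ind hK i j w) (norm_nonneg _) hK
    have hl := li_of_bdd hm hb
    have h := hl.integrable_smul_right_of_hasCompactSupport hkt.1.smooth.continuous hkt.1.cpt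
    exact h
  have hsum : ∑ j, Sm s (V.indicator fun w => f j w * g i j w) z =
      Sm s (V.indicator fun _ => 1) z := by
    unfold Sm
    rw [← Finset.mul_sum, ← integral_finsetSum _ (fun j _ => hint j)]
    congr 1
    refine integral_congr_ae (Eventually.of_forall fun ζ => ?_)
    simp only
    rw [← Finset.sum_mul]
    by_cases hk : kap s z ζ = 0
    · rw [hk, mul_zero, mul_zero]
    · congr 1
      have hζ : ‖ζ - z‖ ≤ s * z.im := by
        by_contra hc
        exact hk ((kap_ker hs).supp z hzH ζ (not_le.1 hc))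
      have hζa : ζ ∈ ball a (10 * (s * a.im)) := by
        rw [mem_ball, dist_eq_norm]
        have h := norm_add_le (ζ - z) (z - a)
        rw [sub_add_sub_cancel] at h
        linarith
      by_cases hV : ζ ∈ V
      · simp only [indicator_of_mem hV]
        exact hgs ζ ⟨hV, hζa⟩
      · simp only [indicator_of_notMem hV, Finset.sum_const_zero]
  have hr3 : ∀ j, ‖Sm s (V.indicator fun w => f j w * g i j w) z -
      al V a (s * a.im) (f j) z * al V a (s * a.im) (g i j) z‖ ≤
      C3 * K * K * gam V s a / (s * a.im) := fun j =>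
    h3 V a K K (f j) (g i j) D.V_open ha hK hK ((D.f_holo j).mono inter_subset_left) (hgd j)
      (fun w hw => D.f_le j w hw.1) (fun w _ => D.g_le i j w) z hz
  have hr4 := h4 V a D.V_open ha z hz
  have e : ∑ j, al V a (s * a.im) (f j) z * al V a (s * a.im) (g i j) z - 1 =
      (Sm s (V.indicator fun _ => 1) z - 1) -
      ∑ j, (Sm s (V.indicator fun w => f j w * g i j w) z -
        al V a (s * a.im) (f j) z * al V a (s * a.im) (g i j) z) := by
    rw [Finset.sum_sub_distrib, hsum]
    ring
  rw [e]
  calc ‖(Sm s (V.indicator fun _ => 1) z - 1) -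
      ∑ j, (Sm s (V.indicator fun w => f j w * g i j w) z -
        al V a (s * a.im) (f j) z * al V a (s * a.im) (g i j) z)‖
      ≤ ‖Sm s (V.indicator fun _ => 1) z - 1‖ +
        ‖∑ j, (Sm s (V.indicator fun w => f j w * g i j w) z -
        al V a (s * a.im) (f j) z * al V a (s * a.im) (g i j) z)‖ := norm_sub_le _ _
    _ ≤ C4 * gam V s a / (s * a.im) + ∑ _j : Fin n, C3 * K * K * gam V s a / (s * a.im) :=
        add_le_add hr4 (norm_sum_le_of_le _ fun j _ => hr3 j)
    _ = (n * (C3 * K * K) + C4) * gam V s a / (s * a.im) := by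
        rw [Finset.sum_const, Finset.card_univ, Fintype.card_fin, nsmul_eq_mul]
        ring

end Pool.Agent.Work.MP_2cf110_an.Hyp

end
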