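import Pool.Agent.Work.MP_2cf110_an.Hyp.Defs

/-! # A weak Bloch theorem

Scale to w₀ = 0, ρ = 1.  z* = a point of closedBall 0 (1/2) where |f'(z)| (1/2 - |z|) is maximal, τ = (1/2 - |z*|)/2 > 0 (if f'(0) ≠ 0), |f'(z*)| τ ≥ |f'(0)|/4 and
|f'| ≤ 2|f'(z*)| on ball z* τ.  So |f'(z) - f'(z*)| ≤ 3|f'(z*)||z-z*|/τ there (Schwarz: Complex.dist_le_div_mul_dist_of_mapsTo_ball or norm_dslope), hence
|f(z) - f(z*) - f'(z*)(z-z*)| ≤ 3|f'(z*)||z-z*|²/τ, so on |z-z*| = τ/4: |f(z) - f(z*)| ≥ |f'(z*)| τ/16, and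
DiffContOnCl.ball_subset_image_closedBall gives a ball of radius |f'(z*)| τ/32 ≥ |f'(0)|/128 in the image. -/

open MeasureTheory Complex Set Metric Filter
open scoped Topology ContDiff ComplexConjugate

noncomputable section

namespace Pool.Agent.Work.MP_2cf110_an.Hyp

open QC (dz dzb Test Cau)

theorem bloch {f : ℂ → ℂ} {w₀ : ℂ} {ρ : ℝ} (hρ : 0 < ρ) (hf : DifferentiableOn ℂ f (ball w₀ ρ)) :
    ∃ q : ℂ, ball q (ρ * ‖deriv f w₀‖ / 128) ⊆ f '' ball w₀ ρ := by
  by_cases h0 : deriv f w₀ = 0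
  · refine ⟨w₀, ?_⟩
    rw [h0, norm_zero, mul_zero, zero_div, ball_zero]
    exact empty_subset _
  have hdf : DifferentiableOn ℂ (deriv f) (ball w₀ ρ) := hf.deriv isOpen_ball
  -- the maximum of `|f'(z)| (ρ/2 - |z - w₀|)`
  let φ : ℂ → ℝ := fun z => ‖deriv f z‖ * (ρ / 2 - ‖z - w₀‖)
  have hsub : closedBall w₀ (ρ / 2) ⊆ ball w₀ ρ := closedBall_subset_ball (by linarith)
  have hcont : ContinuousOn φ (closedBall w₀ (ρ / 2)) := by
    refine ContinuousOn.mul (hdf.continuousOn.mono hsub).norm ?_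
    exact (continuous_const.sub (continuous_id.sub continuous_const).norm).continuousOn
  obtain ⟨z', hz', hmax⟩ := (isCompact_closedBall w₀ (ρ / 2)).exists_isMaxOn
    ⟨w₀, mem_closedBall_self (by linarith)⟩ hcont
  have hmax' : ∀ z ∈ closedBall w₀ (ρ / 2), φ z ≤ φ z' := fun z hz => hmax hz
  have h1 : ‖deriv f w₀‖ * (ρ / 2) ≤ φ z' := by
    have := hmax' w₀ (mem_closedBall_self (by linarith))
    show _ ≤ φ z'
    have h2 : φ w₀ = ‖deriv f w₀‖ * (ρ / 2) := by
      show ‖deriv f w₀‖ * (ρ / 2 - ‖w₀ - w₀‖) = _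
      rw [sub_self, norm_zero, sub_zero]
    rw [← h2]
    exact this
  have h2 : 0 < φ z' := lt_of_lt_of_le (mul_pos (norm_pos_iff.2 h0) (by linarith)) h1
  set M := ‖deriv f z'‖ with hM
  have hφ : φ z' = M * (ρ / 2 - ‖z' - w₀‖) := rfl
  have hz'' : ‖z' - w₀‖ ≤ ρ / 2 := by
    rw [← dist_eq_norm]
    exact hz'
  have hM0 : 0 < M := by
    rcases (norm_nonneg (deriv f z')).eq_or_lt with h | h
    · rw [hφ, hM, ← h, zero_mul] at h2
      exact absurd h2 (lt_irrefl _)
    · exact h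
  set τ := (ρ / 2 - ‖z' - w₀‖) / 2 with hτ
  have hτ0 : 0 < τ := by
    rw [hφ] at h2
    have := pos_of_mul_pos_right h2 hM0.le
    rw [hτ]
    linarith
  have hMτ : ρ * ‖deriv f w₀‖ / 4 ≤ M * τ := by
    rw [hφ] at h1
    rw [hτ]
    nlinarith
  have hballsub : closedBall z' τ ⊆ closedBall w₀ (ρ / 2) := by
    intro z hz
    rw [mem_closedBall, dist_eq_norm] at hz ⊢
    have h3 : z - w₀ = (z - z') + (z' - w₀) := by ring
    rw [h3]
    refine (norm_add_le _ _).trans ?_
    have h4 : ‖z' - w₀‖ = ρ / 2 - 2 * τ := by rw [hτ]; ring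
    rw [h4]
    linarith
  have hballsub' : ball z' τ ⊆ ball w₀ ρ :=
    (ball_subset_closedBall.trans hballsub).trans hsub
  have hbd : ∀ z ∈ ball z' τ, ‖deriv f z‖ ≤ 2 * M := by
    intro z hz
    have h3 := hmax' z (hballsub (ball_subset_closedBall hz))
    rw [mem_ball, dist_eq_norm] at hz
    have h4 : τ ≤ ρ / 2 - ‖z - w₀‖ := by
      have h5 : ‖z - w₀‖ ≤ ‖z - z'‖ + ‖z' - w₀‖ := by
        have h6 : z - w₀ = (z - z') + (z' - w₀) := by ring
        rw [h6]
        exact norm_add_le _ _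
      have h7 : ‖z' - w₀‖ = ρ / 2 - 2 * τ := by rw [hτ]; ring
      linarith
    have h5 : ‖deriv f z‖ * τ ≤ φ z := mul_le_mul_of_nonneg_left h4 (norm_nonneg _)
    have h6 : φ z' = 2 * M * τ := by rw [hφ, hτ]; ring
    rw [h6] at h3
    exact le_of_mul_le_mul_right (h5.trans h3) hτ0
  -- Schwarz lemma for `f' - f'(z')`
  have hz'b : z' ∈ ball z' τ := mem_ball_self hτ0
  have hschw : ∀ z ∈ ball z' τ, ‖deriv f z - deriv f z'‖ ≤ 4 * M / τ * ‖z - z'‖ := by
    intro z hz
    have h3 : MapsTo (deriv f) (ball z' τ) (closedBall (deriv f z') (4 * M)) := by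
      intro w hw
      rw [mem_closedBall, dist_eq_norm]
      have := norm_sub_le (deriv f w) (deriv f z')
      have h4 := hbd w hw
      have h5 : ‖deriv f z'‖ = M := rfl
      linarith
    have h4 := Complex.dist_le_div_mul_dist_of_mapsTo_ball (hdf.mono hballsub') h3 hz
    rw [dist_eq_norm, dist_eq_norm] at h4
    exact h4
  set r := τ / 8 with hr
  have hr0 : 0 < r := by rw [hr]; linarith
  have hrb : closedBall z' r ⊆ ball z' τ := closedBall_subset_ball (by rw [hr]; linarith)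
  let g : ℂ → ℂ := fun z => f z - deriv f z' * z
  have hgd : ∀ z ∈ closedBall z' r, HasDerivAt g (deriv f z - deriv f z') z := by
    intro z hz
    have h3 : HasDerivAt f (deriv f z) z :=
      (hf.differentiableAt (isOpen_ball.mem_nhds (hballsub' (hrb hz)))).hasDerivAt
    have h4 : HasDerivAt (fun z => deriv f z' * z) (deriv f z') z := by
      simpa using (hasDerivAt_id z).const_mul (deriv f z')
    exact h3.sub h4
  have hmv : ∀ z ∈ closedBall z' r, ‖g z - g z'‖ ≤ 4 * M / τ * r * ‖z - z'‖ := by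
    intro z hz
    refine Convex.norm_image_sub_le_of_norm_hasDerivWithin_le
      (f' := fun z => deriv f z - deriv f z')
      (fun w hw => (hgd w hw).hasDerivWithinAt) ?_ (convex_closedBall z' r)
      (mem_closedBall_self hr0.le) hz
    intro w hw
    refine (hschw w (hrb hw)).trans ?_
    rw [mem_closedBall, dist_eq_norm] at hw
    exact mul_le_mul_of_nonneg_left hw (by positivity)
  have hlow : ∀ z ∈ sphere z' r, M * τ / 16 ≤ ‖f z - f z'‖ := by
    intro z hz
    have hz1 : ‖z - z'‖ = r := by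
      rw [← dist_eq_norm]
      exact hz
    have h3 := hmv z (sphere_subset_closedBall hz)
    rw [hz1] at h3
    have h4 : 4 * M / τ * r * r = M * τ / 16 := by
      rw [hr]
      field_simp
      ring
    rw [h4] at h3
    have h5 : deriv f z' * (z - z') = (f z - f z') - (g z - g z') := by
      show deriv f z' * (z - z') =
        (f z - f z') - ((f z - deriv f z' * z) - (f z' - deriv f z' * z'))
      ring
    have h6 : ‖deriv f z' * (z - z')‖ = M * τ / 8 := by
      rw [norm_mul, hz1, hr]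
      show M * (τ / 8) = _
      ring
    have h7 := norm_sub_le (f z - f z') (g z - g z')
    rw [← h5, h6] at h7
    linarith
  have hdc : DiffContOnCl ℂ f (ball z' r) :=
    hf.diffContOnCl_ball (hrb.trans hballsub')
  have hfreq : ∃ᶠ z in 𝓝 z', f z ≠ f z' := by
    have h3 : HasDerivAt f (deriv f z') z' :=
      (hf.differentiableAt (isOpen_ball.mem_nhds (hballsub' hz'b))).hasDerivAt
    have h4 : ∀ᶠ z in 𝓝[≠] z', f z ≠ f z' := h3.eventually_ne (norm_pos_iff.1 hM0)
    exact h4.frequently.filter_mono nhdsWithin_le_nhds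
  have hfin := hdc.ball_subset_image_closedBall hr0 hlow hfreq
  refine ⟨f z', ?_⟩
  refine (ball_subset_ball ?_).trans (hfin.trans (image_mono (hrb.trans hballsub')))
  linarith

end Pool.Agent.Work.MP_2cf110_an.Hyp

end
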