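import Pool.Agent.Work.MP_2cf110_an.Alg

/-! # Characters which vanish on a family

Same proof as exists_chr (in MP_2cf110_an/Alg) with the ideal spanned by the whole family: if 1 is in the span of the set then a finite
subfamily solves the Bezout equation (Ideal.mem_span / Submodule.mem_span_iff_exists_finset_subset or Finsupp form), which gives
Bez for a finite family f : Fin n → (elements of 𝓕). -/

open MeasureTheory Set Metric
open scoped ContDiff BoundedContinuousFunction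

namespace Pool.Agent.Work.MP_2cf110_an

theorem exists_chr_fam {V : Set ℂ} (hV : IsOpen V) (𝓕 : Set (ℂ → ℂ)) (h𝓕 : ∀ f ∈ 𝓕, Hinf V f)
    (h : ∀ (n : ℕ) (f : Fin n → ℂ → ℂ), (∀ j, f j ∈ 𝓕) → ¬ Bez V f) :
    ∃ χ : Chr V, ∀ f ∈ 𝓕, χ.φ f = 0 := by
  classical
  haveI : CompleteSpace (HA V) := (isClosed_HA hV).completeSpace_coe
  set I : Ideal (HA V) := Ideal.span (range fun f : 𝓕 => toHA f (h𝓕 f f.2)) with hI
  have hne : I ≠ ⊤ := by
    intro htop
    have h1 : (1 : HA V) ∈ I := by rw [htop]; trivial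
    rw [hI, Finsupp.mem_ideal_span_range_iff_exists_finsupp] at h1
    obtain ⟨c, hc⟩ := h1
    have e := c.support.equivFin
    apply h c.support.card (fun j => ((e.symm j : 𝓕) : ℂ → ℂ)) (fun j => (e.symm j : 𝓕).2)
    choose G hG hGc using fun f : 𝓕 => (c f).2
    refine ⟨fun j => G (e.symm j : 𝓕), fun j => ⟨hG _, ‖(c (e.symm j : 𝓕) : ↥V →ᵇ ℂ)‖,
      fun z hz => ?_⟩, fun z hz => ?_⟩
    · show ‖G (e.symm j : 𝓕) z‖ ≤ _
      rw [show G (e.symm j : 𝓕) z = (c (e.symm j : 𝓕) : ↥V →ᵇ ℂ) ⟨z, hz⟩ from hGc _ ⟨z, hz⟩]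
      exact BoundedContinuousFunction.norm_coe_le_norm _ _
    · have h2 := congrArg (fun x : HA V => (x : ↥V →ᵇ ℂ) ⟨z, hz⟩) hc
      rw [show ((1 : HA V) : ↥V →ᵇ ℂ) ⟨z, hz⟩ = 1 from rfl] at h2
      rw [← h2]
      rw [Finsupp.sum, AddSubmonoidClass.coe_finsetSum, BoundedContinuousFunction.sum_apply]
      rw [Equiv.sum_comp e.symm (fun i : c.support => ((i : 𝓕) : ℂ → ℂ) z * G (i : 𝓕) z),
        Finset.sum_coe_sort c.support (fun i : 𝓕 => (i : ℂ → ℂ) z * G i z)]
      refine Finset.sum_congr rfl fun f _ => ?_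
      have h3 : G f z = (c f : ↥V →ᵇ ℂ) ⟨z, hz⟩ := hGc f ⟨z, hz⟩
      show (f : ℂ → ℂ) z * G f z = (c f : ↥V →ᵇ ℂ) ⟨z, hz⟩ * (f : ℂ → ℂ) z
      rw [h3, mul_comm]
  obtain ⟨M, hM, hIM⟩ := I.exists_le_maximal hne
  let ψ := M.toCharacterSpace
  refine ⟨⟨fun F => if hF : Hinf V F then ψ (toHA F hF) else F 0, ?_, ?_, ?_, ?_⟩, ?_⟩
  · intro F G hF hG hFG
    simp only [hF, hG, dite_true]
    congr 1
    apply Subtype.ext
    ext z
    exact hFG z.2
  · intro F G hF hG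
    simp only [hF, hG, hF.add hG, dite_true]
    rw [← map_add]
    rfl
  · intro F G hF hG
    simp only [hF, hG, hF.mul hG, dite_true]
    rw [← map_mul]
    rfl
  · intro c
    simp only [Hinf.const c, dite_true]
    have h1 : toHA (fun _ : ℂ => c) (Hinf.const (V := V) c) = algebraMap ℂ (HA V) c := by
      apply Subtype.ext
      ext z
      show c = (algebraMap ℂ (↥V →ᵇ ℂ) c) z
      simp [Algebra.algebraMap_eq_smul_one]
    rw [h1, AlgHomClass.commutes]
    rfl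
  · intro f hf
    simp only [h𝓕 f hf, dite_true]
    exact M.toCharacterSpace_apply_eq_zero_of_mem (hIM (Ideal.subset_span ⟨⟨f, hf⟩, rfl⟩))

end Pool.Agent.Work.MP_2cf110_an
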