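import Pool.Agent.Work.MP_2cf110_an.Hyp.LocH
import Pool.Agent.Work.MP_2cf110_an.Hyp.ChrX
import Pool.Agent.Work.MP_2cf110_an.Main

/-! # Characters can be localised along functions S ∘ Φ

W_t = {z in W : ‖s z - χ s‖ < t}, 𝓕 = {f : Hinf W f, χ f = 0}.  If some finite family f_1..f_n in 𝓕 solves the Bezout equation on W_t, add f_0 = s - χ s: the family
f_0, ..., f_n solves it locally along s (near l ≠ χ s the function f_0 is bounded away from 0: take g_0 = 1/f_0, the others 0; near l = χ s use the given solution with g_0 = 0),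
so on W by bez_of_local_hyp, and applying χ gives 0 = 1.  Hence exists_chr_fam gives χ' on W_t with χ' f = 0 for f in 𝓕; for Hinf W f: f - χ f is in 𝓕, so
χ' f = χ f. -/

open MeasureTheory Set Metric
open scoped ContDiff

namespace Pool.Agent.Work.MP_2cf110_an

theorem Chr.localize_hyp {W : Set ℂ} (χ : Chr W) (hW : IsOpen W) {s : ℂ → ℂ} (hs : HypFn W s)
    {t : ℝ} (ht : 0 < t) :
    ∃ χ' : Chr {z ∈ W | ‖s z - χ.φ s‖ < t}, ∀ f, Hinf W f → χ'.φ f = χ.φ f := by
  have hsH := hs.hinf
  have hO := isOpen_sub hW hsH.1 (χ.φ s) t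
  have hsub : {z ∈ W | ‖s z - χ.φ s‖ < t} ⊆ W := fun z hz => hz.1
  obtain ⟨χ', hχ'⟩ := exists_chr_fam hO {f | Hinf W f ∧ χ.φ f = 0}
    (fun f hf => hf.1.mono hsub) (by
      rintro n f hf ⟨g, hg, hfg⟩
      have hF : ∀ j : Fin (n + 1), Hinf W ((Fin.cons (fun z => s z - χ.φ s) f :
          Fin (n + 1) → ℂ → ℂ) j) := by
        intro j
        refine Fin.cases ?_ (fun i => ?_) j
        · exact hsH.sub_const _
        · exact (hf i).1
      have hB : Bez W (Fin.cons (fun z => s z - χ.φ s) f : Fin (n + 1) → ℂ → ℂ) := by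
        refine bez_of_local_hyp hW hs hF fun l _ => ?_
        by_cases hl : l = χ.φ s
        · refine ⟨t, ht, Fin.cons (fun _ => 0) g, ?_, ?_⟩
          · intro j
            refine Fin.cases ?_ (fun i => ?_) j
            · exact Hinf.const 0
            · rw [hl]
              exact hg i
          · intro z hz
            rw [hl] at hz
            rw [Fin.sum_univ_succ]
            simp only [Fin.cons_zero, Fin.cons_succ, mul_zero, zero_add]
            exact hfg z hz
        · have hd : 0 < ‖l - χ.φ s‖ := norm_pos_iff.2 (sub_ne_zero.2 hl)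
          have hlow : ∀ z ∈ {z ∈ W | ‖s z - l‖ < ‖l - χ.φ s‖ / 2},
              ‖l - χ.φ s‖ / 2 ≤ ‖s z - χ.φ s‖ := by
            intro z hz
            have h1 : ‖l - χ.φ s‖ ≤ ‖s z - χ.φ s‖ + ‖s z - l‖ := by
              have : l - χ.φ s = (s z - χ.φ s) - (s z - l) := by ring
              rw [this]
              exact norm_sub_le _ _
            have h2 := hz.2
            linarith
          refine ⟨‖l - χ.φ s‖ / 2, by positivity, Fin.cons (fun z => (s z - χ.φ s)⁻¹)
            (fun _ _ => 0), ?_, ?_⟩
          · intro j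
            refine Fin.cases ?_ (fun i => ?_) j
            · exact ((hsH.sub_const _).mono fun z hz => hz.1).inv (by positivity) hlow
            · exact Hinf.const 0
          · intro z hz
            rw [Fin.sum_univ_succ]
            simp only [Fin.cons_zero, Fin.cons_succ, mul_zero, Finset.sum_const_zero, add_zero]
            have h1 := hlow z hz
            have h2 : s z - χ.φ s ≠ 0 := norm_pos_iff.1 (by linarith)
            exact mul_inv_cancel₀ h2
      obtain ⟨G, hG, hFG⟩ := hB
      have h1 : χ.φ (fun z => ∑ j : Fin (n + 1), (Fin.cons (fun z => s z - χ.φ s) f :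
          Fin (n + 1) → ℂ → ℂ) j z * G j z) = 1 := by
        rw [← χ.const 1]
        refine χ.congr _ _ (Hinf.sum _ fun j _ => (hF j).mul (hG j)) (Hinf.const _) ?_
        intro z hz
        exact hFG z hz
      rw [χ.sum _ fun j _ => (hF j).mul (hG j)] at h1
      have h2 : ∀ j : Fin (n + 1), χ.φ (fun z => (Fin.cons (fun z => s z - χ.φ s) f :
          Fin (n + 1) → ℂ → ℂ) j z * G j z) = 0 := by
        intro j
        rw [χ.mul _ _ (hF j) (hG j)]
        have h3 : χ.φ ((Fin.cons (fun z => s z - χ.φ s) f : Fin (n + 1) → ℂ → ℂ) j) = 0 := by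
          refine Fin.cases ?_ (fun i => ?_) j
          · show χ.φ (fun z => s z - χ.φ s) = 0
            rw [χ.sub_const hsH, sub_self]
          · exact (hf i).2
        rw [h3, zero_mul]
      rw [Finset.sum_congr rfl fun j _ => h2 j, Finset.sum_const_zero] at h1
      exact zero_ne_one h1)
  refine ⟨χ', fun f hf => ?_⟩
  have h1 : χ'.φ (fun z => f z - χ.φ f) = 0 := by
    apply hχ'
    refine ⟨hf.sub_const _, ?_⟩
    rw [χ.sub_const hf, sub_self]
  rw [χ'.sub_const (hf.mono hsub)] at h1
  exact sub_eq_zero.1 h1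

end Pool.Agent.Work.MP_2cf110_an
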