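import Pool.Agent.Work.MP_2cf110_an.Hyp.CorH

/-! # The corona theorem for hyperbolically finitely connected open sets

hyp_one with Φ z = z, r = η; the local set is V ∩ ball a (η (1 - |a|)) = ball ∩ ⋂_{i<m} Ω i, m ≤ k; corH for m = 0..k, the maximum of the constants. -/

open MeasureTheory Complex Set Metric Filter
open scoped Topology ContDiff ComplexConjugate

noncomputable section

namespace Pool.Agent.Work.MP_2cf110_an.Hyp

open QC (dz dzb Test Cau)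

/-- `V` is an open subset of the unit disc, and in every disc `B` with centre `a` and radius
`η (1 - |a|)` it is the intersection of `B` with at most `k` sets as in `Hole` -/
def HypFin (k : ℕ) (η : ℝ) (V : Set ℂ) : Prop :=
  IsOpen V ∧ V ⊆ ball 0 1 ∧ ∀ a : ℂ, ‖a‖ < 1 → ∃ m ≤ k, ∃ Ω : Fin m → Set ℂ,
    (∀ i, ∃ Φ, Hole (Ω i) Φ) ∧
    V ∩ ball a (η * (1 - ‖a‖)) = ball a (η * (1 - ‖a‖)) ∩ ⋂ i, Ω i

theorem classH (n k : ℕ) {K δ η : ℝ} (hδ : 0 < δ) (hη : 0 < η) (hη1 : η ≤ 1) : ∃ C : ℝ,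
    ∀ (V : Set ℂ) (f : Fin n → ℂ → ℂ), HypFin k η V → BA K V f → Cor δ V f → Sol C V f := by
  have hH : ∀ m : ℕ, ∃ C : ℝ, CH n m K δ C := fun m => corH n m hδ
  choose Cc hCc using hH
  obtain ⟨M, hM⟩ : ∃ M, ∀ m ≤ k, Cc m ≤ M :=
    ⟨(Finset.range (k + 1)).sup' ⟨0, by simp⟩ Cc,
      fun m hm => Finset.le_sup' Cc (Finset.mem_range.2 (by omega))⟩
  obtain ⟨C, hC⟩ := hyp_one n (K := K) (M := M) hη hη1
  refine ⟨C, fun V f hV hBA hCor => ?_⟩
  obtain ⟨hVo, hVs, hloc⟩ := hV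
  refine hC V f (fun z => z) hVo hBA differentiableOn_id (fun x _ y _ h => h)
    (fun z hz => by simpa using hVs hz) ?_
  intro a ha
  obtain ⟨m, hm, Ω, hΩ, heq⟩ := hloc a ha
  have hset : {z ∈ V | ‖(fun z : ℂ => z) z - a‖ < η * (1 - ‖a‖)} =
      V ∩ ball a (η * (1 - ‖a‖)) := by
    ext z
    simp [mem_ball, dist_eq_norm]
  rw [hset, heq]
  have hsub : ball a (η * (1 - ‖a‖)) ∩ ⋂ i, Ω i ⊆ V := by
    rw [← heq]
    exact inter_subset_left
  exact (hCc m a _ Ω f (mul_pos hη (by linarith)) hΩ (hBA.mono hsub) (hCor.mono hsub)).le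
    (hM m hm)

end Pool.Agent.Work.MP_2cf110_an.Hyp

end
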