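import Pool.Agent.Work.MP_2cf110_an.Hyp.ClassH
import Pool.Agent.Work.MP_2cf110_an.Loc

/-! # Conformal images

exists_inverse gives Ψ on Φ '' V; apply classH to Φ '' V and f j ∘ Ψ and compose the solution with Φ. -/

open MeasureTheory Complex Set Metric Filter
open scoped Topology ContDiff ComplexConjugate

noncomputable section

namespace Pool.Agent.Work.MP_2cf110_an.Hyp

open QC (dz dzb Test Cau)

theorem classI (n k : ℕ) {K δ η : ℝ} (hδ : 0 < δ) (hη : 0 < η) (hη1 : η ≤ 1) : ∃ C : ℝ,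
    ∀ (V : Set ℂ) (f : Fin n → ℂ → ℂ) (Φ : ℂ → ℂ), IsOpen V → DifferentiableOn ℂ Φ V →
    InjOn Φ V → HypFin k η (Φ '' V) → BA K V f → Cor δ V f → Sol C V f := by
  obtain ⟨C, hC⟩ := classH n k (K := K) hδ hη hη1
  refine ⟨C, fun V f Φ hV hΦ hi hcl hf hc => ?_⟩
  obtain ⟨hO, Ψ, hΨ, hΨΦ⟩ := exists_inverse hV hΦ hi
  have hmem : ∀ w ∈ Φ '' V, Ψ w ∈ V := by
    rintro _ ⟨z, hz, rfl⟩
    rwa [hΨΦ z hz]
  have hBA : BA K (Φ '' V) fun j w => f j (Ψ w) := by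
    intro j
    refine ⟨(hf j).1.comp hΨ hmem, fun w hw => (hf j).2 _ (hmem w hw)⟩
  have hCor : Cor δ (Φ '' V) fun j w => f j (Ψ w) := fun w hw => hc _ (hmem w hw)
  obtain ⟨g, hg, hsum⟩ := hC _ _ hcl hBA hCor
  refine ⟨fun j z => g j (Φ z), fun j => ⟨?_, fun z hz => ?_⟩, fun z hz => ?_⟩
  · exact (hg j).1.comp hΦ (fun z hz => mem_image_of_mem Φ hz)
  · exact (hg j).2 _ (mem_image_of_mem Φ hz)
  · have h1 := hsum (Φ z) (mem_image_of_mem Φ hz)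
    simp only [hΨΦ z hz] at h1
    exact h1

end Pool.Agent.Work.MP_2cf110_an.Hyp

end
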