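import Pool.Agent.Work.MP_2cf110_an.Hyp.HypOne

/-! # The corona theorem for discs

hyp_one with V = ball b R, Φ z = (z - b)/R and r small: the local set is in ball (b + R a) (r R (1 - |a|)), on which f j oscillates by at most
C K r ≤ δ/2 (Cauchy estimate on ball (b + R a) (R (1 - |a|))); with |f j (b + R a)| ≥ δ take g j = 1/f j, the others 0. -/

open MeasureTheory Complex Set Metric Filter
open scoped Topology ContDiff ComplexConjugate

noncomputable section

namespace Pool.Agent.Work.MP_2cf110_an.Hyp

open QC (dz dzb Test Cau)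

theorem corB (n : ℕ) {K δ : ℝ} (hδ : 0 < δ) : ∃ C : ℝ, ∀ (b : ℂ) (R : ℝ) (f : Fin n → ℂ → ℂ),
    0 < R → BA K (ball b R) f → Cor δ (ball b R) f → Sol C (ball b R) f := by
  set L : ℝ := 2 * |K| + 1 with hL
  have hL0 : 0 < L := by positivity
  set r : ℝ := min 1 (δ / (2 * L)) with hrdef
  have hr0 : 0 < r := lt_min one_pos (by positivity)
  have hr1 : r ≤ 1 := min_le_left _ _
  have hrL : L * r ≤ δ / 2 := by
    have h1 : r ≤ δ / (2 * L) := min_le_right _ _
    calc L * r ≤ L * (δ / (2 * L)) := by gcongr
      _ = δ / 2 := by field_simp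
  obtain ⟨C, hC⟩ := hyp_one n (K := K) (M := 2 / δ) hr0 hr1
  refine ⟨C, fun b R f hR hf hcor => ?_⟩
  have hRn : (R : ℂ) ≠ 0 := by exact_mod_cast hR.ne'
  refine hC (ball b R) f (fun z => (z - b) / R) isOpen_ball hf ?_ ?_ ?_ ?_
  · exact ((differentiableOn_id.sub (differentiableOn_const b)).div_const _)
  · intro z _ w _ hzw
    have h2 : (z - b) / (R : ℂ) = (w - b) / (R : ℂ) := hzw
    rw [div_left_inj' hRn] at h2
    exact sub_left_injective h2
  · intro z hz
    have h2 : ‖z - b‖ < R := by simpa [dist_eq_norm] using hz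
    rw [norm_div, Complex.norm_real, Real.norm_of_nonneg hR.le]
    exact (div_lt_one hR).2 h2
  · intro a ha
    set c : ℂ := b + R * a with hc
    set ρ : ℝ := R * (1 - ‖a‖) with hρ
    have hρ0 : 0 < ρ := mul_pos hR (by linarith)
    have hsub : ball c ρ ⊆ ball b R := by
      intro z hz
      have h2 : ‖z - c‖ < ρ := by simpa [dist_eq_norm] using hz
      have h3 : z - b = (z - c) + R * a := by rw [hc]; ring
      have h4 : ‖z - b‖ ≤ ‖z - c‖ + R * ‖a‖ := by
        rw [h3]
        refine (norm_add_le _ _).trans ?_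
        rw [norm_mul, Complex.norm_real, Real.norm_of_nonneg hR.le]
      have h5 : ‖z - b‖ < R := by
        have : ρ = R - R * ‖a‖ := by rw [hρ]; ring
        linarith
      simpa [dist_eq_norm] using h5
    have hcb : c ∈ ball b R := hsub (mem_ball_self hρ0)
    obtain ⟨j, hj⟩ := hcor c hcb
    have hloc : ∀ z ∈ {z ∈ ball b R | ‖(z - b) / R - a‖ < r * (1 - ‖a‖)}, δ / 2 ≤ ‖f j z‖ := by
      rintro z ⟨hz, hz1⟩
      have h1 : (z - b) / (R : ℂ) - a = (z - c) / R := by
        rw [hc]; field_simp; ring
      have h2 : ‖z - c‖ < r * ρ := by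
        rw [h1, norm_div, Complex.norm_real, Real.norm_of_nonneg hR.le, div_lt_iff₀ hR] at hz1
        calc ‖z - c‖ < r * (1 - ‖a‖) * R := hz1
          _ = r * ρ := by rw [hρ]; ring
      have h3 : ‖z - c‖ < ρ := by
        refine h2.trans_le ?_
        calc r * ρ ≤ 1 * ρ := by gcongr
          _ = ρ := one_mul _
      have hzc : z ∈ ball c ρ := by simpa [dist_eq_norm] using h3
      have hmaps : MapsTo (f j) (ball c ρ) (ball (f j c) L) := by
        intro w hw
        have h4 := (hf j).2 w (hsub hw)
        have h5 := (hf j).2 c hcb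
        have h6 : ‖f j w - f j c‖ ≤ ‖f j w‖ + ‖f j c‖ := norm_sub_le _ _
        have h7 : K ≤ |K| := le_abs_self K
        have h8 : ‖f j w - f j c‖ < L := by rw [hL]; linarith
        simpa [dist_eq_norm] using h8
      have h4 := Complex.dist_le_div_mul_dist_of_mapsTo_ball ((hf j).1.mono hsub) (hmaps.mono_right ball_subset_closedBall) hzc
      rw [dist_eq_norm, dist_eq_norm] at h4
      have h5 : L / ρ * ‖z - c‖ ≤ δ / 2 := by
        calc L / ρ * ‖z - c‖ ≤ L / ρ * (r * ρ) := by gcongr
          _ = L * r := by field_simp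
          _ ≤ δ / 2 := hrL
      have h6 : ‖f j c‖ ≤ ‖f j z‖ + ‖f j z - f j c‖ := by
        have := norm_sub_le (f j z) (f j z - f j c)
        simpa using this
      linarith
    have hsub2 : {z ∈ ball b R | ‖(z - b) / R - a‖ < r * (1 - ‖a‖)} ⊆ ball b R := fun z hz => hz.1
    refine ⟨fun i z => if i = j then (f j z)⁻¹ else 0, fun i => ⟨?_, ?_⟩, ?_⟩
    · by_cases hi : i = j
      · simp only [hi, if_true]
        refine ((hf j).1.mono hsub2).inv ?_
        intro z hz h0
        have := hloc z hz
        rw [h0, norm_zero] at this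
        linarith
      · simp only [hi, if_false]
        exact differentiableOn_const 0
    · intro z hz
      by_cases hi : i = j
      · simp only [hi, if_true]
        rw [norm_inv]
        have h1 := hloc z hz
        calc ‖f j z‖⁻¹ ≤ (δ / 2)⁻¹ := inv_anti₀ (by positivity) h1
          _ = 2 / δ := by rw [inv_div]
      · simp only [hi, if_false, norm_zero]
        positivity
    · intro z hz
      have h1 := hloc z hz
      have h0 : f j z ≠ 0 := by
        intro h0
        rw [h0, norm_zero] at h1
        linarith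
      simp [h0]

end Pool.Agent.Work.MP_2cf110_an.Hyp

end
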