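import Pool.Agent.Work.MP_2cf110_an.Hyp.CorH3
import Pool.Agent.Work.MP_2cf110_an.Hyp.CorB

/-! # Uniform corona theorem for a disc intersected with k holes

Induction on k.  k = 0: corB.  k + 1: hyp_one with V = ball b R ∩ ⋂ Ω l, Φ z = (z - b)/R, r = 1/20: the local set is
V ∩ ball (b + R a) ((R/20)(1 - |a|)) and ball (b + R a) (10 (R/20)(1-|a|)) ⊆ ball b R: corH_step.  (If K ≤ 0 replace K by max K 1, BA.le.) -/

open MeasureTheory Complex Set Metric Filter
open scoped Topology ContDiff ComplexConjugate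

noncomputable section

namespace Pool.Agent.Work.MP_2cf110_an.Hyp

open QC (dz dzb Test Cau)

theorem corH (n k : ℕ) {K δ : ℝ} (hδ : 0 < δ) : ∃ C : ℝ, CH n k K δ C := by
  induction k generalizing K with
  | zero =>
    obtain ⟨C, hC⟩ := corB n (K := K) hδ
    refine ⟨C, ?_⟩
    intro b R Ω f hR _ hf hc
    have h1 : ball b R ∩ ⋂ i, Ω i = ball b R := by
      rw [iInter_of_empty, inter_univ]
    rw [h1] at hf hc ⊢
    exact hC b R f hR hf hc
  | succ k ih =>
    have hK1 : 0 < max K 1 := lt_of_lt_of_le one_pos (le_max_right _ _)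
    obtain ⟨C₀, hC₀⟩ := ih (K := max K 1)
    obtain ⟨C₁, hC₁⟩ := corH_step hK1 hδ hC₀
    obtain ⟨C, hC⟩ := hyp_one n (r := 1 / 20) (K := max K 1) (M := C₁) (by norm_num) (by norm_num)
    refine ⟨C, ?_⟩
    intro b R Ω f hR hΩ hf hc
    have hf' : BA (max K 1) (ball b R ∩ ⋂ i, Ω i) f := hf.le (le_max_left _ _)
    have hRc : (R : ℂ) ≠ 0 := by exact_mod_cast hR.ne'
    have hV : IsOpen (ball b R ∩ ⋂ i, Ω i) := by
      refine isOpen_ball.inter (isOpen_iInter_of_finite fun i => ?_)
      obtain ⟨Φ, hΦ⟩ := hΩ i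
      exact hΦ.open_
    refine hC _ f (fun z => (z - b) / R) hV hf' ?_ ?_ ?_ ?_
    · exact ((differentiable_id.sub_const b).div_const (R : ℂ)).differentiableOn
    · intro z _ w _ he
      have h1 : (z - b) / R = (w - b) / R := he
      rw [div_left_inj' hRc] at h1
      exact sub_left_inj.1 h1
    · intro z hz
      have h1 := hz.1
      rw [mem_ball, dist_eq_norm] at h1
      rw [norm_div, Complex.norm_real, Real.norm_of_nonneg hR.le, div_lt_one hR]
      exact h1
    · intro a ha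
      have h1a : 0 < 1 - ‖a‖ := by linarith
      obtain ⟨R', hR'⟩ : ∃ R', R' = R / 20 * (1 - ‖a‖) := ⟨_, rfl⟩
      have hR'0 : 0 < R' := by rw [hR']; positivity
      have hsub : ball (b + R * a) (10 * R') ∩ ⋂ i, Ω i ⊆ ball b R ∩ ⋂ i, Ω i := by
        refine inter_subset_inter_left _ ?_
        intro z hz
        rw [mem_ball, dist_eq_norm] at hz ⊢
        have h2 : z - b = (z - (b + R * a)) + R * a := by ring
        have h3 : ‖(R : ℂ) * a‖ = R * ‖a‖ := by
          rw [norm_mul, Complex.norm_real, Real.norm_of_nonneg hR.le]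
        calc ‖z - b‖ = ‖(z - (b + R * a)) + R * a‖ := by rw [← h2]
          _ ≤ ‖z - (b + R * a)‖ + ‖(R : ℂ) * a‖ := norm_add_le _ _
          _ < 10 * R' + R * ‖a‖ := by rw [h3]; linarith
          _ ≤ R := by rw [hR']; nlinarith [norm_nonneg a]
      have h4 := hC₁ (b + R * a) R' Ω f hR'0 hΩ (hf'.mono hsub) (hc.mono hsub)
      refine h4.mono ?_
      rintro z ⟨hz, hz2⟩
      refine ⟨?_, hz.2⟩
      rw [mem_ball, dist_eq_norm]
      have h5 : z - (b + R * a) = R * ((z - b) / R - a) := by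
        field_simp
        ring
      rw [h5, norm_mul, Complex.norm_real, Real.norm_of_nonneg hR.le, hR']
      calc R * ‖(z - b) / R - a‖ < R * (1 / 20 * (1 - ‖a‖)) := mul_lt_mul_of_pos_left hz2 hR
        _ = R / 20 * (1 - ‖a‖) := by ring

end Pool.Agent.Work.MP_2cf110_an.Hyp

end
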