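import Pool.Agent.Work.MP_2cf110_an.Hyp.ForA

/-! # Solutions on quotients -/

open MeasureTheory Complex Set Metric Filter
open scoped Topology ContDiff ComplexConjugate

noncomputable section

namespace Pool.Agent.Work.MP_2cf110_an.Hyp

open QC (dz dzb Test Cau)

theorem forelli_sol {n : ℕ} {B C : ℝ} {V' V : Set ℂ} {P F : ℂ → ℂ} {f : Fin n → ℂ → ℂ}
    (h : Forelli B V' V P F) (hs : Sol C V' fun j w => f j (P w)) : Sol (B * max C 0) V f := by
  obtain ⟨g, hg, hsum⟩ := hs
  have hC0 : (0 : ℝ) ≤ max C 0 := le_max_right _ _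
  have hle : ∀ j, ∀ w ∈ V', ‖g j w‖ ≤ max C 0 := fun j w hw =>
    ((hg j).2 w hw).trans (le_max_left _ _)
  refine ⟨fun j z => ∑' w : {w // w ∈ V' ∧ P w = z}, F w * g j w, fun j => ⟨?_, ?_⟩, ?_⟩
  · exact forelli_holo h hC0 (hg j).1 (hle j)
  · intro z hz
    exact (forelli_le h hC0 (hle j) z hz).2
  · intro z hz
    have hS : ∀ j, Summable (fun w : {w // w ∈ V' ∧ P w = z} => F w * g j w) := fun j =>
      (forelli_le h hC0 (hle j) z hz).1
    have h1 : ∀ j, f j z * ∑' w : {w // w ∈ V' ∧ P w = z}, F w * g j w =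
        ∑' w : {w // w ∈ V' ∧ P w = z}, f j z * (F w * g j w) := fun j =>
      (tsum_mul_left).symm
    simp only [h1]
    rw [← Summable.tsum_finsetSum fun j _ => (hS j).mul_left (f j z)]
    rw [← (h.sum_one z hz).tsum_eq]
    refine tsum_congr fun w => ?_
    have h2 := hsum w w.2.1
    simp only [w.2.2] at h2
    calc ∑ j, f j z * (F w * g j w) = F w * ∑ j, f j z * g j w := by
          rw [Finset.mul_sum]
          exact Finset.sum_congr rfl fun j _ => by ring
      _ = F w := by rw [h2, mul_one]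

end Pool.Agent.Work.MP_2cf110_an.Hyp

end
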