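import Pool.Agent.Work.MP_2cf110_an.Hyp.Pu

/-! # Construction of the data

s = r/64 ≤ 1/64.  For each centre a choose the local solution g^a on V ∩ ball a (r Im a) ⊇ V ∩ ball a (16 s Im a); g c j z = g^a_j z if z is in
V ∩ ball a (16 s Im a) for the (unique) a in cent c, 0 otherwise.  Measurable: countable union of disjoint measurable sets, continuous
on each.  loc: if X c z ≠ 0, z in ball a (2R_a), take a' in cent c with z in ball a' (R_a'), then ball a (10 R_a) ⊆ ball a' (16 R_a')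
(R_a (1 - 2s) ≤ R_a' (1 + s)). -/

open MeasureTheory Complex Set Metric Filter
open scoped Topology ContDiff ComplexConjugate

noncomputable section

namespace Pool.Agent.Work.MP_2cf110_an.Hyp

open QC (dz dzb Test Cau)

private theorem glue_meas {ι : Type*} (A : Set ι) (U : ι → Set ℂ) (hU : ∀ a ∈ A, IsOpen (U a))
    (G : ι → ℂ → ℂ) (hG : ∀ a ∈ A, ContinuousOn (G a) (U a)) (h : ℂ → ℂ)
    (h1 : ∀ a ∈ A, ∀ z ∈ U a, h z = G a z) (h0 : ∀ z, (∀ a ∈ A, z ∉ U a) → h z = 0) :
    Measurable h := by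
  refine measurable_of_isOpen fun T hT => ?_
  have e1 : h ⁻¹' T = (⋃ a ∈ A, U a ∩ G a ⁻¹' T) ∪ ((⋃ a ∈ A, U a)ᶜ ∩ {z | (0 : ℂ) ∈ T}) := by
    ext z
    simp only [mem_preimage, mem_union, mem_iUnion, mem_inter_iff, mem_compl_iff, mem_setOf_eq,
      exists_prop]
    constructor
    · intro hz
      by_cases hz1 : ∃ a ∈ A, z ∈ U a
      · obtain ⟨a, ha, hza⟩ := hz1
        left
        exact ⟨a, ha, hza, by rw [← h1 a ha z hza]; exact hz⟩
      · right
        refine ⟨?_, ?_⟩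
        · rintro ⟨a, ha, hza⟩
          exact hz1 ⟨a, ha, hza⟩
        · rw [← h0 z (fun a ha hza => hz1 ⟨a, ha, hza⟩)]
          exact hz
    · rintro (⟨a, ha, hza, hz⟩ | ⟨hz1, hz⟩)
      · rw [h1 a ha z hza]
        exact hz
      · rw [h0 z (fun a ha hza => hz1 ⟨a, ha, hza⟩)]
        exact hz
  rw [e1]
  have o1 : IsOpen (⋃ a ∈ A, U a ∩ G a ⁻¹' T) :=
    isOpen_biUnion fun a ha => (hG a ha).isOpen_inter_preimage (hU a ha) hT
  have o2 : IsOpen (⋃ a ∈ A, U a) := isOpen_biUnion fun a ha => hU a ha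
  refine o1.measurableSet.union (o2.measurableSet.compl.inter ?_)
  exact MeasurableSet.const _

theorem data_exists (n : ℕ) {r K M : ℝ} (hr : 0 < r) (hr1 : r ≤ 1) :
    ∃ (L : ℕ) (K' : ℝ), 1 ≤ K' ∧ ∀ (V : Set ℂ) (f : Fin n → ℂ → ℂ), IsOpen V → V ⊆ Hp →
    (∀ j, DifferentiableOn ℂ (f j) V) → (∀ j, ∀ z ∈ V, ‖f j z‖ ≤ K) →
    (∀ a ∈ Hp, ∃ g : Fin n → ℂ → ℂ, (∀ j, DifferentiableOn ℂ (g j) (V ∩ ball a (r * a.im))) ∧
      (∀ j, ∀ z ∈ V ∩ ball a (r * a.im), ‖g j z‖ ≤ M) ∧
      ∀ z ∈ V ∩ ball a (r * a.im), ∑ j, f j z * g j z = 1) →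
    ∃ (X : Fin L → ℂ → ℂ) (g : Fin L → Fin n → ℂ → ℂ), Data (r / 64) K' V f X g := by
  classical
  have hs : 0 < r / 64 := by positivity
  have hs1 : r / 64 ≤ 1 / 64 := by linarith
  obtain ⟨L, C, X, cent, hC, -, hcH, hdis, hsup, hXs, hXl, hXsum, hXd⟩ := pu hs hs1
  refine ⟨L, max 1 (max K (max M C)), le_max_left _ _, ?_⟩
  intro V f hV hVH hf hfK hloc
  have hK1 : K ≤ max 1 (max K (max M C)) := (le_max_left _ _).trans (le_max_right _ _)
  have hM1 : M ≤ max 1 (max K (max M C)) :=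
    (le_max_left _ _).trans ((le_max_right _ _).trans (le_max_right _ _))
  have hC1 : C ≤ max 1 (max K (max M C)) :=
    (le_max_right _ _).trans ((le_max_right _ _).trans (le_max_right _ _))
  have h01 : (0 : ℝ) ≤ max 1 (max K (max M C)) := zero_le_one.trans (le_max_left _ _)
  choose! G hGd hGM hGs using hloc
  set s : ℝ := r / 64 with hsdef
  let U : ℂ → Set ℂ := fun a => V ∩ ball a (16 * (s * a.im))
  have hsub : ∀ a ∈ Hp, U a ⊆ V ∩ ball a (r * a.im) := by
    intro a ha z hz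
    refine ⟨hz.1, ball_subset_ball ?_ hz.2⟩
    have ha' : 0 < a.im := ha
    rw [hsdef]
    have : 0 < r * a.im := mul_pos hr ha'
    nlinarith
  have hUo : ∀ a, IsOpen (U a) := fun a => hV.inter isOpen_ball
  let g : Fin L → Fin n → ℂ → ℂ := fun c j z =>
    if h : ∃ a, a ∈ cent c ∧ z ∈ U a then G h.choose j z else 0
  have hg1 : ∀ c j, ∀ a ∈ cent c, ∀ z ∈ U a, g c j z = G a j z := by
    intro c j a ha z hz
    have h : ∃ a, a ∈ cent c ∧ z ∈ U a := ⟨a, ha, hz⟩
    have h2 : g c j z = G h.choose j z := dif_pos h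
    have h3 : h.choose = a := by
      by_contra hne
      exact disjoint_left.1 (hdis c _ h.choose_spec.1 a ha hne) h.choose_spec.2.2 hz.2
    rw [h2, h3]
  have hg0 : ∀ c j z, (∀ a ∈ cent c, z ∉ U a) → g c j z = 0 := by
    intro c j z hz
    refine dif_neg ?_
    rintro ⟨a, ha, hza⟩
    exact hz a ha hza
  refine ⟨X, g, ?_⟩
  refine ⟨hV, hVH, hf, fun j z hz => (hfK j z hz).trans hK1, ?_, ?_, ?_, hXs, hXl, hXsum, ?_⟩
  · intro c j
    refine glue_meas (cent c) U (fun a _ => hUo a) (fun a => G a j) ?_ _ ?_ ?_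
    · intro a ha
      exact ((hGd a (hcH c ha) j).mono (hsub a (hcH c ha))).continuousOn
    · intro a ha z hz
      rw [indicator_of_mem hz.1]
      exact hg1 c j a ha z hz
    · intro z hz
      by_cases hzV : z ∈ V
      · rw [indicator_of_mem hzV]
        exact hg0 c j z hz
      · exact indicator_of_notMem hzV _
  · intro c j z
    by_cases h : ∃ a ∈ cent c, z ∈ U a
    · obtain ⟨a, ha, hza⟩ := h
      rw [hg1 c j a ha z hza]
      exact (hGM a (hcH c ha) j z (hsub a (hcH c ha) hza)).trans hM1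
    · rw [hg0 c j z (fun a ha hza => h ⟨a, ha, hza⟩), norm_zero]
      exact h01
  · intro a ha i hz
    obtain ⟨z, hza, hXz⟩ := hz
    have ha' : 0 < a.im := ha
    have hza' : ‖z - a‖ < 2 * (s * a.im) := mem_ball_iff_norm.1 hza
    have him : |z.im - a.im| ≤ ‖z - a‖ := by
      have := Complex.abs_im_le_norm (z - a)
      rwa [Complex.sub_im] at this
    have him' := abs_le.1 him
    have hsa : s * a.im ≤ 1 / 64 * a.im := mul_le_mul_of_nonneg_right hs1 ha'.le
    have hzim : 0 < z.im := by nlinarith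
    obtain ⟨b, hb, hzb⟩ := hsup i z hzim hXz
    have hb' : 0 < b.im := hcH i hb
    have hzb' : ‖z - b‖ < s * b.im := mem_ball_iff_norm.1 hzb
    have hbim : |z.im - b.im| ≤ ‖z - b‖ := by
      have := Complex.abs_im_le_norm (z - b)
      rwa [Complex.sub_im] at this
    have hbim' := abs_le.1 hbim
    have hsb : s * b.im ≤ 1 / 64 * b.im := mul_le_mul_of_nonneg_right hs1 hb'.le
    have hab : a.im * 62 ≤ b.im * 65 := by nlinarith
    have hab' : (s * a.im) * 62 ≤ (s * b.im) * 65 := by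
      have := mul_le_mul_of_nonneg_left hab hs.le
      linarith
    have hsub2 : V ∩ ball a (10 * (s * a.im)) ⊆ U b := by
      intro w hw
      refine ⟨hw.1, ?_⟩
      have hw2 : dist w a < 10 * (s * a.im) := hw.2
      rw [mem_ball]
      have t1 : dist w b ≤ dist w a + dist a z + dist z b := dist_triangle4 w a z b
      have t2 : dist a z < 2 * (s * a.im) := by rw [dist_comm]; exact hza
      have t3 : dist z b < s * b.im := hzb
      have hsb0 : 0 < s * b.im := mul_pos hs hb'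
      linarith
    refine ⟨?_, ?_⟩
    · intro j
      refine ((hGd b (hcH i hb) j).mono (hsub2.trans (hsub b (hcH i hb)))).congr ?_
      intro w hw
      exact hg1 i j b hb w (hsub2 hw)
    · intro w hw
      rw [← hGs b (hcH i hb) w (hsub b (hcH i hb) (hsub2 hw))]
      refine Finset.sum_congr rfl fun j _ => ?_
      rw [hg1 i j b hb w (hsub2 hw)]
  · intro i z hz
    refine (hXd i z hz).trans ?_
    exact div_le_div_of_nonneg_right hC1 (le_of_lt hz)

end Pool.Agent.Work.MP_2cf110_an.Hyp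

end
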