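import Pool.Agent.Work.MP_2cf110_an.Hyp.HB
import Pool.Agent.Work.MP_217185_an.Weyl

/-! # From the estimate to the solution

u p l from hb for ω_pl; u' p l = (u p l - u l p)/2 solves the same equation (ω antisymmetric) and is antisymmetric.  g_j = Ĝ_j + Σ_l f_l u'_jl:
for φ in Test V: ∫ g_j dzb φ = -∫ dzb Ĝ_j φ - Σ_l ∫ ω_jl f_l φ (f_l φ is a test function in V, dzb (f_l φ) = f_l dzb φ) and
Σ_l f_l ω_jl = Ĝ_j Σ f_l dzb Ĝ_l - dzb Ĝ_j = - dzb Ĝ_j.  QC.weyl: g_j = an analytic function a.e. on V; bound and Bezout equation hold a.e., hence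
everywhere on V by continuity (an open nonempty set has positive measure). -/

open MeasureTheory Complex Set Metric Filter
open scoped Topology ContDiff ComplexConjugate

noncomputable section

namespace Pool.Agent.Work.MP_2cf110_an.Hyp

open QC (dz dzb Test Cau)

private theorem fin_test {V : Set ℂ} (hV : IsOpen V) {f φ : ℂ → ℂ} (hf : ContDiffOn ℝ ∞ f V)
    (hφ : Test V φ) : Test V (fun z => f z * φ z) := by
  have hts : tsupport (fun z => f z * φ z) ⊆ tsupport φ :=
    closure_mono (Function.support_mul_subset_right _ _)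
  refine ⟨?_, hφ.cpt.mul_left, hts.trans hφ.sub⟩
  rw [contDiff_iff_contDiffAt]
  intro z
  by_cases hz : z ∈ tsupport φ
  · exact (hf.contDiffAt (hV.mem_nhds (hφ.sub hz))).mul hφ.smooth.contDiffAt
  · have h0 : (fun z => f z * φ z) =ᶠ[𝓝 z] fun _ => 0 := by
      have h1 : (tsupport φ)ᶜ ∈ 𝓝 z := (isClosed_tsupport φ).isOpen_compl.mem_nhds hz
      filter_upwards [h1] with x hx
      rw [image_eq_zero_of_notMem_tsupport hx, mul_zero]
    exact contDiffAt_const.congr_of_eventuallyEq h0

private theorem fin_int {V : Set ℂ} (hV : IsOpen V) {f φ : ℂ → ℂ} (hf : LocallyIntegrableOn f V)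
    (hφ : Test V φ) : Integrable (fun z => f z * φ z) := by
  have h1 : IntegrableOn f (tsupport φ) := hf.integrableOn_compact_subset hφ.sub hφ.cpt
  obtain ⟨C, hC⟩ := hφ.smooth.continuous.bounded_above_of_compact_support hφ.cpt
  have h2 : IntegrableOn (fun z => f z * φ z) (tsupport φ) :=
    Integrable.mul_bdd (c := C) h1 hφ.smooth.continuous.aestronglyMeasurable
      (Eventually.of_forall hC)
  rw [← integrableOn_univ]
  refine IntegrableOn.of_forall_sdiff_eq_zero h2 MeasurableSet.univ ?_
  intro z hz
  rw [image_eq_zero_of_notMem_tsupport hz.2, mul_zero]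

private theorem fin_set {V : Set ℂ} (f : ℂ → ℂ) {φ : ℂ → ℂ} (hφ : Test V φ) :
    ∫ z in V, f z * φ z = ∫ z, f z * φ z := by
  refine setIntegral_eq_integral_of_forall_compl_eq_zero fun z hz => ?_
  rw [image_eq_zero_of_notMem_tsupport (fun h => hz (hφ.sub h)), mul_zero]

private theorem fin_ae {V : Set ℂ} (hV : IsOpen V) {p : ℂ → ℝ} (hp : ContinuousOn p V)
    (h : ∀ᵐ z ∂(volume.restrict V), p z ≤ 0) : ∀ z ∈ V, p z ≤ 0 := by
  intro z hz
  by_contra hc
  rw [not_le] at hc
  have h1 : {x | x ∈ V ∧ 0 < p x} ∈ 𝓝 z := by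
    have h2 : ∀ᶠ x in 𝓝 z, 0 < p x :=
      (hp.continuousAt (hV.mem_nhds hz)).eventually (lt_mem_nhds hc)
    filter_upwards [h2, hV.mem_nhds hz] with x h3 h4 using ⟨h4, h3⟩
  have h2 : 0 < volume {x | x ∈ V ∧ 0 < p x} := Measure.measure_pos_of_mem_nhds _ h1
  have h3 : volume {x | x ∈ V ∧ 0 < p x} = 0 := by
    rw [ae_restrict_iff' hV.measurableSet] at h
    rw [ae_iff] at h
    refine measure_mono_null ?_ h
    intro x hx
    simp only [mem_ofPred_eq, not_forall, not_le] at hx ⊢
    exact ⟨hx.1, hx.2⟩
  exact absurd h3 h2.ne'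

theorem finish {n : ℕ} {V : Set ℂ} (hV : IsOpen V) {f G : Fin n → ℂ → ℂ} {K C₁ C₂ : ℝ}
    (hK : 0 ≤ K) (hC₂ : 0 ≤ C₂)
    (hf : ∀ j, DifferentiableOn ℂ (f j) V) (hfK : ∀ j, ∀ z ∈ V, ‖f j z‖ ≤ K)
    (hG : ∀ j, ContDiffOn ℝ ∞ (G j) V) (hG1 : ∀ j, ∀ z ∈ V, ‖G j z‖ ≤ C₁)
    (hfG : ∀ z ∈ V, ∑ j, f j z * G j z = 1)
    (h : ∀ p l, ∀ k, Test V k →
      ‖∫ z in V, (G p z * dzb (G l) z - G l z * dzb (G p) z) * k z‖ ≤ C₂ * ∫ z, ‖dzb k z‖) :
    ∃ g : Fin n → ℂ → ℂ, (∀ j, DifferentiableOn ℂ (g j) V) ∧
      (∀ j, ∀ z ∈ V, ‖g j z‖ ≤ C₁ + n * (K * C₂)) ∧ ∀ z ∈ V, ∑ j, f j z * g j z = 1 := by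
  have hGc : ∀ j, ContinuousOn (G j) V := fun j => (hG j).continuousOn
  have hG1' : ∀ j, ContDiffOn ℝ 1 (G j) V := fun j => (hG j).of_le (by simp)
  have hfr : ∀ j, ∀ z ∈ V, DifferentiableAt ℂ (f j) z := fun j z hz =>
    (hf j).differentiableAt (hV.mem_nhds hz)
  have hfc : ∀ j, ContDiffOn ℝ ∞ (f j) V := fun j => by
    have h1 : ContDiffOn ℂ ∞ (f j) V := (hf j).contDiffOn hV
    exact h1.restrict_scalars ℝ
  have hGd : ∀ j, ∀ z ∈ V, DifferentiableAt ℝ (G j) z := fun j z hz =>
    ((hG1' j).differentiableOn (by simp)).differentiableAt (hV.mem_nhds hz)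
  have hDc : ∀ j, ContinuousOn (dzb (G j)) V := fun j => by
    have h1 : ContinuousOn (fderiv ℝ (G j)) V := (hG1' j).continuousOn_fderiv_of_isOpen hV le_rfl
    have h2 : ∀ v : ℂ, ContinuousOn (fun z => fderiv ℝ (G j) z v) V := fun v =>
      h1.clm_apply continuousOn_const
    exact ((h2 1).add (continuousOn_const.mul (h2 I))).div_const 2
  have hwc : ∀ p l, ContinuousOn (fun z => G p z * dzb (G l) z - G l z * dzb (G p) z) V :=
    fun p l => ((hGc p).mul (hDc l)).sub ((hGc l).mul (hDc p))
  have hu : ∀ p l, ∃ u : ℂ → ℂ, Measurable u ∧ (∀ z, ‖u z‖ ≤ C₂) ∧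
      ∀ k, Test V k → ∫ z in V, u z * dzb k z =
        - ∫ z in V, (G p z * dzb (G l) z - G l z * dzb (G p) z) * k z :=
    fun p l => hb hV hC₂ (hwc p l) (h p l)
  choose u um ub ui using hu
  set v : Fin n → Fin n → ℂ → ℂ := fun p l z => (u p l z - u l p z) / 2 with hv
  have vm : ∀ p l, Measurable (v p l) := fun p l => ((um p l).sub (um l p)).div_const 2
  have vb : ∀ p l z, ‖v p l z‖ ≤ C₂ := fun p l z => by
    rw [hv]
    simp only
    rw [norm_div, Complex.norm_ofNat, div_le_iff₀ (by norm_num : (0:ℝ) < 2)]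
    have := norm_sub_le (u p l z) (u l p z)
    linarith [ub p l z, ub l p z]
  have va : ∀ p l z, v p l z = - v l p z := fun p l z => by
    simp only [hv]; ring
  have vloc : ∀ p l, LocallyIntegrableOn (v p l) V := fun p l => by
    have h1 : LocallyIntegrable (v p l) := by
      intro x
      refine ⟨ball x 1, ball_mem_nhds x one_pos, ?_⟩
      exact Measure.integrableOn_of_bounded measure_ball_lt_top.ne
        (vm p l).aestronglyMeasurable (Eventually.of_forall (vb p l))
    exact h1.locallyIntegrableOn V
  have vi : ∀ p l, ∀ k, Test V k → ∫ z, v p l z * dzb k z =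
      - ∫ z, (G p z * dzb (G l) z - G l z * dzb (G p) z) * k z := by
    intro p l k hk
    have hk' : Test V (dzb k) := (QC.Test.dz hk).2
    have hul : ∀ p l, LocallyIntegrableOn (u p l) V := fun p l => by
      have h1 : LocallyIntegrable (u p l) := by
        intro x
        refine ⟨ball x 1, ball_mem_nhds x one_pos, ?_⟩
        exact Measure.integrableOn_of_bounded measure_ball_lt_top.ne
          (um p l).aestronglyMeasurable (Eventually.of_forall (ub p l))
      exact h1.locallyIntegrableOn V
    have e1 : ∀ p l, ∫ z, u p l z * dzb k z =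
        - ∫ z, (G p z * dzb (G l) z - G l z * dzb (G p) z) * k z := fun p l => by
      rw [← fin_set _ hk', ← fin_set _ hk]
      exact ui p l k hk
    have e2 : ∫ z, v p l z * dzb k z =
        ((∫ z, u p l z * dzb k z) - ∫ z, u l p z * dzb k z) / 2 := by
      rw [← integral_sub (fin_int hV (hul p l) hk') (fin_int hV (hul l p) hk'), ← integral_div]
      refine integral_congr_ae (Eventually.of_forall fun z => ?_)
      simp only [hv]; ring
    have e3 : ∫ z, (G l z * dzb (G p) z - G p z * dzb (G l) z) * k z =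
        - ∫ z, (G p z * dzb (G l) z - G l z * dzb (G p) z) * k z := by
      rw [← integral_neg]
      refine integral_congr_ae (Eventually.of_forall fun z => ?_)
      simp only; ring
    rw [e2, e1, e1, e3]; ring
  set g : Fin n → ℂ → ℂ := fun j z => G j z + ∑ l, f l z * v j l z with hg
  have hfvloc : ∀ j l, LocallyIntegrableOn (fun z => f l z * v j l z) V := fun j l =>
    (vloc j l).continuousOn_mul (hfc l).continuousOn hV.isLocallyClosed
  have hGloc : ∀ j, LocallyIntegrableOn (G j) V := fun j =>
    (hGc j).locallyIntegrableOn hV.measurableSet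
  have hgloc : ∀ j, LocallyIntegrableOn (g j) V := fun j => by
    have h1 : LocallyIntegrableOn (fun z => ∑ l, f l z * v j l z) V := by
      intro x hx
      choose! S hS hSi using fun l => hfvloc j l x hx
      have h2 : ∀ l, IntegrableAtFilter (fun z => f l z * v j l z) (𝓝[V] x) volume := fun l =>
        hfvloc j l x hx
      have h3 : ∀ s : Finset (Fin n),
          IntegrableAtFilter (fun z => ∑ l ∈ s, f l z * v j l z) (𝓝[V] x) volume := by
        intro s
        classical
        induction s using Finset.induction_on with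
        | empty =>
          simp only [Finset.sum_empty]
          exact ⟨V ∩ ball x 1, inter_mem self_mem_nhdsWithin
            (mem_nhdsWithin_of_mem_nhds (ball_mem_nhds x one_pos)), integrableOn_zero⟩
        | insert a s ha ih =>
          simp only [Finset.sum_insert ha]
          exact (h2 a).add ih
      exact h3 Finset.univ
    exact (hGloc j).add h1
  have hgw : ∀ j, ∀ φ, Test V φ → ∫ z, g j z * dzb φ z = 0 := by
    intro j φ hφ
    have hφ' : Test V (dzb φ) := (QC.Test.dz hφ).2
    have e0 : ∀ l, dzb (fun z => f l z * φ z) = fun z => f l z * dzb φ z := by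
      intro l
      funext z
      by_cases hz : z ∈ V
      · have h1 := (QC.dz_mul ((hfr l z hz).restrictScalars ℝ)
          (hφ.smooth.differentiable (by simp) z)).2
        rw [h1, (QC.dz_of_holo (hfr l z hz)).2]
        ring
      · have h1 : z ∉ tsupport (fun z => f l z * φ z) := fun h2 =>
          hz ((fin_test hV (hfc l) hφ).sub h2)
        have h2 : z ∉ tsupport φ := fun h2 => hz (hφ.sub h2)
        have h3 : Test V (dzb (fun z => f l z * φ z)) :=
          (QC.Test.dz (fin_test hV (hfc l) hφ)).2
        rw [image_eq_zero_of_notMem_tsupport (fun h4 => hz (h3.sub h4)),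
          image_eq_zero_of_notMem_tsupport (fun h4 => hz (hφ'.sub h4)), mul_zero]
    have e1 : ∫ z, G j z * dzb φ z = - ∫ z, dzb (G j) z * φ z :=
      (QC.integral_mul_dz hV (hG1' j) (hφ.smooth.of_le (by simp)) hφ.cpt hφ.sub).2
    have e2 : ∀ l, ∫ z, f l z * v j l z * dzb φ z =
        - ∫ z, f l z * (G j z * dzb (G l) z - G l z * dzb (G j) z) * φ z := by
      intro l
      have h1 := vi j l _ (fin_test hV (hfc l) hφ)
      rw [e0] at h1
      calc ∫ z, f l z * v j l z * dzb φ z = ∫ z, v j l z * (f l z * dzb φ z) := by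
            refine integral_congr_ae (Eventually.of_forall fun z => ?_)
            simp only; ring
        _ = _ := h1
        _ = _ := by
            congr 1
            refine integral_congr_ae (Eventually.of_forall fun z => ?_)
            simp only; ring
    have i1 : ∀ l, Integrable (fun z => f l z * v j l z * dzb φ z) := fun l =>
      fin_int hV (hfvloc j l) hφ'
    have i2 : Integrable (fun z => G j z * dzb φ z) := fin_int hV (hGloc j) hφ'
    have i3 : ∀ l, Integrable (fun z =>
        f l z * (G j z * dzb (G l) z - G l z * dzb (G j) z) * φ z) := fun l =>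
      fin_int hV (((hfc l).continuousOn.mul (hwc j l)).locallyIntegrableOn hV.measurableSet) hφ
    have e3 : ∫ z, g j z * dzb φ z = (∫ z, G j z * dzb φ z) +
        ∑ l, ∫ z, f l z * v j l z * dzb φ z := by
      rw [← integral_finsetSum _ fun l _ => i1 l,
        ← integral_add i2 (integrable_finsetSum _ fun l _ => i1 l)]
      refine integral_congr_ae (Eventually.of_forall fun z => ?_)
      simp only [hg, add_mul, Finset.sum_mul]
    have e4 : ∑ l, ∫ z, f l z * (G j z * dzb (G l) z - G l z * dzb (G j) z) * φ z =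
        - ∫ z, dzb (G j) z * φ z := by
      rw [← integral_finsetSum _ fun l _ => i3 l, ← integral_neg]
      refine integral_congr_ae (Eventually.of_forall fun z => ?_)
      simp only
      by_cases hz : z ∈ V
      · have h1 : ∑ l, f l z * dzb (G l) z = 0 := by
          have h2 : dzb (fun z => ∑ l, f l z * G l z) z = ∑ l, f l z * dzb (G l) z := by
            have h3 : ∀ s : Finset (Fin n), DifferentiableAt ℝ (fun z => ∑ l ∈ s, f l z * G l z) z ∧
                dzb (fun z => ∑ l ∈ s, f l z * G l z) z = ∑ l ∈ s, f l z * dzb (G l) z := by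
              intro s
              classical
              induction s using Finset.induction_on with
              | empty =>
                simp only [Finset.sum_empty]
                refine ⟨differentiableAt_const _, ?_⟩
                simp [dzb]
              | insert a s ha ih =>
                simp only [Finset.sum_insert ha]
                have h4 : DifferentiableAt ℝ (fun z => f a z * G a z) z :=
                  ((hfr a z hz).restrictScalars ℝ).mul (hGd a z hz)
                refine ⟨h4.add ih.1, ?_⟩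
                rw [(QC.dz_add h4 ih.1).2, ih.2,
                  (QC.dz_mul ((hfr a z hz).restrictScalars ℝ) (hGd a z hz)).2,
                  (QC.dz_of_holo (hfr a z hz)).2]
                ring
            exact (h3 Finset.univ).2
          have h3 : (fun z => ∑ l, f l z * G l z) =ᶠ[𝓝 z] fun _ => (1 : ℂ) := by
            filter_upwards [hV.mem_nhds hz] with x hx using hfG x hx
          rw [← h2]
          unfold dzb
          rw [h3.fderiv_eq]
          simp
        have h2 : ∑ l, f l z * (G j z * dzb (G l) z - G l z * dzb (G j) z) * φ z =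
            (G j z * (∑ l, f l z * dzb (G l) z) - dzb (G j) z * ∑ l, f l z * G l z) * φ z := by
          rw [Finset.mul_sum, Finset.mul_sum, ← Finset.sum_sub_distrib, Finset.sum_mul]
          refine Finset.sum_congr rfl fun l _ => ?_
          ring
        rw [h2, h1, hfG z hz]
        ring
      · have h1 : φ z = 0 := image_eq_zero_of_notMem_tsupport (fun h2 => hz (hφ.sub h2))
        simp [h1]
    rw [e3, e1, Finset.sum_congr rfl fun l _ => e2 l, Finset.sum_neg_distrib, e4]
    ring
  choose q qd qe using fun j => QC.weyl hV (hgloc j) (hgw j)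
  refine ⟨q, qd, fun j => ?_, ?_⟩
  · have h1 : ∀ z ∈ V, ‖q j z‖ - (C₁ + n * (K * C₂)) ≤ 0 := by
      refine fin_ae hV ((qd j).continuousOn.norm.sub continuousOn_const) ?_
      have h2 : ∀ᵐ z ∂(volume.restrict V), z ∈ V := ae_restrict_mem hV.measurableSet
      filter_upwards [qe j, h2] with z hz hzV
      rw [← hz]
      have h3 : ‖∑ l, f l z * v j l z‖ ≤ n * (K * C₂) := by
        calc ‖∑ l, f l z * v j l z‖ ≤ ∑ l : Fin n, ‖f l z * v j l z‖ := norm_sum_le _ _
          _ ≤ ∑ _l : Fin n, K * C₂ := by
              refine Finset.sum_le_sum fun l _ => ?_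
              rw [norm_mul]
              exact mul_le_mul (hfK l z hzV) (vb j l z) (norm_nonneg _) hK
          _ = n * (K * C₂) := by simp
      have h4 : ‖g j z‖ ≤ ‖G j z‖ + ‖∑ l, f l z * v j l z‖ := norm_add_le _ _
      linarith [hG1 j z hzV]
    intro z hz
    linarith [h1 z hz]
  · have h1 : ∀ z ∈ V, ‖∑ j, f j z * q j z - 1‖ ≤ 0 := by
      refine fin_ae hV ?_ ?_
      · refine ContinuousOn.norm (ContinuousOn.sub ?_ continuousOn_const)
        exact continuousOn_finsetSum _ fun j _ => (hf j).continuousOn.mul (qd j).continuousOn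
      have h2 : ∀ᵐ z ∂(volume.restrict V), z ∈ V := ae_restrict_mem hV.measurableSet
      have h3 : ∀ᵐ z ∂(volume.restrict V), ∀ j, g j z = q j z := ae_all_iff.2 qe
      filter_upwards [h3, h2] with z hz hzV
      have h4 : ∑ j, f j z * q j z = 1 := by
        have h5 : ∑ j, f j z * q j z = ∑ j, f j z * G j z + ∑ j, ∑ l, f j z * (f l z * v j l z) := by
          rw [← Finset.sum_add_distrib]
          refine Finset.sum_congr rfl fun j _ => ?_
          rw [← hz j, hg]
          simp only
          rw [mul_add, Finset.mul_sum]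
        have h6 : ∑ j, ∑ l, f j z * (f l z * v j l z) = 0 := by
          have h7 : ∑ j, ∑ l, f j z * (f l z * v j l z) =
              - ∑ j, ∑ l, f j z * (f l z * v j l z) := by
            conv_lhs => rw [Finset.sum_comm]
            rw [← Finset.sum_neg_distrib]
            refine Finset.sum_congr rfl fun j _ => ?_
            rw [← Finset.sum_neg_distrib]
            refine Finset.sum_congr rfl fun l _ => ?_
            rw [va l j z]; ring
          have h8 : (2 : ℂ) * ∑ j, ∑ l, f j z * (f l z * v j l z) = 0 := by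
            linear_combination h7
          exact (mul_eq_zero.1 h8).resolve_left two_ne_zero
        rw [h5, h6, hfG z hzV, add_zero]
      rw [h4]; simp
    intro z hz
    have := norm_le_zero_iff.1 (h1 z hz)
    exact sub_eq_zero.1 this

end Pool.Agent.Work.MP_2cf110_an.Hyp

end
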