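import Pool.Agent.Work.MP_2cf110_an.Hyp.Asm
import Pool.Agent.Work.MP_2cf110_an.Hyp.Fin
import Pool.Agent.Work.MP_2cf110_an.Hyp.DataE

/-! # Hyperbolic localization of the corona problem in the half plane -/

open MeasureTheory Complex Set Metric Filter
open scoped Topology ContDiff ComplexConjugate

noncomputable section

namespace Pool.Agent.Work.MP_2cf110_an.Hyp

open QC (dz dzb Test Cau)

theorem hyp_loc (n : ℕ) {r K M : ℝ} (hr : 0 < r) (hr1 : r ≤ 1) :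
    ∃ C : ℝ, ∀ (V : Set ℂ) (f : Fin n → ℂ → ℂ), IsOpen V → V ⊆ Hp →
    (∀ j, DifferentiableOn ℂ (f j) V) → (∀ j, ∀ z ∈ V, ‖f j z‖ ≤ K) →
    (∀ a ∈ Hp, ∃ g : Fin n → ℂ → ℂ, (∀ j, DifferentiableOn ℂ (g j) (V ∩ ball a (r * a.im))) ∧
      (∀ j, ∀ z ∈ V ∩ ball a (r * a.im), ‖g j z‖ ≤ M) ∧
      ∀ z ∈ V ∩ ball a (r * a.im), ∑ j, f j z * g j z = 1) →
    ∃ g : Fin n → ℂ → ℂ, (∀ j, DifferentiableOn ℂ (g j) V) ∧ (∀ j, ∀ z ∈ V, ‖g j z‖ ≤ C) ∧
      ∀ z ∈ V, ∑ j, f j z * g j z = 1 := by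
  obtain ⟨L, K', hK', hd⟩ := data_exists n (r := r) (K := K) (M := M) hr hr1
  have hs : 0 < r / 64 := by positivity
  have hs1 : r / 64 ≤ 1 / 64 := by linarith
  have hK0 : 0 ≤ K' := by linarith
  obtain ⟨c, C, hc, hC, ha⟩ := asm n L hs hs1 hK0
  obtain ⟨C₁, hC₁, hg⟩ := gh_facts (n := n) (L := L) hs hs1 hK0 hc
  refine ⟨C₁ + n * (K' * C), fun V f hV hVH hf hfK hloc => ?_⟩
  obtain ⟨X, g, D⟩ := hd V f hV hVH hf hfK hloc
  obtain ⟨g1, g2, g3, g4, g5⟩ := hg V f X g D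
  refine finish hV hK0 hC.le hf D.f_le g1 g4 g3 fun p l k hk => ?_
  have h1 := ha V f X g D p l k hk
  have h2 : (∫ z in V, (Gh (r / 64) c V f X g p z * dzb (Gh (r / 64) c V f X g l) z -
      Gh (r / 64) c V f X g l z * dzb (Gh (r / 64) c V f X g p) z) * k z) =
      ∫ z in V, om (r / 64) c V f X g p l z * k z := by
    refine setIntegral_congr_fun hV.measurableSet fun z hz => ?_
    simp only [om, g2 p z hz, g2 l z hz]
  rw [h2]
  exact h1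

end Pool.Agent.Work.MP_2cf110_an.Hyp

end
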