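import Pool.Agent.Work.MP_2cf110_an.Hyp.SolDef
import Pool.Agent.Work.MP_2cf110_an.Hyp.MainA
import Pool.Agent.Work.MP_2cf110_an.Loc

/-! # Hyperbolic localization along one injective coordinate

exists_inverse gives Ψ on Φ '' V.  Cayley map w = I (1 + u)/(1 - u) from the disc to Hp with inverse c(w) = (w - I)/(w + I).  V' = {w in Hp : c w in Φ '' V},
F j w = f j (Ψ (c w)), r' = r/2.  For a' in Hp, a = c a': if u in V', |u - a'| < r' Im a' then |c u - a| = 2|u - a'|/(|u + I||a' + I|) <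
(r'/(1 - r')) (1 - |a|) ≤ r (1 - |a|) since 1 - |a|² = 4 Im a'/|a' + I|².  hyp_loc for V', F; pull the solution back by z ↦ I (1 + Φ z)/(1 - Φ z). -/

open MeasureTheory Complex Set Metric Filter
open scoped Topology ContDiff ComplexConjugate

noncomputable section

namespace Pool.Agent.Work.MP_2cf110_an.Hyp

open QC (dz dzb Test Cau)

/-- the Cayley map from the half plane to the disc -/
private def cay (w : ℂ) : ℂ := (w - I) / (w + I)

/-- its inverse -/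
private def yac (u : ℂ) : ℂ := I * (1 + u) / (1 - u)

private theorem add_I_ne {w : ℂ} (hw : w ∈ Hp) : w + I ≠ 0 := by
  intro h
  have h1 : (w + I).im = 0 := by rw [h]; simp
  have h2 : 0 < w.im := hw
  simp at h1
  linarith

private theorem im_le_norm {w : ℂ} (hw : w ∈ Hp) : w.im ≤ ‖w + I‖ := by
  have h1 : |(w + I).im| ≤ ‖w + I‖ := abs_im_le_norm _
  have h2 : 0 < w.im := hw
  have h3 : (w + I).im = w.im + 1 := by simp
  rw [h3, abs_of_pos (by linarith)] at h1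
  linarith

private theorem cay_norm {w : ℂ} (hw : w ∈ Hp) :
    ‖cay w‖ < 1 ∧ 2 * w.im / ‖w + I‖ ^ 2 ≤ 1 - ‖cay w‖ := by
  have h2 : 0 < w.im := hw
  have hne := add_I_ne hw
  have hD : 0 < ‖w + I‖ := norm_pos_iff.2 hne
  have e1 : ‖w - I‖ ^ 2 = ‖w + I‖ ^ 2 - 4 * w.im := by
    rw [← normSq_eq_norm_sq, ← normSq_eq_norm_sq, normSq_apply, normSq_apply]
    simp
    ring
  have e2 : ‖cay w‖ ^ 2 = 1 - 4 * w.im / ‖w + I‖ ^ 2 := by
    rw [cay, norm_div, div_pow, e1]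
    field_simp
  have h0 : 0 ≤ ‖cay w‖ := norm_nonneg _
  have h4 : 0 < 4 * w.im / ‖w + I‖ ^ 2 := by positivity
  have h5 : ‖cay w‖ < 1 := by nlinarith
  refine ⟨h5, ?_⟩
  have h6 : 4 * w.im / ‖w + I‖ ^ 2 = 2 * (2 * w.im / ‖w + I‖ ^ 2) := by ring
  nlinarith

private theorem cay_yac {u : ℂ} (hu : ‖u‖ < 1) : yac u ∈ Hp ∧ cay (yac u) = u := by
  have hne : (1 : ℂ) - u ≠ 0 := by
    intro h
    have : u = 1 := by linear_combination -h
    rw [this] at hu
    simp at hu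
  have e : (yac u).im = (1 - ‖u‖ ^ 2) / ‖1 - u‖ ^ 2 := by
    rw [← normSq_eq_norm_sq, ← normSq_eq_norm_sq, yac, div_im, normSq_apply, normSq_apply]
    have : (1 - u).re * (1 - u).re + (1 - u).im * (1 - u).im ≠ 0 := by
      have := normSq_pos.2 hne
      rw [normSq_apply] at this
      exact this.ne'
    field_simp
    simp
    ring
  have h1 : 0 < ‖1 - u‖ := norm_pos_iff.2 hne
  have h2 : 0 < 1 - ‖u‖ ^ 2 := by
    have := norm_nonneg u
    nlinarith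
  have hH : yac u ∈ Hp := by
    change 0 < (yac u).im
    rw [e]
    positivity
  refine ⟨hH, ?_⟩
  have hne2 := add_I_ne hH
  rw [cay, div_eq_iff hne2, yac]
  field_simp
  ring

private theorem cay_dist {a w : ℂ} (ha : a ∈ Hp) (hw : w ∈ Hp) {r : ℝ} (hr : 0 < r) (hr1 : r ≤ 1)
    (h : w ∈ ball a (r / 2 * a.im)) : ‖cay w - cay a‖ < r * (1 - ‖cay a‖) := by
  have ha0 : 0 < a.im := ha
  have h1 : ‖w - a‖ < r / 2 * a.im := by simpa [dist_eq_norm] using h
  have hD : 0 < ‖a + I‖ := norm_pos_iff.2 (add_I_ne ha)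
  have hW : 0 < ‖w + I‖ := norm_pos_iff.2 (add_I_ne hw)
  have h2 : ‖a + I‖ / 2 ≤ ‖w + I‖ := by
    have h3 : ‖a + I‖ ≤ ‖w + I‖ + ‖w - a‖ := by
      have : a + I = (w + I) - (w - a) := by ring
      rw [this]
      exact norm_sub_le _ _
    have h4 := im_le_norm ha
    have h5 : r / 2 * a.im ≤ ‖a + I‖ / 2 := by nlinarith
    linarith
  have e : cay w - cay a = 2 * I * (w - a) / ((w + I) * (a + I)) := by
    have := add_I_ne ha
    have := add_I_ne hw
    rw [cay, cay]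
    field_simp
    ring
  have e2 : ‖cay w - cay a‖ = 2 * ‖w - a‖ / (‖w + I‖ * ‖a + I‖) := by
    rw [e, norm_div, norm_mul, norm_mul, norm_mul]
    simp
  have h6 := (cay_norm ha).2
  calc ‖cay w - cay a‖ = 2 * ‖w - a‖ / (‖w + I‖ * ‖a + I‖) := e2
    _ ≤ 2 * ‖w - a‖ / (‖a + I‖ / 2 * ‖a + I‖) := by gcongr
    _ < 2 * (r / 2 * a.im) / (‖a + I‖ / 2 * ‖a + I‖) := by gcongr
    _ = r * (2 * a.im / ‖a + I‖ ^ 2) := by field_simp
    _ ≤ r * (1 - ‖cay a‖) := by gcongr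

theorem hyp_one (n : ℕ) {r K M : ℝ} (hr : 0 < r) (hr1 : r ≤ 1) : ∃ C : ℝ,
    ∀ (V : Set ℂ) (f : Fin n → ℂ → ℂ) (Φ : ℂ → ℂ), IsOpen V → BA K V f →
    DifferentiableOn ℂ Φ V → InjOn Φ V → (∀ z ∈ V, ‖Φ z‖ < 1) →
    (∀ a : ℂ, ‖a‖ < 1 → Sol M {z ∈ V | ‖Φ z - a‖ < r * (1 - ‖a‖)} f) → Sol C V f := by
  obtain ⟨C, hC⟩ := hyp_loc n (r := r / 2) (K := K) (M := M) (by positivity) (by linarith)
  refine ⟨C, fun V f Φ hV hf hΦ hinj hlt hloc => ?_⟩
  obtain ⟨hO, Ψ, hΨ, hΨ1⟩ := exists_inverse hV hΦ hinj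
  have hmap : ∀ u ∈ Φ '' V, Ψ u ∈ V ∧ Φ (Ψ u) = u := by
    rintro _ ⟨z, hz, rfl⟩
    rw [hΨ1 z hz]
    exact ⟨hz, rfl⟩
  have hcd : DifferentiableOn ℂ cay Hp := by
    intro w hw
    have := add_I_ne hw
    refine DifferentiableAt.differentiableWithinAt ?_
    unfold cay
    fun_prop (disch := assumption)
  set V' : Set ℂ := Hp ∩ cay ⁻¹' (Φ '' V) with hV'
  have hV'o : IsOpen V' := hcd.continuousOn.isOpen_inter_preimage isOpen_Hp hO
  have hΨc : DifferentiableOn ℂ (fun w => Ψ (cay w)) V' :=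
    hΨ.comp (hcd.mono inter_subset_left) fun w hw => hw.2
  have hΨm : ∀ w ∈ V', Ψ (cay w) ∈ V ∧ Φ (Ψ (cay w)) = cay w := fun w hw => hmap _ hw.2
  obtain ⟨G, hG1, hG2, hG3⟩ := hC V' (fun j w => f j (Ψ (cay w))) hV'o inter_subset_left
    (fun j => (hf j).1.comp hΨc fun w hw => (hΨm w hw).1)
    (fun j w hw => (hf j).2 _ (hΨm w hw).1) (by
      intro a ha
      obtain ⟨g, hg, hg1⟩ := hloc (cay a) (cay_norm ha).1
      have hm : ∀ w ∈ V' ∩ ball a (r / 2 * a.im),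
          Ψ (cay w) ∈ {z ∈ V | ‖Φ z - cay a‖ < r * (1 - ‖cay a‖)} := by
        rintro w ⟨hw, hw2⟩
        refine ⟨(hΨm w hw).1, ?_⟩
        rw [(hΨm w hw).2]
        exact cay_dist ha hw.1 hr hr1 hw2
      refine ⟨fun j w => g j (Ψ (cay w)), fun j => ?_, fun j w hw => ?_, fun w hw => ?_⟩
      · exact (hg j).1.comp (hΨc.mono inter_subset_left) hm
      · exact (hg j).2 _ (hm w hw)
      · exact hg1 _ (hm w hw))
  have hyd : DifferentiableOn ℂ (fun z => yac (Φ z)) V := by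
    have h1 : DifferentiableOn ℂ (fun z => 1 - Φ z) V := (differentiableOn_const 1).sub hΦ
    have h2 : DifferentiableOn ℂ (fun z => I * (1 + Φ z)) V :=
      ((differentiableOn_const 1).add hΦ).const_mul I
    refine h2.div h1 fun z hz h => ?_
    have h3 : Φ z = 1 := by linear_combination -h
    have := hlt z hz
    rw [h3] at this
    simp at this
  have hym : ∀ z ∈ V, yac (Φ z) ∈ V' ∧ Ψ (cay (yac (Φ z))) = z := by
    intro z hz
    obtain ⟨h1, h2⟩ := cay_yac (hlt z hz)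
    refine ⟨⟨h1, ?_⟩, ?_⟩
    · change cay (yac (Φ z)) ∈ Φ '' V
      rw [h2]
      exact ⟨z, hz, rfl⟩
    · rw [h2]
      exact hΨ1 z hz
  refine ⟨fun j z => G j (yac (Φ z)), fun j => ⟨?_, fun z hz => ?_⟩, fun z hz => ?_⟩
  · exact (hG1 j).comp hyd fun z hz => (hym z hz).1
  · exact hG2 j _ (hym z hz).1
  · have := hG3 _ (hym z hz).1
    simpa only [(hym z hz).2] using this

end Pool.Agent.Work.MP_2cf110_an.Hyp

end
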