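import Pool.Agent.Work.MP_2cf110_an.Hyp.SolDef

/-! # Increasing unions

If C < 0 then all V m are empty or n = 0 (n = 0: 0 = 1 on V m, so V m is empty).  Let g m be solutions on V m and U an ultrafilter finer than atTop on ℕ.  For z in V := ⋃ V m the values g m j z
(m large) lie in closedBall 0 C (compact), G j z := lim along U (Ultrafilter, IsCompact.ultrafilter_le_nhds or ultrafilter limUnder).  Then |G| ≤ C and Σ f G = 1 on V.  Analytic: let ball z₀ (2ρ) ⊆ V m₀
(closedBall is compact, so it is contained in some V m).  For m ≥ m₀ the functions g m j are analytic on ball z₀ (2ρ), bounded by C, so Lipschitz on ball z₀ ρ with constant C/ρ (Cauchy); hence the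
pointwise limit along U is uniform on ball z₀ ρ (finite ε-net, the ball is totally bounded), and TendstoLocallyUniformlyOn.differentiableOn applies. -/

open MeasureTheory Complex Set Metric Filter
open scoped Topology ContDiff ComplexConjugate

noncomputable section

namespace Pool.Agent.Work.MP_2cf110_an.Hyp

open QC (dz dzb Test Cau)

private theorem lip_aux {C r : ℝ} (hr : 0 < r) {z₀ : ℂ} {g : ℂ → ℂ}
    (hg : DifferentiableOn ℂ g (ball z₀ (2 * r))) (hb : ∀ z ∈ ball z₀ (2 * r), ‖g z‖ ≤ C) :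
    ∀ z ∈ closedBall z₀ r, ∀ c ∈ closedBall z₀ r, ‖g z - g c‖ ≤ C / (r / 2) * ‖z - c‖ := by
  intro z hz c hc
  have hsub : closedBall z₀ r ⊆ ball z₀ (2 * r) := closedBall_subset_ball (by linarith)
  have hd : ∀ x ∈ closedBall z₀ r, ‖deriv g x‖ ≤ C / (r / 2) := by
    intro x hx
    have hs : closedBall x (r / 2) ⊆ ball z₀ (2 * r) := by
      intro y hy
      rw [mem_closedBall] at hy hx
      rw [mem_ball]
      calc dist y z₀ ≤ dist y x + dist x z₀ := dist_triangle _ _ _
        _ < 2 * r := by linarith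
    apply Complex.norm_deriv_le_of_forall_mem_sphere_norm_le (by linarith)
    · exact (hg.mono hs).diffContOnCl_ball (le_refl _)
    · intro y hy
      exact hb y (hs (sphere_subset_closedBall hy))
  exact (convex_closedBall z₀ r).norm_image_sub_le_of_norm_deriv_le
    (fun x hx => (hg x (hsub hx)).differentiableAt (isOpen_ball.mem_nhds (hsub hx))) hd hc hz

private theorem ulim_holo {U : Filter ℕ} [U.NeBot] {C r : ℝ} (hr : 0 < r) {z₀ : ℂ}
    {g : ℕ → ℂ → ℂ} {G : ℂ → ℂ}
    (hg : ∀ᶠ m in U, DifferentiableOn ℂ (g m) (ball z₀ (2 * r)) ∧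
      ∀ z ∈ ball z₀ (2 * r), ‖g m z‖ ≤ C)
    (hG : ∀ z ∈ ball z₀ (2 * r), Tendsto (fun m => g m z) U (𝓝 (G z))) :
    DifferentiableOn ℂ G (ball z₀ r) := by
  have hsub : closedBall z₀ r ⊆ ball z₀ (2 * r) := closedBall_subset_ball (by linarith)
  have hC : 0 ≤ C := by
    obtain ⟨m, hm⟩ := hg.exists
    exact (norm_nonneg _).trans (hm.2 z₀ (mem_ball_self (by linarith)))
  set L : ℝ := C / (r / 2) with hL
  have hL0 : 0 ≤ L := by positivity
  have hlip : ∀ᶠ m in U, ∀ z ∈ closedBall z₀ r, ∀ c ∈ closedBall z₀ r,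
      ‖g m z - g m c‖ ≤ L * ‖z - c‖ := by
    filter_upwards [hg] with m hm
    exact lip_aux hr hm.1 hm.2
  have hlipG : ∀ z ∈ closedBall z₀ r, ∀ c ∈ closedBall z₀ r, ‖G z - G c‖ ≤ L * ‖z - c‖ := by
    intro z hz c hc
    refine le_of_tendsto (((hG z (hsub hz)).sub (hG c (hsub hc))).norm) ?_
    filter_upwards [hlip] with m hm
    exact hm z hz c hc
  have hunif : TendstoUniformlyOn g G U (ball z₀ r) := by
    rw [Metric.tendstoUniformlyOn_iff]
    intro ε hε
    have hδ : 0 < ε / (3 * (L + 1)) := by positivity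
    obtain ⟨t, ht, hfin, hcov⟩ := (isCompact_closedBall z₀ r).finite_cover_balls hδ
    have h1 : ∀ᶠ m in U, ∀ c ∈ t, dist (g m c) (G c) < ε / 3 := by
      rw [hfin.eventually_all]
      intro c hc
      have := (Metric.tendsto_nhds.1 (hG c (hsub (ht hc)))) (ε / 3) (by linarith)
      exact this
    filter_upwards [h1, hlip] with m hm1 hm2
    intro z hz
    have hz' : z ∈ closedBall z₀ r := ball_subset_closedBall hz
    obtain ⟨c, hc, hzc⟩ := mem_iUnion₂.1 (hcov hz')
    rw [mem_ball, dist_eq_norm] at hzc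
    have e1 := hm2 z hz' c (ht hc)
    have e2 := hlipG z hz' c (ht hc)
    have e3 := hm1 c hc
    rw [dist_eq_norm] at e3
    have e4 : L * ‖z - c‖ < ε / 3 := by
      have : L * ‖z - c‖ ≤ L * (ε / (3 * (L + 1))) := mul_le_mul_of_nonneg_left hzc.le hL0
      refine this.trans_lt ?_
      rw [mul_div_assoc', div_lt_div_iff₀ (by positivity) (by norm_num)]
      nlinarith
    rw [dist_eq_norm]
    calc ‖G z - g m z‖ = ‖(G z - G c) - (g m z - g m c) - (g m c - G c)‖ := by
            congr 1; ring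
      _ ≤ ‖G z - G c‖ + ‖g m z - g m c‖ + ‖g m c - G c‖ := by
            refine (norm_sub_le _ _).trans ?_
            gcongr
            exact norm_sub_le _ _
      _ < ε := by linarith
  refine hunif.tendstoLocallyUniformlyOn.differentiableOn ?_ isOpen_ball
  filter_upwards [hg] with m hm
  exact hm.1.mono (ball_subset_ball (by linarith))

theorem inc_sol {n : ℕ} {C : ℝ} {V : ℕ → Set ℂ} {f : Fin n → ℂ → ℂ} (hV : ∀ m, IsOpen (V m))
    (hm : Monotone V) (hs : ∀ m, Sol C (V m) f) : Sol C (⋃ m, V m) f := by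
  classical
  choose g hg h1 using hs
  let U : Ultrafilter ℕ := Filter.hyperfilter ℕ
  have hU : (U : Filter ℕ) ≤ atTop := Nat.hyperfilter_le_atTop
  have hev : ∀ z ∈ ⋃ m, V m, ∀ᶠ m in (U : Filter ℕ), z ∈ V m := by
    intro z hz
    obtain ⟨m₀, hm₀⟩ := mem_iUnion.1 hz
    refine hU ?_
    filter_upwards [eventually_ge_atTop m₀] with m hm'
    exact hm hm' hm₀
  have hlim : ∀ z ∈ ⋃ m, V m, ∀ j, ∃ x : ℂ,
      Tendsto (fun m => g m j z) (U : Filter ℕ) (𝓝 x) ∧ ‖x‖ ≤ C := by
    intro z hz j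
    have hmem : closedBall (0 : ℂ) C ∈ U.map (fun m => g m j z) := by
      rw [Ultrafilter.mem_map]
      filter_upwards [hev z hz] with m hm'
      simpa using (hg m j).2 z hm'
    obtain ⟨x, hx, hle⟩ := (isCompact_closedBall (0 : ℂ) C).ultrafilter_le_nhds
      (U.map (fun m => g m j z)) (le_principal_iff.2 hmem)
    exact ⟨x, hle, by simpa using hx⟩
  let G : Fin n → ℂ → ℂ := fun j z => if h : z ∈ ⋃ m, V m then (hlim z h j).choose else 0
  have hGt : ∀ z ∈ ⋃ m, V m, ∀ j, Tendsto (fun m => g m j z) (U : Filter ℕ) (𝓝 (G j z)) := by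
    intro z hz j
    simp only [G, dif_pos hz]
    exact (hlim z hz j).choose_spec.1
  have hGb : ∀ z ∈ ⋃ m, V m, ∀ j, ‖G j z‖ ≤ C := by
    intro z hz j
    simp only [G, dif_pos hz]
    exact (hlim z hz j).choose_spec.2
  refine ⟨G, fun j => ⟨?_, fun z hz => hGb z hz j⟩, ?_⟩
  · intro z₀ hz₀
    obtain ⟨m₀, hm₀⟩ := mem_iUnion.1 hz₀
    obtain ⟨ε, hε, hball⟩ := Metric.isOpen_iff.1 (hV m₀) z₀ hm₀
    have hr : 0 < ε / 2 := by linarith
    have e : 2 * (ε / 2) = ε := by ring
    have hd : DifferentiableOn ℂ (G j) (ball z₀ (ε / 2)) := by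
      refine ulim_holo (U := (U : Filter ℕ)) (C := C) hr (g := fun m => g m j) ?_ ?_
      · rw [e]
        refine hU ?_
        filter_upwards [eventually_ge_atTop m₀] with m hm'
        exact ⟨(hg m j).1.mono (hball.trans (hm hm')),
          fun z hz => (hg m j).2 z (hm hm' (hball hz))⟩
      · rw [e]
        intro z hz
        exact hGt z (mem_iUnion.2 ⟨m₀, hball hz⟩) j
    exact ((hd z₀ (mem_ball_self hr)).differentiableAt
      (isOpen_ball.mem_nhds (mem_ball_self hr))).differentiableWithinAt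
  · intro z hz
    have ht : Tendsto (fun m => ∑ j, f j z * g m j z) (U : Filter ℕ) (𝓝 (∑ j, f j z * G j z)) :=
      tendsto_finsetSum _ fun j _ => (hGt z hz j).const_mul _
    have ht2 : Tendsto (fun m => ∑ j, f j z * g m j z) (U : Filter ℕ) (𝓝 1) := by
      refine tendsto_const_nhds.congr' ?_
      filter_upwards [hev z hz] with m hm'
      exact (h1 m z hm').symm
    exact tendsto_nhds_unique ht ht2

end Pool.Agent.Work.MP_2cf110_an.Hyp

end
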