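import Pool.Agent.Work.MP_2cf110_an.Hyp.SolDef

/-! # Removable sets and disjoint unions

rem_sol: choose F j analytic on V₁ with F j = f j on V; |F j| ≤ K and Cor on V₁ by density and continuity (V₁ ⊆ closure V, V₁ is open; for Cor: the set of z in V₁ with δ ≤ |F j z| for some j is
relatively closed in V₁, finite union); apply the hypothesis and restrict to V.  dis_sol: define g j z by the solution of the W i which contains z (choose i for z in the union; locally constant choice). -/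

open MeasureTheory Complex Set Metric Filter
open scoped Topology ContDiff ComplexConjugate

noncomputable section

namespace Pool.Agent.Work.MP_2cf110_an.Hyp

open QC (dz dzb Test Cau)

theorem rem_sol {n : ℕ} {K δ C : ℝ} {V V₁ : Set ℂ} {f : Fin n → ℂ → ℂ} (hV₁ : IsOpen V₁)
    (hsub : V ⊆ V₁) (hcl : V₁ ⊆ closure V)
    (hext : ∀ h : ℂ → ℂ, DifferentiableOn ℂ h V → (∃ M : ℝ, ∀ z ∈ V, ‖h z‖ ≤ M) →
      ∃ H : ℂ → ℂ, DifferentiableOn ℂ H V₁ ∧ EqOn H h V)
    (hs : ∀ F : Fin n → ℂ → ℂ, BA K V₁ F → Cor δ V₁ F → Sol C V₁ F) (hf : BA K V f)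
    (hc : Cor δ V f) : Sol C V f := by
  choose F hF hFe using fun j => hext (f j) (hf j).1 ⟨K, (hf j).2⟩
  have hct : ∀ z ∈ V₁, ∀ j, ContinuousAt (fun w => ‖F j w‖) z := fun z hz j =>
    (((hF j).differentiableAt (hV₁.mem_nhds hz)).continuousAt).norm
  have hfr : ∀ z ∈ V₁, ∃ᶠ w in 𝓝 z, w ∈ V := fun z hz =>
    mem_closure_iff_frequently.mp (hcl hz)
  have hBA : BA K V₁ F := by
    intro j
    refine ⟨hF j, fun z hz => ?_⟩
    by_contra hlt
    rw [not_le] at hlt
    have hev : ∀ᶠ w in 𝓝 z, K < ‖F j w‖ := (hct z hz j).eventually (lt_mem_nhds hlt)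
    obtain ⟨w, hw, hwK⟩ := ((hfr z hz).and_eventually hev).exists
    have h1 := (hf j).2 w hw
    rw [← hFe j hw] at h1
    exact absurd h1 (not_le.mpr hwK)
  have hCor : Cor δ V₁ F := by
    intro z hz
    by_contra hno
    push Not at hno
    have hev : ∀ᶠ w in 𝓝 z, ∀ j, ‖F j w‖ < δ := by
      rw [eventually_all]
      exact fun j => (hct z hz j).eventually (gt_mem_nhds (hno j))
    obtain ⟨w, hw, hwK⟩ := ((hfr z hz).and_eventually hev).exists
    obtain ⟨j, hj⟩ := hc w hw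
    rw [← hFe j hw] at hj
    exact absurd hj (not_le.mpr (hwK j))
  obtain ⟨g, hg, h1⟩ := (hs F hBA hCor).mono hsub
  refine ⟨g, hg, fun z hz => ?_⟩
  rw [← h1 z hz]
  refine Finset.sum_congr rfl fun j _ => ?_
  rw [hFe j hz]

theorem dis_sol {n : ℕ} {C : ℝ} {ι : Type} {W : ι → Set ℂ} {f : Fin n → ℂ → ℂ}
    (hW : ∀ i, IsOpen (W i)) (hd : Pairwise fun i j => Disjoint (W i) (W j))
    (hs : ∀ i, Sol C (W i) f) : Sol C (⋃ i, W i) f := by
  classical
  choose g hg h1 using hs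
  obtain ⟨G, hG⟩ : ∃ G : Fin n → ℂ → ℂ, ∀ i, ∀ z ∈ W i, ∀ j, G j z = g i j z := by
    refine ⟨fun j z => if h : ∃ i, z ∈ W i then g h.choose j z else 0, fun i z hz j => ?_⟩
    have h : ∃ i, z ∈ W i := ⟨i, hz⟩
    have hi : h.choose = i := by
      by_contra hne
      exact Set.disjoint_left.mp (hd hne) h.choose_spec hz
    simp only [dif_pos h]
    rw [hi]
  refine ⟨G, fun j => ⟨fun z hz => ?_, fun z hz => ?_⟩, fun z hz => ?_⟩
  · obtain ⟨i, hi⟩ := mem_iUnion.mp hz
    have hn : W i ∈ 𝓝 z := (hW i).mem_nhds hi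
    have h2 : DifferentiableAt ℂ (g i j) z := ((hg i j).1).differentiableAt hn
    have h3 : G j =ᶠ[𝓝 z] g i j := by
      filter_upwards [hn] with w hw using hG i w hw j
    exact (h3.differentiableAt_iff.mpr h2).differentiableWithinAt
  · obtain ⟨i, hi⟩ := mem_iUnion.mp hz
    rw [hG i z hi j]
    exact (hg i j).2 z hi
  · obtain ⟨i, hi⟩ := mem_iUnion.mp hz
    rw [← h1 i z hi]
    exact Finset.sum_congr rfl fun j _ => by rw [hG i z hi j]

end Pool.Agent.Work.MP_2cf110_an.Hyp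

end
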