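import Pool.Agent.Work.MP_2cf110_an.Hyp.TaMain
import Pool.Agent.Work.MP_2cf110_an.Loc

/-! # Scale localization in an injective coordinate -/

open MeasureTheory Complex Set Metric Filter
open scoped Topology ContDiff ComplexConjugate

noncomputable section

namespace Pool.Agent.Work.MP_2cf110_an.Hyp

open QC (dz dzb Test Cau)

theorem scale_P (n : ℕ) {r K M : ℝ} (hr : 0 < r) (hr1 : r ≤ 1) : ∃ C : ℝ,
    ∀ (V : Set ℂ) (f : Fin n → ℂ → ℂ) (P : ℂ → ℂ), IsOpen V → BA K V f →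
    DifferentiableOn ℂ P V → InjOn P V → (∀ z ∈ V, P z ≠ 0 ∧ ‖P z‖ < 1) →
    (∀ a : ℂ, a ≠ 0 → ‖a‖ < 1 → Sol M {z ∈ V | ‖P z - a‖ < r * ‖a‖} f) → Sol C V f := by
  obtain ⟨C, hC⟩ := scale_loc n (K := K) (M := M) hr hr1
  refine ⟨C, fun V f P hV hf hP hi hb hs => ?_⟩
  obtain ⟨hO, Ψ, hΨ, hΨP⟩ := exists_inverse hV hP hi
  have hmem : ∀ w ∈ P '' V, Ψ w ∈ V := by
    rintro _ ⟨z, hz, rfl⟩
    rwa [hΨP z hz]
  have hPΨ : ∀ w ∈ P '' V, P (Ψ w) = w := by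
    rintro _ ⟨z, hz, rfl⟩
    rw [hΨP z hz]
  have hBA : BA K (P '' V) fun j w => f j (Ψ w) := by
    intro j
    refine ⟨(hf j).1.comp hΨ hmem, fun w hw => (hf j).2 _ (hmem w hw)⟩
  have hsub : P '' V ⊆ ball 0 1 \ {0} := by
    rintro _ ⟨z, hz, rfl⟩
    refine ⟨?_, (hb z hz).1⟩
    rw [mem_ball_zero_iff]
    exact (hb z hz).2
  have hloc : ∀ a : ℂ, a ≠ 0 → ‖a‖ < 1 →
      Sol M (P '' V ∩ ball a (r * ‖a‖)) fun j w => f j (Ψ w) := by
    intro a ha ha1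
    obtain ⟨g, hg, hsum⟩ := hs a ha ha1
    have hm : ∀ w ∈ P '' V ∩ ball a (r * ‖a‖), Ψ w ∈ {z ∈ V | ‖P z - a‖ < r * ‖a‖} := by
      intro w hw
      refine ⟨hmem w hw.1, ?_⟩
      have h1 := hw.2
      rw [mem_ball, dist_eq_norm] at h1
      rw [hPΨ w hw.1]
      exact h1
    refine ⟨fun j w => g j (Ψ w), fun j => ⟨?_, fun w hw => ?_⟩, fun w hw => ?_⟩
    · exact (hg j).1.comp (hΨ.mono inter_subset_left) hm
    · exact (hg j).2 _ (hm w hw)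
    · exact hsum _ (hm w hw)
  obtain ⟨g, hg, hsum⟩ := hC _ _ hO hsub hBA hloc
  refine ⟨fun j z => g j (P z), fun j => ⟨?_, fun z hz => ?_⟩, fun z hz => ?_⟩
  · exact (hg j).1.comp hP (fun z hz => mem_image_of_mem P hz)
  · exact (hg j).2 _ (mem_image_of_mem P hz)
  · have h1 := hsum (P z) (mem_image_of_mem P hz)
    simp only [hΨP z hz] at h1
    exact h1

end Pool.Agent.Work.MP_2cf110_an.Hyp

end
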