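import Pool.Agent.Work.MP_2cf110_an.Hyp.ClsDef
import Pool.Agent.Work.MP_2cf110_an.Hyp.CorH
import Pool.Agent.Work.MP_2cf110_an.Hyp.ForB
import Pool.Agent.Work.MP_2cf110_an.Hyp.Mont
import Pool.Agent.Work.MP_2cf110_an.Hyp.RemA
import Pool.Agent.Work.MP_2cf110_an.Hyp.ScaP
import Pool.Agent.Work.MP_2cf110_an.Hyp.HypOne

/-! # The corona theorem for the class -/

open MeasureTheory Complex Set Metric Filter
open scoped Topology ContDiff ComplexConjugate

noncomputable section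

namespace Pool.Agent.Work.MP_2cf110_an.Hyp

open QC (dz dzb Test Cau)

theorem cls_sol (n k N : ℕ) {K δ η : ℝ} (hδ : 0 < δ) (hη : 0 < η) (hη1 : η ≤ 1) : ∃ C : ℝ,
    ∀ (V : Set ℂ) (f : Fin n → ℂ → ℂ), Cls k η N V → BA K V f → Cor δ V f → Sol C V f := by
  have hH : ∀ m : ℕ, ∃ C : ℝ, CH n m K δ C := fun m => corH n m hδ
  choose Cc hCc using hH
  obtain ⟨M, hM⟩ : ∃ M, ∀ m ≤ k, Cc m ≤ M :=
    ⟨(Finset.range (k + 1)).sup' ⟨0, by simp⟩ Cc,
      fun m hm => Finset.le_sup' Cc (Finset.mem_range.2 (by omega))⟩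
  have hbase : ∀ (m : ℕ) (b : ℂ) (R : ℝ) (Ω : Fin m → Set ℂ) (f : Fin n → ℂ → ℂ), m ≤ k →
      (∀ i, ∃ Φ, Hole (Ω i) Φ) → BA K (ball b R ∩ ⋂ i, Ω i) f → Cor δ (ball b R ∩ ⋂ i, Ω i) f →
      Sol M (ball b R ∩ ⋂ i, Ω i) f := by
    intro m b R Ω f hm hΩ hf hc
    rcases lt_or_ge 0 R with hR | hR
    · exact (hCc m b R Ω f hR hΩ hf hc).le (hM m hm)
    · have h0 : ball b R ∩ ⋂ i, Ω i = ∅ := by
        rw [ball_eq_empty.2 hR, empty_inter]
      rw [h0]
      exact Sol.empty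
  induction N with
  | zero =>
    refine ⟨M, fun V f hV hf hc => ?_⟩
    cases hV with
    | base _ m b R Ω hm hΩ => exact hbase m b R Ω f hm hΩ hf hc
  | succ N ih =>
    obtain ⟨C, hC⟩ := ih
    obtain ⟨C1, hC1⟩ := hyp_one n (K := K) (M := C) hη hη1
    obtain ⟨C2, hC2⟩ := scale_P n (K := K) (M := C) hη hη1
    obtain ⟨C3, hC3⟩ : ∃ C3, C3 = 1 / η * max C 0 := ⟨_, rfl⟩
    obtain ⟨T, hT⟩ : ∃ T, T = max (max M C) (max (max C1 C2) C3) := ⟨_, rfl⟩
    have hMT : M ≤ T := by rw [hT]; exact (le_max_left _ _).trans (le_max_left _ _)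
    have hCT : C ≤ T := by rw [hT]; exact (le_max_right _ _).trans (le_max_left _ _)
    have hC1T : C1 ≤ T := by
      rw [hT]; exact ((le_max_left _ _).trans (le_max_left _ _)).trans (le_max_right _ _)
    have hC2T : C2 ≤ T := by
      rw [hT]; exact ((le_max_right _ _).trans (le_max_left _ _)).trans (le_max_right _ _)
    have hC3T : C3 ≤ T := by rw [hT]; exact (le_max_right _ _).trans (le_max_right _ _)
    refine ⟨T, fun V f hV hf hc => ?_⟩
    cases hV with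
    | base _ m b R Ω hm hΩ => exact (hbase m b R Ω f hm hΩ hf hc).le hMT
    | hyp _ _ P hVo hP hi hb hloc =>
      refine (hC1 V f P hVo hf hP hi hb fun a ha => ?_).le hC1T
      have hsub : {z ∈ V | ‖P z - a‖ < η * (1 - ‖a‖)} ⊆ V := fun z hz => hz.1
      exact hC _ f (hloc a ha) (hf.mono hsub) (hc.mono hsub)
    | scale _ _ P hVo hP hi hb hloc =>
      refine (hC2 V f P hVo hf hP hi hb fun a ha ha1 => ?_).le hC2T
      have hsub : {z ∈ V | ‖P z - a‖ < η * ‖a‖} ⊆ V := fun z hz => hz.1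
      exact hC _ f (hloc a ha ha1) (hf.mono hsub) (hc.mono hsub)
    | quot _ V' _ P F hF hV' =>
      have h1 : BA K V' fun j w => f j (P w) := fun j =>
        ⟨(hf j).1.comp hF.holo hF.maps, fun w hw => (hf j).2 _ (hF.maps w hw)⟩
      have h2 : Cor δ V' fun j w => f j (P w) := fun w hw => hc _ (hF.maps w hw)
      have h3 := forelli_sol hF (hC V' _ hV' h1 h2)
      exact h3.le (by rw [← hC3]; exact hC3T)
    | rem _ _ V₁ hVo hsub hcl hext hV₁ =>
      exact (rem_sol hV₁.isOpen hsub hcl hext (fun F hF hc' => hC V₁ F hV₁ hF hc') hf hc).le hCT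
    | inc _ V hm hV =>
      refine (inc_sol (fun m => (hV m).isOpen) hm fun m => ?_).le hCT
      have hsub : V m ⊆ ⋃ m, V m := subset_iUnion V m
      exact hC _ f (hV m) (hf.mono hsub) (hc.mono hsub)
    | dis _ ι W hd hW =>
      refine (dis_sol (fun i => (hW i).isOpen) hd fun i => ?_).le hCT
      have hsub : W i ⊆ ⋃ i, W i := subset_iUnion W i
      exact hC _ f (hW i) (hf.mono hsub) (hc.mono hsub)

end Pool.Agent.Work.MP_2cf110_an.Hyp

end
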