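import Pool.Agent.Work.MP_2cf110_an.Hyp.SolDef

/-! # Definitions: open sets with one complementary component -/

open MeasureTheory Complex Set Metric Filter
open scoped Topology ContDiff ComplexConjugate

noncomputable section

namespace Pool.Agent.Work.MP_2cf110_an.Hyp

open QC (dz dzb Test Cau)

/-- `Φ` maps the open set `Ω` conformally onto the unit disc, or it maps it conformally onto the
punctured unit disc, the complement of `Ω` is bounded and `Φ(∞) = 0`.  By the Riemann mapping
theorem such a `Φ` exists exactly if the complement of `Ω` in the Riemann sphere is connected and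
has more than one point -/
structure Hole (Ω : Set ℂ) (Φ : ℂ → ℂ) : Prop where
  open_ : IsOpen Ω
  holo : DifferentiableOn ℂ Φ Ω
  inj : InjOn Φ Ω
  kind : Φ '' Ω = ball 0 1 ∨
    (Φ '' Ω = ball 0 1 \ {0} ∧ Bornology.IsBounded Ωᶜ ∧ Tendsto Φ (cocompact ℂ) (𝓝 0))

theorem Hole.lt {Ω : Set ℂ} {Φ : ℂ → ℂ} (h : Hole Ω Φ) : ∀ z ∈ Ω, ‖Φ z‖ < 1 := by
  intro z hz
  have h1 : Φ z ∈ Φ '' Ω := ⟨z, hz, rfl⟩
  rcases h.kind with h2 | ⟨h2, -, -⟩
  · rw [h2] at h1; simpa using h1
  · rw [h2] at h1; simpa using h1.1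

end Pool.Agent.Work.MP_2cf110_an.Hyp

end
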