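import Pool.Agent.Work.MP_2cf110_an.Hyp.ForDef
import Pool.Agent.Work.MP_2cf110_an.Hyp.HoleDef

/-! # Definition: the class of open sets generated by discs with finitely many holes -/

open MeasureTheory Complex Set Metric Filter
open scoped Topology ContDiff ComplexConjugate

noncomputable section

namespace Pool.Agent.Work.MP_2cf110_an.Hyp

open QC (dz dzb Test Cau)

/-- the smallest classes `Cls k η N`, `N = 0, 1, 2, ...`, of open sets such that
`base`: discs minus at most `k` holes (see `Hole`; the empty set is included, `R ≤ 0`) are in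
`Cls k η N`, and a set is in `Cls k η (N + 1)` if one of the following holds:
`hyp`: it has an injective analytic map `P` to the unit disc such that the part of it over every
disc with centre `a` and radius `η (1 - |a|)`, `|a| < 1`, is in `Cls k η N`;
`scale`: it has an injective analytic map `P` to the punctured unit disc such that the part of it
over every disc with centre `a` and radius `η |a|`, `0 < |a| < 1`, is in `Cls k η N`;
`quot`: it is the quotient of a set in `Cls k η N` by a covering with a Forelli function bounded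
by `1 / η`; `rem`: it is obtained from a set in `Cls k η N` by removing a set which is removable for
bounded analytic functions; `inc`, `dis`: it is the union of an increasing sequence, or of pairwise
disjoint sets, of `Cls k η N` -/
inductive Cls (k : ℕ) (η : ℝ) : ℕ → Set ℂ → Prop
  | base (N m : ℕ) (b : ℂ) (R : ℝ) (Ω : Fin m → Set ℂ) : m ≤ k → (∀ i, ∃ Φ, Hole (Ω i) Φ) →
      Cls k η N (ball b R ∩ ⋂ i, Ω i)
  | hyp (N : ℕ) (V : Set ℂ) (P : ℂ → ℂ) : IsOpen V → DifferentiableOn ℂ P V → InjOn P V →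
      (∀ z ∈ V, ‖P z‖ < 1) →
      (∀ a : ℂ, ‖a‖ < 1 → Cls k η N {z ∈ V | ‖P z - a‖ < η * (1 - ‖a‖)}) → Cls k η (N + 1) V
  | scale (N : ℕ) (V : Set ℂ) (P : ℂ → ℂ) : IsOpen V → DifferentiableOn ℂ P V → InjOn P V →
      (∀ z ∈ V, P z ≠ 0 ∧ ‖P z‖ < 1) →
      (∀ a : ℂ, a ≠ 0 → ‖a‖ < 1 → Cls k η N {z ∈ V | ‖P z - a‖ < η * ‖a‖}) → Cls k η (N + 1) V
  | quot (N : ℕ) (V' V : Set ℂ) (P F : ℂ → ℂ) : Forelli (1 / η) V' V P F → Cls k η N V' →
      Cls k η (N + 1) V
  | rem (N : ℕ) (V V₁ : Set ℂ) : IsOpen V → V ⊆ V₁ → V₁ ⊆ closure V →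
      (∀ h : ℂ → ℂ, DifferentiableOn ℂ h V → (∃ M : ℝ, ∀ z ∈ V, ‖h z‖ ≤ M) →
        ∃ H : ℂ → ℂ, DifferentiableOn ℂ H V₁ ∧ EqOn H h V) → Cls k η N V₁ → Cls k η (N + 1) V
  | inc (N : ℕ) (V : ℕ → Set ℂ) : Monotone V → (∀ m, Cls k η N (V m)) →
      Cls k η (N + 1) (⋃ m, V m)
  | dis (N : ℕ) (ι : Type) (W : ι → Set ℂ) : (Pairwise fun i j => Disjoint (W i) (W j)) →
      (∀ i, Cls k η N (W i)) → Cls k η (N + 1) (⋃ i, W i)

theorem Cls.isOpen {k : ℕ} {η : ℝ} {N : ℕ} {V : Set ℂ} (h : Cls k η N V) : IsOpen V := by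
  induction h with
  | base N m b R Ω _ hH =>
    refine isOpen_ball.inter (isOpen_iInter_of_finite fun i => ?_)
    obtain ⟨Φ, hΦ⟩ := hH i
    exact hΦ.open_
  | hyp N V P hV _ _ _ _ _ => exact hV
  | scale N V P hV _ _ _ _ _ => exact hV
  | quot N V' V P F hF _ _ => exact hF.open_
  | rem N V V₁ hV _ _ _ _ _ => exact hV
  | inc N V _ _ ih => exact isOpen_iUnion ih
  | dis N ι W _ _ ih => exact isOpen_iUnion ih

end Pool.Agent.Work.MP_2cf110_an.Hyp

end
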