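import Pool.Agent.Work.MP_2cf110_an.Hyp.ClsA
import Pool.Agent.Work.MP_2cf110_an.One

/-! # The local form -/

open MeasureTheory Complex Set Metric Filter
open scoped Topology ContDiff ComplexConjugate

noncomputable section

namespace Pool.Agent.Work.MP_2cf110_an.Hyp

open QC (dz dzb Test Cau)

open Pool.Agent.Work.MP_2cf110_an in
theorem cls_loc {V : Set ℂ} (hV : IsOpen V) (hb : Bornology.IsBounded V)
    (h : ∀ c ∈ frontier V, ∃ r > 0, ∃ (k N : ℕ) (η : ℝ), 0 < η ∧ η ≤ 1 ∧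
      Cls k η N (V ∩ ball c r)) {n : ℕ} {f : Fin n → ℂ → ℂ} {δ : ℝ} (hδ : 0 < δ)
    (hf : ∀ j, Hinf V (f j)) (hc : Cor δ V f) : Bez V f := by
  obtain ⟨K, hK⟩ : ∃ K : ℝ, BA K V f := by
    choose Kj hKj using fun j => (hf j).2
    refine ⟨∑ j, |Kj j|, fun j => ⟨(hf j).1, fun z hz => (hKj j z hz).trans ?_⟩⟩
    exact (le_abs_self _).trans
      (Finset.single_le_sum (f := fun j => |Kj j|) (fun i _ => abs_nonneg _) (Finset.mem_univ j))
  have key : ∀ (k N : ℕ) (η r : ℝ) (l : ℂ), 0 < η → η ≤ 1 → 0 < r → Cls k η N (V ∩ ball l r) →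
      ∃ t > 0, Bez {z ∈ V | ‖z - l‖ < t} f := by
    intro k N η r l hη hη1 hr hcls
    obtain ⟨C, hC⟩ := cls_sol n k N (K := K) hδ hη hη1
    obtain ⟨g, hg, hsum⟩ := hC _ f hcls (hK.mono inter_subset_left) (hc.mono inter_subset_left)
    have hset : {z ∈ V | ‖z - l‖ < r} = V ∩ ball l r := by
      ext z
      simp [mem_ball, dist_eq_norm]
    refine ⟨r, hr, g, fun j => ?_, ?_⟩
    · rw [hset]
      exact ⟨(hg j).1, C, (hg j).2⟩
    · rw [hset]
      exact hsum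
  refine bez_of_local hV (tame_id hV hb) hf fun l hl => ?_
  rw [image_id'] at hl
  by_cases hlV : l ∈ V
  · obtain ⟨r, hr, hball⟩ := Metric.isOpen_iff.1 hV l hlV
    refine key 0 0 1 r l one_pos le_rfl hr ?_
    have h1 : V ∩ ball l r = ball l r ∩ ⋂ i : Fin 0, (i.elim0 : Set ℂ) := by
      rw [iInter_of_empty, inter_univ, inter_eq_self_of_subset_right hball]
    rw [h1]
    exact Cls.base 0 0 l r _ le_rfl fun i => i.elim0
  · have hfr : l ∈ frontier V := by
      rw [hV.frontier_eq]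
      exact ⟨hl, hlV⟩
    obtain ⟨r, hr, k, N, η, hη, hη1, hcls⟩ := h l hfr
    exact key k N η r l hη hη1 hr hcls

end Pool.Agent.Work.MP_2cf110_an.Hyp

end
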