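import Pool.Agent.Work.MP_2cf110_an.Hyp.HoleN
import Pool.Agent.Work.MP_2cf110_an.Hyp.HypOne

/-! # The near case of the induction step

S = {z in ball a R ∩ ⋂ Ω l : |Φ z - α| < r (1-|α|)} with Φ the coordinate of Ω i, whose complement meets ball a (8R) in a point p.  If S is nonempty, z₀ in S, t = 2 A √r inf... take
t = 2 A √r dist(z₀, (Ω i)ᶜ) (Metric.infDist), positive, ≤ 18 A √r R ≤ R/2; S ⊆ ball z₀ t (hole_near for all p not in Ω i, strict because of the factor 2), ball z₀ t ⊆ Ω i and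
⊆ ball a (2R): hk for ball z₀ t and the k other sets (Fin.succAbove i). -/

open MeasureTheory Complex Set Metric Filter
open scoped Topology ContDiff ComplexConjugate

noncomputable section

namespace Pool.Agent.Work.MP_2cf110_an.Hyp

open QC (dz dzb Test Cau)

variable {n k : ℕ}

/-- the induction hypothesis: the corona theorem for discs intersected with `k` holes -/
def CH (n k : ℕ) (K δ C : ℝ) : Prop :=
  ∀ (b : ℂ) (R : ℝ) (Ω : Fin k → Set ℂ) (f : Fin n → ℂ → ℂ), 0 < R → (∀ i, ∃ Φ, Hole (Ω i) Φ) →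
    BA K (ball b R ∩ ⋂ i, Ω i) f → Cor δ (ball b R ∩ ⋂ i, Ω i) f → Sol C (ball b R ∩ ⋂ i, Ω i) f

theorem corH_near : ∃ A : ℝ, 1 ≤ A ∧ ∀ (K δ C : ℝ), CH n k K δ C →
    ∀ (a α : ℂ) (R r : ℝ) (Ω : Fin (k + 1) → Set ℂ) (f : Fin n → ℂ → ℂ) (i : Fin (k + 1))
      (Φ : ℂ → ℂ), 0 < R → (∀ l, ∃ Φ, Hole (Ω l) Φ) → Hole (Ω i) Φ →
    BA K (ball a (10 * R) ∩ ⋂ l, Ω l) f → Cor δ (ball a (10 * R) ∩ ⋂ l, Ω l) f →
    0 < r → √r ≤ 1 / A → ((Ω i)ᶜ ∩ ball a (8 * R)).Nonempty → ‖α‖ < 1 →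
    (Φ '' Ω i = ball 0 1 ∨ √r ≤ ‖α‖) →
    Sol C {z ∈ ball a R ∩ ⋂ l, Ω l | ‖Φ z - α‖ < r * (1 - ‖α‖)} f := by
  obtain ⟨A, hA, hnear⟩ := hole_near
  refine ⟨2 * A, by linarith, ?_⟩
  intro K δ C hCH a α R r Ω f i Φ hR hΩ hi hBA hCor hr hrA hne hα hkind
  have hA0 : 0 < A := by linarith
  have hsr : 0 < √r := Real.sqrt_pos.2 hr
  have h2 : 2 * A * √r ≤ 1 := by
    rw [le_div_iff₀ (by positivity)] at hrA
    linarith
  have hrA' : √r ≤ 1 / A := by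
    rw [le_div_iff₀ hA0]
    nlinarith
  set S : Set ℂ := {z ∈ ball a R ∩ ⋂ l, Ω l | ‖Φ z - α‖ < r * (1 - ‖α‖)} with hS
  rcases S.eq_empty_or_nonempty with hemp | ⟨z₀, hz₀⟩
  · rw [hemp]
    exact Sol.empty
  have hz₀i : z₀ ∈ Ω i := (mem_iInter.1 hz₀.1.2) i
  obtain ⟨q, hq, hqa⟩ := hne
  have hcl : IsClosed (Ω i)ᶜ := hi.open_.isClosed_compl
  have hnec : (Ω i)ᶜ.Nonempty := ⟨q, hq⟩
  obtain ⟨p, hp, hpd⟩ := hcl.exists_infDist_eq_dist hnec z₀
  set d : ℝ := infDist z₀ (Ω i)ᶜ with hd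
  have hd0 : 0 < d := by
    rw [hpd, dist_pos]
    rintro rfl
    exact hp hz₀i
  have hdR : d ≤ 9 * R := by
    have h3 : d ≤ dist z₀ q := infDist_le_dist_of_mem hq
    have h4 : dist z₀ q ≤ dist z₀ a + dist a q := dist_triangle _ _ _
    have h5 : dist z₀ a < R := hz₀.1.1
    have h6 : dist q a < 8 * R := hqa
    rw [dist_comm a q] at h4
    linarith
  set t : ℝ := 2 * A * √r * d with ht
  have ht0 : 0 < t := by positivity
  have htd : t ≤ d := by nlinarith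
  have hSsub : S ⊆ ball z₀ t ∩ ⋂ j : Fin k, Ω (i.succAbove j) := by
    intro z hz
    refine ⟨?_, mem_iInter.2 fun j => (mem_iInter.1 hz.1.2) _⟩
    have h3 := hnear (Ω i) Φ hi r α hr hrA' hα hkind z₀ hz₀i z ((mem_iInter.1 hz.1.2) i)
      hz₀.2 hz.2 p hp
    rw [mem_ball, dist_eq_norm]
    have h4 : ‖z₀ - p‖ = d := by rw [hpd, dist_eq_norm]
    rw [h4] at h3
    have h5 : 0 < A * √r * d := by positivity
    calc ‖z - z₀‖ ≤ A * √r * d := h3
      _ < t := by rw [ht]; linarith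
  have hWsub : ball z₀ t ∩ ⋂ j : Fin k, Ω (i.succAbove j) ⊆ ball a (10 * R) ∩ ⋂ l, Ω l := by
    rintro z ⟨hz1, hz2⟩
    constructor
    · have h3 : dist z z₀ < t := hz1
      have h4 : dist z₀ a < R := hz₀.1.1
      have h5 := dist_triangle z z₀ a
      rw [mem_ball]
      linarith
    · refine mem_iInter.2 fun l => ?_
      by_cases hl : l = i
      · rw [hl]
        exact ball_infDist_compl_subset (ball_subset_ball htd hz1)
      · obtain ⟨j, hj⟩ := Fin.exists_succAbove_eq hl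
        rw [← hj]
        exact (mem_iInter.1 hz2) j
  have hfin := hCH z₀ t (fun j => Ω (i.succAbove j)) f ht0 (fun j => hΩ _) (hBA.mono hWsub)
    (hCor.mono hWsub)
  exact hfin.mono hSsub

end Pool.Agent.Work.MP_2cf110_an.Hyp

end
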