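import Pool.Agent.Work.MP_2cf110_an.Hyp.Koe

/-! # A Lipschitz estimate for univalent functions which omit a value

On ball w₀ (ρ/2) koe on ball w (ρ/2) gives |g'(w)| ≤ (1024/ρ)|g(w) - v|.  So for the function H(t) = g(w₀ + t(w - w₀)) - v on [0,1]: |H'| ≤ x |H|,
x = 1024|w-w₀|/ρ ≤ 1: Gronwall (norm_le_gronwallBound_of_norm_deriv_right_le applied to H(t) - H(0): |(H - H0)'| ≤ x|H - H0| + x|H0|) gives
|H(1) - H(0)| ≤ |H(0)|(e^x - 1) ≤ 2x|H(0)|. -/

open MeasureTheory Complex Set Metric Filter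
open scoped Topology ContDiff ComplexConjugate

noncomputable section

namespace Pool.Agent.Work.MP_2cf110_an.Hyp

open QC (dz dzb Test Cau)

theorem logLip {g : ℂ → ℂ} {w₀ w v : ℂ} {ρ : ℝ} (hρ : 0 < ρ) (hg : DifferentiableOn ℂ g (ball w₀ ρ))
    (hinj : InjOn g (ball w₀ ρ)) (hv : v ∉ g '' ball w₀ ρ) (hw : ‖w - w₀‖ ≤ ρ / 1024) :
    ‖g w - g w₀‖ ≤ 2048 * ‖w - w₀‖ / ρ * ‖g w₀ - v‖ := by
  have hx1 : 1024 * ‖w - w₀‖ / ρ ≤ 1 := by
    rw [div_le_one hρ]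
    linarith
  have hx0 : 0 ≤ 1024 * ‖w - w₀‖ / ρ := by positivity
  obtain ⟨x, hx⟩ : ∃ x : ℝ, x = 1024 * ‖w - w₀‖ / ρ := ⟨_, rfl⟩
  rw [← hx] at hx0 hx1
  have h2048 : 2048 * ‖w - w₀‖ / ρ = 2 * x := by
    rw [hx]
    ring
  rw [h2048]
  -- the estimate of the derivative
  have hder : ∀ z ∈ ball w₀ (ρ / 2), ‖deriv g z‖ ≤ 1024 / ρ * ‖g z - v‖ := by
    intro z hz
    have hsub : ball z (ρ / 2) ⊆ ball w₀ ρ := by
      intro y hy
      rw [mem_ball] at hy hz ⊢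
      linarith [dist_triangle y z w₀]
    have h1 := koe (half_pos hρ) (hg.mono hsub) (hinj.mono hsub)
      (fun h => hv (image_mono hsub h))
    rw [div_mul_eq_mul_div, le_div_iff₀ hρ]
    linarith
  have hseg : ∀ t ∈ Icc (0 : ℝ) 1, w₀ + t * (w - w₀) ∈ ball w₀ (ρ / 2) := by
    intro t ht
    rw [mem_ball, dist_eq, add_sub_cancel_left, norm_mul, norm_real, Real.norm_of_nonneg ht.1]
    have h1 : t * ‖w - w₀‖ ≤ 1 * ‖w - w₀‖ := mul_le_mul_of_nonneg_right ht.2 (norm_nonneg _)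
    linarith
  have hd : ∀ t ∈ Icc (0 : ℝ) 1, HasDerivAt (fun t : ℝ => g (w₀ + t * (w - w₀)) - g w₀)
      (deriv g (w₀ + t * (w - w₀)) * (w - w₀)) t := by
    intro t ht
    have hmem : w₀ + t * (w - w₀) ∈ ball w₀ ρ := ball_subset_ball (by linarith) (hseg t ht)
    have h1 : HasDerivAt g (deriv g (w₀ + t * (w - w₀))) (w₀ + t * (w - w₀)) :=
      (hg.differentiableAt (isOpen_ball.mem_nhds hmem)).hasDerivAt
    have h2 : HasDerivAt (fun t : ℝ => w₀ + t * (w - w₀)) (w - w₀) t := by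
      have h3 : HasDerivAt (fun t : ℝ => (t : ℂ)) 1 t := Complex.ofRealCLM.hasDerivAt
      have h4 := (h3.mul_const (w - w₀)).const_add w₀
      rwa [one_mul] at h4
    exact (h1.comp t h2).sub_const _
  have hgr := norm_le_gronwallBound_of_norm_deriv_right_le
    (f := fun t : ℝ => g (w₀ + t * (w - w₀)) - g w₀)
    (f' := fun t : ℝ => deriv g (w₀ + t * (w - w₀)) * (w - w₀))
    (δ := 0) (K := x) (ε := x * ‖g w₀ - v‖) (a := 0) (b := 1)
    (fun t ht => (hd t ht).continuousAt.continuousWithinAt)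
    (fun t ht => (hd t (Ico_subset_Icc_self ht)).hasDerivWithinAt) (by simp) (by
      intro t ht
      have h1 := hder _ (hseg t (Ico_subset_Icc_self ht))
      rw [norm_mul]
      have h2 : ‖g (w₀ + t * (w - w₀)) - v‖ ≤ ‖g (w₀ + t * (w - w₀)) - g w₀‖ + ‖g w₀ - v‖ := by
        have := norm_add_le (g (w₀ + t * (w - w₀)) - g w₀) (g w₀ - v)
        rwa [sub_add_sub_cancel] at this
      calc ‖deriv g (w₀ + t * (w - w₀))‖ * ‖w - w₀‖
          ≤ (1024 / ρ * ‖g (w₀ + t * (w - w₀)) - v‖) * ‖w - w₀‖ :=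
            mul_le_mul_of_nonneg_right h1 (norm_nonneg _)
        _ = x * ‖g (w₀ + t * (w - w₀)) - v‖ := by
            rw [hx]
            ring
        _ ≤ x * (‖g (w₀ + t * (w - w₀)) - g w₀‖ + ‖g w₀ - v‖) :=
            mul_le_mul_of_nonneg_left h2 hx0
        _ = x * ‖g (w₀ + t * (w - w₀)) - g w₀‖ + x * ‖g w₀ - v‖ := by ring) 1
    (right_mem_Icc.2 zero_le_one)
  have h1 : g (w₀ + ((1 : ℝ) : ℂ) * (w - w₀)) - g w₀ = g w - g w₀ := by
    rw [ofReal_one, one_mul, add_sub_cancel]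
  rw [h1] at hgr
  refine hgr.trans ?_
  rcases eq_or_lt_of_le hx0 with h0 | h0
  · rw [← h0, gronwallBound_K0]
    simp
  · rw [gronwallBound_of_K_ne_0 h0.ne']
    have h2 : |Real.exp x - 1| ≤ 2 * |x| := Real.abs_exp_sub_one_le (by rw [abs_of_pos h0]; exact hx1)
    rw [abs_of_pos h0] at h2
    have h3 : Real.exp x - 1 ≤ 2 * x := (le_abs_self _).trans h2
    have h4 : 0 * Real.exp (x * (1 - 0)) + x * ‖g w₀ - v‖ / x * (Real.exp (x * (1 - 0)) - 1) =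
        ‖g w₀ - v‖ * (Real.exp x - 1) := by
      rw [sub_zero, mul_one]
      field_simp
      ring
    show 0 * Real.exp (x * (1 - 0)) + x * ‖g w₀ - v‖ / x * (Real.exp (x * (1 - 0)) - 1) ≤ _
    rw [h4]
    nlinarith [norm_nonneg (g w₀ - v)]

end Pool.Agent.Work.MP_2cf110_an.Hyp

end
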