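import Pool.Agent.Work.MP_2cf110_an.Hyp.HoleDef
import Pool.Agent.Work.MP_2cf110_an.Hyp.LogLip
import Pool.Agent.Work.MP_2cf110_an.Loc

/-! # A hole of the second kind

The complement is nonempty (Liouville: otherwise Φ is entire, bounded, injective).  Fix p not in Ω, ψ = Φ⁻¹ on the punctured disc; |ψ w| → ∞ as w → 0 (Φ maps a
neighborhood of ∞ onto a punctured neighborhood of 0: open mapping for u ↦ Φ(1/u)).  h(w) = 1/(ψ(w) - p), h(0) = 0 is analytic (removable singularity) and injective on the disc,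
d = |h'(0)| > 0, and h omits 1/(q - p) for q not in Ω, q ≠ p.  koe: |q - p| ≤ 512/d =: ρ.  Schwarz lemma for u(ζ) = Φ(p + τ/ζ) if Ωᶜ ⊆ closedBall p τ:
h(u(ζ)) = ζ/τ, so 1/(τ d) = |u'(0)| ≤ 1: hence for τ = 1/(2d) there is q not in Ω with |q - p| > 1/(2d), v = 1/(q-p), |v| < 2d; logLip on ball 0 1: |h(w)| ≤ 2048·2d|w| for
|w| ≤ 1/1024, so |z - p| = 1/|h(w)| ≥ 1/(4096 d |w|). -/

open MeasureTheory Complex Set Metric Filter
open scoped Topology ContDiff ComplexConjugate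

noncomputable section

namespace Pool.Agent.Work.MP_2cf110_an.Hyp

open QC (dz dzb Test Cau)

private lemma lim_inf {Φ : ℂ → ℂ} (hlim : Tendsto Φ (cocompact ℂ) (𝓝 0)) {ε : ℝ} (hε : 0 < ε) :
    ∃ M : ℝ, 0 < M ∧ ∀ z, M < ‖z‖ → ‖Φ z‖ < ε := by
  have h1 := hlim.eventually (Metric.ball_mem_nhds (0 : ℂ) hε)
  rw [Filter.eventually_iff, Filter.mem_cocompact] at h1
  obtain ⟨K, hK, hKs⟩ := h1
  obtain ⟨M, hM⟩ := hK.isBounded.subset_closedBall (0 : ℂ)
  refine ⟨max M 1, by positivity, fun z hz => ?_⟩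
  have h2 : z ∈ Kᶜ := by
    intro hzK
    have h3 := hM hzK
    rw [mem_closedBall_zero_iff] at h3
    have h4 := le_max_left M 1
    linarith
  have h3 := hKs h2
  simpa using h3

private lemma at_inf {Ω : Set ℂ} {Φ : ℂ → ℂ} (h : Hole Ω Φ) (hk : Φ '' Ω = ball 0 1 \ {0})
    (hlim : Tendsto Φ (cocompact ℂ) (𝓝 0)) {p : ℂ} {τ : ℝ} (hτ : 0 < τ)
    (hsub : Ωᶜ ⊆ closedBall p τ) :
    ∃ u : ℂ → ℂ, DifferentiableOn ℂ u (ball 0 1) ∧ InjOn u (ball 0 1) ∧ u 0 = 0 ∧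
      (∀ ζ ∈ ball (0 : ℂ) 1, ζ ≠ 0 → u ζ = Φ (p + τ / ζ) ∧ p + τ / ζ ∈ Ω) ∧
      MapsTo u (ball 0 1) (ball 0 1) := by
  have hτc : (τ : ℂ) ≠ 0 := by exact_mod_cast hτ.ne'
  have hin : ∀ ζ ∈ ball (0 : ℂ) 1, ζ ≠ 0 → p + τ / ζ ∈ Ω := by
    intro ζ hζ hζ0
    by_contra hcon
    have h1 := hsub hcon
    rw [mem_closedBall, dist_eq_norm] at h1
    have h2 : p + τ / ζ - p = τ / ζ := by ring
    rw [h2, norm_div, Complex.norm_real, Real.norm_of_nonneg hτ.le] at h1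
    have h3 : 0 < ‖ζ‖ := norm_pos_iff.2 hζ0
    rw [mem_ball_zero_iff] at hζ
    rw [div_le_iff₀ h3] at h1
    nlinarith
  set u : ℂ → ℂ := fun ζ => if ζ = 0 then 0 else Φ (p + τ / ζ) with hu
  have hu0 : u 0 = 0 := by simp [hu]
  have hu1 : ∀ ζ, ζ ≠ 0 → u ζ = Φ (p + τ / ζ) := by
    intro ζ hζ
    simp [hu, hζ]
  have hne : ∀ z ∈ Ω, Φ z ≠ 0 := by
    intro z hz h0
    have h1 : Φ z ∈ Φ '' Ω := ⟨z, hz, rfl⟩
    rw [hk] at h1
    exact h1.2 (by simpa using h0)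
  refine ⟨u, ?_, ?_, hu0, fun ζ hζ hζ0 => ⟨hu1 ζ hζ0, hin ζ hζ hζ0⟩, ?_⟩
  · refine (Complex.differentiableOn_compl_singleton_and_continuousAt_iff
      (ball_mem_nhds (0 : ℂ) one_pos)).1 ⟨?_, ?_⟩
    · intro ζ hζ
      have hζ0 : ζ ≠ 0 := by simpa using hζ.2
      have h1 : DifferentiableAt ℂ Φ (p + τ / ζ) :=
        (h.holo _ (hin ζ hζ.1 hζ0)).differentiableAt (h.open_.mem_nhds (hin ζ hζ.1 hζ0))
      have h2 : DifferentiableAt ℂ (fun ζ : ℂ => p + τ / ζ) ζ :=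
        (differentiableAt_const _).add ((differentiableAt_const _).div differentiableAt_id hζ0)
      have h3 : DifferentiableAt ℂ (fun ζ : ℂ => Φ (p + τ / ζ)) ζ := h1.comp ζ h2
      have h4 : u =ᶠ[𝓝 ζ] fun ζ : ℂ => Φ (p + τ / ζ) := by
        filter_upwards [isOpen_ne.mem_nhds hζ0] with w hw using hu1 w hw
      exact (h3.congr_of_eventuallyEq h4).differentiableWithinAt
    · rw [Metric.continuousAt_iff]
      intro ε hε
      obtain ⟨M, hM, hM1⟩ := lim_inf hlim hε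
      refine ⟨τ / (M + ‖p‖), by positivity, fun {ζ} hζ => ?_⟩
      rw [hu0, dist_zero_right]
      by_cases hζ0 : ζ = 0
      · rw [hζ0, hu0, norm_zero]
        exact hε
      · rw [hu1 ζ hζ0]
        apply hM1
        rw [dist_zero_right] at hζ
        have h3 : 0 < ‖ζ‖ := norm_pos_iff.2 hζ0
        have h4 : M + ‖p‖ < τ / ‖ζ‖ := by
          rw [lt_div_iff₀ h3]
          rw [lt_div_iff₀ (by positivity)] at hζ
          linarith
        have h5 : ‖(τ : ℂ) / ζ‖ = τ / ‖ζ‖ := by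
          rw [norm_div, Complex.norm_real, Real.norm_of_nonneg hτ.le]
        have h6 : ‖(τ : ℂ) / ζ‖ ≤ ‖p + τ / ζ‖ + ‖p‖ := by
          have h7 : (τ : ℂ) / ζ = (p + τ / ζ) - p := by ring
          calc ‖(τ : ℂ) / ζ‖ = ‖(p + τ / ζ) - p‖ := by rw [← h7]
            _ ≤ _ := norm_sub_le _ _
        rw [h5] at h6
        linarith
  · intro ζ hζ ξ hξ he
    by_cases hζ0 : ζ = 0
    · by_cases hξ0 : ξ = 0
      · rw [hζ0, hξ0]
      · exfalso
        rw [hζ0, hu0, hu1 ξ hξ0] at he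
        exact hne _ (hin ξ hξ hξ0) he.symm
    · by_cases hξ0 : ξ = 0
      · exfalso
        rw [hξ0, hu0, hu1 ζ hζ0] at he
        exact hne _ (hin ζ hζ hζ0) he
      · rw [hu1 ζ hζ0, hu1 ξ hξ0] at he
        have h1 := h.inj (hin ζ hζ hζ0) (hin ξ hξ hξ0) he
        have h2 : (τ : ℂ) / ζ = τ / ξ := add_left_cancel h1
        rw [div_eq_div_iff hζ0 hξ0] at h2
        exact (mul_left_cancel₀ hτc h2).symm
  · intro ζ hζ
    by_cases hζ0 : ζ = 0
    · rw [hζ0, hu0]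
      exact mem_ball_self one_pos
    · rw [hu1 ζ hζ0, mem_ball_zero_iff]
      exact h.lt _ (hin ζ hζ hζ0)

theorem hole_far : ∃ A : ℝ, 1 ≤ A ∧ ∀ (Ω : Set ℂ) (Φ : ℂ → ℂ), Hole Ω Φ → Φ '' Ω ≠ ball 0 1 →
    ∃ (c : ℂ) (ρ : ℝ), 0 < ρ ∧ Ωᶜ ⊆ closedBall c ρ ∧
    ∀ z ∈ Ω, ‖Φ z‖ < 1 / A → ρ ≤ A * ‖Φ z‖ * ‖z - c‖ := by
  refine ⟨512 * 4096, by norm_num, ?_⟩
  intro Ω Φ h hne1
  obtain ⟨hk, hbd, hlim⟩ : Φ '' Ω = ball 0 1 \ {0} ∧ Bornology.IsBounded Ωᶜ ∧
      Tendsto Φ (cocompact ℂ) (𝓝 0) := by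
    rcases h.kind with h1 | h1
    · exact absurd h1 hne1
    · exact h1
  have hne : ∀ z ∈ Ω, Φ z ≠ 0 := by
    intro z hz h0
    have h1 : Φ z ∈ Φ '' Ω := ⟨z, hz, rfl⟩
    rw [hk] at h1
    exact h1.2 (by simpa using h0)
  -- the complement is nonempty
  obtain ⟨p, hp⟩ : ∃ p, p ∉ Ω := by
    by_contra hcon
    push Not at hcon
    have h1 : Differentiable ℂ Φ := fun z =>
      (h.holo z (hcon z)).differentiableAt (h.open_.mem_nhds (hcon z))
    have h2 : Bornology.IsBounded (range Φ) := by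
      refine (Metric.isBounded_ball (x := (0 : ℂ)) (r := 1)).subset ?_
      rintro _ ⟨z, rfl⟩
      rw [mem_ball_zero_iff]
      exact h.lt z (hcon z)
    have h3 := h1.apply_eq_apply_of_bounded h2 0 1
    exact zero_ne_one (h.inj (hcon 0) (hcon 1) h3)
  obtain ⟨ψ, hψd, hψ1⟩ := (exists_inverse h.open_ h.holo h.inj).2
  rw [hk] at hψd
  have hψ2 : ∀ w ∈ ball (0 : ℂ) 1, w ≠ 0 → ψ w ∈ Ω ∧ Φ (ψ w) = w := by
    intro w hw hw0
    have h1 : w ∈ Φ '' Ω := by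
      rw [hk]
      exact ⟨hw, by simpa using hw0⟩
    obtain ⟨z, hz, rfl⟩ := h1
    rw [hψ1 z hz]
    exact ⟨hz, rfl⟩
  obtain ⟨τ₀, hτ₀⟩ := hbd.subset_closedBall p
  -- ψ tends to infinity
  have hinf : ∀ B : ℝ, ∃ δ : ℝ, 0 < δ ∧ ∀ w, w ≠ 0 → ‖w‖ < δ → B < ‖ψ w - p‖ := by
    intro B
    set τ : ℝ := max (max τ₀ B) 1 with hτ
    have hτ0 : 0 < τ := lt_of_lt_of_le one_pos (le_max_right _ _)
    have hτ1 : τ₀ ≤ τ := (le_max_left _ _).trans (le_max_left _ _)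
    have hτ2 : B ≤ τ := (le_max_right _ _).trans (le_max_left _ _)
    obtain ⟨u, hud, hui, hu0, hu1, hum⟩ :=
      at_inf h hk hlim hτ0 (hτ₀.trans (closedBall_subset_closedBall hτ1))
    have ho := (exists_inverse isOpen_ball hud hui).1
    have h0 : (0 : ℂ) ∈ u '' ball 0 1 := ⟨0, mem_ball_self one_pos, hu0⟩
    obtain ⟨δ, hδ, hδs⟩ := Metric.isOpen_iff.1 ho 0 h0
    refine ⟨δ, hδ, fun w hw0 hw => ?_⟩
    obtain ⟨ζ, hζ, rfl⟩ := hδs (by rw [mem_ball_zero_iff]; exact hw : w ∈ ball 0 δ)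
    have hζ0 : ζ ≠ 0 := by
      intro h1
      rw [h1, hu0] at hw0
      exact hw0 rfl
    obtain ⟨h2, h3⟩ := hu1 ζ hζ hζ0
    rw [h2, hψ1 _ h3]
    have h4 : p + τ / ζ - p = τ / ζ := by ring
    rw [h4, norm_div, Complex.norm_real, Real.norm_of_nonneg hτ0.le]
    have h5 : 0 < ‖ζ‖ := norm_pos_iff.2 hζ0
    rw [mem_ball_zero_iff] at hζ
    refine lt_of_le_of_lt hτ2 ?_
    rw [lt_div_iff₀ h5]
    nlinarith
  -- the function g
  set g : ℂ → ℂ := fun w => if w = 0 then 0 else 1 / (ψ w - p) with hg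
  have hg0 : g 0 = 0 := by simp [hg]
  have hg1 : ∀ w, w ≠ 0 → g w = 1 / (ψ w - p) := by
    intro w hw
    simp [hg, hw]
  have hsubne : ∀ w ∈ ball (0 : ℂ) 1, w ≠ 0 → ψ w - p ≠ 0 := by
    intro w hw hw0 h1
    have h2 := (hψ2 w hw hw0).1
    rw [sub_eq_zero.1 h1] at h2
    exact hp h2
  have hgd : DifferentiableOn ℂ g (ball 0 1) := by
    refine (Complex.differentiableOn_compl_singleton_and_continuousAt_iff
      (ball_mem_nhds (0 : ℂ) one_pos)).1 ⟨?_, ?_⟩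
    · intro w hw
      have hw0 : w ≠ 0 := by simpa using hw.2
      have ho : IsOpen (ball (0 : ℂ) 1 \ {0}) := isOpen_ball.sdiff isClosed_singleton
      have h1 : DifferentiableAt ℂ ψ w := (hψd w hw).differentiableAt (ho.mem_nhds hw)
      have h3 : DifferentiableAt ℂ (fun w => 1 / (ψ w - p)) w :=
        (differentiableAt_const _).div (h1.sub (differentiableAt_const _)) (hsubne w hw.1 hw0)
      have h4 : g =ᶠ[𝓝 w] fun w => 1 / (ψ w - p) := by
        filter_upwards [isOpen_ne.mem_nhds hw0] with x hx using hg1 x hx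
      exact (h3.congr_of_eventuallyEq h4).differentiableWithinAt
    · rw [Metric.continuousAt_iff]
      intro ε hε
      obtain ⟨δ, hδ, hδ1⟩ := hinf (1 / ε)
      refine ⟨δ, hδ, fun {w} hw => ?_⟩
      rw [hg0, dist_zero_right]
      by_cases hw0 : w = 0
      · rw [hw0, hg0, norm_zero]
        exact hε
      · rw [hg1 w hw0, norm_div, norm_one]
        rw [dist_zero_right] at hw
        have h1 := hδ1 w hw0 hw
        have h2 : 0 < ‖ψ w - p‖ := lt_trans (by positivity) h1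
        rw [div_lt_iff₀ h2]
        rw [div_lt_iff₀ hε] at h1
        linarith
  have hgz : ∀ z ∈ Ω, g (Φ z) = 1 / (z - p) := by
    intro z hz
    rw [hg1 _ (hne z hz), hψ1 z hz]
  have hgn : ∀ w ∈ ball (0 : ℂ) 1, w ≠ 0 → g w ≠ 0 := by
    intro w hw hw0
    rw [hg1 w hw0]
    exact one_div_ne_zero (hsubne w hw hw0)
  have hgi : InjOn g (ball 0 1) := by
    intro w hw x hx he
    by_cases hw0 : w = 0
    · by_cases hx0 : x = 0
      · rw [hw0, hx0]
      · exfalso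
        rw [hw0, hg0] at he
        exact hgn x hx hx0 he.symm
    · by_cases hx0 : x = 0
      · exfalso
        rw [hx0, hg0] at he
        exact hgn w hw hw0 he
      · rw [hg1 w hw0, hg1 x hx0, one_div, one_div, inv_inj, sub_left_inj] at he
        rw [← (hψ2 w hw hw0).2, ← (hψ2 x hx hx0).2, he]
  have h01 : (0 : ℂ) ∈ ball (0 : ℂ) 1 := mem_ball_self one_pos
  have hgd0 : DifferentiableAt ℂ g 0 := (hgd 0 h01).differentiableAt (ball_mem_nhds _ one_pos)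
  obtain ⟨d, hd⟩ : ∃ d, d = ‖deriv g 0‖ := ⟨_, rfl⟩
  have hd0 : 0 < d := by
    rw [hd, norm_pos_iff]
    intro h0
    obtain ⟨hgo, χ, hχd, hχ1⟩ := exists_inverse isOpen_ball hgd hgi
    have h1 : DifferentiableAt ℂ χ (g 0) :=
      (hχd _ ⟨0, h01, rfl⟩).differentiableAt (hgo.mem_nhds ⟨0, h01, rfl⟩)
    have h2 : HasDerivAt (χ ∘ g) (deriv χ (g 0) * deriv g 0) 0 :=
      h1.hasDerivAt.comp 0 hgd0.hasDerivAt
    have h3 : (χ ∘ g) =ᶠ[𝓝 0] id := by
      filter_upwards [ball_mem_nhds (0 : ℂ) one_pos] with w hw using hχ1 w hw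
    have h4 : HasDerivAt (id : ℂ → ℂ) (deriv χ (g 0) * deriv g 0) 0 :=
      h2.congr_of_eventuallyEq h3.symm
    have h5 := h4.unique (hasDerivAt_id 0)
    rw [h0, mul_zero] at h5
    exact zero_ne_one h5
  have homit : ∀ q ∉ Ω, q ≠ p → 1 / (q - p) ∉ g '' ball 0 1 := by
    rintro q hq hqp ⟨w, hw, he⟩
    by_cases hw0 : w = 0
    · rw [hw0, hg0] at he
      exact (one_div_ne_zero (sub_ne_zero.2 hqp)) he.symm
    · rw [hg1 w hw0, one_div, one_div, inv_inj, sub_left_inj] at he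
      rw [← he] at hq
      exact hq (hψ2 w hw hw0).1
  refine ⟨p, 512 / d, by positivity, ?_, ?_⟩
  · intro q hq
    rw [mem_closedBall, dist_eq_norm]
    by_cases hqp : q = p
    · rw [hqp, sub_self, norm_zero]
      positivity
    · have h1 := koe one_pos hgd hgi (homit q hq hqp)
      rw [hg0, zero_sub, norm_neg, norm_div, norm_one, one_mul, ← hd] at h1
      have h2 : 0 < ‖q - p‖ := norm_pos_iff.2 (sub_ne_zero.2 hqp)
      rw [le_div_iff₀ hd0]
      have h3 : d * ‖q - p‖ ≤ 512 * (1 / ‖q - p‖) * ‖q - p‖ := mul_le_mul_of_nonneg_right h1 h2.le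
      have h4 : 512 * (1 / ‖q - p‖) * ‖q - p‖ = 512 := by
        field_simp
      linarith
  · -- a far point of the complement
    obtain ⟨q, hq, hqd⟩ : ∃ q ∉ Ω, 1 / (2 * d) < ‖q - p‖ := by
      by_contra hcon
      push Not at hcon
      have hsub : Ωᶜ ⊆ closedBall p (1 / (2 * d)) := by
        intro q hq
        rw [mem_closedBall, dist_eq_norm]
        exact hcon q hq
      have hτ : 0 < 1 / (2 * d) := by positivity
      obtain ⟨τ, hτd⟩ : ∃ τ, τ = 1 / (2 * d) := ⟨_, rfl⟩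
      rw [← hτd] at hsub hτ
      obtain ⟨u, hud, hui, hu0, hu1, hum⟩ := at_inf h hk hlim hτ hsub
      have hτc : (τ : ℂ) ≠ 0 := by exact_mod_cast hτ.ne'
      have hu2 : ‖deriv u 0‖ ≤ 1 / 1 := by
        refine Complex.norm_deriv_le_div_of_mapsTo_ball hud ?_ one_pos
        rw [hu0]
        exact fun x hx => ball_subset_closedBall (hum hx)
      have hud0 : DifferentiableAt ℂ u 0 := (hud 0 h01).differentiableAt (ball_mem_nhds _ one_pos)
      have hgu0 : DifferentiableAt ℂ g (u 0) := by rw [hu0]; exact hgd0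
      have h2 : HasDerivAt (g ∘ u) (deriv g (u 0) * deriv u 0) 0 :=
        hgu0.hasDerivAt.comp 0 hud0.hasDerivAt
      have h3 : (g ∘ u) =ᶠ[𝓝 0] fun ζ => ζ / τ := by
        filter_upwards [ball_mem_nhds (0 : ℂ) one_pos] with ζ hζ
        show g (u ζ) = ζ / τ
        by_cases hζ0 : ζ = 0
        · rw [hζ0, hu0, hg0, zero_div]
        · obtain ⟨h4, h5⟩ := hu1 ζ hζ hζ0
          rw [h4, hgz _ h5]
          have h6 : p + τ / ζ - p = τ / ζ := by ring
          rw [h6, one_div_div]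
      have h4 : HasDerivAt (fun ζ : ℂ => ζ / τ) (deriv g (u 0) * deriv u 0) 0 :=
        h2.congr_of_eventuallyEq h3.symm
      have h5 : HasDerivAt (fun ζ : ℂ => ζ / τ) (1 / τ) 0 := (hasDerivAt_id 0).div_const _
      have h6 := h4.unique h5
      rw [hu0] at h6
      have h7 : ‖deriv g 0‖ * ‖deriv u 0‖ = 1 / τ := by
        rw [← norm_mul, h6, norm_div, norm_one, Complex.norm_real, Real.norm_of_nonneg hτ.le]
      rw [← hd, hτd] at h7
      have h8 : 1 / (1 / (2 * d)) = 2 * d := by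
        rw [one_div_one_div]
      rw [h8] at h7
      have h9 : d * ‖deriv u 0‖ ≤ d * 1 := mul_le_mul_of_nonneg_left (by linarith) hd0.le
      linarith
    intro z hz hzA
    have hqp : q ≠ p := by
      intro h1
      rw [h1, sub_self, norm_zero] at hqd
      have : 0 < 1 / (2 * d) := by positivity
      linarith
    have hΦb : Φ z ∈ ball (0 : ℂ) 1 := by
      rw [mem_ball_zero_iff]
      exact h.lt z hz
    have hzp : z ≠ p := fun h1 => hp (h1 ▸ hz)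
    have h1 := logLip (w := Φ z) (w₀ := 0) one_pos hgd hgi (homit q hq hqp) (by
      rw [sub_zero]
      refine hzA.le.trans ?_
      norm_num)
    rw [hg0, hgz z hz, sub_zero, sub_zero, zero_sub, norm_neg, norm_div, norm_div, norm_one,
      div_one] at h1
    have h2 : 0 < ‖q - p‖ := norm_pos_iff.2 (sub_ne_zero.2 hqp)
    have h3 : 0 < ‖z - p‖ := norm_pos_iff.2 (sub_ne_zero.2 hzp)
    have h4 : 1 / ‖q - p‖ ≤ 2 * d := by
      rw [div_le_iff₀ h2]
      rw [div_lt_iff₀ (by positivity)] at hqd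
      linarith
    have h5 : 1 / ‖z - p‖ ≤ 2048 * ‖Φ z‖ * (2 * d) :=
      h1.trans (mul_le_mul_of_nonneg_left h4 (by positivity))
    rw [div_le_iff₀ h3] at h5
    rw [div_le_iff₀ hd0]
    nlinarith

end Pool.Agent.Work.MP_2cf110_an.Hyp

end
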