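import Pool.Agent.Work.MP_2cf110_an.Hyp.CorH1
import Pool.Agent.Work.MP_2cf110_an.Hyp.HoleF
import Pool.Agent.Work.MP_2cf110_an.Hyp.HypOne

/-! # One hole of the first kind, or a large hole of the second kind

hyp_one on V = ball a R ∩ ⋂ Ω l with the coordinate Φ of Ω i and a suitable r.  First kind: every local set is as in corH_near.  Second kind, with c, ρ from hole_far and
ρ ≥ q R: if √r ≤ |α| corH_near; if |α| < √r then on the local set |Φ z| < 2√r, so ρ ≤ A 2√r ‖z - c‖ ≤ 2 A √r (9R + ρ) (‖z - c‖ ≤ ‖z - p‖ + ‖p - c‖ ≤ 9R + ρ for p in the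
complement and in ball a (8R)), impossible for small r (depending on q): the local set is empty. -/

open MeasureTheory Complex Set Metric Filter
open scoped Topology ContDiff ComplexConjugate

noncomputable section

namespace Pool.Agent.Work.MP_2cf110_an.Hyp

open QC (dz dzb Test Cau)

variable {n k : ℕ}

private theorem corH2_open {a : ℂ} {R : ℝ} {Ω : Fin (k + 1) → Set ℂ}
    (hH : ∀ l, ∃ Φ, Hole (Ω l) Φ) : IsOpen (ball a R ∩ ⋂ l, Ω l) := by
  refine isOpen_ball.inter (isOpen_iInter_of_finite fun l => ?_)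
  obtain ⟨Φ, h⟩ := hH l
  exact h.open_

private theorem corH2_sub {a : ℂ} {R : ℝ} {Ω : Fin (k + 1) → Set ℂ} (hR : 0 < R) :
    ball a R ∩ ⋂ l, Ω l ⊆ ball a (10 * R) ∩ ⋂ l, Ω l :=
  inter_subset_inter_left _ (ball_subset_ball (by linarith))

private theorem corH2_subi {a : ℂ} {R : ℝ} {Ω : Fin (k + 1) → Set ℂ} (i : Fin (k + 1)) :
    ball a R ∩ ⋂ l, Ω l ⊆ Ω i := fun z hz => mem_iInter.1 hz.2 i

theorem corH_first {K δ C : ℝ} (hk : CH n k K δ C) : ∃ C' : ℝ,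
    ∀ (a : ℂ) (R : ℝ) (Ω : Fin (k + 1) → Set ℂ) (f : Fin n → ℂ → ℂ) (i : Fin (k + 1)) (Φ : ℂ → ℂ),
    0 < R → (∀ l, ∃ Φ, Hole (Ω l) Φ) → Hole (Ω i) Φ → Φ '' Ω i = ball 0 1 →
    BA K (ball a (10 * R) ∩ ⋂ l, Ω l) f → Cor δ (ball a (10 * R) ∩ ⋂ l, Ω l) f →
    ((Ω i)ᶜ ∩ ball a (8 * R)).Nonempty → Sol C' (ball a R ∩ ⋂ l, Ω l) f := by
  obtain ⟨A, hA, hnear⟩ := corH_near (n := n) (k := k)
  have hA0 : 0 < A := by linarith
  have hr : 0 < (1 / A) ^ 2 := by positivity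
  have h1A : 1 / A ≤ 1 := by
    rw [div_le_one hA0]
    exact hA
  have hr1 : (1 / A) ^ 2 ≤ 1 := pow_le_one₀ (by positivity) h1A
  have hsq : √((1 / A) ^ 2) ≤ 1 / A := by rw [Real.sqrt_sq (by positivity)]
  obtain ⟨C', hC'⟩ := hyp_one n (K := K) (M := C) hr hr1
  refine ⟨C', fun a R Ω f i Φ hR hH hi him hBA hCor hne => ?_⟩
  refine hC' (ball a R ∩ ⋂ l, Ω l) f Φ (corH2_open hH) (hBA.mono (corH2_sub hR))
    (hi.holo.mono (corH2_subi i)) (hi.inj.mono (corH2_subi i))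
    (fun z hz => hi.lt z (corH2_subi i hz)) fun α hα => ?_
  exact hnear K δ C hk a α R _ Ω f i Φ hR hH hi hBA hCor hr hsq hne hα (Or.inl him)

theorem corH_large {K δ C A q : ℝ} (hA : 1 ≤ A) (hq : 0 < q) (hk : CH n k K δ C) : ∃ C' : ℝ,
    ∀ (a c : ℂ) (R ρ : ℝ) (Ω : Fin (k + 1) → Set ℂ) (f : Fin n → ℂ → ℂ) (i : Fin (k + 1))
      (Φ : ℂ → ℂ),
    0 < R → (∀ l, ∃ Φ, Hole (Ω l) Φ) → Hole (Ω i) Φ →
    BA K (ball a (10 * R) ∩ ⋂ l, Ω l) f → Cor δ (ball a (10 * R) ∩ ⋂ l, Ω l) f →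
    ((Ω i)ᶜ ∩ ball a (8 * R)).Nonempty → (Ω i)ᶜ ⊆ closedBall c ρ →
    (∀ z ∈ Ω i, ‖Φ z‖ < 1 / A → ρ ≤ A * ‖Φ z‖ * ‖z - c‖) → q * R ≤ ρ →
    Sol C' (ball a R ∩ ⋂ l, Ω l) f := by
  obtain ⟨A₁, hA₁, hnear⟩ := corH_near (n := n) (k := k)
  have hA0 : 0 < A := by linarith
  have hA₁0 : 0 < A₁ := by linarith
  have hq9 : 0 < 9 / q := by positivity
  obtain ⟨t, ht⟩ : ∃ t, t = min (1 / A₁) (1 / (2 * A * (9 / q + 1))) := ⟨_, rfl⟩
  have ht0 : 0 < t := by
    rw [ht]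
    exact lt_min (by positivity) (by positivity)
  have ht1 : t ≤ 1 / A₁ := by
    rw [ht]
    exact min_le_left _ _
  have ht2 : t ≤ 1 / (2 * A * (9 / q + 1)) := by
    rw [ht]
    exact min_le_right _ _
  have ht3 : t * (2 * A * (9 / q + 1)) ≤ 1 := by
    rwa [le_div_iff₀ (by positivity)] at ht2
  have hle1 : t ≤ 1 := ht1.trans (by
    rw [div_le_one hA₁0]
    exact hA₁)
  have ht4 : 2 * t < 1 / A := by
    rw [lt_div_iff₀ hA0]
    have h1 : 0 < t * A * (9 / q) := by positivity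
    nlinarith
  have hr : 0 < t ^ 2 := by positivity
  have hr1 : t ^ 2 ≤ 1 := pow_le_one₀ ht0.le hle1
  have hsqe : √(t ^ 2) = t := Real.sqrt_sq ht0.le
  have hsq : √(t ^ 2) ≤ 1 / A₁ := by rwa [hsqe]
  obtain ⟨C', hC'⟩ := hyp_one n (K := K) (M := C) hr hr1
  refine ⟨C', fun a c R ρ Ω f i Φ hR hH hi hBA hCor hne hcl hfar hqR => ?_⟩
  refine hC' (ball a R ∩ ⋂ l, Ω l) f Φ (corH2_open hH) (hBA.mono (corH2_sub hR))
    (hi.holo.mono (corH2_subi i)) (hi.inj.mono (corH2_subi i))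
    (fun z hz => hi.lt z (corH2_subi i hz)) fun α hα => ?_
  by_cases hα2 : √(t ^ 2) ≤ ‖α‖
  · exact hnear K δ C hk a α R _ Ω f i Φ hR hH hi hBA hCor hr hsq hne hα (Or.inr hα2)
  · rw [hsqe, not_le] at hα2
    have hempty : {z ∈ ball a R ∩ ⋂ l, Ω l | ‖Φ z - α‖ < t ^ 2 * (1 - ‖α‖)} = ∅ := by
      rw [eq_empty_iff_forall_notMem]
      rintro z ⟨hz, hzα⟩
      have hΦ : ‖Φ z‖ < 2 * t := by
        have h1 : ‖Φ z‖ ≤ ‖Φ z - α‖ + ‖α‖ := by
          have h2 : Φ z = (Φ z - α) + α := by ring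
          calc ‖Φ z‖ = ‖(Φ z - α) + α‖ := by rw [← h2]
            _ ≤ _ := norm_add_le _ _
        have h3 : t ^ 2 * (1 - ‖α‖) ≤ t := by
          have h4 : t ^ 2 * (1 - ‖α‖) ≤ t ^ 2 * 1 :=
            mul_le_mul_of_nonneg_left (by linarith [norm_nonneg α]) hr.le
          have h5 : t ^ 2 ≤ t := by nlinarith
          linarith
        linarith
      obtain ⟨p, hp1, hp2⟩ := hne
      have hzi := corH2_subi i hz
      have h6 := hfar z hzi (hΦ.trans ht4)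
      have h7 : ‖z - c‖ < 9 * R + ρ := by
        have h8 : z - c = (z - a) - (p - a) + (p - c) := by ring
        have h9 : ‖z - a‖ < R := by
          have := mem_ball.1 hz.1
          rwa [dist_eq_norm] at this
        have h10 : ‖p - a‖ < 8 * R := by
          have := mem_ball.1 hp2
          rwa [dist_eq_norm] at this
        have h11 : ‖p - c‖ ≤ ρ := by
          have := mem_closedBall.1 (hcl hp1)
          rwa [dist_eq_norm] at this
        rw [h8]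
        have h12 := norm_add_le ((z - a) - (p - a)) (p - c)
        have h13 := norm_sub_le (z - a) (p - a)
        linarith
      have hρ : 0 < ρ := lt_of_lt_of_le (mul_pos hq hR) hqR
      have h8 : 9 * R + ρ ≤ (9 / q + 1) * ρ := by
        have h9 : R ≤ ρ / q := by
          rw [le_div_iff₀ hq]
          linarith
        have h10 : 9 * R ≤ 9 * (ρ / q) := by linarith
        calc 9 * R + ρ ≤ 9 * (ρ / q) + ρ := by linarith
          _ = _ := by ring
      have h9 : A * ‖Φ z‖ * ‖z - c‖ ≤ A * (2 * t) * ‖z - c‖ :=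
        mul_le_mul_of_nonneg_right (mul_le_mul_of_nonneg_left hΦ.le hA0.le) (norm_nonneg _)
      have h10 : A * (2 * t) * ‖z - c‖ < A * (2 * t) * ((9 / q + 1) * ρ) :=
        mul_lt_mul_of_pos_left (h7.trans_le h8) (by positivity)
      have h11 : A * (2 * t) * ((9 / q + 1) * ρ) ≤ ρ := by
        have h12 : A * (2 * t) * ((9 / q + 1) * ρ) = t * (2 * A * (9 / q + 1)) * ρ := by ring
        rw [h12]
        calc _ ≤ 1 * ρ := mul_le_mul_of_nonneg_right ht3 hρ.le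
          _ = ρ := one_mul _
      linarith
    rw [hempty]
    exact Sol.empty

end Pool.Agent.Work.MP_2cf110_an.Hyp

end
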