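import Pool.Agent.Work.MP_2cf110_an.Hyp.HypOne

/-! # Hyperbolic localization along several injective coordinates

Induction on m: for fixed a_m apply the case m - 1 to the open set {z in V : |Φ_m z - a_m| < r_m (1 - |a_m|)}, then hyp_one with Φ_m. -/

open MeasureTheory Complex Set Metric Filter
open scoped Topology ContDiff ComplexConjugate

noncomputable section

namespace Pool.Agent.Work.MP_2cf110_an.Hyp

open QC (dz dzb Test Cau)

theorem hyp_m (m n : ℕ) {r : Fin m → ℝ} {K M : ℝ} (hr : ∀ i, 0 < r i) (hr1 : ∀ i, r i ≤ 1) :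
    ∃ C : ℝ, ∀ (V : Set ℂ) (f : Fin n → ℂ → ℂ) (Φ : Fin m → ℂ → ℂ), IsOpen V → BA K V f →
    (∀ i, DifferentiableOn ℂ (Φ i) V) → (∀ i, InjOn (Φ i) V) → (∀ i, ∀ z ∈ V, ‖Φ i z‖ < 1) →
    (∀ a : Fin m → ℂ, (∀ i, ‖a i‖ < 1) →
      Sol M {z ∈ V | ∀ i, ‖Φ i z - a i‖ < r i * (1 - ‖a i‖)} f) → Sol C V f := by
  induction m with
  | zero =>
    refine ⟨M, fun V f Φ _ _ _ _ _ h => ?_⟩
    refine (h (fun i => i.elim0) (fun i => i.elim0)).mono ?_
    intro z hz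
    exact ⟨hz, fun i => i.elim0⟩
  | succ m ih =>
    obtain ⟨C1, hC1⟩ := ih (r := fun i => r i.succ) (fun i => hr _) (fun i => hr1 _)
    obtain ⟨C, hC⟩ := hyp_one n (K := K) (M := C1) (hr 0) (hr1 0)
    refine ⟨C, fun V f Φ hV hf hd hi hb h => ?_⟩
    refine hC V f (Φ 0) hV hf (hd 0) (hi 0) (hb 0) ?_
    intro a0 ha0
    have hsub : {z ∈ V | ‖Φ 0 z - a0‖ < r 0 * (1 - ‖a0‖)} ⊆ V := fun z hz => hz.1
    refine hC1 _ f (fun i => Φ i.succ) ?_ (hf.mono hsub) (fun i => (hd _).mono hsub)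
      (fun i => (hi _).mono hsub) (fun i z hz => hb _ z (hsub hz)) ?_
    · have hc : ContinuousOn (fun z => ‖Φ 0 z - a0‖) V :=
        ((hd 0).continuousOn.sub continuousOn_const).norm
      exact hc.isOpen_inter_preimage hV isOpen_Iio
    · intro a ha
      refine (h (Fin.cons a0 a) (Fin.cases ha0 ha)).mono ?_
      rintro z ⟨⟨hz, hz0⟩, hz1⟩
      exact ⟨hz, Fin.cases hz0 hz1⟩

end Pool.Agent.Work.MP_2cf110_an.Hyp

end
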