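import Pool.Agent.Work.MP_2cf110_an.Hyp.SolDef

/-! # Small discs do not cover

The k + 1 points z + m (3 ε R) v, m = 0..k, where v is the unit vector from z to a (any unit vector if z = a), are in ball a R
(3 k ε ≤ 1) and are pairwise at distance ≥ 3 ε R > 2 ε R: each closed disc of radius ≤ ε R contains at most one: pigeonhole. -/

open MeasureTheory Complex Set Metric Filter
open scoped Topology ContDiff ComplexConjugate

noncomputable section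

namespace Pool.Agent.Work.MP_2cf110_an.Hyp

open QC (dz dzb Test Cau)

theorem pB {k : ℕ} {a z : ℂ} {R ε : ℝ} (hR : 0 < R) (hε : 0 < ε) (hk : 3 * k * ε ≤ 1)
    (c : Fin k → ℂ) (ρ : Fin k → ℝ) (hρ : ∀ i, ρ i ≤ ε * R) (hz : z ∈ ball a R) :
    ∃ z' ∈ ball a R, ‖z - z'‖ ≤ 3 * k * ε * R ∧ ∀ i, ρ i < ‖z' - c i‖ := by
  obtain ⟨v, hv, hv2⟩ : ∃ v : ℂ, ‖v‖ = 1 ∧ z - a = -((‖z - a‖ : ℝ) : ℂ) * v := by
    by_cases h : z - a = 0
    · exact ⟨1, by simp, by rw [h]; simp⟩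
    · have hn : ‖z - a‖ ≠ 0 := norm_ne_zero_iff.2 h
      refine ⟨-(z - a) / ((‖z - a‖ : ℝ) : ℂ), ?_, ?_⟩
      · rw [norm_div, norm_neg, norm_real, norm_norm, div_self hn]
      · have hn' : ((‖z - a‖ : ℝ) : ℂ) ≠ 0 := ofReal_ne_zero.2 hn
        field_simp
  obtain ⟨δ, hδ⟩ : ∃ δ : ℝ, δ = 5 / 2 * (ε * R) := ⟨_, rfl⟩
  have hεR : 0 < ε * R := by positivity
  have hδ0 : 0 < δ := by rw [hδ]; positivity
  obtain ⟨Z, hZ⟩ : ∃ Z : Fin (k + 1) → ℂ, Z = fun m : Fin (k + 1) => z + ((((m : ℕ) : ℝ) * δ : ℝ) : ℂ) * v :=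
    ⟨_, rfl⟩
  have hdist : ∀ m m' : Fin (k + 1), m ≠ m' → δ ≤ ‖Z m - Z m'‖ := by
    intro m m' hmm
    have h1 : Z m - Z m' = (((((m : ℕ) : ℝ) - ((m' : ℕ) : ℝ)) * δ : ℝ) : ℂ) * v := by
      rw [hZ]
      push_cast
      ring
    rw [h1, norm_mul, hv, mul_one, norm_real, Real.norm_eq_abs, abs_mul, abs_of_pos hδ0]
    have h2 : (1 : ℝ) ≤ |((m : ℕ) : ℝ) - ((m' : ℕ) : ℝ)| := by
      have h3 : ((m : ℕ) : ℤ) - ((m' : ℕ) : ℤ) ≠ 0 := by
        intro h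
        apply hmm
        apply Fin.ext
        omega
      have h4 := Int.one_le_abs h3
      have h5 : ((1 : ℤ) : ℝ) ≤ ((|((m : ℕ) : ℤ) - ((m' : ℕ) : ℤ)| : ℤ) : ℝ) := by
        exact_mod_cast h4
      push_cast at h5
      exact h5
    nlinarith
  have hex : ∃ m : Fin (k + 1), ∀ i, ρ i < ‖Z m - c i‖ := by
    by_contra hcon
    push Not at hcon
    choose f hf using hcon
    obtain ⟨m, m', hne, hff⟩ := Fintype.exists_ne_map_eq_of_card_lt f (by simp)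
    have h1 := hf m
    have h2 := hf m'
    rw [← hff] at h2
    have h3 := hρ (f m)
    have h4 : ‖Z m - Z m'‖ ≤ ‖Z m - c (f m)‖ + ‖Z m' - c (f m)‖ := by
      have : Z m - Z m' = (Z m - c (f m)) - (Z m' - c (f m)) := by ring
      rw [this]
      exact norm_sub_le _ _
    have h5 := hdist m m' hne
    rw [hδ] at h5
    linarith
  obtain ⟨m, hm⟩ := hex
  have hmk : ((m : ℕ) : ℝ) ≤ k := by
    have := m.2
    exact_mod_cast (by omega : (m : ℕ) ≤ k)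
  have hm0 : (0 : ℝ) ≤ ((m : ℕ) : ℝ) := Nat.cast_nonneg _
  have hk0 : (0 : ℝ) ≤ (k : ℝ) := Nat.cast_nonneg _
  have ht0 : 0 ≤ ((m : ℕ) : ℝ) * δ := by positivity
  have ht1 : ((m : ℕ) : ℝ) * δ ≤ 5 / 2 * (k * ε * R) := by
    calc ((m : ℕ) : ℝ) * δ ≤ k * δ := mul_le_mul_of_nonneg_right hmk hδ0.le
      _ = 5 / 2 * (k * ε * R) := by rw [hδ]; ring
  have hkR : k * ε * R ≤ R / 3 := by
    have : 3 * k * ε * R ≤ 1 * R := mul_le_mul_of_nonneg_right hk hR.le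
    linarith
  have hkR0 : 0 ≤ k * ε * R := by positivity
  refine ⟨Z m, ?_, ?_, hm⟩
  · rw [mem_ball, dist_eq] at hz ⊢
    have h1 : Z m - a = (((((m : ℕ) : ℝ) * δ - ‖z - a‖) : ℝ) : ℂ) * v := by
      rw [hZ]
      calc z + ((((m : ℕ) : ℝ) * δ : ℝ) : ℂ) * v - a = (z - a) + ((((m : ℕ) : ℝ) * δ : ℝ) : ℂ) * v := by
            ring
        _ = -((‖z - a‖ : ℝ) : ℂ) * v + ((((m : ℕ) : ℝ) * δ : ℝ) : ℂ) * v := by rw [← hv2]
        _ = _ := by push_cast; ring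
    rw [h1, norm_mul, hv, mul_one, norm_real, Real.norm_eq_abs, abs_lt]
    have := norm_nonneg (z - a)
    constructor <;> linarith
  · have h1 : z - Z m = -((((m : ℕ) : ℝ) * δ : ℝ) : ℂ) * v := by
      rw [hZ]
      ring
    rw [h1, norm_mul, hv, mul_one, norm_neg, norm_real, Real.norm_eq_abs, abs_of_nonneg ht0]
    linarith

end Pool.Agent.Work.MP_2cf110_an.Hyp

end
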