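import Pool.Agent.Work.MP_2cf110_an.Hyp.VitA
import Pool.Agent.Work.MP_2cf110_an.Hyp.CapB

/-! # Vitushkin's estimate

T/(73 N Q) (for N Q > 0) is admissible for E (in the complement of E it is analytic by TT_holo; E is in a ball), bounded by
(N Q + 6 · 12R · N Q/R)/(73 N Q) = 1, and z T z → -(1/π) ∫_V h dzb ψ. -/

open MeasureTheory Complex Set Metric Filter
open scoped Topology ContDiff ComplexConjugate

noncomputable section

namespace Pool.Agent.Work.MP_2cf110_an.Hyp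

open QC (dz dzb Test Cau)

private theorem vb_out {ψ : ℂ → ℂ} {U : Set ℂ} (hψ : Test U ψ) {z : ℂ} (hz : z ∉ tsupport ψ) :
    ψ z = 0 ∧ dzb ψ z = 0 := by
  have h1 : Test (tsupport ψ) ψ := ⟨hψ.smooth, hψ.cpt, Subset.rfl⟩
  refine ⟨image_eq_zero_of_notMem_tsupport hz, ?_⟩
  exact image_eq_zero_of_notMem_tsupport fun h2 => hz (h1.dz.2.sub h2)

theorem TT_bounds {V U : Set ℂ} {h ψ : ℂ → ℂ} {a : ℂ} {R N Q : ℝ} (hV : IsOpen V) (hU : IsOpen U)
    (hR : 0 < R) (hN0 : 0 ≤ N) (hQ0 : 0 ≤ Q)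
    (hh : DifferentiableOn ℂ h (V ∩ U)) (hN : ∀ z ∈ V ∩ U, ‖h z‖ ≤ N) (hψ : Test U ψ)
    (hs : tsupport ψ ⊆ closedBall a (12 * R)) (hQ : ∀ z, ‖ψ z‖ ≤ Q) (hQ' : ∀ z, ‖dzb ψ z‖ ≤ Q / R) :
    Measurable (TT V h ψ) ∧ (∀ z, ‖TT V h ψ z‖ ≤ 73 * N * Q) ∧
    Tendsto (fun z => z * TT V h ψ z) (cocompact ℂ)
      (𝓝 (-((1 / (Real.pi : ℂ)) * ∫ z in V, h z * dzb ψ z))) := by
  obtain ⟨hm1, hm2⟩ := TT_meas hV hU hh hψ
  have hg1 : ∀ z, ‖V.indicator (fun w => ψ w * h w) z‖ ≤ N * Q := by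
    intro z
    by_cases hz : z ∈ V
    · rw [indicator_of_mem hz, norm_mul, mul_comm N Q]
      by_cases hzU : z ∈ tsupport ψ
      · exact mul_le_mul (hQ z) (hN z ⟨hz, hψ.sub hzU⟩) (norm_nonneg _) hQ0
      · rw [(vb_out hψ hzU).1, norm_zero, zero_mul]
        positivity
    · rw [indicator_of_notMem hz, norm_zero]
      positivity
  have hg2 : ∀ z, ‖V.indicator (fun w => h w * dzb ψ w) z‖ ≤ N * (Q / R) := by
    intro z
    by_cases hz : z ∈ V
    · rw [indicator_of_mem hz, norm_mul]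
      by_cases hzU : z ∈ tsupport ψ
      · exact mul_le_mul (hN z ⟨hz, hψ.sub hzU⟩) (hQ' z) (norm_nonneg _) hN0
      · rw [(vb_out hψ hzU).2, norm_zero, mul_zero]
        positivity
    · rw [indicator_of_notMem hz, norm_zero]
      positivity
  have hs1 : ∀ z, z ∉ closedBall a (12 * R) → V.indicator (fun w => ψ w * h w) z = 0 := by
    intro z hz
    have h1 : z ∉ tsupport ψ := fun h2 => hz (hs h2)
    by_cases hzV : z ∈ V
    · rw [indicator_of_mem hzV, (vb_out hψ h1).1, zero_mul]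
    · exact indicator_of_notMem hzV _
  have hs2 : ∀ z, z ∉ closedBall a (12 * R) → V.indicator (fun w => h w * dzb ψ w) z = 0 := by
    intro z hz
    have h1 : z ∉ tsupport ψ := fun h2 => hz (hs h2)
    by_cases hzV : z ∈ V
    · rw [indicator_of_mem hzV, (vb_out hψ h1).2, mul_zero]
    · exact indicator_of_notMem hzV _
  have h12 : 0 < 12 * R := by positivity
  refine ⟨?_, ?_, ?_⟩
  · unfold TT
    exact hm1.sub (cauBdd_cont h12 hm2 hg2 hs2).measurable
  · intro z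
    have h1 := cauBdd_le h12 hm2 hg2 hs2 z
    have h2 : 6 * (12 * R) * (N * (Q / R)) = 72 * N * Q := by
      field_simp
      ring
    rw [h2] at h1
    unfold TT
    refine (norm_sub_le _ _).trans ?_
    have h3 := hg1 z
    linarith
  · have h1 := cauBdd_lim hm2 hg2 hs2
    rw [integral_indicator hV.measurableSet] at h1
    have h2 : Tendsto (fun z => z * V.indicator (fun w => ψ w * h w) z) (cocompact ℂ) (𝓝 0) := by
      refine tendsto_const_nhds.congr' ?_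
      have h3 : (closedBall a (12 * R))ᶜ ∈ cocompact ℂ :=
        (isCompact_closedBall a (12 * R)).compl_mem_cocompact
      filter_upwards [h3] with z hz
      rw [hs1 z hz, mul_zero]
    have h3 := h2.sub h1
    rw [zero_sub] at h3
    refine h3.congr fun z => ?_
    unfold TT
    ring

theorem vit : ∃ C : ℝ, 0 < C ∧ ∀ (V U E : Set ℂ) (a : ℂ) (R N Q : ℝ) (h ψ : ℂ → ℂ),
    IsOpen V → IsOpen U → 0 < R → 0 ≤ N → 0 ≤ Q →
    DifferentiableOn ℂ h (V ∩ U) → (∀ z ∈ V ∩ U, ‖h z‖ ≤ N) → Test U ψ →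
    tsupport ψ ⊆ closedBall a (12 * R) → tsupport ψ \ V ⊆ E → E ⊆ closedBall a (12 * R) →
    (∀ z, ‖ψ z‖ ≤ Q) → (∀ z, ‖dzb ψ z‖ ≤ Q / R) →
    ‖∫ z in V, h z * dzb ψ z‖ ≤ C * N * Q * cap E := by
  refine ⟨73 * Real.pi, by positivity, ?_⟩
  intro V U E a R N Q h ψ hV hU hR hN0 hQ0 hh hN hψ hs hE hEb hQ hQ'
  obtain ⟨hm, hb, hl⟩ := TT_bounds hV hU hR hN0 hQ0 hh hN hψ hs hQ hQ'
  obtain ⟨J, hJ⟩ : ∃ J : ℂ, J = ∫ z in V, h z * dzb ψ z := ⟨_, rfl⟩
  rw [← hJ] at hl ⊢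
  obtain ⟨M, hM⟩ : ∃ M : ℝ, M = 73 * N * Q := ⟨_, rfl⟩
  have hM0 : 0 ≤ M := by rw [hM]; positivity
  have hpi : (Real.pi : ℂ) ≠ 0 := ofReal_ne_zero.2 Real.pi_pos.ne'
  have hgoal : 73 * Real.pi * N * Q * cap E = Real.pi * M * cap E := by
    rw [hM]
    ring
  rw [hgoal]
  rcases hM0.eq_or_lt with h0 | h0
  · -- `T = 0`
    have hT : ∀ z, TT V h ψ z = 0 := by
      intro z
      have h1 := hb z
      rw [← hM, ← h0] at h1
      exact norm_le_zero_iff.1 h1
    have h1 : Tendsto (fun z => z * TT V h ψ z) (cocompact ℂ) (𝓝 0) := by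
      refine tendsto_const_nhds.congr fun z => ?_
      rw [hT z, mul_zero]
    have h2 := tendsto_nhds_unique h1 hl
    have h3 : J = 0 := by
      have h4 : (1 / (Real.pi : ℂ)) * J = 0 := neg_eq_zero.1 h2.symm
      rcases mul_eq_zero.1 h4 with h5 | h5
      · exact absurd h5 (one_div_ne_zero hpi)
      · exact h5
    rw [h3, norm_zero, ← h0, mul_zero, zero_mul]
  · have hMc : (M : ℂ) ≠ 0 := ofReal_ne_zero.2 h0.ne'
    have hadm : Adm E (fun z => TT V h ψ z / M) (-((1 / (Real.pi : ℂ)) * J) / M) := by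
      refine ⟨hm.div_const _, ?_, ?_, ?_⟩
      · intro z
        rw [norm_div, norm_real, Real.norm_of_nonneg hM0, div_le_one h0, hM]
        exact hb z
      · exact ((TT_holo hV hU hh hN hψ).mono (compl_subset_compl.2 hE)).div_const _
      · refine (hl.div_const (M : ℂ)).congr fun z => ?_
        rw [mul_div_assoc]
    have h1 := le_cap hEb hadm
    rw [norm_div, norm_neg, norm_mul, norm_div, norm_one, norm_real, norm_real,
      Real.norm_of_nonneg hM0, Real.norm_of_nonneg Real.pi_pos.le, div_le_iff₀ h0] at h1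
    have h2 : 1 / Real.pi * ‖J‖ * Real.pi = ‖J‖ := by
      field_simp
    calc ‖J‖ = 1 / Real.pi * ‖J‖ * Real.pi := h2.symm
      _ ≤ cap E * M * Real.pi := mul_le_mul_of_nonneg_right h1 Real.pi_pos.le
      _ = Real.pi * M * cap E := by ring

end Pool.Agent.Work.MP_2cf110_an.Hyp

end
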