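import Pool.Agent.Work.MP_2cf110_an.Hyp.PA
import Pool.Agent.Work.MP_2cf110_an.Hyp.PB
import Pool.Agent.Work.MP_2cf110_an.Hyp.CorB
import Pool.Agent.Work.MP_2cf110_an.Hyp.AlF
import Pool.Agent.Work.MP_2cf110_an.Hyp.VitB

/-! # Many-times enlarged small discs

V = ball a (10R) minus the discs, α_j = al V a R (f j) (al_facts: analytic on ball a (6R), bounded by C K), T_j = TT V (f j) (cut a (6R) (8R)):
TT_bounds, TT_holo (analytic off the discs), tends to 0; on ball a R ∩ V: f_j = α_j + T_j.  pA: |T_j| ≤ C K/N on the set {‖z - c i‖ > N ρ i}.  So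
there |α| ≥ δ/2; by pB (ε = N q) and the Cauchy estimate |α_j(z) - α_j(z')| ≤ C K |z-z'|/R some |α_j| ≥ δ/4 at every point of ball a R; corB for α
on ball a R (constant C₁ independent of N); Σ f_j g_j = 1 + Σ T_j g_j, |Σ T_j g_j| ≤ n C K C₁/N ≤ 1/2: divide. -/

open MeasureTheory Complex Set Metric Filter
open scoped Topology ContDiff ComplexConjugate

noncomputable section

namespace Pool.Agent.Work.MP_2cf110_an.Hyp

open QC (dz dzb Test Cau)

/-- Cauchy estimate -/
private theorem pC_osc {α : ℂ → ℂ} {a z z' : ℂ} {R M : ℝ} (hR : 0 < R) (hM : 0 < M)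
    (hα : DifferentiableOn ℂ α (ball a (6 * R))) (hb : ∀ z, ‖α z‖ ≤ M) (hz : z ∈ ball a R)
    (hz' : z' ∈ ball a R) : ‖α z' - α z‖ ≤ M * (‖z' - z‖ / R) := by
  have hsub : ball z (5 * R) ⊆ ball a (6 * R) := by
    intro w hw
    rw [mem_ball] at *
    calc dist w a ≤ dist w z + dist z a := dist_triangle _ _ _
      _ < 5 * R + R := add_lt_add hw hz
      _ = 6 * R := by ring
  have hmem : z' ∈ ball z (5 * R) := by
    rw [mem_ball] at *
    calc dist z' z ≤ dist z' a + dist z a := dist_triangle_right _ _ _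
      _ < R + R := add_lt_add hz' hz
      _ ≤ 5 * R := by linarith
  have hmaps : MapsTo α (ball z (5 * R)) (ball (α z) (5 * M)) := by
    intro w _
    rw [mem_ball, dist_eq_norm]
    calc ‖α w - α z‖ ≤ ‖α w‖ + ‖α z‖ := norm_sub_le _ _
      _ ≤ M + M := add_le_add (hb w) (hb z)
      _ < 5 * M := by linarith
  have h := Complex.dist_le_div_mul_dist_of_mapsTo_ball (hα.mono hsub)
    (hmaps.mono_right ball_subset_closedBall) hmem
  rw [dist_eq_norm, dist_eq_norm] at h
  refine h.trans (le_of_eq ?_)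
  field_simp

/-- the remainder tends to zero -/
private theorem pC_lim {T : ℂ → ℂ} {L : ℂ} (h : Tendsto (fun z => z * T z) (cocompact ℂ) (𝓝 L)) :
    Tendsto T (cocompact ℂ) (𝓝 0) := by
  have h1 : Tendsto (fun z : ℂ => z⁻¹) (cocompact ℂ) (𝓝 0) := by
    rw [← Metric.cobounded_eq_cocompact]
    exact tendsto_inv₀_cobounded
  have h2 := h1.mul h
  rw [zero_mul] at h2
  refine h2.congr' ?_
  have h3 : ∀ᶠ z : ℂ in cocompact ℂ, z ≠ 0 := by
    have : ({0} : Set ℂ)ᶜ ∈ cocompact ℂ := isCompact_singleton.compl_mem_cocompact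
    filter_upwards [this] with z hz
    exact hz
  filter_upwards [h3] with z hz
  field_simp

/-- division -/
private theorem pC_div {n : ℕ} {C : ℝ} {W : Set ℂ} {f g : Fin n → ℂ → ℂ}
    (hf : ∀ j, DifferentiableOn ℂ (f j) W) (hg : BA C W g)
    (h : ∀ z ∈ W, 1 / 2 ≤ ‖∑ j, f j z * g j z‖) : Sol (2 * C) W f := by
  have hD : DifferentiableOn ℂ (fun z => ∑ j, f j z * g j z) W :=
    DifferentiableOn.fun_sum fun j _ => (hf j).mul (hg j).1
  have hne : ∀ z ∈ W, ∑ j, f j z * g j z ≠ 0 := by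
    intro z hz h0
    have := h z hz
    rw [h0, norm_zero] at this
    linarith
  refine ⟨fun j z => g j z / ∑ l, f l z * g l z, fun j => ⟨(hg j).1.div hD hne, ?_⟩, ?_⟩
  · intro z hz
    have hC : 0 ≤ C := (norm_nonneg _).trans ((hg j).2 z hz)
    rw [norm_div, div_le_iff₀ (norm_pos_iff.2 (hne z hz))]
    have h1 := (hg j).2 z hz
    have h2 := h z hz
    nlinarith
  · intro z hz
    have : ∀ j, f j z * (g j z / ∑ l, f l z * g l z) = (f j z * g j z) / ∑ l, f l z * g l z := by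
      intro j
      ring
    simp only [this]
    rw [← Finset.sum_div]
    exact div_self (hne z hz)

theorem pC (n k : ℕ) {K δ : ℝ} (hK : 0 < K) (hδ : 0 < δ) : ∃ N q C : ℝ, 4 ≤ N ∧ 0 < q ∧
    ∀ (a : ℂ) (R : ℝ) (c : Fin k → ℂ) (ρ : Fin k → ℝ) (f : Fin n → ℂ → ℂ), 0 < R →
    (∀ i, 0 < ρ i) → (∀ i, ρ i < q * R) →
    BA K (ball a (10 * R) \ ⋃ i, closedBall (c i) (ρ i)) f →
    Cor δ (ball a (10 * R) \ ⋃ i, closedBall (c i) (ρ i)) f →
    Sol C (ball a R \ ⋃ i, closedBall (c i) (N * ρ i)) f := by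
  obtain ⟨C₁, hC₁, hal⟩ := al_facts
  obtain ⟨C₂, hC₂, hcut⟩ := cut_dzb
  obtain ⟨C₃, hC₃, hpA⟩ := pA k
  obtain ⟨C₄, hC₄⟩ := corB n (K := C₁ * K) (δ := δ / 4) (by linarith)
  set A : ℝ := 73 * K * C₂ with hAdef
  have hA : 0 < A := by positivity
  set N : ℝ := 4 + 2 * (C₃ * A / δ) + 2 * (n * (C₃ * A) * |C₄|) with hNdef
  have hN1 : 0 ≤ C₃ * A / δ := by positivity
  have hN2 : 0 ≤ n * (C₃ * A) * |C₄| := by positivity
  have hN : 4 ≤ N := by rw [hNdef]; linarith
  have hN0 : 0 < N := by linarith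
  have hNδ : C₃ * A / N ≤ δ / 2 := by
    rw [div_le_iff₀ hN0]
    have h1 : C₃ * A / δ * δ = C₃ * A := div_mul_cancel₀ _ hδ.ne'
    have h2 : 0 ≤ (n * (C₃ * A) * |C₄|) * δ := by positivity
    rw [hNdef]
    nlinarith
  have hNn : n * (C₃ * A / N) * |C₄| ≤ 1 / 2 := by
    have h1 : n * (C₃ * A / N) * |C₄| = (n * (C₃ * A) * |C₄|) / N := by ring
    rw [h1, div_le_iff₀ hN0, hNdef]
    linarith
  set D : ℝ := 1 + 4 * (C₁ * K) / δ with hDdef
  have hD1 : 1 ≤ D := by
    rw [hDdef]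
    have : 0 ≤ 4 * (C₁ * K) / δ := by positivity
    linarith
  have hD2 : C₁ * K ≤ δ / 4 * D := by
    rw [hDdef]
    have : δ / 4 * (1 + 4 * (C₁ * K) / δ) = δ / 4 + C₁ * K := by field_simp
    rw [this]
    linarith
  set ε : ℝ := 1 / (3 * k * D + 1) with hεdef
  have hE0 : 0 < 3 * k * D + 1 := by positivity
  have hε : 0 < ε := by rw [hεdef]; positivity
  have hε1 : 3 * k * ε * D ≤ 1 := by
    have h1 : 3 * k * ε * D = 3 * k * D / (3 * k * D + 1) := by rw [hεdef]; ring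
    rw [h1, div_le_one hE0]
    linarith
  have hkε : 0 ≤ 3 * k * ε := by positivity
  have hε2 : 3 * k * ε ≤ 1 := by nlinarith
  have hε3 : C₁ * K * (3 * k * ε) ≤ δ / 4 := by
    calc C₁ * K * (3 * k * ε) ≤ δ / 4 * D * (3 * k * ε) := mul_le_mul_of_nonneg_right hD2 hkε
      _ = δ / 4 * (3 * k * ε * D) := by ring
      _ ≤ δ / 4 * 1 := mul_le_mul_of_nonneg_left hε1 (by linarith)
      _ = δ / 4 := mul_one _
  refine ⟨N, ε / N, 2 * |C₄|, hN, by positivity, ?_⟩
  intro a R c ρ f hR hρ hρq hBA hCor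
  set V : Set ℂ := ball a (10 * R) \ ⋃ i, closedBall (c i) (ρ i) with hVdef
  have hVo : IsOpen V := isOpen_ball.sdiff (isClosed_iUnion_of_finite fun i => isClosed_closedBall)
  have hρN : ∀ i, N * ρ i ≤ ε * R := by
    intro i
    have := (hρq i).le
    have h1 : N * ρ i ≤ N * (ε / N * R) := mul_le_mul_of_nonneg_left this hN0.le
    have h2 : N * (ε / N * R) = ε * R := by field_simp
    linarith
  have hρle : ∀ i, ρ i ≤ N * ρ i := by
    intro i
    have := hρ i
    nlinarith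
  have h6 : (0 : ℝ) < 6 * R := by linarith
  have h68 : 6 * R < 8 * R := by linarith
  obtain ⟨hT, hsup, hle1, hone, hin, hout⟩ := cut_facts (a := a) h6 h68
  have hsub : closedBall a (8 * R) ⊆ ball a (10 * R) := closedBall_subset_ball (by linarith)
  have hT' : Test (ball a (10 * R)) (cut a (6 * R) (8 * R)) :=
    ⟨hT.smooth, hT.cpt, hsup.trans hsub⟩
  have hVU : V ∩ ball a (10 * R) ⊆ V := inter_subset_left
  -- the replacement
  have hα : ∀ j, DifferentiableOn ℂ (al V a R (f j)) (ball a (6 * R)) ∧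
      ∀ z, ‖al V a R (f j) z‖ ≤ C₁ * K := by
    intro j
    obtain ⟨h1, -, h3⟩ := hal V a R K (f j) hVo hR hK.le ((hBA j).1.mono hVU)
      (fun z hz => (hBA j).2 z hz.1)
    exact ⟨h1, h3⟩
  -- the remainder
  have hTT : ∀ j, ∀ z, (∀ i, N * ρ i < ‖z - c i‖) →
      ‖TT V (f j) (cut a (6 * R) (8 * R)) z‖ ≤ C₃ * A / N := by
    intro j z hz
    obtain ⟨-, hb, hl⟩ := TT_bounds (V := V) (U := ball a (10 * R)) (h := f j)
      (ψ := cut a (6 * R) (8 * R)) (a := a) (R := R) (N := K) (Q := C₂) hVo isOpen_ball hR hK.le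
      (by linarith) ((hBA j).1.mono hVU) (fun z hz => (hBA j).2 z hz.1) hT'
      (hsup.trans (closedBall_subset_closedBall (by linarith)))
      (fun z => (hle1 z).trans hC₂) (fun z => by
        refine (hcut a (6 * R) (8 * R) h6 h68 z).trans ?_
        have h1 : C₂ * (8 * R) / ((8 * R) ^ 2 - (6 * R) ^ 2) = 2 / 7 * (C₂ / R) := by
          field_simp
          ring
        rw [h1]
        have h2 : 0 ≤ C₂ / R := by positivity
        linarith)
    refine hpA c ρ _ A N hρ hN hA.le ?_ hb (pC_lim hl) z hz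
    refine (TT_holo (N := K) hVo isOpen_ball ((hBA j).1.mono hVU)
      (fun z hz => (hBA j).2 z hz.1) hT').mono ?_
    rw [compl_subset_compl]
    intro w hw
    have hwb : w ∈ ball a (10 * R) := hT'.sub hw.1
    by_contra hcon
    exact hw.2 ⟨hwb, hcon⟩
  have hsum : ∀ j, ∀ z ∈ V, z ∈ ball a R →
      f j z = al V a R (f j) z + TT V (f j) (cut a (6 * R) (8 * R)) z := by
    intro j z hz hzR
    have h1 : cut a (6 * R) (8 * R) z = 1 := hone z (by
      rw [mem_closedBall]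
      rw [mem_ball] at hzR
      linarith)
    unfold TT al
    rw [indicator_of_mem hz, h1]
    ring
  have hmemV : ∀ z ∈ ball a R, (∀ i, N * ρ i < ‖z - c i‖) → z ∈ V := by
    intro z hz h
    refine ⟨ball_subset_ball (by linarith) hz, ?_⟩
    rw [mem_iUnion]
    rintro ⟨i, hi⟩
    rw [mem_closedBall, dist_eq_norm] at hi
    have := h i
    have := hρle i
    linarith
  have hBAα : BA (C₁ * K) (ball a R) (fun j => al V a R (f j)) := fun j =>
    ⟨(hα j).1.mono (ball_subset_ball (by linarith)), fun z _ => (hα j).2 z⟩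
  have hCorα : Cor (δ / 4) (ball a R) (fun j => al V a R (f j)) := by
    intro z hz
    obtain ⟨z', hz', hd, hfar⟩ := pB hR hε hε2 c (fun i => N * ρ i) hρN hz
    have hzV := hmemV z' hz' hfar
    obtain ⟨j, hj⟩ := hCor z' hzV
    refine ⟨j, ?_⟩
    have h1 := hTT j z' hfar
    have h2 := hsum j z' hzV hz'
    have h3 := pC_osc hR (by positivity : 0 < C₁ * K) (hα j).1 (hα j).2 hz hz'
    have h4 : ‖z' - z‖ / R ≤ 3 * k * ε := by
      rw [div_le_iff₀ hR, norm_sub_rev]
      exact hd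
    have h5 : C₁ * K * (‖z' - z‖ / R) ≤ δ / 4 :=
      (mul_le_mul_of_nonneg_left h4 (by positivity)).trans hε3
    have h6 : δ ≤ ‖al V a R (f j) z'‖ + ‖TT V (f j) (cut a (6 * R) (8 * R)) z'‖ := by
      rw [h2] at hj
      exact hj.trans (norm_add_le _ _)
    have h7 : ‖al V a R (f j) z'‖ ≤ ‖al V a R (f j) z' - al V a R (f j) z‖ +
        ‖al V a R (f j) z‖ := by
      have := norm_add_le (al V a R (f j) z' - al V a R (f j) z) (al V a R (f j) z)
      rwa [sub_add_cancel] at this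
    linarith
  obtain ⟨g, hg, hg1⟩ := hC₄ a R _ hR hBAα hCorα
  have hW : ball a R \ ⋃ i, closedBall (c i) (N * ρ i) ⊆ V := by
    intro z hz
    refine hmemV z hz.1 fun i => ?_
    by_contra hcon
    apply hz.2
    rw [mem_iUnion]
    refine ⟨i, ?_⟩
    rw [mem_closedBall, dist_eq_norm]
    exact not_lt.1 hcon
  have hgC : BA |C₄| (ball a R \ ⋃ i, closedBall (c i) (N * ρ i)) g :=
    (hg.mono sdiff_subset).le (le_abs_self _)
  refine pC_div (fun j => (hBA j).1.mono hW) hgC ?_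
  intro z hz
  have hfar : ∀ i, N * ρ i < ‖z - c i‖ := by
    intro i
    by_contra hcon
    apply hz.2
    rw [mem_iUnion]
    refine ⟨i, ?_⟩
    rw [mem_closedBall, dist_eq_norm]
    exact not_lt.1 hcon
  have h1 : ∑ j, f j z * g j z = 1 + ∑ j, TT V (f j) (cut a (6 * R) (8 * R)) z * g j z := by
    rw [← hg1 z hz.1, ← Finset.sum_add_distrib]
    refine Finset.sum_congr rfl fun j _ => ?_
    rw [hsum j z (hW hz) hz.1]
    ring
  have h2 : ‖∑ j, TT V (f j) (cut a (6 * R) (8 * R)) z * g j z‖ ≤ 1 / 2 := by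
    refine (norm_sum_le _ _).trans ?_
    calc ∑ j, ‖TT V (f j) (cut a (6 * R) (8 * R)) z * g j z‖ ≤
          ∑ _j : Fin n, (C₃ * A / N) * |C₄| := by
          refine Finset.sum_le_sum fun j _ => ?_
          rw [norm_mul]
          exact mul_le_mul (hTT j z hfar) ((hgC j).2 z hz) (norm_nonneg _) (by positivity)
      _ = n * (C₃ * A / N) * |C₄| := by
          simp only [Finset.sum_const, Finset.card_univ, Fintype.card_fin, nsmul_eq_mul]
          ring
      _ ≤ 1 / 2 := hNn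
  rw [h1]
  have h3 := norm_sub_le (1 + ∑ j, TT V (f j) (cut a (6 * R) (8 * R)) z * g j z)
    (∑ j, TT V (f j) (cut a (6 * R) (8 * R)) z * g j z)
  rw [add_sub_cancel_right, norm_one] at h3
  linarith

end Pool.Agent.Work.MP_2cf110_an.Hyp

end
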