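import Pool.Agent.Work.MP_2cf110_an.Hyp.CorH2
import Pool.Agent.Work.MP_2cf110_an.Hyp.PC
import Pool.Agent.Work.MP_2cf110_an.Hyp.HypM

/-! # The localized induction step

Cases: (0) the complement of some Ω i misses ball a (8R): CH on ball a (8R) with the other k sets.  (1) some Ω i is of the first kind: corH_first.  (2) all of the second kind, c i,
ρ i from hole_far (constant A); N, q from pC n (k+1).  Some ρ i ≥ q R: corH_large.  (3) all ρ i < q R: hyp_m with the coordinates Φ i and r with √r small (≤ 1/A', 2√r < 1/A, 1/(2A√r) > N):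
the local set of (α_i): if some √r ≤ |α_i|, subset of the set of corH_near; otherwise |Φ i z| < 2√r, so ‖z - c i‖ ≥ ρ i/(2A√r) > N ρ i for all i: subset of ball a R minus
the closedBalls (c i) (N ρ i), and pC applies (ball a (10R) minus the closedBalls (c i) (ρ i) is contained in ball a (10R) ∩ ⋂ Ω i). -/

open MeasureTheory Complex Set Metric Filter
open scoped Topology ContDiff ComplexConjugate

noncomputable section

namespace Pool.Agent.Work.MP_2cf110_an.Hyp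

open QC (dz dzb Test Cau)

private theorem corH3_empty {n k : ℕ} {K δ C : ℝ} (hk : CH n k K δ C) {a : ℂ} {R : ℝ}
    {Ω : Fin (k + 1) → Set ℂ} {f : Fin n → ℂ → ℂ} (hR : 0 < R) (hH : ∀ l, ∃ Φ, Hole (Ω l) Φ)
    (hBA : BA K (ball a (10 * R) ∩ ⋂ l, Ω l) f) (hCor : Cor δ (ball a (10 * R) ∩ ⋂ l, Ω l) f)
    {i : Fin (k + 1)} (hi : ¬ ((Ω i)ᶜ ∩ ball a (8 * R)).Nonempty) :
    Sol C (ball a R ∩ ⋂ l, Ω l) f := by
  have hsub : ball a R ∩ ⋂ j, Ω (i.succAbove j) ⊆ ball a (10 * R) ∩ ⋂ l, Ω l := by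
    rintro z ⟨hz1, hz2⟩
    refine ⟨ball_subset_ball (by linarith) hz1, mem_iInter.2 fun l => ?_⟩
    rcases Fin.eq_self_or_eq_succAbove i l with h | ⟨j, h⟩
    · rw [h]
      by_contra hcon
      exact hi ⟨z, hcon, ball_subset_ball (by linarith) hz1⟩
    · rw [h]
      exact mem_iInter.1 hz2 j
  have h := hk a R (fun j => Ω (i.succAbove j)) f hR (fun j => hH (i.succAbove j))
    (hBA.mono hsub) (hCor.mono hsub)
  refine h.mono ?_
  rintro z ⟨hz1, hz2⟩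
  exact ⟨hz1, mem_iInter.2 fun j => mem_iInter.1 hz2 (i.succAbove j)⟩

theorem corH_step {n k : ℕ} {K δ C : ℝ} (hK : 0 < K) (hδ : 0 < δ) (hk : CH n k K δ C) :
    ∃ C' : ℝ, ∀ (a : ℂ) (R : ℝ) (Ω : Fin (k + 1) → Set ℂ) (f : Fin n → ℂ → ℂ), 0 < R →
    (∀ l, ∃ Φ, Hole (Ω l) Φ) →
    BA K (ball a (10 * R) ∩ ⋂ l, Ω l) f → Cor δ (ball a (10 * R) ∩ ⋂ l, Ω l) f →
    Sol C' (ball a R ∩ ⋂ l, Ω l) f := by
  obtain ⟨A, hA, hfar⟩ := hole_far
  obtain ⟨A₁, hA₁, hnear⟩ := corH_near (n := n) (k := k)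
  obtain ⟨N, q, C₂, hN, hq, hpC⟩ := pC n (k + 1) hK hδ
  obtain ⟨C₁, hfirst⟩ := corH_first hk
  obtain ⟨C₃, hlarge⟩ := corH_large hA hq hk
  have hA0 : 0 < A := by linarith
  have hA₁0 : 0 < A₁ := by linarith
  have hN0 : 0 < N := by linarith
  obtain ⟨t, ht⟩ : ∃ t, t = min (1 / A₁) (1 / (4 * A * N)) := ⟨_, rfl⟩
  have ht0 : 0 < t := by
    rw [ht]
    exact lt_min (by positivity) (by positivity)
  have ht1 : t ≤ 1 / A₁ := by
    rw [ht]
    exact min_le_left _ _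
  have ht2 : t ≤ 1 / (4 * A * N) := by
    rw [ht]
    exact min_le_right _ _
  have ht3 : t * (4 * A * N) ≤ 1 := by
    rwa [le_div_iff₀ (by positivity)] at ht2
  have hle1 : t ≤ 1 := ht1.trans (by
    rw [div_le_one hA₁0]
    exact hA₁)
  have ht4 : 2 * t < 1 / A := by
    rw [lt_div_iff₀ hA0]
    have h1 : 0 < t * A := by positivity
    nlinarith
  have hr : 0 < t ^ 2 := by positivity
  have hr1 : t ^ 2 ≤ 1 := pow_le_one₀ ht0.le hle1
  have hsqe : √(t ^ 2) = t := Real.sqrt_sq ht0.le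
  have hsq : √(t ^ 2) ≤ 1 / A₁ := by rwa [hsqe]
  obtain ⟨C₄, hm⟩ := hyp_m (k + 1) n (r := fun _ => t ^ 2) (K := K) (M := max C C₂)
    (fun _ => hr) (fun _ => hr1)
  refine ⟨max (max C C₁) (max C₃ C₄), fun a R Ω f hR hH hBA hCor => ?_⟩
  have e0 : C ≤ max (max C C₁) (max C₃ C₄) := (le_max_left _ _).trans (le_max_left _ _)
  have e1 : C₁ ≤ max (max C C₁) (max C₃ C₄) := (le_max_right _ _).trans (le_max_left _ _)
  have e3 : C₃ ≤ max (max C C₁) (max C₃ C₄) := (le_max_left _ _).trans (le_max_right _ _)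
  have e4 : C₄ ≤ max (max C C₁) (max C₃ C₄) := (le_max_right _ _).trans (le_max_right _ _)
  by_cases h0 : ∃ i, ¬ ((Ω i)ᶜ ∩ ball a (8 * R)).Nonempty
  · obtain ⟨i, hi⟩ := h0
    exact (corH3_empty hk hR hH hBA hCor hi).le e0
  simp only [not_exists, not_not] at h0
  choose Φ hΦ using hH
  by_cases h1 : ∃ i, Φ i '' Ω i = ball 0 1
  · obtain ⟨i, hi⟩ := h1
    exact (hfirst a R Ω f i (Φ i) hR (fun l => ⟨Φ l, hΦ l⟩) (hΦ i) hi hBA hCor (h0 i)).le e1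
  simp only [not_exists] at h1
  have h2 : ∀ i, ∃ (c : ℂ) (ρ : ℝ), 0 < ρ ∧ (Ω i)ᶜ ⊆ closedBall c ρ ∧
      ∀ z ∈ Ω i, ‖Φ i z‖ < 1 / A → ρ ≤ A * ‖Φ i z‖ * ‖z - c‖ := fun i =>
    hfar (Ω i) (Φ i) (hΦ i) (h1 i)
  choose c ρ hρ hcl hfar' using h2
  by_cases h3 : ∃ i, q * R ≤ ρ i
  · obtain ⟨i, hi⟩ := h3
    exact (hlarge a (c i) R (ρ i) Ω f i (Φ i) hR (fun l => ⟨Φ l, hΦ l⟩) (hΦ i) hBA hCor (h0 i)
      (hcl i) (hfar' i) hi).le e3
  simp only [not_exists, not_le] at h3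
  have hopen : IsOpen (ball a R ∩ ⋂ l, Ω l) :=
    isOpen_ball.inter (isOpen_iInter_of_finite fun l => (hΦ l).open_)
  have hsub : ball a R ∩ ⋂ l, Ω l ⊆ ball a (10 * R) ∩ ⋂ l, Ω l :=
    inter_subset_inter_left _ (ball_subset_ball (by linarith))
  have hsubi : ∀ i, ball a R ∩ ⋂ l, Ω l ⊆ Ω i := fun i z hz => mem_iInter.1 hz.2 i
  refine (hm (ball a R ∩ ⋂ l, Ω l) f Φ hopen (hBA.mono hsub)
    (fun i => (hΦ i).holo.mono (hsubi i)) (fun i => (hΦ i).inj.mono (hsubi i))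
    (fun i z hz => (hΦ i).lt z (hsubi i hz)) fun α hα => ?_).le e4
  by_cases h4 : ∃ i, t ≤ ‖α i‖
  · obtain ⟨i, hi⟩ := h4
    have h5 := hnear K δ C hk a (α i) R (t ^ 2) Ω f i (Φ i) hR (fun l => ⟨Φ l, hΦ l⟩) (hΦ i) hBA
      hCor hr hsq (h0 i) (hα i) (Or.inr (by rwa [hsqe]))
    refine (h5.mono ?_).le (le_max_left _ _)
    rintro z ⟨hz1, hz2⟩
    exact ⟨hz1, hz2 i⟩
  · simp only [not_exists, not_le] at h4
    have hsub2 : ball a (10 * R) \ ⋃ i, closedBall (c i) (ρ i) ⊆ ball a (10 * R) ∩ ⋂ l, Ω l := by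
      rintro z ⟨hz1, hz2⟩
      refine ⟨hz1, mem_iInter.2 fun l => ?_⟩
      by_contra hcon
      exact hz2 (mem_iUnion.2 ⟨l, hcl l hcon⟩)
    have h5 := hpC a R c ρ f hR hρ h3 (hBA.mono hsub2) (hCor.mono hsub2)
    refine (h5.mono ?_).le (le_max_right _ _)
    rintro z ⟨hz1, hz2⟩
    refine ⟨hz1.1, fun hcon => ?_⟩
    obtain ⟨i, hi⟩ := mem_iUnion.1 hcon
    have hzi := hsubi i hz1
    have hΦz : ‖Φ i z‖ < 2 * t := by
      have h6 : ‖Φ i z‖ ≤ ‖Φ i z - α i‖ + ‖α i‖ := by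
        have h7 : Φ i z = (Φ i z - α i) + α i := by ring
        calc ‖Φ i z‖ = ‖(Φ i z - α i) + α i‖ := by rw [← h7]
          _ ≤ _ := norm_add_le _ _
      have h7 := hz2 i
      have h8 : t ^ 2 * (1 - ‖α i‖) ≤ t := by
        have h9 : t ^ 2 * (1 - ‖α i‖) ≤ t ^ 2 * 1 :=
          mul_le_mul_of_nonneg_left (by linarith [norm_nonneg (α i)]) hr.le
        have h10 : t ^ 2 ≤ t := by nlinarith
        linarith
      have h9 := h4 i
      linarith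
    have h6 := hfar' i z hzi (hΦz.trans ht4)
    have h7 : ‖z - c i‖ ≤ N * ρ i := by
      have := mem_closedBall.1 hi
      rwa [dist_eq_norm] at this
    have h8 : A * ‖Φ i z‖ * ‖z - c i‖ ≤ A * (2 * t) * (N * ρ i) :=
      mul_le_mul (mul_le_mul_of_nonneg_left hΦz.le hA0.le) h7 (norm_nonneg _) (by positivity)
    have h9 : A * (2 * t) * (N * ρ i) = t * (4 * A * N) * (ρ i / 2) := by ring
    have h10 : t * (4 * A * N) * (ρ i / 2) ≤ 1 * (ρ i / 2) :=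
      mul_le_mul_of_nonneg_right ht3 (by linarith [hρ i])
    have h11 := hρ i
    linarith

end Pool.Agent.Work.MP_2cf110_an.Hyp

end
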