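import Pool.Agent.Work.MP_2cf110_an.Hyp.GrDef

/-! # The grid: overlap of the balls of radius 16 s Im

(ctr i).im = Y_i = e^{τ i.1}, τ = s/4.  If the balls around ctr i, ctr i' of radius 16 s Y meet: Y_i (1 - 16 s) ≤ Y_i' (1 + 16 s), so
|i.1 - i'.1| τ ≤ log((1+16s)/(1-16s)) < 64 s (16 s ≤ 1/4), i.e. |i.1 - i'.1| < 256; if i.1 = i'.1 then
τ |i.2 - i'.2| Y < 32 s Y, so |i.2 - i'.2| < 128.  Count: for fixed z the i.1 with z in the ball are in an interval of length < 256, and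
for each i.1 the i.2 satisfy |i.2 - x/(τ Y)| < 64: at most 129 values. -/

open MeasureTheory Complex Set Metric Filter
open scoped Topology ContDiff ComplexConjugate

noncomputable section

namespace Pool.Agent.Work.MP_2cf110_an.Hyp

open QC (dz dzb Test Cau)

private theorem grC_re (τ : ℝ) (i : ℤ × ℤ) :
    (ctr τ i).re = Real.exp (τ * i.1) * (τ * i.2) := by
  unfold ctr
  rw [Complex.mul_re, Complex.ofReal_re, Complex.ofReal_im]
  simp

private theorem grC_im (τ : ℝ) (i : ℤ × ℤ) : (ctr τ i).im = Real.exp (τ * i.1) := by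
  unfold ctr
  rw [Complex.mul_im, Complex.ofReal_re, Complex.ofReal_im]
  simp

theorem ctr_Hp (τ : ℝ) (i : ℤ × ℤ) : ctr τ i ∈ Hp := by
  show 0 < (ctr τ i).im
  rw [grC_im]
  exact Real.exp_pos _

private theorem grC_one {s : ℝ} (hs : 0 < s) (hs1 : s ≤ 1 / 64) {a a' : ℤ}
    (h : Real.exp (s / 4 * a) - Real.exp (s / 4 * a') <
      16 * s * (Real.exp (s / 4 * a) + Real.exp (s / 4 * a'))) : a - a' < 256 := by
  by_contra hc
  rw [not_lt] at hc
  have hc' : (256 : ℝ) ≤ (a : ℝ) - a' := by exact_mod_cast hc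
  set Y := Real.exp (s / 4 * a) with hY
  set Y' := Real.exp (s / 4 * a') with hY'
  have hY0 : 0 < Y' := Real.exp_pos _
  have h1 : Y' * (1 + 64 * s) ≤ Y := by
    have e : Y = Y' * Real.exp (s / 4 * (a - a')) := by
      rw [hY, hY', ← Real.exp_add]; ring_nf
    rw [e]
    apply mul_le_mul_of_nonneg_left _ hY0.le
    have h2 := Real.add_one_le_exp (s / 4 * ((a : ℝ) - a'))
    have h3 : 64 * s ≤ s / 4 * ((a : ℝ) - a') := by nlinarith
    linarith
  nlinarith [mul_pos hs hY0, mul_pos (mul_pos hs hs) hY0, mul_nonneg hs.le (by linarith : 0 ≤ 1 / 64 - s)]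

theorem ctr_sep {s : ℝ} (hs : 0 < s) (hs1 : s ≤ 1 / 64) {i i' : ℤ × ℤ}
    (h : ¬ Disjoint (ball (ctr (s / 4) i) (16 * (s * (ctr (s / 4) i).im)))
      (ball (ctr (s / 4) i') (16 * (s * (ctr (s / 4) i').im)))) :
    |i.1 - i'.1| < 256 ∧ (i.1 = i'.1 → |i.2 - i'.2| < 256) := by
  rw [Set.not_disjoint_iff] at h
  obtain ⟨w, hw, hw'⟩ := h
  rw [mem_ball, dist_eq_norm] at hw hw'
  have hd : ‖ctr (s / 4) i - ctr (s / 4) i'‖ <
      16 * s * ((ctr (s / 4) i).im + (ctr (s / 4) i').im) := by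
    have e : ctr (s / 4) i - ctr (s / 4) i' = (w - ctr (s / 4) i') - (w - ctr (s / 4) i) := by ring
    rw [e]
    have := norm_sub_le (w - ctr (s / 4) i') (w - ctr (s / 4) i)
    linarith
  have him := (Complex.abs_im_le_norm (ctr (s / 4) i - ctr (s / 4) i')).trans_lt hd
  have hre := (Complex.abs_re_le_norm (ctr (s / 4) i - ctr (s / 4) i')).trans_lt hd
  rw [Complex.sub_im, grC_im, grC_im] at him
  rw [Complex.sub_re, grC_re, grC_re, grC_im, grC_im] at hre
  constructor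
  · rw [abs_lt] at him ⊢
    constructor
    · have := grC_one hs hs1 (a := i'.1) (a' := i.1) (by linarith [him.1])
      omega
    · exact grC_one hs hs1 (a := i.1) (a' := i'.1) (by linarith [him.2])
  · intro hii
    rw [hii] at hre
    set Y := Real.exp (s / 4 * i'.1) with hY
    have hY0 : 0 < Y := Real.exp_pos _
    have e : Y * (s / 4 * i.2) - Y * (s / 4 * i'.2) = (s / 4 * Y) * ((i.2 : ℝ) - i'.2) := by ring
    rw [e, abs_mul, abs_of_pos (by positivity : 0 < s / 4 * Y)] at hre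
    have h1 : |(i.2 : ℝ) - i'.2| < 256 := by
      by_contra hc
      rw [not_lt] at hc
      have : s / 4 * Y * 256 ≤ s / 4 * Y * |(i.2 : ℝ) - i'.2| := by gcongr
      nlinarith [mul_pos hs hY0]
    exact_mod_cast h1

theorem ctr_count {s : ℝ} (hs : 0 < s) (hs1 : s ≤ 1 / 64) : ∃ N : ℕ, ∀ (z : ℂ) (I : Finset (ℤ × ℤ)),
    (∀ i ∈ I, z ∈ ball (ctr (s / 4) i) (16 * (s * (ctr (s / 4) i).im))) → I.card ≤ N := by
  classical
  refine ⟨511 * 511, fun z I hI => ?_⟩
  have hsep : ∀ i ∈ I, ∀ i' ∈ I, |i.1 - i'.1| < 256 ∧ (i.1 = i'.1 → |i.2 - i'.2| < 256) := by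
    intro i hi i' hi'
    apply ctr_sep hs hs1
    rw [Set.not_disjoint_iff]
    exact ⟨z, hI i hi, hI i' hi'⟩
  rcases I.eq_empty_or_nonempty with rfl | ⟨i0, hi0⟩
  · simp
  have hcard : ∀ c : ℤ, (Finset.Icc (c - 255) (c + 255)).card = 511 := by
    intro c
    rw [Int.card_Icc]
    omega
  have h1 : (I.image Prod.fst).card ≤ 511 := by
    rw [← hcard i0.1]
    apply Finset.card_le_card
    intro a ha
    obtain ⟨i, hi, rfl⟩ := Finset.mem_image.1 ha
    have := abs_lt.1 (hsep i hi i0 hi0).1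
    rw [Finset.mem_Icc]
    omega
  have h2 : I.card ≤ 511 * (I.image Prod.fst).card := by
    apply Finset.card_le_mul_card_image
    intro a ha
    obtain ⟨i, hi, rfl⟩ := Finset.mem_image.1 ha
    rw [← hcard i.2, ← Finset.card_image_of_injOn (f := Prod.snd)]
    · apply Finset.card_le_card
      intro b hb
      obtain ⟨j, hj, rfl⟩ := Finset.mem_image.1 hb
      rw [Finset.mem_filter] at hj
      have := abs_lt.1 ((hsep j hj.1 i hi).2 hj.2)
      rw [Finset.mem_Icc]
      omega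
    · intro x hx y hy hxy
      rw [Finset.mem_coe, Finset.mem_filter] at hx hy
      exact Prod.ext (hx.2.trans hy.2.symm) hxy
  calc I.card ≤ 511 * (I.image Prod.fst).card := h2
    _ ≤ 511 * 511 := Nat.mul_le_mul_left _ h1

/-- only finitely many balls meet a compact set -/
theorem ctr_fin {s : ℝ} (hs : 0 < s) (hs1 : s ≤ 1 / 64) {Kc : Set ℂ} (hK : IsCompact Kc)
    (hKH : Kc ⊆ Hp) :
    {i : ℤ × ℤ | (Kc ∩ ball (ctr (s / 4) i) (16 * (s * (ctr (s / 4) i).im))).Nonempty}.Finite := by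
  rcases Kc.eq_empty_or_nonempty with rfl | hne
  · simp
  obtain ⟨z0, hz0, hmin⟩ := hK.exists_isMinOn hne Complex.continuous_im.continuousOn
  obtain ⟨M, hM⟩ := hK.isBounded.exists_norm_le
  set δ := z0.im with hδ
  have hδ0 : 0 < δ := hKH hz0
  have hτ : 0 < s / 4 := by positivity
  have hM0 : 0 < M := by
    have h1 := hM z0 hz0
    have h2 := Complex.abs_im_le_norm z0
    have h3 := le_abs_self z0.im
    linarith
  set A : ℤ := ⌊Real.log (4 / 5 * δ) / (s / 4)⌋ with hA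
  set B : ℤ := ⌈Real.log (4 / 3 * M) / (s / 4)⌉ with hB
  set C : ℤ := ⌈(M * 5 / (4 * δ) + 1) / (s / 4)⌉ with hC
  apply Set.Finite.subset ((Set.finite_Icc A B).prod (Set.finite_Icc (-C) C))
  rintro i ⟨z, hzK, hzb⟩
  rw [mem_ball, dist_eq_norm] at hzb
  have him := (Complex.abs_im_le_norm (z - ctr (s / 4) i)).trans_lt hzb
  have hre := (Complex.abs_re_le_norm (z - ctr (s / 4) i)).trans_lt hzb
  rw [Complex.sub_im, grC_im] at him
  rw [Complex.sub_re, grC_re, grC_im] at hre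
  have hzδ : δ ≤ z.im := hmin hzK
  have hzM : z.im ≤ M := (le_abs_self _).trans ((Complex.abs_im_le_norm z).trans (hM z hzK))
  have hxM : |z.re| ≤ M := (Complex.abs_re_le_norm z).trans (hM z hzK)
  set Y := Real.exp (s / 4 * i.1) with hY
  have hY0 : 0 < Y := Real.exp_pos _
  have hρ : 16 * (s * Y) ≤ 1 / 4 * Y := by nlinarith
  rw [abs_lt] at him
  have hY1 : 4 / 5 * δ ≤ Y := by linarith [him.2]
  have hY2 : Y ≤ 4 / 3 * M := by linarith [him.1]
  have hlog : Real.log Y = s / 4 * i.1 := Real.log_exp _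
  rw [Set.mem_prod, Set.mem_Icc, Set.mem_Icc]
  refine ⟨⟨?_, ?_⟩, ?_⟩
  · have h1 := Real.log_le_log (by positivity) hY1
    rw [hlog] at h1
    have h2 : Real.log (4 / 5 * δ) / (s / 4) ≤ i.1 := by
      rw [div_le_iff₀ hτ]; linarith
    exact Int.floor_le_iff.2 (by linarith)
  · have h1 := Real.log_le_log hY0 hY2
    rw [hlog] at h1
    have h2 : (i.1 : ℝ) ≤ Real.log (4 / 3 * M) / (s / 4) := by
      rw [le_div_iff₀ hτ]; linarith
    exact_mod_cast h2.trans (Int.le_ceil _)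
  · have h1 : |Y * (s / 4 * i.2)| ≤ M + Y := by
      have e : Y * (s / 4 * i.2) = z.re - (z.re - Y * (s / 4 * i.2)) := by ring
      rw [e]
      refine (abs_sub _ _).trans ?_
      linarith
    have h2 : |(i.2 : ℝ)| ≤ (M * 5 / (4 * δ) + 1) / (s / 4) := by
      rw [le_div_iff₀ hτ]
      have e : |Y * (s / 4 * i.2)| = Y * (|(i.2 : ℝ)| * (s / 4)) := by
        rw [abs_mul, abs_mul, abs_of_pos hY0, abs_of_pos hτ]; ring
      rw [e] at h1
      have h3 : |(i.2 : ℝ)| * (s / 4) ≤ M / Y + 1 := by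
        rw [show M / Y + 1 = (M + Y) / Y by field_simp, le_div_iff₀ hY0]
        linarith
      have h4 : M / Y ≤ M * 5 / (4 * δ) := by
        rw [div_le_div_iff₀ hY0 (by positivity)]
        nlinarith
      linarith
    have h3 : |i.2| ≤ C := by
      have := h2.trans (Int.le_ceil _)
      exact_mod_cast this
    exact abs_le.1 h3

end Pool.Agent.Work.MP_2cf110_an.Hyp

end
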