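import Pool.Agent.Work.MP_2cf110_an.Hyp.GrB
import Pool.Agent.Work.MP_2cf110_an.Hyp.GrC

/-! # Finite covers with bounded overlap

I = the finite set of ctr_fin, m = its card, χ i = Hp.indicator (chi (s/4) i): a test function since chi vanishes outside the ball
(chi_supp; the closed ball is in Hp). -/

open MeasureTheory Complex Set Metric Filter
open scoped Topology ContDiff ComplexConjugate

noncomputable section

namespace Pool.Agent.Work.MP_2cf110_an.Hyp

open QC (dz dzb Test Cau)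

private def cvChi (s : ℝ) (i : ℤ × ℤ) (z : ℂ) : ℂ := ((Hp.indicator (chi (s / 4) i) z : ℝ) : ℂ)

private theorem cv_ball {s : ℝ} (hs : 0 < s) (hs1 : s ≤ 1 / 64) {i : ℤ × ℤ} {z : ℂ}
    (h : cvChi s i z ≠ 0) : z ∈ ball (ctr (s / 4) i) (s * (ctr (s / 4) i).im) := by
  have h1 : Hp.indicator (chi (s / 4) i) z ≠ 0 := by
    intro h0
    apply h
    unfold cvChi
    rw [h0, Complex.ofReal_zero]
  have hz : z ∈ Hp := Set.mem_of_indicator_ne_zero h1
  rw [Set.indicator_of_mem hz] at h1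
  exact chi_supp hs hs1 hz h1

private theorem cv_tsupport {s : ℝ} (hs : 0 < s) (hs1 : s ≤ 1 / 64) (i : ℤ × ℤ) :
    tsupport (cvChi s i) ⊆ closedBall (ctr (s / 4) i) (s * (ctr (s / 4) i).im) := by
  apply closure_minimal _ isClosed_closedBall
  intro z hz
  exact ball_subset_closedBall (cv_ball hs hs1 hz)

private theorem cv_closedBall {s : ℝ} (hs : 0 < s) (hs1 : s ≤ 1 / 64) (i : ℤ × ℤ) :
    closedBall (ctr (s / 4) i) (s * (ctr (s / 4) i).im) ⊆ Hp := by
  intro z hz
  rw [mem_closedBall, dist_eq_norm] at hz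
  have h1 := (Complex.abs_im_le_norm (z - ctr (s / 4) i)).trans hz
  rw [Complex.sub_im, abs_le] at h1
  have h2 : 0 < (ctr (s / 4) i).im := ctr_Hp _ _
  show 0 < z.im
  nlinarith [h1.1]

private theorem cv_test {s : ℝ} (hs : 0 < s) (hs1 : s ≤ 1 / 64) (i : ℤ × ℤ) :
    Test univ (cvChi s i) := by
  refine ⟨?_, ?_, Set.subset_univ _⟩
  · rw [contDiff_iff_contDiffAt]
    intro z
    by_cases hz : z ∈ Hp
    · have h1 : ContDiffAt ℝ ∞ (chi (s / 4) i) z :=
        (chi_smooth (by positivity) i).contDiffAt (isOpen_Hp.mem_nhds hz)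
      have h2 : ContDiffAt ℝ ∞ (fun w => ((chi (s / 4) i w : ℝ) : ℂ)) z :=
        Complex.ofRealCLM.contDiff.contDiffAt.comp z h1
      refine h2.congr_of_eventuallyEq ?_
      filter_upwards [isOpen_Hp.mem_nhds hz] with w hw
      unfold cvChi
      rw [Set.indicator_of_mem hw]
    · have hz' : z ∉ tsupport (cvChi s i) := fun h =>
        hz (cv_closedBall hs hs1 i (cv_tsupport hs hs1 i h))
      have h1 : cvChi s i =ᶠ[𝓝 z] fun _ => 0 := by
        filter_upwards [(isClosed_tsupport (cvChi s i)).isOpen_compl.mem_nhds hz'] with w hw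
        exact image_eq_zero_of_notMem_tsupport hw
      exact contDiffAt_const.congr_of_eventuallyEq h1
  · exact HasCompactSupport.of_support_subset_isCompact
      (isCompact_closedBall (ctr (s / 4) i) (s * (ctr (s / 4) i).im))
      (fun z hz => ball_subset_closedBall (cv_ball hs hs1 hz))

theorem cover {s : ℝ} (hs : 0 < s) (hs1 : s ≤ 1 / 64) : ∃ N : ℕ, ∀ Kc : Set ℂ, IsCompact Kc →
    Kc ⊆ Hp → ∃ (m : ℕ) (a : Fin m → ℂ) (χ : Fin m → ℂ → ℂ),
    (∀ i, a i ∈ Hp) ∧ (∀ i, Test univ (χ i)) ∧ (∀ i, tsupport (χ i) ⊆ closedBall (a i) (s * (a i).im)) ∧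
    (∀ i z, ‖χ i z‖ ≤ 1) ∧ (∀ z ∈ Kc, ∑ i, χ i z = 1) ∧
    ∀ z, (Finset.univ.filter fun i => ‖z - a i‖ < 16 * (s * (a i).im)).card ≤ N := by
  classical
  obtain ⟨N, hN⟩ := ctr_count hs hs1
  obtain ⟨C, -, hC⟩ := chi_dzb (τ := s / 4) (by positivity) (by linarith)
  refine ⟨N, fun Kc hK hKH => ?_⟩
  set I : Finset (ℤ × ℤ) := (ctr_fin hs hs1 hK hKH).toFinset with hI
  set e : Fin I.card ≃ I := I.equivFin.symm with he
  refine ⟨I.card, fun i => ctr (s / 4) (e i), fun i => cvChi s (e i), fun i => ctr_Hp _ _,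
    fun i => cv_test hs hs1 _, fun i => cv_tsupport hs hs1 _, fun i z => ?_, fun z hz => ?_,
    fun z => ?_⟩
  · show ‖cvChi s (e i) z‖ ≤ 1
    unfold cvChi
    rw [Complex.norm_real, Real.norm_eq_abs]
    by_cases hz : z ∈ Hp
    · rw [Set.indicator_of_mem hz, abs_of_nonneg (hC _ z hz).1]
      exact (hC _ z hz).2.1
    · rw [Set.indicator_of_notMem hz, abs_zero]
      exact zero_le_one
  · have h1 : ∑ i ∈ I, chi (s / 4) i z = 1 := by
      apply chi_sum (by positivity) (hKH hz)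
      intro i hi
      rw [hI, Set.Finite.mem_toFinset]
      refine ⟨z, hz, ?_⟩
      have h2 := chi_supp hs hs1 (hKH hz) hi
      refine ball_subset_ball ?_ h2
      have h3 : 0 < (ctr (s / 4) i).im := ctr_Hp _ _
      nlinarith [mul_pos hs h3]
    have h2 : ∑ i : Fin I.card, cvChi s (e i) z = ∑ i : I, cvChi s i z :=
      Equiv.sum_comp e (fun i : I => cvChi s i z)
    rw [h2, Finset.sum_coe_sort I (fun i => cvChi s i z)]
    unfold cvChi
    simp_rw [Set.indicator_of_mem (hKH hz)]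
    rw [← Complex.ofReal_sum, h1, Complex.ofReal_one]
  · have hinj : Function.Injective (fun i : Fin I.card => ((e i : I) : ℤ × ℤ)) :=
      Subtype.val_injective.comp e.injective
    rw [← Finset.card_image_of_injective _ hinj]
    apply hN z
    intro i hi
    obtain ⟨j, hj, rfl⟩ := Finset.mem_image.1 hi
    rw [Finset.mem_filter] at hj
    rw [mem_ball, dist_eq_norm]
    exact hj.2

end Pool.Agent.Work.MP_2cf110_an.Hyp

end
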