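import Pool.Agent.Work.MP_217185_an.Defs
import Pool.Agent.Work.MP_217185_an.WirtA
import Pool.Agent.Work.MP_217185_an.WirtB

/-! # Hyperbolic localization of the corona problem: definitions

`dz`, `dzb` are the Wirtinger derivatives, `Test U φ` says that `φ` is a smooth function with
compact support in `U`, `Cau h z = (1/π) ∫ h ζ / (z - ζ)` is the Cauchy transform (all in the
namespace `QC`, `MP_217185_an/Defs`).  In the whole directory `s > 0` is a small number and the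
hyperbolic scale at `a` is `R = s * a.im`. -/

open MeasureTheory Complex Set Metric Filter
open scoped Topology ContDiff ComplexConjugate

noncomputable section

namespace Pool.Agent.Work.MP_2cf110_an.Hyp

open QC (dz dzb Test Cau)

/-- the open upper half plane -/
def Hp : Set ℂ := {z | 0 < z.im}

theorem isOpen_Hp : IsOpen Hp := isOpen_lt continuous_const Complex.continuous_im

/-- a smooth profile: `0` for `t ≤ 1/4` and `1` for `1 ≤ t` -/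
def mm (t : ℝ) : ℝ := Real.smoothTransition ((4 * t - 1) / 3)

/-- the normalized square distance `|ζ - z|² / (s Im z)²` -/
def qq (s : ℝ) (z ζ : ℂ) : ℝ := ‖ζ - z‖ ^ 2 / (s * z.im) ^ 2

/-- the Cauchy kernel `1 / (ζ - z)`, cut off near `z` at the hyperbolic scale -/
def Mk (s : ℝ) (z ζ : ℂ) : ℂ := ((mm (qq s z ζ) : ℝ) : ℂ) / (ζ - z)

/-- the `∂̄_ζ`-derivative of `Mk`: a radial mollifier at the hyperbolic scale, of mass `π` -/
def kap (s : ℝ) (z ζ : ℂ) : ℂ := ((deriv mm (qq s z ζ) / (s * z.im) ^ 2 : ℝ) : ℂ)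

/-- the `∂̄_z`-derivative of `Mk` -/
def psi (s : ℝ) (z ζ : ℂ) : ℂ :=
  -((deriv mm (qq s z ζ) : ℝ) : ℂ) *
    (((1 / (s * z.im) ^ 2 : ℝ) : ℂ) + conj (ζ - z) * I / ((s ^ 2 * z.im ^ 3 : ℝ) : ℂ))

/-- the smoothing of `h` at the hyperbolic scale -/
def Sm (s : ℝ) (h : ℂ → ℂ) (z : ℂ) : ℂ := (1 / (Real.pi : ℂ)) * ∫ ζ, h ζ * kap s z ζ

/-- a smooth cut-off function: `1` on the closed ball of radius `ρ₁`, `0` outside the ball of
radius `ρ₂` -/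
def cut (a : ℂ) (ρ₁ ρ₂ : ℝ) (z : ℂ) : ℂ :=
  ((Real.smoothTransition ((ρ₂ ^ 2 - ‖z - a‖ ^ 2) / (ρ₂ ^ 2 - ρ₁ ^ 2)) : ℝ) : ℂ)

/-- smooth kernels with support `|ζ - z| ≤ s Im z`, homogeneous of degree `-d` under the maps
`z ↦ l z + b` -/
structure Ker (s : ℝ) (d : ℕ) (K : ℂ → ℂ → ℂ) : Prop where
  smooth : ContDiffOn ℝ ∞ (fun p : ℂ × ℂ => K p.1 p.2) (Hp ×ˢ univ)
  supp : ∀ z ∈ Hp, ∀ ζ, s * z.im < ‖ζ - z‖ → K z ζ = 0
  hom : ∀ l b : ℝ, 0 < l → ∀ z ∈ Hp, ∀ ζ, K (l * z + b) (l * ζ + b) = K z ζ / (l : ℂ) ^ d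

/-- `b` is admissible for `E`: analytic off `E`, bounded by `1`, and `z b(z) → c` at infinity -/
structure Adm (E : Set ℂ) (b : ℂ → ℂ) (c : ℂ) : Prop where
  meas : Measurable b
  le : ∀ z, ‖b z‖ ≤ 1
  holo : DifferentiableOn ℂ b Eᶜ
  lim : Tendsto (fun z => z * b z) (cocompact ℂ) (𝓝 c)

/-- analytic capacity -/
def cap (E : Set ℂ) : ℝ := sSup {t | ∃ b c, Adm E b c ∧ t = ‖c‖}

/-- the part of the closed ball of radius `8 s Im a` outside `V` -/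
def Ea (V : Set ℂ) (s : ℝ) (a : ℂ) : Set ℂ := closedBall a (8 * (s * a.im)) \ V

/-- its capacity -/
def gam (V : Set ℂ) (s : ℝ) (a : ℂ) : ℝ := cap (Ea V s a)

/-- the Vitushkin localization `1_V φ h - Cau (1_V h ∂̄φ)` -/
def TT (V : Set ℂ) (h φ : ℂ → ℂ) (z : ℂ) : ℂ :=
  V.indicator (fun w => φ w * h w) z - Cau (V.indicator fun w => h w * dzb φ w) z

/-- the macroscopic analytic replacement of `h` in the ball of radius `6 R` -/
def al (V : Set ℂ) (a : ℂ) (R : ℝ) (h : ℂ → ℂ) : ℂ → ℂ :=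
  Cau (V.indicator fun w => h w * dzb (cut a (6 * R) (8 * R)) w)

section macroscopic

variable {n L : ℕ}

/-- `|F|²` -/
def nsq (F : Fin n → ℂ → ℂ) (z : ℂ) : ℝ := ∑ j, ‖F j z‖ ^ 2

/-- a smooth function, equal to `1 / t` for `c ≤ t` and to `0` for `t ≤ c / 2` -/
def lam (c t : ℝ) : ℝ := Real.smoothTransition ((2 * t - c) / c) / t

/-- the smoothed functions -/
def FF (s : ℝ) (V : Set ℂ) (f : Fin n → ℂ → ℂ) (j : Fin n) : ℂ → ℂ := Sm s (V.indicator (f j))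

/-- `λ(|F|²) conj F_p` -/
def Gm (c : ℝ) (F : Fin n → ℂ → ℂ) (p : Fin n) (z : ℂ) : ℂ :=
  ((lam c (nsq F z) : ℝ) : ℂ) * conj (F p z)

/-- the smoothed local solutions -/
def AA (s : ℝ) (V : Set ℂ) (X : Fin L → ℂ → ℂ) (g : Fin L → Fin n → ℂ → ℂ) (j : Fin n) (z : ℂ) :
    ℂ := ∑ c, X c z * Sm s (V.indicator (g c j)) z

/-- the antisymmetric correction -/
def BB (s c : ℝ) (V : Set ℂ) (f : Fin n → ℂ → ℂ) (X : Fin L → ℂ → ℂ)
    (g : Fin L → Fin n → ℂ → ℂ) (j p : Fin n) (z : ℂ) : ℂ :=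
  AA s V X g j z * Gm c (FF s V f) p z - AA s V X g p z * Gm c (FF s V f) j z

/-- the smooth solution on `V` -/
def Gh (s c : ℝ) (V : Set ℂ) (f : Fin n → ℂ → ℂ) (X : Fin L → ℂ → ℂ)
    (g : Fin L → Fin n → ℂ → ℂ) (p : Fin n) (z : ℂ) : ℂ :=
  ∑ i, X i z * g i p z + ∑ j, f j z * BB s c V f X g j p z

/-- the derivative of the smooth solution on `V` -/
def Dh (s c : ℝ) (V : Set ℂ) (f : Fin n → ℂ → ℂ) (X : Fin L → ℂ → ℂ)
    (g : Fin L → Fin n → ℂ → ℂ) (p : Fin n) (z : ℂ) : ℂ :=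
  ∑ i, dzb (X i) z * g i p z + ∑ j, f j z * dzb (BB s c V f X g j p) z

/-- the form `ω` on `V` -/
def om (s c : ℝ) (V : Set ℂ) (f : Fin n → ℂ → ℂ) (X : Fin L → ℂ → ℂ)
    (g : Fin L → Fin n → ℂ → ℂ) (p l : Fin n) (z : ℂ) : ℂ :=
  Gh s c V f X g p z * Dh s c V f X g l z - Gh s c V f X g l z * Dh s c V f X g p z

/-- the macroscopic form -/
def omM (c : ℝ) (F : Fin n → ℂ → ℂ) (p l : Fin n) (z : ℂ) : ℂ :=
  ((lam c (nsq F z) : ℝ) : ℂ) ^ 2 *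
    (conj (F p z) * conj (dz (F l) z) - conj (F l z) * conj (dz (F p) z))

/-- the data: `V` is open in the upper half plane, `f` is analytic and bounded on `V`, and
`g i` (`i : Fin L`) are local solutions of the Bezout equation, which are defined near the support
of `X i` at the hyperbolic scale, where `X` is a smooth partition of unity -/
structure Data (s K : ℝ) (V : Set ℂ) (f : Fin n → ℂ → ℂ) (X : Fin L → ℂ → ℂ)
    (g : Fin L → Fin n → ℂ → ℂ) : Prop where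
  V_open : IsOpen V
  V_sub : V ⊆ Hp
  f_holo : ∀ j, DifferentiableOn ℂ (f j) V
  f_le : ∀ j, ∀ z ∈ V, ‖f j z‖ ≤ K
  g_meas : ∀ i j, Measurable (V.indicator (g i j))
  g_le : ∀ i j z, ‖g i j z‖ ≤ K
  loc : ∀ a ∈ Hp, ∀ i, (∃ z ∈ ball a (2 * (s * a.im)), X i z ≠ 0) →
    (∀ j, DifferentiableOn ℂ (g i j) (V ∩ ball a (10 * (s * a.im)))) ∧
    ∀ z ∈ V ∩ ball a (10 * (s * a.im)), ∑ j, f j z * g i j z = 1
  X_smooth : ∀ i, ContDiffOn ℝ ∞ (X i) Hp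
  X_le : ∀ i, ∀ z ∈ Hp, ‖X i z‖ ≤ 1
  X_sum : ∀ z ∈ Hp, ∑ i, X i z = 1
  X_der : ∀ i, ∀ z ∈ Hp, ‖dzb (X i) z‖ ≤ K / z.im

end macroscopic

/-- the square root `√(|κ|² + ε²)` -/
def Ph (κ : ℂ → ℂ) (ε : ℂ → ℝ) (z : ℂ) : ℝ := √(‖κ z‖ ^ 2 + ε z ^ 2)

end Pool.Agent.Work.MP_2cf110_an.Hyp

end
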