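import Pool.Agent.Work.MP_2cf110_an.Hyp.MacS

/-! # The macroscopic form in terms of Gm

dzb (λ conj F_l) = dzb λ conj F_l + λ conj (dz F_l); the terms with dzb λ cancel. -/

open MeasureTheory Complex Set Metric Filter
open scoped Topology ContDiff ComplexConjugate

noncomputable section

namespace Pool.Agent.Work.MP_2cf110_an.Hyp

open QC (dz dzb Test Cau)

theorem omM_eq {n : ℕ} {c : ℝ} (hc : 0 < c) {F : Fin n → ℂ → ℂ}
    (hF : ∀ j, ContDiffOn ℝ ∞ (F j) Hp) (p l : Fin n) {z : ℂ} (hz : z ∈ Hp) :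
    omM c F p l z = Gm c F p z * dzb (Gm c F l) z - Gm c F l z * dzb (Gm c F p) z := by
  have hnhds : Hp ∈ 𝓝 z := isOpen_Hp.mem_nhds hz
  have hFd : ∀ j, DifferentiableAt ℝ (F j) z := fun j =>
    ((hF j).contDiffAt hnhds).differentiableAt (by simp)
  obtain ⟨C', -, hC'⟩ := lam_nsq (n := n) hc one_pos
  have hL : DifferentiableAt ℝ (fun z => ((lam c (nsq F z) : ℝ) : ℂ)) z :=
    (((hC' F hF).1).contDiffAt hnhds).differentiableAt (by simp)
  have hconj : ∀ j, DifferentiableAt ℝ (fun z => conj (F j z)) z := fun j =>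
    (Complex.conjCLE : ℂ →L[ℝ] ℂ).differentiableAt.comp z (hFd j)
  have hG : ∀ j, dzb (Gm c F j) z = dzb (fun z => ((lam c (nsq F z) : ℝ) : ℂ)) z * conj (F j z) +
      ((lam c (nsq F z) : ℝ) : ℂ) * conj (dz (F j) z) := by
    intro j
    have h1 := (QC.dz_mul hL (hconj j)).2
    rw [(QC.dz_conj (F j) z).2] at h1
    exact h1
  rw [hG, hG]
  unfold omM Gm
  ring

end Pool.Agent.Work.MP_2cf110_an.Hyp

end
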