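import Pool.Agent.Work.MP_2cf110_an.Hyp.Defs

/-! # The kernels kap and psi

On Hp the function q = ‖ζ - z‖² / (s Im z)² is smooth, deriv mm is smooth and vanishes for t < 1/4 and
for 1 < t (and at 1 by continuity), homogeneity is direct: q is invariant under (z, ζ) ↦ (l z + b, l ζ + b). -/

open MeasureTheory Complex Set Metric Filter
open scoped Topology ContDiff ComplexConjugate

noncomputable section

namespace Pool.Agent.Work.MP_2cf110_an.Hyp

open QC (dz dzb Test Cau)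

/-- `kap` and `psi` vanish on the diagonal, in fact for `‖ζ - z‖ < s Im z / 2` -/
theorem mm_facts : ContDiff ℝ ∞ mm ∧ (∀ t, 0 ≤ mm t ∧ mm t ≤ 1) ∧ (∀ t, t ≤ 1 / 4 → mm t = 0) ∧
    (∀ t, 1 ≤ t → mm t = 1) := by
  refine ⟨?_, fun t => ⟨Real.smoothTransition.nonneg _, Real.smoothTransition.le_one _⟩, ?_, ?_⟩
  · exact Real.smoothTransition.contDiff.comp (by fun_prop)
  · intro t ht
    exact Real.smoothTransition.zero_of_nonpos (by linarith)
  · intro t ht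
    exact Real.smoothTransition.one_of_one_le (by linarith)

private theorem dmm_smooth : ContDiff ℝ ∞ (deriv mm) := by
  exact (contDiff_infty_iff_deriv.1 mm_facts.1).2

private theorem dmm_zero {t : ℝ} (ht : 1 < t) : deriv mm t = 0 := by
  have h : mm =ᶠ[𝓝 t] fun _ => (1 : ℝ) := by
    filter_upwards [isOpen_Ioi.mem_nhds ht] with u hu
    exact mm_facts.2.2.2 u (le_of_lt hu)
  rw [h.deriv_eq, deriv_const]

private theorem hp_ne {s : ℝ} (hs : 0 < s) {z : ℂ} (hz : z ∈ Hp) : (s * z.im) ≠ 0 :=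
  (mul_pos hs hz).ne'

private theorem im_smooth : ContDiff ℝ ∞ (fun p : ℂ × ℂ => p.1.im) :=
  Complex.imCLM.contDiff.comp contDiff_fst

private theorem qq_smooth {s : ℝ} (hs : 0 < s) :
    ContDiffOn ℝ ∞ (fun p : ℂ × ℂ => qq s p.1 p.2) (Hp ×ˢ univ) := by
  unfold qq
  have h1 : ContDiff ℝ ∞ (fun p : ℂ × ℂ => ‖p.2 - p.1‖ ^ 2) :=
    (contDiff_snd.sub contDiff_fst).norm_sq ℝ
  have h2 : ContDiff ℝ ∞ (fun p : ℂ × ℂ => (s * p.1.im) ^ 2) :=
    (contDiff_const.mul im_smooth).pow 2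
  exact h1.contDiffOn.div h2.contDiffOn fun p hp => pow_ne_zero 2 (hp_ne hs hp.1)

private theorem qq_gt {s : ℝ} (hs : 0 < s) {z ζ : ℂ} (hz : z ∈ Hp) (h : s * z.im < ‖ζ - z‖) :
    1 < qq s z ζ := by
  have h1 : 0 < s * z.im := mul_pos hs hz
  unfold qq
  rw [lt_div_iff₀ (pow_pos h1 2), one_mul]
  exact pow_lt_pow_left₀ h h1.le (by norm_num)

private theorem qq_hom {s : ℝ} (l b : ℝ) (hl : 0 < l) (z ζ : ℂ) :
    qq s (l * z + b) (l * ζ + b) = qq s z ζ := by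
  unfold qq
  have e1 : ((l : ℂ) * ζ + b) - (l * z + b) = l * (ζ - z) := by ring
  have e2 : ((l : ℂ) * z + b).im = l * z.im := by simp
  rw [e1, e2, norm_mul, Complex.norm_real, Real.norm_of_nonneg hl.le, mul_pow,
    show (s * (l * z.im)) ^ 2 = l ^ 2 * (s * z.im) ^ 2 by ring,
    mul_div_mul_left _ _ (pow_ne_zero 2 hl.ne')]

theorem kap_ker {s : ℝ} (hs : 0 < s) : Ker s 2 (kap s) where
  smooth := by
    unfold kap
    have h1 : ContDiffOn ℝ ∞ (fun p : ℂ × ℂ => deriv mm (qq s p.1 p.2)) (Hp ×ˢ univ) :=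
      dmm_smooth.comp_contDiffOn (qq_smooth hs)
    have h2 : ContDiff ℝ ∞ (fun p : ℂ × ℂ => (s * p.1.im) ^ 2) :=
      (contDiff_const.mul im_smooth).pow 2
    have h3 := h1.div h2.contDiffOn fun p hp => pow_ne_zero 2 (hp_ne hs hp.1)
    exact Complex.ofRealCLM.contDiff.comp_contDiffOn h3
  supp := by
    intro z hz ζ h
    unfold kap
    rw [dmm_zero (qq_gt hs hz h), zero_div, Complex.ofReal_zero]
  hom := by
    intro l b hl z hz ζ
    unfold kap
    have e2 : ((l : ℂ) * z + b).im = l * z.im := by simp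
    rw [qq_hom l b hl, e2]
    push_cast
    have h1 : (s : ℂ) * (z.im : ℂ) ≠ 0 := by exact_mod_cast hp_ne hs hz
    have h2 : (l : ℂ) ≠ 0 := by exact_mod_cast hl.ne'
    have h3 : (s : ℂ) ≠ 0 := left_ne_zero_of_mul h1
    have h4 : (z.im : ℂ) ≠ 0 := right_ne_zero_of_mul h1
    field_simp

theorem psi_ker {s : ℝ} (hs : 0 < s) : Ker s 2 (psi s) where
  smooth := by
    unfold psi
    have h1 : ContDiffOn ℝ ∞ (fun p : ℂ × ℂ => ((deriv mm (qq s p.1 p.2) : ℝ) : ℂ)) (Hp ×ˢ univ) :=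
      Complex.ofRealCLM.contDiff.comp_contDiffOn (dmm_smooth.comp_contDiffOn (qq_smooth hs))
    have h2 : ContDiff ℝ ∞ (fun p : ℂ × ℂ => (s * p.1.im) ^ 2) :=
      (contDiff_const.mul im_smooth).pow 2
    have h3 : ContDiffOn ℝ ∞ (fun p : ℂ × ℂ => ((1 / (s * p.1.im) ^ 2 : ℝ) : ℂ)) (Hp ×ˢ univ) :=
      Complex.ofRealCLM.contDiff.comp_contDiffOn
        (contDiffOn_const.div h2.contDiffOn fun p hp => pow_ne_zero 2 (hp_ne hs hp.1))
    have h4 : ContDiff ℝ ∞ (fun p : ℂ × ℂ => ((s ^ 2 * p.1.im ^ 3 : ℝ) : ℂ)) :=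
      Complex.ofRealCLM.contDiff.comp (contDiff_const.mul (im_smooth.pow 3))
    have h5 : ContDiff ℝ ∞ (fun p : ℂ × ℂ => conj (p.2 - p.1) * I) :=
      (Complex.conjCLE.contDiff.comp (contDiff_snd.sub contDiff_fst)).mul contDiff_const
    have h6 : ContDiffOn ℝ ∞
        (fun p : ℂ × ℂ => conj (p.2 - p.1) * I / ((s ^ 2 * p.1.im ^ 3 : ℝ) : ℂ)) (Hp ×ˢ univ) := by
      have h7 : ContDiffOn ℝ ∞
          (fun p : ℂ × ℂ => (((s ^ 2 * p.1.im ^ 3 : ℝ) : ℂ))⁻¹) (Hp ×ˢ univ) := by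
        refine h4.contDiffOn.inv fun p hp => ?_
        have : s ^ 2 * p.1.im ^ 3 ≠ 0 :=
          mul_ne_zero (pow_ne_zero 2 hs.ne') (pow_ne_zero 3 (ne_of_gt hp.1))
        exact_mod_cast this
      exact h5.contDiffOn.mul h7
    exact h1.neg.mul (h3.add h6)
  supp := by
    intro z hz ζ h
    unfold psi
    rw [dmm_zero (qq_gt hs hz h), Complex.ofReal_zero, neg_zero, zero_mul]
  hom := by
    intro l b hl z hz ζ
    unfold psi
    have e1 : ((l : ℂ) * ζ + b) - (l * z + b) = l * (ζ - z) := by ring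
    have e2 : ((l : ℂ) * z + b).im = l * z.im := by simp
    rw [qq_hom l b hl, e1, e2, map_mul, Complex.conj_ofReal]
    push_cast
    have h1 : (s : ℂ) * (z.im : ℂ) ≠ 0 := by exact_mod_cast hp_ne hs hz
    have h2 : (l : ℂ) ≠ 0 := by exact_mod_cast hl.ne'
    have h3 : (s : ℂ) ≠ 0 := left_ne_zero_of_mul h1
    have h4 : (z.im : ℂ) ≠ 0 := right_ne_zero_of_mul h1
    field_simp

end Pool.Agent.Work.MP_2cf110_an.Hyp

end
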