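import Pool.Agent.Work.MP_2cf110_an.Hyp.Prod1
import Pool.Agent.Work.MP_2cf110_an.Hyp.Area
import Pool.Agent.Work.MP_2cf110_an.Hyp.Far

/-! # Replacement in integrals, product of two functions

T_i = TT V h_i φ, φ = cut a (6R) (8R), E = closedBall a (8R) \ V.  On closedBall a (5R): 1_V h₁ h₂ - α₁ α₂ = T₁ α₂ + α₁ T₂ + T₁ T₂.
The first two: single with w α₂ (smooth: α₂ is analytic on ball a (6R); cut off) . For T₁ T₂: b = T₁T₂ is analytic off E and bounded by (73 Q N)² , and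
at ‖z - a‖ ≥ 9R: |T_i| ≤ C N cap(E)/R (far).  Apply single to V'' = Eᶜ, U = univ, h = T₁T₂, φ'' = cut a (9R) (12R):
∫_{Eᶜ} T₁T₂ w = ∫ (TT V'' (T₁T₂) φ'' + α'') w with |α''| ≤ C (cap E/R)² (cauBdd_le, the derivative of φ'' lives in the ring), and
∫_E T₁T₂ w ≤ C area(E) W (area_le). -/

open MeasureTheory Complex Set Metric Filter
open scoped Topology ContDiff ComplexConjugate

noncomputable section

namespace Pool.Agent.Work.MP_2cf110_an.Hyp

open QC (dz dzb Test Cau)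

private theorem pr2_int {f w : ℂ → ℂ} {B : ℝ} (hf : Measurable f) (hB : ∀ z, ‖f z‖ ≤ B)
    (hw : Test univ w) : Integrable (fun z => f z * w z) :=
  (hw.smooth.continuous.integrable_of_hasCompactSupport hw.cpt).bdd_mul
    hf.aestronglyMeasurable (Filter.Eventually.of_forall hB)

private theorem pr2_set {f w : ℂ → ℂ} {S : Set ℂ} {B W : ℝ} (hSv : volume S < ⊤)
    (hB0 : 0 ≤ B) (hB : ∀ z ∈ S, ‖f z‖ ≤ B) (hw : ∀ z, ‖w z‖ ≤ W)
    (h0 : ∀ z, z ∉ S → f z * w z = 0) : ‖∫ z, f z * w z‖ ≤ B * W * volume.real S := by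
  rw [← setIntegral_eq_integral_of_forall_compl_eq_zero h0]
  refine norm_setIntegral_le_of_norm_le_const hSv (fun z hz => ?_)
  rw [norm_mul]
  exact mul_le_mul (hB z hz) (hw z) (norm_nonneg _) hB0

private theorem pr2_vol (a : ℂ) {r : ℝ} (hr : 0 ≤ r) : volume.real (closedBall a r) = Real.pi * r ^ 2 := by
  rw [Measure.real, Complex.volume_closedBall, ENNReal.toReal_mul, ENNReal.toReal_pow,
    ENNReal.toReal_ofReal hr]
  simp [NNReal.coe_real_pi, mul_comm]

private theorem pr2_eq (V : Set ℂ) (a : ℂ) (R : ℝ) (h : ℂ → ℂ) (z : ℂ) :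
    TT V h (cut a (6 * R) (8 * R)) z =
      cut a (6 * R) (8 * R) z * V.indicator h z - al V a R h z := by
  unfold TT al
  congr 1
  by_cases hz : z ∈ V
  · rw [indicator_of_mem hz, indicator_of_mem hz]
  · rw [indicator_of_notMem hz, indicator_of_notMem hz, mul_zero]

private theorem pr2_T {V : Set ℂ} {a : ℂ} {R N Q : ℝ} {h : ℂ → ℂ} (hV : IsOpen V) (hR : 0 < R)
    (hN0 : 0 ≤ N) (hQ1 : 1 ≤ Q) (hh : DifferentiableOn ℂ h (V ∩ ball a (10 * R)))
    (hN : ∀ z ∈ V ∩ ball a (10 * R), ‖h z‖ ≤ N)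
    (hQ : ∀ z, ‖dzb (cut a (6 * R) (8 * R)) z‖ ≤ Q / R) :
    Measurable (TT V h (cut a (6 * R) (8 * R))) ∧
    (∀ z, ‖TT V h (cut a (6 * R) (8 * R)) z‖ ≤ 73 * N * Q) ∧
    DifferentiableOn ℂ (TT V h (cut a (6 * R) (8 * R))) (closedBall a (8 * R) \ V)ᶜ ∧
    ∃ c, Tendsto (fun z => z * TT V h (cut a (6 * R) (8 * R)) z) (cocompact ℂ) (𝓝 c) := by
  obtain ⟨h1, h2, h3, -, -, -⟩ := cut_facts (a := a) (ρ₁ := 6 * R) (ρ₂ := 8 * R) (by linarith)
    (by linarith)
  have hT : Test (ball a (10 * R)) (cut a (6 * R) (8 * R)) :=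
    ⟨h1.smooth, h1.cpt, h2.trans (closedBall_subset_ball (by linarith))⟩
  obtain ⟨b1, b2, b3⟩ := TT_bounds hV isOpen_ball hR hN0 (by linarith) hh hN hT
    (h2.trans (closedBall_subset_closedBall (by linarith))) (fun z => (h3 z).trans hQ1) hQ
  refine ⟨b1, b2, ?_, _, b3⟩
  refine (TT_holo hV isOpen_ball hh hN hT).mono ?_
  apply compl_subset_compl.2
  exact diff_subset_diff_left h2

private theorem pr2_cpt {V : Set ℂ} (hV : IsOpen V) (a : ℂ) (r : ℝ) :
    IsCompact (closedBall a r \ V) :=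
  (isCompact_closedBall a r).diff hV

private theorem pr2_far {V : Set ℂ} {a : ℂ} {R N Q : ℝ} {h : ℂ → ℂ} (hV : IsOpen V) (hR : 0 < R)
    (hN0 : 0 < N) (hQ1 : 1 ≤ Q) (hh : DifferentiableOn ℂ h (V ∩ ball a (10 * R)))
    (hN : ∀ z ∈ V ∩ ball a (10 * R), ‖h z‖ ≤ N)
    (hQ : ∀ z, ‖dzb (cut a (6 * R) (8 * R)) z‖ ≤ Q / R) {z : ℂ} (hz : 9 * R ≤ ‖z - a‖) :
    ‖TT V h (cut a (6 * R) (8 * R)) z‖ ≤
      73 * N * Q * (2 / R * cap (closedBall a (8 * R) \ V)) := by
  obtain ⟨b1, b2, b3, c, b4⟩ := pr2_T hV hR hN0.le hQ1 hh hN hQ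
  have hP : 0 < 73 * N * Q := by positivity
  have hP' : ((73 * N * Q : ℝ) : ℂ) ≠ 0 := by exact_mod_cast hP.ne'
  have hA : Adm (closedBall a (8 * R) \ V)
      (fun z => TT V h (cut a (6 * R) (8 * R)) z / ((73 * N * Q : ℝ) : ℂ))
      (c / ((73 * N * Q : ℝ) : ℂ)) := by
    refine ⟨b1.div_const _, fun z => ?_, b3.div_const _, ?_⟩
    · rw [norm_div, Complex.norm_real, Real.norm_of_nonneg hP.le, div_le_one hP]
      exact b2 z
    · have := b4.div_const ((73 * N * Q : ℝ) : ℂ)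
      refine this.congr fun z => ?_
      ring
  have h1 := far (pr2_cpt hV a (8 * R)) diff_subset hR hA (z₀ := z) (by linarith)
  rw [norm_div, Complex.norm_real, Real.norm_of_nonneg hP.le, div_le_iff₀ hP] at h1
  linarith

/-- the product of an analytic function and a test function -/
private theorem pr2_test {a : ℂ} {R M W : ℝ} {α w : ℂ → ℂ} (hR : 0 < R)
    (hα : DifferentiableOn ℂ α (ball a (6 * R))) (hM : ∀ z, ‖α z‖ ≤ M)
    (hw : Test univ w) (hs : tsupport w ⊆ closedBall a (5 * R)) (hW : ∀ z, ‖w z‖ ≤ W)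
    (hM0 : 0 ≤ M) :
    Test univ (fun z => α z * w z) ∧ tsupport (fun z => α z * w z) ⊆ closedBall a (12 * R) ∧
    ∀ z, ‖α z * w z‖ ≤ M * W := by
  have hsub : tsupport (fun z => α z * w z) ⊆ tsupport w := tsupport_mul_subset_right
  refine ⟨⟨?_, ?_, subset_univ _⟩, hsub.trans (hs.trans (closedBall_subset_closedBall (by linarith))),
    fun z => ?_⟩
  · rw [contDiff_iff_contDiffAt]
    intro z
    by_cases hz : z ∈ tsupport w
    · have hz' : z ∈ ball a (6 * R) := closedBall_subset_ball (by linarith) (hs hz)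
      have h1 : ContDiffAt ℝ ∞ α z := by
        have h2 : AnalyticAt ℂ α z := hα.analyticAt (isOpen_ball.mem_nhds hz')
        exact (h2.contDiffAt (n := ∞)).restrict_scalars ℝ
      exact h1.mul hw.smooth.contDiffAt
    · have h2 : (fun z => α z * w z) =ᶠ[𝓝 z] fun _ => 0 := by
        filter_upwards [(isClosed_tsupport w).isOpen_compl.mem_nhds hz] with y hy
        rw [image_eq_zero_of_notMem_tsupport hy, mul_zero]
      exact contDiffAt_const.congr_of_eventuallyEq h2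
  · exact hw.cpt.mul_left
  · rw [norm_mul]
    exact mul_le_mul (hM z) (hW z) (norm_nonneg _) hM0

private theorem pr2_main : ∃ C : ℝ, 0 < C ∧ ∀ (V : Set ℂ) (a : ℂ) (R N₁ N₂ W : ℝ)
    (h₁ h₂ w : ℂ → ℂ),
    IsOpen V → 0 < R → 0 < N₁ → 0 < N₂ → 0 ≤ W → DifferentiableOn ℂ h₁ (V ∩ ball a (10 * R)) →
    DifferentiableOn ℂ h₂ (V ∩ ball a (10 * R)) →
    (∀ z ∈ V ∩ ball a (10 * R), ‖h₁ z‖ ≤ N₁) → (∀ z ∈ V ∩ ball a (10 * R), ‖h₂ z‖ ≤ N₂) →
    Test univ w → tsupport w ⊆ closedBall a (5 * R) → (∀ z, ‖w z‖ ≤ W) →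
    ‖∫ z, (V.indicator (fun z => h₁ z * h₂ z) z - al V a R h₁ z * al V a R h₂ z) * w z‖ ≤
      C * N₁ * N₂ * W * R * cap (closedBall a (8 * R) \ V) := by
  obtain ⟨Cs, hCs, hsingle⟩ := single
  obtain ⟨Cα, hCα, half⟩ := al_facts
  obtain ⟨Q, hQ1, hcut⟩ := cut_dzb
  obtain ⟨CA, hCA, harea⟩ := area_le
  obtain ⟨Cc, hCc, hcap⟩ := cap_le
  have hQ0 : 0 < Q := by linarith
  refine ⟨Cs * Q * Cα + Cs * Q * Cα + (Cs * (73 ^ 2 * Q ^ 2) * Q +
    72 * 4 * 73 ^ 2 * 25 * 8 * Real.pi * Cc * Q ^ 3 + 73 ^ 2 * Q ^ 2 * CA), by positivity, ?_⟩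
  intro V a R N₁ N₂ W h₁ h₂ w hV hR hN₁ hN₂ hW hd₁ hd₂ hb₁ hb₂ hw hws hwW
  -- cut-off functions
  have hQa : ∀ z, ‖dzb (cut a (6 * R) (8 * R)) z‖ ≤ Q / R := by
    intro z
    refine (hcut a (6 * R) (8 * R) (by linarith) (by linarith) z).trans ?_
    rw [div_le_div_iff₀ (by nlinarith) hR]
    have : 0 ≤ Q * R ^ 2 := by positivity
    nlinarith
  have hQb : ∀ z, ‖dzb (cut a (9 * R) (12 * R)) z‖ ≤ Q / R := by
    intro z
    refine (hcut a (9 * R) (12 * R) (by linarith) (by linarith) z).trans ?_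
    rw [div_le_div_iff₀ (by nlinarith) hR]
    have : 0 ≤ Q * R ^ 2 := by positivity
    nlinarith
  obtain ⟨p1, p2, p3, p4, -, -⟩ := cut_facts (a := a) (ρ₁ := 6 * R) (ρ₂ := 8 * R) (by linarith)
    (by linarith)
  obtain ⟨r1, r2, r3, r4, r5, r6⟩ := cut_facts (a := a) (ρ₁ := 9 * R) (ρ₂ := 12 * R) (by linarith)
    (by linarith)
  have hTa : Test (ball a (10 * R)) (cut a (6 * R) (8 * R)) :=
    ⟨p1.smooth, p1.cpt, p2.trans (closedBall_subset_ball (by linarith))⟩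
  set E : Set ℂ := closedBall a (8 * R) \ V with hE
  have hEc : IsCompact E := pr2_cpt hV a (8 * R)
  have hE12 : E ⊆ closedBall a (12 * R) :=
    diff_subset.trans (closedBall_subset_closedBall (by linarith))
  have hE0 : 0 ≤ cap E := cap_nonneg E
  have hE1 : cap E ≤ Cc * (8 * R) := hcap E a (8 * R) (by linarith) diff_subset
  set T₁ : ℂ → ℂ := TT V h₁ (cut a (6 * R) (8 * R)) with hT₁
  set T₂ : ℂ → ℂ := TT V h₂ (cut a (6 * R) (8 * R)) with hT₂
  obtain ⟨t1, t2, t3, -⟩ := pr2_T hV hR hN₁.le hQ1 hd₁ hb₁ hQa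
  obtain ⟨u1, u2, u3, -⟩ := pr2_T hV hR hN₂.le hQ1 hd₂ hb₂ hQa
  obtain ⟨a1, a2, a3⟩ := half V a R N₁ h₁ hV hR hN₁.le hd₁ hb₁
  obtain ⟨b1, b2, b3⟩ := half V a R N₂ h₂ hV hR hN₂.le hd₂ hb₂
  set α₁ : ℂ → ℂ := al V a R h₁ with hα₁
  set α₂ : ℂ → ℂ := al V a R h₂ with hα₂
  obtain ⟨w1, w2, w3⟩ := pr2_test hR b1 b3 hw hws hwW (by positivity)
  obtain ⟨v1, v2, v3⟩ := pr2_test hR a1 a3 hw hws hwW (by positivity)
  -- the first two integrals
  have P1 : ‖∫ z, T₁ z * (α₂ z * w z)‖ ≤ Cs * N₁ * Q * (Cα * N₂ * W) * R * cap E :=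
    hsingle V (ball a (10 * R)) E a R N₁ Q (Cα * N₂ * W) h₁ _ _ hV isOpen_ball hR hN₁.le hQ1
      (by positivity) hd₁ hb₁ hTa (p2.trans (closedBall_subset_closedBall (by linarith)))
      (diff_subset_diff_left p2) hE12 p3 hQa w1 w2 w3
  have P2 : ‖∫ z, T₂ z * (α₁ z * w z)‖ ≤ Cs * N₂ * Q * (Cα * N₁ * W) * R * cap E :=
    hsingle V (ball a (10 * R)) E a R N₂ Q (Cα * N₁ * W) h₂ _ _ hV isOpen_ball hR hN₂.le hQ1
      (by positivity) hd₂ hb₂ hTa (p2.trans (closedBall_subset_closedBall (by linarith)))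
      (diff_subset_diff_left p2) hE12 p3 hQa v1 v2 v3
  -- the third integral
  set b : ℂ → ℂ := fun z => T₁ z * T₂ z with hb
  have hbm : Measurable b := t1.mul u1
  set B : ℝ := 73 * N₁ * Q * (73 * N₂ * Q) with hB
  have hB0 : 0 ≤ B := by positivity
  have hbB : ∀ z, ‖b z‖ ≤ B := fun z => by
    rw [hb, norm_mul]
    exact mul_le_mul (t2 z) (u2 z) (norm_nonneg _) (by positivity)
  have hbd : DifferentiableOn ℂ b Eᶜ := t3.mul u3
  have hEo : IsOpen Eᶜ := hEc.isClosed.isOpen_compl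
  set T₃ : ℂ → ℂ := TT Eᶜ b (cut a (9 * R) (12 * R)) with hT₃
  have P3 : ‖∫ z, T₃ z * w z‖ ≤ Cs * B * Q * W * R * cap E :=
    hsingle Eᶜ univ E a R B Q W b _ _ hEo isOpen_univ hR hB0 hQ1 hW (by
      rw [inter_univ]; exact hbd) (fun z _ => hbB z) r1 r2 (fun z hz => by
        have := hz.2
        rwa [mem_compl_iff, not_not] at this) hE12 r3 hQb hw
      (hws.trans (closedBall_subset_closedBall (by linarith))) hwW
  obtain ⟨s1, s2, -⟩ := TT_bounds (V := Eᶜ) (U := univ) (h := b) (ψ := cut a (9 * R) (12 * R))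
    (a := a) (R := R) (N := B) (Q := Q) hEo isOpen_univ hR hB0 hQ0.le (by
      rw [inter_univ]; exact hbd) (fun z _ => hbB z) r1 r2 (fun z => (r3 z).trans hQ1) hQb
  -- the Cauchy transform
  set g : ℂ → ℂ := Eᶜ.indicator fun w => b w * dzb (cut a (9 * R) (12 * R)) w with hg
  have hgm : Measurable g := by
    refine Measurable.indicator ?_ hEo.measurableSet
    exact hbm.mul (QC.contDiff_dz r1.smooth).2.continuous.measurable
  set G : ℝ := 73 * N₁ * Q * (2 / R * cap E) * (73 * N₂ * Q * (2 / R * cap E)) * (Q / R) with hG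
  have hG0 : 0 ≤ G := by positivity
  have hgz : ∀ z, z ∉ closedBall a (12 * R) → g z = 0 := by
    intro z hz
    rw [hg]
    by_cases hzE : z ∈ Eᶜ
    · rw [indicator_of_mem hzE]
      simp only [r6 z hz, mul_zero]
    · rw [indicator_of_notMem hzE]
  have hgG : ∀ z, ‖g z‖ ≤ G := by
    intro z
    by_cases hz : z ∈ ball a (9 * R)
    · have : g z = 0 := by
        rw [hg]
        by_cases hzE : z ∈ Eᶜ
        · rw [indicator_of_mem hzE]
          simp only [r5 z hz, mul_zero]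
        · rw [indicator_of_notMem hzE]
      rw [this, norm_zero]
      exact hG0
    · have hz' : 9 * R ≤ ‖z - a‖ := by
        rw [mem_ball, dist_eq_norm, not_lt] at hz
        exact hz
      have k1 := pr2_far hV hR hN₁ hQ1 hd₁ hb₁ hQa hz'
      have k2 := pr2_far hV hR hN₂ hQ1 hd₂ hb₂ hQa hz'
      rw [hg]
      by_cases hzE : z ∈ Eᶜ
      · rw [indicator_of_mem hzE, norm_mul, hb, norm_mul]
        exact mul_le_mul (mul_le_mul k1 k2 (norm_nonneg _) (by positivity)) (hQb z)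
          (norm_nonneg _) (by positivity)
      · rw [indicator_of_notMem hzE, norm_zero]
        exact hG0
  have hcauc : Continuous (Cau g) := cauBdd_cont (by linarith) hgm hgG hgz
  have hcaub : ∀ z, ‖Cau g z‖ ≤ 6 * (12 * R) * G := cauBdd_le (by linarith) hgm hgG hgz
  have P4 : ‖∫ z, Cau g z * w z‖ ≤ 6 * (12 * R) * G * W * (Real.pi * (5 * R) ^ 2) := by
    rw [← pr2_vol a (by linarith : (0 : ℝ) ≤ 5 * R)]
    refine pr2_set (isCompact_closedBall a (5 * R)).measure_lt_top (by positivity)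
      (fun z _ => hcaub z) hwW (fun z hz => ?_)
    rw [image_eq_zero_of_notMem_tsupport (fun h => hz (hws h)), mul_zero]
  have P5 : ‖∫ z, E.indicator b z * w z‖ ≤ B * W * volume.real E := by
    refine pr2_set hEc.measure_lt_top hB0 (fun z hz => ?_) hwW (fun z hz => ?_)
    · rw [indicator_of_mem hz]
      exact hbB z
    · rw [indicator_of_notMem hz, zero_mul]
  have P5' : volume.real E ≤ CA * R * cap E := harea E a R hR hEc hE12
  -- the decomposition
  have D1 : ∫ z, b z * w z = (∫ z, T₃ z * w z) + (∫ z, Cau g z * w z) +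
      ∫ z, E.indicator b z * w z := by
    have i1 : Integrable (fun z => T₃ z * w z) := pr2_int s1 s2 hw
    have i2 : Integrable (fun z => Cau g z * w z) := pr2_int hcauc.measurable hcaub hw
    have i3 : Integrable (fun z => E.indicator b z * w z) := by
      refine pr2_int (B := B) (hbm.indicator hEc.isClosed.measurableSet) (fun z => ?_) hw
      exact (norm_indicator_le_norm_self _ _).trans (hbB z)
    have i12 : Integrable (fun z => T₃ z * w z + Cau g z * w z) := i1.add i2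
    rw [← integral_add i1 i2, ← integral_add i12 i3]
    refine integral_congr_ae (Filter.Eventually.of_forall fun z => ?_)
    show b z * w z = T₃ z * w z + Cau g z * w z + E.indicator b z * w z
    by_cases hz : z ∈ closedBall a (9 * R)
    · have e1 : T₃ z + Cau g z = Eᶜ.indicator b z := by
        rw [hT₃, hg]
        unfold TT
        rw [sub_add_cancel]
        by_cases hzE : z ∈ Eᶜ
        · rw [indicator_of_mem hzE, indicator_of_mem hzE, r4 z hz, one_mul]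
        · rw [indicator_of_notMem hzE, indicator_of_notMem hzE]
      have e2 : b z = Eᶜ.indicator b z + E.indicator b z := by
        by_cases hzE : z ∈ E
        · rw [indicator_of_mem hzE, indicator_of_notMem (by simpa using hzE), zero_add]
        · rw [indicator_of_notMem hzE, indicator_of_mem (show z ∈ Eᶜ from hzE), add_zero]
      rw [← add_mul, ← add_mul, e1, ← e2]
    · have : w z = 0 := image_eq_zero_of_notMem_tsupport fun h =>
        hz (closedBall_subset_closedBall (by linarith) (hws h))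
      rw [this]
      ring
  have D2 : ∫ z, (V.indicator (fun z => h₁ z * h₂ z) z - α₁ z * α₂ z) * w z =
      (∫ z, T₁ z * (α₂ z * w z)) + (∫ z, T₂ z * (α₁ z * w z)) + ∫ z, b z * w z := by
    have i1 : Integrable (fun z => T₁ z * (α₂ z * w z)) := pr2_int t1 t2 w1
    have i2 : Integrable (fun z => T₂ z * (α₁ z * w z)) := pr2_int u1 u2 v1
    have i3 : Integrable (fun z => b z * w z) := pr2_int hbm hbB hw
    have i12 : Integrable (fun z => T₁ z * (α₂ z * w z) + T₂ z * (α₁ z * w z)) := i1.add i2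
    rw [← integral_add i1 i2, ← integral_add i12 i3]
    refine integral_congr_ae (Filter.Eventually.of_forall fun z => ?_)
    show (V.indicator (fun z => h₁ z * h₂ z) z - α₁ z * α₂ z) * w z =
      T₁ z * (α₂ z * w z) + T₂ z * (α₁ z * w z) + T₁ z * T₂ z * w z
    by_cases hz : z ∈ closedBall a (6 * R)
    · have e1 : T₁ z = V.indicator h₁ z - α₁ z := by
        rw [hT₁, pr2_eq, p4 z hz, one_mul]
      have e2 : T₂ z = V.indicator h₂ z - α₂ z := by
        rw [hT₂, pr2_eq, p4 z hz, one_mul]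
      have e3 : V.indicator (fun z => h₁ z * h₂ z) z = V.indicator h₁ z * V.indicator h₂ z := by
        by_cases hzV : z ∈ V
        · rw [indicator_of_mem hzV, indicator_of_mem hzV, indicator_of_mem hzV]
        · rw [indicator_of_notMem hzV, indicator_of_notMem hzV, zero_mul]
      rw [e1, e2, e3]
      ring
    · have : w z = 0 := image_eq_zero_of_notMem_tsupport fun h =>
        hz (closedBall_subset_closedBall (by linarith) (hws h))
      rw [this]
      ring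
  -- the estimate
  have k0 : 0 ≤ N₁ * N₂ * W := by positivity
  have n4 : 6 * (12 * R) * G * W * (Real.pi * (5 * R) ^ 2) ≤
      72 * 4 * 73 ^ 2 * 25 * 8 * Real.pi * Cc * Q ^ 3 * (N₁ * N₂ * W) * R * cap E := by
    have e1 : 6 * (12 * R) * G * W * (Real.pi * (5 * R) ^ 2) =
        72 * 4 * 73 ^ 2 * 25 * Real.pi * Q ^ 3 * (N₁ * N₂ * W) * cap E * cap E := by
      rw [hG]
      field_simp
      ring
    rw [e1]
    have e2 : 72 * 4 * 73 ^ 2 * 25 * 8 * Real.pi * Cc * Q ^ 3 * (N₁ * N₂ * W) * R * cap E =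
        72 * 4 * 73 ^ 2 * 25 * Real.pi * Q ^ 3 * (N₁ * N₂ * W) * cap E * (Cc * (8 * R)) := by
      ring
    rw [e2]
    exact mul_le_mul_of_nonneg_left hE1 (by positivity)
  have n5 : B * W * volume.real E ≤ 73 ^ 2 * Q ^ 2 * CA * (N₁ * N₂ * W) * R * cap E := by
    have e1 : 73 ^ 2 * Q ^ 2 * CA * (N₁ * N₂ * W) * R * cap E = B * W * (CA * R * cap E) := by
      rw [hB]
      ring
    rw [e1]
    exact mul_le_mul_of_nonneg_left P5' (by positivity)
  rw [D2, D1]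
  have q1 := norm_add_le ((∫ z, T₁ z * (α₂ z * w z)) + (∫ z, T₂ z * (α₁ z * w z)))
    ((∫ z, T₃ z * w z) + (∫ z, Cau g z * w z) + ∫ z, E.indicator b z * w z)
  have q2 := norm_add_le (∫ z, T₁ z * (α₂ z * w z)) (∫ z, T₂ z * (α₁ z * w z))
  have q3 := norm_add_le ((∫ z, T₃ z * w z) + (∫ z, Cau g z * w z)) (∫ z, E.indicator b z * w z)
  have q4 := norm_add_le (∫ z, T₃ z * w z) (∫ z, Cau g z * w z)
  have e3 : (Cs * Q * Cα + Cs * Q * Cα + (Cs * (73 ^ 2 * Q ^ 2) * Q +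
      72 * 4 * 73 ^ 2 * 25 * 8 * Real.pi * Cc * Q ^ 3 + 73 ^ 2 * Q ^ 2 * CA)) * N₁ * N₂ * W * R *
      cap E = Cs * N₁ * Q * (Cα * N₂ * W) * R * cap E + Cs * N₂ * Q * (Cα * N₁ * W) * R * cap E +
      (Cs * B * Q * W * R * cap E +
      72 * 4 * 73 ^ 2 * 25 * 8 * Real.pi * Cc * Q ^ 3 * (N₁ * N₂ * W) * R * cap E +
      73 ^ 2 * Q ^ 2 * CA * (N₁ * N₂ * W) * R * cap E) := by
    rw [hB]
    ring
  rw [e3]
  linarith

theorem prod2 : ∃ C : ℝ, 0 < C ∧ ∀ (V : Set ℂ) (a : ℂ) (R N₁ N₂ W : ℝ) (h₁ h₂ w : ℂ → ℂ),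
    IsOpen V → 0 < R → 0 ≤ N₁ → 0 ≤ N₂ → 0 ≤ W → DifferentiableOn ℂ h₁ (V ∩ ball a (10 * R)) →
    DifferentiableOn ℂ h₂ (V ∩ ball a (10 * R)) →
    (∀ z ∈ V ∩ ball a (10 * R), ‖h₁ z‖ ≤ N₁) → (∀ z ∈ V ∩ ball a (10 * R), ‖h₂ z‖ ≤ N₂) →
    Test univ w → tsupport w ⊆ closedBall a (5 * R) → (∀ z, ‖w z‖ ≤ W) →
    ‖∫ z, (V.indicator (fun z => h₁ z * h₂ z) z - al V a R h₁ z * al V a R h₂ z) * w z‖ ≤
      C * N₁ * N₂ * W * R * cap (closedBall a (8 * R) \ V) := by
  obtain ⟨C, hC, hmain⟩ := pr2_main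
  refine ⟨C, hC, ?_⟩
  intro V a R N₁ N₂ W h₁ h₂ w hV hR hN₁ hN₂ hW hd₁ hd₂ hb₁ hb₂ hw hws hwW
  have hlim : Tendsto (fun ε : ℝ => C * (N₁ + ε) * (N₂ + ε) * W * R *
      cap (closedBall a (8 * R) \ V)) (𝓝[>] 0)
      (𝓝 (C * (N₁ + 0) * (N₂ + 0) * W * R * cap (closedBall a (8 * R) \ V))) := by
    refine Tendsto.mono_left ?_ nhdsWithin_le_nhds
    exact (Continuous.tendsto (by fun_prop) 0)
  rw [add_zero, add_zero] at hlim
  refine ge_of_tendsto hlim ?_
  filter_upwards [self_mem_nhdsWithin] with ε hε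
  have hε' : (0 : ℝ) < ε := hε
  exact hmain V a R (N₁ + ε) (N₂ + ε) W h₁ h₂ w hV hR (by linarith) (by linarith) hW hd₁ hd₂
    (fun z hz => (hb₁ z hz).trans (by linarith)) (fun z hz => (hb₂ z hz).trans (by linarith))
    hw hws hwW

end Pool.Agent.Work.MP_2cf110_an.Hyp

end
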