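import Pool.Agent.Work.MP_2cf110_an.Hyp.SmA

/-! # Mean value property of the smoothing

Take a smooth cut-off χ with compact support in U, equal to 1 on a neighborhood of the closed ball
(exists_contMDiff... / exists_contDiff_tsupport_subset...), k = χ h (a test function), sm_formula for k: where
1 - mm(q) ≠ 0 we have ‖ζ - z‖ < s Im z, so k = h near ζ and dzb k ζ = 0.  Sm s h z = Sm s k z since kap s z is supported in
the closed ball. -/

open MeasureTheory Complex Set Metric Filter
open scoped Topology ContDiff ComplexConjugate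

noncomputable section

namespace Pool.Agent.Work.MP_2cf110_an.Hyp

open QC (dz dzb Test Cau)

theorem sm_mean {s : ℝ} (hs : 0 < s) {U : Set ℂ} (hU : IsOpen U) {h : ℂ → ℂ}
    (hh : DifferentiableOn ℂ h U) {z : ℂ} (hz : z ∈ Hp) (hsub : closedBall z (s * z.im) ⊆ U) :
    Sm s h z = h z := by
  have hz' : 0 < z.im := hz
  have hr : 0 < s * z.im := mul_pos hs hz'
  obtain ⟨δ, hδ, hδU⟩ := (isCompact_closedBall z (s * z.im)).exists_cthickening_subset_open hU hsub
  rw [cthickening_closedBall hδ.le hr.le] at hδU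
  let χ : ContDiffBump z := ⟨s * z.im + δ / 2, s * z.im + δ, by positivity, by linarith⟩
  have hχU : tsupport χ ⊆ U := by
    rw [χ.tsupport_eq]
    refine Subset.trans (le_of_eq ?_) hδU
    show closedBall z (s * z.im + δ) = _
    rw [add_comm]
  have hχ1 : ∀ ζ, ‖ζ - z‖ ≤ s * z.im + δ / 2 → χ ζ = 1 := by
    intro ζ hζ
    apply χ.one_of_mem_closedBall
    rw [mem_closedBall, dist_eq_norm]
    exact hζ
  have hhU : ∀ ζ ∈ U, ContDiffAt ℝ ∞ h ζ := by
    intro ζ hζ
    have h1 : AnalyticAt ℂ h ζ := hh.analyticAt (hU.mem_nhds hζ)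
    exact (h1.contDiffAt (n := ∞)).restrict_scalars ℝ
  have hχs : ContDiff ℝ ∞ (fun ζ => ((χ ζ : ℝ) : ℂ)) :=
    Complex.ofRealCLM.contDiff.comp χ.contDiff
  have hk : Test univ (fun ζ => ((χ ζ : ℝ) : ℂ) * h ζ) := by
    refine ⟨?_, ?_, subset_univ _⟩
    · rw [contDiff_iff_contDiffAt]
      intro ζ
      by_cases hζ : ζ ∈ U
      · exact hχs.contDiffAt.mul (hhU ζ hζ)
      · have h1 : ζ ∉ tsupport χ := fun e => hζ (hχU e)
        have h2 : (fun ζ => ((χ ζ : ℝ) : ℂ) * h ζ) =ᶠ[𝓝 ζ] fun _ => 0 := by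
          have h3 := notMem_tsupport_iff_eventuallyEq.1 h1
          filter_upwards [h3] with w hw
          rw [hw]
          simp
        exact contDiffAt_const.congr_of_eventuallyEq h2
    · refine χ.hasCompactSupport.mono' ?_
      refine Subset.trans ?_ subset_closure
      intro ζ hζ
      rw [Function.mem_support] at hζ ⊢
      intro e
      apply hζ
      rw [e]
      simp
  have hform := sm_formula hs hk hz
  have hint : ∫ ζ, dzb (fun ζ => ((χ ζ : ℝ) : ℂ) * h ζ) ζ *
      (((1 - mm (qq s z ζ) : ℝ) : ℂ) / (z - ζ)) = 0 := by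
    rw [← integral_zero ℂ ℂ (μ := volume)]
    congr 1
    funext ζ
    by_cases hq : 1 ≤ qq s z ζ
    · rw [mm_facts.2.2.2 _ hq]
      simp
    · have h1 : ‖ζ - z‖ < s * z.im := by
        by_contra hcon
        apply hq
        unfold qq
        rw [one_le_div (by positivity)]
        exact pow_le_pow_left₀ hr.le (not_lt.1 hcon) 2
      have h2 : (fun ζ => ((χ ζ : ℝ) : ℂ) * h ζ) =ᶠ[𝓝 ζ] h := by
        have h3 : ball z (s * z.im + δ / 2) ∈ 𝓝 ζ := by
          apply isOpen_ball.mem_nhds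
          rw [mem_ball, dist_eq_norm]
          linarith
        filter_upwards [h3] with w hw
        rw [mem_ball, dist_eq_norm] at hw
        rw [hχ1 w hw.le]
        simp
      have h4 : ζ ∈ U := by
        apply hsub
        rw [mem_closedBall, dist_eq_norm]
        exact h1.le
      have h5 : DifferentiableAt ℂ h ζ := (hh.analyticAt (hU.mem_nhds h4)).differentiableAt
      have h6 : dzb (fun ζ => ((χ ζ : ℝ) : ℂ) * h ζ) ζ = dzb h ζ := by
        unfold dzb
        rw [h2.fderiv_eq]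
      rw [h6, (QC.dz_of_holo h5).2, zero_mul]
  rw [hint, mul_zero, sub_eq_zero] at hform
  have hkz : ((χ z : ℝ) : ℂ) * h z = h z := by
    rw [hχ1 z (by simp; positivity)]
    simp
  have hform' : ((χ z : ℝ) : ℂ) * h z = Sm s (fun ζ => ((χ ζ : ℝ) : ℂ) * h ζ) z := hform
  rw [hkz] at hform'
  rw [hform']
  unfold Sm
  congr 2
  funext ζ
  show h ζ * kap s z ζ = ((χ ζ : ℝ) : ℂ) * h ζ * kap s z ζ
  by_cases hζ : ‖ζ - z‖ ≤ s * z.im
  · rw [hχ1 ζ (by linarith)]
    simp
  · rw [(kap_ker hs).supp z hz ζ (not_le.1 hζ), mul_zero, mul_zero]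

end Pool.Agent.Work.MP_2cf110_an.Hyp

end
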