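import Pool.Agent.Work.MP_2cf110_an.Hyp.Prod1
import Pool.Agent.Work.MP_2cf110_an.Hyp.Prod2
import Pool.Agent.Work.MP_2cf110_an.Hyp.SmB
import Pool.Agent.Work.MP_2cf110_an.Hyp.Area
import Pool.Agent.Work.MP_2cf110_an.Hyp.KerA
import Pool.Agent.Work.MP_2cf110_an.Hyp.Kap
import Pool.Agent.Work.MP_2cf110_an.Hyp.AlF

/-! # Local replacement of the smoothed functions

w = kap s z, a test function with support in closedBall z (s Im z) ⊆ closedBall a (5R) for z in ball a (2R), bounded by C/(R²)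
(Im z and Im a comparable); al is analytic on ball a (6R), so (1/π) ∫ al kap = al z (sm_mean). -/

open MeasureTheory Complex Set Metric Filter
open scoped Topology ContDiff ComplexConjugate

noncomputable section

namespace Pool.Agent.Work.MP_2cf110_an.Hyp

open QC (dz dzb Test Cau)

private theorem rp_geo {s : ℝ} (hs : 0 < s) (hs1 : s ≤ 1 / 64) {a z : ℂ} (ha : a ∈ Hp)
    (hz : z ∈ ball a (2 * (s * a.im))) : z ∈ Hp ∧ a.im / 2 ≤ z.im ∧
    closedBall z (s * z.im) ⊆ closedBall a (5 * (s * a.im)) ∧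
    closedBall z (s * z.im) ⊆ ball a (6 * (s * a.im)) := by
  have ha' : 0 < a.im := ha
  rw [mem_ball, dist_eq_norm] at hz
  have h1 := Complex.abs_im_le_norm (z - a)
  rw [Complex.sub_im] at h1
  have h2 := abs_le.1 (h1.trans hz.le)
  have h3 : s * a.im ≤ a.im / 64 := by nlinarith
  have h4 : z.im ≤ 2 * a.im := by linarith [h2.2]
  have h5 : a.im / 2 ≤ z.im := by linarith [h2.1]
  have hR : 0 < s * a.im := by positivity
  have h6 : s * z.im ≤ 2 * (s * a.im) := by nlinarith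
  refine ⟨by show 0 < z.im; linarith, h5, ?_, ?_⟩
  · refine closedBall_subset_closedBall' ?_
    rw [dist_eq_norm]
    linarith
  · refine closedBall_subset_ball' ?_
    rw [dist_eq_norm]
    linarith

private theorem rp_meas {W : Set ℂ} (hW : IsOpen W) {f : ℂ → ℂ} (hf : ContinuousOn f W) :
    Measurable (W.indicator f) := by
  classical
  have h := ContinuousOn.measurable_piecewise hf (continuousOn_const (c := (0 : ℂ)))
    hW.measurableSet
  have h1 : W.piecewise f (fun _ => 0) = W.indicator f := Set.piecewise_eq_indicator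
  rwa [h1] at h

/-- the integrand is integrable -/
private theorem rp_int {V : Set ℂ} {a : ℂ} {R N : ℝ} {h w : ℂ → ℂ} (hV : IsOpen V)
    (hR : 0 < R) (hh : ContinuousOn h (V ∩ ball a (10 * R)))
    (hN : ∀ z ∈ V ∩ ball a (10 * R), ‖h z‖ ≤ N) (hw : Test univ w)
    (hws : tsupport w ⊆ closedBall a (5 * R)) :
    Integrable fun z => V.indicator h z * w z := by
  have h1 : (fun z => V.indicator h z * w z) =
      fun z => (V ∩ ball a (10 * R)).indicator h z * w z := by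
    funext z
    by_cases hz : z ∈ ball a (10 * R)
    · by_cases hzV : z ∈ V
      · have h3 : z ∈ V ∩ ball a (10 * R) := ⟨hzV, hz⟩
        rw [indicator_of_mem hzV, indicator_of_mem h3]
      · rw [indicator_of_notMem hzV, indicator_of_notMem fun h => hzV h.1]
    · have h2 : w z = 0 := image_eq_zero_of_notMem_tsupport fun h3 =>
        hz (closedBall_subset_ball (by linarith) (hws h3))
      rw [h2, mul_zero, mul_zero]
  rw [h1]
  refine (hw.smooth.continuous.integrable_of_hasCompactSupport hw.cpt).bdd_mul (c := |N|)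
    (rp_meas (hV.inter isOpen_ball) hh).aestronglyMeasurable (Eventually.of_forall fun z => ?_)
  by_cases hz : z ∈ V ∩ ball a (10 * R)
  · rw [indicator_of_mem hz]
    exact (hN z hz).trans (le_abs_self N)
  · rw [indicator_of_notMem hz, norm_zero]
    exact abs_nonneg N

/-- the difference as an integral -/
private theorem rp_diff {s : ℝ} (hs : 0 < s) {U : Set ℂ} (hU : IsOpen U) {z : ℂ} (hz : z ∈ Hp)
    (hsub : closedBall z (s * z.im) ⊆ U) {f g : ℂ → ℂ}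
    (hf : Integrable fun ζ => f ζ * kap s z ζ) (hg : Integrable fun ζ => g ζ * kap s z ζ)
    (hgU : DifferentiableOn ℂ g U) :
    Sm s f z - g z = (1 / (Real.pi : ℂ)) * ∫ ζ, (f ζ - g ζ) * kap s z ζ := by
  have h1 := sm_mean hs hU hgU hz hsub
  have h2 : ∫ ζ, (f ζ - g ζ) * kap s z ζ =
      (∫ ζ, f ζ * kap s z ζ) - ∫ ζ, g ζ * kap s z ζ := by
    rw [← integral_sub hf hg]
    refine integral_congr_ae (Eventually.of_forall fun ζ => ?_)
    show (f ζ - g ζ) * kap s z ζ = f ζ * kap s z ζ - g ζ * kap s z ζ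
    ring
  rw [← h1, h2]
  unfold Sm
  ring

private theorem rp_pi : ‖(1 / (Real.pi : ℂ))‖ = 1 / Real.pi := by
  rw [norm_div, norm_one, Complex.norm_real, Real.norm_eq_abs, abs_of_pos Real.pi_pos]

/-- the bound of the kernel -/
private theorem rp_kap {s C1 : ℝ} (hC1 : 0 < C1)
    (hC : ∀ z ∈ Hp, ∀ ζ, ‖kap s z ζ‖ ≤ C1 / z.im ^ 2) {a z : ℂ} (ha : a ∈ Hp) (hz : z ∈ Hp)
    (h : a.im / 2 ≤ z.im) (ζ : ℂ) : ‖kap s z ζ‖ ≤ 4 * C1 / a.im ^ 2 := by
  have ha' : 0 < a.im := ha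
  have hz' : 0 < z.im := hz
  refine (hC z hz ζ).trans ?_
  have h1 : a.im ^ 2 ≤ 4 * z.im ^ 2 := by nlinarith
  rw [div_le_div_iff₀ (by positivity) (by positivity)]
  nlinarith

theorem rep1 {s : ℝ} (hs : 0 < s) (hs1 : s ≤ 1 / 64) : ∃ C : ℝ, 0 < C ∧
    ∀ (V : Set ℂ) (a : ℂ) (N : ℝ) (h : ℂ → ℂ), IsOpen V → a ∈ Hp → 0 ≤ N →
    DifferentiableOn ℂ h (V ∩ ball a (10 * (s * a.im))) →
    (∀ z ∈ V ∩ ball a (10 * (s * a.im)), ‖h z‖ ≤ N) → ∀ z ∈ ball a (2 * (s * a.im)),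
    ‖Sm s (V.indicator h) z - al V a (s * a.im) h z‖ ≤ C * N * gam V s a / (s * a.im) := by
  obtain ⟨C0, hC0, h0⟩ := prod1
  obtain ⟨C1, hC1, h1⟩ := (kap_ker hs).bound
  obtain ⟨C2, hC2, h2⟩ := al_facts
  have hpi := Real.pi_pos
  refine ⟨4 * C0 * C1 * s ^ 2 / Real.pi, by positivity, ?_⟩
  intro V a N h hV ha hN hh hb z hz
  have ha' : 0 < a.im := ha
  have hR : 0 < s * a.im := by positivity
  obtain ⟨hzH, hz2, hz3, hz4⟩ := rp_geo hs hs1 ha hz
  obtain ⟨hw1, hw2⟩ := (kap_ker hs).test hzH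
  have hw3 := hw2.trans hz3
  obtain ⟨ha1, ha2, -⟩ := h2 V a (s * a.im) N h hV hR hN hh hb
  have hi1 := rp_int hV hR hh.continuousOn hb hw1 hw3
  have hi2 : Integrable fun ζ => al V a (s * a.im) h ζ * kap s z ζ :=
    (ha2.mul hw1.smooth.continuous).integrable_of_hasCompactSupport hw1.cpt.mul_left
  rw [rp_diff hs isOpen_ball hzH hz4 hi1 hi2 ha1, norm_mul, rp_pi]
  have h3 := h0 V a (s * a.im) N (4 * C1 / a.im ^ 2) h (kap s z) hV hR hN (by positivity) hh hb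
    hw1 hw3 (rp_kap hC1 h1 ha hzH hz2)
  calc 1 / Real.pi * ‖∫ ζ, (V.indicator h ζ - al V a (s * a.im) h ζ) * kap s z ζ‖
      ≤ 1 / Real.pi * (C0 * N * (4 * C1 / a.im ^ 2) * (s * a.im) *
        cap (closedBall a (8 * (s * a.im)) \ V)) := by gcongr
    _ = 4 * C0 * C1 * s ^ 2 / Real.pi * N * gam V s a / (s * a.im) := by
        unfold gam Ea
        field_simp

theorem rep3 {s : ℝ} (hs : 0 < s) (hs1 : s ≤ 1 / 64) : ∃ C : ℝ, 0 < C ∧
    ∀ (V : Set ℂ) (a : ℂ) (N₁ N₂ : ℝ) (h₁ h₂ : ℂ → ℂ), IsOpen V → a ∈ Hp → 0 ≤ N₁ → 0 ≤ N₂ →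
    DifferentiableOn ℂ h₁ (V ∩ ball a (10 * (s * a.im))) →
    DifferentiableOn ℂ h₂ (V ∩ ball a (10 * (s * a.im))) →
    (∀ z ∈ V ∩ ball a (10 * (s * a.im)), ‖h₁ z‖ ≤ N₁) →
    (∀ z ∈ V ∩ ball a (10 * (s * a.im)), ‖h₂ z‖ ≤ N₂) → ∀ z ∈ ball a (2 * (s * a.im)),
    ‖Sm s (V.indicator fun w => h₁ w * h₂ w) z - al V a (s * a.im) h₁ z * al V a (s * a.im) h₂ z‖ ≤
      C * N₁ * N₂ * gam V s a / (s * a.im) := by
  obtain ⟨C0, hC0, h0⟩ := prod2
  obtain ⟨C1, hC1, h1⟩ := (kap_ker hs).bound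
  obtain ⟨C2, hC2, h2⟩ := al_facts
  have hpi := Real.pi_pos
  refine ⟨4 * C0 * C1 * s ^ 2 / Real.pi, by positivity, ?_⟩
  intro V a N₁ N₂ k₁ k₂ hV ha hN₁ hN₂ hk₁ hk₂ hb₁ hb₂ z hz
  have ha' : 0 < a.im := ha
  have hR : 0 < s * a.im := by positivity
  obtain ⟨hzH, hz2, hz3, hz4⟩ := rp_geo hs hs1 ha hz
  obtain ⟨hw1, hw2⟩ := (kap_ker hs).test hzH
  have hw3 := hw2.trans hz3
  obtain ⟨ha1, ha2, -⟩ := h2 V a (s * a.im) N₁ k₁ hV hR hN₁ hk₁ hb₁
  obtain ⟨ha3, ha4, -⟩ := h2 V a (s * a.im) N₂ k₂ hV hR hN₂ hk₂ hb₂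
  have hb : ∀ z ∈ V ∩ ball a (10 * (s * a.im)), ‖k₁ z * k₂ z‖ ≤ N₁ * N₂ := by
    intro z hz
    rw [norm_mul]
    exact mul_le_mul (hb₁ z hz) (hb₂ z hz) (norm_nonneg _) hN₁
  have hi1 := rp_int (h := fun w => k₁ w * k₂ w) hV hR (hk₁.continuousOn.mul hk₂.continuousOn)
    hb hw1 hw3
  have hi2 : Integrable fun ζ => (al V a (s * a.im) k₁ ζ * al V a (s * a.im) k₂ ζ) *
      kap s z ζ :=
    ((ha2.mul ha4).mul hw1.smooth.continuous).integrable_of_hasCompactSupport hw1.cpt.mul_left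
  rw [rp_diff (g := fun ζ => al V a (s * a.im) k₁ ζ * al V a (s * a.im) k₂ ζ) hs isOpen_ball hzH
    hz4 hi1 hi2 (ha1.mul ha3), norm_mul, rp_pi]
  have h3 := h0 V a (s * a.im) N₁ N₂ (4 * C1 / a.im ^ 2) k₁ k₂ (kap s z) hV hR hN₁ hN₂
    (by positivity) hk₁ hk₂ hb₁ hb₂ hw1 hw3 (rp_kap hC1 h1 ha hzH hz2)
  calc 1 / Real.pi * ‖∫ ζ, (V.indicator (fun w => k₁ w * k₂ w) ζ -
        al V a (s * a.im) k₁ ζ * al V a (s * a.im) k₂ ζ) * kap s z ζ‖
      ≤ 1 / Real.pi * (C0 * N₁ * N₂ * (4 * C1 / a.im ^ 2) * (s * a.im) *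
        cap (closedBall a (8 * (s * a.im)) \ V)) := by gcongr
    _ = 4 * C0 * C1 * s ^ 2 / Real.pi * N₁ * N₂ * gam V s a / (s * a.im) := by
        unfold gam Ea
        field_simp

/-- the mass of the kernel on `V` (from `area_le` and the mean value property for `1`) -/
theorem rep4 {s : ℝ} (hs : 0 < s) (hs1 : s ≤ 1 / 64) : ∃ C : ℝ, 0 < C ∧
    ∀ (V : Set ℂ) (a : ℂ), IsOpen V → a ∈ Hp → ∀ z ∈ ball a (2 * (s * a.im)),
    ‖Sm s (V.indicator fun _ => 1) z - 1‖ ≤ C * gam V s a / (s * a.im) := by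
  obtain ⟨C0, hC0, h0⟩ := area_le
  obtain ⟨C1, hC1, h1⟩ := (kap_ker hs).bound
  have hpi := Real.pi_pos
  refine ⟨4 * C0 * C1 * s ^ 2 / Real.pi, by positivity, ?_⟩
  intro V a hV ha z hz
  have ha' : 0 < a.im := ha
  have hR : 0 < s * a.im := by positivity
  obtain ⟨hzH, hz2, hz3, hz4⟩ := rp_geo hs hs1 ha hz
  obtain ⟨hw1, hw2⟩ := (kap_ker hs).test hzH
  have hw3 := hw2.trans hz3
  have hi1 := rp_int (N := 1) (h := fun _ => (1 : ℂ)) hV hR continuousOn_const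
    (fun z _ => by simp) hw1 hw3
  have hi2 : Integrable fun ζ => (1 : ℂ) * kap s z ζ :=
    (continuous_const.mul hw1.smooth.continuous).integrable_of_hasCompactSupport
      hw1.cpt.mul_left
  have h2 := rp_diff (f := V.indicator fun _ => 1) (g := fun _ => (1 : ℂ)) hs isOpen_ball hzH
    hz4 hi1 hi2 (differentiableOn_const 1)
  rw [h2, norm_mul, rp_pi]
  have hE : IsCompact (closedBall a (8 * (s * a.im)) \ V) :=
    (isCompact_closedBall _ _).diff hV
  have h3 := h0 (closedBall a (8 * (s * a.im)) \ V) a (s * a.im) hR hE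
    (diff_subset.trans (closedBall_subset_closedBall (by linarith)))
  have hEi : Integrable ((closedBall a (8 * (s * a.im)) \ V).indicator
      fun _ : ℂ => 4 * C1 / a.im ^ 2) :=
    (integrable_indicator_iff hE.measurableSet).2
      (integrableOn_const hE.measure_lt_top.ne)
  have h4 : ‖∫ ζ, (V.indicator (fun _ => (1 : ℂ)) ζ - 1) * kap s z ζ‖ ≤
      ∫ ζ, (closedBall a (8 * (s * a.im)) \ V).indicator
        (fun _ : ℂ => 4 * C1 / a.im ^ 2) ζ := by
    refine norm_integral_le_of_norm_le hEi (Eventually.of_forall fun ζ => ?_)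
    by_cases hζ : ζ ∈ closedBall a (8 * (s * a.im)) \ V
    · rw [indicator_of_mem hζ, indicator_of_notMem hζ.2, zero_sub, norm_mul, norm_neg, norm_one,
        one_mul]
      exact rp_kap hC1 h1 ha hzH hz2 ζ
    · rw [indicator_of_notMem hζ]
      by_cases hζV : ζ ∈ V
      · rw [indicator_of_mem hζV, sub_self, zero_mul, norm_zero]
      · have h5 : kap s z ζ = 0 := image_eq_zero_of_notMem_tsupport fun h6 =>
          hζ ⟨closedBall_subset_closedBall (by linarith) (hw3 h6), hζV⟩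
        rw [h5, mul_zero, norm_zero]
  have h5 : ∫ ζ, (closedBall a (8 * (s * a.im)) \ V).indicator
        (fun _ : ℂ => 4 * C1 / a.im ^ 2) ζ =
      volume.real (closedBall a (8 * (s * a.im)) \ V) * (4 * C1 / a.im ^ 2) := by
    rw [integral_indicator hE.measurableSet, setIntegral_const, smul_eq_mul]
  rw [h5] at h4
  calc 1 / Real.pi * ‖∫ ζ, (V.indicator (fun _ => (1 : ℂ)) ζ - 1) * kap s z ζ‖
      ≤ 1 / Real.pi * (C0 * (s * a.im) * cap (closedBall a (8 * (s * a.im)) \ V) *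
        (4 * C1 / a.im ^ 2)) := by
        gcongr
        refine h4.trans ?_
        gcongr
    _ = 4 * C0 * C1 * s ^ 2 / Real.pi * gam V s a / (s * a.im) := by
        unfold gam Ea
        field_simp

end Pool.Agent.Work.MP_2cf110_an.Hyp

end
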