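import Pool.Agent.Work.MP_2cf110_an.Hyp.BezA
import Pool.Agent.Work.MP_2cf110_an.Hyp.AlF

/-! # In the thin case |F| is bounded below

some X i z ≠ 0 by X_sum; bezA and |al (g i j)| ≤ C K (al_facts) give |Σ ...| ≥ 1/2, so some |al (f j) z| ≥ c, rep1: |F_j - al f_j| ≤ C gam/R ≤ C κ. -/

open MeasureTheory Complex Set Metric Filter
open scoped Topology ContDiff ComplexConjugate

noncomputable section

namespace Pool.Agent.Work.MP_2cf110_an.Hyp

open QC (dz dzb Test Cau)

theorem thin {n L : ℕ} {s K : ℝ} (hs : 0 < s) (hs1 : s ≤ 1 / 64) (hK : 0 ≤ K) :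
    ∃ c κ : ℝ, 0 < c ∧ 0 < κ ∧
    ∀ (V : Set ℂ) (f : Fin n → ℂ → ℂ) (X : Fin L → ℂ → ℂ) (g : Fin L → Fin n → ℂ → ℂ),
    Data s K V f X g → ∀ a ∈ Hp, gam V s a ≤ κ * (s * a.im) →
    ∀ z ∈ ball a (2 * (s * a.im)), c ≤ nsq (FF s V f) z := by
  obtain ⟨C1, hC1, hbez⟩ := bezA (n := n) (L := L) hs hs1 hK
  obtain ⟨C2, hC2, hal⟩ := al_facts
  obtain ⟨C3, hC3, hrep⟩ := rep1 hs hs1
  set m0 : ℝ := 1 / (2 * (C2 * (K + 1))) with hm0
  have hm0p : 0 < m0 := by positivity
  set κ : ℝ := min (1 / (2 * C1)) (m0 / (2 * (n * (C3 * K) + 1))) with hκ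
  have hκp : 0 < κ := lt_min (by positivity) (by positivity)
  refine ⟨(m0 / 2) ^ 2 / (n + 1), κ, by positivity, hκp, fun V f X g D a ha hg z hz => ?_⟩
  have hR : 0 < s * a.im := mul_pos hs ha
  have hgR : gam V s a / (s * a.im) ≤ κ := by rwa [div_le_iff₀ hR]
  -- `z` is in the half plane
  have hzH : z ∈ Hp := by
    have h1 : |z.im - a.im| < 2 * (s * a.im) := by
      rw [← Complex.sub_im]
      refine lt_of_le_of_lt (Complex.abs_im_le_norm _) ?_
      rwa [mem_ball, dist_eq_norm] at hz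
    have h2 := (abs_lt.1 h1).1
    have ha' : 0 < a.im := ha
    show 0 < z.im
    nlinarith
  obtain ⟨i, hi⟩ : ∃ i, X i z ≠ 0 := by
    by_contra hc
    push Not at hc
    have := D.X_sum z hzH
    rw [Finset.sum_eq_zero fun i _ => hc i] at this
    exact zero_ne_one this
  have hb := hbez V f X g D a ha i ⟨z, hz, hi⟩ z hz
  have hloc := D.loc a ha i ⟨z, hz, hi⟩
  -- the bound for the Bezout sum
  have h1 : ‖∑ j, al V a (s * a.im) (f j) z * al V a (s * a.im) (g i j) z - 1‖ ≤ 1 / 2 := by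
    refine hb.trans ?_
    have h2 : κ ≤ 1 / (2 * C1) := min_le_left _ _
    calc C1 * gam V s a / (s * a.im) = C1 * (gam V s a / (s * a.im)) := by ring
      _ ≤ C1 * κ := by gcongr
      _ ≤ C1 * (1 / (2 * C1)) := by gcongr
      _ = 1 / 2 := by field_simp
  have h2 : (1 : ℝ) / 2 ≤ ‖∑ j, al V a (s * a.im) (f j) z * al V a (s * a.im) (g i j) z‖ := by
    have h3 : ‖(1 : ℂ)‖ ≤ ‖∑ j, al V a (s * a.im) (f j) z * al V a (s * a.im) (g i j) z‖ +
        ‖∑ j, al V a (s * a.im) (f j) z * al V a (s * a.im) (g i j) z - 1‖ := by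
      have := norm_sub_le (∑ j, al V a (s * a.im) (f j) z * al V a (s * a.im) (g i j) z)
        (∑ j, al V a (s * a.im) (f j) z * al V a (s * a.im) (g i j) z - 1)
      rwa [sub_sub_cancel] at this
    rw [norm_one] at h3
    linarith
  have h3 : (1 : ℝ) / 2 ≤ (∑ j, ‖al V a (s * a.im) (f j) z‖) * (C2 * (K + 1)) := by
    refine h2.trans ((norm_sum_le _ _).trans ?_)
    rw [Finset.sum_mul]
    refine Finset.sum_le_sum fun j _ => ?_
    rw [norm_mul]
    have h4 := (hal V a (s * a.im) K (g i j) D.V_open hR hK (hloc.1 j)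
      (fun w _ => D.g_le i j w)).2.2 z
    have h5 : C2 * K ≤ C2 * (K + 1) := by gcongr; linarith
    gcongr
    exact h4.trans h5
  have h4 : m0 ≤ ∑ j, ‖al V a (s * a.im) (f j) z‖ := by
    rw [hm0, div_le_iff₀ (by positivity)]
    linarith
  -- comparison with `F`
  have h5 : ∀ j, ‖al V a (s * a.im) (f j) z‖ ≤ ‖FF s V f j z‖ + C3 * K * κ := by
    intro j
    have h6 := hrep V a K (f j) D.V_open ha hK ((D.f_holo j).mono inter_subset_left)
      (fun w hw => D.f_le j w hw.1) z hz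
    have h7 : C3 * K * gam V s a / (s * a.im) ≤ C3 * K * κ := by
      calc C3 * K * gam V s a / (s * a.im) = C3 * K * (gam V s a / (s * a.im)) := by ring
        _ ≤ C3 * K * κ := by gcongr
    have h8 := norm_sub_norm_le (al V a (s * a.im) (f j) z) (Sm s (V.indicator (f j)) z)
    rw [norm_sub_rev] at h8
    have h9 : FF s V f j z = Sm s (V.indicator (f j)) z := rfl
    rw [h9]
    linarith
  have h6 : m0 / 2 ≤ ∑ j, ‖FF s V f j z‖ := by
    have h7 : ∑ j, ‖al V a (s * a.im) (f j) z‖ ≤ ∑ j, ‖FF s V f j z‖ + n * (C3 * K * κ) := by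
      refine (Finset.sum_le_sum fun j _ => h5 j).trans ?_
      rw [Finset.sum_add_distrib]
      simp
    have h8 : n * (C3 * K * κ) ≤ m0 / 2 := by
      have h9 : κ ≤ m0 / (2 * (n * (C3 * K) + 1)) := min_le_right _ _
      calc n * (C3 * K * κ) = (n * (C3 * K)) * κ := by ring
        _ ≤ (n * (C3 * K) + 1) * (m0 / (2 * (n * (C3 * K) + 1))) := by
          gcongr
          linarith
        _ = m0 / 2 := by field_simp
    linarith
  have h7 : (∑ j, ‖FF s V f j z‖) ^ 2 ≤ n * nsq (FF s V f) z := by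
    have := sq_sum_le_card_mul_sum_sq (s := (Finset.univ : Finset (Fin n)))
      (f := fun j => ‖FF s V f j z‖)
    simpa [nsq] using this
  have h8 : 0 ≤ nsq (FF s V f) z := Finset.sum_nonneg fun j _ => by positivity
  rw [div_le_iff₀ (by positivity)]
  have h9 : (m0 / 2) ^ 2 ≤ (∑ j, ‖FF s V f j z‖) ^ 2 := by gcongr
  nlinarith

end Pool.Agent.Work.MP_2cf110_an.Hyp

end
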