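import Pool.Agent.Work.MP_2cf110_an.Hyp.E0
import Pool.Agent.Work.MP_2cf110_an.Hyp.AlgE
import Pool.Agent.Work.MP_2cf110_an.Hyp.Thin
import Pool.Agent.Work.MP_2cf110_an.Hyp.Rep1
import Pool.Agent.Work.MP_2cf110_an.Hyp.Rep2
import Pool.Agent.Work.MP_2cf110_an.Hyp.MacB
import Pool.Agent.Work.MP_2cf110_an.Hyp.OmG
import Pool.Agent.Work.MP_2cf110_an.Hyp.BezA
import Pool.Agent.Work.MP_2cf110_an.Hyp.AlF

/-! # Pointwise comparison in the thin case

On ball a (2R), nsq F ≥ c, so Gm c F p = conj F_p/|F|² near z and Σ F_j Gm_j = 1, and differentiate.  algE with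
e = gam/R, T = 1/R, x = X z, dx = dzb X z, σ = Sm (1_V g), dσ = dzb (Sm (1_V g)) (rep1, rep2, bezA, al_facts); classes with X i = 0 on
ball a (2R) are inactive.  Then Ga p = Gm p + O(e), Da p = dzb Gm p + O(e/R), and omM_eq. -/

open MeasureTheory Complex Set Metric Filter
open scoped Topology ContDiff ComplexConjugate

noncomputable section

namespace Pool.Agent.Work.MP_2cf110_an.Hyp

open QC (dz dzb Test Cau)

private theorem e2_congr {f g : ℂ → ℂ} {z : ℂ} (h : f =ᶠ[𝓝 z] g) : dzb f z = dzb g z := by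
  unfold QC.dzb
  rw [h.fderiv_eq]

private theorem e2_const (c z : ℂ) : dzb (fun _ => c) z = 0 := by
  unfold QC.dzb
  rw [fderiv_fun_const]
  simp

private theorem e2_sum {m : ℕ} {f : Fin m → ℂ → ℂ} {z : ℂ}
    (hf : ∀ i, DifferentiableAt ℝ (f i) z) :
    dzb (fun w => ∑ i, f i w) z = ∑ i, dzb (f i) z := by
  unfold QC.dzb
  rw [fderiv_fun_sum (fun i _ => hf i), ContinuousLinearMap.sum_apply,
    ContinuousLinearMap.sum_apply, Finset.mul_sum, ← Finset.sum_add_distrib, Finset.sum_div]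

private theorem e2_gam (V : Set ℂ) (s : ℝ) (a : ℂ) : 0 ≤ gam V s a := by
  unfold gam cap
  apply Real.sSup_nonneg
  rintro t ⟨b, c, -, rfl⟩
  exact norm_nonneg _

private theorem e2_lam {n : ℕ} {c : ℝ} (hc : 0 < c) {F : Fin n → ℂ → ℂ} {z : ℂ}
    (h : c ≤ nsq F z) : ∑ j, F j z * Gm c F j z = 1 := by
  have h0 : 0 < nsq F z := hc.trans_le h
  have h1 : lam c (nsq F z) = 1 / nsq F z := by
    unfold lam
    rw [Real.smoothTransition.one_of_one_le]
    rw [le_div_iff₀ hc]
    linarith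
  have h2 : ∀ j, F j z * Gm c F j z = ((1 / nsq F z : ℝ) : ℂ) * ((‖F j z‖ ^ 2 : ℝ) : ℂ) := by
    intro j
    unfold Gm
    rw [h1, ← Complex.normSq_eq_norm_sq, ← Complex.mul_conj]
    ring
  rw [Finset.sum_congr rfl (fun j _ => h2 j), ← Finset.mul_sum, ← Complex.ofReal_sum]
  have h3 : ∑ j, ‖F j z‖ ^ 2 = nsq F z := rfl
  rw [h3, ← Complex.ofReal_mul, one_div_mul_cancel h0.ne', Complex.ofReal_one]

theorem e2 {n L : ℕ} {s K c κ : ℝ} (hs : 0 < s) (hs1 : s ≤ 1 / 64) (hK : 0 ≤ K) (hc : 0 < c)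
    (hκ : 0 < κ) : ∃ C : ℝ, 0 < C ∧
    ∀ (V : Set ℂ) (f : Fin n → ℂ → ℂ) (X : Fin L → ℂ → ℂ) (g : Fin L → Fin n → ℂ → ℂ),
    Data s K V f X g → ∀ a ∈ Hp, gam V s a ≤ κ * (s * a.im) →
    (∀ z ∈ ball a (2 * (s * a.im)), c ≤ nsq (FF s V f) z) →
    ∀ z ∈ closedBall a (s * a.im), ∀ p l,
    ‖omA s c V f X g a p l z - omM c (FF s V f) p l z‖ ≤ C * gam V s a / (s * a.im) ^ 2 := by
  obtain ⟨C1, hC1, H1⟩ := rep1 hs hs1
  obtain ⟨C2, hC2, H2⟩ := rep2 hs hs1
  obtain ⟨C3, hC3, H3⟩ := bezA (n := n) (L := L) hs hs1 hK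
  obtain ⟨C4, hC4, H4⟩ := al_facts
  obtain ⟨C5, hC5, H5⟩ := mac_bounds (n := n) (L := L) hs hK hc
  obtain ⟨K', hK'⟩ : ∃ K' : ℝ, K' = 1 + K + κ + C1 * K + C2 * K + C3 + C4 * K + C5 := ⟨_, rfl⟩
  have p1 : 0 ≤ C1 * K := by positivity
  have p2 : 0 ≤ C2 * K := by positivity
  have p4 : 0 ≤ C4 * K := by positivity
  have hK1 : 1 ≤ K' := by rw [hK']; linarith
  have hK0 : 0 ≤ K' := by linarith
  have q1 : C1 * K ≤ K' := by rw [hK']; linarith
  have q2 : C2 * K ≤ K' := by rw [hK']; linarith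
  have q3 : C3 ≤ K' := by rw [hK']; linarith
  have q4 : C4 * K ≤ K' := by rw [hK']; linarith
  have q5 : C5 ≤ K' := by rw [hK']; linarith
  have q6 : κ ≤ K' := by rw [hK']; linarith
  have q7 : K ≤ K' := by rw [hK']; linarith
  obtain ⟨C0, hC0, H0⟩ := algE n L hK1
  refine ⟨2 * (C0 * (K' + C0 * K') + K' * C0), by positivity, ?_⟩
  intro V f X g D a ha hgam hnsq z hz p l
  have haim : 0 < a.im := ha
  obtain ⟨R, hR⟩ : ∃ R : ℝ, R = s * a.im := ⟨_, rfl⟩
  have hR0 : 0 < R := by rw [hR]; positivity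
  have hRa : R ≤ a.im / 64 := by rw [hR]; nlinarith
  simp only [← hR] at hgam hnsq hz ⊢
  have hzb : z ∈ ball a (2 * R) := closedBall_subset_ball (by linarith) hz
  have hzim : R ≤ z.im := by
    rw [mem_closedBall, dist_eq_norm] at hz
    have h1 := (Complex.abs_im_le_norm (z - a)).trans hz
    rw [Complex.sub_im, abs_le] at h1
    linarith [h1.1]
  have hzH : z ∈ Hp := hR0.trans_le hzim
  have hnz : Hp ∈ 𝓝 z := isOpen_Hp.mem_nhds hzH
  have hg0 : 0 ≤ gam V s a := e2_gam V s a
  obtain ⟨T, hT⟩ : ∃ T : ℝ, T = 1 / R := ⟨_, rfl⟩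
  obtain ⟨e, he⟩ : ∃ e : ℝ, e = gam V s a / R := ⟨_, rfl⟩
  have hT0 : 0 ≤ T := by rw [hT]; positivity
  have he0 : 0 ≤ e := by rw [he]; positivity
  have heK : e ≤ K' := by
    rw [he, div_le_iff₀ hR0]
    exact hgam.trans (mul_le_mul_of_nonneg_right q6 hR0.le)
  have hTz : ∀ B : ℝ, 0 ≤ B → B ≤ K' → B / z.im ≤ K' * T := by
    intro B hB hBK
    rw [hT, mul_one_div]
    gcongr
  have heT : ∀ B : ℝ, B ≤ K' → B * gam V s a / R ^ 2 ≤ K' * (e * T) := by
    intro B hBK
    have e1 : B * gam V s a / R ^ 2 = B * (e * T) := by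
      rw [he, hT]; field_simp
    rw [e1]
    exact mul_le_mul_of_nonneg_right hBK (mul_nonneg he0 hT0)
  have heR : ∀ B : ℝ, B ≤ K' → B * gam V s a / R ≤ K' * e := by
    intro B hBK
    have e1 : B * gam V s a / R = B * e := by
      rw [he]; field_simp
    rw [e1]
    exact mul_le_mul_of_nonneg_right hBK he0
  -- differentiability
  have dX : ∀ i, DifferentiableAt ℝ (X i) z := fun i =>
    ((D.X_smooth i).contDiffAt hnz).differentiableAt (by simp)
  have dF : ∀ j, DifferentiableAt ℝ (FF s V f j) z := fun j =>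
    ((mac_FF hs hK D j).contDiffAt hnz).differentiableAt (by simp)
  have dG : ∀ j, DifferentiableAt ℝ (Gm c (FF s V f) j) z := fun j =>
    ((mac_Gm hs hK hc D j).contDiffAt hnz).differentiableAt (by simp)
  have dA : ∀ j, DifferentiableAt ℝ (AA s V X g j) z := fun j =>
    ((mac_AA hs hK D j).contDiffAt hnz).differentiableAt (by simp)
  have dS : ∀ i j, DifferentiableAt ℝ (Sm s (V.indicator (g i j))) z := fun i j =>
    ((sm_smooth hs (li_of_bdd (D.g_meas i j) (D.g_ind hK i j))).contDiffAt hnz).differentiableAt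
      (by simp)
  obtain ⟨m1, m2, -, -⟩ := H5 V f X g D z hzH
  have hfd : ∀ j, DifferentiableOn ℂ (f j) (V ∩ ball a (10 * R)) := fun j =>
    (D.f_holo j).mono inter_subset_left
  have hfb : ∀ j, ∀ w ∈ V ∩ ball a (10 * R), ‖f j w‖ ≤ K := fun j w hw => D.f_le j w hw.1
  have hball : ball a (2 * R) ∈ 𝓝 z := isOpen_ball.mem_nhds hzb
  have sumdX : ∑ i, dzb (X i) z = 0 := by
    rw [← e2_sum dX]
    have h1 : (fun w => ∑ i, X i w) =ᶠ[𝓝 z] fun _ => 1 := by
      filter_upwards [hnz] with w hw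
      exact D.X_sum w hw
    rw [e2_congr h1, e2_const]
  have sumFG : ∑ j, FF s V f j z * Gm c (FF s V f) j z = 1 := e2_lam hc (hnsq z hzb)
  have sumdFG : ∑ j, (dzb (FF s V f j) z * Gm c (FF s V f) j z +
      FF s V f j z * dzb (Gm c (FF s V f) j) z) = 0 := by
    have h1 : (fun w => ∑ j, FF s V f j w * Gm c (FF s V f) j w) =ᶠ[𝓝 z] fun _ => 1 := by
      filter_upwards [hball] with w hw
      exact e2_lam hc (hnsq w hw)
    have h2 := e2_congr h1
    rw [e2_const, e2_sum (fun j => (dF j).fun_mul (dG j))] at h2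
    rw [← h2]
    exact Finset.sum_congr rfl (fun j _ => ((QC.dz_mul (dF j) (dG j)).2).symm)
  have act : ∀ i, (X i z = 0 ∧ dzb (X i) z = 0) ∨ ((∀ j, ‖al V a R (g i j) z‖ ≤ K') ∧
      (∀ j, ‖Sm s (V.indicator (g i j)) z - al V a R (g i j) z‖ ≤ K' * e) ∧
      ‖∑ j, al V a R (f j) z * al V a R (g i j) z - 1‖ ≤ K' * e ∧
      ∀ j, ‖dzb (Sm s (V.indicator (g i j))) z‖ ≤ K' * (e * T)) := by
    intro i
    by_cases hX : ∃ w ∈ ball a (2 * R), X i w ≠ 0
    · right
      have hX' : ∃ w ∈ ball a (2 * (s * a.im)), X i w ≠ 0 := by rw [← hR]; exact hX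
      obtain ⟨l1, -⟩ := D.loc a ha i hX'
      rw [← hR] at l1
      have l2 : ∀ j, ∀ w ∈ V ∩ ball a (10 * R), ‖g i j w‖ ≤ K := fun j w _ => D.g_le i j w
      refine ⟨fun j => ?_, fun j => ?_, ?_, fun j => ?_⟩
      · exact ((H4 V a R K (g i j) D.V_open hR0 hK (l1 j) (l2 j)).2.2 z).trans q4
      · have h1 := H1 V a K (g i j) D.V_open ha hK (by rw [← hR]; exact l1 j)
          (by rw [← hR]; exact l2 j) z (by rw [← hR]; exact hzb)
        rw [← hR] at h1
        exact h1.trans (heR _ q1)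
      · have h1 := H3 V f X g D a ha i hX' z (by rw [← hR]; exact hzb)
        rw [← hR] at h1
        exact h1.trans (heR _ q3)
      · have h1 := (H2 V a K (g i j) D.V_open ha hK (li_of_bdd (D.g_meas i j) (D.g_ind hK i j))
          (by rw [← hR]; exact l1 j) (by rw [← hR]; exact l2 j) z (by rw [← hR]; exact hzb)).1
        rw [← hR] at h1
        exact h1.trans (heT _ q2)
    · left
      push Not at hX
      have h1 : X i =ᶠ[𝓝 z] fun _ => 0 := by
        filter_upwards [hball] with w hw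
        exact hX w hw
      exact ⟨hX z hzb, by rw [e2_congr h1, e2_const]⟩
  have key : ∀ q, ‖Ga s c V f X g a q z - Gm c (FF s V f) q z‖ ≤ C0 * e ∧
      ‖Da s c V f X g a q z - dzb (Gm c (FF s V f) q) z‖ ≤ C0 * (e * T) := by
    intro q
    have h := H0 e T (fun j => FF s V f j z) (fun j => al V a R (f j) z)
      (fun j => Gm c (FF s V f) j z) (fun j => dzb (FF s V f j) z)
      (fun j => dzb (Gm c (FF s V f) j) z) (fun i j => al V a R (g i j) z)
      (fun i j => Sm s (V.indicator (g i j)) z) (fun i j => dzb (Sm s (V.indicator (g i j))) z)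
      (fun i => X i z) (fun i => dzb (X i) z) he0 heK hT0
      (fun j => (m1 j).1.trans q5) (fun j => (m2 j).1.trans q5)
      (fun j => (m2 j).2.trans (hTz _ hC5.le q5)) (fun i => D.X_le i z hzH)
      (fun i => (D.X_der i z hzH).trans (hTz _ hK q7)) (D.X_sum z hzH) sumdX
      (fun j => ?_) (fun j => ?_) sumFG sumdFG act q
    · constructor
      · have e1 : Ga s c V f X g a q z = ∑ i, X i z * al V a R (g i q) z +
            ∑ j, al V a R (f j) z * ((∑ i, X i z * Sm s (V.indicator (g i j)) z) *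
              Gm c (FF s V f) q z - (∑ i, X i z * Sm s (V.indicator (g i q)) z) *
              Gm c (FF s V f) j z) := by
          unfold Ga BB AA
          rw [← hR]
        rw [e1]
        exact h.1
      · have hdA : ∀ j, dzb (AA s V X g j) z = ∑ i, (dzb (X i) z * Sm s (V.indicator (g i j)) z +
            X i z * dzb (Sm s (V.indicator (g i j))) z) := by
          intro j
          have h1 : dzb (AA s V X g j) z =
              dzb (fun w => ∑ i, X i w * Sm s (V.indicator (g i j)) w) z := rfl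
          rw [h1, e2_sum (fun i => (dX i).fun_mul (dS i j))]
          exact Finset.sum_congr rfl (fun i _ => (QC.dz_mul (dX i) (dS i j)).2)
        have hdB : ∀ j, dzb (BB s c V f X g j q) z =
            dzb (AA s V X g j) z * Gm c (FF s V f) q z + AA s V X g j z *
            dzb (Gm c (FF s V f) q) z - dzb (AA s V X g q) z * Gm c (FF s V f) j z -
            AA s V X g q z * dzb (Gm c (FF s V f) j) z := by
          intro j
          have h1 : dzb (BB s c V f X g j q) z =
              dzb (fun w => AA s V X g j w * Gm c (FF s V f) q w -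
                AA s V X g q w * Gm c (FF s V f) j w) z := rfl
          rw [h1, (QC.dz_sub ((dA j).fun_mul (dG q)) ((dA q).fun_mul (dG j))).2,
            (QC.dz_mul (dA j) (dG q)).2, (QC.dz_mul (dA q) (dG j)).2]
          ring
        have e1 : Da s c V f X g a q z = ∑ i, dzb (X i) z * al V a R (g i q) z +
            ∑ j, al V a R (f j) z * ((∑ i, (dzb (X i) z * Sm s (V.indicator (g i j)) z +
              X i z * dzb (Sm s (V.indicator (g i j))) z)) * Gm c (FF s V f) q z +
              (∑ i, X i z * Sm s (V.indicator (g i j)) z) * dzb (Gm c (FF s V f) q) z -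
              (∑ i, (dzb (X i) z * Sm s (V.indicator (g i q)) z +
              X i z * dzb (Sm s (V.indicator (g i q))) z)) * Gm c (FF s V f) j z -
              (∑ i, X i z * Sm s (V.indicator (g i q)) z) * dzb (Gm c (FF s V f) j) z) := by
          unfold Da
          rw [← hR]
          congr 1
          refine Finset.sum_congr rfl (fun j _ => ?_)
          rw [hdB j, hdA j, hdA q]
          rfl
        rw [e1]
        exact h.2
    · have h1 := H1 V a K (f j) D.V_open ha hK (by rw [← hR]; exact hfd j)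
        (by rw [← hR]; exact hfb j) z (by rw [← hR]; exact hzb)
      rw [← hR] at h1
      exact h1.trans (heR _ q1)
    · have h1 := (H2 V a K (f j) D.V_open ha hK (li_of_bdd (D.f_meas j) (D.f_ind hK j))
        (by rw [← hR]; exact hfd j) (by rw [← hR]; exact hfb j) z (by rw [← hR]; exact hzb)).1
      rw [← hR] at h1
      exact h1.trans (heT _ q2)
  -- conclusion
  have prod : ∀ q r, ‖Ga s c V f X g a q z * Da s c V f X g a r z -
      Gm c (FF s V f) q z * dzb (Gm c (FF s V f) r) z‖ ≤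
      (C0 * (K' + C0 * K') + K' * C0) * (e * T) := by
    intro q r
    obtain ⟨k1, -⟩ := key q
    obtain ⟨-, k2⟩ := key r
    have h1 : ‖Gm c (FF s V f) q z‖ ≤ K' := (m2 q).1.trans q5
    have h2 : ‖dzb (Gm c (FF s V f) r) z‖ ≤ K' * T := (m2 r).2.trans (hTz _ hC5.le q5)
    have h3 : ‖Da s c V f X g a r z‖ ≤ (K' + C0 * K') * T := by
      have h4 : Da s c V f X g a r z = dzb (Gm c (FF s V f) r) z +
          (Da s c V f X g a r z - dzb (Gm c (FF s V f) r) z) := by ring
      rw [h4]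
      refine (norm_add_le _ _).trans ?_
      have h5 : C0 * (e * T) ≤ C0 * (K' * T) := by gcongr
      nlinarith
    have h6 : Ga s c V f X g a q z * Da s c V f X g a r z -
        Gm c (FF s V f) q z * dzb (Gm c (FF s V f) r) z =
        (Ga s c V f X g a q z - Gm c (FF s V f) q z) * Da s c V f X g a r z +
        Gm c (FF s V f) q z * (Da s c V f X g a r z - dzb (Gm c (FF s V f) r) z) := by ring
    rw [h6]
    refine (norm_add_le _ _).trans ?_
    rw [norm_mul, norm_mul]
    calc ‖Ga s c V f X g a q z - Gm c (FF s V f) q z‖ * ‖Da s c V f X g a r z‖ +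
          ‖Gm c (FF s V f) q z‖ * ‖Da s c V f X g a r z - dzb (Gm c (FF s V f) r) z‖
        ≤ (C0 * e) * ((K' + C0 * K') * T) + K' * (C0 * (e * T)) := by gcongr
      _ = _ := by ring
  rw [omM_eq hc (fun j => mac_FF hs hK D j) p l hzH]
  unfold omA
  have h7 : Ga s c V f X g a p z * Da s c V f X g a l z -
      Ga s c V f X g a l z * Da s c V f X g a p z -
      (Gm c (FF s V f) p z * dzb (Gm c (FF s V f) l) z -
        Gm c (FF s V f) l z * dzb (Gm c (FF s V f) p) z) =
      (Ga s c V f X g a p z * Da s c V f X g a l z -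
        Gm c (FF s V f) p z * dzb (Gm c (FF s V f) l) z) -
      (Ga s c V f X g a l z * Da s c V f X g a p z -
        Gm c (FF s V f) l z * dzb (Gm c (FF s V f) p) z) := by ring
  rw [h7]
  refine (norm_sub_le _ _).trans ?_
  have h8 : 2 * (C0 * (K' + C0 * K') + K' * C0) * gam V s a / R ^ 2 =
      2 * ((C0 * (K' + C0 * K') + K' * C0) * (e * T)) := by
    rw [he, hT]
    field_simp
  rw [h8]
  linarith [prod p l, prod l p]

end Pool.Agent.Work.MP_2cf110_an.Hyp

end
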