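import Pool.Agent.Work.MP_2cf110_an.Hyp.E0
import Pool.Agent.Work.MP_2cf110_an.Hyp.AlF
import Pool.Agent.Work.MP_2cf110_an.Hyp.MacB
import Pool.Agent.Work.MP_2cf110_an.Hyp.OmG

/-! # Trivial bounds and integrability

al_facts (for the classes with X i ≠ 0 somewhere on ball a (2R); the others vanish), mac_bounds; continuity of omA and omM on
ball a (2R) (al is analytic on ball a (6R), the rest is smooth on Hp). -/

open MeasureTheory Complex Set Metric Filter
open scoped Topology ContDiff ComplexConjugate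

noncomputable section

namespace Pool.Agent.Work.MP_2cf110_an.Hyp

open QC (dz dzb Test Cau)

private theorem e3_cont {f : ℂ → ℂ} (hf : ContDiffOn ℝ ∞ f Hp) :
    ContinuousOn (dz f) Hp ∧ ContinuousOn (dzb f) Hp := by
  have h1 : ContinuousOn (fderiv ℝ f) Hp := hf.continuousOn_fderiv_of_isOpen isOpen_Hp (by simp)
  have h2 : ∀ v : ℂ, ContinuousOn (fun z => fderiv ℝ f z v) Hp := fun v =>
    h1.clm_apply continuousOn_const
  constructor
  · exact ((h2 1).sub (continuousOn_const.mul (h2 I))).div_const 2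
  · exact ((h2 1).add (continuousOn_const.mul (h2 I))).div_const 2

private theorem e3_zero {f : ℂ → ℂ} {U : Set ℂ} (hU : IsOpen U) (h : ∀ z ∈ U, f z = 0) :
    ∀ z ∈ U, dzb f z = 0 := by
  intro z hz
  have h1 : f =ᶠ[𝓝 z] fun _ => 0 := by
    filter_upwards [hU.mem_nhds hz] with w hw
    exact h w hw
  unfold QC.dzb
  rw [h1.fderiv_eq]
  simp

private theorem e3_im {s : ℝ} (hs : 0 < s) (hs1 : s ≤ 1 / 64) {a : ℂ} (ha : a ∈ Hp) {z : ℂ}
    (hz : z ∈ ball a (2 * (s * a.im))) : a.im / 2 ≤ z.im := by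
  have ha' : 0 < a.im := ha
  rw [mem_ball, dist_eq_norm] at hz
  have h1 := Complex.abs_im_le_norm (z - a)
  rw [Complex.sub_im] at h1
  have h2 := (abs_le.1 (h1.trans hz.le)).1
  nlinarith

/-- the terms with `g` -/
private theorem e3_g {n L : ℕ} {s K C₁ : ℝ} (hs : 0 < s) (hs1 : s ≤ 1 / 64) (hK : 0 ≤ K)
    (hC₁ : 0 < C₁)
    (hal : ∀ (V : Set ℂ) (a : ℂ) (R N : ℝ) (h : ℂ → ℂ), IsOpen V → 0 < R →
    0 ≤ N → DifferentiableOn ℂ h (V ∩ ball a (10 * R)) → (∀ z ∈ V ∩ ball a (10 * R), ‖h z‖ ≤ N) →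
    DifferentiableOn ℂ (al V a R h) (ball a (6 * R)) ∧ Continuous (al V a R h) ∧
    ∀ z, ‖al V a R h z‖ ≤ C₁ * N)
    {V : Set ℂ} {f : Fin n → ℂ → ℂ} {X : Fin L → ℂ → ℂ} {g : Fin L → Fin n → ℂ → ℂ}
    (D : Data s K V f X g) {a : ℂ} (ha : a ∈ Hp) (i : Fin L) (p : Fin n) :
    ContinuousOn (fun z => X i z * al V a (s * a.im) (g i p) z) (ball a (2 * (s * a.im))) ∧
    ContinuousOn (fun z => dzb (X i) z * al V a (s * a.im) (g i p) z) (ball a (2 * (s * a.im))) ∧
    ∀ z ∈ ball a (2 * (s * a.im)), ‖X i z * al V a (s * a.im) (g i p) z‖ ≤ C₁ * K ∧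
      ‖dzb (X i) z * al V a (s * a.im) (g i p) z‖ ≤ K * (C₁ * K) / z.im := by
  have ha' : 0 < a.im := ha
  have hR : 0 < s * a.im := mul_pos hs ha'
  have hBH : ball a (2 * (s * a.im)) ⊆ Hp := by
    intro z hz
    have h := e3_im hs hs1 ha hz
    have h2 : 0 < z.im := by linarith
    exact h2
  by_cases hX : ∃ z ∈ ball a (2 * (s * a.im)), X i z ≠ 0
  · obtain ⟨-, h2, h3⟩ := hal V a (s * a.im) K (g i p) D.V_open hR hK ((D.loc a ha i hX).1 p)
      (fun z _ => D.g_le i p z)
    refine ⟨?_, ?_, fun z hz => ⟨?_, ?_⟩⟩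
    · exact ((D.X_smooth i).continuousOn.mono hBH).mul h2.continuousOn
    · exact ((e3_cont (D.X_smooth i)).2.mono hBH).mul h2.continuousOn
    · rw [norm_mul]
      calc ‖X i z‖ * ‖al V a (s * a.im) (g i p) z‖ ≤ 1 * (C₁ * K) :=
            mul_le_mul (D.X_le i z (hBH hz)) (h3 z) (norm_nonneg _) zero_le_one
        _ = C₁ * K := one_mul _
    · rw [norm_mul]
      have hzi : 0 < z.im := hBH hz
      calc ‖dzb (X i) z‖ * ‖al V a (s * a.im) (g i p) z‖ ≤ K / z.im * (C₁ * K) :=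
            mul_le_mul (D.X_der i z (hBH hz)) (h3 z) (norm_nonneg _) (by positivity)
        _ = K * (C₁ * K) / z.im := by ring
  · push Not at hX
    have h1 := e3_zero isOpen_ball hX
    refine ⟨?_, ?_, fun z hz => ⟨?_, ?_⟩⟩
    · refine (continuousOn_const (c := (0 : ℂ))).congr fun z hz => ?_
      simp only
      rw [hX z hz, zero_mul]
    · refine (continuousOn_const (c := (0 : ℂ))).congr fun z hz => ?_
      simp only
      rw [h1 z hz, zero_mul]
    · rw [hX z hz, zero_mul, norm_zero]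
      positivity
    · rw [h1 z hz, zero_mul, norm_zero]
      have hzi : 0 < z.im := hBH hz
      positivity

theorem e3 {n L : ℕ} {s K c : ℝ} (hs : 0 < s) (hs1 : s ≤ 1 / 64) (hK : 0 ≤ K) (hc : 0 < c) :
    ∃ C : ℝ, 0 < C ∧
    ∀ (V : Set ℂ) (f : Fin n → ℂ → ℂ) (X : Fin L → ℂ → ℂ) (g : Fin L → Fin n → ℂ → ℂ),
    Data s K V f X g → ∀ a ∈ Hp, ∀ p l,
    ContinuousOn (omA s c V f X g a p l) (closedBall a (s * a.im)) ∧
    ContinuousOn (omM c (FF s V f) p l) Hp ∧
    (∀ z ∈ closedBall a (s * a.im), ‖omA s c V f X g a p l z‖ ≤ C / (s * a.im)) ∧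
    ∀ z ∈ Hp, ‖omM c (FF s V f) p l z‖ ≤ C / z.im := by
  obtain ⟨C₁, hC₁, hal⟩ := al_facts
  obtain ⟨C₂, hC₂, hmac⟩ := mac_bounds (n := n) (L := L) hs hK hc
  refine ⟨2 * ((L * (C₁ * K) + n * (C₁ * K * C₂)) * (L * (K * (C₁ * K)) + n * (C₁ * K * C₂))) +
    2 * (C₂ * C₂) + 1, by positivity, ?_⟩
  intro V f X g D a ha p l
  have ha' : 0 < a.im := ha
  have hR : 0 < s * a.im := mul_pos hs ha'
  set B : Set ℂ := ball a (2 * (s * a.im)) with hBdef
  have hBH : B ⊆ Hp := by
    intro z hz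
    have h := e3_im hs hs1 ha hz
    have h2 : 0 < z.im := by linarith
    exact h2
  have hcB : closedBall a (s * a.im) ⊆ B := closedBall_subset_ball (by linarith)
  have half : ∀ j, Continuous (al V a (s * a.im) (f j)) ∧ ∀ z, ‖al V a (s * a.im) (f j) z‖ ≤ C₁ * K :=
    fun j => (hal V a (s * a.im) K (f j) D.V_open hR hK ((D.f_holo j).mono inter_subset_left)
      (fun z hz => D.f_le j z hz.1)).2
  have hG := fun i p => e3_g hs hs1 hK hC₁ hal D ha i p
  have hBBc : ∀ j p, ContinuousOn (BB s c V f X g j p) B ∧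
      ContinuousOn (dzb (BB s c V f X g j p)) B := fun j p =>
    ⟨(mac_BB hs hK hc D j p).continuousOn.mono hBH, (e3_cont (mac_BB hs hK hc D j p)).2.mono hBH⟩
  have hGac : ∀ p, ContinuousOn (Ga s c V f X g a p) B := by
    intro p
    refine ContinuousOn.add (continuousOn_finsetSum _ fun i _ => (hG i p).1)
      (continuousOn_finsetSum _ fun j _ => (half j).1.continuousOn.mul (hBBc j p).1)
  have hDac : ∀ p, ContinuousOn (Da s c V f X g a p) B := by
    intro p
    refine ContinuousOn.add (continuousOn_finsetSum _ fun i _ => (hG i p).2.1)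
      (continuousOn_finsetSum _ fun j _ => (half j).1.continuousOn.mul (hBBc j p).2)
  have hGab : ∀ p, ∀ z ∈ B, ‖Ga s c V f X g a p z‖ ≤ L * (C₁ * K) + n * (C₁ * K * C₂) := by
    intro p z hz
    unfold Ga
    refine (norm_add_le _ _).trans (add_le_add ?_ ?_)
    · refine (norm_sum_le _ _).trans ?_
      calc ∑ i, ‖X i z * al V a (s * a.im) (g i p) z‖ ≤ ∑ _i : Fin L, C₁ * K :=
            Finset.sum_le_sum fun i _ => ((hG i p).2.2 z hz).1
        _ = L * (C₁ * K) := by simp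
    · refine (norm_sum_le _ _).trans ?_
      calc ∑ j, ‖al V a (s * a.im) (f j) z * BB s c V f X g j p z‖ ≤ ∑ _j : Fin n, C₁ * K * C₂ := by
            refine Finset.sum_le_sum fun j _ => ?_
            rw [norm_mul]
            exact mul_le_mul ((half j).2 z) ((hmac V f X g D z (hBH hz)).2.2.2 j p).1
              (norm_nonneg _) (by positivity)
        _ = n * (C₁ * K * C₂) := by simp
  have hDab : ∀ p, ∀ z ∈ B, ‖Da s c V f X g a p z‖ ≤
      (L * (K * (C₁ * K)) + n * (C₁ * K * C₂)) / z.im := by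
    intro p z hz
    have hzi : 0 < z.im := hBH hz
    unfold Da
    rw [add_div]
    refine (norm_add_le _ _).trans (add_le_add ?_ ?_)
    · refine (norm_sum_le _ _).trans ?_
      calc ∑ i, ‖dzb (X i) z * al V a (s * a.im) (g i p) z‖ ≤
            ∑ _i : Fin L, K * (C₁ * K) / z.im :=
            Finset.sum_le_sum fun i _ => ((hG i p).2.2 z hz).2
        _ = L * (K * (C₁ * K)) / z.im := by
            simp only [Finset.sum_const, Finset.card_univ, Fintype.card_fin, nsmul_eq_mul]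
            ring
    · refine (norm_sum_le _ _).trans ?_
      calc ∑ j, ‖al V a (s * a.im) (f j) z * dzb (BB s c V f X g j p) z‖ ≤
            ∑ _j : Fin n, C₁ * K * (C₂ / z.im) := by
            refine Finset.sum_le_sum fun j _ => ?_
            rw [norm_mul]
            exact mul_le_mul ((half j).2 z) ((hmac V f X g D z (hBH hz)).2.2.2 j p).2
              (norm_nonneg _) (by positivity)
        _ = n * (C₁ * K * C₂) / z.im := by
            simp only [Finset.sum_const, Finset.card_univ, Fintype.card_fin, nsmul_eq_mul]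
            ring
  refine ⟨?_, ?_, ?_, ?_⟩
  · exact ((((hGac p).mul (hDac l)).sub ((hGac l).mul (hDac p)))).mono hcB
  · obtain ⟨C', -, hC'⟩ := lam_nsq (n := n) hc one_pos
    have hL : ContinuousOn (fun z => ((lam c (nsq (FF s V f) z) : ℝ) : ℂ)) Hp :=
      (hC' (FF s V f) (fun j => mac_FF hs hK D j)).1.continuousOn
    have hF : ∀ j, ContinuousOn (fun z => conj (FF s V f j z)) Hp := fun j =>
      Complex.continuous_conj.comp_continuousOn (mac_FF hs hK D j).continuousOn
    have hdF : ∀ j, ContinuousOn (fun z => conj (dz (FF s V f j) z)) Hp := fun j =>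
      Complex.continuous_conj.comp_continuousOn (e3_cont (mac_FF hs hK D j)).1
    exact (hL.pow 2).mul (((hF p).mul (hdF l)).sub ((hF l).mul (hdF p)))
  · intro z hz
    have hzB := hcB hz
    have hzi : 0 < z.im := hBH hzB
    have h1 : 1 / z.im ≤ 1 / (s * a.im) := by
      apply one_div_le_one_div_of_le hR
      have := e3_im hs hs1 ha hzB
      nlinarith
    have hM1 : 0 ≤ L * (C₁ * K) + n * (C₁ * K * C₂) := by positivity
    have hM2 : 0 ≤ L * (K * (C₁ * K)) + n * (C₁ * K * C₂) := by positivity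
    have h2 : ∀ p l, ‖Ga s c V f X g a p z * Da s c V f X g a l z‖ ≤
        (L * (C₁ * K) + n * (C₁ * K * C₂)) * (L * (K * (C₁ * K)) + n * (C₁ * K * C₂)) *
        (1 / (s * a.im)) := by
      intro p l
      rw [norm_mul]
      calc ‖Ga s c V f X g a p z‖ * ‖Da s c V f X g a l z‖ ≤
          (L * (C₁ * K) + n * (C₁ * K * C₂)) *
          ((L * (K * (C₁ * K)) + n * (C₁ * K * C₂)) / z.im) :=
            mul_le_mul (hGab p z hzB) (hDab l z hzB) (norm_nonneg _) hM1
        _ = (L * (C₁ * K) + n * (C₁ * K * C₂)) * (L * (K * (C₁ * K)) + n * (C₁ * K * C₂)) *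
            (1 / z.im) := by ring
        _ ≤ _ := mul_le_mul_of_nonneg_left h1 (mul_nonneg hM1 hM2)
    unfold omA
    refine (norm_sub_le _ _).trans ?_
    have h3 := h2 p l
    have h4 := h2 l p
    have h5 : 0 ≤ (2 * (C₂ * C₂) + 1) * (1 / (s * a.im)) := by positivity
    calc ‖Ga s c V f X g a p z * Da s c V f X g a l z‖ +
        ‖Ga s c V f X g a l z * Da s c V f X g a p z‖ ≤
        2 * ((L * (C₁ * K) + n * (C₁ * K * C₂)) * (L * (K * (C₁ * K)) + n * (C₁ * K * C₂)) *
        (1 / (s * a.im))) + (2 * (C₂ * C₂) + 1) * (1 / (s * a.im)) := by linarith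
      _ = _ := by ring
  · intro z hz
    have hzi : 0 < z.im := hz
    rw [omM_eq hc (fun j => mac_FF hs hK D j) p l hz]
    have h2 : ∀ p l, ‖Gm c (FF s V f) p z * dzb (Gm c (FF s V f) l) z‖ ≤
        C₂ * C₂ * (1 / z.im) := by
      intro p l
      rw [norm_mul]
      have h3 := (hmac V f X g D z hz).2.1
      calc ‖Gm c (FF s V f) p z‖ * ‖dzb (Gm c (FF s V f) l) z‖ ≤ C₂ * (C₂ / z.im) :=
            mul_le_mul (h3 p).1 (h3 l).2 (norm_nonneg _) hC₂.le
        _ = _ := by ring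
    refine (norm_sub_le _ _).trans ?_
    have h3 := h2 p l
    have h4 := h2 l p
    have hM : 0 ≤ (2 * ((L * (C₁ * K) + n * (C₁ * K * C₂)) *
      (L * (K * (C₁ * K)) + n * (C₁ * K * C₂))) + 1) * (1 / z.im) := by positivity
    calc ‖Gm c (FF s V f) p z * dzb (Gm c (FF s V f) l) z‖ +
        ‖Gm c (FF s V f) l z * dzb (Gm c (FF s V f) p) z‖ ≤
        2 * (C₂ * C₂ * (1 / z.im)) + (2 * ((L * (C₁ * K) + n * (C₁ * K * C₂)) *
      (L * (K * (C₁ * K)) + n * (C₁ * K * C₂))) + 1) * (1 / z.im) := by linarith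
      _ = _ := by ring

end Pool.Agent.Work.MP_2cf110_an.Hyp

end
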