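import Pool.Agent.Work.MP_2cf110_an.Hyp.E1
import Pool.Agent.Work.MP_2cf110_an.Hyp.E2
import Pool.Agent.Work.MP_2cf110_an.Hyp.E3
import Pool.Agent.Work.MP_2cf110_an.Hyp.Thin

/-! # The comparison (E)

c, κ from thin.  e1 always.  If gam ≤ κ R: e2 gives |omA - omM| ≤ C gam/R² on closedBall a R ⊇ tsupport w, integrate over the closed ball (area π R²).
If gam > κ R: by e3 both integrals are ≤ C W R ≤ (C/κ) W gam. -/

open MeasureTheory Complex Set Metric Filter
open scoped Topology ContDiff ComplexConjugate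

noncomputable section

namespace Pool.Agent.Work.MP_2cf110_an.Hyp

open QC (dz dzb Test Cau)

private lemma intb {F w : ℂ → ℂ} {a : ℂ} {R M W : ℝ} (hR : 0 ≤ R) (hM0 : 0 ≤ M)
    (hM : ∀ z ∈ closedBall a R, ‖F z‖ ≤ M) (hw : ∀ z, ‖w z‖ ≤ W)
    (hs : tsupport w ⊆ closedBall a R) : ‖∫ z, F z * w z‖ ≤ M * W * (Real.pi * R ^ 2) := by
  have h1 : ∫ z, F z * w z = ∫ z in closedBall a R, F z * w z := by
    refine (setIntegral_eq_integral_of_forall_compl_eq_zero fun z hz => ?_).symm
    rw [image_eq_zero_of_notMem_tsupport fun h => hz (hs h), mul_zero]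
  have hvol : volume.real (closedBall a R) = Real.pi * R ^ 2 := by
    rw [measureReal_def, Complex.volume_closedBall, ENNReal.toReal_mul, ENNReal.toReal_pow,
      ENNReal.toReal_ofReal hR]
    have : (((NNReal.pi : NNReal) : ENNReal)).toReal = Real.pi := by simp
    rw [this]
    ring
  rw [h1, ← hvol]
  refine norm_setIntegral_le_of_norm_le_const (by rw [Complex.volume_closedBall]; finiteness) ?_
  intro z hz
  rw [norm_mul]
  exact mul_le_mul (hM z hz) (hw z) (norm_nonneg _) hM0

private lemma intg {F w : ℂ → ℂ} {a : ℂ} {R : ℝ} (hF : ContinuousOn F (closedBall a R))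
    (hw : Continuous w) (hs : tsupport w ⊆ closedBall a R) : Integrable (fun z => F z * w z) := by
  have h1 : Function.support (fun z => F z * w z) ⊆ closedBall a R := by
    intro z hz
    by_contra hcon
    exact hz (by
      show F z * w z = 0
      rw [image_eq_zero_of_notMem_tsupport fun h => hcon (hs h), mul_zero])
  rw [← integrableOn_iff_integrable_of_support_subset h1]
  exact (hF.mul hw.continuousOn).integrableOn_compact (isCompact_closedBall _ _)

theorem mainE (n L : ℕ) {s K : ℝ} (hs : 0 < s) (hs1 : s ≤ 1 / 64) (hK : 0 ≤ K) :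
    ∃ c C : ℝ, 0 < c ∧ 0 < C ∧
    ∀ (V : Set ℂ) (f : Fin n → ℂ → ℂ) (X : Fin L → ℂ → ℂ) (g : Fin L → Fin n → ℂ → ℂ),
    Data s K V f X g → ∀ a ∈ Hp, ∀ (w : ℂ → ℂ) (W : ℝ), 0 ≤ W → Test univ w →
    tsupport w ⊆ closedBall a (s * a.im) → (∀ z, ‖w z‖ ≤ W) → ∀ p l,
    ‖(∫ z in V, om s c V f X g p l z * w z) - ∫ z, omM c (FF s V f) p l z * w z‖ ≤
      C * W * gam V s a := by
  obtain ⟨c, κ, hc, hκ, hthin⟩ := thin (n := n) (L := L) hs hs1 hK
  obtain ⟨C1, hC1, he1⟩ := e1 (n := n) (L := L) hs hs1 hK hc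
  obtain ⟨C2, hC2, he2⟩ := e2 (n := n) (L := L) hs hs1 hK hc hκ
  obtain ⟨C3, hC3, he3⟩ := e3 (n := n) (L := L) hs hs1 hK hc
  have hπ : 0 < Real.pi := Real.pi_pos
  refine ⟨c, C1 + C2 * Real.pi + 2 * C3 * Real.pi / κ, hc, by positivity, ?_⟩
  intro V f X g D a ha w W hW hw hsw hwb p l
  have hain : 0 < a.im := ha
  obtain ⟨R, hR⟩ : ∃ R : ℝ, R = s * a.im := ⟨_, rfl⟩
  have hR0 : 0 < R := by rw [hR]; positivity
  have h1 := he1 V f X g D a ha w W hW hw hsw hwb p l
  obtain ⟨hcA, hcM, hbA, hbM⟩ := he3 V f X g D a ha p l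
  obtain ⟨γ, hγ⟩ : ∃ γ, γ = gam V s a := ⟨_, rfl⟩
  have hsub : closedBall a (s * a.im) ⊆ Hp := by
    intro z hz
    have h2 : |(z - a).im| ≤ s * a.im := by
      refine (Complex.abs_im_le_norm _).trans ?_
      rw [mem_closedBall, dist_eq_norm] at hz
      exact hz
    rw [Complex.sub_im, abs_le] at h2
    have h3 : s * a.im ≤ a.im / 2 := by nlinarith
    show 0 < z.im
    linarith [h2.1]
  have hsub2 : ∀ z ∈ closedBall a (s * a.im), a.im / 2 ≤ z.im := by
    intro z hz
    have h2 : |(z - a).im| ≤ s * a.im := by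
      refine (Complex.abs_im_le_norm _).trans ?_
      rw [mem_closedBall, dist_eq_norm] at hz
      exact hz
    rw [Complex.sub_im, abs_le] at h2
    have h3 : s * a.im ≤ a.im / 2 := by nlinarith
    linarith [h2.1]
  have hiA := intg hcA hw.smooth.continuous hsw
  have hiM := intg (hcM.mono hsub) hw.smooth.continuous hsw
  rw [← hγ] at h1 ⊢
  rw [← hR] at hcA hbA hsub hsub2 hsw
  have hsplit : (∫ z in V, om s c V f X g p l z * w z) - ∫ z, omM c (FF s V f) p l z * w z
      = ((∫ z in V, om s c V f X g p l z * w z) - ∫ z, omA s c V f X g a p l z * w z)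
        + ((∫ z, omA s c V f X g a p l z * w z) - ∫ z, omM c (FF s V f) p l z * w z) := by ring
  rw [hsplit]
  by_cases hg : gam V s a ≤ κ * (s * a.im)
  · have h2 := he2 V f X g D a ha hg (hthin V f X g D a ha hg)
    rw [← hR, ← hγ] at h2
    have hγ0 : 0 ≤ γ := by rw [hγ]; exact cap_nonneg _
    have h3 : (∫ z, omA s c V f X g a p l z * w z) - ∫ z, omM c (FF s V f) p l z * w z
        = ∫ z, (omA s c V f X g a p l z - omM c (FF s V f) p l z) * w z := by
      rw [← integral_sub hiA hiM]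
      refine integral_congr_ae (Filter.Eventually.of_forall fun z => ?_)
      simp only
      ring
    have h4 : ‖∫ z, (omA s c V f X g a p l z - omM c (FF s V f) p l z) * w z‖
        ≤ C2 * γ / R ^ 2 * W * (Real.pi * R ^ 2) :=
      intb (F := fun z => omA s c V f X g a p l z - omM c (FF s V f) p l z) hR0.le
        (by positivity) (fun z hz => h2 z hz p l) hwb hsw
    have h5 : C2 * γ / R ^ 2 * W * (Real.pi * R ^ 2) = C2 * Real.pi * W * γ := by
      field_simp
    rw [h5] at h4
    rw [h3]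
    have h6 : 0 ≤ 2 * C3 * Real.pi / κ * W * γ := by positivity
    calc _ ≤ _ := norm_add_le _ _
      _ ≤ C1 * W * γ + C2 * Real.pi * W * γ := add_le_add h1 h4
      _ ≤ (C1 + C2 * Real.pi + 2 * C3 * Real.pi / κ) * W * γ := by linarith
  · rw [← hR, ← hγ] at hg
    have hg' : κ * R < γ := not_le.1 hg
    have hγ0 : 0 ≤ γ := le_trans (by positivity) hg'.le
    have h4 : ‖∫ z, omA s c V f X g a p l z * w z‖ ≤ C3 / R * W * (Real.pi * R ^ 2) :=
      intb hR0.le (by positivity) (fun z hz => hbA z hz) hwb hsw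
    have h5 : ‖∫ z, omM c (FF s V f) p l z * w z‖ ≤ C3 / R * W * (Real.pi * R ^ 2) := by
      refine intb hR0.le (by positivity) (fun z hz => ?_) hwb hsw
      refine (hbM z (hsub hz)).trans ?_
      have h7 := hsub2 z hz
      have h8 : R ≤ z.im := by
        rw [hR]
        nlinarith
      exact div_le_div_of_nonneg_left hC3.le hR0 h8
    have h9 : C3 / R * W * (Real.pi * R ^ 2) = C3 * Real.pi * W * R := by
      field_simp
    rw [h9] at h4 h5
    have h10 : R ≤ γ / κ := by
      rw [le_div_iff₀ hκ]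
      linarith
    have h11 : C3 * Real.pi * W * R ≤ C3 * Real.pi / κ * W * γ := by
      have h12 : 0 ≤ C3 * Real.pi * W := by positivity
      calc C3 * Real.pi * W * R ≤ C3 * Real.pi * W * (γ / κ) := mul_le_mul_of_nonneg_left h10 h12
        _ = _ := by ring
    have h13 : 0 ≤ C2 * Real.pi * W * γ := by positivity
    calc _ ≤ _ := norm_add_le _ _
      _ ≤ C1 * W * γ + (C3 * Real.pi / κ * W * γ + C3 * Real.pi / κ * W * γ) :=
          add_le_add h1 ((norm_sub_le _ _).trans (add_le_add (h4.trans h11) (h5.trans h11)))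
      _ ≤ (C1 + C2 * Real.pi + 2 * C3 * Real.pi / κ) * W * γ := by
          have : (C1 + C2 * Real.pi + 2 * C3 * Real.pi / κ) * W * γ
            = C1 * W * γ + C2 * Real.pi * W * γ + 2 * (C3 * Real.pi / κ * W * γ) := by ring
          rw [this]
          linarith

end Pool.Agent.Work.MP_2cf110_an.Hyp

end
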