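import Pool.Agent.Work.MP_2cf110_an.Hyp.Defs

/-! # Definitions: the form ω with f, g replaced by the replacement functions -/

open MeasureTheory Complex Set Metric Filter
open scoped Topology ContDiff ComplexConjugate

noncomputable section

namespace Pool.Agent.Work.MP_2cf110_an.Hyp

open QC (dz dzb Test Cau)

variable {n L : ℕ}

/-- `Gh` with the micro functions replaced -/
def Ga (s c : ℝ) (V : Set ℂ) (f : Fin n → ℂ → ℂ) (X : Fin L → ℂ → ℂ)
    (g : Fin L → Fin n → ℂ → ℂ) (a : ℂ) (p : Fin n) (z : ℂ) : ℂ :=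
  ∑ i, X i z * al V a (s * a.im) (g i p) z +
    ∑ j, al V a (s * a.im) (f j) z * BB s c V f X g j p z

/-- `Dh` with the micro functions replaced -/
def Da (s c : ℝ) (V : Set ℂ) (f : Fin n → ℂ → ℂ) (X : Fin L → ℂ → ℂ)
    (g : Fin L → Fin n → ℂ → ℂ) (a : ℂ) (p : Fin n) (z : ℂ) : ℂ :=
  ∑ i, dzb (X i) z * al V a (s * a.im) (g i p) z +
    ∑ j, al V a (s * a.im) (f j) z * dzb (BB s c V f X g j p) z

/-- `om` with the micro functions replaced -/
def omA (s c : ℝ) (V : Set ℂ) (f : Fin n → ℂ → ℂ) (X : Fin L → ℂ → ℂ)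
    (g : Fin L → Fin n → ℂ → ℂ) (a : ℂ) (p l : Fin n) (z : ℂ) : ℂ :=
  Ga s c V f X g a p z * Da s c V f X g a l z - Ga s c V f X g a l z * Da s c V f X g a p z

end Pool.Agent.Work.MP_2cf110_an.Hyp

end
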