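import Pool.Agent.Work.MP_2cf110_an.Hyp.Prod2
import Pool.Agent.Work.MP_2cf110_an.Hyp.AlF

/-! # Replacement in one product term

u w is a test function (u smooth on Hp, tsupport w in closedBall a R ⊆ Hp), bounded by U W: prod2, and the products h₁ h₂ on V and al al are
bounded on the support so that all integrals make sense. -/

open MeasureTheory Complex Set Metric Filter
open scoped Topology ContDiff ComplexConjugate

noncomputable section

namespace Pool.Agent.Work.MP_2cf110_an.Hyp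

open QC (dz dzb Test Cau)

private theorem e1a_ball {s : ℝ} (hs1 : s ≤ 1 / 64) {a : ℂ} (ha : a ∈ Hp) :
    ball a (10 * (s * a.im)) ⊆ Hp := by
  intro z hz
  have ha' : 0 < a.im := ha
  have h1 : |(z - a).im| ≤ ‖z - a‖ := Complex.abs_im_le_norm _
  have h2 : ‖z - a‖ < 10 * (s * a.im) := by
    simpa [dist_eq_norm] using hz
  have h3 : s * a.im ≤ 1 / 64 * a.im := mul_le_mul_of_nonneg_right hs1 ha'.le
  have h4 := (abs_le.1 h1).1
  have h5 : (z - a).im = z.im - a.im := by simp
  have : 0 < z.im := by linarith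
  exact this

private theorem e1a_test {s : ℝ} (hs : 0 < s) (hs1 : s ≤ 1 / 64) {a : ℂ} (ha : a ∈ Hp)
    {u w : ℂ → ℂ} (hu : ContDiffOn ℝ ∞ u Hp) (hw : Test univ w)
    (hwa : tsupport w ⊆ closedBall a (s * a.im)) :
    Test univ (fun z => u z * w z) ∧
      tsupport (fun z => u z * w z) ⊆ closedBall a (s * a.im) := by
  have ha' : 0 < a.im := ha
  have hR : 0 < s * a.im := mul_pos hs ha'
  have hsub : closedBall a (s * a.im) ⊆ Hp :=
    (closedBall_subset_ball (by linarith)).trans (e1a_ball hs1 ha)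
  have hts : tsupport (fun z => u z * w z) ⊆ tsupport w :=
    closure_mono (fun z hz => by
      intro h0
      exact hz (by simp [h0]))
  refine ⟨⟨?_, ?_, subset_univ _⟩, hts.trans hwa⟩
  · rw [contDiff_iff_contDiffAt]
    intro z
    by_cases hz : z ∈ tsupport w
    · have hzH : z ∈ Hp := hsub (hwa hz)
      exact (hu.contDiffAt (isOpen_Hp.mem_nhds hzH)).mul hw.smooth.contDiffAt
    · have h1 : ∀ᶠ y in 𝓝 z, (fun z => u z * w z) y = (fun _ => (0 : ℂ)) y := by
        filter_upwards [(isClosed_tsupport w).isOpen_compl.mem_nhds hz] with y hy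
        have : w y = 0 := image_eq_zero_of_notMem_tsupport hy
        simp [this]
      exact contDiffAt_const.congr_of_eventuallyEq h1
  · exact hw.cpt.of_isClosed_subset (isClosed_tsupport _) hts

theorem pairTerm {s : ℝ} (hs : 0 < s) (hs1 : s ≤ 1 / 64) : ∃ C : ℝ, 0 < C ∧
    ∀ (V : Set ℂ) (a : ℂ) (N₁ N₂ U W : ℝ) (h₁ h₂ u w : ℂ → ℂ), IsOpen V → a ∈ Hp →
    0 ≤ N₁ → 0 ≤ N₂ → 0 ≤ U → 0 ≤ W →
    DifferentiableOn ℂ h₁ (V ∩ ball a (10 * (s * a.im))) →
    DifferentiableOn ℂ h₂ (V ∩ ball a (10 * (s * a.im))) →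
    (∀ z ∈ V ∩ ball a (10 * (s * a.im)), ‖h₁ z‖ ≤ N₁) →
    (∀ z ∈ V ∩ ball a (10 * (s * a.im)), ‖h₂ z‖ ≤ N₂) →
    ContDiffOn ℝ ∞ u Hp → (∀ z ∈ closedBall a (s * a.im), ‖u z‖ ≤ U) →
    Test univ w → tsupport w ⊆ closedBall a (s * a.im) → (∀ z, ‖w z‖ ≤ W) →
    IntegrableOn (fun z => u z * h₁ z * h₂ z * w z) V ∧
    Integrable (fun z => u z * al V a (s * a.im) h₁ z * al V a (s * a.im) h₂ z * w z) ∧
    ‖(∫ z in V, u z * h₁ z * h₂ z * w z) -
      ∫ z, u z * al V a (s * a.im) h₁ z * al V a (s * a.im) h₂ z * w z‖ ≤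
      C * N₁ * N₂ * U * W * (s * a.im) * gam V s a := by
  obtain ⟨C, hC, hP⟩ := prod2
  obtain ⟨C₂, -, hA⟩ := al_facts
  refine ⟨C, hC, ?_⟩
  intro V a N₁ N₂ U W h₁ h₂ u w hV ha hN₁ hN₂ hU hW hd₁ hd₂ hb₁ hb₂ hu hub hw hwa hwb
  have ha' : 0 < a.im := ha
  have hR : 0 < s * a.im := mul_pos hs ha'
  obtain ⟨hT, hTs⟩ := e1a_test hs hs1 ha hu hw hwa
  have hTb : ∀ z, ‖(fun z => u z * w z) z‖ ≤ U * W := by
    intro z
    by_cases hz : z ∈ tsupport w
    · simp only [norm_mul]
      exact mul_le_mul (hub z (hwa hz)) (hwb z) (norm_nonneg _) hU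
    · have : w z = 0 := image_eq_zero_of_notMem_tsupport hz
      simp only [this, mul_zero, norm_zero]
      positivity
  obtain ⟨-, hc₁, -⟩ := hA V a (s * a.im) N₁ h₁ hV hR hN₁ hd₁ hb₁
  obtain ⟨-, hc₂, -⟩ := hA V a (s * a.im) N₂ h₂ hV hR hN₂ hd₂ hb₂
  -- the second integrability
  have hI2' : Integrable (fun z => (al V a (s * a.im) h₁ z * al V a (s * a.im) h₂ z) *
      (u z * w z)) := by
    refine Continuous.integrable_of_hasCompactSupport
      ((hc₁.mul hc₂).mul hT.smooth.continuous) ?_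
    exact hT.cpt.mul_left
  have hI2 : Integrable (fun z => u z * al V a (s * a.im) h₁ z * al V a (s * a.im) h₂ z * w z) := by
    have : (fun z => u z * al V a (s * a.im) h₁ z * al V a (s * a.im) h₂ z * w z) =
        fun z => (al V a (s * a.im) h₁ z * al V a (s * a.im) h₂ z) * (u z * w z) := by
      funext z; ring
    rw [this]; exact hI2'
  -- the first integrability
  have hO : IsOpen (V ∩ ball a (10 * (s * a.im))) := hV.inter isOpen_ball
  have hcont : ContinuousOn (fun z => u z * h₁ z * h₂ z * w z)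
      (V ∩ ball a (10 * (s * a.im))) := by
    refine ContinuousOn.mul (ContinuousOn.mul (ContinuousOn.mul ?_ hd₁.continuousOn)
      hd₂.continuousOn) hw.smooth.continuous.continuousOn
    exact hu.continuousOn.mono (inter_subset_right.trans (e1a_ball hs1 ha))
  have hI1' : IntegrableOn (fun z => u z * h₁ z * h₂ z * w z)
      (V ∩ ball a (10 * (s * a.im))) := by
    refine IntegrableOn.of_bound ?_ ?_ (N₁ * N₂ * (U * W)) ?_
    · exact (measure_mono inter_subset_right).trans_lt measure_ball_lt_top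
    · exact hcont.aestronglyMeasurable hO.measurableSet
    · refine (ae_restrict_iff' hO.measurableSet).2 (Eventually.of_forall fun z hz => ?_)
      have e : u z * h₁ z * h₂ z * w z = (h₁ z * h₂ z) * (u z * w z) := by ring
      rw [e, norm_mul, norm_mul]
      exact mul_le_mul (mul_le_mul (hb₁ z hz) (hb₂ z hz) (norm_nonneg _) hN₁) (hTb z)
        (norm_nonneg _) (by positivity)
  have hw0 : ∀ z, z ∉ ball a (10 * (s * a.im)) → w z = 0 := by
    intro z hz
    apply image_eq_zero_of_notMem_tsupport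
    intro hz'
    exact hz (closedBall_subset_ball (by linarith) (hwa hz'))
  have hI1 : IntegrableOn (fun z => u z * h₁ z * h₂ z * w z) V := by
    refine hI1'.of_forall_sdiff_eq_zero hV.measurableSet ?_
    intro z hz
    have : w z = 0 := hw0 z (fun h => hz.2 ⟨hz.1, h⟩)
    simp [this]
  refine ⟨hI1, hI2, ?_⟩
  have key := hP V a (s * a.im) N₁ N₂ (U * W) h₁ h₂ (fun z => u z * w z) hV hR hN₁ hN₂
    (by positivity) hd₁ hd₂ hb₁ hb₂ hT (hTs.trans (closedBall_subset_closedBall (by linarith))) hTb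
  have e : (∫ z, (V.indicator (fun z => h₁ z * h₂ z) z -
      al V a (s * a.im) h₁ z * al V a (s * a.im) h₂ z) * (u z * w z)) =
      (∫ z in V, u z * h₁ z * h₂ z * w z) -
      ∫ z, u z * al V a (s * a.im) h₁ z * al V a (s * a.im) h₂ z * w z := by
    rw [← integral_indicator hV.measurableSet, ← integral_sub (hI1.integrable_indicator
      hV.measurableSet) hI2]
    refine integral_congr_ae (Eventually.of_forall fun z => ?_)
    simp only
    by_cases hz : z ∈ V
    · simp only [indicator_of_mem hz]; ring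
    · simp only [indicator_of_notMem hz]; ring
  rw [e] at key
  refine key.trans (le_of_eq ?_)
  unfold gam Ea
  ring

end Pool.Agent.Work.MP_2cf110_an.Hyp

end
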