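import Pool.Agent.Work.MP_2cf110_an.Hyp.E0
import Pool.Agent.Work.MP_2cf110_an.Hyp.E1a
import Pool.Agent.Work.MP_2cf110_an.Hyp.MacS
import Pool.Agent.Work.MP_2cf110_an.Hyp.MacB

/-! # Replacement in the form ω

Expand the products Gh p * Dh l - Gh l * Dh p into double sums over (class or index); each term is u h₁ h₂ with u = X_i dzb X_i',
X_i dzb BB, BB dzb X, BB dzb BB (|u| ≤ C/Im a on closedBall a R, mac_bounds, X_der).  If X i = 0 on ball a (2R) then X i and dzb (X i)
vanish on the support of w and the terms are zero; otherwise g i is good by Data.loc.  pairTerm. -/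

open MeasureTheory Complex Set Metric Filter
open scoped Topology ContDiff ComplexConjugate

noncomputable section

namespace Pool.Agent.Work.MP_2cf110_an.Hyp

open QC (dz dzb Test Cau)

private theorem cdo_dzb {U : Set ℂ} (hU : IsOpen U) {f : ℂ → ℂ} (hf : ContDiffOn ℝ ∞ f U) :
    ContDiffOn ℝ ∞ (dzb f) U := by
  have h1 : ContDiffOn ℝ ∞ (fderiv ℝ f) U := hf.fderiv_of_isOpen hU (by simp)
  have h2 : ∀ v : ℂ, ContDiffOn ℝ ∞ (fun z => fderiv ℝ f z v) U := fun v =>
    h1.clm_apply contDiffOn_const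
  exact ((h2 1).add (contDiffOn_const.mul (h2 I))).div_const 2

private theorem dzb_zero {U : Set ℂ} (hU : IsOpen U) {f : ℂ → ℂ} (hf : ∀ z ∈ U, f z = 0)
    {z : ℂ} (hz : z ∈ U) : dzb f z = 0 := by
  have h1 : f =ᶠ[𝓝 z] fun _ => (0 : ℂ) := by
    filter_upwards [hU.mem_nhds hz] with w hw using hf w hw
  have h2 : fderiv ℝ f z = 0 := by
    rw [h1.fderiv_eq]
    simp
  unfold QC.dzb
  rw [h2]
  simp

section parts

variable {n L : ℕ}

private def hh (f : Fin n → ℂ → ℂ) (g : Fin L → Fin n → ℂ → ℂ) (x : Fin L ⊕ Fin n)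
    (p : Fin n) : ℂ → ℂ :=
  Sum.elim (fun i => g i p) (fun j => f j) x

private def uu (s c : ℝ) (V : Set ℂ) (f : Fin n → ℂ → ℂ) (X : Fin L → ℂ → ℂ)
    (g : Fin L → Fin n → ℂ → ℂ) (x : Fin L ⊕ Fin n) (p : Fin n) : ℂ → ℂ :=
  Sum.elim (fun i => X i) (fun j => BB s c V f X g j p) x

private def vv (s c : ℝ) (V : Set ℂ) (f : Fin n → ℂ → ℂ) (X : Fin L → ℂ → ℂ)
    (g : Fin L → Fin n → ℂ → ℂ) (x : Fin L ⊕ Fin n) (p : Fin n) : ℂ → ℂ :=
  Sum.elim (fun i => dzb (X i)) (fun j => dzb (BB s c V f X g j p)) x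

private theorem Gh_eq (s c : ℝ) (V : Set ℂ) (f : Fin n → ℂ → ℂ) (X : Fin L → ℂ → ℂ)
    (g : Fin L → Fin n → ℂ → ℂ) (p : Fin n) (z : ℂ) :
    Gh s c V f X g p z = ∑ x, uu s c V f X g x p z * hh f g x p z := by
  rw [Fintype.sum_sum_type]
  unfold Gh uu hh
  congr 1
  refine Finset.sum_congr rfl fun j _ => ?_
  exact mul_comm _ _

private theorem Dh_eq (s c : ℝ) (V : Set ℂ) (f : Fin n → ℂ → ℂ) (X : Fin L → ℂ → ℂ)
    (g : Fin L → Fin n → ℂ → ℂ) (p : Fin n) (z : ℂ) :
    Dh s c V f X g p z = ∑ x, vv s c V f X g x p z * hh f g x p z := by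
  rw [Fintype.sum_sum_type]
  unfold Dh vv hh
  congr 1
  refine Finset.sum_congr rfl fun j _ => ?_
  exact mul_comm _ _

private theorem Ga_eq (s c : ℝ) (V : Set ℂ) (f : Fin n → ℂ → ℂ) (X : Fin L → ℂ → ℂ)
    (g : Fin L → Fin n → ℂ → ℂ) (a : ℂ) (p : Fin n) (z : ℂ) :
    Ga s c V f X g a p z =
      ∑ x, uu s c V f X g x p z * al V a (s * a.im) (hh f g x p) z := by
  rw [Fintype.sum_sum_type]
  unfold Ga uu hh
  congr 1
  refine Finset.sum_congr rfl fun j _ => ?_
  exact mul_comm _ _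

private theorem Da_eq (s c : ℝ) (V : Set ℂ) (f : Fin n → ℂ → ℂ) (X : Fin L → ℂ → ℂ)
    (g : Fin L → Fin n → ℂ → ℂ) (a : ℂ) (p : Fin n) (z : ℂ) :
    Da s c V f X g a p z =
      ∑ x, vv s c V f X g x p z * al V a (s * a.im) (hh f g x p) z := by
  rw [Fintype.sum_sum_type]
  unfold Da vv hh
  congr 1
  refine Finset.sum_congr rfl fun j _ => ?_
  exact mul_comm _ _

private theorem sum_alg {ι : Type*} [Fintype ι] (a b c d : ι → ℂ) (w : ℂ) :
    ((∑ x, a x) * (∑ y, b y) - (∑ x, c x) * (∑ y, d y)) * w =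
      ∑ x, ∑ y, (a x * b y * w - c x * d y * w) := by
  rw [Finset.sum_mul_sum, Finset.sum_mul_sum, ← Finset.sum_sub_distrib, Finset.sum_mul]
  refine Finset.sum_congr rfl fun x _ => ?_
  rw [← Finset.sum_sub_distrib, Finset.sum_mul]
  refine Finset.sum_congr rfl fun y _ => ?_
  ring

private theorem zero_fun {a : ℂ} {R : ℝ} (hR : 0 < R) {w u h : ℂ → ℂ}
    (hsup : tsupport w ⊆ closedBall a R) (hu : ∀ z ∈ ball a (2 * R), u z = 0) :
    (fun z => u z * h z * w z) = fun _ => 0 := by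
  funext z
  by_cases hz : z ∈ tsupport w
  · rw [hu z (closedBall_subset_ball (by linarith) (hsup hz)), zero_mul, zero_mul]
  · rw [image_eq_zero_of_notMem_tsupport hz, mul_zero]

private theorem term {s K c : ℝ} (hs : 0 < s) (hs1 : s ≤ 1 / 64) (hK : 0 ≤ K) (hc : 0 < c) :
    ∃ C : ℝ, 0 < C ∧
    ∀ (V : Set ℂ) (f : Fin n → ℂ → ℂ) (X : Fin L → ℂ → ℂ) (g : Fin L → Fin n → ℂ → ℂ),
    Data s K V f X g → ∀ a ∈ Hp, ∀ (w : ℂ → ℂ) (W : ℝ), 0 ≤ W → Test univ w →
    tsupport w ⊆ closedBall a (s * a.im) → (∀ z, ‖w z‖ ≤ W) →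
    ∀ (x y : Fin L ⊕ Fin n) (p l : Fin n),
    IntegrableOn (fun z => uu s c V f X g x p z * vv s c V f X g y l z * hh f g x p z *
      hh f g y l z * w z) V ∧
    Integrable (fun z => uu s c V f X g x p z * vv s c V f X g y l z *
      al V a (s * a.im) (hh f g x p) z * al V a (s * a.im) (hh f g y l) z * w z) ∧
    ‖(∫ z in V, uu s c V f X g x p z * vv s c V f X g y l z * hh f g x p z *
      hh f g y l z * w z) - ∫ z, uu s c V f X g x p z * vv s c V f X g y l z *
      al V a (s * a.im) (hh f g x p) z * al V a (s * a.im) (hh f g y l) z * w z‖ ≤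
      C * W * gam V s a := by
  obtain ⟨C₁, hC₁, hpair⟩ := pairTerm hs hs1
  obtain ⟨C₂, hC₂, hmac⟩ := mac_bounds (n := n) (L := L) hs hK hc
  set C₃ : ℝ := 1 + K + C₂ with hC₃
  have hC₃0 : 0 < C₃ := by positivity
  refine ⟨C₁ * K * K * (C₃ * (2 * C₃)) * s + 1, by positivity, ?_⟩
  intro V f X g D a ha w W hW hw hsup hwW x y p l
  have ha' : 0 < a.im := ha
  have hR : 0 < s * a.im := mul_pos hs ha'
  have hcap : 0 ≤ gam V s a := cap_nonneg _
  have hRa : s * a.im ≤ 1 / 64 * a.im := mul_le_mul_of_nonneg_right hs1 ha'.le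
  have hzim : ∀ z ∈ closedBall a (s * a.im), a.im / 2 ≤ z.im := by
    intro z hz
    have h1 : ‖z - a‖ ≤ s * a.im := mem_closedBall_iff_norm.1 hz
    have h2 : |z.im - a.im| ≤ ‖z - a‖ := by
      have := Complex.abs_im_le_norm (z - a)
      rwa [Complex.sub_im] at this
    have h3 := abs_le.1 h2
    linarith [h3.1]
  have hball : ∀ z ∈ closedBall a (s * a.im), z ∈ Hp := by
    intro z hz
    have := hzim z hz
    show 0 < z.im
    linarith
  -- the alternatives
  have key : ∀ x : Fin L ⊕ Fin n,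
      (∀ p, ∀ z ∈ ball a (2 * (s * a.im)), uu s c V f X g x p z = 0 ∧
        vv s c V f X g x p z = 0) ∨
      (∀ p, DifferentiableOn ℂ (hh f g x p) (V ∩ ball a (10 * (s * a.im)))) := by
    rintro (i | j)
    · by_cases hi : ∃ z ∈ ball a (2 * (s * a.im)), X i z ≠ 0
      · right
        exact (D.loc a ha i hi).1
      · left
        push Not at hi
        intro p z hz
        exact ⟨hi z hz, dzb_zero isOpen_ball hi hz⟩
    · right
      intro p
      exact (D.f_holo j).mono inter_subset_left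
  have hhb : ∀ (x : Fin L ⊕ Fin n) (p : Fin n), ∀ z ∈ V ∩ ball a (10 * (s * a.im)),
      ‖hh f g x p z‖ ≤ K := by
    rintro (i | j) p z hz
    · exact D.g_le i p z
    · exact D.f_le j z hz.1
  have hus : ∀ (x : Fin L ⊕ Fin n) (p : Fin n), ContDiffOn ℝ ∞ (uu s c V f X g x p) Hp := by
    rintro (i | j) p
    · exact D.X_smooth i
    · exact mac_BB hs hK hc D j p
  have hvs : ∀ (x : Fin L ⊕ Fin n) (p : Fin n), ContDiffOn ℝ ∞ (vv s c V f X g x p) Hp := by
    rintro (i | j) p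
    · exact cdo_dzb isOpen_Hp (D.X_smooth i)
    · exact cdo_dzb isOpen_Hp (mac_BB hs hK hc D j p)
  have hub : ∀ (x : Fin L ⊕ Fin n) (p : Fin n), ∀ z ∈ closedBall a (s * a.im),
      ‖uu s c V f X g x p z‖ ≤ C₃ := by
    rintro (i | j) p z hz
    · exact (D.X_le i z (hball z hz)).trans (by rw [hC₃]; linarith)
    · exact (((hmac V f X g D z (hball z hz)).2.2.2 j p).1).trans (by rw [hC₃]; linarith)
  have hdiv : ∀ z ∈ closedBall a (s * a.im), ∀ M : ℝ, M ≤ C₃ → 0 ≤ M →
      M / z.im ≤ 2 * C₃ / a.im := by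
    intro z hz M hM hM0
    have h1 := hzim z hz
    have h2 : 0 < z.im := by linarith
    rw [div_le_div_iff₀ h2 ha']
    have h3 : M * a.im ≤ C₃ * a.im := mul_le_mul_of_nonneg_right hM ha'.le
    have h4 : C₃ * a.im ≤ C₃ * (2 * z.im) := mul_le_mul_of_nonneg_left (by linarith) hC₃0.le
    linarith
  have hvb : ∀ (x : Fin L ⊕ Fin n) (p : Fin n), ∀ z ∈ closedBall a (s * a.im),
      ‖vv s c V f X g x p z‖ ≤ 2 * C₃ / a.im := by
    rintro (i | j) p z hz
    · exact (D.X_der i z (hball z hz)).trans (hdiv z hz K (by rw [hC₃]; linarith) hK)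
    · exact (((hmac V f X g D z (hball z hz)).2.2.2 j p).2).trans
        (hdiv z hz C₂ (by rw [hC₃]; linarith) hC₂.le)
  have hzero : (∀ z ∈ ball a (2 * (s * a.im)), uu s c V f X g x p z *
      vv s c V f X g y l z = 0) →
    IntegrableOn (fun z => uu s c V f X g x p z * vv s c V f X g y l z * hh f g x p z *
      hh f g y l z * w z) V ∧
    Integrable (fun z => uu s c V f X g x p z * vv s c V f X g y l z *
      al V a (s * a.im) (hh f g x p) z * al V a (s * a.im) (hh f g y l) z * w z) ∧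
    ‖(∫ z in V, uu s c V f X g x p z * vv s c V f X g y l z * hh f g x p z *
      hh f g y l z * w z) - ∫ z, uu s c V f X g x p z * vv s c V f X g y l z *
      al V a (s * a.im) (hh f g x p) z * al V a (s * a.im) (hh f g y l) z * w z‖ ≤
      (C₁ * K * K * (C₃ * (2 * C₃)) * s + 1) * W * gam V s a := by
    intro h0
    have e1 : (fun z => uu s c V f X g x p z * vv s c V f X g y l z * hh f g x p z *
      hh f g y l z * w z) = fun _ => 0 := by
      rw [← zero_fun hR (h := fun z => hh f g x p z * hh f g y l z) hsup h0]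
      funext z
      ring
    have e2 : (fun z => uu s c V f X g x p z * vv s c V f X g y l z *
      al V a (s * a.im) (hh f g x p) z * al V a (s * a.im) (hh f g y l) z * w z) =
      fun _ => 0 := by
      rw [← zero_fun hR (h := fun z => al V a (s * a.im) (hh f g x p) z *
        al V a (s * a.im) (hh f g y l) z) hsup h0]
      funext z
      ring
    rw [e1, e2]
    refine ⟨integrableOn_zero, integrable_zero _ _ _, ?_⟩
    rw [integral_zero, integral_zero, sub_zero, norm_zero]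
    positivity
  rcases key x with hx | hx
  · exact hzero fun z hz => by rw [(hx p z hz).1, zero_mul]
  rcases key y with hy | hy
  · exact hzero fun z hz => by rw [(hy l z hz).2, mul_zero]
  have hU0 : 0 ≤ C₃ * (2 * C₃ / a.im) := by positivity
  obtain ⟨i1, i2, i3⟩ := hpair V a K K (C₃ * (2 * C₃ / a.im)) W (hh f g x p) (hh f g y l)
    (fun z => uu s c V f X g x p z * vv s c V f X g y l z) w D.V_open ha hK hK hU0 hW (hx p) (hy l)
    (hhb x p) (hhb y l) ((hus x p).mul (hvs y l))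
    (fun z hz => by
      rw [norm_mul]
      exact mul_le_mul (hub x p z hz) (hvb y l z hz) (norm_nonneg _) hC₃0.le)
    hw hsup hwW
  refine ⟨i1, i2, i3.trans ?_⟩
  have e3 : C₁ * K * K * (C₃ * (2 * C₃ / a.im)) * W * (s * a.im) * gam V s a =
      (C₁ * K * K * (C₃ * (2 * C₃)) * s) * W * gam V s a := by
    field_simp
  rw [e3]
  have h5 : 0 ≤ W * gam V s a := mul_nonneg hW hcap
  nlinarith

end parts

theorem e1 {n L : ℕ} {s K c : ℝ} (hs : 0 < s) (hs1 : s ≤ 1 / 64) (hK : 0 ≤ K) (hc : 0 < c) :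
    ∃ C : ℝ, 0 < C ∧
    ∀ (V : Set ℂ) (f : Fin n → ℂ → ℂ) (X : Fin L → ℂ → ℂ) (g : Fin L → Fin n → ℂ → ℂ),
    Data s K V f X g → ∀ a ∈ Hp, ∀ (w : ℂ → ℂ) (W : ℝ), 0 ≤ W → Test univ w →
    tsupport w ⊆ closedBall a (s * a.im) → (∀ z, ‖w z‖ ≤ W) → ∀ p l,
    ‖(∫ z in V, om s c V f X g p l z * w z) - ∫ z, omA s c V f X g a p l z * w z‖ ≤
      C * W * gam V s a := by
  obtain ⟨C, hC, ht⟩ := term (n := n) (L := L) hs hs1 hK hc
  refine ⟨(Fintype.card (Fin L ⊕ Fin n) : ℝ) *
    ((Fintype.card (Fin L ⊕ Fin n) : ℝ) * (C + C)) + 1, by positivity, ?_⟩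
  intro V f X g D a ha w W hW hw hsup hwW p l
  have ht' := ht V f X g D a ha w W hW hw hsup hwW
  have hcap : 0 ≤ gam V s a := cap_nonneg _
  set A : Fin L ⊕ Fin n → Fin L ⊕ Fin n → Fin n → Fin n → ℂ → ℂ := fun x y p l z =>
    uu s c V f X g x p z * vv s c V f X g y l z * hh f g x p z * hh f g y l z * w z with hA
  set A' : Fin L ⊕ Fin n → Fin L ⊕ Fin n → Fin n → Fin n → ℂ → ℂ := fun x y p l z =>
    uu s c V f X g x p z * vv s c V f X g y l z *
      al V a (s * a.im) (hh f g x p) z * al V a (s * a.im) (hh f g y l) z * w z with hA'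
  have e1 : (fun z => om s c V f X g p l z * w z) =
      fun z => ∑ x, ∑ y, (A x y p l z - A x y l p z) := by
    funext z
    unfold om
    rw [Gh_eq, Gh_eq, Dh_eq, Dh_eq, sum_alg]
    refine Finset.sum_congr rfl fun x _ => Finset.sum_congr rfl fun y _ => ?_
    simp only [hA]
    ring
  have e2 : (fun z => omA s c V f X g a p l z * w z) =
      fun z => ∑ x, ∑ y, (A' x y p l z - A' x y l p z) := by
    funext z
    unfold omA
    rw [Ga_eq, Ga_eq, Da_eq, Da_eq, sum_alg]
    refine Finset.sum_congr rfl fun x _ => Finset.sum_congr rfl fun y _ => ?_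
    simp only [hA']
    ring
  have f1 : ∀ x y p l, IntegrableOn (A x y p l) V := fun x y p l => (ht' x y p l).1
  have f2 : ∀ x y p l, Integrable (A' x y p l) := fun x y p l => (ht' x y p l).2.1
  have f3 : ∀ x y p l, ‖(∫ z in V, A x y p l z) - ∫ z, A' x y p l z‖ ≤ C * W * gam V s a :=
    fun x y p l => (ht' x y p l).2.2
  have g1 : ∫ z in V, om s c V f X g p l z * w z =
      ∑ x, ∑ y, ((∫ z in V, A x y p l z) - ∫ z in V, A x y l p z) := by
    rw [e1, integral_finset_sum]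
    · refine Finset.sum_congr rfl fun x _ => ?_
      rw [integral_finset_sum]
      · refine Finset.sum_congr rfl fun y _ => ?_
        exact integral_sub (f1 x y p l) (f1 x y l p)
      · intro y _
        exact (f1 x y p l).sub (f1 x y l p)
    · intro x _
      exact integrable_finset_sum _ fun y _ => (f1 x y p l).sub (f1 x y l p)
  have g2 : ∫ z, omA s c V f X g a p l z * w z =
      ∑ x, ∑ y, ((∫ z, A' x y p l z) - ∫ z, A' x y l p z) := by
    rw [e2, integral_finset_sum]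
    · refine Finset.sum_congr rfl fun x _ => ?_
      rw [integral_finset_sum]
      · refine Finset.sum_congr rfl fun y _ => ?_
        exact integral_sub (f2 x y p l) (f2 x y l p)
      · intro y _
        exact (f2 x y p l).sub (f2 x y l p)
    · intro x _
      exact integrable_finset_sum _ fun y _ => (f2 x y p l).sub (f2 x y l p)
  rw [g1, g2, ← Finset.sum_sub_distrib]
  have h1 : ∀ x : Fin L ⊕ Fin n, ‖(∑ y, ((∫ z in V, A x y p l z) - ∫ z in V, A x y l p z)) -
      ∑ y, ((∫ z, A' x y p l z) - ∫ z, A' x y l p z)‖ ≤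
      (Fintype.card (Fin L ⊕ Fin n) : ℝ) * (C * W * gam V s a + C * W * gam V s a) := by
    intro x
    rw [← Finset.sum_sub_distrib]
    refine (norm_sum_le _ _).trans ?_
    have h2 : ∀ y ∈ (Finset.univ : Finset (Fin L ⊕ Fin n)),
        ‖(∫ z in V, A x y p l z) - (∫ z in V, A x y l p z) -
          ((∫ z, A' x y p l z) - ∫ z, A' x y l p z)‖ ≤
          C * W * gam V s a + C * W * gam V s a := by
      intro y _
      have e3 : (∫ z in V, A x y p l z) - (∫ z in V, A x y l p z) -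
          ((∫ z, A' x y p l z) - ∫ z, A' x y l p z) =
          ((∫ z in V, A x y p l z) - ∫ z, A' x y p l z) -
          ((∫ z in V, A x y l p z) - ∫ z, A' x y l p z) := by ring
      rw [e3]
      exact (norm_sub_le _ _).trans (add_le_add (f3 x y p l) (f3 x y l p))
    refine (Finset.sum_le_sum h2).trans ?_
    rw [Finset.sum_const, Finset.card_univ, nsmul_eq_mul]
  refine (norm_sum_le _ _).trans ((Finset.sum_le_sum fun x _ => h1 x).trans ?_)
  rw [Finset.sum_const, Finset.card_univ, nsmul_eq_mul]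
  have h5 : 0 ≤ W * gam V s a := mul_nonneg hW hcap
  have e4 : (Fintype.card (Fin L ⊕ Fin n) : ℝ) * ((Fintype.card (Fin L ⊕ Fin n) : ℝ) *
      (C * W * gam V s a + C * W * gam V s a)) = ((Fintype.card (Fin L ⊕ Fin n) : ℝ) *
      ((Fintype.card (Fin L ⊕ Fin n) : ℝ) * (C + C))) * (W * gam V s a) := by ring
  rw [e4]
  nlinarith

end Pool.Agent.Work.MP_2cf110_an.Hyp

end
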