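import Pool.Agent.Work.MP_2cf110_an.Hyp.PpB
import Pool.Agent.Work.MP_2cf110_an.Hyp.Cover

/-! # The auxiliary function ε

Cover of the compact set tsupport v (cover): m_i = ∫_{ball (a i) (s Im a_i)... closedBall} ‖v‖, ε z = C₁ Σ_i m_i pp (a i) z with C₁ = 400·(overlap not
needed).  lower bound: closedBall z (s y) ∩ tsupport v is covered by the closedBalls (a i, s Im a_i) (χ i ≠ 0 there), and those which meet
closedBall z (s y) have ‖z - a i‖ ≤ y/2: pp_low.  Upper bound: Σ m_i ≤ N ∫ ‖v‖, pp_int.  Positivity: some m_i > 0. -/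

open MeasureTheory Complex Set Metric Filter
open scoped Topology ContDiff ComplexConjugate

noncomputable section

namespace Pool.Agent.Work.MP_2cf110_an.Hyp

open QC (dz dzb Test Cau)

private theorem eps_dz_sum {m : ℕ} {c : Fin m → ℂ} {u : Fin m → ℂ → ℂ} {z : ℂ}
    (hu : ∀ i, DifferentiableAt ℝ (u i) z) :
    dz (fun w => ∑ i, c i * u i w) z = ∑ i, c i * dz (u i) z ∧
    dzb (fun w => ∑ i, c i * u i w) z = ∑ i, c i * dzb (u i) z := by
  have h1 : ∀ i, fderiv ℝ (fun w => c i * u i w) z = c i • fderiv ℝ (u i) z := fun i =>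
    fderiv_const_mul (hu i) (c i)
  have h2 : fderiv ℝ (fun w => ∑ i, c i * u i w) z = ∑ i, c i • fderiv ℝ (u i) z := by
    rw [fderiv_fun_sum (fun i _ => (hu i).const_mul (c i))]
    exact Finset.sum_congr rfl fun i _ => h1 i
  unfold QC.dz QC.dzb
  rw [h2]
  simp only [sum_apply, smul_apply, smul_eq_mul]
  constructor
  · rw [Finset.mul_sum, ← Finset.sum_sub_distrib, Finset.sum_div]
    exact Finset.sum_congr rfl fun i _ => by ring
  · rw [Finset.mul_sum, ← Finset.sum_add_distrib, Finset.sum_div]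
    exact Finset.sum_congr rfl fun i _ => by ring

private theorem eps_dzb_smooth {f : ℂ → ℂ} (hf : ContDiffOn ℝ ∞ f Hp) :
    ContDiffOn ℝ ∞ (dzb f) Hp := by
  have h1 : ContDiffOn ℝ ∞ (fderiv ℝ f) Hp := hf.fderiv_of_isOpen isOpen_Hp (by simp)
  have h2 : ∀ v : ℂ, ContDiffOn ℝ ∞ (fun z => fderiv ℝ f z v) Hp := fun v =>
    h1.clm_apply contDiffOn_const
  exact ((h2 1).add (contDiffOn_const.mul (h2 I))).div_const 2

private theorem eps_congr {f g : ℂ → ℂ} {z : ℂ} (h : f =ᶠ[𝓝 z] g) : dz f z = dz g z := by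
  unfold QC.dz
  rw [h.fderiv_eq]

/-- the weighted sum -/
private def ee {m : ℕ} (w : Fin m → ℝ) (a : Fin m → ℂ) (z : ℂ) : ℝ := ∑ i, w i * pp (a i) z

private theorem ee_cast {m : ℕ} (w : Fin m → ℝ) (a : Fin m → ℂ) :
    (fun z => ((ee w a z : ℝ) : ℂ)) = fun z => ∑ i, ((w i : ℝ) : ℂ) * ((pp (a i) z : ℝ) : ℂ) := by
  funext z
  unfold ee
  push_cast
  rfl

private theorem ee_nonneg {m : ℕ} {w : Fin m → ℝ} {a : Fin m → ℂ} (hw : ∀ i, 0 ≤ w i)
    (ha : ∀ i, a i ∈ Hp) (z : ℂ) : 0 ≤ ee w a z :=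
  Finset.sum_nonneg fun i _ => mul_nonneg (hw i) ((pp_pos (ha i)).1 z)

private theorem ee_smooth {m : ℕ} {w : Fin m → ℝ} {a : Fin m → ℂ} (ha : ∀ i, a i ∈ Hp) :
    ContDiffOn ℝ ∞ (ee w a) Hp := by
  unfold ee
  exact ContDiffOn.sum fun i _ => contDiffOn_const.mul (pp_smooth (ha i)).1

private theorem ee_der {m : ℕ} {w : Fin m → ℝ} {a : Fin m → ℂ} (hw : ∀ i, 0 ≤ w i)
    (ha : ∀ i, a i ∈ Hp) {z : ℂ} (hz : z ∈ Hp) :
    ‖dz (fun w' => ((ee w a w' : ℝ) : ℂ)) z‖ ≤ 3 * ee w a z / z.im ∧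
      ‖dz (dzb fun w' => ((ee w a w' : ℝ) : ℂ)) z‖ ≤ 20 * ee w a z / z.im ^ 2 := by
  have hnhd : Hp ∈ 𝓝 z := isOpen_Hp.mem_nhds hz
  have hs : ∀ i, ContDiffOn ℝ ∞ (fun z => ((pp (a i) z : ℝ) : ℂ)) Hp := fun i =>
    Complex.ofRealCLM.contDiff.comp_contDiffOn (pp_smooth (ha i)).1
  have hd : ∀ i, ∀ z ∈ Hp, DifferentiableAt ℝ (fun z => ((pp (a i) z : ℝ) : ℂ)) z :=
    fun i z hz => ((hs i).contDiffAt (isOpen_Hp.mem_nhds hz)).differentiableAt (by simp)
  have hd2 : ∀ i, DifferentiableAt ℝ (dzb fun z => ((pp (a i) z : ℝ) : ℂ)) z :=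
    fun i => ((eps_dzb_smooth (hs i)).contDiffAt hnhd).differentiableAt (by simp)
  rw [ee_cast]
  refine ⟨?_, ?_⟩
  · rw [(eps_dz_sum (fun i => hd i z hz)).1]
    refine (norm_sum_le _ _).trans ?_
    unfold ee
    rw [Finset.mul_sum, Finset.sum_div]
    refine Finset.sum_le_sum fun i _ => ?_
    rw [norm_mul, Complex.norm_real, Real.norm_of_nonneg (hw i)]
    have h := mul_le_mul_of_nonneg_left ((pp_smooth (ha i)).2 z hz).1 (hw i)
    refine h.trans (le_of_eq ?_)
    ring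
  · have h1 : (dzb fun z => ∑ i, ((w i : ℝ) : ℂ) * ((pp (a i) z : ℝ) : ℂ)) =ᶠ[𝓝 z]
        fun z => ∑ i, ((w i : ℝ) : ℂ) * (dzb fun z => ((pp (a i) z : ℝ) : ℂ)) z := by
      filter_upwards [hnhd] with z' hz'
      exact (eps_dz_sum (fun i => hd i z' hz')).2
    rw [eps_congr h1, (eps_dz_sum hd2).1]
    refine (norm_sum_le _ _).trans ?_
    unfold ee
    rw [Finset.mul_sum, Finset.sum_div]
    refine Finset.sum_le_sum fun i _ => ?_
    rw [norm_mul, Complex.norm_real, Real.norm_of_nonneg (hw i)]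
    have h := mul_le_mul_of_nonneg_left ((pp_smooth (ha i)).2 z hz).2 (hw i)
    refine h.trans (le_of_eq ?_)
    ring

private theorem ee_int {m : ℕ} {w : Fin m → ℝ} {a : Fin m → ℂ} {C : ℝ} (hw : ∀ i, 0 ≤ w i)
    (hC : ∀ i, IntegrableOn (fun z => pp (a i) z / z.im) Hp ∧ ∫ z in Hp, pp (a i) z / z.im ≤ C) :
    IntegrableOn (fun z => ee w a z / z.im) Hp ∧
    ∫ z in Hp, ee w a z / z.im ≤ C * ∑ i, w i := by
  have h1 : (fun z : ℂ => ee w a z / z.im) = fun z => ∑ i, w i * (pp (a i) z / z.im) := by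
    funext z
    unfold ee
    rw [Finset.sum_div]
    exact Finset.sum_congr rfl fun i _ => by ring
  have h2 : ∀ i ∈ (Finset.univ : Finset (Fin m)),
      Integrable (fun z => w i * (pp (a i) z / z.im)) (volume.restrict Hp) := fun i _ =>
    (hC i).1.const_mul (w i)
  rw [h1]
  refine ⟨integrable_finsetSum _ h2, ?_⟩
  rw [integral_finsetSum _ h2, Finset.mul_sum]
  refine Finset.sum_le_sum fun i _ => ?_
  rw [integral_const_mul, mul_comm C]
  exact mul_le_mul_of_nonneg_left (hC i).2 (hw i)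

private theorem ee_harnack {m : ℕ} {w : Fin m → ℝ} {a : Fin m → ℂ} (hw : ∀ i, 0 ≤ w i)
    (ha : ∀ i, a i ∈ Hp) {z z' : ℂ} (hz : z ∈ Hp) (h : ‖z - z'‖ ≤ z.im / 3) :
    ee w a z' ≤ 10 * ee w a z := by
  unfold ee
  rw [Finset.mul_sum]
  refine Finset.sum_le_sum fun i _ => ?_
  have h1 := mul_le_mul_of_nonneg_left (pp_harnack (ha i) hz h) (hw i)
  refine h1.trans (le_of_eq ?_)
  ring

private theorem eps_geom {s : ℝ} (hs1 : s ≤ 1 / 64) {a z ζ : ℂ} (ha : a ∈ Hp)
    (hz : z ∈ Hp) (h1 : ζ ∈ closedBall z (s * z.im)) (h2 : ζ ∈ closedBall a (s * a.im)) :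
    ‖z - a‖ ≤ z.im / 2 := by
  have ha' : 0 < a.im := ha
  have hz' : 0 < z.im := hz
  rw [mem_closedBall, dist_eq_norm] at h1 h2
  have h3 : ‖z - a‖ ≤ s * z.im + s * a.im := by
    have h4 : z - a = (ζ - a) - (ζ - z) := by ring
    rw [h4]
    refine (norm_sub_le _ _).trans ?_
    linarith
  have h5 : |(z - a).im| ≤ ‖z - a‖ := Complex.abs_im_le_norm _
  rw [Complex.sub_im] at h5
  have h6 := (abs_le.1 h5).1
  have h7 : s * z.im ≤ 1 / 64 * z.im := mul_le_mul_of_nonneg_right hs1 hz'.le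
  have h8 : s * a.im ≤ 1 / 64 * a.im := mul_le_mul_of_nonneg_right hs1 ha'.le
  linarith

theorem exists_eps {s : ℝ} (hs : 0 < s) (hs1 : s ≤ 1 / 64) : ∃ C : ℝ, 0 < C ∧ ∀ v : ℂ → ℂ,
    Continuous v → HasCompactSupport v → tsupport v ⊆ Hp → 0 < ∫ z, ‖v z‖ → ∃ ε : ℂ → ℝ,
    ContDiffOn ℝ ∞ ε Hp ∧ (∀ z, 0 ≤ ε z) ∧ (∀ z ∈ Hp, 0 < ε z) ∧
    (∀ z ∈ Hp, ‖dz (fun w => (ε w : ℂ)) z‖ ≤ C * ε z / z.im ∧
      ‖dz (dzb fun w => (ε w : ℂ)) z‖ ≤ C * ε z / z.im ^ 2) ∧
    IntegrableOn (fun z => ε z / z.im) Hp ∧ ∫ z in Hp, ε z / z.im ≤ C * ∫ z, ‖v z‖ ∧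
    (∀ z ∈ Hp, 1 / z.im * ∫ ζ in closedBall z (s * z.im), ‖v ζ‖ ≤ ε z) ∧
    ∀ a ∈ Hp, ∀ z ∈ ball a (16 * (s * a.im)), ε z ≤ C * ε a ∧ ε a ≤ C * ε z := by
  obtain ⟨N, hN⟩ := cover hs hs1
  obtain ⟨Cp, hCp, hpp⟩ := pp_int
  refine ⟨20 + Cp * (400 * N), by positivity, fun v hv hvc hvs hvi => ?_⟩
  obtain ⟨m, a, χ, haH, hχT, hχs, -, hχ1, hov⟩ := hN (tsupport v) hvc hvs
  have hvint : Integrable (fun z => ‖v z‖) := (hv.integrable_of_hasCompactSupport hvc).norm
  -- the balls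
  obtain ⟨B, hB⟩ : ∃ B : Fin m → Set ℂ, B = fun i => closedBall (a i) (s * (a i).im) := ⟨_, rfl⟩
  have hBm : ∀ i, MeasurableSet (B i) := fun i => by rw [hB]; exact measurableSet_closedBall
  obtain ⟨M, hM⟩ : ∃ M : Fin m → ℝ, M = fun i => ∫ z in B i, ‖v z‖ := ⟨_, rfl⟩
  have hM0 : ∀ i, 0 ≤ M i := fun i => by
    rw [hM]
    exact integral_nonneg fun z => norm_nonneg _
  -- covering
  have hcov : ∀ ζ, ‖v ζ‖ ≤ ∑ i, (B i).indicator (fun z => ‖v z‖) ζ := by
    intro ζ
    by_cases hζ : ζ ∈ tsupport v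
    · have h1 := hχ1 ζ hζ
      have h2 : ∃ i, χ i ζ ≠ 0 := by
        by_contra hcon
        push Not at hcon
        rw [Finset.sum_eq_zero fun i _ => hcon i] at h1
        exact zero_ne_one h1
      obtain ⟨i, hi⟩ := h2
      have h3 : ζ ∈ B i := by
        rw [hB]
        exact hχs i (subset_tsupport _ hi)
      calc ‖v ζ‖ = (B i).indicator (fun z => ‖v z‖) ζ := by rw [indicator_of_mem h3]
        _ ≤ _ := Finset.single_le_sum (f := fun i => (B i).indicator (fun z => ‖v z‖) ζ)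
            (fun j _ => indicator_nonneg (fun z _ => norm_nonneg _) ζ) (Finset.mem_univ i)
    · rw [image_eq_zero_of_notMem_tsupport hζ, norm_zero]
      exact Finset.sum_nonneg fun j _ => indicator_nonneg (fun z _ => norm_nonneg _) ζ
  have hIB : ∀ i, Integrable ((B i).indicator (fun z => ‖v z‖)) := fun i =>
    hvint.indicator (hBm i)
  have hsumM : ∑ i, M i = ∫ z, ∑ i, (B i).indicator (fun z => ‖v z‖) z := by
    rw [integral_finsetSum _ fun i _ => hIB i]
    refine Finset.sum_congr rfl fun i _ => ?_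
    rw [hM, integral_indicator (hBm i)]
  have hMlow : ∫ z, ‖v z‖ ≤ ∑ i, M i := by
    rw [hsumM]
    exact integral_mono hvint (integrable_finsetSum _ fun i _ => hIB i) hcov
  have hMup : ∑ i, M i ≤ N * ∫ z, ‖v z‖ := by
    rw [hsumM, ← integral_const_mul]
    refine integral_mono (integrable_finsetSum _ fun i _ => hIB i) (hvint.const_mul _) fun z => ?_
    have h1 : ∑ i, (B i).indicator (fun z => ‖v z‖) z ≤
        ∑ i ∈ Finset.univ.filter (fun i => ‖z - a i‖ < 16 * (s * (a i).im)), ‖v z‖ := by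
      rw [Finset.sum_filter]
      refine Finset.sum_le_sum fun i _ => ?_
      by_cases h2 : z ∈ B i
      · rw [indicator_of_mem h2]
        have h3 : ‖z - a i‖ < 16 * (s * (a i).im) := by
          rw [hB] at h2
          have h4 : ‖z - a i‖ ≤ s * (a i).im := by
            have := mem_closedBall.1 h2
            rwa [dist_eq_norm] at this
          have h5 : 0 < s * (a i).im := mul_pos hs (haH i)
          linarith
        rw [if_pos h3]
      · rw [indicator_of_notMem h2]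
        split_ifs
        · exact norm_nonneg _
        · exact le_refl _
    refine h1.trans ?_
    rw [Finset.sum_const, nsmul_eq_mul]
    exact mul_le_mul_of_nonneg_right (by exact_mod_cast hov z) (norm_nonneg _)
  -- the function
  obtain ⟨w, hw⟩ : ∃ w : Fin m → ℝ, w = fun i => 400 * M i := ⟨_, rfl⟩
  have hw0 : ∀ i, 0 ≤ w i := fun i => by
    rw [hw]
    have := hM0 i
    positivity
  have hsw : ∑ i, w i = 400 * ∑ i, M i := by rw [hw, Finset.mul_sum]
  have hee0 := ee_nonneg hw0 haH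
  have hvi0 : 0 ≤ ∫ z, ‖v z‖ := hvi.le
  have hCe : ∀ {k t : ℝ}, k ≤ 20 → 0 ≤ t → k * t ≤ (20 + Cp * (400 * N)) * t := by
    intro k t hk ht
    refine mul_le_mul_of_nonneg_right ?_ ht
    have : 0 ≤ Cp * (400 * N) := by positivity
    linarith
  obtain ⟨hi1, hi2⟩ := ee_int hw0 (fun i => hpp (a i) (haH i))
  refine ⟨ee w a, ee_smooth haH, hee0, ?_, ?_, hi1, ?_, ?_, ?_⟩
  · intro z hz
    have h1 : ∃ i, 0 < M i := by
      by_contra hcon
      push Not at hcon
      have h2 : ∑ i, M i ≤ 0 := Finset.sum_nonpos fun i _ => hcon i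
      linarith
    obtain ⟨i, hi⟩ := h1
    have h2 : 0 < w i * pp (a i) z := by
      rw [hw]
      have := (pp_pos (haH i)).2 z hz
      positivity
    exact lt_of_lt_of_le h2 (Finset.single_le_sum (f := fun i => w i * pp (a i) z)
      (fun j _ => mul_nonneg (hw0 j) ((pp_pos (haH j)).1 z)) (Finset.mem_univ i))
  · intro z hz
    have hz' : 0 < z.im := hz
    obtain ⟨h1, h2⟩ := ee_der hw0 haH hz
    refine ⟨h1.trans ?_, h2.trans ?_⟩
    · exact div_le_div_of_nonneg_right (hCe (by norm_num) (hee0 z)) hz'.le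
    · exact div_le_div_of_nonneg_right (hCe le_rfl (hee0 z)) (by positivity)
  · refine hi2.trans ?_
    rw [hsw]
    have h1 : Cp * (400 * ∑ i, M i) ≤ Cp * (400 * (N * ∫ z, ‖v z‖)) :=
      mul_le_mul_of_nonneg_left (mul_le_mul_of_nonneg_left hMup (by norm_num)) hCp.le
    refine h1.trans ?_
    nlinarith
  · intro z hz
    have hz' : 0 < z.im := hz
    have h1 : ∫ ζ in closedBall z (s * z.im), ‖v ζ‖ ≤
        ∑ i, ∫ ζ in closedBall z (s * z.im), (B i).indicator (fun z => ‖v z‖) ζ := by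
      rw [← integral_finsetSum _ fun i _ => (hIB i).integrableOn]
      exact integral_mono hvint.integrableOn
        (integrable_finsetSum _ fun i _ => (hIB i).integrableOn) hcov
    have h2 : ∀ i, 1 / z.im * ∫ ζ in closedBall z (s * z.im), (B i).indicator (fun z => ‖v z‖) ζ
        ≤ w i * pp (a i) z := by
      intro i
      by_cases h3 : ∃ ζ, ζ ∈ closedBall z (s * z.im) ∧ ζ ∈ B i
      · obtain ⟨ζ, h4, h5⟩ := h3
        rw [hB] at h5
        have h6 := pp_low (haH i) hz (eps_geom hs1 (haH i) hz h4 h5)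
        have h7 : ∫ ζ in closedBall z (s * z.im), (B i).indicator (fun z => ‖v z‖) ζ ≤ M i := by
          rw [hM]
          simp only
          rw [← integral_indicator (hBm i)]
          exact setIntegral_le_integral (hIB i)
            (Eventually.of_forall fun z => indicator_nonneg (fun z _ => norm_nonneg _) z)
        calc _ ≤ 1 / z.im * M i := mul_le_mul_of_nonneg_left h7 (by positivity)
          _ = (400 * M i) * (1 / (400 * z.im)) := by field_simp
          _ ≤ (400 * M i) * pp (a i) z := mul_le_mul_of_nonneg_left h6 (by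
              have := hM0 i
              positivity)
          _ = w i * pp (a i) z := by rw [hw]
      · push Not at h3
        have h4 : ∫ ζ in closedBall z (s * z.im), (B i).indicator (fun z => ‖v z‖) ζ = 0 := by
          rw [← integral_zero ℂ ℝ (μ := volume.restrict (closedBall z (s * z.im)))]
          refine setIntegral_congr_fun measurableSet_closedBall fun ζ hζ => ?_
          exact indicator_of_notMem (h3 ζ hζ) _
        rw [h4, mul_zero]
        exact mul_nonneg (hw0 i) ((pp_pos (haH i)).1 z)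
    calc _ ≤ 1 / z.im * ∑ i, ∫ ζ in closedBall z (s * z.im), (B i).indicator (fun z => ‖v z‖) ζ :=
          mul_le_mul_of_nonneg_left h1 (by positivity)
      _ = ∑ i, 1 / z.im * ∫ ζ in closedBall z (s * z.im), (B i).indicator (fun z => ‖v z‖) ζ := by
          rw [Finset.mul_sum]
      _ ≤ _ := Finset.sum_le_sum fun i _ => h2 i
  · intro b hb z hz
    have hb' : 0 < b.im := hb
    rw [mem_ball, dist_eq_norm] at hz
    have h1 : s * b.im ≤ 1 / 64 * b.im := mul_le_mul_of_nonneg_right hs1 hb'.le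
    have h2 : ‖z - b‖ ≤ b.im / 4 := by linarith
    have h3 : |(z - b).im| ≤ ‖z - b‖ := Complex.abs_im_le_norm _
    rw [Complex.sub_im] at h3
    have h4 := (abs_le.1 h3).1
    have hz1 : 3 / 4 * b.im ≤ z.im := by linarith
    have hz2 : z ∈ Hp := by
      show 0 < z.im
      linarith
    have h5 : ee w a z ≤ 10 * ee w a b := ee_harnack hw0 haH hb (by
      rw [norm_sub_rev]
      linarith)
    have h6 : ee w a b ≤ 10 * ee w a z := ee_harnack hw0 haH hz2 (by linarith)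
    exact ⟨h5.trans (hCe (by norm_num) (hee0 b)), h6.trans (hCe (by norm_num) (hee0 z))⟩

end Pool.Agent.Work.MP_2cf110_an.Hyp

end
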