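import Pool.Agent.Work.MP_2cf110_an.Hyp.Far

/-! # Decay of admissible functions, general position

Same proof as far: the ball z₀ d is contained in Eᶜ; b'(z) = (d/2) (b(z) - b(z₀))/(z - z₀). -/

open MeasureTheory Complex Set Metric Filter
open scoped Topology ContDiff ComplexConjugate

noncomputable section

namespace Pool.Agent.Work.MP_2cf110_an.Hyp

open QC (dz dzb Test Cau)

private theorem farG_inv : Tendsto (fun z : ℂ => z⁻¹) (cocompact ℂ) (𝓝 0) := by
  rw [← Metric.cobounded_eq_cocompact]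
  exact Filter.tendsto_inv₀_cobounded

private theorem farG_ne (w : ℂ) : ∀ᶠ z in cocompact ℂ, z ≠ w := by
  have h : ({w} : Set ℂ)ᶜ ∈ cocompact ℂ := (isCompact_singleton).compl_mem_cocompact
  filter_upwards [h] with z hz
  exact hz

private theorem farG_dslope_meas {b : ℂ → ℂ} (hb : Measurable b) (z₀ : ℂ) :
    Measurable (dslope b z₀) := by
  have h1 : dslope b z₀ = fun z => if z = z₀ then deriv b z₀ else (z - z₀)⁻¹ * (b z - b z₀) := by
    funext z
    by_cases h : z = z₀
    · rw [if_pos h, h, dslope_same]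
    · rw [if_neg h, dslope_of_ne _ h, slope_def_module, smul_eq_mul]
  rw [h1]
  refine Measurable.ite (measurableSet_singleton z₀) measurable_const ?_
  exact ((measurable_id.sub measurable_const).inv).mul (hb.sub measurable_const)

private theorem farG_lim {b : ℂ → ℂ} {c : ℂ} (z₀ : ℂ)
    (h : Tendsto (fun z => z * b z) (cocompact ℂ) (𝓝 c)) :
    Tendsto (fun z => z * dslope b z₀ z) (cocompact ℂ) (𝓝 (-b z₀)) := by
  have h1 : Tendsto b (cocompact ℂ) (𝓝 0) := by
    have h2 := h.mul farG_inv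
    rw [mul_zero] at h2
    refine h2.congr' ?_
    filter_upwards [farG_ne 0] with z hz
    rw [mul_comm z, mul_assoc, mul_inv_cancel₀ hz, mul_one]
  have h3 : Tendsto (fun z : ℂ => (z - z₀)⁻¹) (cocompact ℂ) (𝓝 0) := by
    have h4 : Tendsto (fun z : ℂ => z - z₀) (cocompact ℂ) (cocompact ℂ) :=
      (Homeomorph.subRight z₀).isClosedEmbedding.tendsto_cocompact
    exact farG_inv.comp h4
  have h5 : Tendsto (fun z : ℂ => (1 + z₀ * (z - z₀)⁻¹) * (b z - b z₀)) (cocompact ℂ)
      (𝓝 ((1 + z₀ * 0) * (0 - b z₀))) :=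
    (tendsto_const_nhds.add (tendsto_const_nhds.mul h3)).mul (h1.sub tendsto_const_nhds)
  rw [mul_zero, add_zero, one_mul, zero_sub] at h5
  refine h5.congr' ?_
  filter_upwards [farG_ne z₀] with z hz
  have h6 : z - z₀ ≠ 0 := sub_ne_zero.2 hz
  rw [dslope_of_ne _ hz, slope_def_module, smul_eq_mul]
  field_simp
  ring

theorem farG {E : Set ℂ} {a z₀ : ℂ} {ρ d : ℝ} {b : ℂ → ℂ} {c : ℂ} (hE : IsCompact E)
    (hEa : E ⊆ closedBall a ρ) (hd : 0 < d) (h : Adm E b c) (hz : ball z₀ d ⊆ Eᶜ) :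
    ‖b z₀‖ ≤ 2 / d * cap E := by
  have hz0 : z₀ ∈ Eᶜ := hz (mem_ball_self hd)
  have hopen : IsOpen Eᶜ := hE.isClosed.isOpen_compl
  have hsub : ball z₀ d ⊆ Eᶜ := hz
  have hb2 : ∀ z, ‖b z - b z₀‖ ≤ 2 := by
    intro z
    refine (norm_sub_le _ _).trans ?_
    have h1 := h.le z
    have h2 := h.le z₀
    linarith
  have hbd : ∀ z, ‖dslope b z₀ z‖ ≤ 2 / d := by
    intro z
    by_cases h1 : z ∈ ball z₀ d
    · exact Complex.norm_dslope_le_div_of_mapsTo_ball (f := b) (c := z₀) (z := z) (R₁ := d)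
        (R₂ := 2) (h.holo.mono hsub) (by
          intro w hw
          rw [mem_closedBall, dist_eq_norm]
          exact hb2 w) h1
    · rw [mem_ball, dist_eq_norm, not_lt] at h1
      have h2 : z ≠ z₀ := by
        intro e
        rw [e, sub_self, norm_zero] at h1
        linarith
      rw [dslope_of_ne _ h2, slope_def_module, smul_eq_mul, norm_mul, norm_inv,
        inv_mul_eq_div]
      exact div_le_div₀ (by norm_num) (hb2 z) hd h1
  have hadm : Adm E (fun z => ((d / 2 : ℝ) : ℂ) * dslope b z₀ z)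
      (((d / 2 : ℝ) : ℂ) * (-b z₀)) := by
    refine ⟨?_, ?_, ?_, ?_⟩
    · exact measurable_const.mul (farG_dslope_meas h.meas z₀)
    · intro z
      rw [norm_mul, Complex.norm_real, Real.norm_of_nonneg (by positivity)]
      calc d / 2 * ‖dslope b z₀ z‖ ≤ d / 2 * (2 / d) :=
            mul_le_mul_of_nonneg_left (hbd z) (by positivity)
        _ = 1 := by field_simp
    · exact ((Complex.differentiableOn_dslope (hopen.mem_nhds hz0)).2 h.holo).const_mul _
    · have h1 := (farG_lim z₀ h.lim).const_mul ((d / 2 : ℝ) : ℂ)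
      refine h1.congr fun z => ?_
      ring
  have h2 := le_cap hEa hadm
  rw [norm_mul, norm_neg, Complex.norm_real, Real.norm_of_nonneg (by positivity)] at h2
  calc ‖b z₀‖ = 2 / d * (d / 2 * ‖b z₀‖) := by field_simp
    _ ≤ 2 / d * cap E := mul_le_mul_of_nonneg_left h2 (by positivity)

end Pool.Agent.Work.MP_2cf110_an.Hyp

end
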