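import Pool.Agent.Work.MP_2cf110_an.Hyp.ForDef

/-! # Fibre sums

le: Σ |F g| ≤ B C (summable_of_sum_le, norm_tsum_le_tsum_norm).  holo: let z₀ in V, ε, s as in sec; on ball z₀ ε the fibre sum is Σ_i u_i(z), u_i(z) = F(s i z) g(s i z) (Equiv.tsum_eq for the
bijection of sec), u_i is analytic on ball z₀ ε and Σ_{i in T} |u_i(z)| ≤ B C for all finite T.  Let t = 3ε/4.  Cauchy formula on the circle of radius t: for |z - z₀| < ε/2
|u_i(z)| ≤ A_i := (3/(2π)) ∫_0^{2π} |u_i(z₀ + t e^{iθ})| dθ, and Σ_{i in T} A_i ≤ 3 B C, so A is summable: differentiableOn_tsum_of_summable_norm on ball z₀ (ε/2). -/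

open MeasureTheory Complex Set Metric Filter
open scoped Topology ContDiff ComplexConjugate

noncomputable section

namespace Pool.Agent.Work.MP_2cf110_an.Hyp

open QC (dz dzb Test Cau)

private theorem sum_aux {B C : ℝ} {V' V : Set ℂ} {P F g : ℂ → ℂ} (h : Forelli B V' V P F)
    (hC0 : 0 ≤ C) (hC : ∀ w ∈ V', ‖g w‖ ≤ C) : ∀ z ∈ V,
    ∀ t : Finset {w // w ∈ V' ∧ P w = z}, ∑ w ∈ t, ‖F w * g w‖ ≤ B * C := by
  intro z hz t
  calc ∑ w ∈ t, ‖F w * g w‖ ≤ ∑ w ∈ t, ‖F w‖ * C := by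
        refine Finset.sum_le_sum fun w _ => ?_
        rw [norm_mul]
        exact mul_le_mul_of_nonneg_left (hC w w.2.1) (norm_nonneg _)
    _ = (∑ w ∈ t, ‖F w‖) * C := by rw [Finset.sum_mul]
    _ ≤ B * C := mul_le_mul_of_nonneg_right (h.sum_le z hz t) hC0

theorem forelli_le {B C : ℝ} {V' V : Set ℂ} {P F g : ℂ → ℂ} (h : Forelli B V' V P F) (hC0 : 0 ≤ C)
    (hC : ∀ w ∈ V', ‖g w‖ ≤ C) : ∀ z ∈ V,
    Summable (fun w : {w // w ∈ V' ∧ P w = z} => F w * g w) ∧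
    ‖∑' w : {w // w ∈ V' ∧ P w = z}, F w * g w‖ ≤ B * C := by
  intro z hz
  have h1 := sum_aux h hC0 hC z hz
  have hs : Summable (fun w : {w // w ∈ V' ∧ P w = z} => ‖F w * g w‖) :=
    summable_of_sum_le (fun _ => norm_nonneg _) h1
  refine ⟨hs.of_norm, (norm_tsum_le_tsum_norm hs).trans ?_⟩
  exact hs.tsum_le_of_sum_le h1

private theorem cau_aux {ε : ℝ} (hε : 0 < ε) {z₀ : ℂ} {u : ℂ → ℂ}
    (hu : DifferentiableOn ℂ u (ball z₀ ε)) : ∀ z ∈ ball z₀ (ε / 2),
    ‖u z‖ ≤ 3 / (2 * Real.pi) *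
      ∫ θ in (0 : ℝ)..(2 * Real.pi), ‖u (circleMap z₀ (3 * ε / 4) θ)‖ := by
  intro z hz
  have hρ : (0 : ℝ) < 3 * ε / 4 := by positivity
  have hsub : closedBall z₀ (3 * ε / 4) ⊆ ball z₀ ε := closedBall_subset_ball (by linarith)
  have hd : DiffContOnCl ℂ u (ball z₀ (3 * ε / 4)) := (hu.mono hsub).diffContOnCl_ball (le_refl _)
  have hz' : z ∈ ball z₀ (3 * ε / 4) := ball_subset_ball (by linarith) hz
  have hc := hd.circleIntegral_sub_inv_smul hz'
  have hn : ‖∮ ζ in C(z₀, 3 * ε / 4), (ζ - z)⁻¹ • u ζ‖ = 2 * Real.pi * ‖u z‖ := by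
    rw [hc, norm_smul]
    simp [abs_of_pos Real.pi_pos]
  have hle : ‖∮ ζ in C(z₀, 3 * ε / 4), (ζ - z)⁻¹ • u ζ‖ ≤
      3 * ∫ θ in (0 : ℝ)..(2 * Real.pi), ‖u (circleMap z₀ (3 * ε / 4) θ)‖ := by
    unfold circleIntegral
    have hcirc : ∀ θ : ℝ, circleMap z₀ (3 * ε / 4) θ ∈ ball z₀ ε := fun θ =>
      hsub (circleMap_mem_closedBall z₀ hρ.le θ)
    have hcont : Continuous fun θ : ℝ => u (circleMap z₀ (3 * ε / 4) θ) := by
      refine hu.continuousOn.comp_continuous (continuous_circleMap _ _) hcirc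
    refine (intervalIntegral.norm_integral_le_of_norm_le (g := fun θ => 3 *
      ‖u (circleMap z₀ (3 * ε / 4) θ)‖) (by positivity) ?_ ?_).trans_eq ?_
    · refine Filter.Eventually.of_forall fun θ _ => ?_
      rw [norm_smul, norm_smul, deriv_circleMap, norm_mul, norm_circleMap_zero, norm_I, mul_one,
        abs_of_pos hρ, norm_inv]
      have hdist : ε / 4 ≤ ‖circleMap z₀ (3 * ε / 4) θ - z‖ := by
        have h1 : ‖circleMap z₀ (3 * ε / 4) θ - z₀‖ = 3 * ε / 4 := by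
          rw [circleMap_sub_center, norm_circleMap_zero, abs_of_pos hρ]
        have h2 : ‖z - z₀‖ < ε / 2 := by simpa [dist_eq_norm] using hz
        have h3 : ‖circleMap z₀ (3 * ε / 4) θ - z₀‖ ≤
            ‖circleMap z₀ (3 * ε / 4) θ - z‖ + ‖z - z₀‖ := norm_sub_le_norm_sub_add_norm_sub _ _ _
        linarith
      have hinv : ‖circleMap z₀ (3 * ε / 4) θ - z‖⁻¹ ≤ (ε / 4)⁻¹ :=
        inv_anti₀ (by positivity) hdist
      calc 3 * ε / 4 * (‖circleMap z₀ (3 * ε / 4) θ - z‖⁻¹ * ‖u (circleMap z₀ (3 * ε / 4) θ)‖)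
          ≤ 3 * ε / 4 * ((ε / 4)⁻¹ * ‖u (circleMap z₀ (3 * ε / 4) θ)‖) := by gcongr
        _ = 3 * ‖u (circleMap z₀ (3 * ε / 4) θ)‖ := by
            field_simp
    · exact (continuous_const.mul hcont.norm).intervalIntegrable _ _
    · rw [intervalIntegral.integral_const_mul]
  rw [hn] at hle
  have hpi := Real.pi_pos
  rw [div_mul_eq_mul_div, le_div_iff₀ (by positivity)]
  linarith

theorem forelli_holo {B C : ℝ} {V' V : Set ℂ} {P F g : ℂ → ℂ} (h : Forelli B V' V P F)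
    (hC0 : 0 ≤ C) (hg : DifferentiableOn ℂ g V') (hC : ∀ w ∈ V', ‖g w‖ ≤ C) :
    DifferentiableOn ℂ (fun z => ∑' w : {w // w ∈ V' ∧ P w = z}, F w * g w) V := by
  intro z₀ hz₀
  obtain ⟨ε, hε, hball, ι, s, hs, hbij⟩ := h.sec z₀ hz₀
  set u : ι → ℂ → ℂ := fun i z => F (s i z) * g (s i z) with hudef
  have hmem : ∀ i, ∀ z ∈ ball z₀ ε, s i z ∈ V' := fun i z hz => ((hbij z hz).mapsTo (mem_univ i)).1
  have hu : ∀ i, DifferentiableOn ℂ (u i) (ball z₀ ε) := fun i =>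
    (h.holoF.comp (hs i) (hmem i)).mul (hg.comp (hs i) (hmem i))
  -- the bijection
  have heq : ∀ z (hz : z ∈ ball z₀ ε), ∃ e : ι ≃ {w // w ∈ V' ∧ P w = z},
      ∀ i, ((e i : {w // w ∈ V' ∧ P w = z}) : ℂ) = s i z := by
    intro z hz
    refine ⟨Equiv.ofBijective (fun i => ⟨s i z, (hbij z hz).mapsTo (mem_univ i)⟩) ⟨?_, ?_⟩,
      fun i => rfl⟩
    · intro i j hij
      exact (hbij z hz).injOn (mem_univ i) (mem_univ j) (congrArg Subtype.val hij)
    · rintro ⟨w, hw⟩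
      obtain ⟨i, _, hi⟩ := (hbij z hz).surjOn hw
      exact ⟨i, Subtype.ext hi⟩
  have htsum : ∀ z ∈ ball z₀ ε, ∑' w : {w // w ∈ V' ∧ P w = z}, F w * g w = ∑' i, u i z := by
    intro z hz
    obtain ⟨e, he⟩ := heq z hz
    rw [← e.tsum_eq]
    refine tsum_congr fun i => ?_
    rw [he i]
  have hsum : ∀ z ∈ ball z₀ ε, ∀ T : Finset ι, ∑ i ∈ T, ‖u i z‖ ≤ B * C := by
    intro z hz T
    obtain ⟨e, he⟩ := heq z hz
    have := sum_aux h hC0 hC z (hball hz) (T.map e.toEmbedding)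
    rw [Finset.sum_map] at this
    refine le_of_eq_of_le ?_ this
    refine Finset.sum_congr rfl fun i _ => ?_
    rw [Equiv.coe_toEmbedding, he i]
  have hρ : (0 : ℝ) < 3 * ε / 4 := by positivity
  have hcirc : ∀ θ : ℝ, circleMap z₀ (3 * ε / 4) θ ∈ ball z₀ ε := fun θ =>
    closedBall_subset_ball (by linarith) (circleMap_mem_closedBall z₀ hρ.le θ)
  have hcont : ∀ i, Continuous fun θ : ℝ => ‖u i (circleMap z₀ (3 * ε / 4) θ)‖ := fun i =>
    ((hu i).continuousOn.comp_continuous (continuous_circleMap _ _) hcirc).norm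
  set A : ι → ℝ := fun i => 3 / (2 * Real.pi) *
      ∫ θ in (0 : ℝ)..(2 * Real.pi), ‖u i (circleMap z₀ (3 * ε / 4) θ)‖ with hA
  have hpi := Real.pi_pos
  have hA0 : ∀ i, 0 ≤ A i := fun i => by
    refine mul_nonneg (by positivity) ?_
    exact intervalIntegral.integral_nonneg (by positivity) fun _ _ => norm_nonneg _
  have hAs : Summable A := by
    refine summable_of_sum_le (c := 3 * (B * C)) hA0 fun T => ?_
    rw [hA, ← Finset.mul_sum, ← intervalIntegral.integral_finsetSum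
      fun i _ => (hcont i).intervalIntegrable _ _]
    have hle : ∫ θ in (0 : ℝ)..(2 * Real.pi), ∑ i ∈ T, ‖u i (circleMap z₀ (3 * ε / 4) θ)‖ ≤
        ∫ _θ in (0 : ℝ)..(2 * Real.pi), B * C := by
      refine intervalIntegral.integral_mono_on (by positivity) ?_ ?_ ?_
      · exact (continuous_finsetSum _ fun i _ => hcont i).intervalIntegrable _ _
      · exact continuous_const.intervalIntegrable _ _
      · intro θ _
        exact hsum _ (hcirc θ) T
    rw [intervalIntegral.integral_const, smul_eq_mul, sub_zero] at hle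
    calc 3 / (2 * Real.pi) *
          ∫ θ in (0 : ℝ)..(2 * Real.pi), ∑ i ∈ T, ‖u i (circleMap z₀ (3 * ε / 4) θ)‖
        ≤ 3 / (2 * Real.pi) * (2 * Real.pi * (B * C)) := by gcongr
      _ = 3 * (B * C) := by field_simp
  have hd : DifferentiableOn ℂ (fun z => ∑' i, u i z) (ball z₀ (ε / 2)) :=
    differentiableOn_tsum_of_summable_norm hAs
      (fun i => (hu i).mono (ball_subset_ball (by linarith))) isOpen_ball
      fun i z hz => cau_aux hε (hu i) z hz
  have hd2 : DifferentiableOn ℂ (fun z => ∑' w : {w // w ∈ V' ∧ P w = z}, F w * g w)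
      (ball z₀ (ε / 2)) := hd.congr fun z hz => htsum z (ball_subset_ball (by linarith) hz)
  exact ((hd2 z₀ (mem_ball_self (by linarith))).differentiableAt
    (isOpen_ball.mem_nhds (mem_ball_self (by linarith)))).differentiableWithinAt

end Pool.Agent.Work.MP_2cf110_an.Hyp

end
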