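import Pool.Agent.Work.MP_2cf110_an.Hyp.SolDef

/-! # Definition: coverings with a Forelli function -/

open MeasureTheory Complex Set Metric Filter
open scoped Topology ContDiff ComplexConjugate

noncomputable section

namespace Pool.Agent.Work.MP_2cf110_an.Hyp

open QC (dz dzb Test Cau)

/-- `P : V' → V` is an analytic covering map with a Forelli function `F`: near every point of `V`
the fibres are enumerated by analytic maps `s i`, and on every fibre `∑ F = 1` and `∑ |F| ≤ B`.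
(An injective analytic map `P` of `V'` onto `V` is such a map, with `F = 1`, `B = 1`) -/
structure Forelli (B : ℝ) (V' V : Set ℂ) (P F : ℂ → ℂ) : Prop where
  open' : IsOpen V'
  open_ : IsOpen V
  holo : DifferentiableOn ℂ P V'
  maps : ∀ w ∈ V', P w ∈ V
  sec : ∀ z₀ ∈ V, ∃ ε > 0, ball z₀ ε ⊆ V ∧ ∃ (ι : Type) (s : ι → ℂ → ℂ),
    (∀ i, DifferentiableOn ℂ (s i) (ball z₀ ε)) ∧
    ∀ z ∈ ball z₀ ε, BijOn (fun i => s i z) univ {w | w ∈ V' ∧ P w = z}
  holoF : DifferentiableOn ℂ F V'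
  sum_one : ∀ z ∈ V, HasSum (fun w : {w // w ∈ V' ∧ P w = z} => F w) 1
  sum_le : ∀ z ∈ V, ∀ t : Finset {w // w ∈ V' ∧ P w = z}, ∑ w ∈ t, ‖F w‖ ≤ B

end Pool.Agent.Work.MP_2cf110_an.Hyp

end
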