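import Pool.Agent.Work.MP_2cf110_an.Defs

/-! # Definitions: functions of the form S ∘ Φ and the classes which they generate -/

open MeasureTheory Set Metric
open scoped ContDiff

namespace Pool.Agent.Work.MP_2cf110_an

/-- `s` is of the form `S ∘ Φ` on `W`, where `Φ` maps `W` analytically and injectively into the
unit disc and `S` is an arbitrary bounded analytic function on the unit disc -/
def HypFn (W : Set ℂ) (s : ℂ → ℂ) : Prop :=
  ∃ Φ S : ℂ → ℂ, DifferentiableOn ℂ Φ W ∧ InjOn Φ W ∧ (∀ z ∈ W, ‖Φ z‖ < 1) ∧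
    Hinf (ball 0 1) S ∧ ∀ z ∈ W, s z = S (Φ z)

/-- `GenH W h` is the smallest class of functions on `W` which contains all functions as in
`Coord`, `Tame` or `HypFn` on `W` and all `S ∘ h` with `S` analytic near the closure of `h(W)`,
and which is closed under sums, products, inverses of functions bounded away from `0` on `W`, and
uniform limits on `W` -/
inductive GenH (W : Set ℂ) (h : ℂ → ℂ) : (ℂ → ℂ) → Prop
  | coord (s : ℂ → ℂ) : Coord W s → GenH W h s
  | tame (s : ℂ → ℂ) : Tame W s → GenH W h s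
  | hyp (s : ℂ → ℂ) : HypFn W s → GenH W h s
  | comp (S : ℂ → ℂ) (N : Set ℂ) : IsOpen N → closure (h '' W) ⊆ N → DifferentiableOn ℂ S N →
      GenH W h (fun z => S (h z))
  | add (f g : ℂ → ℂ) : GenH W h f → GenH W h g → GenH W h (fun z => f z + g z)
  | mul (f g : ℂ → ℂ) : GenH W h f → GenH W h g → GenH W h (fun z => f z * g z)
  | inv (f : ℂ → ℂ) (ε : ℝ) : 0 < ε → (∀ z ∈ W, ε ≤ ‖f z‖) → GenH W h f →
      GenH W h (fun z => (f z)⁻¹)
  | lim (f : ℂ → ℂ) (F : ℕ → ℂ → ℂ) : (∀ k, GenH W h (F k)) →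
      TendstoUniformlyOn F f Filter.atTop W → GenH W h f

theorem HypFn.hinf {W : Set ℂ} {s : ℂ → ℂ} (h : HypFn W s) : Hinf W s := by
  obtain ⟨Φ, S, hΦ, -, hΦ1, ⟨hS, M, hM⟩, hs⟩ := h
  refine ⟨?_, M, fun z hz => ?_⟩
  · have h1 : DifferentiableOn ℂ (fun z => S (Φ z)) W :=
      hS.comp hΦ (fun z hz => by simpa using hΦ1 z hz)
    exact h1.congr hs
  · rw [hs z hz]
    exact hM _ (by simpa using hΦ1 z hz)

theorem HypFn.mono {W W' : Set ℂ} {s : ℂ → ℂ} (h : HypFn W s) (hs : W' ⊆ W) : HypFn W' s := by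
  obtain ⟨Φ, S, hΦ, hi, hΦ1, hS, hs'⟩ := h
  exact ⟨Φ, S, hΦ.mono hs, hi.mono hs, fun z hz => hΦ1 z (hs hz), hS, fun z hz => hs' z (hs hz)⟩

end Pool.Agent.Work.MP_2cf110_an
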