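import Pool.Agent.Work.MP_2cf110_an.One
import Pool.Agent.Work.MP_2cf110_an.Hyp.ChrL

/-! # One arbitrary function, tame functions and functions S ∘ Φ (adapted from MP_2cf110_an/One) -/

open MeasureTheory Set Metric Topology

namespace Pool.Agent.Work.MP_2cf110_an

/-- the functions along which characters can be localised: tame functions and functions `S ∘ Φ` -/
def TH (W : Set ℂ) (s : ℂ → ℂ) : Prop := Tame W s ∨ HypFn W s

theorem TH.hinf {W : Set ℂ} {s : ℂ → ℂ} (h : TH W s) : Hinf W s := by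
  rcases h with h | h
  exacts [h.1, h.hinf]

theorem TH.mono {W W' : Set ℂ} {s : ℂ → ℂ} (h : TH W s) (hs : W' ⊆ W) : TH W' s := by
  rcases h with h | h
  exacts [Or.inl (h.mono hs), Or.inr (h.mono hs)]

theorem Chr.localizeTH {W : Set ℂ} (χ : Chr W) (hW : IsOpen W) {s : ℂ → ℂ} (hs : TH W s)
    {t : ℝ} (ht : 0 < t) :
    ∃ χ' : Chr {z ∈ W | ‖s z - χ.φ s‖ < t}, ∀ f, Hinf W f → χ'.φ f = χ.φ f := by
  rcases hs with hs | hs
  exacts [χ.localize hW hs ht, χ.localize_hyp hW hs ht]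

/-- successive localisation along finitely many functions -/
theorem Chr.localize_listH (L : List (ℂ → ℂ)) : ∀ {W : Set ℂ} (χ : Chr W), IsOpen W →
    (∀ s ∈ L, TH W s) → ∀ t > 0, ∃ W' ⊆ W, IsOpen W' ∧ ∃ χ' : Chr W',
      (∀ f, Hinf W f → χ'.φ f = χ.φ f) ∧ ∀ s ∈ L, ∀ z ∈ W', ‖s z - χ.φ s‖ < t := by
  induction L with
  | nil =>
    intro W χ hW _ t _
    exact ⟨W, subset_rfl, hW, χ, fun _ _ => rfl, fun s hs => by simp at hs⟩
  | cons s L ih =>
    intro W χ hW hL t ht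
    have hs : TH W s := hL s (by simp)
    obtain ⟨χ1, h1⟩ := χ.localizeTH hW hs ht
    have hO := isOpen_sub hW hs.hinf.1 (χ.φ s) t
    have hsub : {z ∈ W | ‖s z - χ.φ s‖ < t} ⊆ W := fun z hz => hz.1
    obtain ⟨W', hW', hO', χ2, h2, h3⟩ := ih χ1 hO
      (fun s' hs' => (hL s' (by simp [hs'])).mono hsub) t ht
    refine ⟨W', hW'.trans hsub, hO', χ2, fun f hf => ?_, fun s' hs' z hz => ?_⟩
    · rw [h2 f (hf.mono hsub), h1 f hf]
    · rcases List.mem_cons.1 hs' with rfl | hs''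
      · exact (hW' hz).2
      · have h4 := h3 s' hs'' z hz
        rwa [h1 s' (hL s' (by simp [hs''])).hinf] at h4

/-- `f` is controlled by `h` and by finitely many functions as in `TH` -/
def CtlH {W : Set ℂ} (χ : Chr W) (h f : ℂ → ℂ) : Prop :=
  Hinf W f ∧ ∀ ε > 0, ∃ L : List (ℂ → ℂ), (∀ s ∈ L, TH W s) ∧ ∃ t > 0, ∀ z ∈ W,
    (∀ s ∈ L, ‖s z - χ.φ s‖ < t) → ‖h z - χ.φ h‖ < t → ‖f z - χ.φ f‖ < ε

theorem CtlH.comp {W : Set ℂ} (hW : IsOpen W) {χ : Chr W} {h : ℂ → ℂ} (hh : Hinf W h)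
    {S : ℂ → ℂ} {N : Set ℂ} (hN : IsOpen N) (hcl : closure (h '' W) ⊆ N)
    (hS : DifferentiableOn ℂ S N) : CtlH χ h (fun z => S (h z)) := by
  set c : ℂ := χ.φ h with hc
  have hcK : c ∈ closure (h '' W) := χ.mem_closure' hh
  have hcN : N ∈ 𝓝 c := hN.mem_nhds (hcl hcK)
  have hK : IsCompact (closure (h '' W)) := by
    obtain ⟨_, M, hM⟩ := hh
    refine Metric.isCompact_of_isClosed_isBounded isClosed_closure (Bornology.IsBounded.closure ?_)
    refine (isBounded_closedBall (x := (0 : ℂ)) (r := M)).subset ?_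
    rintro _ ⟨z, hz, rfl⟩
    rw [mem_closedBall, dist_zero_right]
    exact hM z hz
  have hmem : ∀ z ∈ W, h z ∈ closure (h '' W) := fun z hz => subset_closure (mem_image_of_mem _ hz)
  have hbd : ∀ {U : ℂ → ℂ}, DifferentiableOn ℂ U N → Hinf W (fun z => U (h z)) := by
    intro U hU
    obtain ⟨C, hC⟩ := hK.exists_bound_of_continuousOn (hU.continuousOn.mono hcl)
    exact ⟨hU.comp hh.1 (fun z hz => hcl (hmem z hz)), C, fun z hz => hC _ (hmem z hz)⟩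
  have hSH := hbd hS
  have hT : DifferentiableOn ℂ (dslope S c) N := (Complex.differentiableOn_dslope hcN).2 hS
  have hTH := hbd hT
  have h1 : χ.φ (fun z => S (h z) - S c) = 0 := by
    refine χ.eq_zero_of_dvd hW hh (a := 1) one_pos (hSH.sub_const _)
      (T := fun z => dslope S c (h z)) (hTH.mono fun z hz => hz.1) ?_
    intro z _ _
    have h2 := sub_smul_dslope S c (h z)
    rw [smul_eq_mul] at h2
    exact h2.symm
  rw [χ.sub_const hSH, sub_eq_zero] at h1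
  refine ⟨hSH, fun ε hε => ⟨[], by simp, ?_⟩⟩
  have hSc : ContinuousAt S c := hS.continuousOn.continuousAt hcN
  obtain ⟨t, ht, h2⟩ := Metric.continuousAt_iff.1 hSc ε hε
  refine ⟨t, ht, fun z _ _ hz => ?_⟩
  rw [h1, ← dist_eq_norm]
  refine h2 ?_
  rw [dist_eq_norm]
  exact hz

theorem CtlH.add {W : Set ℂ} {χ : Chr W} {h f g : ℂ → ℂ} (hf : CtlH χ h f) (hg : CtlH χ h g) :
    CtlH χ h (fun z => f z + g z) := by
  obtain ⟨hfH, hf⟩ := hf
  obtain ⟨hgH, hg⟩ := hg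
  refine ⟨hfH.add hgH, fun ε hε => ?_⟩
  obtain ⟨L1, hL1, t1, ht1, h1⟩ := hf (ε / 2) (by linarith)
  obtain ⟨L2, hL2, t2, ht2, h2⟩ := hg (ε / 2) (by linarith)
  refine ⟨L1 ++ L2, ?_, min t1 t2, lt_min ht1 ht2, fun z hz hL hh => ?_⟩
  · intro s hs
    rcases List.mem_append.1 hs with hs | hs
    exacts [hL1 s hs, hL2 s hs]
  have e1 := h1 z hz (fun s hs => (hL s (by simp [hs])).trans_le (min_le_left _ _))
    (hh.trans_le (min_le_left _ _))
  have e2 := h2 z hz (fun s hs => (hL s (by simp [hs])).trans_le (min_le_right _ _))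
    (hh.trans_le (min_le_right _ _))
  rw [χ.add _ _ hfH hgH]
  calc ‖f z + g z - (χ.φ f + χ.φ g)‖ = ‖(f z - χ.φ f) + (g z - χ.φ g)‖ := by congr 1; ring
    _ ≤ ‖f z - χ.φ f‖ + ‖g z - χ.φ g‖ := norm_add_le _ _
    _ < ε := by linarith

theorem CtlH.mul {W : Set ℂ} {χ : Chr W} {h f g : ℂ → ℂ} (hf : CtlH χ h f) (hg : CtlH χ h g) :
    CtlH χ h (fun z => f z * g z) := by
  obtain ⟨hfH, hf⟩ := hf
  obtain ⟨hgH, hg⟩ := hg
  refine ⟨hfH.mul hgH, fun ε hε => ?_⟩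
  obtain ⟨M, hM⟩ := hgH.2
  set M' : ℝ := max M 0 + 1 with hM'
  have hM'0 : 0 < M' := by have := le_max_right M 0; linarith
  set N : ℝ := ‖χ.φ f‖ + 1 with hN
  have hN0 : 0 < N := by have := norm_nonneg (χ.φ f); linarith
  obtain ⟨L1, hL1, t1, ht1, h1⟩ := hf (ε / (2 * M')) (by positivity)
  obtain ⟨L2, hL2, t2, ht2, h2⟩ := hg (ε / (2 * N)) (by positivity)
  refine ⟨L1 ++ L2, ?_, min t1 t2, lt_min ht1 ht2, fun z hz hL hh => ?_⟩
  · intro s hs
    rcases List.mem_append.1 hs with hs | hs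
    exacts [hL1 s hs, hL2 s hs]
  have e1 := h1 z hz (fun s hs => (hL s (by simp [hs])).trans_le (min_le_left _ _))
    (hh.trans_le (min_le_left _ _))
  have e2 := h2 z hz (fun s hs => (hL s (by simp [hs])).trans_le (min_le_right _ _))
    (hh.trans_le (min_le_right _ _))
  have hgz : ‖g z‖ ≤ M' := by
    have := hM z hz
    have := le_max_left M 0
    linarith
  rw [χ.mul _ _ hfH hgH]
  have e3 : ‖f z - χ.φ f‖ * ‖g z‖ ≤ ε / 2 := by
    calc ‖f z - χ.φ f‖ * ‖g z‖ ≤ ε / (2 * M') * M' :=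
          mul_le_mul e1.le hgz (norm_nonneg _) (by positivity)
      _ = ε / 2 := by field_simp
  have e4 : ‖χ.φ f‖ * ‖g z - χ.φ g‖ < ε / 2 := by
    calc ‖χ.φ f‖ * ‖g z - χ.φ g‖ ≤ ‖χ.φ f‖ * (ε / (2 * N)) :=
          mul_le_mul_of_nonneg_left e2.le (norm_nonneg _)
      _ < N * (ε / (2 * N)) := by
          refine mul_lt_mul_of_pos_right ?_ (by positivity)
          linarith
      _ = ε / 2 := by field_simp
  calc ‖f z * g z - χ.φ f * χ.φ g‖
      = ‖(f z - χ.φ f) * g z + χ.φ f * (g z - χ.φ g)‖ := by congr 1; ring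
    _ ≤ ‖(f z - χ.φ f) * g z‖ + ‖χ.φ f * (g z - χ.φ g)‖ := norm_add_le _ _
    _ = ‖f z - χ.φ f‖ * ‖g z‖ + ‖χ.φ f‖ * ‖g z - χ.φ g‖ := by rw [norm_mul, norm_mul]
    _ < ε := by linarith

theorem CtlH.inv {W : Set ℂ} {χ : Chr W} {h f : ℂ → ℂ} {c : ℝ} (hc : 0 < c)
    (hfc : ∀ z ∈ W, c ≤ ‖f z‖) (hf : CtlH χ h f) : CtlH χ h (fun z => (f z)⁻¹) := by
  obtain ⟨hfH, hf⟩ := hf
  have hi := hfH.inv hc hfc
  have h0 : ∀ z ∈ W, f z ≠ 0 := by
    intro z hz h0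
    have := hfc z hz
    rw [h0, norm_zero] at this
    linarith
  have h1 : χ.φ f * χ.φ (fun z => (f z)⁻¹) = 1 := by
    rw [← χ.mul _ _ hfH hi, ← χ.const 1]
    exact χ.congr _ _ (hfH.mul hi) (Hinf.const 1) (fun z hz => mul_inv_cancel₀ (h0 z hz))
  have h2 : χ.φ f ≠ 0 := left_ne_zero_of_mul_eq_one h1
  have h3 : χ.φ (fun z => (f z)⁻¹) = (χ.φ f)⁻¹ := eq_inv_of_mul_eq_one_right h1
  have h4 : c ≤ ‖χ.φ f‖ := by
    have h5 : ‖χ.φ (fun z => (f z)⁻¹)‖ ≤ c⁻¹ := by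
      refine χ.norm_le hi fun z hz => ?_
      rw [norm_inv]
      exact inv_anti₀ hc (hfc z hz)
    rw [h3, norm_inv] at h5
    exact (inv_le_inv₀ (norm_pos_iff.2 h2) hc).1 h5
  refine ⟨hi, fun ε hε => ?_⟩
  obtain ⟨L, hL, t, ht, h6⟩ := hf (ε * c ^ 2) (by positivity)
  refine ⟨L, hL, t, ht, fun z hz hLz hz2 => ?_⟩
  have h7 := h6 z hz hLz hz2
  rw [h3]
  have h8 : (f z)⁻¹ - (χ.φ f)⁻¹ = (χ.φ f - f z) * ((f z)⁻¹ * (χ.φ f)⁻¹) := by
    have := h0 z hz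
    field_simp
  rw [h8, norm_mul, norm_mul, norm_inv, norm_inv, norm_sub_rev]
  have h9 : ‖f z‖⁻¹ * ‖χ.φ f‖⁻¹ ≤ c⁻¹ * c⁻¹ :=
    mul_le_mul (inv_anti₀ hc (hfc z hz)) (inv_anti₀ hc h4) (by positivity) (by positivity)
  calc ‖f z - χ.φ f‖ * (‖f z‖⁻¹ * ‖χ.φ f‖⁻¹) ≤ ‖f z - χ.φ f‖ * (c⁻¹ * c⁻¹) :=
        mul_le_mul_of_nonneg_left h9 (norm_nonneg _)
    _ < ε * c ^ 2 * (c⁻¹ * c⁻¹) := mul_lt_mul_of_pos_right h7 (by positivity)
    _ = ε := by field_simp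

theorem CtlH.lim {W : Set ℂ} (hW : IsOpen W) {χ : Chr W} {h f : ℂ → ℂ} {F : ℕ → ℂ → ℂ}
    (hF : ∀ k, CtlH χ h (F k)) (hlim : TendstoUniformlyOn F f Filter.atTop W) : CtlH χ h f := by
  have hlim' := Metric.tendstoUniformlyOn_iff.1 hlim
  have hfH : Hinf W f := by
    constructor
    · exact hlim.tendstoLocallyUniformlyOn.differentiableOn
        (Filter.Eventually.of_forall fun k => (hF k).1.1) hW
    · obtain ⟨k, hk⟩ := (hlim' 1 one_pos).exists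
      obtain ⟨M, hM⟩ := (hF k).1.2
      refine ⟨1 + M, fun z hz => ?_⟩
      have h1 := hk z hz
      rw [dist_eq_norm] at h1
      calc ‖f z‖ = ‖(f z - F k z) + F k z‖ := by congr 1; ring
        _ ≤ ‖f z - F k z‖ + ‖F k z‖ := norm_add_le _ _
        _ ≤ 1 + M := by linarith [hM z hz]
  refine ⟨hfH, fun ε hε => ?_⟩
  obtain ⟨k, hk⟩ := (hlim' (ε / 3) (by linarith)).exists
  obtain ⟨L, hL, t, ht, h1⟩ := (hF k).2 (ε / 3) (by linarith)
  refine ⟨L, hL, t, ht, fun z hz hLz hz2 => ?_⟩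
  have h2 := h1 z hz hLz hz2
  have h3 := hk z hz
  rw [dist_eq_norm] at h3
  have h4 : ‖χ.φ (F k) - χ.φ f‖ ≤ ε / 3 := by
    rw [← χ.sub (hF k).1 hfH]
    refine χ.norm_le ((hF k).1.sub hfH) fun w hw => ?_
    rw [norm_sub_rev, ← dist_eq_norm]
    exact (hk w hw).le
  calc ‖f z - χ.φ f‖ = ‖(f z - F k z) + (F k z - χ.φ (F k)) + (χ.φ (F k) - χ.φ f)‖ := by
        congr 1; ring
    _ ≤ ‖f z - F k z‖ + ‖F k z - χ.φ (F k)‖ + ‖χ.φ (F k) - χ.φ f‖ := norm_add₃_le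
    _ < ε := by linarith

theorem GenH.ctl {W : Set ℂ} (hW : IsOpen W) {h : ℂ → ℂ} (hh : Hinf W h) (χ : Chr W)
    {f : ℂ → ℂ} (hf : GenH W h f) : CtlH χ h f := by
  have htame : ∀ s, TH W s → CtlH χ h s := fun s hs =>
    ⟨hs.hinf, fun ε hε => ⟨[s], by simpa using hs, ε, hε, fun z _ hL _ => hL s (by simp)⟩⟩
  induction hf with
  | coord s hs =>
    obtain ⟨hsH, Φ, F, hΦ, hinj, hF, hsF, hcase⟩ := hs
    exact htame s (Or.inl (tame_of_coordinate hW hsH hΦ hinj hF hsF hcase))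
  | tame s hs => exact htame s (Or.inl hs)
  | hyp s hs => exact htame s (Or.inr hs)
  | comp S N hN hcl hS => exact CtlH.comp hW hh hN hcl hS
  | add f g _ _ ihf ihg => exact ihf.add ihg
  | mul f g _ _ ihf ihg => exact ihf.mul ihg
  | inv f c hc hfc _ ih => exact CtlH.inv hc hfc ih
  | lim f F _ hlim ih => exact CtlH.lim hW ih hlim

/-- a character and finitely many functions controlled by one function and functions as in `TH` -/
theorem exists_nearH {W : Set ℂ} (hW : IsOpen W) {h : ℂ → ℂ} (hh : Hinf W h) (χ : Chr W) {n : ℕ}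
    {f : Fin n → ℂ → ℂ} (hf : ∀ j, GenH W h (f j)) {ε : ℝ} (hε : 0 < ε) :
    ∃ z ∈ W, ∀ j, ‖f j z - χ.φ (f j)‖ < ε := by
  choose L hL t ht hLt using fun j => ((hf j).ctl hW hh χ).2 ε hε
  obtain ⟨t0, ht0, ht0j⟩ : ∃ t0 > 0, ∀ j, t0 < t j := by
    have h1 : ∀ᶠ u in 𝓝[>] (0 : ℝ), ∀ j, u < t j := by
      rw [Filter.eventually_all]
      intro j
      exact nhdsWithin_le_nhds (gt_mem_nhds (ht j))
    have h2 : ∀ᶠ u in 𝓝[>] (0 : ℝ), 0 < u := eventually_mem_nhdsWithin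
    obtain ⟨u, hu1, hu2⟩ := (h1.and h2).exists
    exact ⟨u, hu2, hu1⟩
  set L' : List (ℂ → ℂ) := (List.finRange n).flatMap L with hL'
  have hL't : ∀ s ∈ L', TH W s := by
    intro s hs
    rw [hL', List.mem_flatMap] at hs
    obtain ⟨j, _, hs⟩ := hs
    exact hL j s hs
  obtain ⟨W', hW', -, χ2, hχ2, hclose⟩ := Chr.localize_listH L' χ hW hL't t0 ht0
  obtain ⟨z, hz, hzh⟩ := χ2.mem_closure (hh.mono hW') t0 ht0
  rw [hχ2 h hh] at hzh
  refine ⟨z, hW' hz, fun j => ?_⟩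
  refine hLt j z (hW' hz) (fun s hs => (hclose s ?_ z hz).trans (ht0j j)) (hzh.trans (ht0j j))
  rw [hL', List.mem_flatMap]
  exact ⟨j, List.mem_finRange j, hs⟩

/-- the corona theorem for functions which near every boundary point are generated by one
arbitrary function, by tame functions and by functions `S ∘ Φ` -/
theorem bez_of_genH {V : Set ℂ} (hV : IsOpen V) (hb : Bornology.IsBounded V) {n : ℕ}
    {f : Fin n → ℂ → ℂ} {δ : ℝ} (hδ : 0 < δ) (hf : ∀ j, Hinf V (f j))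
    (hfδ : ∀ z ∈ V, ∃ j, δ ≤ ‖f j z‖)
    (hloc : ∀ c ∈ frontier V, ∃ r > 0, ∃ h, Hinf (V ∩ ball c r) h ∧
      ∀ j, GenH (V ∩ ball c r) h (f j)) : Bez V f := by
  by_contra hcon
  obtain ⟨χ, hχ⟩ := exists_chr hV hf hcon
  have hid := tame_id hV hb
  set c : ℂ := χ.φ (fun z => z) with hc
  -- the point `c` is in the closure of `V`
  have hcl : c ∈ closure V := by
    have h1 := χ.mem_closure' hid.1
    rwa [image_id'] at h1
  have hloc' : ∃ r > 0, ∃ h, Hinf (V ∩ ball c r) h ∧ ∀ j, GenH (V ∩ ball c r) h (f j) := by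
    by_cases hcV : c ∈ V
    · obtain ⟨r, hr, hrV⟩ := Metric.nhds_basis_closedBall.mem_iff.1 (hV.mem_nhds hcV)
      refine ⟨r, hr, fun _ => 0, Hinf.const 0, fun j => GenH.tame _ ?_⟩
      have hsub : V ∩ ball c r ⊆ closedBall c r := fun z hz => ball_subset_closedBall hz.2
      refine tame_of_uc (hV.inter isOpen_ball) (hb.subset inter_subset_left)
        ((hf j).mono inter_subset_left) ?_
      exact ((isCompact_closedBall c r).uniformContinuousOn_of_continuous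
        ((hf j).1.continuousOn.mono hrV)).mono hsub
    · refine hloc c ?_
      rw [frontier, hV.interior_eq]
      exact ⟨hcl, hcV⟩
  obtain ⟨r, hr, h, hh, hgen⟩ := hloc'
  -- localise to the disc
  have hW : {z ∈ V | ‖z - χ.φ (fun z => z)‖ < r} = V ∩ ball c r := by
    ext z
    simp only [mem_ofPred_eq, mem_inter_iff, mem_ball, dist_eq_norm, hc]
  obtain ⟨χ1, hχ1⟩ : ∃ χ1 : Chr (V ∩ ball c r), ∀ f, Hinf V f → χ1.φ f = χ.φ f := by
    rw [← hW]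
    exact χ.localize hV hid hr
  obtain ⟨z, hz, hzj⟩ := exists_nearH (hV.inter isOpen_ball) hh χ1 hgen hδ
  obtain ⟨j, hj⟩ := hfδ z hz.1
  have h1 := hzj j
  rw [hχ1 _ (hf j), hχ j, sub_zero] at h1
  exact absurd hj (not_le.2 h1)

end Pool.Agent.Work.MP_2cf110_an
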