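import Pool.Agent.Work.MP_2cf110_an.Hyp.GrDef

/-! # The grid: one dimension

smoothTransition is 0 for t ≤ 0, 1 for t ≥ 1, monotone.  chi: in case ≠ 0, |log y/τ - i.1| < 1 and |x/(τ e^{τ i.1}) - i.2| < 1, so with
Y = e^{τ i.1}: |y - Y| ≤ Y (e^τ - 1) ≤ 2 τ Y and |x - τ i.2 Y| < τ Y; total < 4 τ Y = s Y. -/

open MeasureTheory Complex Set Metric Filter
open scoped Topology ContDiff ComplexConjugate

noncomputable section

namespace Pool.Agent.Work.MP_2cf110_an.Hyp

open QC (dz dzb Test Cau)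

theorem th_facts : ContDiff ℝ ∞ th ∧ (∀ t, 0 ≤ th t ∧ th t ≤ 1) ∧ (∀ t, th t ≠ 0 → |t| < 1) ∧
    (∀ t : ℝ, th (t - ⌊t⌋) + th (t - (⌊t⌋ + 1 : ℤ)) = 1) ∧ ∃ C : ℝ, 0 < C ∧ ∀ t, |deriv th t| ≤ C := by
  have hsm : ContDiff ℝ ∞ th := by
    have h1 : ContDiff ℝ ∞ (fun t : ℝ => Real.smoothTransition (t + 1)) :=
      Real.smoothTransition.contDiff.comp (contDiff_id.add contDiff_const)
    exact h1.sub Real.smoothTransition.contDiff
  have hsupp : ∀ t, th t ≠ 0 → |t| < 1 := by
    intro t ht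
    by_contra hc
    rw [not_lt, le_abs] at hc
    apply ht
    rcases hc with hc | hc
    · unfold th
      rw [Real.smoothTransition.one_of_one_le (by linarith),
        Real.smoothTransition.one_of_one_le hc, sub_self]
    · unfold th
      rw [Real.smoothTransition.zero_of_nonpos (by linarith),
        Real.smoothTransition.zero_of_nonpos (by linarith), sub_self]
  refine ⟨hsm, fun t => ⟨?_, ?_⟩, hsupp, fun t => ?_, ?_⟩
  · unfold th
    have := Real.smoothTransition.monotone (show t ≤ t + 1 by linarith)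
    linarith
  · unfold th
    have h1 := Real.smoothTransition.le_one (t + 1)
    have h2 := Real.smoothTransition.nonneg t
    linarith
  · have h0 : 0 ≤ t - ⌊t⌋ := by linarith [Int.floor_le t]
    have h1 : t - ⌊t⌋ < 1 := by linarith [Int.lt_floor_add_one t]
    unfold th
    push_cast
    rw [Real.smoothTransition.one_of_one_le (show 1 ≤ t - ⌊t⌋ + 1 by linarith),
      Real.smoothTransition.zero_of_nonpos (show t - ((⌊t⌋ : ℝ) + 1) ≤ 0 by linarith)]
    rw [show t - ((⌊t⌋ : ℝ) + 1) + 1 = t - ⌊t⌋ by ring]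
    ring
  · have hc : HasCompactSupport th := by
      apply HasCompactSupport.of_support_subset_isCompact (isCompact_Icc (a := (-1 : ℝ)) (b := 1))
      intro t ht
      have := abs_lt.1 (hsupp t ht)
      exact ⟨this.1.le, this.2.le⟩
    have hd : Continuous (deriv th) := hsm.continuous_deriv (by simp)
    obtain ⟨C, hC⟩ := hd.bounded_above_of_compact_support hc.deriv
    refine ⟨|C| + 1, by positivity, fun t => ?_⟩
    have := hC t
    rw [Real.norm_eq_abs] at this
    linarith [le_abs_self C]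

private theorem grA_ctr_re (τ : ℝ) (i : ℤ × ℤ) :
    (ctr τ i).re = Real.exp (τ * i.1) * (τ * i.2) := by
  unfold ctr
  rw [Complex.mul_re, Complex.ofReal_re, Complex.ofReal_im]
  simp

private theorem grA_ctr_im (τ : ℝ) (i : ℤ × ℤ) : (ctr τ i).im = Real.exp (τ * i.1) := by
  unfold ctr
  rw [Complex.mul_im, Complex.ofReal_re, Complex.ofReal_im]
  simp

theorem chi_supp {s : ℝ} (hs : 0 < s) (hs1 : s ≤ 1 / 64) {i : ℤ × ℤ} {z : ℂ} (hz : z ∈ Hp)
    (h : chi (s / 4) i z ≠ 0) : z ∈ ball (ctr (s / 4) i) (s * (ctr (s / 4) i).im) := by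
  obtain ⟨-, -, hsupp, -, -⟩ := th_facts
  unfold chi at h
  have hy : 0 < z.im := hz
  have hA := hsupp _ (left_ne_zero_of_mul h)
  have hB := hsupp _ (right_ne_zero_of_mul h)
  have hτ : 0 < s / 4 := by positivity
  have hτ1 : s / 4 ≤ 1 := by linarith
  set τ := s / 4 with hτdef
  set Y := Real.exp (τ * i.1) with hY
  have hYpos : 0 < Y := Real.exp_pos _
  rw [mem_ball, dist_eq_norm]
  have hle := Complex.norm_le_abs_re_add_abs_im (z - ctr τ i)
  rw [Complex.sub_re, Complex.sub_im, grA_ctr_re, grA_ctr_im] at hle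
  have h1 : |z.re - Y * (τ * i.2)| < τ * Y := by
    have e : z.re - Y * (τ * i.2) = (τ * Y) * (z.re / (τ * Y) - i.2) := by
      field_simp
    rw [e, abs_mul, abs_of_pos (by positivity : 0 < τ * Y)]
    calc τ * Y * |z.re / (τ * Y) - i.2| < τ * Y * 1 := by
          apply mul_lt_mul_of_pos_left hB (by positivity)
      _ = τ * Y := mul_one _
  have h2 : |z.im - Y| ≤ 2 * τ * Y := by
    set u := Real.log z.im / τ - i.1 with hu
    have e1 : Real.log z.im = τ * i.1 + τ * u := by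
      rw [hu]; field_simp; ring
    have e2 : z.im = Y * Real.exp (τ * u) := by
      rw [hY, ← Real.exp_add, ← e1, Real.exp_log hy]
    have hu1 : |τ * u| ≤ τ := by
      rw [abs_mul, abs_of_pos hτ]
      calc τ * |u| ≤ τ * 1 := by gcongr
        _ = τ := mul_one _
    have h3 := Real.abs_exp_sub_one_le (hu1.trans hτ1)
    have e3 : z.im - Y = Y * (Real.exp (τ * u) - 1) := by rw [e2]; ring
    rw [e3, abs_mul, abs_of_pos hYpos]
    calc Y * |Real.exp (τ * u) - 1| ≤ Y * (2 * |τ * u|) := by gcongr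
      _ ≤ Y * (2 * τ) := by gcongr
      _ = 2 * τ * Y := by ring
  have e4 : s * (ctr τ i).im = 4 * τ * Y := by
    rw [grA_ctr_im, hτdef]; ring
  rw [e4]
  have : 0 < τ * Y := by positivity
  linarith

private theorem grA_floor {t : ℝ} {a : ℤ} (h : th (t - a) ≠ 0) : a = ⌊t⌋ ∨ a = ⌊t⌋ + 1 := by
  obtain ⟨-, -, hsupp, -, -⟩ := th_facts
  have h1 := abs_lt.1 (hsupp _ h)
  by_cases hc : (a : ℝ) ≤ t
  · left
    symm
    rw [Int.floor_eq_iff]
    exact ⟨hc, by linarith [h1.2]⟩
  · right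
    rw [not_le] at hc
    have : ⌊t⌋ = a - 1 := by
      rw [Int.floor_eq_iff]
      push_cast
      exact ⟨by linarith [h1.1], by linarith⟩
    rw [this]; ring

private theorem grA_sum (t : ℝ) (J : Finset ℤ) (h0 : ⌊t⌋ ∈ J) (h1 : ⌊t⌋ + 1 ∈ J) :
    ∑ a ∈ J, th (t - a) = 1 := by
  obtain ⟨-, -, -, hsum, -⟩ := th_facts
  have hsub : ({⌊t⌋, ⌊t⌋ + 1} : Finset ℤ) ⊆ J := by
    intro a ha
    rw [Finset.mem_insert, Finset.mem_singleton] at ha
    rcases ha with rfl | rfl
    · exact h0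
    · exact h1
  rw [← Finset.sum_subset hsub, Finset.sum_pair (by omega)]
  · exact_mod_cast hsum t
  · intro a _ ha
    by_contra hc
    apply ha
    rw [Finset.mem_insert, Finset.mem_singleton]
    exact grA_floor hc

theorem chi_sum {τ : ℝ} (hτ : 0 < τ) {z : ℂ} (hz : z ∈ Hp) (I : Finset (ℤ × ℤ))
    (hI : ∀ i, chi τ i z ≠ 0 → i ∈ I) : ∑ i ∈ I, chi τ i z = 1 := by
  classical
  set t : ℝ := Real.log z.im / τ with ht
  set T : ℤ → ℝ := fun a => z.re / (τ * Real.exp (τ * a)) with hT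
  set A : Finset ℤ := I.image Prod.fst ∪ {⌊t⌋, ⌊t⌋ + 1} with hA
  set B : Finset ℤ := I.image Prod.snd ∪ (A.image (fun a => ⌊T a⌋) ∪ A.image (fun a => ⌊T a⌋ + 1))
    with hB
  have hsub : I ⊆ A ×ˢ B := by
    intro i hi
    rw [Finset.mem_product]
    exact ⟨Finset.mem_union_left _ (Finset.mem_image_of_mem _ hi),
      Finset.mem_union_left _ (Finset.mem_image_of_mem _ hi)⟩
  rw [Finset.sum_subset hsub (fun i _ hi => by
    by_contra hc
    exact hi (hI i hc)), Finset.sum_product]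
  have h1 : ∀ a ∈ A, ∑ b ∈ B, chi τ (a, b) z = th (t - a) := by
    intro a ha
    have h2 : ∑ b ∈ B, th (T a - b) = 1 := by
      apply grA_sum
      · exact Finset.mem_union_right _ (Finset.mem_union_left _ (Finset.mem_image_of_mem _ ha))
      · apply Finset.mem_union_right _ (Finset.mem_union_right _ _)
        exact Finset.mem_image.2 ⟨a, ha, rfl⟩
    have h3 : ∑ b ∈ B, chi τ (a, b) z = th (t - a) * ∑ b ∈ B, th (T a - b) := by
      rw [Finset.mul_sum]
      rfl
    rw [h3, h2, mul_one]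
  rw [Finset.sum_congr rfl h1]
  apply grA_sum
  · exact Finset.mem_union_right _ (by simp)
  · exact Finset.mem_union_right _ (by simp)

end Pool.Agent.Work.MP_2cf110_an.Hyp

end
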