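import Pool.Agent.Work.MP_2cf110_an.Hyp.GrA

/-! # The grid: smoothness and derivative of chi

chain rule; |∇(log y/τ)| ≤ 1/(τ y); |∇(x/(τ e^{τ i.1}))| = 1/(τ e^{τ i.1}) ≤ C/y where chi or its derivative does not vanish
(y ≤ e^{τ (i.1 + 1)} on the support of the first factor; by continuity also where the derivative is nonzero). -/

open MeasureTheory Complex Set Metric Filter
open scoped Topology ContDiff ComplexConjugate

noncomputable section

namespace Pool.Agent.Work.MP_2cf110_an.Hyp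

open QC (dz dzb Test Cau)

private theorem grB_A {τ : ℝ} (i : ℤ × ℤ) {z : ℂ} (hz : z ∈ Hp) :
    HasFDerivAt (fun w : ℂ => Real.log w.im / τ - i.1) ((1 / τ) • ((z.im)⁻¹ • Complex.imCLM)) z := by
  have h1 : HasFDerivAt (fun w : ℂ => w.im) Complex.imCLM z := Complex.imCLM.hasFDerivAt
  have h2 := (h1.log (ne_of_gt hz)).const_mul (1 / τ)
  have h3 := h2.sub_const (i.1 : ℝ)
  refine h3.congr_of_eventuallyEq (Filter.Eventually.of_forall fun w => ?_)
  simp only
  ring

private theorem grB_B {τ : ℝ} (i : ℤ × ℤ) (z : ℂ) :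
    HasFDerivAt (fun w : ℂ => w.re / (τ * Real.exp (τ * i.1)) - i.2)
      ((1 / (τ * Real.exp (τ * i.1))) • Complex.reCLM) z := by
  have h1 : HasFDerivAt (fun w : ℂ => w.re) Complex.reCLM z := Complex.reCLM.hasFDerivAt
  have h2 := h1.const_mul (1 / (τ * Real.exp (τ * i.1)))
  have h3 := h2.sub_const (i.2 : ℝ)
  refine h3.congr_of_eventuallyEq (Filter.Eventually.of_forall fun w => ?_)
  simp only
  ring

theorem chi_smooth {τ : ℝ} (hτ : 0 < τ) (i : ℤ × ℤ) : ContDiffOn ℝ ∞ (chi τ i) Hp := by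
  have hth : ContDiff ℝ ∞ th := th_facts.1
  intro z hz
  apply ContDiffAt.contDiffWithinAt
  have hA : ContDiffAt ℝ ∞ (fun w : ℂ => Real.log w.im / τ - i.1) z := by
    have h1 : ContDiffAt ℝ ∞ (fun w : ℂ => w.im) z := Complex.imCLM.contDiff.contDiffAt
    exact ((h1.log (ne_of_gt hz)).div_const τ).sub contDiffAt_const
  have hB : ContDiffAt ℝ ∞ (fun w : ℂ => w.re / (τ * Real.exp (τ * i.1)) - i.2) z := by
    have h1 : ContDiffAt ℝ ∞ (fun w : ℂ => w.re) z := Complex.reCLM.contDiff.contDiffAt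
    exact (h1.div_const _).sub contDiffAt_const
  exact (hth.contDiffAt.comp z hA).mul (hth.contDiffAt.comp z hB)

theorem chi_dzb {τ : ℝ} (hτ : 0 < τ) (hτ1 : τ ≤ 1) : ∃ C : ℝ, 0 < C ∧ ∀ i, ∀ z ∈ Hp,
    0 ≤ chi τ i z ∧ chi τ i z ≤ 1 ∧ ‖dzb (fun w => (chi τ i w : ℂ)) z‖ ≤ C / z.im := by
  obtain ⟨hsm, hb, hsup, -, C, hC, hder⟩ := th_facts
  refine ⟨C / τ * (1 + Real.exp 1), by positivity, fun i z hz => ⟨?_, ?_, ?_⟩⟩
  · exact mul_nonneg (hb _).1 (hb _).1
  · exact mul_le_one₀ (hb _).2 (hb _).1 (hb _).2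
  · have hy : 0 < z.im := hz
    have hd : Differentiable ℝ th := hsm.differentiable (by simp)
    set A : ℝ := Real.log z.im / τ - i.1 with hAdef
    set Y : ℝ := Real.exp (τ * i.1) with hYdef
    set B : ℝ := z.re / (τ * Y) - i.2 with hBdef
    have hY : 0 < Y := Real.exp_pos _
    have h1 := HasDerivAt.comp_hasFDerivAt (f := fun w : ℂ => Real.log w.im / τ - i.1) z
      (hd A).hasDerivAt (grB_A (τ := τ) i hz)
    have h2 := HasDerivAt.comp_hasFDerivAt (f := fun w : ℂ => w.re / (τ * Real.exp (τ * i.1)) - i.2)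
      z (hd B).hasDerivAt (grB_B (τ := τ) i z)
    have h3 := Complex.ofRealCLM.hasFDerivAt.comp z (h1.mul h2)
    have h4 : HasFDerivAt (fun w => (chi τ i w : ℂ)) _ z := h3
    refine (QC.norm_dzb_le _ _).trans ?_
    rw [h4.fderiv]
    refine ContinuousLinearMap.opNorm_le_bound _ (by positivity) fun v => ?_
    have hre : |v.re| ≤ ‖v‖ := Complex.abs_re_le_norm v
    have him : |v.im| ≤ ‖v‖ := Complex.abs_im_le_norm v
    have key : th A * (1 / (τ * Y)) ≤ Real.exp 1 / (τ * z.im) := by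
      by_cases h0 : th A = 0
      · rw [h0, zero_mul]; positivity
      · have hA1 := (abs_lt.1 (hsup A h0)).2
        have hlog : Real.log z.im < τ * i.1 + 1 := by
          have h5 : Real.log z.im / τ < i.1 + 1 := by rw [hAdef] at hA1; linarith
          rw [div_lt_iff₀ hτ] at h5
          nlinarith
        have hyY : z.im ≤ Y * Real.exp 1 := by
          rw [hYdef, ← Real.exp_add]
          rw [Real.log_lt_iff_lt_exp hy] at hlog
          exact hlog.le
        have h6 : 1 / (τ * Y) ≤ Real.exp 1 / (τ * z.im) := by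
          rw [div_le_div_iff₀ (by positivity) (by positivity)]
          nlinarith
        calc th A * (1 / (τ * Y)) ≤ 1 * (1 / (τ * Y)) := by
              apply mul_le_mul_of_nonneg_right (hb A).2; positivity
          _ ≤ _ := by rw [one_mul]; exact h6
    have e : (Complex.ofRealCLM.comp ((th ∘ fun w : ℂ => Real.log w.im / τ - ↑i.1) z •
        deriv th B • (1 / (τ * Real.exp (τ * ↑i.1))) • Complex.reCLM +
        (th ∘ fun w : ℂ => w.re / (τ * Real.exp (τ * ↑i.1)) - ↑i.2) z •
        deriv th A • (1 / τ) • z.im⁻¹ • Complex.imCLM)) v =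
        ((th A * (deriv th B * ((1 / (τ * Y)) * v.re)) +
          th B * (deriv th A * ((1 / τ) * (z.im⁻¹ * v.im))) : ℝ) : ℂ) := rfl
    rw [e, Complex.norm_real, Real.norm_eq_abs]
    refine (abs_add_le _ _).trans ?_
    have t1 : |th A * (deriv th B * ((1 / (τ * Y)) * v.re))| ≤
        C * (Real.exp 1 / (τ * z.im)) * ‖v‖ := by
      rw [show th A * (deriv th B * ((1 / (τ * Y)) * v.re)) =
        deriv th B * (th A * (1 / (τ * Y))) * v.re by ring, abs_mul, abs_mul]
      have h7 : |th A * (1 / (τ * Y))| ≤ Real.exp 1 / (τ * z.im) := by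
        rw [abs_of_nonneg (mul_nonneg (hb A).1 (by positivity))]
        exact key
      gcongr
      exact hder B
    have t2 : |th B * (deriv th A * ((1 / τ) * (z.im⁻¹ * v.im)))| ≤
        C * (1 / (τ * z.im)) * ‖v‖ := by
      rw [show th B * (deriv th A * ((1 / τ) * (z.im⁻¹ * v.im))) =
        th B * deriv th A * (1 / (τ * z.im)) * v.im by field_simp, abs_mul, abs_mul, abs_mul]
      have h7 : |1 / (τ * z.im)| = 1 / (τ * z.im) := abs_of_nonneg (by positivity)
      have h8 : |th B| ≤ 1 := by rw [abs_of_nonneg (hb B).1]; exact (hb B).2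
      rw [h7]
      calc |th B| * |deriv th A| * (1 / (τ * z.im)) * |v.im|
          ≤ 1 * C * (1 / (τ * z.im)) * ‖v‖ := by
            gcongr
            exact hder A
        _ = _ := by ring
    calc _ ≤ C * (Real.exp 1 / (τ * z.im)) * ‖v‖ + C * (1 / (τ * z.im)) * ‖v‖ := add_le_add t1 t2
      _ = C / τ * (1 + Real.exp 1) / z.im * ‖v‖ := by
          field_simp
          ring

end Pool.Agent.Work.MP_2cf110_an.Hyp

end
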