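import Pool.Agent.Work.MP_2cf110_an.Hyp.Defs

/-! # Definitions: the grid -/

open MeasureTheory Complex Set Metric Filter
open scoped Topology ContDiff ComplexConjugate

noncomputable section

namespace Pool.Agent.Work.MP_2cf110_an.Hyp

open QC (dz dzb Test Cau)

/-- one dimensional partition of unity -/
def th (t : ℝ) : ℝ := Real.smoothTransition (t + 1) - Real.smoothTransition t

/-- the functions of the grid -/
def chi (τ : ℝ) (i : ℤ × ℤ) (z : ℂ) : ℝ :=
  th (Real.log z.im / τ - i.1) * th (z.re / (τ * Real.exp (τ * i.1)) - i.2)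

/-- the centres of the grid -/
def ctr (τ : ℝ) (i : ℤ × ℤ) : ℂ :=
  (Real.exp (τ * i.1) : ℂ) * ((τ * i.2 : ℝ) + I)

end Pool.Agent.Work.MP_2cf110_an.Hyp

end
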