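import Pool.Agent.Work.MP_2cf110_an.Hyp.Defs
import Pool.Agent.Work.MP_217185_an.CauL2b
import Pool.Agent.Work.MP_217185_an.CauB

/-! # The residue at infinity

u = (1 - φ) b is smooth on ℂ (it vanishes on ball a ρ'), dzb u = - b dzb φ =: g is a test function, u - Cau g is
entire (QC.cau_contDiff, QC.dz_cau, QC.cau_dzb, QC.holo_of_dzb) and tends to 0 at infinity, hence 0 (Liouville), and
z Cau g z → (1/π) ∫ g (QC.tendsto_mul_cau), z u z → c. -/

open MeasureTheory Complex Set Metric Filter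
open scoped Topology ContDiff ComplexConjugate

noncomputable section

namespace Pool.Agent.Work.MP_2cf110_an.Hyp

open QC (dz dzb Test Cau)

private theorem gr_radius {g : ℂ → ℂ} (hc : HasCompactSupport g) :
    ∃ R : ℝ, ∀ z, R ≤ ‖z‖ → g z = 0 := by
  obtain ⟨R₁, hR₁⟩ := hc.isCompact.isBounded.subset_closedBall 0
  refine ⟨|R₁| + 1, fun z hz => ?_⟩
  refine image_eq_zero_of_notMem_tsupport fun h => ?_
  have h1 := hR₁ h
  rw [mem_closedBall_zero_iff] at h1
  linarith [le_abs_self R₁]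

theorem green {a : ℂ} {ρ ρ' : ℝ} {b : ℂ → ℂ} {c : ℂ} (hb : DifferentiableOn ℂ b (closedBall a ρ)ᶜ)
    (hc : Tendsto (fun z => z * b z) (cocompact ℂ) (𝓝 c)) {φ : ℂ → ℂ} (hφ : Test univ φ)
    (hρ : ρ < ρ') (h1 : ∀ z ∈ ball a ρ', φ z = 1) :
    ∫ z, b z * dzb φ z = -((Real.pi : ℂ) * c) := by
  have hopen : IsOpen (closedBall a ρ)ᶜ := isClosed_closedBall.isOpen_compl
  have hcov : ∀ z, z ∈ ball a ρ' ∨ z ∈ (closedBall a ρ)ᶜ := by
    intro z
    by_cases h : dist z a ≤ ρ
    · exact Or.inl (lt_of_le_of_lt h hρ)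
    · exact Or.inr (by simpa using h)
  have hbs : ∀ z ∈ (closedBall a ρ)ᶜ, ContDiffAt ℝ ∞ b z := by
    intro z hz
    have h2 : ContDiffOn ℂ ∞ b (closedBall a ρ)ᶜ := hb.contDiffOn hopen
    exact (h2.contDiffAt (hopen.mem_nhds hz)).restrict_scalars ℝ
  have hbd : ∀ z ∈ (closedBall a ρ)ᶜ, dzb b z = 0 := fun z hz =>
    (QC.dz_of_holo (hb.differentiableAt (hopen.mem_nhds hz))).2
  have hφd : Test univ (dzb φ) := hφ.dz.2
  have hφ0 : ∀ z ∈ ball a ρ', dzb φ z = 0 := by
    intro z hz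
    have h2 : φ =ᶠ[𝓝 z] fun _ => (1 : ℂ) := by
      filter_upwards [isOpen_ball.mem_nhds hz] with w hw
      exact h1 w hw
    unfold QC.dzb
    rw [h2.fderiv_eq]
    simp
  -- the functions `u` and `g`
  obtain ⟨u, hu⟩ : ∃ u : ℂ → ℂ, u = fun z => (1 - φ z) * b z := ⟨_, rfl⟩
  obtain ⟨g, hg⟩ : ∃ g : ℂ → ℂ, g = fun z => -(b z * dzb φ z) := ⟨_, rfl⟩
  have hu0 : ∀ z ∈ ball a ρ', u =ᶠ[𝓝 z] fun _ => (0 : ℂ) := by
    intro z hz
    filter_upwards [isOpen_ball.mem_nhds hz] with w hw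
    rw [hu]
    simp [h1 w hw]
  have hg0 : ∀ z ∈ ball a ρ', g =ᶠ[𝓝 z] fun _ => (0 : ℂ) := by
    intro z hz
    filter_upwards [isOpen_ball.mem_nhds hz] with w hw
    rw [hg]
    simp [hφ0 w hw]
  have huS : ContDiff ℝ ∞ u := by
    rw [contDiff_iff_contDiffAt]
    intro z
    rcases hcov z with hz | hz
    · exact contDiffAt_const.congr_of_eventuallyEq (hu0 z hz)
    · rw [hu]
      exact (contDiffAt_const.sub hφ.smooth.contDiffAt).mul (hbs z hz)
  have hgS : ContDiff ℝ ∞ g := by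
    rw [contDiff_iff_contDiffAt]
    intro z
    rcases hcov z with hz | hz
    · exact contDiffAt_const.congr_of_eventuallyEq (hg0 z hz)
    · rw [hg]
      exact ((hbs z hz).mul hφd.smooth.contDiffAt).neg
  have hgT : Test univ g := by
    refine ⟨hgS, ?_, subset_univ _⟩
    refine hφd.cpt.mono ?_
    intro z hz h0
    apply hz
    rw [hg]
    simp [h0]
  have hdu : ∀ z, dzb u z = g z := by
    intro z
    rcases hcov z with hz | hz
    · rw [(hg0 z hz).self_of_nhds]
      unfold QC.dzb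
      rw [(hu0 z hz).fderiv_eq]
      simp
    · have e1 : DifferentiableAt ℝ (fun w => 1 - φ w) z :=
        (differentiableAt_const _).sub ((hφ.smooth.differentiable (by simp)) z)
      have e2 : DifferentiableAt ℝ b z := (hbs z hz).differentiableAt (by simp)
      have e3 := (QC.dz_mul e1 e2).2
      have e4 : dzb (fun w => 1 - φ w) z = - dzb φ z := by
        have e5 := (QC.dz_sub (f := fun _ => (1 : ℂ)) (g := φ) (z := z) (differentiableAt_const _)
          ((hφ.smooth.differentiable (by simp)) z)).2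
        rw [e5]
        have e6 : dzb (fun _ : ℂ => (1 : ℂ)) z = 0 := by
          unfold QC.dzb
          simp
        rw [e6]
        ring
      rw [hu, hg]
      change dzb (fun w => (1 - φ w) * b w) z = -(b z * dzb φ z)
      rw [e3, e4, hbd z hz]
      ring
  have hCS := QC.cau_contDiff hgT
  have hdC : ∀ z, dzb (Cau g) z = g z := fun z => by
    rw [(QC.dz_cau hgT z).2, QC.cau_dzb hgT z]
  obtain ⟨R, hR⟩ := gr_radius hgT.cpt
  have hMem : MemLp g 2 (volume : Measure ℂ) := hgS.continuous.memLp_of_hasCompactSupport hgT.cpt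
  have hlimC := QC.tendsto_mul_cau hMem hR
  have hlimC0 := QC.tendsto_cau hMem hR
  obtain ⟨Rφ, hRφ⟩ := gr_radius hφ.cpt
  have hnorm : Tendsto (fun z : ℂ => ‖z‖) (cocompact ℂ) atTop := tendsto_norm_cocompact_atTop
  have hub : ∀ᶠ z : ℂ in cocompact ℂ, b z = u z := by
    filter_upwards [hnorm.eventually_ge_atTop Rφ] with z hz
    rw [hu]
    simp [hRφ z hz]
  have hlimu : Tendsto (fun z => z * u z) (cocompact ℂ) (𝓝 c) := by
    refine hc.congr' ?_
    filter_upwards [hub] with z hz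
    rw [hz]
  have hinv : Tendsto (fun z : ℂ => z⁻¹) (cocompact ℂ) (𝓝 0) := by
    rw [← Metric.cobounded_eq_cocompact]
    exact tendsto_inv₀_cobounded
  have hlimu0 : Tendsto u (cocompact ℂ) (𝓝 0) := by
    have h3 := hinv.mul hlimu
    rw [zero_mul] at h3
    refine h3.congr' ?_
    filter_upwards [hnorm.eventually_gt_atTop 0] with z hz
    have hz0 : z ≠ 0 := norm_pos_iff.1 hz
    rw [← mul_assoc, inv_mul_cancel₀ hz0, one_mul]
  have hdiff : Differentiable ℂ (fun z => u z - Cau g z) := by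
    intro z
    have e1 : DifferentiableAt ℝ u z := (huS.differentiable (by simp)) z
    have e2 : DifferentiableAt ℝ (Cau g) z := (hCS.differentiable (by simp)) z
    refine QC.holo_of_dzb (e1.sub e2) ?_
    rw [(QC.dz_sub e1 e2).2, hdu, hdC, sub_self]
  have hlim0 : Tendsto (fun z => u z - Cau g z) (cocompact ℂ) (𝓝 0) := by
    have h3 := hlimu0.sub hlimC0
    rwa [sub_zero] at h3
  have heq : ∀ z, u z = Cau g z := fun z =>
    sub_eq_zero.1 (hdiff.apply_eq_of_tendsto_cocompact z hlim0)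
  have hlimu' : Tendsto (fun z => z * u z) (cocompact ℂ) (𝓝 ((1 / (Real.pi : ℂ)) * ∫ ζ, g ζ)) := by
    refine hlimC.congr ?_
    intro z
    rw [heq]
  have hcc : c = (1 / (Real.pi : ℂ)) * ∫ ζ, g ζ := tendsto_nhds_unique hlimu hlimu'
  have hpi : (Real.pi : ℂ) ≠ 0 := by exact_mod_cast Real.pi_ne_zero
  rw [hcc, hg, integral_neg]
  field_simp

end Pool.Agent.Work.MP_2cf110_an.Hyp

end
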