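import Pool.Agent.Work.MP_2cf110_an.Hyp.Defs

/-! # Duality: a bounded functional on L¹ is given by a bounded function

ν = the finite measure with density ρ(z) = exp(-‖z‖) (or (1+‖z‖)^(-4)) with respect to μ: φ ↦ Λ(φ ρ) is bounded on L²(ν) (‖φρ‖_{L¹(μ)} = ‖φ‖_{L¹(ν)} ≤
√ν(ℂ) ‖φ‖_{L²(ν)}), so by Riesz (InnerProductSpace.toDual) Λ(φ ρ) = ∫ φ u dν with u in L²(ν).  Hence Λ ψ = ∫ ψ u dμ for bounded ψ with compact
support, |∫ ψ u dμ| ≤ C ∫ |ψ| dμ, so |u| ≤ C a.e. (ψ = conj u/|u| on {|u| > C + δ} ∩ ball); change u on a null set. -/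

open MeasureTheory Complex Set Metric Filter
open scoped Topology ContDiff ComplexConjugate

noncomputable section

namespace Pool.Agent.Work.MP_2cf110_an.Hyp

open QC (dz dzb Test Cau)

open scoped NNReal ENNReal

/-- a positive density with finite integral which is bounded below on balls -/
private theorem exists_density {μ : Measure ℂ} (hμ : ∀ r : ℝ, μ (ball 0 r) < ⊤) :
    ∃ ρ : ℂ → ℝ≥0, Measurable ρ ∧ (∀ z, 0 < ρ z) ∧ (∫⁻ z, (ρ z : ℝ≥0∞) ∂μ) < ⊤ ∧
      ∀ r : ℝ, ∃ c : ℝ≥0, 0 < c ∧ ∀ z : ℂ, ‖z‖ < r → c ≤ ρ z := by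
  let M : ℕ → ℝ≥0 := fun k => (μ (ball 0 ((k : ℝ) + 1))).toNNReal
  let c : ℕ → ℝ≥0 := fun k => (1 / 2) ^ k * (1 + M k)⁻¹
  let fl : ℂ → ℕ := fun z => ⌊‖z‖⌋₊
  have hfl : Measurable fl := Nat.measurable_floor.comp measurable_norm
  have hc : Measurable c := measurable_of_countable c
  have hM1 : ∀ k, (0 : ℝ≥0) < 1 + M k := fun k =>
    lt_of_lt_of_le one_pos (le_add_of_nonneg_right (M k).2)
  have hcpos : ∀ k, 0 < c k := by
    intro k
    exact mul_pos (pow_pos (by norm_num) k) (inv_pos.2 (hM1 k))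
  refine ⟨fun z => c (fl z), hc.comp hfl, fun z => hcpos _, ?_, ?_⟩
  · have h1 : (∫⁻ z, (c (fl z) : ℝ≥0∞) ∂μ) = ∫⁻ k, (c k : ℝ≥0∞) ∂(μ.map fl) :=
      (lintegral_map (f := fun k => (c k : ℝ≥0∞)) (measurable_coe_nnreal_ennreal.comp hc) hfl).symm
    rw [h1, lintegral_countable']
    have h2 : ∀ k : ℕ, (c k : ℝ≥0∞) * (μ.map fl) {k} ≤ (2⁻¹ : ℝ≥0∞) ^ k := by
      intro k
      rw [Measure.map_apply hfl (measurableSet_singleton k)]
      have h3 : μ (fl ⁻¹' {k}) ≤ (M k : ℝ≥0∞) := by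
        have h4 : fl ⁻¹' {k} ⊆ ball 0 ((k : ℝ) + 1) := by
          intro z hz
          have h5 : ⌊‖z‖⌋₊ = k := hz
          rw [mem_ball_zero_iff, ← h5]
          exact Nat.lt_floor_add_one _
        have h6 : (M k : ℝ≥0∞) = μ (ball 0 ((k : ℝ) + 1)) := ENNReal.coe_toNNReal (hμ _).ne
        rw [h6]
        exact measure_mono h4
      have h7 : (c k : ℝ≥0∞) * (M k : ℝ≥0∞) ≤ (2⁻¹ : ℝ≥0∞) ^ k := by
        have h8 : c k * M k ≤ (2⁻¹ : ℝ≥0) ^ k := by
          have h9 : (1 + M k)⁻¹ * M k ≤ 1 := by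
            rw [inv_mul_le_iff₀ (hM1 k), mul_one]
            exact le_add_of_nonneg_left zero_le_one
          calc c k * M k = (1 / 2) ^ k * ((1 + M k)⁻¹ * M k) := by
                show (1 / 2) ^ k * (1 + M k)⁻¹ * M k = _
                ring
            _ ≤ (1 / 2) ^ k * 1 := by gcongr
            _ = (2⁻¹ : ℝ≥0) ^ k := by rw [mul_one, one_div]
        calc (c k : ℝ≥0∞) * (M k : ℝ≥0∞) = ((c k * M k : ℝ≥0) : ℝ≥0∞) := by push_cast; rfl
          _ ≤ (((2⁻¹ : ℝ≥0) ^ k : ℝ≥0) : ℝ≥0∞) := by exact_mod_cast h8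
          _ = (2⁻¹ : ℝ≥0∞) ^ k := by
            rw [ENNReal.coe_pow, ENNReal.coe_inv two_ne_zero]
            rfl
      exact (mul_le_mul' le_rfl h3).trans h7
    refine lt_of_le_of_lt (ENNReal.tsum_le_tsum h2) ?_
    rw [ENNReal.tsum_geometric]
    rw [ENNReal.one_sub_inv_two, inv_inv]
    exact ENNReal.ofNat_lt_top
  · intro r
    let n : ℕ := ⌊r⌋₊ + 1
    have hne : (Finset.range n).Nonempty := ⟨0, Finset.mem_range.2 (Nat.succ_pos _)⟩
    refine ⟨(Finset.range n).inf' hne c, ?_, ?_⟩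
    · rw [Finset.lt_inf'_iff]
      exact fun k _ => hcpos k
    · intro z hz
      apply Finset.inf'_le
      rw [Finset.mem_range]
      exact Nat.lt_succ_of_le (Nat.floor_le_floor hz.le)

/-- representation by a locally integrable function -/
private theorem repr_u {μ : Measure ℂ} (hμ : ∀ r : ℝ, μ (ball 0 r) < ⊤)
    (Λ : Lp ℂ 1 μ →L[ℂ] ℂ) :
    ∃ u : ℂ → ℂ, Measurable u ∧
      ∀ (ψ : ℂ → ℂ) (N r : ℝ) (φ : Lp ℂ 1 μ), Measurable ψ → (∀ z, ‖ψ z‖ ≤ N) →
        (∀ z, r ≤ ‖z‖ → ψ z = 0) → φ =ᵐ[μ] ψ →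
        Integrable (fun z => u z * ψ z) μ ∧ Λ φ = ∫ z, u z * ψ z ∂μ := by
  obtain ⟨ρ, hρm, hρ0, hρi, hρc⟩ := exists_density hμ
  have hρm' : Measurable fun z => (ρ z : ℝ≥0∞) := measurable_coe_nnreal_ennreal.comp hρm
  have hρmc : Measurable fun z => ((ρ z : ℝ) : ℂ) :=
    Complex.measurable_ofReal.comp (measurable_coe_nnreal_real.comp hρm)
  let ν : Measure ℂ := μ.withDensity fun z => (ρ z : ℝ≥0∞)
  have hν : ν univ < ⊤ := by
    show μ.withDensity (fun z => (ρ z : ℝ≥0∞)) univ < ⊤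
    rw [withDensity_apply _ MeasurableSet.univ, Measure.restrict_univ]
    exact hρi
  have hfin : IsFiniteMeasure ν := ⟨hν⟩
  have hne : ∀ᵐ z ∂μ, (ρ z : ℝ≥0∞) ≠ 0 :=
    Eventually.of_forall fun z => by
      rw [Ne, ENNReal.coe_eq_zero]
      exact (hρ0 z).ne'
  have hae : ∀ {f g : ℂ → ℂ}, f =ᵐ[ν] g ↔ f =ᵐ[μ] g := fun {f g} =>
    withDensity_ae_eq hρm'.aemeasurable hne
  have hac : μ ≪ ν := withDensity_absolutelyContinuous' hρm'.aemeasurable hne
  have henorm : ∀ z, ‖((ρ z : ℝ) : ℂ)‖ₑ = (ρ z : ℝ≥0∞) := by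
    intro z
    rw [← ofReal_norm, Complex.norm_real, Real.norm_of_nonneg (NNReal.coe_nonneg _)]
    exact ENNReal.ofReal_coe_nnreal
  -- the norm of `ρ φ` in `L¹(μ)`
  have hnorm : ∀ f : ℂ → ℂ, AEStronglyMeasurable f ν →
      eLpNorm (fun z => ((ρ z : ℝ) : ℂ) * f z) 1 μ = eLpNorm f 1 ν := by
    intro f hf
    rw [eLpNorm_one_eq_lintegral_enorm, eLpNorm_one_eq_lintegral_enorm]
    show _ = ∫⁻ z, ‖f z‖ₑ ∂(μ.withDensity fun z => (ρ z : ℝ≥0∞))
    rw [lintegral_withDensity_eq_lintegral_mul₀' hρm'.aemeasurable hf.enorm]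
    refine lintegral_congr fun z => ?_
    rw [Pi.mul_apply, enorm_mul, henorm]
  have hmem : ∀ f : Lp ℂ 2 ν, MemLp (fun z => ((ρ z : ℝ) : ℂ) * f z) 1 μ := by
    intro f
    have h1 : AEStronglyMeasurable (f : ℂ → ℂ) ν := (Lp.stronglyMeasurable f).aestronglyMeasurable
    refine ⟨hρmc.aestronglyMeasurable.mul (h1.mono_ac hac), ?_⟩
    rw [hnorm _ h1]
    exact ((Lp.memLp f).mono_exponent (by norm_num)).2
  have hle : ∀ f : Lp ℂ 2 ν, eLpNorm (fun z => ((ρ z : ℝ) : ℂ) * f z) 1 μ ≤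
      eLpNorm f 2 ν * ν univ ^ ((1 : ℝ) / 2) := by
    intro f
    have h1 : AEStronglyMeasurable (f : ℂ → ℂ) ν := (Lp.stronglyMeasurable f).aestronglyMeasurable
    rw [hnorm _ h1]
    refine (eLpNorm_le_eLpNorm_mul_rpow_measure_univ (p := 1) (q := 2) (by norm_num) h1).trans
      (le_of_eq ?_)
    norm_num
  -- the functional on `L²(ν)`
  let B : ℝ := (ν univ ^ ((1 : ℝ) / 2)).toReal
  have hBfin : ν univ ^ ((1 : ℝ) / 2) ≠ ⊤ := (ENNReal.rpow_lt_top_of_nonneg (by norm_num) hν.ne).ne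
  let T0 : Lp ℂ 2 ν →ₗ[ℂ] ℂ :=
    { toFun := fun f => Λ ((hmem f).toLp _)
      map_add' := by
        intro f g
        rw [← map_add, ← MemLp.toLp_add]
        congr 1
        rw [MemLp.toLp_eq_toLp_iff]
        have h1 := (hae (f := ((f + g : Lp ℂ 2 ν) : ℂ → ℂ)) (g := (f : ℂ → ℂ) + g)).1
          (Lp.coeFn_add f g)
        filter_upwards [h1] with z hz
        rw [Pi.add_apply, hz, Pi.add_apply, mul_add]
      map_smul' := by
        intro c f
        rw [RingHom.id_apply, ← map_smul, ← MemLp.toLp_const_smul]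
        congr 1
        rw [MemLp.toLp_eq_toLp_iff]
        have h1 := (hae (f := ((c • f : Lp ℂ 2 ν) : ℂ → ℂ)) (g := c • (f : ℂ → ℂ))).1
          (Lp.coeFn_smul c f)
        filter_upwards [h1] with z hz
        rw [hz, Pi.smul_apply, Pi.smul_apply, smul_eq_mul, smul_eq_mul]
        ring }
  let T : Lp ℂ 2 ν →L[ℂ] ℂ := T0.mkContinuous (‖Λ‖ * B) (by
    intro f
    show ‖Λ ((hmem f).toLp _)‖ ≤ _
    refine (Λ.le_opNorm _).trans ?_
    rw [mul_assoc]
    refine mul_le_mul_of_nonneg_left ?_ (norm_nonneg _)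
    rw [Lp.norm_toLp, Lp.norm_def, mul_comm, ← ENNReal.toReal_mul]
    exact ENNReal.toReal_mono (ENNReal.mul_ne_top (Lp.eLpNorm_ne_top f) hBfin) (hle f))
  let h : Lp ℂ 2 ν := (InnerProductSpace.toDual ℂ (Lp ℂ 2 ν)).symm T
  have hT : ∀ f : Lp ℂ 2 ν, T f = ∫ z, (starRingEnd ℂ) (h z) * f z ∂ν := by
    intro f
    have h1 : inner ℂ h f = T f := InnerProductSpace.toDual_symm_apply
    rw [← h1, L2.inner_def]
    refine integral_congr_ae (Eventually.of_forall fun z => ?_)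
    show inner ℂ (h z) (f z) = (starRingEnd ℂ) (h z) * f z
    rw [RCLike.inner_apply, mul_comm]
  refine ⟨fun z => (starRingEnd ℂ) (h z), ?_, ?_⟩
  · exact Complex.continuous_conj.measurable.comp (Lp.stronglyMeasurable h).measurable
  · intro ψ N r φ hψm hψN hψr hφ
    obtain ⟨c, hc0, hc⟩ := hρc r
    have hNN : 0 ≤ N := (norm_nonneg _).trans (hψN 0)
    -- `ψ / ρ` is bounded
    have hb : ∀ z, ‖ψ z / ((ρ z : ℝ) : ℂ)‖ ≤ N / c := by
      intro z
      rw [norm_div, Complex.norm_real, Real.norm_of_nonneg (NNReal.coe_nonneg _)]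
      by_cases hz : r ≤ ‖z‖
      · rw [hψr z hz, norm_zero, zero_div]
        exact div_nonneg hNN c.2
      · have h1 : (c : ℝ) ≤ ρ z := by exact_mod_cast hc z (not_le.1 hz)
        have h2 : (0 : ℝ) < c := by exact_mod_cast hc0
        exact div_le_div₀ hNN (hψN z) h2 h1
    have hm2 : MemLp (fun z => ψ z / ((ρ z : ℝ) : ℂ)) 2 ν :=
      MemLp.of_bound (hψm.div hρmc).aestronglyMeasurable _ (Eventually.of_forall hb)
    have h3 : ∀ z, ((ρ z : ℝ) : ℂ) * (ψ z / ((ρ z : ℝ) : ℂ)) = ψ z := by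
      intro z
      have h4 : ((ρ z : ℝ) : ℂ) ≠ 0 := by
        have h5 : (ρ z : ℝ) ≠ 0 := by exact_mod_cast (hρ0 z).ne'
        exact_mod_cast h5
      field_simp
    have h4 : (hm2.toLp _ : ℂ → ℂ) =ᵐ[ν] fun z => ψ z / ((ρ z : ℝ) : ℂ) := hm2.coeFn_toLp
    have h5 : Λ φ = T (hm2.toLp _) := by
      show Λ φ = Λ ((hmem (hm2.toLp _)).toLp _)
      congr 1
      apply Lp.ext
      refine hφ.trans (EventuallyEq.symm ((hmem (hm2.toLp _)).coeFn_toLp.trans ?_))
      filter_upwards [hae.1 h4] with z hz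
      rw [hz, h3]
    have h6 : Integrable (fun z => (starRingEnd ℂ) (h z) * (hm2.toLp _ : ℂ → ℂ) z) ν := by
      have h7 := L2.integrable_inner (𝕜 := ℂ) h (hm2.toLp _)
      refine h7.congr (Eventually.of_forall fun z => ?_)
      show inner ℂ (h z) ((hm2.toLp _ : ℂ → ℂ) z) = _
      rw [RCLike.inner_apply, mul_comm]
    have h8 : (fun z => (starRingEnd ℂ) (h z) * (hm2.toLp _ : ℂ → ℂ) z) =ᵐ[ν]
        fun z => (starRingEnd ℂ) (h z) * (ψ z / ((ρ z : ℝ) : ℂ)) := by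
      filter_upwards [h4] with z hz
      rw [hz]
    have h9 : ∀ z, ρ z • ((starRingEnd ℂ) (h z) * (ψ z / ((ρ z : ℝ) : ℂ))) =
        (starRingEnd ℂ) (h z) * ψ z := by
      intro z
      show ((ρ z : ℝ) : ℂ) * ((starRingEnd ℂ) (h z) * (ψ z / ((ρ z : ℝ) : ℂ))) = _
      rw [mul_left_comm, h3]
    constructor
    · have h10 := h6.congr h8
      have h11 := (integrable_withDensity_iff_integrable_smul (μ := μ) hρm
        (g := fun z => (starRingEnd ℂ) (h z) * (ψ z / ((ρ z : ℝ) : ℂ)))).1 h10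
      exact h11.congr (Eventually.of_forall h9)
    · rw [h5, hT, integral_congr_ae h8]
      show ∫ z, _ ∂(μ.withDensity fun z => (ρ z : ℝ≥0∞)) = _
      rw [integral_withDensity_eq_integral_smul hρm]
      exact integral_congr_ae (Eventually.of_forall h9)

theorem hb_b {μ : Measure ℂ} [SigmaFinite μ] (hμ : ∀ r : ℝ, μ (ball 0 r) < ⊤) {C : ℝ} (hC : 0 ≤ C)
    (Λ : Lp ℂ 1 μ →L[ℂ] ℂ) (hΛ : ‖Λ‖ ≤ C) :
    ∃ u : ℂ → ℂ, Measurable u ∧ (∀ z, ‖u z‖ ≤ C) ∧
      ∀ (ψ : ℂ → ℂ) (N r : ℝ) (φ : Lp ℂ 1 μ), Measurable ψ → (∀ z, ‖ψ z‖ ≤ N) →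
        (∀ z, r ≤ ‖z‖ → ψ z = 0) → φ =ᵐ[μ] ψ → Λ φ = ∫ z, u z * ψ z ∂μ := by
  obtain ⟨u, hum, hu⟩ := repr_u hμ Λ
  -- integrals over bounded sets
  have key : ∀ (n : ℕ) (s : Set ℂ), MeasurableSet s →
      ∫⁻ z in s ∩ ball 0 (n : ℝ), ‖u z‖ₑ ∂μ ≤ ENNReal.ofReal C * μ (s ∩ ball 0 (n : ℝ)) := by
    intro n s hs
    set A : Set ℂ := s ∩ ball 0 (n : ℝ) with hA
    have hAm : MeasurableSet A := hs.inter measurableSet_ball
    have hAf : μ A < ⊤ := (measure_mono inter_subset_right).trans_lt (hμ n)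
    let ψ : ℂ → ℂ := A.indicator fun z => (starRingEnd ℂ) (u z) / ((‖u z‖ : ℝ) : ℂ)
    have hψm : Measurable ψ :=
      ((Complex.continuous_conj.measurable.comp hum).div
        (Complex.measurable_ofReal.comp hum.norm)).indicator hAm
    have hψ1 : ∀ z, ‖ψ z‖ ≤ A.indicator (fun _ => (1 : ℝ)) z := by
      intro z
      by_cases hz : z ∈ A
      · rw [indicator_of_mem hz]
        show ‖A.indicator _ z‖ ≤ 1
        rw [indicator_of_mem hz, norm_div, RCLike.norm_conj, Complex.norm_real, norm_norm]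
        exact div_self_le_one _
      · rw [indicator_of_notMem hz]
        show ‖A.indicator _ z‖ ≤ 0
        rw [indicator_of_notMem hz, norm_zero]
    have hψ1' : ∀ z, ‖ψ z‖ ≤ 1 := fun z => (hψ1 z).trans (by
      by_cases hz : z ∈ A
      · rw [indicator_of_mem hz]
      · rw [indicator_of_notMem hz]; exact zero_le_one)
    have hi1 : Integrable (A.indicator fun _ => (1 : ℝ)) μ :=
      (integrable_indicator_iff hAm).2 (integrableOn_const hAf.ne)
    have hψi : Integrable ψ μ := hi1.mono' hψm.aestronglyMeasurable (Eventually.of_forall hψ1)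
    have hψL : MemLp ψ 1 μ := memLp_one_iff_integrable.2 hψi
    obtain ⟨h1, h2⟩ := hu ψ 1 n (hψL.toLp ψ) hψm hψ1' (by
      intro z hz
      show A.indicator _ z = 0
      rw [indicator_of_notMem]
      intro h3
      exact absurd (mem_ball_zero_iff.1 h3.2) (not_lt.2 hz)) hψL.coeFn_toLp
    have h3 : ∀ z, u z * ψ z = ((A.indicator (fun w => ‖u w‖) z : ℝ) : ℂ) := by
      intro z
      by_cases hz : z ∈ A
      · rw [indicator_of_mem hz]
        show u z * A.indicator _ z = _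
        rw [indicator_of_mem hz]
        by_cases h4 : u z = 0
        · rw [h4, zero_mul, norm_zero, Complex.ofReal_zero]
        · have h5 : ((‖u z‖ : ℝ) : ℂ) ≠ 0 := by
            exact_mod_cast norm_ne_zero_iff.2 h4
          rw [← mul_div_assoc, Complex.mul_conj, Complex.normSq_eq_norm_sq]
          push_cast
          field_simp
      · rw [indicator_of_notMem hz]
        show u z * A.indicator _ z = _
        rw [indicator_of_notMem hz, mul_zero, Complex.ofReal_zero]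
    have h4 : Integrable (A.indicator fun w => ‖u w‖) μ := by
      have h5 : Integrable (fun z => ((A.indicator (fun w => ‖u w‖) z : ℝ) : ℂ)) μ :=
        h1.congr (Eventually.of_forall h3)
      exact h5.re
    have h5 : (∫ z, A.indicator (fun w => ‖u w‖) z ∂μ) ≤ C * (μ A).toReal := by
      have h6 : ‖Λ (hψL.toLp ψ)‖ ≤ C * (μ A).toReal := by
        refine (Λ.le_opNorm _).trans (mul_le_mul hΛ ?_ (norm_nonneg _) hC)
        rw [Lp.norm_toLp]
        refine ENNReal.toReal_mono hAf.ne ?_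
        rw [eLpNorm_one_eq_lintegral_enorm]
        calc ∫⁻ z, ‖ψ z‖ₑ ∂μ ≤ ∫⁻ z, A.indicator (fun _ => (1 : ℝ≥0∞)) z ∂μ := by
              refine lintegral_mono fun z => ?_
              rw [← ofReal_norm]
              by_cases hz : z ∈ A
              · rw [indicator_of_mem hz]
                exact ENNReal.ofReal_le_one.2 (hψ1' z)
              · have h7 := hψ1 z
                rw [indicator_of_notMem hz] at h7 ⊢
                rw [ENNReal.ofReal_of_nonpos h7]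
          _ = μ A := by rw [lintegral_indicator_const hAm, one_mul]
      rw [h2] at h6
      have h7 : (∫ z, u z * ψ z ∂μ) = ((∫ z, A.indicator (fun w => ‖u w‖) z ∂μ : ℝ) : ℂ) := by
        rw [← integral_complex_ofReal]
        exact integral_congr_ae (Eventually.of_forall h3)
      rw [h7, Complex.norm_real] at h6
      exact (le_abs_self _).trans h6
    calc ∫⁻ z in A, ‖u z‖ₑ ∂μ = ∫⁻ z, ENNReal.ofReal (A.indicator (fun w => ‖u w‖) z) ∂μ := by
          rw [← lintegral_indicator hAm]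
          refine lintegral_congr fun z => ?_
          by_cases hz : z ∈ A
          · rw [indicator_of_mem hz, indicator_of_mem hz, ofReal_norm]
          · rw [indicator_of_notMem hz, indicator_of_notMem hz, ENNReal.ofReal_zero]
      _ = ENNReal.ofReal (∫ z, A.indicator (fun w => ‖u w‖) z ∂μ) := by
          rw [ofReal_integral_eq_lintegral_ofReal h4]
          exact Eventually.of_forall fun z => indicator_nonneg (fun w _ => norm_nonneg _) z
      _ ≤ ENNReal.ofReal (C * (μ A).toReal) := ENNReal.ofReal_le_ofReal h5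
      _ = ENNReal.ofReal C * μ A := by
          rw [ENNReal.ofReal_mul hC, ENNReal.ofReal_toReal hAf.ne]
  have hball : ∀ n : ℕ, ∀ᵐ z ∂(μ.restrict (ball 0 (n : ℝ))), ‖u z‖ₑ ≤ ENNReal.ofReal C := by
    intro n
    have hf : IsFiniteMeasure (μ.restrict (ball 0 (n : ℝ))) := ⟨by
      rw [Measure.restrict_apply_univ]
      exact hμ n⟩
    refine ae_le_of_forall_setLIntegral_le_of_sigmaFinite (f := fun z => ‖u z‖ₑ)
      (g := fun _ => ENNReal.ofReal C) hum.enorm ?_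
    intro s hs _
    rw [Measure.restrict_restrict hs, setLIntegral_const]
    exact key n s hs
  have hae : ∀ᵐ z ∂μ, ‖u z‖ ≤ C := by
    have h1 : ∀ᵐ z ∂μ, ∀ n : ℕ, z ∈ ball (0 : ℂ) (n : ℝ) → ‖u z‖ₑ ≤ ENNReal.ofReal C := by
      rw [ae_all_iff]
      intro n
      exact (ae_restrict_iff' measurableSet_ball).1 (hball n)
    filter_upwards [h1] with z hz
    obtain ⟨n, hn⟩ := exists_nat_gt ‖z‖
    have h2 := hz n (mem_ball_zero_iff.2 hn)
    rw [← ofReal_norm] at h2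
    exact (ENNReal.ofReal_le_ofReal_iff hC).1 h2
  refine ⟨fun z => if ‖u z‖ ≤ C then u z else 0, ?_, ?_, ?_⟩
  · exact Measurable.ite (measurableSet_le hum.norm measurable_const) hum measurable_const
  · intro z
    show ‖if ‖u z‖ ≤ C then u z else 0‖ ≤ C
    split_ifs with h
    · exact h
    · rw [norm_zero]; exact hC
  · intro ψ N r φ hψm hψN hψr hφ
    rw [(hu ψ N r φ hψm hψN hψr hφ).2]
    refine integral_congr_ae ?_
    filter_upwards [hae] with z hz
    rw [if_pos hz]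

end Pool.Agent.Work.MP_2cf110_an.Hyp

end
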