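import Pool.Agent.Work.MP_2cf110_an.Hyp.HBa
import Pool.Agent.Work.MP_2cf110_an.Hyp.HBb

/-! # Duality

hb_a and hb_b with μ = volume.restrict V, ψ = dzb k (bounded with compact support). -/

open MeasureTheory Complex Set Metric Filter
open scoped Topology ContDiff ComplexConjugate

noncomputable section

namespace Pool.Agent.Work.MP_2cf110_an.Hyp

open QC (dz dzb Test Cau)

theorem hb {V : Set ℂ} (hV : IsOpen V) {w : ℂ → ℂ} {C : ℝ} (hC : 0 ≤ C) (hw : ContinuousOn w V)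
    (h : ∀ k, Test V k → ‖∫ z in V, w z * k z‖ ≤ C * ∫ z, ‖dzb k z‖) :
    ∃ u : ℂ → ℂ, Measurable u ∧ (∀ z, ‖u z‖ ≤ C) ∧
      ∀ k, Test V k → ∫ z in V, u z * dzb k z = - ∫ z in V, w z * k z := by
  obtain ⟨Λ, hΛ, h1⟩ := hb_a hV hC hw h
  have hμ : ∀ r : ℝ, (volume.restrict V) (ball (0 : ℂ) r) < ⊤ := fun r =>
    lt_of_le_of_lt (Measure.restrict_apply_le _ _) measure_ball_lt_top
  obtain ⟨u, um, ub, h2⟩ := hb_b (μ := volume.restrict V) hμ hC Λ hΛ
  refine ⟨u, um, ub, fun k hk => ?_⟩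
  have ht : Test V (dzb k) := (QC.Test.dz hk).2
  have hcont : Continuous (dzb k) := ht.smooth.continuous
  obtain ⟨N, hN⟩ := hcont.bounded_above_of_compact_support ht.cpt
  obtain ⟨r, hr⟩ : ∃ r : ℝ, ∀ z : ℂ, r ≤ ‖z‖ → dzb k z = 0 := by
    obtain ⟨r, hr⟩ := ht.cpt.isBounded.subset_ball (0 : ℂ)
    refine ⟨r, fun z hz => ?_⟩
    by_contra hne
    have hm : z ∈ tsupport (dzb k) := subset_tsupport _ (Function.mem_support.2 hne)
    have := hr hm
    rw [mem_ball_zero_iff] at this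
    linarith
  have hm : MemLp (dzb k) 1 (volume.restrict V) :=
    (hcont.memLp_of_hasCompactSupport ht.cpt).restrict V
  have hφ := hm.coeFn_toLp
  rw [← h2 (dzb k) N r (hm.toLp _) hcont.measurable hN hr hφ, h1 k hk _ hφ]

end Pool.Agent.Work.MP_2cf110_an.Hyp

end
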