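import Pool.Agent.Work.MP_2cf110_an.Hyp.Defs

/-! # Duality: the Hahn-Banach step

Let E = Lp ℂ 1 (volume.restrict V), p = the subspace of the classes of dzb k, k in Test V.  The map [dzb k] ↦ - ∫_V w k is
well defined and bounded by C (if dzb k = 0 a.e. then ∫ w k = 0; dzb k has compact support in V, so its norm in E is ∫ ‖dzb k‖);
extend it (exists_extension_norm_eq) and get a continuous functional Λ on E with |Λ φ| ≤ C ‖φ‖₁. -/

open MeasureTheory Complex Set Metric Filter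
open scoped Topology ContDiff ComplexConjugate

noncomputable section

namespace Pool.Agent.Work.MP_2cf110_an.Hyp

open QC (dz dzb Test Cau)

private theorem hba_zero {V : Set ℂ} : Test V (fun _ : ℂ => (0 : ℂ)) := by
  refine ⟨contDiff_const, HasCompactSupport.zero, ?_⟩
  have : tsupport (fun _ : ℂ => (0 : ℂ)) = ∅ := by
    rw [tsupport_eq_empty_iff]
    rfl
  rw [this]
  exact empty_subset _

private theorem hba_comb {V : Set ℂ} {k l : ℂ → ℂ} (hk : Test V k) (hl : Test V l) (a b : ℂ) :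
    Test V (fun z => a * k z + b * l z) ∧
      ∀ z, dzb (fun z => a * k z + b * l z) z = a * dzb k z + b * dzb l z := by
  have d1 : Differentiable ℝ k := hk.smooth.differentiable (by simp)
  have d2 : Differentiable ℝ l := hl.smooth.differentiable (by simp)
  constructor
  · refine ⟨(contDiff_const.mul hk.smooth).add (contDiff_const.mul hl.smooth),
      (hk.cpt.mul_left).add (hl.cpt.mul_left), ?_⟩
    intro z hz
    have h1 : z ∈ tsupport (fun z => a * k z) ∪ tsupport (fun z => b * l z) :=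
      tsupport_add (fun z => a * k z) (fun z => b * l z) hz
    rcases h1 with h1 | h1
    · exact hk.sub (tsupport_mul_subset_right h1)
    · exact hl.sub (tsupport_mul_subset_right h1)
  · intro z
    have e1 := (QC.dz_add (f := fun z => a * k z) (g := fun z => b * l z) (z := z)
      ((differentiableAt_const _).mul (d1 z)) ((differentiableAt_const _).mul (d2 z))).2
    have e2 := (QC.dz_mul (f := fun _ => a) (g := k) (z := z) (differentiableAt_const _) (d1 z)).2
    have e3 := (QC.dz_mul (f := fun _ => b) (g := l) (z := z) (differentiableAt_const _) (d2 z)).2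
    rw [(QC.dz_of_holo (f := fun _ => a) (z := z) (differentiableAt_const _)).2] at e2
    rw [(QC.dz_of_holo (f := fun _ => b) (z := z) (differentiableAt_const _)).2] at e3
    rw [e1, e2, e3]
    ring

private theorem hba_int {V : Set ℂ} (hV : IsOpen V) {w : ℂ → ℂ} (hw : ContinuousOn w V)
    {k : ℂ → ℂ} (hk : Test V k) : Integrable (fun z => w z * k z) (volume.restrict V) := by
  have h1 : IntegrableOn (fun z => w z * k z) (tsupport k) volume :=
    ((hw.mono hk.sub).mul hk.smooth.continuous.continuousOn).integrableOn_compact hk.cpt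
  refine h1.of_forall_sdiff_eq_zero hV.measurableSet fun z hz => ?_
  rw [image_eq_zero_of_notMem_tsupport hz.2, mul_zero]

private theorem hba_comb_int {V : Set ℂ} (hV : IsOpen V) {w : ℂ → ℂ} (hw : ContinuousOn w V)
    {k l : ℂ → ℂ} (hk : Test V k) (hl : Test V l) (a b : ℂ) :
    ∫ z in V, w z * (a * k z + b * l z) =
      a * (∫ z in V, w z * k z) + b * (∫ z in V, w z * l z) := by
  have e : ∀ z, w z * (a * k z + b * l z) = a * (w z * k z) + b * (w z * l z) := fun z => by ring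
  simp_rw [e]
  rw [integral_add ((hba_int hV hw hk).const_mul _) ((hba_int hV hw hl).const_mul _),
    integral_const_mul, integral_const_mul]

theorem hb_a {V : Set ℂ} (hV : IsOpen V) {w : ℂ → ℂ} {C : ℝ} (hC : 0 ≤ C) (hw : ContinuousOn w V)
    (h : ∀ k, Test V k → ‖∫ z in V, w z * k z‖ ≤ C * ∫ z, ‖dzb k z‖) :
    ∃ Λ : Lp ℂ 1 (volume.restrict V) →L[ℂ] ℂ, ‖Λ‖ ≤ C ∧
      ∀ k, Test V k → ∀ φ : Lp ℂ 1 (volume.restrict V), φ =ᵐ[volume.restrict V] dzb k →
        Λ φ = - ∫ z in V, w z * k z := by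
  set μ : Measure ℂ := volume.restrict V with hμ
  -- the norm in `L¹`
  have hnorm : ∀ k, Test V k → ∀ φ : Lp ℂ 1 μ, φ =ᵐ[μ] dzb k → ‖φ‖ = ∫ z, ‖dzb k z‖ := by
    intro k hk φ hφ
    rw [L1.norm_eq_integral_norm]
    have h1 : ∫ z, ‖φ z‖ ∂μ = ∫ z, ‖dzb k z‖ ∂μ := by
      refine integral_congr_ae ?_
      filter_upwards [hφ] with z hz
      rw [hz]
    rw [h1, hμ]
    refine setIntegral_eq_integral_of_forall_compl_eq_zero fun z hz => ?_
    have ht : Test V (dzb k) := (QC.Test.dz hk).2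
    have hz' : z ∉ tsupport (dzb k) := fun hc => hz (ht.sub hc)
    rw [image_eq_zero_of_notMem_tsupport hz', norm_zero]
  -- the map is well defined
  have hwell : ∀ k l, Test V k → Test V l → ∀ φ : Lp ℂ 1 μ, φ =ᵐ[μ] dzb k → φ =ᵐ[μ] dzb l →
      ∫ z in V, w z * k z = ∫ z in V, w z * l z := by
    intro k l hk hl φ h1 h2
    obtain ⟨t1, t2⟩ := hba_comb hk hl 1 (-1)
    have h3 := h _ t1
    rw [hba_comb_int hV hw hk hl] at h3
    have h4 : (0 : Lp ℂ 1 μ) =ᵐ[μ] dzb (fun z => 1 * k z + (-1) * l z) := by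
      refine (Lp.coeFn_zero ℂ 1 μ).trans ?_
      filter_upwards [h1, h2] with z e1 e2
      rw [t2 z, ← e1, ← e2]
      simp
    have h5 := hnorm _ t1 0 h4
    rw [norm_zero] at h5
    rw [← h5, mul_zero] at h3
    have h6 := norm_le_zero_iff.1 h3
    linear_combination h6
  -- the subspace
  let p : Submodule ℂ (Lp ℂ 1 μ) :=
    { carrier := {φ | ∃ k, Test V k ∧ φ =ᵐ[μ] dzb k}
      zero_mem' := by
        refine ⟨_, hba_zero, (Lp.coeFn_zero ℂ 1 μ).trans ?_⟩
        refine Eventually.of_forall fun z => ?_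
        rw [(QC.dz_of_holo (f := fun _ => (0 : ℂ)) (z := z) (differentiableAt_const _)).2]
        rfl
      add_mem' := by
        rintro φ ψ ⟨k, hk, h1⟩ ⟨l, hl, h2⟩
        obtain ⟨t1, t2⟩ := hba_comb hk hl 1 1
        refine ⟨_, t1, (Lp.coeFn_add φ ψ).trans ?_⟩
        filter_upwards [h1, h2] with z e1 e2
        rw [t2 z, ← e1, ← e2]
        simp
      smul_mem' := by
        rintro c φ ⟨k, hk, h1⟩
        obtain ⟨t1, t2⟩ := hba_comb hk hk c 0
        refine ⟨_, t1, (Lp.coeFn_smul c φ).trans ?_⟩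
        filter_upwards [h1] with z e1
        rw [t2 z, ← e1]
        simp }
  have hp : ∀ φ : p, ∃ k, Test V k ∧ (φ : Lp ℂ 1 μ) =ᵐ[μ] dzb k := fun φ => φ.2
  choose kk hk1 hk2 using hp
  have hval : ∀ (φ : p) (k : ℂ → ℂ), Test V k → (φ : Lp ℂ 1 μ) =ᵐ[μ] dzb k →
      ∫ z in V, w z * kk φ z = ∫ z in V, w z * k z := fun φ k hk h1 =>
    hwell _ _ (hk1 φ) hk φ (hk2 φ) h1
  let f : p →ₗ[ℂ] ℂ :=
    { toFun := fun φ => -∫ z in V, w z * kk φ z
      map_add' := by
        intro φ ψ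
        obtain ⟨t1, t2⟩ := hba_comb (hk1 φ) (hk1 ψ) 1 1
        have h3 : ((φ + ψ : p) : Lp ℂ 1 μ) =ᵐ[μ] dzb (fun z => 1 * kk φ z + 1 * kk ψ z) := by
          rw [Submodule.coe_add]
          refine (Lp.coeFn_add (φ : Lp ℂ 1 μ) (ψ : Lp ℂ 1 μ)).trans ?_
          filter_upwards [hk2 φ, hk2 ψ] with z e1 e2
          rw [t2 z, ← e1, ← e2]
          simp
        rw [hval _ _ t1 h3, hba_comb_int hV hw (hk1 φ) (hk1 ψ)]
        ring
      map_smul' := by
        intro c φ
        obtain ⟨t1, t2⟩ := hba_comb (hk1 φ) (hk1 φ) c 0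
        have h3 : ((c • φ : p) : Lp ℂ 1 μ) =ᵐ[μ] dzb (fun z => c * kk φ z + 0 * kk φ z) := by
          rw [Submodule.coe_smul]
          refine (Lp.coeFn_smul c (φ : Lp ℂ 1 μ)).trans ?_
          filter_upwards [hk2 φ] with z e1
          rw [t2 z, ← e1]
          simp
        rw [hval _ _ t1 h3, hba_comb_int hV hw (hk1 φ) (hk1 φ)]
        simp only [RingHom.id_apply, smul_eq_mul]
        ring }
  have hf : ∀ φ : p, ‖f φ‖ ≤ C * ‖φ‖ := by
    intro φ
    have e1 : ‖f φ‖ = ‖∫ z in V, w z * kk φ z‖ := norm_neg _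
    have e2 : ‖φ‖ = ‖(φ : Lp ℂ 1 μ)‖ := rfl
    rw [e1, e2, hnorm _ (hk1 φ) _ (hk2 φ)]
    exact h _ (hk1 φ)
  obtain ⟨g, hg1, hg2⟩ := exists_extension_norm_eq p (f.mkContinuous C hf)
  refine ⟨g, ?_, ?_⟩
  · rw [hg2]
    exact f.mkContinuous_norm_le hC hf
  · intro k hk φ hφ
    have h1 := hg1 ⟨φ, k, hk, hφ⟩
    have h2 : (f.mkContinuous C hf) (⟨φ, k, hk, hφ⟩ : p) =
        -∫ z in V, w z * kk ⟨φ, k, hk, hφ⟩ z := rfl
    rw [h2, hval ⟨φ, k, hk, hφ⟩ k hk hφ] at h1
    exact h1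

end Pool.Agent.Work.MP_2cf110_an.Hyp

end
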