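import Pool.Agent.Work.MP_2cf110_an.Hyp.HoleDef
import Pool.Agent.Work.MP_2cf110_an.Hyp.LogLip
import Pool.Agent.Work.MP_2cf110_an.Loc

/-! # Local sets of a hole are small

ψ = the inverse of Φ (exists_inverse).  First kind: logLip for ψ on ball w₀ (1 - |w₀|), w₀ = Φ z₀, w = Φ z: |w - w₀| ≤ 2r(1-|α|) ≤ 3r(1-|w₀|), omitted value p.
Second kind with √r ≤ |α|: on ball w₀ (min |w₀| (1-|w₀|)), which avoids 0: |w-w₀| ≤ 2r(1-|α|) ≤ 3√r min(|w₀|, 1-|w₀|) (|w₀| ≥ √r - r(1-|α|)). -/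

open MeasureTheory Complex Set Metric Filter
open scoped Topology ContDiff ComplexConjugate

noncomputable section

namespace Pool.Agent.Work.MP_2cf110_an.Hyp

open QC (dz dzb Test Cau)

theorem hole_near : ∃ A : ℝ, 1 ≤ A ∧ ∀ (Ω : Set ℂ) (Φ : ℂ → ℂ), Hole Ω Φ →
    ∀ (r : ℝ) (α : ℂ), 0 < r → √r ≤ 1 / A → ‖α‖ < 1 → (Φ '' Ω = ball 0 1 ∨ √r ≤ ‖α‖) →
    ∀ z₀ ∈ Ω, ∀ z ∈ Ω, ‖Φ z₀ - α‖ < r * (1 - ‖α‖) → ‖Φ z - α‖ < r * (1 - ‖α‖) →
    ∀ p ∉ Ω, ‖z - z₀‖ ≤ A * √r * ‖z₀ - p‖ := by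
  refine ⟨6144, by norm_num, ?_⟩
  intro Ω Φ hΦ r α hr hrA hα hcase z₀ hz₀ z hz h1 h2 p hp
  obtain ⟨-, ψ, hψ, hψΦ⟩ := exists_inverse hΦ.open_ hΦ.holo hΦ.inj
  obtain ⟨q, hq⟩ : ∃ q : ℝ, q = √r := ⟨_, rfl⟩
  have hq0 : 0 < q := by rw [hq]; exact Real.sqrt_pos.2 hr
  have hqq : q * q = r := by rw [hq]; exact Real.mul_self_sqrt hr.le
  rw [← hq] at hrA hcase ⊢
  rw [← hqq] at h1 h2
  have hq1 : q ≤ 1 / 6144 := hrA
  have hb0 : 0 < 1 - ‖α‖ := by linarith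
  have hdist : ‖Φ z - Φ z₀‖ ≤ 2 * (q * q) * (1 - ‖α‖) := by
    have h3 : Φ z - Φ z₀ = (Φ z - α) - (Φ z₀ - α) := by ring
    rw [h3]
    linarith [norm_sub_le (Φ z - α) (Φ z₀ - α)]
  have hw1 : ‖Φ z₀‖ ≤ ‖α‖ + q * q * (1 - ‖α‖) := by
    have h3 : Φ z₀ = (Φ z₀ - α) + α := by ring
    have h4 := norm_add_le (Φ z₀ - α) α
    rw [← h3] at h4
    linarith
  have hw2 : ‖α‖ - q * q * (1 - ‖α‖) ≤ ‖Φ z₀‖ := by
    have h3 : α = Φ z₀ - (Φ z₀ - α) := by ring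
    have h4 := norm_sub_le (Φ z₀) (Φ z₀ - α)
    rw [← h3] at h4
    linarith
  have hqq1 : q * q ≤ q / 6144 := by nlinarith
  have hA1 : 2 * (q * q) * (1 - ‖α‖) ≤ 3 * q * (1 - ‖Φ z₀‖) := by
    have h3 : (1 - q * q) * (1 - ‖α‖) ≤ 1 - ‖Φ z₀‖ := by nlinarith
    have h4 : 3 * q * ((1 - q * q) * (1 - ‖α‖)) ≤ 3 * q * (1 - ‖Φ z₀‖) :=
      mul_le_mul_of_nonneg_left h3 (by positivity)
    have h5 : 2 * (q * q) ≤ 3 * q * (1 - q * q) := by nlinarith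
    have h6 := mul_le_mul_of_nonneg_right h5 hb0.le
    nlinarith
  have hpos1 : 0 < 1 - ‖Φ z₀‖ := by linarith [hΦ.lt z₀ hz₀]
  -- the ball
  obtain ⟨ρ, hρ, hsub, hle⟩ : ∃ ρ : ℝ, 0 < ρ ∧ ball (Φ z₀) ρ ⊆ Φ '' Ω ∧
      ‖Φ z - Φ z₀‖ ≤ 3 * q * ρ := by
    by_cases hk : Φ '' Ω = ball 0 1
    · refine ⟨1 - ‖Φ z₀‖, hpos1, ?_, hdist.trans hA1⟩
      rw [hk]
      intro y hy
      rw [mem_ball, dist_eq] at hy
      rw [mem_ball, dist_zero_right]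
      have h3 : y = (y - Φ z₀) + Φ z₀ := by ring
      have h4 := norm_add_le (y - Φ z₀) (Φ z₀)
      rw [← h3] at h4
      linarith
    · have hα2 : q ≤ ‖α‖ := hcase.resolve_left hk
      have hk2 : Φ '' Ω = ball 0 1 \ {0} := by
        rcases hΦ.kind with h3 | ⟨h3, -, -⟩
        · exact absurd h3 hk
        · exact h3
      have hwq : 2 / 3 * q ≤ ‖Φ z₀‖ := by
        have h3 : q * q * (1 - ‖α‖) ≤ q * q * 1 :=
          mul_le_mul_of_nonneg_left (by linarith [norm_nonneg α]) (by positivity)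
        linarith
      refine ⟨min ‖Φ z₀‖ (1 - ‖Φ z₀‖), lt_min (by linarith) hpos1, ?_, ?_⟩
      · rw [hk2]
        intro y hy
        rw [mem_ball, dist_eq] at hy
        have hy1 : ‖y - Φ z₀‖ < ‖Φ z₀‖ := hy.trans_le (min_le_left _ _)
        have hy2 : ‖y - Φ z₀‖ < 1 - ‖Φ z₀‖ := hy.trans_le (min_le_right _ _)
        refine ⟨?_, ?_⟩
        · rw [mem_ball, dist_zero_right]
          have h3 : y = (y - Φ z₀) + Φ z₀ := by ring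
          have h4 := norm_add_le (y - Φ z₀) (Φ z₀)
          rw [← h3] at h4
          linarith
        · intro hy0
          rw [mem_singleton_iff] at hy0
          rw [hy0, zero_sub, norm_neg] at hy1
          exact lt_irrefl _ hy1
      · rw [mul_min_of_nonneg _ _ (by positivity)]
        refine le_min (hdist.trans ?_) (hdist.trans hA1)
        have h3 : 2 * (q * q) * (1 - ‖α‖) ≤ 2 * (q * q) * 1 :=
          mul_le_mul_of_nonneg_left (by linarith [norm_nonneg α]) (by positivity)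
        nlinarith
  have hinj : InjOn ψ (ball (Φ z₀) ρ) := by
    intro y hy y' hy' hyy
    obtain ⟨x, hx, rfl⟩ := hsub hy
    obtain ⟨x', hx', rfl⟩ := hsub hy'
    rw [hψΦ x hx, hψΦ x' hx'] at hyy
    rw [hyy]
  have hpv : p ∉ ψ '' ball (Φ z₀) ρ := by
    rintro ⟨y, hy, hyp⟩
    obtain ⟨x, hx, rfl⟩ := hsub hy
    rw [hψΦ x hx] at hyp
    exact hp (hyp ▸ hx)
  have h1024 : ‖Φ z - Φ z₀‖ ≤ ρ / 1024 := by
    refine hle.trans ?_
    nlinarith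
  have key := logLip hρ (hψ.mono hsub) hinj hpv h1024
  rw [hψΦ z hz, hψΦ z₀ hz₀] at key
  refine key.trans (mul_le_mul_of_nonneg_right ?_ (norm_nonneg _))
  rw [div_le_iff₀ hρ]
  nlinarith

end Pool.Agent.Work.MP_2cf110_an.Hyp

end
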