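import Pool.Agent.Work.MP_2cf110_an.Hyp.Kap

/-! # The identity ∂̄_z kap = ∂̄_ζ psi

Both sides are, with q = ‖ζ-z‖²/(s y)², y = Im z (so ∂̄_z y = I/2), computed by the chain rule:
∂̄_z q = -(ζ-z)/(s y)² - 2 ‖ζ-z‖² (I/2) / (s² y³), ∂̄_ζ q = (ζ-z)/(s y)²,
∂̄_z kap = m''(q) ∂̄_z q /(s y)² - 2 m'(q) (I/2)/(s² y³),
∂̄_ζ psi = - m''(q) ∂̄_ζ q (1/(s y)² + conj(ζ-z) I/(s² y³)) - m'(q) I/(s² y³). -/

open MeasureTheory Complex Set Metric Filter
open scoped Topology ContDiff ComplexConjugate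

noncomputable section

namespace Pool.Agent.Work.MP_2cf110_an.Hyp

open QC (dz dzb Test Cau)

private theorem kb_dmm : ContDiff ℝ ∞ (deriv mm) := (contDiff_infty_iff_deriv.1 mm_facts.1).2

private theorem kb_mm2 (t : ℝ) : HasDerivAt (deriv mm) (deriv (deriv mm) t) t :=
  (kb_dmm.differentiable (by simp) t).hasDerivAt

private theorem kb_qq (s : ℝ) (z ζ : ℂ) :
    qq s z ζ = ((ζ.re - z.re) ^ 2 + (ζ.im - z.im) ^ 2) / (s * z.im) ^ 2 := by
  unfold qq
  rw [← Complex.normSq_eq_norm_sq, Complex.normSq_apply, Complex.sub_re, Complex.sub_im]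
  ring

private theorem kb_line {f : ℂ → ℂ} {z v f' : ℂ} (hf : DifferentiableAt ℝ f z)
    (h : HasDerivAt (fun t : ℝ => f (z + t • v)) f' 0) : fderiv ℝ f z v = f' := by
  rw [← hf.lineDeriv_eq_fderiv]
  exact HasLineDerivAt.lineDeriv h

private theorem kb_dz {s : ℝ} (hs : 0 < s) {z : ℂ} (hz : 0 < z.im) (ζ v : ℂ) :
    HasDerivAt (fun t : ℝ => qq s (z + t • v) ζ)
      ((-2 * ((ζ.re - z.re) * v.re + (ζ.im - z.im) * v.im) * z.im -
        2 * ((ζ.re - z.re) ^ 2 + (ζ.im - z.im) ^ 2) * v.im) / (s ^ 2 * z.im ^ 3)) 0 := by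
  have e : (fun t : ℝ => qq s (z + t • v) ζ) = fun t : ℝ =>
      ((ζ.re - (z.re + t * v.re)) ^ 2 + (ζ.im - (z.im + t * v.im)) ^ 2) /
        (s * (z.im + t * v.im)) ^ 2 := by
    funext t
    rw [kb_qq]
    simp
  rw [e]
  have h1 : HasDerivAt (fun t : ℝ => ζ.re - (z.re + t * v.re)) (-v.re) 0 := by
    have := (((hasDerivAt_id (0 : ℝ)).mul_const v.re).const_add z.re).const_sub ζ.re
    simpa using this
  have h2 : HasDerivAt (fun t : ℝ => ζ.im - (z.im + t * v.im)) (-v.im) 0 := by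
    have := (((hasDerivAt_id (0 : ℝ)).mul_const v.im).const_add z.im).const_sub ζ.im
    simpa using this
  have h3 : HasDerivAt (fun t : ℝ => s * (z.im + t * v.im)) (s * v.im) 0 := by
    have := (((hasDerivAt_id (0 : ℝ)).mul_const v.im).const_add z.im).const_mul s
    simpa using this
  have h4 := ((h1.pow 2).add (h2.pow 2)).div (h3.pow 2) (by
    show (s * (z.im + 0 * v.im)) ^ 2 ≠ 0
    rw [zero_mul, add_zero]
    exact pow_ne_zero 2 (mul_pos hs hz).ne')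
  refine h4.congr_deriv ?_
  have hs' := hs.ne'
  have hz' := hz.ne'
  simp only [zero_mul, add_zero, Pi.pow_apply, Pi.add_apply]
  field_simp
  push_cast
  ring

private theorem kb_dζ (s : ℝ) (z ζ v : ℂ) :
    HasDerivAt (fun t : ℝ => qq s z (ζ + t • v))
      (2 * ((ζ.re - z.re) * v.re + (ζ.im - z.im) * v.im) / (s * z.im) ^ 2) 0 := by
  have e : (fun t : ℝ => qq s z (ζ + t • v)) = fun t : ℝ =>
      (((ζ.re + t * v.re) - z.re) ^ 2 + ((ζ.im + t * v.im) - z.im) ^ 2) / (s * z.im) ^ 2 := by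
    funext t
    rw [kb_qq]
    simp
  rw [e]
  have h1 : HasDerivAt (fun t : ℝ => (ζ.re + t * v.re) - z.re) v.re 0 := by
    have := (((hasDerivAt_id (0 : ℝ)).mul_const v.re).const_add ζ.re).sub_const z.re
    simpa using this
  have h2 : HasDerivAt (fun t : ℝ => (ζ.im + t * v.im) - z.im) v.im 0 := by
    have := (((hasDerivAt_id (0 : ℝ)).mul_const v.im).const_add ζ.im).sub_const z.im
    simpa using this
  have h4 := ((h1.pow 2).add (h2.pow 2)).div_const ((s * z.im) ^ 2)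
  refine h4.congr_deriv ?_
  simp only [zero_mul, add_zero]
  push_cast
  ring

private theorem kb_kap {s : ℝ} (hs : 0 < s) {z : ℂ} (hz : 0 < z.im) (ζ v : ℂ) :
    HasDerivAt (fun t : ℝ => kap s (z + t • v) ζ)
      (((deriv (deriv mm) (qq s z ζ) * ((-2 * ((ζ.re - z.re) * v.re + (ζ.im - z.im) * v.im) * z.im -
        2 * ((ζ.re - z.re) ^ 2 + (ζ.im - z.im) ^ 2) * v.im) / (s ^ 2 * z.im ^ 3)) / (s * z.im) ^ 2 -
        deriv mm (qq s z ζ) * (2 * v.im / (s ^ 2 * z.im ^ 3)) : ℝ) : ℂ)) 0 := by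
  unfold kap
  apply HasDerivAt.ofReal_comp
  have h0 : qq s (z + (0 : ℝ) • v) ζ = qq s z ζ := by rw [zero_smul, add_zero]
  have h1 : HasDerivAt (fun t : ℝ => deriv mm (qq s (z + t • v) ζ))
      (deriv (deriv mm) (qq s z ζ) * ((-2 * ((ζ.re - z.re) * v.re + (ζ.im - z.im) * v.im) * z.im -
        2 * ((ζ.re - z.re) ^ 2 + (ζ.im - z.im) ^ 2) * v.im) / (s ^ 2 * z.im ^ 3))) 0 := by
    have h2 := kb_mm2 (qq s (z + (0 : ℝ) • v) ζ)
    have h3 := h2.comp (0 : ℝ) (kb_dz hs hz ζ v)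
    rw [h0] at h3
    exact h3
  have h2 : HasDerivAt (fun t : ℝ => s * (z + t • v).im) (s * v.im) 0 := by
    have := (((hasDerivAt_id (0 : ℝ)).mul_const v.im).const_add z.im).const_mul s
    simpa using this
  have h4 := h1.div (h2.pow 2) (by
    show (s * (z + (0 : ℝ) • v).im) ^ 2 ≠ 0
    rw [zero_smul, add_zero]
    exact pow_ne_zero 2 (mul_pos hs hz).ne')
  refine h4.congr_deriv ?_
  have hs' := hs.ne'
  have hz' := hz.ne'
  simp only [zero_smul, add_zero, Pi.pow_apply]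
  field_simp
  push_cast
  ring

private theorem kb_psi (s : ℝ) (z ζ v : ℂ) :
    HasDerivAt (fun t : ℝ => psi s z (ζ + t • v))
      (-(((deriv (deriv mm) (qq s z ζ) *
          (2 * ((ζ.re - z.re) * v.re + (ζ.im - z.im) * v.im) / (s * z.im) ^ 2) : ℝ) : ℂ)) *
        (((1 / (s * z.im) ^ 2 : ℝ) : ℂ) + conj (ζ - z) * I / ((s ^ 2 * z.im ^ 3 : ℝ) : ℂ)) +
        -((deriv mm (qq s z ζ) : ℝ) : ℂ) * (conj v * I / ((s ^ 2 * z.im ^ 3 : ℝ) : ℂ))) 0 := by
  unfold psi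
  have h0 : qq s z (ζ + (0 : ℝ) • v) = qq s z ζ := by rw [zero_smul, add_zero]
  have h1 : HasDerivAt (fun t : ℝ => deriv mm (qq s z (ζ + t • v)))
      (deriv (deriv mm) (qq s z ζ) *
        (2 * ((ζ.re - z.re) * v.re + (ζ.im - z.im) * v.im) / (s * z.im) ^ 2)) 0 := by
    have h2 := kb_mm2 (qq s z (ζ + (0 : ℝ) • v))
    have h3 := h2.comp (0 : ℝ) (kb_dζ s z ζ v)
    rw [h0] at h3
    exact h3
  have h2 := (h1.ofReal_comp).neg
  have h5 : HasDerivAt (fun t : ℝ => conj (ζ + t • v - z)) (conj v) 0 := by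
    have e : (fun t : ℝ => conj (ζ + t • v - z)) = fun t : ℝ => conj (ζ - z) + (t : ℂ) * conj v := by
      funext t
      rw [Complex.real_smul]
      simp only [map_add, map_sub, map_mul, Complex.conj_ofReal]
      ring
    rw [e]
    have h6 : HasDerivAt (fun t : ℝ => (t : ℂ)) 1 0 := by
      simpa using (hasDerivAt_id (0 : ℝ)).ofReal_comp
    simpa using (h6.mul_const (conj v)).const_add (conj (ζ - z))
  have h3 : HasDerivAt (fun t : ℝ => (((1 / (s * z.im) ^ 2 : ℝ) : ℂ) +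
      conj (ζ + t • v - z) * I / ((s ^ 2 * z.im ^ 3 : ℝ) : ℂ)))
      (conj v * I / ((s ^ 2 * z.im ^ 3 : ℝ) : ℂ)) 0 :=
    ((h5.mul_const I).div_const _).const_add _
  have h4 := h2.mul h3
  refine h4.congr_deriv ?_
  simp only [Pi.neg_apply, zero_smul, add_zero]

theorem kap_psi {s : ℝ} (hs : 0 < s) {z : ℂ} (hz : z ∈ Hp) (ζ : ℂ) :
    dzb (fun w => kap s w ζ) z = dzb (psi s z) ζ := by
  have hz0 : 0 < z.im := hz
  have hop : IsOpen (Hp ×ˢ (univ : Set ℂ)) := isOpen_Hp.prod isOpen_univ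
  have hmem : (z, ζ) ∈ Hp ×ˢ (univ : Set ℂ) := ⟨hz, mem_univ _⟩
  have hk : DifferentiableAt ℝ (fun w => kap s w ζ) z := by
    have h1 := ((kap_ker hs).smooth.contDiffAt (hop.mem_nhds hmem)).differentiableAt (by simp)
    exact h1.comp z (f := fun w : ℂ => (w, ζ)) (by fun_prop)
  have hp : DifferentiableAt ℝ (psi s z) ζ := by
    have h1 := ((psi_ker hs).smooth.contDiffAt (hop.mem_nhds hmem)).differentiableAt (by simp)
    exact h1.comp ζ (f := fun w : ℂ => (z, w)) (by fun_prop)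
  unfold dzb
  rw [kb_line hk (kb_kap hs hz0 ζ 1), kb_line hk (kb_kap hs hz0 ζ I),
    kb_line hp (kb_psi s z ζ 1), kb_line hp (kb_psi s z ζ I)]
  have e1 : (ζ.re : ℂ) - z.re + (ζ.im - z.im) * I = ζ - z := by
    apply Complex.ext <;> simp
  have e2 : conj (ζ - z) = (ζ.re : ℂ) - z.re - (ζ.im - z.im) * I := by
    apply Complex.ext <;> simp <;> ring
  have hsC : (s : ℂ) ≠ 0 := by exact_mod_cast hs.ne'
  have hzC : (z.im : ℂ) ≠ 0 := by exact_mod_cast hz0.ne'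
  rw [e2]
  simp only [Complex.one_re, Complex.one_im, Complex.I_re, Complex.I_im, map_one, Complex.conj_I]
  push_cast
  generalize ((deriv (deriv mm) (qq s z ζ) : ℝ) : ℂ) = A
  generalize ((deriv mm (qq s z ζ) : ℝ) : ℂ) = B
  generalize (ζ.re : ℂ) = a
  generalize (ζ.im : ℂ) = b
  generalize (z.re : ℂ) = c
  generalize (z.im : ℂ) = d at hzC ⊢
  field_simp
  ring_nf
  simp only [Complex.I_sq, show (I : ℂ) ^ 3 = -I by rw [pow_succ, Complex.I_sq]; ring]
  ring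

end Pool.Agent.Work.MP_2cf110_an.Hyp

end
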