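import Pool.Agent.Work.MP_2cf110_an.Hyp.Kap

/-! # The cut-off Cauchy kernel

Mk s z vanishes for ‖ζ - z‖ ≤ s Im z / 2, so it is smooth; ∂̄_ζ(mm(q)/(ζ-z)) = mm'(q) (ζ-z)/(s y)² / (ζ-z). -/

open MeasureTheory Complex Set Metric Filter
open scoped Topology ContDiff ComplexConjugate

noncomputable section

namespace Pool.Agent.Work.MP_2cf110_an.Hyp

open QC (dz dzb Test Cau)

private theorem kc_mm (t : ℝ) : HasDerivAt mm (deriv mm t) t :=
  (mm_facts.1.differentiable (by simp) t).hasDerivAt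

private theorem kc_qq (s : ℝ) (z ζ : ℂ) :
    qq s z ζ = ((ζ.re - z.re) ^ 2 + (ζ.im - z.im) ^ 2) / (s * z.im) ^ 2 := by
  unfold qq
  rw [← Complex.normSq_eq_norm_sq, Complex.normSq_apply, Complex.sub_re, Complex.sub_im]
  ring

private theorem kc_line {f : ℂ → ℂ} {z v f' : ℂ} (hf : DifferentiableAt ℝ f z)
    (h : HasDerivAt (fun t : ℝ => f (z + t • v)) f' 0) : fderiv ℝ f z v = f' := by
  rw [← hf.lineDeriv_eq_fderiv]
  exact HasLineDerivAt.lineDeriv h

private theorem kc_dζ (s : ℝ) (z ζ v : ℂ) :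
    HasDerivAt (fun t : ℝ => qq s z (ζ + t • v))
      (2 * ((ζ.re - z.re) * v.re + (ζ.im - z.im) * v.im) / (s * z.im) ^ 2) 0 := by
  have e : (fun t : ℝ => qq s z (ζ + t • v)) = fun t : ℝ =>
      (((ζ.re + t * v.re) - z.re) ^ 2 + ((ζ.im + t * v.im) - z.im) ^ 2) / (s * z.im) ^ 2 := by
    funext t
    rw [kc_qq]
    simp
  rw [e]
  have h1 : HasDerivAt (fun t : ℝ => (ζ.re + t * v.re) - z.re) v.re 0 := by
    have := (((hasDerivAt_id (0 : ℝ)).mul_const v.re).const_add ζ.re).sub_const z.re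
    simpa using this
  have h2 : HasDerivAt (fun t : ℝ => (ζ.im + t * v.im) - z.im) v.im 0 := by
    have := (((hasDerivAt_id (0 : ℝ)).mul_const v.im).const_add ζ.im).sub_const z.im
    simpa using this
  have h4 := ((h1.pow 2).add (h2.pow 2)).div_const ((s * z.im) ^ 2)
  refine h4.congr_deriv ?_
  simp only [zero_mul, add_zero]
  push_cast
  ring

private theorem kc_num {s : ℝ} {z : ℂ} :
    ContDiff ℝ ∞ (fun ζ : ℂ => ((mm (qq s z ζ) : ℝ) : ℂ)) := by
  have h1 : ContDiff ℝ ∞ (fun ζ : ℂ => qq s z ζ) := by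
    unfold qq
    have h2 : ContDiff ℝ ∞ (fun ζ : ℂ => ‖ζ - z‖ ^ 2) := (contDiff_id.sub contDiff_const).norm_sq ℝ
    exact h2.div_const _
  exact Complex.ofRealCLM.contDiff.comp (mm_facts.1.comp h1)

private theorem kc_numd (s : ℝ) (z ζ v : ℂ) :
    HasDerivAt (fun t : ℝ => ((mm (qq s z (ζ + t • v)) : ℝ) : ℂ))
      ((deriv mm (qq s z ζ) *
        (2 * ((ζ.re - z.re) * v.re + (ζ.im - z.im) * v.im) / (s * z.im) ^ 2) : ℝ) : ℂ) 0 := by
  apply HasDerivAt.ofReal_comp
  have h0 : qq s z (ζ + (0 : ℝ) • v) = qq s z ζ := by rw [zero_smul, add_zero]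
  have h2 := kc_mm (qq s z (ζ + (0 : ℝ) • v))
  have h3 := h2.comp (0 : ℝ) (kc_dζ s z ζ v)
  rw [h0] at h3
  exact h3

/-- `Mk` vanishes near the diagonal -/
private theorem kc_near {s : ℝ} (hs : 0 < s) {z : ℂ} (hz : z ∈ Hp) :
    Mk s z =ᶠ[𝓝 z] fun _ => (0 : ℂ) := by
  have h1 : 0 < s * z.im := mul_pos hs hz
  filter_upwards [ball_mem_nhds z (half_pos h1)] with ζ hζ
  rw [mem_ball, dist_eq_norm] at hζ
  have h2 : qq s z ζ ≤ 1 / 4 := by
    unfold qq
    rw [div_le_iff₀ (pow_pos h1 2)]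
    have h3 : ‖ζ - z‖ ^ 2 ≤ (s * z.im / 2) ^ 2 := pow_le_pow_left₀ (norm_nonneg _) hζ.le 2
    linarith [h3]
  unfold Mk
  rw [mm_facts.2.2.1 _ h2, Complex.ofReal_zero, zero_div]

theorem Mk_facts {s : ℝ} (hs : 0 < s) {z : ℂ} (hz : z ∈ Hp) :
    ContDiff ℝ ∞ (Mk s z) ∧ (∀ ζ, dzb (Mk s z) ζ = kap s z ζ) := by
  have hz0 : 0 < z.im := hz
  constructor
  · rw [contDiff_iff_contDiffAt]
    intro ζ
    by_cases hζ : ζ = z
    · rw [hζ]
      exact contDiffAt_const.congr_of_eventuallyEq (kc_near hs hz)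
    · have h1 : ContDiffAt ℝ ∞ (fun w : ℂ => (w - z)⁻¹) ζ :=
        (contDiffAt_id.sub contDiffAt_const).inv (sub_ne_zero.2 hζ)
      have h2 := (kc_num (s := s) (z := z)).contDiffAt.mul h1 (x := ζ)
      have e : Mk s z = fun w => ((mm (qq s z w) : ℝ) : ℂ) * (w - z)⁻¹ := by
        funext w
        unfold Mk
        rw [div_eq_mul_inv]
      rw [e]
      exact h2
  · intro ζ
    by_cases hζ : ζ = z
    · rw [hζ]
      have h1 : fderiv ℝ (Mk s z) z = 0 := by
        rw [(kc_near hs hz).fderiv_eq]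
        exact fderiv_const_apply 0
      have h2 : deriv mm (qq s z z) = 0 := by
        have h3 : qq s z z = 0 := by
          unfold qq
          simp
        have h4 : mm =ᶠ[𝓝 (0 : ℝ)] fun _ => (0 : ℝ) := by
          filter_upwards [Iio_mem_nhds (show (0 : ℝ) < 1 / 4 by norm_num)] with t ht
          exact mm_facts.2.2.1 t (le_of_lt ht)
        rw [h3, h4.deriv_eq, deriv_const]
      unfold dzb kap
      rw [h1, h2]
      simp
    · have hne : ζ - z ≠ 0 := sub_ne_zero.2 hζ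
      have e : Mk s z = fun w => ((mm (qq s z w) : ℝ) : ℂ) * (w - z)⁻¹ := by
        funext w
        unfold Mk
        rw [div_eq_mul_inv]
      have hf : DifferentiableAt ℝ (fun w : ℂ => ((mm (qq s z w) : ℝ) : ℂ)) ζ :=
        (kc_num (s := s) (z := z)).differentiable (by simp) ζ
      have hgC : DifferentiableAt ℂ (fun w : ℂ => (w - z)⁻¹) ζ :=
        (differentiableAt_id.sub_const z).inv hne
      have hg : DifferentiableAt ℝ (fun w : ℂ => (w - z)⁻¹) ζ := hgC.restrictScalars ℝ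
      rw [e, (QC.dz_mul hf hg).2, (QC.dz_of_holo hgC).2, mul_zero, add_zero]
      have hd : dzb (fun w : ℂ => ((mm (qq s z w) : ℝ) : ℂ)) ζ =
          ((deriv mm (qq s z ζ) : ℝ) : ℂ) * (ζ - z) / ((s * z.im) ^ 2 : ℝ) := by
        unfold dzb
        rw [kc_line hf (kc_numd s z ζ 1), kc_line hf (kc_numd s z ζ I)]
        have e1 : ζ - z = (ζ.re : ℂ) - z.re + (ζ.im - z.im) * I := by
          apply Complex.ext <;> simp
        rw [e1]
        simp only [Complex.one_re, Complex.one_im, Complex.I_re, Complex.I_im]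
        push_cast
        ring
      rw [hd]
      unfold kap
      push_cast
      field_simp

end Pool.Agent.Work.MP_2cf110_an.Hyp

end
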