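import Pool.Agent.Work.MP_2cf110_an.Hyp.PotDef

/-! # Kato type inequality for Φ = √(|κ|² + ε²)

Φ² = κ κ̄ + ε² is smooth and positive, Φ = √ is smooth.  2Φ ∂Φ = ∂(Φ²) = κ̄ ∂κ + κ conj(∂̄κ) + 2 ε ∂ε, so
|∂Φ|² ≤ ((|∂κ| + |∂̄κ|)² + 4|∂ε|²)/4 (Cauchy-Schwarz).  ∂∂̄(Φ²) = 2Φ ∂∂̄Φ + 2|∂Φ|²,
∂∂̄(κκ̄) = |∂κ|² + |∂̄κ|² + 2 Re(κ̄ ∂∂̄κ), ∂∂̄(ε²) = 2|∂ε|² + 2ε∂∂̄ε, hence
2Φ ∂∂̄Φ ≥ |∂κ|² + |∂̄κ|² - (|∂κ|+|∂̄κ|)²/2 - 2|κ||∂∂̄κ| - 2ε|∂∂̄ε| ≥ |∂κ|²/4 - |∂̄κ|²/2 - 2Φ(|∂∂̄κ| + |∂∂̄ε|). -/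

open MeasureTheory Complex Set Metric Filter
open scoped Topology ContDiff ComplexConjugate

noncomputable section

namespace Pool.Agent.Work.MP_2cf110_an.Hyp

open QC (dz dzb Test Cau)

variable {κ : ℂ → ℂ} {ε : ℂ → ℝ}

private theorem sm_dz {f : ℂ → ℂ} (h : ContDiffOn ℝ ∞ f Hp) :
    ContDiffOn ℝ ∞ (dz f) Hp ∧ ContDiffOn ℝ ∞ (dzb f) Hp := by
  have h1 : ContDiffOn ℝ ∞ (fderiv ℝ f) Hp := h.fderiv_of_isOpen isOpen_Hp (by simp)
  have h2 : ∀ v : ℂ, ContDiffOn ℝ ∞ (fun z => fderiv ℝ f z v) Hp :=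
    fun v => h1.clm_apply contDiffOn_const
  constructor
  · exact ((h2 1).sub (contDiffOn_const.mul (h2 I))).div_const 2
  · exact ((h2 1).add (contDiffOn_const.mul (h2 I))).div_const 2

private theorem sm_diff {f : ℂ → ℂ} (h : ContDiffOn ℝ ∞ f Hp) {z : ℂ} (hz : z ∈ Hp) :
    DifferentiableAt ℝ f z :=
  (h.differentiableOn (by simp)).differentiableAt (isOpen_Hp.mem_nhds hz)

private theorem comm_loc {f : ℂ → ℂ} (h : ContDiffOn ℝ ∞ f Hp) {z : ℂ} (hz : z ∈ Hp) :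
    dz (dzb f) z = dzb (dz f) z := by
  have h1 : ContDiffOn ℝ ∞ (fderiv ℝ f) Hp := h.fderiv_of_isOpen isOpen_Hp (by simp)
  have hd : DifferentiableAt ℝ (fderiv ℝ f) z :=
    (h1.differentiableOn (by simp)).differentiableAt (isOpen_Hp.mem_nhds hz)
  have h2 : ∀ v : ℂ, HasFDerivAt (fun z => fderiv ℝ f z v)
      ((ContinuousLinearMap.apply ℝ ℂ v).comp (fderiv ℝ (fderiv ℝ f) z)) z := fun v =>
    (ContinuousLinearMap.apply ℝ ℂ v).hasFDerivAt.comp z hd.hasFDerivAt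
  have hsymm : fderiv ℝ (fderiv ℝ f) z 1 I = fderiv ℝ (fderiv ℝ f) z I 1 := by
    have := (h.contDiffAt (isOpen_Hp.mem_nhds hz)).isSymmSndFDerivAt (by
      simp only [minSmoothness_of_isRCLikeNormedField]
      exact WithTop.coe_le_coe.2 (le_top : (2 : ℕ∞) ≤ ⊤))
    exact this 1 I
  have e1 : HasFDerivAt (dzb f) ((2:ℂ)⁻¹ • (((ContinuousLinearMap.apply ℝ ℂ (1:ℂ)).comp
      (fderiv ℝ (fderiv ℝ f) z)) + I • ((ContinuousLinearMap.apply ℝ ℂ I).comp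
      (fderiv ℝ (fderiv ℝ f) z)))) z := by
    have := ((h2 1).add ((h2 I).const_smul I)).const_smul (2:ℂ)⁻¹
    refine this.congr_of_eventuallyEq (Filter.Eventually.of_forall fun w => ?_)
    simp only [QC.dzb, Pi.add_apply, Pi.smul_apply, smul_eq_mul]
    ring
  have e2 : HasFDerivAt (dz f) ((2:ℂ)⁻¹ • (((ContinuousLinearMap.apply ℝ ℂ (1:ℂ)).comp
      (fderiv ℝ (fderiv ℝ f) z)) - I • ((ContinuousLinearMap.apply ℝ ℂ I).comp
      (fderiv ℝ (fderiv ℝ f) z)))) z := by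
    have := ((h2 1).sub ((h2 I).const_smul I)).const_smul (2:ℂ)⁻¹
    refine this.congr_of_eventuallyEq (Filter.Eventually.of_forall fun w => ?_)
    simp only [QC.dz, Pi.sub_apply, Pi.smul_apply, smul_eq_mul]
    ring
  have a1 : dz (dzb f) z = (fderiv ℝ (dzb f) z 1 - I * fderiv ℝ (dzb f) z I) / 2 := rfl
  have a2 : dzb (dz f) z = (fderiv ℝ (dz f) z 1 + I * fderiv ℝ (dz f) z I) / 2 := rfl
  rw [a1, a2, e1.fderiv, e2.fderiv]
  simp only [smul_apply, add_apply, sub_apply, ContinuousLinearMap.comp_apply,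
    ContinuousLinearMap.apply_apply, smul_eq_mul]
  rw [hsymm]
  ring

private theorem dz_congr {f g : ℂ → ℂ} {z : ℂ} (h : f =ᶠ[𝓝 z] g) : dz f z = dz g z ∧ dzb f z = dzb g z := by
  unfold QC.dz QC.dzb
  rw [h.fderiv_eq]
  exact ⟨rfl, rfl⟩

/-- a real function -/
private theorem real_dzb (u : ℂ → ℝ) (z : ℂ) :
    dzb (fun w => (u w : ℂ)) z = conj (dz (fun w => (u w : ℂ)) z) := by
  have h := (QC.dz_conj (fun w => (u w : ℂ)) z).2
  have e : (fun w => conj ((u w : ℂ))) = fun w => (u w : ℂ) := by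
    funext w
    exact Complex.conj_ofReal _
  rw [e] at h
  exact h

private theorem real_im {u : ℂ → ℝ} (h : ContDiffOn ℝ ∞ (fun w => (u w : ℂ)) Hp) {z : ℂ} (hz : z ∈ Hp) :
    (dz (dzb fun w => (u w : ℂ)) z).im = 0 := by
  have e : (dzb fun w => (u w : ℂ)) = fun w => conj (dz (fun w => (u w : ℂ)) w) := by
    funext w
    exact real_dzb u w
  have h1 : dz (dzb fun w => (u w : ℂ)) z = conj (dz (dzb fun w => (u w : ℂ)) z) := by
    conv_lhs => rw [e]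
    rw [(QC.dz_conj _ z).1, comm_loc h hz]
  exact Complex.conj_eq_iff_im.1 h1.symm

theorem Ph_smooth (hκ : ContDiffOn ℝ ∞ κ Hp) (hε : ContDiffOn ℝ ∞ ε Hp)
    (hp : ∀ z ∈ Hp, 0 < ε z) : ContDiffOn ℝ ∞ (fun z => (Ph κ ε z : ℂ)) Hp := by
  unfold Ph
  have h1 : ContDiffOn ℝ ∞ (fun z => ‖κ z‖ ^ 2 + ε z ^ 2) Hp :=
    (hκ.norm_sq ℝ).add (hε.pow 2)
  have h2 : ContDiffOn ℝ ∞ (fun z => √(‖κ z‖ ^ 2 + ε z ^ 2)) Hp := by
    refine h1.sqrt fun z hz => ?_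
    have := hp z hz
    positivity
  exact Complex.ofRealCLM.contDiff.comp_contDiffOn h2

private theorem Ph_pos (hp : ∀ z ∈ Hp, 0 < ε z) {z : ℂ} (hz : z ∈ Hp) : 0 < Ph κ ε z := by
  unfold Ph
  have := hp z hz
  positivity

private theorem Ph_sq (z : ℂ) : Ph κ ε z ^ 2 = ‖κ z‖ ^ 2 + ε z ^ 2 := by
  unfold Ph
  exact Real.sq_sqrt (by positivity)

private theorem Ph_fun : (fun z => (Ph κ ε z : ℂ) * (Ph κ ε z : ℂ)) =
    fun z => κ z * conj (κ z) + (ε z : ℂ) * (ε z : ℂ) := by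
  funext z
  have h := Ph_sq (κ := κ) (ε := ε) z
  rw [Complex.mul_conj, Complex.normSq_eq_norm_sq]
  have h1 : ((Ph κ ε z ^ 2 : ℝ) : ℂ) = ((‖κ z‖ ^ 2 + ε z ^ 2 : ℝ) : ℂ) := by rw [h]
  push_cast at h1 ⊢
  linear_combination h1

private theorem eps_smooth (hε : ContDiffOn ℝ ∞ ε Hp) : ContDiffOn ℝ ∞ (fun w => (ε w : ℂ)) Hp :=
  Complex.ofRealCLM.contDiff.comp_contDiffOn hε

private theorem first (hκ : ContDiffOn ℝ ∞ κ Hp) (hε : ContDiffOn ℝ ∞ ε Hp)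
    (hp : ∀ z ∈ Hp, 0 < ε z) {z : ℂ} (hz : z ∈ Hp) :
    2 * (Ph κ ε z : ℂ) * dz (fun z => (Ph κ ε z : ℂ)) z =
      dz κ z * conj (κ z) + κ z * conj (dzb κ z) + 2 * (ε z : ℂ) * dz (fun w => (ε w : ℂ)) z ∧
    2 * (Ph κ ε z : ℂ) * dzb (fun z => (Ph κ ε z : ℂ)) z =
      dzb κ z * conj (κ z) + κ z * conj (dz κ z) + 2 * (ε z : ℂ) * dzb (fun w => (ε w : ℂ)) z := by
  have dP := sm_diff (Ph_smooth hκ hε hp) hz
  have dk := sm_diff hκ hz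
  have de := sm_diff (eps_smooth hε) hz
  have dc : DifferentiableAt ℝ (fun z => conj (κ z)) z :=
    Complex.conjCLE.differentiableAt.comp z dk
  have a1 := QC.dz_mul dP dP
  have a2 := QC.dz_mul dk dc
  have a3 := QC.dz_mul de de
  have a4 := QC.dz_add (dk.mul dc) (de.mul de)
  have a5 := QC.dz_conj κ z
  have e := Ph_fun (κ := κ) (ε := ε)
  rw [e] at a1
  constructor
  · have b1 := a1.1
    have b4 := a4.1
    simp only [Pi.mul_apply] at b4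
    rw [b1] at b4
    have b2 := a2.1
    have b3 := a3.1
    rw [a5.1] at b2
    have c2 : dz (κ * fun z => conj (κ z)) z = dz (fun z => κ z * conj (κ z)) z := rfl
    have c3 : dz ((fun w => (ε w : ℂ)) * fun w => (ε w : ℂ)) z = dz (fun z => (ε z : ℂ) * (ε z : ℂ)) z := rfl
    rw [c2, c3, b2, b3] at b4
    linear_combination b4
  · have b1 := a1.2
    have b4 := a4.2
    simp only [Pi.mul_apply] at b4
    rw [b1] at b4
    have b2 := a2.2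
    have b3 := a3.2
    rw [a5.2] at b2
    have c2 : dzb (κ * fun z => conj (κ z)) z = dzb (fun z => κ z * conj (κ z)) z := rfl
    have c3 : dzb ((fun w => (ε w : ℂ)) * fun w => (ε w : ℂ)) z = dzb (fun z => (ε z : ℂ) * (ε z : ℂ)) z := rfl
    rw [c2, c3, b2, b3] at b4
    linear_combination b4

private theorem k_le (z : ℂ) : ‖κ z‖ ≤ Ph κ ε z := by
  unfold Ph
  apply Real.le_sqrt_of_sq_le
  nlinarith [sq_nonneg (ε z)]

private theorem e_le {z : ℂ} : ε z ≤ Ph κ ε z := by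
  unfold Ph
  apply Real.le_sqrt_of_sq_le
  nlinarith [sq_nonneg ‖κ z‖]

private theorem first_norm (hκ : ContDiffOn ℝ ∞ κ Hp) (hε : ContDiffOn ℝ ∞ ε Hp)
    (hp : ∀ z ∈ Hp, 0 < ε z) {z : ℂ} (hz : z ∈ Hp) :
    2 * Ph κ ε z * ‖dz (fun z => (Ph κ ε z : ℂ)) z‖ ≤
      ‖κ z‖ * (‖dz κ z‖ + ‖dzb κ z‖) + 2 * ε z * ‖dz (fun w => (ε w : ℂ)) z‖ := by
  have h := (first hκ hε hp hz).1
  have h0 := Ph_pos (κ := κ) hp hz
  have h1 := hp z hz
  have e1 : 2 * Ph κ ε z * ‖dz (fun z => (Ph κ ε z : ℂ)) z‖ =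
      ‖2 * (Ph κ ε z : ℂ) * dz (fun z => (Ph κ ε z : ℂ)) z‖ := by
    rw [norm_mul, norm_mul, Complex.norm_ofNat, Complex.norm_real, Real.norm_of_nonneg h0.le]
  rw [e1, h]
  refine (norm_add_le _ _).trans (add_le_add ((norm_add_le _ _).trans ?_) ?_)
  · rw [norm_mul, norm_mul, Complex.norm_conj, Complex.norm_conj]
    apply le_of_eq
    ring
  · rw [norm_mul, norm_mul, Complex.norm_ofNat, Complex.norm_real, Real.norm_of_nonneg h1.le]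

theorem Ph_dz (hκ : ContDiffOn ℝ ∞ κ Hp) (hε : ContDiffOn ℝ ∞ ε Hp)
    (hp : ∀ z ∈ Hp, 0 < ε z) {z : ℂ} (hz : z ∈ Hp) :
    ‖dz (fun z => (Ph κ ε z : ℂ)) z‖ ≤
      (‖dz κ z‖ + ‖dzb κ z‖) / 2 + ‖dz (fun w => (ε w : ℂ)) z‖ := by
  have h := first_norm hκ hε hp hz
  have h0 := Ph_pos (κ := κ) hp hz
  have h1 := k_le (κ := κ) (ε := ε) z
  have h2 : ε z ≤ Ph κ ε z := e_le
  have h3 : ‖κ z‖ * (‖dz κ z‖ + ‖dzb κ z‖) ≤ Ph κ ε z * (‖dz κ z‖ + ‖dzb κ z‖) :=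
    mul_le_mul_of_nonneg_right h1 (by positivity)
  have h4 : ε z * ‖dz (fun w => (ε w : ℂ)) z‖ ≤ Ph κ ε z * ‖dz (fun w => (ε w : ℂ)) z‖ :=
    mul_le_mul_of_nonneg_right h2 (norm_nonneg _)
  have h5 : 2 * Ph κ ε z * ‖dz (fun z => (Ph κ ε z : ℂ)) z‖ ≤
      2 * Ph κ ε z * ((‖dz κ z‖ + ‖dzb κ z‖) / 2 + ‖dz (fun w => (ε w : ℂ)) z‖) := by
    linarith
  exact le_of_mul_le_mul_left h5 (by positivity)

private theorem sq_bound {P k e a b t d : ℝ} (hP : 0 < P) (hk : 0 ≤ k) (he : 0 ≤ e)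
    (ha : 0 ≤ a) (hb : 0 ≤ b) (ht : 0 ≤ t) (hd : 0 ≤ d) (h : P ^ 2 = k ^ 2 + e ^ 2)
    (h1 : 2 * P * d ≤ k * (a + b) + 2 * e * t) : 4 * d ^ 2 ≤ (a + b) ^ 2 + 4 * t ^ 2 := by
  have h2 : (2 * P * d) ^ 2 ≤ (k * (a + b) + 2 * e * t) ^ 2 :=
    pow_le_pow_left₀ (by positivity) h1 2
  have h3 : (k * (a + b) + 2 * e * t) ^ 2 ≤ (k ^ 2 + e ^ 2) * ((a + b) ^ 2 + 4 * t ^ 2) := by
    nlinarith [sq_nonneg (k * (2 * t) - e * (a + b))]
  have h4 : P ^ 2 * (4 * d ^ 2) ≤ P ^ 2 * ((a + b) ^ 2 + 4 * t ^ 2) := by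
    rw [h]
    calc (k ^ 2 + e ^ 2) * (4 * d ^ 2) = (2 * P * d) ^ 2 := by rw [← h]; ring
      _ ≤ _ := h2.trans h3
  exact le_of_mul_le_mul_left h4 (by positivity)

private theorem second (hκ : ContDiffOn ℝ ∞ κ Hp) (hε : ContDiffOn ℝ ∞ ε Hp)
    (hp : ∀ z ∈ Hp, 0 < ε z) {z : ℂ} (hz : z ∈ Hp) :
    2 * (dz (fun z => (Ph κ ε z : ℂ)) z * dzb (fun z => (Ph κ ε z : ℂ)) z +
      (Ph κ ε z : ℂ) * dz (dzb fun z => (Ph κ ε z : ℂ)) z) =
    (dz (dzb κ) z * conj (κ z) + dzb κ z * conj (dzb κ z)) +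
    (dz κ z * conj (dz κ z) + κ z * conj (dz (dzb κ) z)) +
    2 * (dz (fun w => (ε w : ℂ)) z * dzb (fun w => (ε w : ℂ)) z +
      (ε z : ℂ) * dz (dzb fun w => (ε w : ℂ)) z) := by
  have sP := Ph_smooth hκ hε hp
  have se := eps_smooth hε
  have dP := sm_diff sP hz
  have dk := sm_diff hκ hz
  have de := sm_diff se hz
  have dP2 := sm_diff (sm_dz sP).2 hz
  have dk2 := sm_diff (sm_dz hκ).2 hz
  have dk1 := sm_diff (sm_dz hκ).1 hz
  have de2 := sm_diff (sm_dz se).2 hz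
  have dc : DifferentiableAt ℝ (fun z => conj (κ z)) z :=
    Complex.conjCLE.differentiableAt.comp z dk
  have dc1 : DifferentiableAt ℝ (fun z => conj (dz κ z)) z :=
    Complex.conjCLE.differentiableAt.comp z dk1
  have h1 : (fun w => (2 * (Ph κ ε w : ℂ)) * dzb (fun z => (Ph κ ε z : ℂ)) w) =ᶠ[𝓝 z]
      fun w => (dzb κ w * conj (κ w) + κ w * conj (dz κ w)) +
        (2 * (ε w : ℂ)) * dzb (fun w => (ε w : ℂ)) w := by
    filter_upwards [isOpen_Hp.mem_nhds hz] with w hw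
    exact (first hκ hε hp hw).2
  have h2 := (dz_congr h1).1
  have d2P : DifferentiableAt ℝ (fun w => (2 * (Ph κ ε w : ℂ))) z := dP.const_mul 2
  have d2e : DifferentiableAt ℝ (fun w => (2 * (ε w : ℂ))) z := de.const_mul 2
  have m2 : ∀ {f : ℂ → ℂ}, DifferentiableAt ℝ f z → dz (fun w => 2 * f w) z = 2 * dz f z := by
    intro f hf
    have h := (QC.dz_mul (f := fun _ => (2 : ℂ)) (g := f) (differentiableAt_const _) hf).1
    have h0 : dz (fun _ : ℂ => (2 : ℂ)) z = 0 := by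
      unfold QC.dz
      simp
    rw [h0] at h
    rw [h]
    ring
  have a1 := (QC.dz_mul d2P dP2).1
  have a2 := (QC.dz_mul dk2 dc).1
  have a3 := (QC.dz_mul dk dc1).1
  have a4 := (QC.dz_mul d2e de2).1
  have a5 := (QC.dz_add (f := fun w => dzb κ w * conj (κ w)) (g := fun w => κ w * conj (dz κ w))
    (z := z) (dk2.mul dc) (dk.mul dc1)).1
  have a6 := (QC.dz_add (f := fun w => (dzb κ w * conj (κ w) + κ w * conj (dz κ w)))
    (g := fun w => (2 * (ε w : ℂ)) * dzb (fun w => (ε w : ℂ)) w)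
    (z := z) ((dk2.mul dc).add (dk.mul dc1)) (d2e.mul de2)).1
  rw [m2 dP] at a1
  rw [m2 de] at a4
  rw [(QC.dz_conj κ z).1] at a2
  rw [(QC.dz_conj (dz κ) z).1, ← comm_loc hκ hz] at a3
  rw [a6, a5, a2, a3, a4] at h2
  rw [a1] at h2
  linear_combination h2

theorem kato (hκ : ContDiffOn ℝ ∞ κ Hp) (hε : ContDiffOn ℝ ∞ ε Hp)
    (hp : ∀ z ∈ Hp, 0 < ε z) {z : ℂ} (hz : z ∈ Hp) :
    ‖dz κ z‖ ^ 2 / (8 * Ph κ ε z) - ‖dzb κ z‖ ^ 2 / (4 * Ph κ ε z) - ‖dz (dzb κ) z‖ -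
      ‖dz (dzb fun w => (ε w : ℂ)) z‖ ≤ (dz (dzb fun z => (Ph κ ε z : ℂ)) z).re ∧
    (dz (dzb fun z => (Ph κ ε z : ℂ)) z).im = 0 := by
  refine ⟨?_, real_im (Ph_smooth hκ hε hp) hz⟩
  have h := second hκ hε hp hz
  have hn := first_norm hκ hε hp hz
  have hP := Ph_pos (κ := κ) hp hz
  have hk := k_le (κ := κ) (ε := ε) z
  have he : ε z ≤ Ph κ ε z := e_le
  have hq := Ph_sq (κ := κ) (ε := ε) z
  have hez := hp z hz
  rw [real_dzb, real_dzb, Complex.mul_conj, Complex.mul_conj, Complex.mul_conj, Complex.mul_conj,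
    Complex.normSq_eq_norm_sq, Complex.normSq_eq_norm_sq, Complex.normSq_eq_norm_sq,
    Complex.normSq_eq_norm_sq] at h
  have h1 := congrArg Complex.re h
  set d := ‖dz (fun z => (Ph κ ε z : ℂ)) z‖ with hd
  set t := ‖dz (fun w => (ε w : ℂ)) z‖ with ht
  set a := ‖dz κ z‖ with ha
  set b := ‖dzb κ z‖ with hb
  set P := Ph κ ε z with hPd
  set D := dz (dzb fun z => (Ph κ ε z : ℂ)) z with hD
  set E := dz (dzb fun w => (ε w : ℂ)) z with hE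
  set K := dz (dzb κ) z with hK
  have hb4 := sq_bound hP (norm_nonneg (κ z)) hez.le (norm_nonneg _) (norm_nonneg _)
    (norm_nonneg _) (norm_nonneg _) hq hn
  have r1 : (K * conj (κ z)).re ≥ -(‖κ z‖ * ‖K‖) := by
    have := Complex.abs_re_le_norm (K * conj (κ z))
    rw [norm_mul, Complex.norm_conj] at this
    have h2 := neg_abs_le (K * conj (κ z)).re
    linarith [mul_comm ‖K‖ ‖κ z‖]
  have r2 : (κ z * conj K).re ≥ -(‖κ z‖ * ‖K‖) := by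
    have := Complex.abs_re_le_norm (κ z * conj K)
    rw [norm_mul, Complex.norm_conj] at this
    have h2 := neg_abs_le (κ z * conj K).re
    linarith
  have r3 : E.re ≥ -‖E‖ := by
    have := Complex.abs_re_le_norm E
    have h2 := neg_abs_le E.re
    linarith
  have e1 : 2 * (d ^ 2 + P * D.re) = ((K * conj (κ z)).re + b ^ 2) + (a ^ 2 + (κ z * conj K).re) +
      2 * (t ^ 2 + ε z * E.re) := by
    have l : (2 * (((d ^ 2 : ℝ) : ℂ) + (P : ℂ) * D)).re = 2 * (d ^ 2 + P * D.re) := by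
      simp only [Complex.mul_re, Complex.add_re, Complex.ofReal_re, Complex.ofReal_im,
        Complex.re_ofNat, Complex.im_ofNat, zero_mul, sub_zero]
    have r : ((K * conj (κ z) + ((b ^ 2 : ℝ) : ℂ)) + (((a ^ 2 : ℝ) : ℂ) + κ z * conj K) +
        2 * (((t ^ 2 : ℝ) : ℂ) + (ε z : ℂ) * E)).re =
        ((K * conj (κ z)).re + b ^ 2) + (a ^ 2 + (κ z * conj K).re) +
        2 * (t ^ 2 + ε z * E.re) := by
      simp only [Complex.mul_re, Complex.add_re, Complex.ofReal_re, Complex.ofReal_im,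
        Complex.re_ofNat, Complex.im_ofNat, zero_mul, sub_zero]
    rw [← l, ← r]
    exact h1
  have m1 : ‖κ z‖ * ‖K‖ ≤ P * ‖K‖ := mul_le_mul_of_nonneg_right hk (norm_nonneg _)
  have m2 : ε z * E.re ≥ -(P * ‖E‖) := by
    have h5 : ε z * E.re ≥ ε z * (-‖E‖) := mul_le_mul_of_nonneg_left r3 hez.le
    have h6 : ε z * ‖E‖ ≤ P * ‖E‖ := mul_le_mul_of_nonneg_right he (norm_nonneg _)
    linarith
  have m3 : a ^ 2 / 4 - b ^ 2 / 2 - 2 * P * (‖K‖ + ‖E‖) ≤ 2 * P * D.re := by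
    nlinarith [sq_nonneg (a / 2 - b)]
  have m4 : a ^ 2 / (8 * P) - b ^ 2 / (4 * P) - ‖K‖ - ‖E‖ =
      (a ^ 2 / 4 - b ^ 2 / 2 - 2 * P * (‖K‖ + ‖E‖)) / (2 * P) := by
    field_simp
    ring
  rw [m4, div_le_iff₀ (by positivity)]
  linarith

end Pool.Agent.Work.MP_2cf110_an.Hyp

end
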