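import Pool.Agent.Work.MP_2cf110_an.Hyp.Bloch

/-! # A weak Koebe theorem

If g z₁ = v for no z₁: h = (g - v)/(g w₀ - v) is analytic, injective, without zeros on the ball, h w₀ = 1.  Primitive L of h'/h on the ball (DifferentiableOn.isExactOn_ball
or the like) with exp L = h.  L(z) - L(z') is never 2πi (then h z = h z', z = z', and L z = L z').  By bloch L(ball) contains ball q (ρ|L'(w₀)|/128); if
ρ|L'(w₀)|/128 > 4 it contains q + πi and q - πi: contradiction.  So ρ|g'(w₀)|/|g w₀ - v| ≤ 512. -/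

open MeasureTheory Complex Set Metric Filter
open scoped Topology ContDiff ComplexConjugate

noncomputable section

namespace Pool.Agent.Work.MP_2cf110_an.Hyp

open QC (dz dzb Test Cau)

theorem koe {g : ℂ → ℂ} {w₀ v : ℂ} {ρ : ℝ} (hρ : 0 < ρ) (hg : DifferentiableOn ℂ g (ball w₀ ρ))
    (hinj : InjOn g (ball w₀ ρ)) (hv : v ∉ g '' ball w₀ ρ) :
    ρ * ‖deriv g w₀‖ ≤ 512 * ‖g w₀ - v‖ := by
  have hne : ∀ z ∈ ball w₀ ρ, g z - v ≠ 0 := fun z hz h0 =>
    hv ⟨z, hz, sub_eq_zero.1 h0⟩
  have hw : w₀ ∈ ball w₀ ρ := mem_ball_self hρ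
  have hgd : ∀ z ∈ ball w₀ ρ, HasDerivAt g (deriv g z) z := fun z hz =>
    (hg.differentiableAt (isOpen_ball.mem_nhds hz)).hasDerivAt
  have hq : DifferentiableOn ℂ (fun z => deriv g z / (g z - v)) (ball w₀ ρ) :=
    (hg.deriv isOpen_ball).div (hg.sub_const v) hne
  obtain ⟨L, hL0, hL⟩ := hq.isExactOn_ball.with_val_at w₀ 0
  -- exp L = (g - v)/(g w₀ - v)
  have hconst : ∀ z ∈ ball w₀ ρ, (g z - v) * Complex.exp (-L z) = g w₀ - v := by
    have hd : ∀ z ∈ ball w₀ ρ, HasDerivAt (fun z => (g z - v) * Complex.exp (-L z)) 0 z := by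
      intro z hz
      have h1 := ((hgd z hz).sub_const v).mul ((hL z hz).neg.cexp)
      refine h1.congr_deriv ?_
      have := hne z hz
      field_simp
      ring
    intro z hz
    have h2 := (convex_ball w₀ ρ).is_const_of_fderivWithin_eq_zero (𝕜 := ℂ)
      (f := fun z => (g z - v) * Complex.exp (-L z))
      (fun z hz => (hd z hz).differentiableAt.differentiableWithinAt) (fun z hz => by
        rw [fderivWithin_of_isOpen isOpen_ball hz]
        have h3 := (hd z hz).hasFDerivAt.fderiv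
        rw [h3]
        ext
        simp) hz hw
    rw [h2, hL0, neg_zero, Complex.exp_zero, mul_one]
  have hexp : ∀ z ∈ ball w₀ ρ, g z - v = (g w₀ - v) * Complex.exp (L z) := by
    intro z hz
    rw [← hconst z hz, mul_assoc, ← Complex.exp_add, neg_add_cancel, Complex.exp_zero, mul_one]
  have hLd : DifferentiableOn ℂ L (ball w₀ ρ) := fun z hz =>
    (hL z hz).differentiableAt.differentiableWithinAt
  obtain ⟨q, hq⟩ := bloch hρ hLd
  have hLw : deriv L w₀ = deriv g w₀ / (g w₀ - v) := (hL w₀ hw).deriv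
  have hpos : 0 < ‖g w₀ - v‖ := norm_pos_iff.2 (hne w₀ hw)
  have hsmall : ρ * ‖deriv L w₀‖ / 128 ≤ 4 := by
    by_contra hcon
    rw [not_le] at hcon
    have hpi : Real.pi < 4 := Real.pi_lt_four
    have m1 : q + Real.pi * I ∈ ball q (ρ * ‖deriv L w₀‖ / 128) := by
      rw [mem_ball, dist_eq, add_sub_cancel_left, norm_mul, norm_I, mul_one, norm_real,
        Real.norm_of_nonneg Real.pi_pos.le]
      linarith
    have m2 : q - Real.pi * I ∈ ball q (ρ * ‖deriv L w₀‖ / 128) := by
      rw [mem_ball, dist_eq, sub_sub_cancel_left, norm_neg, norm_mul, norm_I, mul_one, norm_real,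
        Real.norm_of_nonneg Real.pi_pos.le]
      linarith
    obtain ⟨z, hz, hz1⟩ := hq m1
    obtain ⟨z', hz', hz1'⟩ := hq m2
    have h1 : L z = L z' + 2 * Real.pi * I := by
      rw [hz1, hz1']
      ring
    have h2 : Complex.exp (L z) = Complex.exp (L z') := by
      rw [h1, Complex.exp_add, Complex.exp_two_pi_mul_I, mul_one]
    have h3 : g z = g z' := by
      have h4 := hexp z hz
      rw [h2, ← hexp z' hz'] at h4
      exact sub_left_injective h4
    have h5 : z = z' := hinj hz hz' h3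
    rw [h5] at h1
    have h6 : (2 * Real.pi * I : ℂ) = 0 := by
      have := h1.symm
      rwa [add_eq_left] at this
    have h7 : (2 * Real.pi * I : ℂ) ≠ 0 := by
      refine mul_ne_zero (mul_ne_zero two_ne_zero ?_) I_ne_zero
      exact_mod_cast Real.pi_ne_zero
    exact h7 h6
  rw [hLw, norm_div] at hsmall
  have h8 : ρ * (‖deriv g w₀‖ / ‖g w₀ - v‖) / 128 * (128 * ‖g w₀ - v‖) = ρ * ‖deriv g w₀‖ := by
    field_simp
  rw [← h8]
  nlinarith

end Pool.Agent.Work.MP_2cf110_an.Hyp

end
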