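import Pool.Agent.Work.MP_2cf110_an.Hyp.PotDef

/-! # Cauchy-Schwarz and the absorption

cs: ∫ |f| = ∫ (|f|/√Φ) √Φ.  absorb: J ≤ C N + √(C Z N), Z ≤ C (Q + J + N) ≤ C' (N + J): √(C C' (N+J) N) ≤ J/2 + C'' N. -/

open MeasureTheory Complex Set Metric Filter
open scoped Topology ContDiff ComplexConjugate

noncomputable section

namespace Pool.Agent.Work.MP_2cf110_an.Hyp

open QC (dz dzb Test Cau)

theorem cs_phi {S : Set ℂ} (hS : MeasurableSet S) (hSf : volume S < ⊤) {f : ℂ → ℂ} {Φ : ℂ → ℝ}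
    (hf : ContinuousOn f S) (hΦ : ContinuousOn Φ S) (hpos : ∀ z ∈ S, 0 < Φ z)
    (h1 : IntegrableOn (fun z => ‖f z‖ ^ 2 / Φ z) S) (h2 : IntegrableOn Φ S) :
    ∫ z in S, ‖f z‖ ≤ √(∫ z in S, ‖f z‖ ^ 2 / Φ z) * √(∫ z in S, Φ z) := by
  have hsq : ContinuousOn (fun z => √(Φ z)) S := hΦ.sqrt
  have hsqpos : ∀ z ∈ S, 0 < √(Φ z) := fun z hz => Real.sqrt_pos.2 (hpos z hz)
  have hFc : ContinuousOn (fun z => ‖f z‖ / √(Φ z)) S :=
    hf.norm.div hsq fun z hz => (hsqpos z hz).ne'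
  have hFm : AEStronglyMeasurable (fun z => ‖f z‖ / √(Φ z)) (volume.restrict S) :=
    hFc.aestronglyMeasurable hS
  have hGm : AEStronglyMeasurable (fun z => √(Φ z)) (volume.restrict S) :=
    hsq.aestronglyMeasurable hS
  have eF : ∀ z ∈ S, (‖f z‖ / √(Φ z)) ^ 2 = ‖f z‖ ^ 2 / Φ z := by
    intro z hz
    rw [div_pow, Real.sq_sqrt (hpos z hz).le]
  have eG : ∀ z ∈ S, (√(Φ z)) ^ 2 = Φ z := fun z hz => Real.sq_sqrt (hpos z hz).le
  have hF2 : MemLp (fun z => ‖f z‖ / √(Φ z)) 2 (volume.restrict S) := by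
    rw [memLp_two_iff_integrable_sq hFm]
    exact h1.congr_fun (fun z hz => (eF z hz).symm) hS
  have hG2 : MemLp (fun z => √(Φ z)) 2 (volume.restrict S) := by
    rw [memLp_two_iff_integrable_sq hGm]
    exact h2.congr_fun (fun z hz => (eG z hz).symm) hS
  have hpq : Real.HolderConjugate 2 2 := Real.HolderConjugate.two_two
  have key := integral_mul_le_Lp_mul_Lq_of_nonneg (μ := volume.restrict S) hpq
    (f := fun z => ‖f z‖ / √(Φ z)) (g := fun z => √(Φ z))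
    (Filter.Eventually.of_forall fun z => div_nonneg (norm_nonneg _) (Real.sqrt_nonneg _))
    (Filter.Eventually.of_forall fun z => Real.sqrt_nonneg _)
    (by simpa using hF2) (by simpa using hG2)
  have e1 : ∫ z in S, ‖f z‖ / √(Φ z) * √(Φ z) = ∫ z in S, ‖f z‖ := by
    refine setIntegral_congr_fun hS fun z hz => ?_
    show ‖f z‖ / √(Φ z) * √(Φ z) = ‖f z‖
    rw [div_mul_cancel₀ _ (hsqpos z hz).ne']
  have e2 : ∫ z in S, (‖f z‖ / √(Φ z)) ^ (2 : ℝ) = ∫ z in S, ‖f z‖ ^ 2 / Φ z := by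
    refine setIntegral_congr_fun hS fun z hz => ?_
    show (‖f z‖ / √(Φ z)) ^ (2 : ℝ) = ‖f z‖ ^ 2 / Φ z
    rw [Real.rpow_two]
    exact eF z hz
  have e3 : ∫ z in S, (√(Φ z)) ^ (2 : ℝ) = ∫ z in S, Φ z := by
    refine setIntegral_congr_fun hS fun z hz => ?_
    show (√(Φ z)) ^ (2 : ℝ) = Φ z
    rw [Real.rpow_two]
    exact eG z hz
  rw [e1, e2, e3, ← Real.sqrt_eq_rpow, ← Real.sqrt_eq_rpow] at key
  exact key

theorem absorb {C : ℝ} (hC : 0 < C) : ∃ C' : ℝ, 0 < C' ∧ ∀ Q J Z N : ℝ, 0 ≤ Q → 0 ≤ J → 0 ≤ Z →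
    0 ≤ N → Q ≤ C * (N + J) → J ≤ C * N + √(C * Z * N) → Z ≤ C * (Q + J + N) →
    Q ≤ C' * N ∧ J ≤ C' * N := by
  set M : ℝ := C ^ 2 * (C + 1) with hM
  have hM0 : 0 < M := by positivity
  refine ⟨(2 * C + M + 1) + C * (2 * C + M + 2), by positivity, ?_⟩
  intro Q J Z N hQ hJ hZ hN h1 h2 h3
  have h4 : Z ≤ C * (C + 1) * (N + J) := by nlinarith
  have h5 : C * Z * N ≤ (M * N) * (N + J) := by
    have : C * Z ≤ C * (C * (C + 1) * (N + J)) := mul_le_mul_of_nonneg_left h4 hC.le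
    have h6 := mul_le_mul_of_nonneg_right this hN
    calc C * Z * N ≤ C * (C * (C + 1) * (N + J)) * N := h6
      _ = (M * N) * (N + J) := by rw [hM]; ring
  have h6 : √(C * Z * N) ≤ (M * N + (N + J)) / 2 := by
    apply Real.sqrt_le_iff.2
    constructor
    · positivity
    · nlinarith [sq_nonneg (M * N - (N + J))]
  have h7 : J ≤ (2 * C + M + 1) * N := by linarith
  constructor
  · have h8 : Q ≤ C * (N + (2 * C + M + 1) * N) :=
      h1.trans (mul_le_mul_of_nonneg_left (by linarith) hC.le)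
    have h9 : 0 ≤ (2 * C + M + 1) * N := by positivity
    calc Q ≤ C * (N + (2 * C + M + 1) * N) := h8
      _ = C * (2 * C + M + 2) * N := by ring
      _ ≤ ((2 * C + M + 1) + C * (2 * C + M + 2)) * N := by linarith
  · have h9 : 0 ≤ C * (2 * C + M + 2) * N := by positivity
    linarith

end Pool.Agent.Work.MP_2cf110_an.Hyp

end
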