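import Pool.Agent.Work.MP_2cf110_an.Hyp.LQ
import Pool.Agent.Work.MP_2cf110_an.Hyp.LAbs
import Pool.Agent.Work.MP_2cf110_an.Hyp.SmF
import Pool.Agent.Work.MP_2cf110_an.Hyp.SmC

/-! # The main estimate (L)

γ = gam, R = s Im a, κ = Sm s k, k₀ = k0 k a (16R), N = ∫_{16R} |dzb k| + R ∫_{16R} |dz κ|²/Φ + R ε(a), Q = γ |k₀ a|, J = (γ/R) ∫_{14R} |k₀'|,
Z = γ R⁻² ∫_{14R} Φ.  (1) qbound.  (2) J ≤ (γ/R) ∫_{14R} |dz κ| + C N (split1, γ ≤ C R) and cs_phi:
(γ/R) ∫ |dz κ| ≤ (γ/R) √(N/R) √(R² Z/γ) = √(γ Z N /R) ≤ √(C Z N).  (3) Φ ≤ |κ| + ε, |κ| ≤ |k₀(a)| + |k₀ - k₀(a)| + (C/R) ∫|dzb k|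
(split1), hol_poinc, ε ≤ C₁ ε(a).  absorb.  Finally for z in closedBall a R: |κ z| ≤ |k₀ a| + |k₀ z - k₀ a| + (C/R) ∫_{16R} |dzb k|, hol_sup (14R). -/

open MeasureTheory Complex Set Metric Filter
open scoped Topology ContDiff ComplexConjugate

noncomputable section

namespace Pool.Agent.Work.MP_2cf110_an.Hyp

open QC (dz dzb Test Cau)

private lemma cb_sub {s : ℝ} (hs : 0 < s) (hs1 : s ≤ 1 / 64) {a : ℂ} (ha : a ∈ Hp) :
    closedBall a (16 * (s * a.im)) ⊆ Hp := by
  intro z hz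
  have ha' : 0 < a.im := ha
  have h1 : |(z - a).im| ≤ 16 * (s * a.im) := by
    refine (Complex.abs_im_le_norm _).trans ?_
    rw [mem_closedBall, dist_eq_norm] at hz
    exact hz
  rw [Complex.sub_im, abs_le] at h1
  have h2 : 16 * (s * a.im) ≤ a.im / 4 := by nlinarith
  show 0 < z.im
  linarith [h1.1]

private lemma vol14 (a : ℂ) {R : ℝ} (hR : 0 < R) : volume.real (ball a (14 * R)) = 196 * Real.pi * R ^ 2 := by
  rw [measureReal_def, Complex.volume_ball, ENNReal.toReal_mul, ENNReal.toReal_pow,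
    ENNReal.toReal_ofReal (by positivity)]
  have : (((NNReal.pi : NNReal) : ENNReal)).toReal = Real.pi := by simp
  rw [this]
  ring

private lemma ph_le (κ : ℂ → ℂ) {ε : ℂ → ℝ} {z : ℂ} (hε : 0 ≤ ε z) : Ph κ ε z ≤ ‖κ z‖ + ε z := by
  rw [Ph]
  apply Real.sqrt_le_iff.2
  constructor
  · positivity
  · nlinarith [norm_nonneg (κ z)]

private lemma ph_pos (κ : ℂ → ℂ) {ε : ℂ → ℝ} {z : ℂ} (hε : 0 < ε z) : 0 < Ph κ ε z := by
  rw [Ph]
  exact Real.sqrt_pos.2 (by positivity)

private lemma dz_cont {κ : ℂ → ℂ} (h : ContDiff ℝ ∞ κ) : Continuous (dz κ) := by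
  have h1 : Continuous (fderiv ℝ κ) := h.continuous_fderiv (by simp)
  unfold QC.dz
  fun_prop

theorem lmain {s C₁ : ℝ} (hs : 0 < s) (hs1 : s ≤ 1 / 64) (hC₁ : 0 < C₁) : ∃ C : ℝ, 0 < C ∧
    ∀ (V : Set ℂ) (k : ℂ → ℂ) (ε : ℂ → ℝ) (a : ℂ), IsOpen V → V ⊆ Hp → Test V k → a ∈ Hp →
    ContDiffOn ℝ ∞ ε Hp → (∀ z ∈ Hp, 0 < ε z) → (∀ z ∈ ball a (16 * (s * a.im)), ε z ≤ C₁ * ε a) →
    ∀ z ∈ closedBall a (s * a.im), gam V s a * (‖Sm s k z‖ + ε z) ≤
      C * ((∫ z in ball a (16 * (s * a.im)), ‖dzb k z‖) + s * a.im *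
        (∫ z in ball a (16 * (s * a.im)), ‖dz (Sm s k) z‖ ^ 2 / Ph (Sm s k) ε z) +
        s * a.im * ε a) := by
  obtain ⟨Cq, hCq, hq⟩ := qbound hs hs1
  obtain ⟨Cs, hCs, hsp⟩ := split1 hs hs1
  obtain ⟨Cc, hCc, hcap⟩ := cap_le
  obtain ⟨Ch, hCh, hsup⟩ := hol_sup
  obtain ⟨Cp, hCp, hpo⟩ := hol_poinc
  have hπ : 0 < Real.pi := Real.pi_pos
  set G : ℝ := 8 * Cc with hG
  have hG0 : 0 < G := by positivity
  set Ca : ℝ := Cq + 196 * Real.pi * Cs * G + G + 196 * Real.pi + 14 * Cp + 196 * Real.pi * C₁ * G with hCa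
  have hCa0 : 0 < Ca := by positivity
  obtain ⟨C', hC', habs⟩ := absorb hCa0
  refine ⟨C' + Ch / 14 * C' + Cs * G + C₁ * G, by positivity, ?_⟩
  intro V k ε a hVo hV hk ha hεs hεp hεa z hz
  have hain : 0 < a.im := ha
  obtain ⟨R, hRdef⟩ : ∃ R : ℝ, R = s * a.im := ⟨_, rfl⟩
  have hR : 0 < R := by rw [hRdef]; positivity
  have hcb := cb_sub hs hs1 ha
  rw [← hRdef] at hεa hz hcb ⊢
  have hkU : Test univ k := ⟨hk.smooth, hk.cpt, subset_univ _⟩
  have hkH : Test Hp k := ⟨hk.smooth, hk.cpt, hk.sub.trans hV⟩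
  have hκ : Test Hp (Sm s k) := sm_test hs (by linarith) hkH
  obtain ⟨κ, hκd⟩ : ∃ κ, κ = Sm s k := ⟨_, rfl⟩
  rw [← hκd] at hκ ⊢
  have hκc : Continuous κ := hκ.smooth.continuous
  have hdκ : Continuous (dz κ) := dz_cont hκ.smooth
  have hdk : Continuous (dzb k) := by
    have h1 : Continuous (fderiv ℝ k) := hk.smooth.continuous_fderiv (by simp)
    unfold QC.dzb
    fun_prop
  -- the two balls
  have hb14 : ball a (14 * R) ⊆ closedBall a (14 * R) := ball_subset_closedBall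
  have hc14 : closedBall a (14 * R) ⊆ ball a (16 * R) := closedBall_subset_ball (by linarith)
  have hb16 : ball a (16 * R) ⊆ closedBall a (16 * R) := ball_subset_closedBall
  have hb1416 : ball a (14 * R) ⊆ ball a (16 * R) := ball_subset_ball (by linarith)
  have h14H : ball a (14 * R) ⊆ Hp := hb1416.trans (hb16.trans hcb)
  -- continuity and integrability
  have hεc : ContinuousOn ε Hp := hεs.continuousOn
  have hPc : ContinuousOn (Ph κ ε) Hp := by
    unfold Ph
    exact ((hκc.norm.pow 2).continuousOn.add (hεc.pow 2)).sqrt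
  have hPpos : ∀ w ∈ Hp, 0 < Ph κ ε w := fun w hw => ph_pos κ (hεp w hw)
  have hQc : ContinuousOn (fun w => ‖dz κ w‖ ^ 2 / Ph κ ε w) Hp :=
    (hdκ.norm.pow 2).continuousOn.div hPc fun w hw => (hPpos w hw).ne'
  have hQi16 : IntegrableOn (fun w => ‖dz κ w‖ ^ 2 / Ph κ ε w) (ball a (16 * R)) :=
    ((hQc.mono hcb).integrableOn_compact (isCompact_closedBall _ _)).mono_set hb16
  have hQi14 : IntegrableOn (fun w => ‖dz κ w‖ ^ 2 / Ph κ ε w) (ball a (14 * R)) :=
    hQi16.mono_set hb1416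
  have hPi14 : IntegrableOn (Ph κ ε) (ball a (14 * R)) :=
    ((hPc.mono (hc14.trans (hb16.trans hcb))).integrableOn_compact
      (isCompact_closedBall _ _)).mono_set hb14
  -- k0
  obtain ⟨hk0d, hk0c, -⟩ := k0_holo hkU a (by positivity : 0 < 16 * R)
  obtain ⟨K, hKd⟩ : ∃ K, K = k0 k a (16 * R) := ⟨_, rfl⟩
  have hq' := hq V k a hVo hk ha
  have hsp' := hsp k a hkU ha
  rw [← hRdef] at hq' hsp'
  rw [← hKd] at hk0d hk0c hq' hsp'
  rw [← hκd] at hsp'
  have hderc : ContinuousOn (deriv K) (ball a (16 * R)) :=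
    (hk0d.deriv isOpen_ball).continuousOn
  have hDi : IntegrableOn (fun w => ‖deriv K w‖) (ball a (14 * R)) :=
    (((hderc.norm).mono hc14).integrableOn_compact (isCompact_closedBall _ _)).mono_set hb14
  have hdκi : IntegrableOn (fun w => ‖dz κ w‖) (ball a (14 * R)) :=
    (hdκ.norm.continuousOn.integrableOn_compact (isCompact_closedBall a (14 * R))).mono_set hb14
  have hKi : IntegrableOn (fun w => ‖K w - K a‖) (ball a (14 * R)) :=
    ((hk0c.sub continuous_const).norm.continuousOn.integrableOn_compact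
      (isCompact_closedBall a (14 * R))).mono_set hb14
  -- names
  obtain ⟨I1, hI1⟩ : ∃ I1, I1 = ∫ w in ball a (16 * R), ‖dzb k w‖ := ⟨_, rfl⟩
  obtain ⟨I2, hI2⟩ : ∃ I2, I2 = ∫ w in ball a (16 * R), ‖dz κ w‖ ^ 2 / Ph κ ε w := ⟨_, rfl⟩
  obtain ⟨D, hD⟩ : ∃ D, D = ∫ w in ball a (14 * R), ‖deriv K w‖ := ⟨_, rfl⟩
  obtain ⟨P1, hP1⟩ : ∃ P1, P1 = ∫ w in ball a (14 * R), Ph κ ε w := ⟨_, rfl⟩
  obtain ⟨g, hg⟩ : ∃ g, g = gam V s a := ⟨_, rfl⟩
  rw [← hI1, ← hI2, ← hg]
  rw [← hI1, ← hD, ← hg] at hq'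
  rw [← hI1] at hsp'
  have hI10 : 0 ≤ I1 := by rw [hI1]; exact integral_nonneg fun _ => norm_nonneg _
  have hI20 : 0 ≤ I2 := by
    rw [hI2]
    exact setIntegral_nonneg measurableSet_ball fun w hw =>
      div_nonneg (by positivity) (hPpos w (hcb (hb16 hw))).le
  have hD0 : 0 ≤ D := by rw [hD]; exact integral_nonneg fun _ => norm_nonneg _
  have hP10 : 0 ≤ P1 := by
    rw [hP1]
    exact setIntegral_nonneg measurableSet_ball fun w hw => (hPpos w (h14H hw)).le
  have hg0 : 0 ≤ g := by rw [hg]; exact cap_nonneg _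
  have hgR : g ≤ G * R := by
    have h1 : Ea V s a ⊆ closedBall a (8 * (s * a.im)) := sdiff_subset
    have h2 := hcap (Ea V s a) a (8 * (s * a.im)) (by positivity) h1
    rw [hg, hG, hRdef]
    calc gam V s a ≤ Cc * (8 * (s * a.im)) := h2
      _ = 8 * Cc * (s * a.im) := by ring
  have he0 : 0 < ε a := hεp a ha
  obtain ⟨e, he⟩ : ∃ e, e = ε a := ⟨_, rfl⟩
  rw [← he] at hεa he0 ⊢
  set N : ℝ := I1 + R * I2 + R * e with hN
  have hN0 : 0 ≤ N := by positivity
  have hI1N : I1 ≤ N := by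
    have : 0 ≤ R * I2 := by positivity
    have : 0 ≤ R * e := by positivity
    linarith
  have hReN : R * e ≤ N := by
    have : 0 ≤ R * I2 := by positivity
    linarith
  have hRI2N : R * I2 ≤ N := by
    have : 0 ≤ R * e := by positivity
    linarith
  have hvol := vol14 a hR
  -- step 2
  have hD1 : D ≤ (∫ w in ball a (14 * R), ‖dz κ w‖) + 196 * Real.pi * Cs * I1 := by
    have h1 : D ≤ ∫ w in ball a (14 * R), (‖dz κ w‖ + Cs / R ^ 2 * I1) := by
      rw [hD]
      refine setIntegral_mono_on hDi (hdκi.add (integrableOn_const (by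
        rw [Complex.volume_ball]; finiteness))) measurableSet_ball fun w hw => ?_
      have h2 := (hsp' w hw).2
      have h3 : ‖deriv K w‖ ≤ ‖dz κ w‖ + ‖dz κ w - deriv K w‖ := by
        have h4 : deriv K w = dz κ w - (dz κ w - deriv K w) := by ring
        calc ‖deriv K w‖ = ‖dz κ w - (dz κ w - deriv K w)‖ := by rw [← h4]
          _ ≤ _ := norm_sub_le _ _
      linarith
    rw [integral_add hdκi (integrableOn_const (by rw [Complex.volume_ball]; finiteness)),
      setIntegral_const, hvol, smul_eq_mul] at h1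
    have h5 : 196 * Real.pi * R ^ 2 * (Cs / R ^ 2 * I1) = 196 * Real.pi * Cs * I1 := by
      field_simp
    rw [h5] at h1
    exact h1
  have hcs : (∫ w in ball a (14 * R), ‖dz κ w‖) ≤ √I2 * √P1 := by
    have h1 := cs_phi measurableSet_ball (by rw [Complex.volume_ball]; finiteness)
      hdκ.continuousOn (hPc.mono h14H) (fun w hw => hPpos w (h14H hw)) hQi14 hPi14
    refine h1.trans ?_
    rw [← hP1]
    refine mul_le_mul_of_nonneg_right (Real.sqrt_le_sqrt ?_) (Real.sqrt_nonneg _)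
    rw [hI2]
    refine setIntegral_mono_set hQi16 ?_ (Filter.Eventually.of_forall hb1416)
    refine (ae_restrict_iff' measurableSet_ball).2 (Filter.Eventually.of_forall fun w hw => ?_)
    exact div_nonneg (by positivity) (hPpos w (hcb (hb16 hw))).le
  set J : ℝ := g / R * D with hJ
  have hJ0 : 0 ≤ J := by positivity
  set Q : ℝ := g * ‖K a‖ with hQ
  have hQ0 : 0 ≤ Q := by positivity
  set Z : ℝ := g / R ^ 2 * P1 with hZ
  have hZ0 : 0 ≤ Z := by positivity
  have hgR' : g / R ≤ G := by rw [div_le_iff₀ hR]; exact hgR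
  have hQb : Q ≤ Ca * (N + J) := by
    have h1 : Q ≤ Cq * (I1 + J) := hq'
    have h2 : Cq ≤ Ca := by
      rw [hCa]
      have h3 : 0 ≤ 196 * Real.pi * Cs * G := by positivity
      have h4 : 0 ≤ 14 * Cp := by positivity
      have h5 : 0 ≤ 196 * Real.pi * C₁ * G := by positivity
      have h6 : 0 ≤ 196 * Real.pi := by positivity
      linarith
    calc Q ≤ Cq * (I1 + J) := h1
      _ ≤ Cq * (N + J) := mul_le_mul_of_nonneg_left (by linarith) hCq.le
      _ ≤ Ca * (N + J) := mul_le_mul_of_nonneg_right h2 (by linarith)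
  have hJb : J ≤ Ca * N + √(Ca * Z * N) := by
    have h1 : J ≤ g / R * (√I2 * √P1) + g / R * (196 * Real.pi * Cs * I1) := by
      rw [hJ, ← mul_add]
      exact mul_le_mul_of_nonneg_left (by linarith) (by positivity)
    have h2 : g / R * (196 * Real.pi * Cs * I1) ≤ Ca * N := by
      have h3 : g / R * (196 * Real.pi * Cs * I1) ≤ G * (196 * Real.pi * Cs * I1) :=
        mul_le_mul_of_nonneg_right hgR' (by positivity)
      have h4 : 196 * Real.pi * Cs * G ≤ Ca := by
        rw [hCa]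
        have h3 : 0 ≤ 14 * Cp := by positivity
        have h5 : 0 ≤ 196 * Real.pi * C₁ * G := by positivity
        have h6 : 0 ≤ 196 * Real.pi := by positivity
        linarith
      calc g / R * (196 * Real.pi * Cs * I1) ≤ G * (196 * Real.pi * Cs * I1) := h3
        _ = (196 * Real.pi * Cs * G) * I1 := by ring
        _ ≤ Ca * N := mul_le_mul h4 hI1N hI10 hCa0.le
    have h5 : g / R * (√I2 * √P1) ≤ √(Ca * Z * N) := by
      apply Real.le_sqrt_of_sq_le
      have e1 : (g / R * (√I2 * √P1)) ^ 2 = (g / R) * (R * I2) * Z := by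
        rw [mul_pow, mul_pow, Real.sq_sqrt hI20, Real.sq_sqrt hP10, hZ]
        field_simp
      rw [e1]
      have h6 : G ≤ Ca := by
        rw [hCa]
        have h3 : 0 ≤ 14 * Cp := by positivity
        have h5 : 0 ≤ 196 * Real.pi * C₁ * G := by positivity
        have h6 : 0 ≤ 196 * Real.pi := by positivity
        have h7 : 0 ≤ 196 * Real.pi * Cs * G := by positivity
        linarith
      calc (g / R) * (R * I2) * Z ≤ Ca * N * Z := by
            refine mul_le_mul_of_nonneg_right ?_ hZ0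
            exact mul_le_mul (hgR'.trans h6) hRI2N (by positivity) hCa0.le
        _ = Ca * Z * N := by ring
    linarith
  have hκb : ∀ w ∈ ball a (14 * R), ‖κ w‖ ≤ ‖K a‖ + ‖K w - K a‖ + Cs / R * I1 := by
    intro w hw
    have h1 := (hsp' w hw).1
    have h2 : κ w = K a + (K w - K a) + (κ w - K w) := by ring
    calc ‖κ w‖ = ‖K a + (K w - K a) + (κ w - K w)‖ := by rw [← h2]
      _ ≤ ‖K a + (K w - K a)‖ + ‖κ w - K w‖ := norm_add_le _ _
      _ ≤ ‖K a‖ + ‖K w - K a‖ + Cs / R * I1 := add_le_add (norm_add_le _ _) h1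
  have hZb : Z ≤ Ca * (Q + J + N) := by
    have hp := hpo K a (14 * R) (16 * R) (by positivity) (by linarith) hk0d
    rw [← hD] at hp
    have h1 : P1 ≤ ∫ w in ball a (14 * R), (‖K w - K a‖ + (‖K a‖ + Cs / R * I1 + C₁ * e)) := by
      rw [hP1]
      refine setIntegral_mono_on hPi14 (hKi.add (integrableOn_const (by
        rw [Complex.volume_ball]; finiteness))) measurableSet_ball fun w hw => ?_
      have h2 := ph_le κ (hεp w (h14H hw)).le
      have h3 := hκb w hw
      have h4 := hεa w (hb1416 hw)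
      linarith
    rw [integral_add hKi (integrableOn_const (by rw [Complex.volume_ball]; finiteness)),
      setIntegral_const, hvol, smul_eq_mul] at h1
    have h2 : P1 ≤ Cp * (14 * R) * D + 196 * Real.pi * R ^ 2 * (‖K a‖ + Cs / R * I1 + C₁ * e) := by
      linarith
    have h3 : Z ≤ g / R ^ 2 * (Cp * (14 * R) * D + 196 * Real.pi * R ^ 2 * (‖K a‖ + Cs / R * I1 + C₁ * e)) :=
      mul_le_mul_of_nonneg_left h2 (by positivity)
    have h4 : g / R ^ 2 * (Cp * (14 * R) * D + 196 * Real.pi * R ^ 2 * (‖K a‖ + Cs / R * I1 + C₁ * e))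
        = 14 * Cp * J + 196 * Real.pi * Q + 196 * Real.pi * Cs * (g / R) * I1
          + 196 * Real.pi * C₁ * (g / R) * (R * e) := by
      rw [hJ, hQ]
      field_simp
      ring
    rw [h4] at h3
    have h5 : 196 * Real.pi * Cs * (g / R) * I1 ≤ 196 * Real.pi * Cs * G * N := by
      have := mul_le_mul hgR' hI1N hI10 hG0.le
      have h6 : 0 ≤ 196 * Real.pi * Cs := by positivity
      calc 196 * Real.pi * Cs * (g / R) * I1 = 196 * Real.pi * Cs * ((g / R) * I1) := by ring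
        _ ≤ 196 * Real.pi * Cs * (G * N) := mul_le_mul_of_nonneg_left this h6
        _ = _ := by ring
    have h7 : 196 * Real.pi * C₁ * (g / R) * (R * e) ≤ 196 * Real.pi * C₁ * G * N := by
      have := mul_le_mul hgR' hReN (by positivity) hG0.le
      have h6 : 0 ≤ 196 * Real.pi * C₁ := by positivity
      calc 196 * Real.pi * C₁ * (g / R) * (R * e) = 196 * Real.pi * C₁ * ((g / R) * (R * e)) := by ring
        _ ≤ 196 * Real.pi * C₁ * (G * N) := mul_le_mul_of_nonneg_left this h6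
        _ = _ := by ring
    have h8 : 14 * Cp * J ≤ Ca * J := by
      refine mul_le_mul_of_nonneg_right ?_ hJ0
      rw [hCa]
      have h3 : 0 ≤ 196 * Real.pi * Cs * G := by positivity
      have h5 : 0 ≤ 196 * Real.pi * C₁ * G := by positivity
      have h6 : 0 ≤ 196 * Real.pi := by positivity
      linarith
    have h9 : 196 * Real.pi * Q ≤ Ca * Q := by
      refine mul_le_mul_of_nonneg_right ?_ hQ0
      rw [hCa]
      have h3 : 0 ≤ 196 * Real.pi * Cs * G := by positivity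
      have h5 : 0 ≤ 196 * Real.pi * C₁ * G := by positivity
      have h6 : 0 ≤ 14 * Cp := by positivity
      linarith
    have h10 : 196 * Real.pi * Cs * G * N + 196 * Real.pi * C₁ * G * N ≤ Ca * N := by
      rw [← add_mul]
      refine mul_le_mul_of_nonneg_right ?_ hN0
      rw [hCa]
      have h6 : 0 ≤ 14 * Cp := by positivity
      have h5 : 0 ≤ 196 * Real.pi := by positivity
      linarith
    calc Z ≤ _ := h3
      _ ≤ Ca * J + Ca * Q + Ca * N := by linarith
      _ = Ca * (Q + J + N) := by ring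
  obtain ⟨hQf, hJf⟩ := habs Q J Z N hQ0 hJ0 hZ0 hN0 hQb hJb hZb
  -- the conclusion
  have hz14 : z ∈ ball a (14 * R) := by
    rw [mem_closedBall] at hz
    rw [mem_ball]
    linarith
  have hz7 : z ∈ closedBall a (14 * R / 2) := by
    rw [mem_closedBall] at hz ⊢
    linarith
  have hsz := hsup K a (14 * R) (16 * R) (by positivity) (by linarith) hk0d z hz7
  rw [← hD] at hsz
  have h1 : ‖κ z‖ + ε z ≤ ‖K a‖ + Ch / (14 * R) * D + Cs / R * I1 + C₁ * e := by
    have h2 := hκb z hz14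
    have h3 := hεa z (hb1416 hz14)
    linarith
  have h2 : g * (‖κ z‖ + ε z) ≤ g * (‖K a‖ + Ch / (14 * R) * D + Cs / R * I1 + C₁ * e) :=
    mul_le_mul_of_nonneg_left h1 hg0
  have h3 : g * (‖K a‖ + Ch / (14 * R) * D + Cs / R * I1 + C₁ * e)
      = Q + Ch / 14 * J + Cs * (g / R) * I1 + C₁ * (g / R) * (R * e) := by
    rw [hJ, hQ]
    field_simp
  have h5 : Cs * (g / R) * I1 ≤ Cs * G * N := by
    have := mul_le_mul hgR' hI1N hI10 hG0.le
    calc Cs * (g / R) * I1 = Cs * ((g / R) * I1) := by ring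
      _ ≤ Cs * (G * N) := mul_le_mul_of_nonneg_left this hCs.le
      _ = _ := by ring
  have h7 : C₁ * (g / R) * (R * e) ≤ C₁ * G * N := by
    have := mul_le_mul hgR' hReN (by positivity) hG0.le
    calc C₁ * (g / R) * (R * e) = C₁ * ((g / R) * (R * e)) := by ring
      _ ≤ C₁ * (G * N) := mul_le_mul_of_nonneg_left this hC₁.le
      _ = _ := by ring
  have h8 : Ch / 14 * J ≤ Ch / 14 * (C' * N) := mul_le_mul_of_nonneg_left hJf (by positivity)
  calc g * (‖κ z‖ + ε z) ≤ _ := h2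
    _ = _ := h3
    _ ≤ C' * N + Ch / 14 * (C' * N) + Cs * G * N + C₁ * G * N := by linarith
    _ = (C' + Ch / 14 * C' + Cs * G + C₁ * G) * N := by ring

end Pool.Agent.Work.MP_2cf110_an.Hyp

end
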