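import Pool.Agent.Work.MP_2cf110_an.Hyp.CauBdd
import Pool.Agent.Work.MP_2cf110_an.Hyp.CauBdd2
import Pool.Agent.Work.MP_2cf110_an.Hyp.SmB
import Pool.Agent.Work.MP_2cf110_an.Hyp.SmG
import Pool.Agent.Work.MP_2cf110_an.Hyp.KerD1
import Pool.Agent.Work.MP_217185_an.CauB
import Pool.Agent.Work.MP_217185_an.Weyl

/-! # Splitting k = k₀ + k₁

k₁ = Cau (1_{ball a ρ} dzb k), k₀ = k - k₁ is continuous and weakly analytic in ball a ρ (cauBdd_cont, cauBdd_weak, QC.weyl_cont).
split1: R = s Im a, ρ = 16R; for z in ball a (14R): closedBall z (s Im z) ⊆ ball a (16R), so Sm s k = k₀ + Sm s k₁ (sm_mean; linearity) there,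
and sm_bounds_loc for k₁ with cauBdd_int: ∫_{closedBall z (s y)} ‖k₁‖ ≤ 6 s y ∫_{ball a (16R)} ‖dzb k‖. -/

open MeasureTheory Complex Set Metric Filter
open scoped Topology ContDiff ComplexConjugate

noncomputable section

namespace Pool.Agent.Work.MP_2cf110_an.Hyp

open QC (dz dzb Test Cau)

/-- the part of `k` produced outside `ball a ρ` -/
def k0 (k : ℂ → ℂ) (a : ℂ) (ρ : ℝ) (z : ℂ) : ℂ := k z - Cau ((ball a ρ).indicator (dzb k)) z

private theorem ls_data {k : ℂ → ℂ} (hk : Test univ k) (a : ℂ) (ρ : ℝ) :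
    Measurable ((ball a ρ).indicator (dzb k)) ∧
    (∃ N : ℝ, ∀ z, ‖(ball a ρ).indicator (dzb k) z‖ ≤ N) ∧
    (∀ z, z ∉ closedBall a ρ → (ball a ρ).indicator (dzb k) z = 0) ∧
    ∫ z, ‖(ball a ρ).indicator (dzb k) z‖ = ∫ z in ball a ρ, ‖dzb k z‖ := by
  have hd := hk.dz.2
  have hc : Continuous (dzb k) := hd.smooth.continuous
  refine ⟨hc.measurable.indicator measurableSet_ball, ?_, ?_, ?_⟩
  · obtain ⟨N, hN⟩ := hd.cpt.exists_bound_of_continuous hc
    refine ⟨N, fun z => ?_⟩
    exact (norm_indicator_le_norm_self _ _).trans (hN z)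
  · intro z hz
    exact indicator_of_notMem (fun h => hz (ball_subset_closedBall h)) _
  · rw [← integral_indicator measurableSet_ball]
    refine integral_congr_ae (Eventually.of_forall fun z => ?_)
    simp only
    rw [norm_indicator_eq_indicator_norm]

theorem k0_holo {k : ℂ → ℂ} (hk : Test univ k) (a : ℂ) {ρ : ℝ} (hρ : 0 < ρ) :
    DifferentiableOn ℂ (k0 k a ρ) (ball a ρ) ∧ Continuous (k0 k a ρ) ∧
    ∀ ρ' : ℝ, 0 < ρ' → ∫ z in closedBall a ρ', ‖k z - k0 k a ρ z‖ ≤
      6 * ρ' * ∫ z in ball a ρ, ‖dzb k z‖ := by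
  obtain ⟨hm, ⟨N, hN⟩, hs, hi⟩ := ls_data hk a ρ
  have hc : Continuous (Cau ((ball a ρ).indicator (dzb k))) := cauBdd_cont hρ hm hN hs
  have hkc : Continuous k := hk.smooth.continuous
  have hcont : Continuous (k0 k a ρ) := hkc.sub hc
  refine ⟨?_, hcont, ?_⟩
  · refine QC.weyl_cont isOpen_ball hcont.continuousOn ?_
    intro φ hφ
    have hφu : Test univ φ := ⟨hφ.smooth, hφ.cpt, subset_univ _⟩
    have hdc : Continuous (dzb φ) := hφu.dz.2.smooth.continuous
    have hdk : HasCompactSupport (dzb φ) := hφu.dz.2.cpt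
    have h1 := (QC.integral_mul_dz isOpen_univ (f := k) (φ := φ)
      (hk.smooth.of_le (by simp)).contDiffOn (hφ.smooth.of_le (by simp)) hφ.cpt
      (subset_univ _)).2
    have h2 := cauBdd_weak hm hN hs hφu
    have h3 : ∫ z, (ball a ρ).indicator (dzb k) z * φ z = ∫ z, dzb k z * φ z := by
      refine integral_congr_ae (Eventually.of_forall fun z => ?_)
      simp only
      by_cases hz : z ∈ ball a ρ
      · rw [indicator_of_mem hz]
      · rw [indicator_of_notMem hz, zero_mul]
        have : φ z = 0 := by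
          by_contra h
          exact hz (hφ.sub (subset_tsupport _ h))
        rw [this, mul_zero]
    have i1 : Integrable (fun z => k z * dzb φ z) :=
      (hkc.mul hdc).integrable_of_hasCompactSupport hdk.mul_left
    have i2 : Integrable (fun z => Cau ((ball a ρ).indicator (dzb k)) z * dzb φ z) :=
      (hc.mul hdc).integrable_of_hasCompactSupport hdk.mul_left
    have h4 : ∫ z, k0 k a ρ z * dzb φ z = ∫ z, (k z * dzb φ z -
        Cau ((ball a ρ).indicator (dzb k)) z * dzb φ z) := by
      refine integral_congr_ae (Eventually.of_forall fun z => ?_)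
      simp only [k0]
      ring
    rw [h4, integral_sub i1 i2, h1, h2, h3, sub_self]
  · intro ρ' hρ'
    have h1 := cauBdd_int hm hN hs (b := a) hρ'
    rw [hi] at h1
    refine le_trans (le_of_eq ?_) h1
    refine integral_congr_ae (Eventually.of_forall fun z => ?_)
    simp only [k0]
    rw [sub_sub_cancel]

private theorem ls_lin {s : ℝ} (hs : 0 < s) {u v : ℂ → ℂ} (hu : Continuous u) (hv : Continuous v)
    {z : ℂ} (hz : z ∈ Hp) : Sm s (fun w => u w + v w) z = Sm s u z + Sm s v z := by
  have hK := (kap_ker hs).test hz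
  have hc : Continuous (kap s z) := hK.1.smooth.continuous
  have i1 : Integrable (fun w => u w * kap s z w) :=
    (hu.mul hc).integrable_of_hasCompactSupport hK.1.cpt.mul_left
  have i2 : Integrable (fun w => v w * kap s z w) :=
    (hv.mul hc).integrable_of_hasCompactSupport hK.1.cpt.mul_left
  unfold Sm
  rw [← mul_add, ← integral_add i1 i2]
  congr 1
  refine integral_congr_ae (Eventually.of_forall fun w => ?_)
  simp only
  ring

theorem split1 {s : ℝ} (hs : 0 < s) (hs1 : s ≤ 1 / 64) : ∃ C : ℝ, 0 < C ∧ ∀ (k : ℂ → ℂ) (a : ℂ),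
    Test univ k → a ∈ Hp → ∀ z ∈ ball a (14 * (s * a.im)),
    ‖Sm s k z - k0 k a (16 * (s * a.im)) z‖ ≤
      C / (s * a.im) * ∫ z in ball a (16 * (s * a.im)), ‖dzb k z‖ ∧
    ‖dz (Sm s k) z - deriv (k0 k a (16 * (s * a.im))) z‖ ≤
      C / (s * a.im) ^ 2 * ∫ z in ball a (16 * (s * a.im)), ‖dzb k z‖ := by
  obtain ⟨C, hC, hb⟩ := sm_bounds_loc hs
  refine ⟨10 * C, by positivity, ?_⟩
  intro k a hk ha z hz
  have ha0 : 0 < a.im := ha
  have hR : 0 < s * a.im := mul_pos hs ha0
  have hρ : 0 < 16 * (s * a.im) := by positivity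
  obtain ⟨hm, ⟨N, hN⟩, hsu, hi⟩ := ls_data hk a (16 * (s * a.im))
  obtain ⟨hol, hcont, -⟩ := k0_holo hk a hρ
  set g : ℂ → ℂ := (ball a (16 * (s * a.im))).indicator (dzb k) with hg
  have hc1 : Continuous (Cau g) := cauBdd_cont hρ hm hN hsu
  set J : ℝ := ∫ z in ball a (16 * (s * a.im)), ‖dzb k z‖ with hJ
  have hJ0 : 0 ≤ J := integral_nonneg fun _ => norm_nonneg _
  -- geometry
  have him : ∀ w ∈ ball a (14 * (s * a.im)), 50 / 64 * a.im < w.im ∧ w.im < 78 / 64 * a.im := by
    intro w hw
    rw [mem_ball, dist_eq_norm] at hw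
    have h1 : |w.im - a.im| ≤ ‖w - a‖ := by
      rw [← Complex.sub_im]
      exact Complex.abs_im_le_norm _
    have h2 : s * a.im ≤ 1 / 64 * a.im := mul_le_mul_of_nonneg_right hs1 ha0.le
    rw [abs_le] at h1
    constructor <;> linarith
  have hHp : ∀ w ∈ ball a (14 * (s * a.im)), w ∈ Hp := by
    intro w hw
    have := (him w hw).1
    show 0 < w.im
    nlinarith
  have hsub : ∀ w ∈ ball a (14 * (s * a.im)), closedBall w (s * w.im) ⊆
      ball a (16 * (s * a.im)) := by
    intro w hw ζ hζ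
    have h1 := (him w hw).2
    rw [mem_ball] at hw ⊢
    rw [mem_closedBall] at hζ
    have h2 : s * w.im < s * (78 / 64 * a.im) := mul_lt_mul_of_pos_left h1 hs
    have h3 := dist_triangle ζ w a
    nlinarith
  -- the splitting
  have hsplit : ∀ w ∈ ball a (14 * (s * a.im)), Sm s k w =
      k0 k a (16 * (s * a.im)) w + Sm s (Cau g) w := by
    intro w hw
    have h1 := ls_lin hs hcont hc1 (hHp w hw)
    have h2 : (fun w => k0 k a (16 * (s * a.im)) w + Cau g w) = k := by
      funext w
      simp only [k0, ← hg]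
      ring
    rw [h2, sm_mean hs isOpen_ball hol (hHp w hw) (hsub w hw)] at h1
    exact h1
  have hzH : z ∈ Hp := hHp z hz
  obtain ⟨b1, b2⟩ := hb (Cau g) hc1.locallyIntegrable z hzH
  have hz0 : 0 < z.im := hzH
  have hint : ∫ ζ in closedBall z (s * z.im), ‖Cau g ζ‖ ≤ 6 * (s * z.im) * J := by
    have := cauBdd_int hm hN hsu (b := z) (ρ' := s * z.im) (by positivity)
    rwa [hi] at this
  have hlow := (him z hz).1
  have hlow2 : (50 / 64 * a.im) ^ 2 ≤ z.im ^ 2 := pow_le_pow_left₀ (by positivity) hlow.le 2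
  constructor
  · rw [hsplit z hz, add_sub_cancel_left]
    refine b1.trans ?_
    calc C / z.im ^ 2 * ∫ ζ in closedBall z (s * z.im), ‖Cau g ζ‖
        ≤ C / z.im ^ 2 * (6 * (s * z.im) * J) := mul_le_mul_of_nonneg_left hint (by positivity)
      _ = 6 * C * s * J / z.im := by field_simp
      _ ≤ 10 * C / (s * a.im) * J := by
          rw [div_le_iff₀ hz0]
          have h1 : 10 * C / (s * a.im) * J * (50 / 64 * a.im) ≤
              10 * C / (s * a.im) * J * z.im :=
            mul_le_mul_of_nonneg_left hlow.le (by positivity)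
          refine le_trans ?_ h1
          have h2 : 10 * C / (s * a.im) * J * (50 / 64 * a.im) = C * J * (500 / 64) / s := by
            field_simp
            ring
          rw [h2, le_div_iff₀ hs]
          have h3 : s * s ≤ 1 := by nlinarith
          have h4 : 0 ≤ C * J := by positivity
          nlinarith
  · have hev : Sm s k =ᶠ[𝓝 z] fun w => k0 k a (16 * (s * a.im)) w + Sm s (Cau g) w := by
      filter_upwards [isOpen_ball.mem_nhds hz] with w hw
      exact hsplit w hw
    have hz16 : z ∈ ball a (16 * (s * a.im)) := hsub z hz (mem_closedBall_self (by positivity))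
    have hd0 : DifferentiableAt ℂ (k0 k a (16 * (s * a.im))) z :=
      hol.differentiableAt (isOpen_ball.mem_nhds hz16)
    have hd1 : DifferentiableAt ℝ (Sm s (Cau g)) z :=
      ((sm_smooth hs hc1.locallyIntegrable).contDiffAt (isOpen_Hp.mem_nhds hzH)).differentiableAt
        (by simp)
    have h1 : dz (Sm s k) z = deriv (k0 k a (16 * (s * a.im))) z + dz (Sm s (Cau g)) z := by
      have h2 : dz (Sm s k) z = dz (fun w => k0 k a (16 * (s * a.im)) w + Sm s (Cau g) w) z := by
        unfold QC.dz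
        rw [hev.fderiv_eq]
      rw [h2, (QC.dz_add (hd0.restrictScalars ℝ) hd1).1, (QC.dz_of_holo hd0).1]
    rw [h1, add_sub_cancel_left]
    refine b2.trans ?_
    calc C / z.im ^ 3 * ∫ ζ in closedBall z (s * z.im), ‖Cau g ζ‖
        ≤ C / z.im ^ 3 * (6 * (s * z.im) * J) := mul_le_mul_of_nonneg_left hint (by positivity)
      _ = 6 * C * s * J / z.im ^ 2 := by field_simp
      _ ≤ 10 * C / (s * a.im) ^ 2 * J := by
          rw [div_le_iff₀ (by positivity)]
          have h1 : 10 * C / (s * a.im) ^ 2 * J * (50 / 64 * a.im) ^ 2 ≤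
              10 * C / (s * a.im) ^ 2 * J * z.im ^ 2 :=
            mul_le_mul_of_nonneg_left hlow2 (by positivity)
          refine le_trans ?_ h1
          have h2 : 10 * C / (s * a.im) ^ 2 * J * (50 / 64 * a.im) ^ 2 =
              C * J * (25000 / 4096) / s ^ 2 := by
            field_simp
            ring
          rw [h2, le_div_iff₀ (by positivity)]
          have h3 : s ^ 3 ≤ 1 := pow_le_one₀ hs.le (by linarith)
          have h4 : 0 ≤ C * J := by positivity
          nlinarith

end Pool.Agent.Work.MP_2cf110_an.Hyp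

end
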