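import Pool.Agent.Work.MP_2cf110_an.Hyp.Defs

/-! # A Poincaré inequality for analytic functions

sup: for z in closedBall a (ρ/2), |h'(z)| ≤ (4/(π ρ²)) ∫_{ball a ρ} |h'| (mean value property on ball z (ρ/2)), and
|h z - h a| ≤ (ρ/2) sup |h'|.  integral: h z - h (a + (z-a)/2) = ∫_{1/2}^1 h'(a + t(z-a)) (z-a) dt; integrate over ball a ρ, Fubini, and
∫_{ball a ρ} |h'(a + t(z-a))| dz = t⁻² ∫_{ball a (tρ)} |h'| ≤ 4 ∫_{ball a ρ} |h'|. -/

open MeasureTheory Complex Set Metric Filter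
open scoped Topology ContDiff ComplexConjugate Pointwise

noncomputable section

namespace Pool.Agent.Work.MP_2cf110_an.Hyp

open QC (dz dzb Test Cau)

private theorem ball_shift {E : Type*} [NormedAddCommGroup E] [NormedSpace ℝ E] (f : ℂ → E) (a : ℂ) (r : ℝ) :
    ∫ z in ball a r, f z = ∫ w in ball (0 : ℂ) r, f (a + w) := by
  have h := (measurePreserving_add_left (volume : Measure ℂ) a).setIntegral_preimage_emb
    (measurableEmbedding_addLeft a) f (ball a r)
  have h2 : (fun w => a + w) ⁻¹' ball a r = ball (0 : ℂ) r := by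
    ext w
    simp [mem_ball, dist_eq_norm]
  rw [h2] at h
  exact h.symm

private theorem ball_rot (f : ℂ → ℝ) (r θ : ℝ) :
    ∫ w in ball (0 : ℂ) r, f (exp (θ * I) * w) = ∫ w in ball (0 : ℂ) r, f w := by
  have h := ((rotation (Circle.exp θ)).measurePreserving).setIntegral_preimage_emb
    (rotation (Circle.exp θ)).toHomeomorph.measurableEmbedding f (ball 0 r)
  have h2 : (fun w => rotation (Circle.exp θ) w) ⁻¹' ball (0 : ℂ) r = ball (0 : ℂ) r := by
    ext w
    simp [mem_ball, dist_eq_norm]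
  change ∫ x in (fun w => rotation (Circle.exp θ) w) ⁻¹' ball (0 : ℂ) r,
    f (rotation (Circle.exp θ) x) = _ at h
  rw [h2] at h
  rw [← h]
  refine integral_congr_ae (Eventually.of_forall fun w => ?_)
  simp [rotation_apply, Circle.coe_exp]

private theorem vol_ball (r : ℝ) (hr : 0 ≤ r) : (volume : Measure ℂ).real (ball (0 : ℂ) r) =
    Real.pi * r ^ 2 := by
  rw [Measure.real, Complex.volume_ball, ENNReal.toReal_mul, ENNReal.toReal_pow,
    ENNReal.toReal_ofReal hr, ENNReal.coe_toReal, NNReal.coe_real_pi]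
  ring

/-- sub-mean value property -/
private theorem smv {g : ℂ → ℂ} {z : ℂ} {r R : ℝ} (hr : 0 < r) (hR : r < R)
    (hg : DifferentiableOn ℂ g (ball z R)) :
    Real.pi * r ^ 2 * ‖g z‖ ≤ ∫ w in ball z r, ‖g w‖ := by
  have hcont : ContinuousOn g (ball z R) := hg.continuousOn
  -- pointwise
  have h1 : ∀ w ∈ ball (0 : ℂ) r, ‖g z‖ ≤
      (2 * Real.pi)⁻¹ * ∫ θ in Ioc (0 : ℝ) (2 * Real.pi), ‖g (z + exp (θ * I) * w)‖ := by
    intro w hw
    have hw' : ‖w‖ < r := by simpa using hw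
    have hmap : ∀ ξ : ℂ, ‖ξ‖ ≤ 1 → z + ξ * w ∈ ball z R := by
      intro ξ hξ
      rw [mem_ball, dist_eq_norm, add_sub_cancel_left, norm_mul]
      calc ‖ξ‖ * ‖w‖ ≤ 1 * ‖w‖ := by gcongr
        _ = ‖w‖ := one_mul _
        _ < R := hw'.trans hR
    have hu : Real.circleAverage (fun ξ => g (z + ξ * w)) 0 1 = g (z + 0 * w) := by
      have := circleAverage_of_differentiable_on_off_countable (s := ∅) (c := (0 : ℂ)) (R := 1)
        (f := fun ξ => g (z + ξ * w)) countable_empty ?_ ?_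
      · exact this
      · refine hcont.comp (by fun_prop) ?_
        intro ξ hξ
        exact hmap ξ (by simpa using hξ)
      · intro ξ hξ
        have hξ' : ‖ξ‖ < 1 := by simpa using hξ.1
        have h3 : DifferentiableAt ℂ g (z + ξ * w) :=
          (hg _ (hmap ξ hξ'.le)).differentiableAt (isOpen_ball.mem_nhds (hmap ξ hξ'.le))
        exact h3.comp ξ (by fun_prop : DifferentiableAt ℂ (fun ξ : ℂ => z + ξ * w) ξ)
    have hz : g z = (2 * Real.pi)⁻¹ • ∫ θ in (0 : ℝ)..2 * Real.pi, g (z + exp (θ * I) * w) := by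
      rw [zero_mul, add_zero] at hu
      rw [← hu, Real.circleAverage]
      simp [circleMap]
    calc ‖g z‖ = ‖(2 * Real.pi)⁻¹ • ∫ θ in (0 : ℝ)..2 * Real.pi, g (z + exp (θ * I) * w)‖ := by
          rw [← hz]
      _ = (2 * Real.pi)⁻¹ * ‖∫ θ in (0 : ℝ)..2 * Real.pi, g (z + exp (θ * I) * w)‖ := by
          rw [norm_smul, Real.norm_of_nonneg (by positivity)]
      _ ≤ (2 * Real.pi)⁻¹ * ∫ θ in (0 : ℝ)..2 * Real.pi, ‖g (z + exp (θ * I) * w)‖ := by
          gcongr
          exact intervalIntegral.norm_integral_le_integral_norm (by positivity)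
      _ = _ := by rw [intervalIntegral.integral_of_le (by positivity)]
  -- integrability on the product
  have hcp : ContinuousOn (fun p : ℂ × ℝ => ‖g (z + exp (p.2 * I) * p.1)‖)
      (closedBall (0 : ℂ) r ×ˢ Icc (0 : ℝ) (2 * Real.pi)) := by
    refine ContinuousOn.norm (hcont.comp (by fun_prop) ?_)
    rintro ⟨w, θ⟩ ⟨hw, -⟩
    have hw' : ‖w‖ ≤ r := by simpa using hw
    change z + exp (θ * I) * w ∈ ball z R
    rw [mem_ball, dist_eq_norm, add_sub_cancel_left, norm_mul, norm_exp_ofReal_mul_I, one_mul]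
    exact hw'.trans_lt hR
  have hint : Integrable (Function.uncurry fun (w : ℂ) (θ : ℝ) => ‖g (z + exp (θ * I) * w)‖)
      ((volume.restrict (ball (0 : ℂ) r)).prod (volume.restrict (Ioc (0 : ℝ) (2 * Real.pi)))) := by
    rw [Measure.prod_restrict]
    have h4 : IntegrableOn (fun p : ℂ × ℝ => ‖g (z + exp (p.2 * I) * p.1)‖)
        (closedBall (0 : ℂ) r ×ˢ Icc (0 : ℝ) (2 * Real.pi)) :=
      hcp.integrableOn_compact ((isCompact_closedBall 0 r).prod isCompact_Icc)
    exact h4.mono_set (prod_mono ball_subset_closedBall Ioc_subset_Icc_self)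
  have hfin : (volume : Measure ℂ) (ball (0 : ℂ) r) ≠ ⊤ := measure_ball_lt_top.ne
  have hpi : (0 : ℝ) < 2 * Real.pi := by positivity
  calc Real.pi * r ^ 2 * ‖g z‖ = ∫ w in ball (0 : ℂ) r, ‖g z‖ := by
        rw [setIntegral_const, vol_ball r hr.le, smul_eq_mul]
    _ ≤ ∫ w in ball (0 : ℂ) r, (2 * Real.pi)⁻¹ *
          ∫ θ in Ioc (0 : ℝ) (2 * Real.pi), ‖g (z + exp (θ * I) * w)‖ := by
        refine setIntegral_mono_on ?_ ?_ measurableSet_ball h1
        · exact integrableOn_const hfin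
        · exact (hint.integral_prod_left).const_mul _
    _ = (2 * Real.pi)⁻¹ * ∫ θ in Ioc (0 : ℝ) (2 * Real.pi),
          ∫ w in ball (0 : ℂ) r, ‖g (z + exp (θ * I) * w)‖ := by
        rw [integral_const_mul, integral_integral_swap hint]
    _ = (2 * Real.pi)⁻¹ * ∫ θ in Ioc (0 : ℝ) (2 * Real.pi),
          ∫ w in ball (0 : ℂ) r, ‖g (z + w)‖ := by
        congr 1
        refine integral_congr_ae (Eventually.of_forall fun θ => ?_)
        exact ball_rot (fun w => ‖g (z + w)‖) r θ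
    _ = ∫ w in ball (0 : ℂ) r, ‖g (z + w)‖ := by
        rw [setIntegral_const, smul_eq_mul, Measure.real, Real.volume_Ioc, sub_zero,
          ENNReal.toReal_ofReal hpi.le, ← mul_assoc, inv_mul_cancel₀ hpi.ne', one_mul]
    _ = ∫ w in ball z r, ‖g w‖ := (ball_shift (fun w => ‖g w‖) z r).symm

theorem hol_sup : ∃ C : ℝ, 0 < C ∧ ∀ (h : ℂ → ℂ) (a : ℂ) (ρ ρ' : ℝ), 0 < ρ → ρ < ρ' →
    DifferentiableOn ℂ h (ball a ρ') → ∀ z ∈ closedBall a (ρ / 2),
    ‖h z - h a‖ ≤ C / ρ * ∫ z in ball a ρ, ‖deriv h z‖ := by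
  refine ⟨1, one_pos, ?_⟩
  intro h a ρ ρ' hρ hρ' hh z hz
  have hd : DifferentiableOn ℂ (deriv h) (ball a ρ') := hh.deriv isOpen_ball
  have hcd : ContinuousOn (fun w => ‖deriv h w‖) (ball a ρ') := hd.continuousOn.norm
  have hi : IntegrableOn (fun w => ‖deriv h w‖) (ball a ρ) :=
    ((hcd.mono (closedBall_subset_ball hρ')).integrableOn_compact (isCompact_closedBall a ρ)).mono_set
      ball_subset_closedBall
  set J := ∫ z in ball a ρ, ‖deriv h z‖ with hJ
  have hJ0 : 0 ≤ J := integral_nonneg fun _ => norm_nonneg _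
  have key : ∀ ζ ∈ closedBall a (ρ / 2), ‖deriv h ζ‖ ≤ 2 / ρ ^ 2 * J := by
    intro ζ hζ
    have hζ' : dist ζ a ≤ ρ / 2 := hζ
    have hsub : ball ζ (ρ / 2 + (ρ' - ρ)) ⊆ ball a ρ' := by
      intro w hw
      rw [mem_ball] at hw ⊢
      have := dist_triangle w ζ a
      linarith
    have hsub2 : ball ζ (ρ / 2) ⊆ ball a ρ := by
      intro w hw
      rw [mem_ball] at hw ⊢
      have := dist_triangle w ζ a
      linarith
    have h1 := smv (g := deriv h) (z := ζ) (r := ρ / 2) (R := ρ / 2 + (ρ' - ρ)) (by linarith)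
      (by linarith) (hd.mono hsub)
    have h2 : ∫ w in ball ζ (ρ / 2), ‖deriv h w‖ ≤ J :=
      setIntegral_mono_set hi (Eventually.of_forall fun _ => norm_nonneg _)
        (Eventually.of_forall hsub2)
    have h3 : Real.pi * (ρ / 2) ^ 2 * ‖deriv h ζ‖ ≤ J := h1.trans h2
    have h4 : ρ ^ 2 / 2 * ‖deriv h ζ‖ ≤ J := by
      refine le_trans ?_ h3
      gcongr
      nlinarith [Real.pi_gt_three, sq_nonneg ρ]
    rw [div_mul_eq_mul_div, le_div_iff₀ (by positivity)]
    nlinarith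
  have h5 := (convex_closedBall a (ρ / 2)).norm_image_sub_le_of_norm_deriv_le (𝕜 := ℂ) (f := h)
    (x := a) (y := z) (C := 2 / ρ ^ 2 * J) ?_ key (mem_closedBall_self (by linarith)) hz
  · have hz' : ‖z - a‖ ≤ ρ / 2 := by simpa [dist_eq_norm] using hz
    calc ‖h z - h a‖ ≤ 2 / ρ ^ 2 * J * ‖z - a‖ := h5
      _ ≤ 2 / ρ ^ 2 * J * (ρ / 2) := by gcongr
      _ = 1 / ρ * J := by field_simp
  · intro w hw
    have hw' : w ∈ ball a ρ' := by
      have : dist w a ≤ ρ / 2 := hw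
      rw [mem_ball]
      linarith
    exact (hh w hw').differentiableAt (isOpen_ball.mem_nhds hw')

theorem hol_poinc : ∃ C : ℝ, 0 < C ∧ ∀ (h : ℂ → ℂ) (a : ℂ) (ρ ρ' : ℝ), 0 < ρ → ρ < ρ' →
    DifferentiableOn ℂ h (ball a ρ') →
    ∫ z in ball a ρ, ‖h z - h a‖ ≤ C * ρ * ∫ z in ball a ρ, ‖deriv h z‖ := by
  obtain ⟨C, hC, hsup⟩ := hol_sup
  refine ⟨2 + Real.pi * C, by positivity, ?_⟩
  intro h a ρ ρ' hρ hρ' hh
  have hd : DifferentiableOn ℂ (deriv h) (ball a ρ') := hh.deriv isOpen_ball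
  have hcd : ContinuousOn (fun w => ‖deriv h w‖) (ball a ρ') := hd.continuousOn.norm
  have hch : ContinuousOn h (ball a ρ') := hh.continuousOn
  set J := ∫ z in ball a ρ, ‖deriv h z‖ with hJ
  have hJ0 : 0 ≤ J := integral_nonneg fun _ => norm_nonneg _
  have hJ1 : J = ∫ w in ball (0 : ℂ) ρ, ‖deriv h (a + w)‖ := ball_shift (fun w => ‖deriv h w‖) a ρ
  have hmem : ∀ w ∈ closedBall (0 : ℂ) ρ, ∀ t : ℝ, 0 ≤ t → t ≤ 1 → a + t * w ∈ ball a ρ' := by
    intro w hw t ht ht1
    have hw' : ‖w‖ ≤ ρ := by simpa using hw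
    rw [mem_ball, dist_eq_norm, add_sub_cancel_left, norm_mul, norm_real, Real.norm_of_nonneg ht]
    calc t * ‖w‖ ≤ 1 * ρ := by gcongr
      _ < ρ' := by linarith
  rw [ball_shift (fun z => ‖h z - h a‖) a ρ]
  -- product integrability
  have hcp : ContinuousOn (fun p : ℂ × ℝ => ‖deriv h (a + p.2 * p.1)‖)
      (closedBall (0 : ℂ) ρ ×ˢ Icc (1 / 2 : ℝ) 1) := by
    refine hcd.comp (by fun_prop) ?_
    rintro ⟨w, t⟩ ⟨hw, ht⟩
    exact hmem w hw t (by linarith [ht.1]) ht.2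
  have hint : Integrable (Function.uncurry fun (w : ℂ) (t : ℝ) => ‖deriv h (a + t * w)‖)
      ((volume.restrict (ball (0 : ℂ) ρ)).prod (volume.restrict (Ioc (1 / 2 : ℝ) 1))) := by
    rw [Measure.prod_restrict]
    have h4 : IntegrableOn (fun p : ℂ × ℝ => ‖deriv h (a + p.2 * p.1)‖)
        (closedBall (0 : ℂ) ρ ×ˢ Icc (1 / 2 : ℝ) 1) :=
      hcp.integrableOn_compact ((isCompact_closedBall 0 ρ).prod isCompact_Icc)
    exact h4.mono_set (prod_mono ball_subset_closedBall Ioc_subset_Icc_self)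
  have hfin : (volume : Measure ℂ) (ball (0 : ℂ) ρ) ≠ ⊤ := measure_ball_lt_top.ne
  -- pointwise bound
  have hpt : ∀ w ∈ ball (0 : ℂ) ρ, ‖h (a + w) - h a‖ ≤
      ρ * (∫ t in Ioc (1 / 2 : ℝ) 1, ‖deriv h (a + t * w)‖) + C / ρ * J := by
    intro w hw
    have hw' : w ∈ closedBall (0 : ℂ) ρ := ball_subset_closedBall hw
    have hwn : ‖w‖ ≤ ρ := by simpa using hw'
    have hder : ∀ t ∈ uIcc (1 / 2 : ℝ) 1, HasDerivAt (fun t : ℝ => h (a + t * w))
        (deriv h (a + t * w) * w) t := by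
      intro t ht
      rw [uIcc_of_le (by norm_num)] at ht
      have hm := hmem w hw' t (by linarith [ht.1]) ht.2
      have h1 : HasDerivAt h (deriv h (a + t * w)) (a + t * w) :=
        ((hh _ hm).differentiableAt (isOpen_ball.mem_nhds hm)).hasDerivAt
      have h2 : HasDerivAt (fun t : ℝ => a + (t : ℂ) * w) w t := by
        have := ((hasDerivAt_id t).ofReal_comp.mul_const w).const_add a
        simpa using this
      have := h1.comp_of_eq (t : ℝ) h2 rfl
      exact this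
    have hci : ContinuousOn (fun t : ℝ => deriv h (a + t * w) * w) (uIcc (1 / 2 : ℝ) 1) := by
      refine ContinuousOn.mul (hd.continuousOn.comp (by fun_prop) ?_) continuousOn_const
      intro t ht
      rw [uIcc_of_le (by norm_num)] at ht
      exact hmem w hw' t (by linarith [ht.1]) ht.2
    have hftc := intervalIntegral.integral_eq_sub_of_hasDerivAt hder hci.intervalIntegrable
    have h1 : ‖h (a + w) - h (a + ((1 / 2 : ℝ) : ℂ) * w)‖ ≤
        ρ * (∫ t in Ioc (1 / 2 : ℝ) 1, ‖deriv h (a + t * w)‖) := by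
      have e1 : h (a + w) - h (a + ((1 / 2 : ℝ) : ℂ) * w) =
          ∫ t in (1 / 2 : ℝ)..1, deriv h (a + t * w) * w := by
        rw [hftc]
        simp
      rw [e1, intervalIntegral.integral_of_le (by norm_num)]
      calc ‖∫ t in Ioc (1 / 2 : ℝ) 1, deriv h (a + t * w) * w‖
          ≤ ∫ t in Ioc (1 / 2 : ℝ) 1, ‖deriv h (a + t * w) * w‖ := norm_integral_le_integral_norm _
        _ = (∫ t in Ioc (1 / 2 : ℝ) 1, ‖deriv h (a + t * w)‖) * ‖w‖ := by
            simp_rw [norm_mul]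
            rw [integral_mul_const]
        _ ≤ (∫ t in Ioc (1 / 2 : ℝ) 1, ‖deriv h (a + t * w)‖) * ρ := by
            gcongr
        _ = _ := mul_comm _ _
    have h2 : ‖h (a + ((1 / 2 : ℝ) : ℂ) * w) - h a‖ ≤ C / ρ * J := by
      refine hsup h a ρ ρ' hρ hρ' hh _ ?_
      rw [mem_closedBall, dist_eq_norm, add_sub_cancel_left, norm_mul, norm_real,
        Real.norm_of_nonneg (by norm_num)]
      linarith
    calc ‖h (a + w) - h a‖ = ‖(h (a + w) - h (a + ((1 / 2 : ℝ) : ℂ) * w)) +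
          (h (a + ((1 / 2 : ℝ) : ℂ) * w) - h a)‖ := by ring_nf
      _ ≤ _ := (norm_add_le _ _).trans (add_le_add h1 h2)
  have hI1 : IntegrableOn (fun w => ‖h (a + w) - h a‖) (ball (0 : ℂ) ρ) := by
    have hc : ContinuousOn (fun w => ‖h (a + w) - h a‖) (closedBall (0 : ℂ) ρ) := by
      refine ContinuousOn.norm (ContinuousOn.sub (hch.comp (by fun_prop) ?_) continuousOn_const)
      intro w hw
      have := hmem w hw 1 zero_le_one le_rfl
      simpa using this
    exact (hc.integrableOn_compact (isCompact_closedBall 0 ρ)).mono_set ball_subset_closedBall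
  have hI2 : IntegrableOn (fun w => ρ * ∫ t in Ioc (1 / 2 : ℝ) 1, ‖deriv h (a + t * w)‖)
      (ball (0 : ℂ) ρ) := hint.integral_prod_left.const_mul _
  have hI3 : IntegrableOn (fun _ : ℂ => C / ρ * J) (ball (0 : ℂ) ρ) := integrableOn_const hfin
  have hin : ∀ t ∈ Ioc (1 / 2 : ℝ) 1, ∫ w in ball (0 : ℂ) ρ, ‖deriv h (a + t * w)‖ ≤ 4 * J := by
    intro t ht
    have ht0 : 0 < t := by linarith [ht.1]
    have e := Measure.setIntegral_comp_smul_of_pos (volume : Measure ℂ)
      (fun w => ‖deriv h (a + w)‖) (ball (0 : ℂ) ρ) ht0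
    have e2 : ∫ w in ball (0 : ℂ) ρ, ‖deriv h (a + t * w)‖ =
        (t ^ 2)⁻¹ * ∫ w in t • ball (0 : ℂ) ρ, ‖deriv h (a + w)‖ := by
      rw [← smul_eq_mul, ← Complex.finrank_real_complex, ← e]
      simp [real_smul]
    rw [e2]
    have hsub : t • ball (0 : ℂ) ρ ⊆ ball (0 : ℂ) ρ := by
      rw [_root_.smul_ball ht0.ne', smul_zero, Real.norm_of_nonneg ht0.le]
      exact ball_subset_ball (by nlinarith [ht.2])
    have hi0 : IntegrableOn (fun w => ‖deriv h (a + w)‖) (ball (0 : ℂ) ρ) := by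
      have hc : ContinuousOn (fun w => ‖deriv h (a + w)‖) (closedBall (0 : ℂ) ρ) := by
        refine hcd.comp (by fun_prop) ?_
        intro w hw
        have := hmem w hw 1 zero_le_one le_rfl
        simpa using this
      exact (hc.integrableOn_compact (isCompact_closedBall 0 ρ)).mono_set ball_subset_closedBall
    have h5 : ∫ w in t • ball (0 : ℂ) ρ, ‖deriv h (a + w)‖ ≤ J := by
      rw [hJ1]
      exact setIntegral_mono_set hi0 (Eventually.of_forall fun _ => norm_nonneg _)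
        (Eventually.of_forall hsub)
    have h6 : (t ^ 2)⁻¹ ≤ 4 := by
      rw [inv_le_comm₀ (by positivity) (by norm_num)]
      nlinarith [ht.1]
    calc (t ^ 2)⁻¹ * ∫ w in t • ball (0 : ℂ) ρ, ‖deriv h (a + w)‖ ≤ (t ^ 2)⁻¹ * J := by gcongr
      _ ≤ 4 * J := by gcongr
  calc ∫ w in ball (0 : ℂ) ρ, ‖h (a + w) - h a‖
      ≤ ∫ w in ball (0 : ℂ) ρ, (ρ * (∫ t in Ioc (1 / 2 : ℝ) 1, ‖deriv h (a + t * w)‖) + C / ρ * J) :=
        setIntegral_mono_on hI1 (hI2.add hI3) measurableSet_ball hpt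
    _ = ρ * (∫ t in Ioc (1 / 2 : ℝ) 1, ∫ w in ball (0 : ℂ) ρ, ‖deriv h (a + t * w)‖) +
        Real.pi * ρ ^ 2 * (C / ρ * J) := by
        rw [integral_add hI2 hI3, integral_const_mul, integral_integral_swap hint,
          setIntegral_const, vol_ball ρ hρ.le, smul_eq_mul]
    _ ≤ ρ * (∫ t in Ioc (1 / 2 : ℝ) 1, 4 * J) + Real.pi * ρ ^ 2 * (C / ρ * J) := by
        refine add_le_add (mul_le_mul_of_nonneg_left ?_ hρ.le) le_rfl
        refine setIntegral_mono_on ?_ (integrableOn_const measure_Ioc_lt_top.ne) measurableSet_Ioc hin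
        exact hint.integral_prod_right
    _ = (2 + Real.pi * C) * ρ * J := by
        rw [setIntegral_const, Measure.real, Real.volume_Ioc, ENNReal.toReal_ofReal (by norm_num),
          smul_eq_mul]
        field_simp
        ring

end Pool.Agent.Work.MP_2cf110_an.Hyp

end
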