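import Pool.Agent.Work.MP_2cf110_an.Hyp.LTest
import Pool.Agent.Work.MP_2cf110_an.Hyp.LSplit
import Pool.Agent.Work.MP_2cf110_an.Hyp.Poinc
import Pool.Agent.Work.MP_2cf110_an.Hyp.Far
import Pool.Agent.Work.MP_2cf110_an.Hyp.CutF
import Pool.Agent.Work.MP_2cf110_an.Hyp.CapB
import Pool.Agent.Work.MP_2cf110_an.Hyp.Green

/-! # The estimate for γ |k₀(a)|

If gam = 0 trivial.  exists_half gives b, c with |c| ≥ gam/2 for E = Ea V s a (compact, disjoint from V); φ = cut a (9R) (12R).
0 = ∫ b k dzb φ + ∫ b φ dzb k (adm_test), k = k₁ + (k₀ - k₀(a)) + k₀(a), ∫ b dzb φ = -π c (green with ρ = 8R, ρ' = 9R).  On the support of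
dzb φ (9R ≤ |z - a| ≤ 12R): |b| ≤ (2/R) gam (far with ρ = 8R, d = R), |dzb φ| ≤ C/R (cut_dzb); ∫ |k₁| (k0_holo) and hol_poinc with
ρ = 14R, ρ' = 16R; gam ≤ C R (cap_le). -/

open MeasureTheory Complex Set Metric Filter
open scoped Topology ContDiff ComplexConjugate

noncomputable section

namespace Pool.Agent.Work.MP_2cf110_an.Hyp

open QC (dz dzb Test Cau)

theorem qbound {s : ℝ} (hs : 0 < s) (hs1 : s ≤ 1 / 64) : ∃ C : ℝ, 0 < C ∧
    ∀ (V : Set ℂ) (k : ℂ → ℂ) (a : ℂ), IsOpen V → Test V k → a ∈ Hp →
    gam V s a * ‖k0 k a (16 * (s * a.im)) a‖ ≤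
      C * ((∫ z in ball a (16 * (s * a.im)), ‖dzb k z‖) + gam V s a / (s * a.im) *
        ∫ z in ball a (14 * (s * a.im)), ‖deriv (k0 k a (16 * (s * a.im))) z‖) := by
  obtain ⟨C1, hC1, hcut⟩ := cut_dzb
  obtain ⟨C2, hC2, hpo⟩ := hol_poinc
  have hC10 : 0 < C1 := lt_of_lt_of_le one_pos hC1
  refine ⟨2 + 144 * C1 + 56 * C1 * C2, by positivity, fun V k a hV hk ha => ?_⟩
  have hR0 : 0 < s * a.im := mul_pos hs ha
  have hcE : cap (Ea V s a) = gam V s a := rfl
  have hE8 : Ea V s a ⊆ closedBall a (8 * (s * a.im)) := sdiff_subset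
  have hEc : IsCompact (Ea V s a) := (isCompact_closedBall a _).diff hV
  have hEV : Disjoint (Ea V s a) V := disjoint_sdiff_left
  set R := s * a.im with hR
  set E := Ea V s a with hE
  have hku : Test univ k := ⟨hk.smooth, hk.cpt, subset_univ _⟩
  obtain ⟨hKh, hKc, hKi⟩ := k0_holo hku a (ρ := 16 * R) (by positivity)
  set K := k0 k a (16 * R) with hK
  set A := ∫ z in ball a (16 * R), ‖dzb k z‖ with hA
  set J := ∫ z in ball a (14 * R), ‖deriv K z‖ with hJ
  set γ := gam V s a with hγd
  have hA0 : 0 ≤ A := integral_nonneg fun _ => norm_nonneg _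
  have hJ0 : 0 ≤ J := integral_nonneg fun _ => norm_nonneg _
  have hγ0 : 0 ≤ γ := cap_nonneg _
  rcases hγ0.eq_or_lt with h0 | hγ
  · rw [← h0]
    simp only [zero_mul, zero_div, add_zero]
    positivity
  obtain ⟨b, c, hb, hbc⟩ := exists_half (E := E) hγ
  rw [hcE] at hbc
  have h9 : (0 : ℝ) < 9 * R := by positivity
  have h912 : 9 * R < 12 * R := by linarith
  obtain ⟨hφ, hφs, hφ1, hφe, hφ0, hφo⟩ := cut_facts (a := a) h9 h912
  have hφb := hcut a (9 * R) (12 * R) h9 h912
  set φ := cut a (9 * R) (12 * R) with hφd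
  have hφb' : ∀ z, ‖dzb φ z‖ ≤ C1 / R := by
    intro z
    refine (hφb z).trans ?_
    rw [div_le_div_iff₀ (by nlinarith) hR0]
    nlinarith [mul_pos hC10 (mul_pos hR0 hR0)]
  have hkc : Continuous k := hk.smooth.continuous
  have hdk : Continuous (dzb k) := (QC.Test.dz hku).2.smooth.continuous
  have hdφt := (QC.Test.dz hφ).2
  have hdφ : Continuous (dzb φ) := hdφt.smooth.continuous
  have hφc : Continuous φ := hφ.smooth.continuous
  have hbb : ∀ᵐ z ∂(volume : Measure ℂ), ‖b z‖ ≤ 1 := Eventually.of_forall hb.le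
  have hbm : AEStronglyMeasurable b (volume : Measure ℂ) := hb.meas.aestronglyMeasurable
  -- the two identities
  have idA := adm_test hEc hV hEV hb hk hφ
  have idB := green (a := a) (ρ := 8 * R) (ρ' := 9 * R)
    (hb.holo.mono (compl_subset_compl.2 hE8)) hb.lim hφ (by linarith)
    (fun z hz => hφe z (ball_subset_closedBall hz))
  -- integrability
  have i1 : Integrable (fun z => b z * ((k z - K z) * dzb φ z)) := by
    refine Integrable.bdd_mul ?_ hbm hbb
    exact ((hkc.sub hKc).mul hdφ).integrable_of_hasCompactSupport hdφt.cpt.mul_left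
  have i2 : Integrable (fun z => b z * ((K z - K a) * dzb φ z)) := by
    refine Integrable.bdd_mul ?_ hbm hbb
    exact ((hKc.sub continuous_const).mul hdφ).integrable_of_hasCompactSupport hdφt.cpt.mul_left
  have i3 : Integrable (fun z => b z * dzb φ z) := by
    refine Integrable.bdd_mul ?_ hbm hbb
    exact hdφ.integrable_of_hasCompactSupport hdφt.cpt
  have e1 : (fun z => b z * k z * dzb φ z) = fun z => (b z * ((k z - K z) * dzb φ z) +
      b z * ((K z - K a) * dzb φ z)) + K a * (b z * dzb φ z) := by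
    funext z
    ring
  have i12 : Integrable (fun z => b z * ((k z - K z) * dzb φ z) +
      b z * ((K z - K a) * dzb φ z)) := i1.add i2
  rw [e1, integral_add i12 (i3.const_mul _), integral_add i1 i2, integral_const_mul,
    idB] at idA
  set I1 := ∫ z, b z * ((k z - K z) * dzb φ z) with hI1
  set I2 := ∫ z, b z * ((K z - K a) * dzb φ z) with hI2
  set I3 := ∫ z, b z * φ z * dzb k z with hI3
  have key : (Real.pi : ℂ) * c * K a = I1 + I2 + I3 := by linear_combination -idA
  -- the bounds
  have b1 : ‖I1‖ ≤ 72 * C1 * A := by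
    have hi : IntegrableOn (fun z => C1 / R * ‖k z - K z‖) (closedBall a (12 * R)) :=
      ((hkc.sub hKc).norm.const_smul (C1 / R)).continuousOn.integrableOn_compact
        (isCompact_closedBall _ _)
    have h1 : ‖I1‖ ≤ ∫ z, (closedBall a (12 * R)).indicator (fun z => C1 / R * ‖k z - K z‖) z := by
      refine norm_integral_le_of_norm_le (hi.integrable_indicator measurableSet_closedBall) ?_
      refine Eventually.of_forall fun z => ?_
      by_cases hz : z ∈ closedBall a (12 * R)
      · rw [indicator_of_mem hz, norm_mul, norm_mul]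
        have := hb.le z
        have h2 := hφb' z
        calc ‖b z‖ * (‖k z - K z‖ * ‖dzb φ z‖) ≤ 1 * (‖k z - K z‖ * (C1 / R)) := by gcongr
          _ = C1 / R * ‖k z - K z‖ := by ring
      · rw [indicator_of_notMem hz, hφo z hz]
        simp
    rw [integral_indicator measurableSet_closedBall, integral_const_mul] at h1
    have h2 := hKi (12 * R) (by positivity)
    calc ‖I1‖ ≤ C1 / R * ∫ z in closedBall a (12 * R), ‖k z - K z‖ := h1
      _ ≤ C1 / R * (6 * (12 * R) * A) := by gcongr
      _ = 72 * C1 * A := by field_simp; ring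
  have b2 : ‖I2‖ ≤ 28 * C1 * C2 * (γ / R * J) := by
    have hi : IntegrableOn (fun z => 2 / R * γ * (C1 / R) * ‖K z - K a‖) (ball a (14 * R)) := by
      refine IntegrableOn.mono_set ?_ ball_subset_closedBall
      exact ((hKc.sub continuous_const).norm.const_smul
        (2 / R * γ * (C1 / R))).continuousOn.integrableOn_compact (isCompact_closedBall _ _)
    have h1 : ‖I2‖ ≤ ∫ z, (ball a (14 * R)).indicator
        (fun z => 2 / R * γ * (C1 / R) * ‖K z - K a‖) z := by
      refine norm_integral_le_of_norm_le (hi.integrable_indicator measurableSet_ball) ?_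
      refine Eventually.of_forall fun z => ?_
      by_cases hz : z ∈ closedBall a (12 * R)
      · have hz14 : z ∈ ball a (14 * R) := by
          rw [mem_closedBall] at hz
          rw [mem_ball]
          linarith
        rw [indicator_of_mem hz14, norm_mul, norm_mul]
        by_cases hz9 : z ∈ ball a (9 * R)
        · rw [hφ0 z hz9]
          simp only [norm_zero, mul_zero]
          positivity
        · have hf : ‖b z‖ ≤ 2 / R * γ := by
            refine far hEc hE8 hR0 hb ?_
            rw [mem_ball, not_lt, dist_eq_norm] at hz9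
            linarith
          have h2 := hφb' z
          calc ‖b z‖ * (‖K z - K a‖ * ‖dzb φ z‖) ≤ (2 / R * γ) * (‖K z - K a‖ * (C1 / R)) := by
                gcongr
            _ = 2 / R * γ * (C1 / R) * ‖K z - K a‖ := by ring
      · rw [hφo z hz]
        simp only [mul_zero, norm_zero]
        exact indicator_nonneg (fun _ _ => by positivity) _
    rw [integral_indicator measurableSet_ball, integral_const_mul] at h1
    have h2 := hpo K a (14 * R) (16 * R) (by positivity) (by linarith) hKh
    calc ‖I2‖ ≤ 2 / R * γ * (C1 / R) * ∫ z in ball a (14 * R), ‖K z - K a‖ := h1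
      _ ≤ 2 / R * γ * (C1 / R) * (C2 * (14 * R) * J) := by gcongr
      _ = 28 * C1 * C2 * (γ / R * J) := by field_simp; ring
  have b3 : ‖I3‖ ≤ A := by
    have hi : IntegrableOn (fun z => ‖dzb k z‖) (ball a (16 * R)) := by
      refine IntegrableOn.mono_set ?_ ball_subset_closedBall
      exact hdk.norm.continuousOn.integrableOn_compact (isCompact_closedBall _ _)
    have h1 : ‖I3‖ ≤ ∫ z, (ball a (16 * R)).indicator (fun z => ‖dzb k z‖) z := by
      refine norm_integral_le_of_norm_le (hi.integrable_indicator measurableSet_ball) ?_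
      refine Eventually.of_forall fun z => ?_
      by_cases hz : z ∈ ball a (16 * R)
      · rw [indicator_of_mem hz, norm_mul, norm_mul]
        have h1 := hb.le z
        have h2 := hφ1 z
        calc ‖b z‖ * ‖φ z‖ * ‖dzb k z‖ ≤ 1 * 1 * ‖dzb k z‖ := by gcongr
          _ = ‖dzb k z‖ := by ring
      · have hz' : φ z = 0 := by
          refine image_eq_zero_of_notMem_tsupport fun hc => hz ?_
          have := hφs hc
          rw [mem_closedBall] at this
          rw [mem_ball]
          linarith
        rw [indicator_of_notMem hz, hz']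
        simp
    rw [integral_indicator measurableSet_ball] at h1
    exact h1
  have hpi : ‖c‖ * ‖K a‖ ≤ ‖(Real.pi : ℂ) * c * K a‖ := by
    rw [norm_mul, norm_mul, Complex.norm_real, Real.norm_of_nonneg Real.pi_pos.le]
    have h3 : (1 : ℝ) ≤ Real.pi := by linarith [Real.pi_gt_three]
    have h4 : 0 ≤ ‖c‖ * ‖K a‖ := by positivity
    nlinarith
  rw [key] at hpi
  have htri : ‖I1 + I2 + I3‖ ≤ ‖I1‖ + ‖I2‖ + ‖I3‖ := norm_add₃_le
  have hfin : γ * ‖K a‖ ≤ 2 * (‖c‖ * ‖K a‖) := by
    have := mul_le_mul_of_nonneg_right hbc (norm_nonneg (K a))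
    linarith
  have hP : 0 ≤ γ / R * J := by positivity
  have hq : 0 ≤ C1 * C2 * A := by positivity
  have hq2 : 0 ≤ C1 * (γ / R * J) := by positivity
  nlinarith

end Pool.Agent.Work.MP_2cf110_an.Hyp

end
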