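import Pool.Agent.Work.MP_2cf110_an.Hyp.Defs

/-! # Testing an admissible function against a test function of V

k vanishes near E (E compact, disjoint from tsupport k in V), so b φ k is smooth on ℂ (b is analytic off E), with compact support:
∫ dzb (b φ k) = 0 (QC.integral_dz_eq_zero) and dzb (b φ k) = b (φ dzb k + k dzb φ). -/

open MeasureTheory Complex Set Metric Filter
open scoped Topology ContDiff ComplexConjugate

noncomputable section

namespace Pool.Agent.Work.MP_2cf110_an.Hyp

open QC (dz dzb Test Cau)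

private theorem adm_mul_smooth {E V : Set ℂ} (hE : IsCompact E) (hEV : Disjoint E V) {b : ℂ → ℂ}
    {c : ℂ} (h : Adm E b c) {k : ℂ → ℂ} (hk : Test V k) :
    ContDiff ℝ ∞ (fun z => b z * k z) ∧ HasCompactSupport (fun z => b z * k z) := by
  refine ⟨?_, hk.cpt.mul_left⟩
  rw [contDiff_iff_contDiffAt]
  intro z
  by_cases hz : z ∈ tsupport k
  · have hz1 : z ∈ Eᶜ := fun hzE => (disjoint_left.mp hEV) hzE (hk.sub hz)
    have hb : ContDiffOn ℂ ∞ b Eᶜ := h.holo.contDiffOn hE.isClosed.isOpen_compl
    have hb1 : ContDiffAt ℝ ∞ b z :=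
      ((hb.contDiffAt (hE.isClosed.isOpen_compl.mem_nhds hz1))).restrict_scalars ℝ
    exact hb1.mul hk.smooth.contDiffAt
  · have h0 : (fun z => b z * k z) =ᶠ[𝓝 z] fun _ => (0 : ℂ) := by
      filter_upwards [(isClosed_tsupport k).isOpen_compl.mem_nhds hz] with w hw
      rw [image_eq_zero_of_notMem_tsupport hw, mul_zero]
    exact contDiffAt_const.congr_of_eventuallyEq h0

theorem adm_test {E V : Set ℂ} (hE : IsCompact E) (hV : IsOpen V) (hEV : Disjoint E V) {b : ℂ → ℂ}
    {c : ℂ} (h : Adm E b c) {k φ : ℂ → ℂ} (hk : Test V k) (hφ : Test univ φ) :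
    ∫ z, b z * k z * dzb φ z = - ∫ z, b z * φ z * dzb k z := by
  obtain ⟨hs, hc⟩ := adm_mul_smooth hE hEV h hk
  obtain ⟨hs1, hc1⟩ := adm_mul_smooth hE hEV h hk.dz.2
  have hφ1 : Continuous (dzb φ) := hφ.dz.2.smooth.continuous
  have i1 : Integrable (fun z => b z * k z * dzb φ z) :=
    (hs.continuous.mul hφ1).integrable_of_hasCompactSupport hc.mul_right
  have i2 : Integrable (fun z => b z * φ z * dzb k z) := by
    have : (fun z => b z * φ z * dzb k z) = fun z => b z * dzb k z * φ z := by
      funext z; ring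
    rw [this]
    exact (hs1.continuous.mul hφ.smooth.continuous).integrable_of_hasCompactSupport hc1.mul_right
  have key : ∀ z, dzb (fun z => (b z * k z) * φ z) z
      = b z * k z * dzb φ z + b z * φ z * dzb k z := by
    intro z
    rw [(QC.dz_mul (hs.contDiffAt.differentiableAt (by simp))
      (hφ.smooth.contDiffAt.differentiableAt (by simp))).2]
    have hbk : dzb (fun z => b z * k z) z = b z * dzb k z := by
      by_cases hz : z ∈ tsupport k
      · have hz1 : z ∈ Eᶜ := fun hzE => (disjoint_left.mp hEV) hzE (hk.sub hz)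
        have hb : DifferentiableAt ℂ b z :=
          h.holo.differentiableAt (hE.isClosed.isOpen_compl.mem_nhds hz1)
        rw [(QC.dz_mul (hb.restrictScalars ℝ)
          (hk.smooth.contDiffAt.differentiableAt (by simp))).2, (QC.dz_of_holo hb).2]
        ring
      · have h0 : (fun z => b z * k z) =ᶠ[𝓝 z] fun _ => (0 : ℂ) := by
          filter_upwards [(isClosed_tsupport k).isOpen_compl.mem_nhds hz] with w hw
          rw [image_eq_zero_of_notMem_tsupport hw, mul_zero]
        have h1 : k =ᶠ[𝓝 z] fun _ => (0 : ℂ) := by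
          filter_upwards [(isClosed_tsupport k).isOpen_compl.mem_nhds hz] with w hw
          rw [image_eq_zero_of_notMem_tsupport hw]
        simp [dzb, h0.fderiv_eq, h1.fderiv_eq]
    rw [hbk]
    ring
  have hint := (QC.integral_dz_eq_zero (φ := fun z => (b z * k z) * φ z)
    ((hs.mul hφ.smooth).of_le (by simp)) hc.mul_right).2
  have : ∫ z, (b z * k z * dzb φ z + b z * φ z * dzb k z) = 0 := by
    rw [← hint]
    exact integral_congr_ae (Eventually.of_forall fun z => (key z).symm)
  rw [integral_add i1 i2] at this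
  exact eq_neg_of_add_eq_zero_left this

end Pool.Agent.Work.MP_2cf110_an.Hyp

end
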