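import Pool.Agent.Work.MP_2cf110_an.Hyp.GenDef
import Pool.Agent.Work.MP_2cf110_an.Hyp.HypOne
import Pool.Agent.Work.MP_2cf110_an.Alg

/-! # Localization along a function S ∘ Φ

The closure of s '' V is compact.  For every l in it there are t_l > 0 and a solution on {‖s z - l‖ < t_l} bounded by some M_l.  Finitely many balls
ball l (t_l/2) cover; t₀ = min t_l/2, M = max M_l.  Choose r in (0,1/2] with 4 r M_S < t₀ where |S| ≤ M_S: for z, z₀ in {z in V : |Φ z - a| < r(1-|a|)}: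
|s z - s z₀| = |S(Φ z) - S(Φ z₀)| ≤ 4 r M_S (Cauchy estimate of S' on ball a (r(1-|a|)): |S'| ≤ M_S/((1-r)(1-|a|))).  So a nonempty local set, with z₀ in it and s z₀ in
ball l (t_l/2), is contained in {‖s z - l‖ < t_l}: Sol M there.  hyp_one (K = a common bound of the f j). -/

open MeasureTheory Set Metric
open scoped ContDiff

namespace Pool.Agent.Work.MP_2cf110_an

private theorem locH_sol {n : ℕ} {W : Set ℂ} {f : Fin n → ℂ → ℂ} (h : Bez W f) :
    ∃ M : ℝ, Hyp.Sol M W f := by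
  obtain ⟨g, hg, h1⟩ := h
  choose hd M hM using hg
  refine ⟨∑ j, |M j|, g, fun j => ⟨hd j, fun z hz => ?_⟩, h1⟩
  exact (hM j z hz).trans ((le_abs_self _).trans
    (Finset.single_le_sum (f := fun j => |M j|) (fun i _ => abs_nonneg _) (Finset.mem_univ j)))

private theorem locH_min {ι : Type*} (T : Finset ι) (t : ι → ℝ) (ht : ∀ i ∈ T, 0 < t i) :
    ∃ t₀ : ℝ, 0 < t₀ ∧ ∀ i ∈ T, t₀ ≤ t i := by
  classical
  induction T using Finset.induction_on with
  | empty => exact ⟨1, one_pos, fun i hi => absurd hi (Finset.notMem_empty i)⟩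
  | insert a T ha ih =>
    obtain ⟨t₀, h0, h1⟩ := ih fun i hi => ht i (Finset.mem_insert_of_mem hi)
    refine ⟨min t₀ (t a), lt_min h0 (ht a (Finset.mem_insert_self a T)), fun i hi => ?_⟩
    rcases Finset.mem_insert.1 hi with rfl | hi
    · exact min_le_right _ _
    · exact (min_le_left _ _).trans (h1 i hi)

theorem bez_of_local_hyp {V : Set ℂ} (hV : IsOpen V) {s : ℂ → ℂ} (hs : HypFn V s) {n : ℕ}
    {f : Fin n → ℂ → ℂ} (hf : ∀ j, Hinf V (f j))
    (hloc : ∀ l ∈ closure (s '' V), ∃ t > 0, Bez {z ∈ V | ‖s z - l‖ < t} f) : Bez V f := by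
  classical
  have hsb := hs.hinf
  obtain ⟨Φ, S, hΦ, hinj, hΦ1, ⟨hS, MS, hMS⟩, hsS⟩ := hs
  -- a common bound of the f j
  choose hfd Kf hKf using hf
  have hBA : Hyp.BA (∑ j, |Kf j|) V f := fun j => ⟨hfd j, fun z hz =>
    (hKf j z hz).trans ((le_abs_self _).trans
      (Finset.single_le_sum (f := fun j => |Kf j|) (fun i _ => abs_nonneg _)
        (Finset.mem_univ j)))⟩
  -- compactness
  obtain ⟨hsd, B, hB⟩ := hsb
  have hcomp : IsCompact (closure (s '' V)) := by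
    have hbd : Bornology.IsBounded (s '' V) := by
      rw [isBounded_iff_forall_norm_le]
      refine ⟨B, ?_⟩
      rintro _ ⟨z, hz, rfl⟩
      exact hB z hz
    exact hbd.isCompact_closure
  have hloc' : ∀ l : ℂ, ∃ t : ℝ, ∃ M : ℝ, 0 < t ∧
      (l ∈ closure (s '' V) → Hyp.Sol M {z ∈ V | ‖s z - l‖ < t} f) := by
    intro l
    by_cases hl : l ∈ closure (s '' V)
    · obtain ⟨t, ht, hb⟩ := hloc l hl
      obtain ⟨M, hM⟩ := locH_sol hb
      exact ⟨t, M, ht, fun _ => hM⟩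
    · exact ⟨1, 0, one_pos, fun h => absurd h hl⟩
  choose t M ht hM using hloc'
  obtain ⟨T, hT, hcov⟩ := hcomp.elim_nhds_subcover (fun l => ball l (t l / 2))
    (fun l _ => ball_mem_nhds l (half_pos (ht l)))
  obtain ⟨t₀, ht₀, ht₀l⟩ := locH_min T (fun l => t l / 2) (fun l _ => half_pos (ht l))
  set MS' : ℝ := |MS| + 1 with hMS'
  have hMSp : 0 < MS' := by positivity
  set r : ℝ := min (1 / 2) (t₀ / (8 * MS')) with hr
  have hr0 : 0 < r := lt_min (by norm_num) (by positivity)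
  have hr1 : r ≤ 1 := (min_le_left _ _).trans (by norm_num)
  have hrt : 4 * MS' * r < t₀ := by
    have h1 : r ≤ t₀ / (8 * MS') := min_le_right _ _
    rw [le_div_iff₀ (by positivity)] at h1
    nlinarith
  obtain ⟨C, hC⟩ := Hyp.hyp_one n (K := ∑ j, |Kf j|) (M := ∑ l ∈ T, |M l|) hr0 hr1
  suffices hl : ∀ a : ℂ, ‖a‖ < 1 →
      Hyp.Sol (∑ l ∈ T, |M l|) {z ∈ V | ‖Φ z - a‖ < r * (1 - ‖a‖)} f by
    obtain ⟨g, hg, hg1⟩ := hC V f Φ hV hBA hΦ hinj hΦ1 hl
    exact ⟨g, fun j => ⟨(hg j).1, C, (hg j).2⟩, hg1⟩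
  intro a ha
  rcases eq_empty_or_nonempty {z ∈ V | ‖Φ z - a‖ < r * (1 - ‖a‖)} with he | ⟨z₀, hz₀V, hz₀⟩
  · rw [he]
    exact Hyp.Sol.empty
  have ha1 : 0 < 1 - ‖a‖ := by linarith
  have hsub : ball a (1 - ‖a‖) ⊆ ball (0 : ℂ) 1 := by
    apply ball_subset_ball'
    rw [dist_zero_right]
    linarith
  have hkey : ∀ w : ℂ, ‖w - a‖ < r * (1 - ‖a‖) → ‖S w - S a‖ ≤ 2 * MS' * r := by
    intro w hw
    have hwb : w ∈ ball a (1 - ‖a‖) := by
      rw [mem_ball, dist_eq_norm]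
      nlinarith
    have hmaps : MapsTo S (ball a (1 - ‖a‖)) (ball (S a) (2 * MS')) := by
      intro u hu
      rw [mem_ball, dist_eq_norm]
      have h1 := hMS u (hsub hu)
      have h2 := hMS a (hsub (mem_ball_self ha1))
      have h3 := le_abs_self MS
      have h4 := norm_sub_le (S u) (S a)
      linarith
    have h5 := Complex.dist_le_div_mul_dist_of_mapsTo_ball (hS.mono hsub)
      (hmaps.mono_right ball_subset_closedBall) hwb
    rw [dist_eq_norm, dist_eq_norm] at h5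
    refine h5.trans ?_
    rw [div_mul_eq_mul_div, div_le_iff₀ ha1]
    have h6 : 0 < 2 * MS' := by positivity
    nlinarith
  have hz₀c : s z₀ ∈ closure (s '' V) := subset_closure (mem_image_of_mem s hz₀V)
  obtain ⟨l, hlT, hl⟩ := mem_iUnion₂.1 (hcov hz₀c)
  rw [mem_ball, dist_eq_norm] at hl
  have hsubset : {z ∈ V | ‖Φ z - a‖ < r * (1 - ‖a‖)} ⊆ {z ∈ V | ‖s z - l‖ < t l} := by
    rintro z ⟨hzV, hz⟩
    refine ⟨hzV, ?_⟩
    have h1 := hkey (Φ z) hz
    have h2 := hkey (Φ z₀) hz₀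
    rw [← hsS z hzV] at h1
    rw [← hsS z₀ hz₀V] at h2
    have h3 : s z - l = (s z - S a) - (s z₀ - S a) + (s z₀ - l) := by ring
    have h4 := norm_add_le ((s z - S a) - (s z₀ - S a)) (s z₀ - l)
    have h5 := norm_sub_le (s z - S a) (s z₀ - S a)
    have h6 := ht₀l l hlT
    rw [h3]
    linarith
  refine ((hM l (hT l hlT)).mono hsubset).le ?_
  exact (le_abs_self _).trans
    (Finset.single_le_sum (f := fun l => |M l|) (fun i _ => abs_nonneg _) hlT)

end Pool.Agent.Work.MP_2cf110_an
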