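import Pool.Agent.Work.MP_2cf110_an.Hyp.ScaP
import Pool.Agent.Work.MP_2cf110_an.Hyp.HypM

/-! # Localization along several injective coordinates of both kinds -/

open MeasureTheory Complex Set Metric Filter
open scoped Topology ContDiff ComplexConjugate

noncomputable section

namespace Pool.Agent.Work.MP_2cf110_an.Hyp

open QC (dz dzb Test Cau)

theorem loc_mix (m l n : ℕ) {r : Fin m → ℝ} {ρ : Fin l → ℝ} {K M : ℝ} (hr : ∀ i, 0 < r i)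
    (hr1 : ∀ i, r i ≤ 1) (hρ : ∀ i, 0 < ρ i) (hρ1 : ∀ i, ρ i ≤ 1) :
    ∃ C : ℝ, ∀ (V : Set ℂ) (f : Fin n → ℂ → ℂ) (P : Fin m → ℂ → ℂ) (Q : Fin l → ℂ → ℂ),
    IsOpen V → BA K V f →
    (∀ i, DifferentiableOn ℂ (P i) V ∧ InjOn (P i) V ∧ ∀ z ∈ V, ‖P i z‖ < 1) →
    (∀ i, DifferentiableOn ℂ (Q i) V ∧ InjOn (Q i) V ∧ ∀ z ∈ V, Q i z ≠ 0 ∧ ‖Q i z‖ < 1) →
    (∀ (a : Fin m → ℂ) (b : Fin l → ℂ), (∀ i, ‖a i‖ < 1) → (∀ i, b i ≠ 0 ∧ ‖b i‖ < 1) →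
      Sol M {z ∈ V | (∀ i, ‖P i z - a i‖ < r i * (1 - ‖a i‖)) ∧
        ∀ i, ‖Q i z - b i‖ < ρ i * ‖b i‖} f) → Sol C V f := by
  induction l with
  | zero =>
    obtain ⟨C, hC⟩ := hyp_m m n (K := K) (M := M) hr hr1
    refine ⟨C, fun V f P Q hV hf hP _ h => ?_⟩
    refine hC V f P hV hf (fun i => (hP i).1) (fun i => (hP i).2.1) (fun i => (hP i).2.2) ?_
    intro a ha
    refine (h a (fun i => i.elim0) ha (fun i => i.elim0)).mono ?_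
    rintro z ⟨hz, hz1⟩
    exact ⟨hz, hz1, fun i => i.elim0⟩
  | succ l ih =>
    obtain ⟨C1, hC1⟩ := ih (ρ := fun i => ρ i.succ) (fun i => hρ _) (fun i => hρ1 _)
    obtain ⟨C, hC⟩ := scale_P n (K := K) (M := C1) (hρ 0) (hρ1 0)
    refine ⟨C, fun V f P Q hV hf hP hQ h => ?_⟩
    refine hC V f (Q 0) hV hf (hQ 0).1 (hQ 0).2.1 (hQ 0).2.2 ?_
    intro b0 hb0 hb1
    have hsub : {z ∈ V | ‖Q 0 z - b0‖ < ρ 0 * ‖b0‖} ⊆ V := fun z hz => hz.1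
    refine hC1 _ f P (fun i => Q i.succ) ?_ (hf.mono hsub)
      (fun i => ⟨(hP i).1.mono hsub, (hP i).2.1.mono hsub, fun z hz => (hP i).2.2 z (hsub hz)⟩)
      (fun i => ⟨(hQ _).1.mono hsub, (hQ _).2.1.mono hsub,
        fun z hz => (hQ _).2.2 z (hsub hz)⟩) ?_
    · have hc : ContinuousOn (fun z => ‖Q 0 z - b0‖) V :=
        ((hQ 0).1.continuousOn.sub continuousOn_const).norm
      exact hc.isOpen_inter_preimage hV isOpen_Iio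
    · intro a b ha hb
      refine (h a (Fin.cons b0 b) ha (Fin.cases ⟨hb0, hb1⟩ hb)).mono ?_
      rintro z ⟨⟨hz, hz0⟩, hz1, hz2⟩
      exact ⟨hz, hz1, Fin.cases hz0 hz2⟩

end Pool.Agent.Work.MP_2cf110_an.Hyp

end
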