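import Pool.Agent.Work.MP_2cf110_an.Hyp.RepU
import Pool.Agent.Work.MP_2cf110_an.Hyp.CutF
import Pool.Agent.Work.MP_2cf110_an.Hyp.Pot0

/-! # Decay away from small discs

χ_i = cut (c i) (3/2 ρ i) (2 ρ i), u = Π (1 - χ_i) T (smooth on ℂ: near the discs closedBall (c i) (ρ i) a factor vanishes), dzb u = - T Σ_i dzb χ_i Π_{l ≠ i} (1 - χ_l),
|dzb u| ≤ A Σ_i (C/ρ i) 1_{closedBall (c i) (2 ρ i)}, repU: |T z| = |u z| ≤ (1/π) Σ_i A (C/ρ i) 4π (ρ i)²/((N-2) ρ i). -/

open MeasureTheory Complex Set Metric Filter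
open scoped Topology ContDiff ComplexConjugate

noncomputable section

namespace Pool.Agent.Work.MP_2cf110_an.Hyp

open QC (dz dzb Test Cau)

private theorem pA_prod {k : ℕ} {g : Fin k → ℂ → ℂ} {w : ℂ}
    (hd : ∀ i, DifferentiableAt ℝ (g i) w) (hb : ∀ i, ‖g i w‖ ≤ 2) (t : Finset (Fin k)) :
    ‖∏ i ∈ t, g i w‖ ≤ 2 ^ t.card ∧ DifferentiableAt ℝ (fun w => ∏ i ∈ t, g i w) w ∧
    ‖dzb (fun w => ∏ i ∈ t, g i w) w‖ ≤ 2 ^ t.card * ∑ i ∈ t, ‖dzb (g i) w‖ := by
  classical
  induction t using Finset.induction_on with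
  | empty =>
    refine ⟨by simp, ?_, ?_⟩
    · simp only [Finset.prod_empty]
      exact differentiableAt_const _
    · simp only [Finset.prod_empty, Finset.sum_empty, mul_zero]
      rw [(QC.dz_of_holo (f := fun _ : ℂ => (1 : ℂ)) (z := w) (differentiableAt_const _)).2,
        norm_zero]
  | insert a t ha ih =>
    obtain ⟨h1, h2, h3⟩ := ih
    have e1 : (fun w => ∏ i ∈ insert a t, g i w) = fun w => g a w * ∏ i ∈ t, g i w := by
      funext w
      rw [Finset.prod_insert ha]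
    have e2 := (QC.dz_mul (hd a) h2).2
    rw [Finset.card_insert_of_notMem ha]
    refine ⟨?_, ?_, ?_⟩
    · rw [Finset.prod_insert ha, norm_mul, pow_succ, mul_comm]
      exact mul_le_mul h1 (hb a) (norm_nonneg _) (by positivity)
    · rw [e1]
      exact (hd a).fun_mul h2
    · rw [e1, e2, Finset.sum_insert ha]
      refine (norm_add_le _ _).trans ?_
      rw [norm_mul, norm_mul]
      have h4 : ‖dzb (g a) w‖ * ‖∏ i ∈ t, g i w‖ ≤ ‖dzb (g a) w‖ * 2 ^ t.card :=
        mul_le_mul_of_nonneg_left h1 (norm_nonneg _)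
      have h5 : ‖g a w‖ * ‖dzb (fun w => ∏ i ∈ t, g i w) w‖ ≤
          2 * (2 ^ t.card * ∑ i ∈ t, ‖dzb (g i) w‖) :=
        mul_le_mul (hb a) h3 (norm_nonneg _) (by norm_num)
      have h6 : 0 ≤ ‖dzb (g a) w‖ * 2 ^ t.card := by positivity
      rw [pow_succ]
      nlinarith

theorem pA (k : ℕ) : ∃ C : ℝ, 0 < C ∧ ∀ (c : Fin k → ℂ) (ρ : Fin k → ℝ) (T : ℂ → ℂ) (A N : ℝ),
    (∀ i, 0 < ρ i) → 4 ≤ N → 0 ≤ A → DifferentiableOn ℂ T (⋃ i, closedBall (c i) (ρ i))ᶜ →
    (∀ z, ‖T z‖ ≤ A) → Tendsto T (cocompact ℂ) (𝓝 0) →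
    ∀ z, (∀ i, N * ρ i < ‖z - c i‖) → ‖T z‖ ≤ C * A / N := by
  obtain ⟨C₁, hC₁, hcut⟩ := cut_dzb
  refine ⟨8 * k * 2 ^ k * (2 * C₁) + 1, by positivity, ?_⟩
  intro c ρ T A N hρ hN hA hT hTA hT0 z hz
  have h32 : ∀ i, 0 < 3 / 2 * ρ i := fun i => by have := hρ i; linarith
  have h322 : ∀ i, 3 / 2 * ρ i < 2 * ρ i := fun i => by have := hρ i; linarith
  let χ : Fin k → ℂ → ℂ := fun i => cut (c i) (3 / 2 * ρ i) (2 * ρ i)
  have hχ := fun i => cut_facts (a := c i) (h32 i) (h322 i)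
  let g : Fin k → ℂ → ℂ := fun i w => 1 - χ i w
  have hχs : ∀ i, ContDiff ℝ ∞ (χ i) := fun i => (hχ i).1.smooth
  have hgs : ∀ i, ContDiff ℝ ∞ (g i) := fun i => contDiff_const.sub (hχs i)
  have hχd : ∀ i w, DifferentiableAt ℝ (χ i) w := fun i w =>
    ((hχs i).differentiable (by simp)) w
  have hgd : ∀ i w, DifferentiableAt ℝ (g i) w := fun i w =>
    ((hgs i).differentiable (by simp)) w
  have hgb : ∀ i w, ‖g i w‖ ≤ 2 := by
    intro i w
    refine (norm_sub_le _ _).trans ?_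
    have := (hχ i).2.2.1 w
    rw [norm_one]
    have h1 : ‖χ i w‖ ≤ 1 := this
    linarith
  have hgz : ∀ i w, ‖dzb (g i) w‖ = ‖dzb (χ i) w‖ := by
    intro i w
    have h1 := (QC.dz_sub (f := fun _ => (1 : ℂ)) (g := χ i) (z := w)
      (differentiableAt_const _) (hχd i w)).2
    rw [(QC.dz_of_holo (f := fun _ : ℂ => (1 : ℂ)) (z := w) (differentiableAt_const _)).2,
      zero_sub] at h1
    show ‖dzb (fun w => 1 - χ i w) w‖ = _
    rw [h1, norm_neg]
  let P : ℂ → ℂ := fun w => ∏ i, g i w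
  have hP := fun w => pA_prod (g := g) (w := w) (fun i => hgd i w) (fun i => hgb i w) Finset.univ
  rw [Finset.card_fin] at hP
  let u : ℂ → ℂ := fun w => P w * T w
  -- near the discs `u = 0`
  have hnear : ∀ w i, w ∈ ball (c i) (3 / 2 * ρ i) → u =ᶠ[𝓝 w] fun _ => 0 := by
    intro w i hw
    filter_upwards [isOpen_ball.mem_nhds hw] with x hx
    have h1 : χ i x = 1 := (hχ i).2.2.2.1 x (ball_subset_closedBall hx)
    have h2 : P x = 0 := Finset.prod_eq_zero (Finset.mem_univ i) (by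
      show 1 - χ i x = 0
      rw [h1, sub_self])
    show P x * T x = 0
    rw [h2, zero_mul]
  -- away from the discs `T` is analytic
  have hopen : IsOpen (⋃ i, closedBall (c i) (ρ i))ᶜ :=
    (isClosed_iUnion_of_finite fun i => isClosed_closedBall).isOpen_compl
  have hfar : ∀ w, (∀ i, w ∉ ball (c i) (3 / 2 * ρ i)) → w ∈ (⋃ i, closedBall (c i) (ρ i))ᶜ := by
    intro w hw h1
    obtain ⟨i, hi⟩ := mem_iUnion.1 h1
    refine hw i ?_
    rw [mem_closedBall] at hi
    rw [mem_ball]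
    have := hρ i
    linarith
  have hus : ContDiff ℝ ∞ u := by
    rw [contDiff_iff_contDiffAt]
    intro w
    by_cases h : ∃ i, w ∈ ball (c i) (3 / 2 * ρ i)
    · obtain ⟨i, hi⟩ := h
      exact contDiffAt_const.congr_of_eventuallyEq (hnear w i hi)
    · push Not at h
      have h1 : ContDiffAt ℝ ∞ T w :=
        ((hT.contDiffOn hopen).contDiffAt (hopen.mem_nhds (hfar w h))).restrict_scalars ℝ
      exact ContDiffAt.mul (contDiff_prod fun i _ => hgs i).contDiffAt h1
  have hub : ∀ w, ‖dzb u w‖ ≤ A * 2 ^ k * ∑ i, ‖dzb (χ i) w‖ := by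
    intro w
    by_cases h : ∃ i, w ∈ ball (c i) (3 / 2 * ρ i)
    · obtain ⟨i, hi⟩ := h
      have h1 : dzb u w = 0 := by
        unfold QC.dzb
        rw [(hnear w i hi).fderiv_eq]
        simp
      rw [h1, norm_zero]
      positivity
    · push Not at h
      have h1 : DifferentiableAt ℂ T w :=
        hT.differentiableAt (hopen.mem_nhds (hfar w h))
      have h2 : dzb u w = dzb P w * T w + P w * dzb T w :=
        (QC.dz_mul (hP w).2.1 (h1.restrictScalars ℝ)).2
      rw [h2, (QC.dz_of_holo h1).2, mul_zero, add_zero, norm_mul]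
      calc ‖dzb P w‖ * ‖T w‖ ≤ (2 ^ k * ∑ i, ‖dzb (g i) w‖) * A :=
            mul_le_mul (hP w).2.2 (hTA w) (norm_nonneg _) (by positivity)
        _ = A * 2 ^ k * ∑ i, ‖dzb (χ i) w‖ := by
            rw [Finset.sum_congr rfl fun i _ => hgz i w]
            ring
  have hcs : HasCompactSupport (dzb u) := by
    refine HasCompactSupport.intro (K := ⋃ i, closedBall (c i) (2 * ρ i))
      (isCompact_iUnion fun i => isCompact_closedBall _ _) ?_
    intro w hw
    have h1 := hub w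
    have h2 : ∑ i, ‖dzb (χ i) w‖ = 0 := by
      refine Finset.sum_eq_zero fun i _ => ?_
      have h3 : w ∉ closedBall (c i) (2 * ρ i) := fun h4 => hw (mem_iUnion.2 ⟨i, h4⟩)
      have h4 : dzb (χ i) w = 0 := (hχ i).2.2.2.2.2 w h3
      rw [h4, norm_zero]
    rw [h2, mul_zero] at h1
    exact norm_le_zero_iff.1 h1
  have hu0 : Tendsto u (cocompact ℂ) (𝓝 0) := by
    have h1 : Tendsto (fun w => 2 ^ k * ‖T w‖) (cocompact ℂ) (𝓝 0) := by
      have := (hT0.norm).const_mul (2 ^ k : ℝ)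
      rwa [norm_zero, mul_zero] at this
    refine squeeze_zero_norm (fun w => ?_) h1
    show ‖P w * T w‖ ≤ _
    rw [norm_mul]
    exact mul_le_mul_of_nonneg_right (hP w).1 (norm_nonneg _)
  have hrep := repU hus hcs hu0 z
  have huz : u z = T z := by
    have h1 : P z = 1 := by
      refine Finset.prod_eq_one fun i _ => ?_
      show 1 - χ i z = 1
      have h2 : z ∉ tsupport (χ i) := by
        intro h3
        have h4 := (hχ i).2.1 h3
        rw [mem_closedBall, dist_eq_norm] at h4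
        have h5 := hz i
        have h6 := hρ i
        nlinarith
      rw [image_eq_zero_of_notMem_tsupport h2, sub_zero]
    show P z * T z = T z
    rw [h1, one_mul]
  rw [huz] at hrep
  -- the bound of the integrand
  let m : Fin k → ℝ := fun i => A * 2 ^ k * (2 * C₁ / ρ i) * (2 / (N * ρ i))
  have hN0 : 0 < N := by linarith
  have hm0 : ∀ i, 0 ≤ m i := fun i => by
    have := hρ i
    show 0 ≤ A * 2 ^ k * (2 * C₁ / ρ i) * (2 / (N * ρ i))
    positivity
  have hχb : ∀ i w, ‖dzb (χ i) w‖ ≤ 2 * C₁ / ρ i := by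
    intro i w
    refine (hcut (c i) (3 / 2 * ρ i) (2 * ρ i) (h32 i) (h322 i) w).trans ?_
    have h1 := hρ i
    have h2 : (2 * ρ i) ^ 2 - (3 / 2 * ρ i) ^ 2 = 7 / 4 * ρ i ^ 2 := by ring
    rw [h2, div_le_div_iff₀ (by positivity) (by positivity)]
    nlinarith [mul_pos (lt_of_lt_of_le one_pos hC₁) (pow_pos h1 2)]
  have hint : ∀ w, ‖dzb u w / (z - w)‖ ≤
      ∑ i, (closedBall (c i) (2 * ρ i)).indicator (fun _ => m i) w := by
    intro w
    rw [norm_div]
    have h1 : ‖dzb u w‖ / ‖z - w‖ ≤ ∑ i, A * 2 ^ k * ‖dzb (χ i) w‖ / ‖z - w‖ := by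
      rw [← Finset.sum_div, ← Finset.mul_sum]
      exact div_le_div_of_nonneg_right (hub w) (norm_nonneg _)
    refine h1.trans (Finset.sum_le_sum fun i _ => ?_)
    by_cases hw : w ∈ closedBall (c i) (2 * ρ i)
    · rw [indicator_of_mem hw]
      have h2 : N * ρ i / 2 ≤ ‖z - w‖ := by
        rw [mem_closedBall, dist_eq_norm] at hw
        have h3 := hz i
        have h4 : z - c i = (z - w) + (w - c i) := by ring
        rw [h4] at h3
        have h5 := norm_add_le (z - w) (w - c i)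
        have h6 := hρ i
        nlinarith
      have h3 := hρ i
      have h4 : 0 < N * ρ i / 2 := by positivity
      calc A * 2 ^ k * ‖dzb (χ i) w‖ / ‖z - w‖
          ≤ A * 2 ^ k * (2 * C₁ / ρ i) / (N * ρ i / 2) := by
            have h5 := hχb i w
            gcongr
        _ = m i := by
            show _ = A * 2 ^ k * (2 * C₁ / ρ i) * (2 / (N * ρ i))
            field_simp
    · rw [indicator_of_notMem hw]
      have h4 : dzb (χ i) w = 0 := (hχ i).2.2.2.2.2 w hw
      rw [h4, norm_zero, mul_zero, zero_div]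
  have hii : ∀ i, Integrable ((closedBall (c i) (2 * ρ i)).indicator fun _ => m i) := fun i =>
    (integrable_indicator_iff isClosed_closedBall.measurableSet).2
      (integrableOn_const measure_closedBall_lt_top.ne)
  have hfin : ‖∫ w, dzb u w / (z - w)‖ ≤ ∑ i, m i * (Real.pi * (2 * ρ i) ^ 2) := by
    refine (norm_integral_le_of_norm_le (integrable_finset_sum _ fun i _ => hii i)
      (Eventually.of_forall hint)).trans (le_of_eq ?_)
    rw [integral_finset_sum _ fun i _ => hii i]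
    refine Finset.sum_congr rfl fun i _ => ?_
    rw [integral_indicator isClosed_closedBall.measurableSet, setIntegral_const, smul_eq_mul,
      Measure.real, Complex.volume_closedBall, ENNReal.toReal_mul, ENNReal.toReal_pow,
      ENNReal.toReal_ofReal (by have := hρ i; positivity)]
    rw [ENNReal.coe_toReal, NNReal.coe_real_pi]
    ring
  rw [hrep]
  unfold QC.Cau
  rw [norm_mul]
  have hpi : ‖(1 / (Real.pi : ℂ))‖ = 1 / Real.pi := by
    rw [norm_div, norm_one, Complex.norm_real, Real.norm_of_nonneg Real.pi_pos.le]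
  rw [hpi]
  calc 1 / Real.pi * ‖∫ w, dzb u w / (z - w)‖
      ≤ 1 / Real.pi * ∑ i, m i * (Real.pi * (2 * ρ i) ^ 2) :=
        mul_le_mul_of_nonneg_left hfin (by positivity)
    _ = ∑ _i : Fin k, 8 * 2 ^ k * (2 * C₁) * (A / N) := by
        rw [Finset.mul_sum]
        refine Finset.sum_congr rfl fun i _ => ?_
        have h1 := hρ i
        have h2 := Real.pi_pos
        show 1 / Real.pi * (A * 2 ^ k * (2 * C₁ / ρ i) * (2 / (N * ρ i)) *
          (Real.pi * (2 * ρ i) ^ 2)) = _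
        field_simp
        ring
    _ = 8 * k * 2 ^ k * (2 * C₁) * (A / N) := by
        rw [Finset.sum_const, Finset.card_fin, nsmul_eq_mul]
        ring
    _ ≤ (8 * k * 2 ^ k * (2 * C₁) + 1) * A / N := by
        rw [mul_div_assoc]
        have : 0 ≤ A / N := by positivity
        nlinarith

end Pool.Agent.Work.MP_2cf110_an.Hyp

end
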