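import Pool.Agent.Work.MP_2cf110_an.Hyp.Defs

/-! # The kernel pp

pp ζ z = ζ.im q(z)², q = y/|w|², w = z - conj ζ, y = Im z = (z - conj z)/(2i); as complex functions q = y (1/w) conj(1/w), with
1/w analytic on Hp (w.im ≥ y > 0).  |w| ≥ y.  ∂q = (1/(2i)) /|w|² - y (1/w²) conj(1/w), |∂q| ≤ (3/2) q/y;
|∂∂̄q| ≤ (1/2 + 1/2 + 1) q/y²; ∂(q²) = 2q∂q, ∂∂̄(q²) = 2(|∂q|² + q∂∂̄q). -/

open MeasureTheory Complex Set Metric Filter
open scoped Topology ContDiff ComplexConjugate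

noncomputable section

namespace Pool.Agent.Work.MP_2cf110_an.Hyp

open QC (dz dzb Test Cau)

/-- a positive kernel with all the required regularity at the hyperbolic scale -/
def pp (ζ z : ℂ) : ℝ := z.im ^ 2 * ζ.im / ‖z - conj ζ‖ ^ 4

private theorem w_im {ζ z : ℂ} (hζ : ζ ∈ Hp) (hz : z ∈ Hp) : z.im ≤ ‖z - conj ζ‖ ∧
    0 < ‖z - conj ζ‖ := by
  have h1 : 0 < ζ.im := hζ
  have h2 : 0 < z.im := hz
  have h3 : (z - conj ζ).im = z.im + ζ.im := by simp
  have h4 := (le_abs_self _).trans (abs_im_le_norm (z - conj ζ))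
  rw [h3] at h4
  constructor <;> linarith

theorem pp_pos {ζ : ℂ} (hζ : ζ ∈ Hp) : (∀ z, 0 ≤ pp ζ z) ∧ ∀ z ∈ Hp, 0 < pp ζ z := by
  have h1 : 0 < ζ.im := hζ
  refine ⟨fun z => by unfold pp; positivity, fun z hz => ?_⟩
  have h2 : 0 < z.im := hz
  have h3 := (w_im hζ hz).2
  unfold pp
  positivity

/-- the two Wirtinger derivatives -/
private def W (f : ℂ → ℂ) (z a b : ℂ) : Prop := DifferentiableAt ℝ f z ∧ dz f z = a ∧ dzb f z = b

private theorem W.mul {f g : ℂ → ℂ} {z a b a' b' : ℂ} (hf : W f z a b) (hg : W g z a' b') :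
    W (fun w => f w * g w) z (a * g z + f z * a') (b * g z + f z * b') := by
  obtain ⟨h1, h2, h3⟩ := hf
  obtain ⟨h4, h5, h6⟩ := hg
  obtain ⟨h7, h8⟩ := QC.dz_mul h1 h4
  exact ⟨h1.mul h4, by rw [h7, h2, h5], by rw [h8, h3, h6]⟩

private theorem W.sub {f g : ℂ → ℂ} {z a b a' b' : ℂ} (hf : W f z a b) (hg : W g z a' b') :
    W (fun w => f w - g w) z (a - a') (b - b') := by
  obtain ⟨h1, h2, h3⟩ := hf
  obtain ⟨h4, h5, h6⟩ := hg
  obtain ⟨h7, h8⟩ := QC.dz_sub h1 h4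
  exact ⟨h1.sub h4, by rw [h7, h2, h5], by rw [h8, h3, h6]⟩

private theorem W.const (c z : ℂ) : W (fun _ => c) z 0 0 := by
  refine ⟨differentiableAt_const c, ?_, ?_⟩
  · unfold QC.dz; simp
  · unfold QC.dzb; simp

private theorem W.Y (z : ℂ) : W (fun w : ℂ => ((w.im : ℝ) : ℂ)) z (-I / 2) (I / 2) := by
  have h : HasFDerivAt (fun w : ℂ => ((w.im : ℝ) : ℂ)) (ofRealCLM.comp imCLM) z :=
    (ofRealCLM.comp imCLM).hasFDerivAt
  refine ⟨h.differentiableAt, ?_, ?_⟩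
  · unfold QC.dz
    rw [h.fderiv]
    simp
  · unfold QC.dzb
    rw [h.fderiv]
    simp

private theorem W.P {z e : ℂ} (h : z - e ≠ 0) :
    W (fun w : ℂ => (w - e)⁻¹) z (-((z - e)⁻¹ * (z - e)⁻¹)) 0 := by
  have h1 : HasDerivAt (fun w : ℂ => (w - e)⁻¹) (-((z - e)⁻¹ * (z - e)⁻¹)) z := by
    have h2 := ((hasDerivAt_id z).sub_const e).inv h
    refine h2.congr_deriv ?_
    simp only [id]
    field_simp
  obtain ⟨h3, h4⟩ := QC.dz_of_holo h1.differentiableAt
  exact ⟨h1.differentiableAt.restrictScalars ℝ, by rw [h3, h1.deriv], h4⟩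

private theorem W.conj' {f : ℂ → ℂ} {z a b : ℂ} (hf : W f z a b) :
    W (fun w => conj (f w)) z (conj b) (conj a) := by
  obtain ⟨h1, h2, h3⟩ := hf
  obtain ⟨h4, h5⟩ := QC.dz_conj f z
  exact ⟨Complex.conjCLE.differentiableAt.comp z h1, by rw [h4, h3], by rw [h5, h2]⟩

private theorem W.congr {f g : ℂ → ℂ} {z a b : ℂ} (hf : W f z a b) (h : g =ᶠ[𝓝 z] f) :
    W g z a b := by
  obtain ⟨h1, h2, h3⟩ := hf
  refine ⟨h1.congr_of_eventuallyEq h, ?_, ?_⟩
  · rw [← h2]; unfold QC.dz; rw [h.fderiv_eq]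
  · rw [← h3]; unfold QC.dzb; rw [h.fderiv_eq]

theorem pp_smooth {ζ : ℂ} (hζ : ζ ∈ Hp) : ContDiffOn ℝ ∞ (pp ζ) Hp ∧ ∀ z ∈ Hp,
    ‖dz (fun w => (pp ζ w : ℂ)) z‖ ≤ 3 * pp ζ z / z.im ∧
    ‖dz (dzb fun w => (pp ζ w : ℂ)) z‖ ≤ 20 * pp ζ z / z.im ^ 2 := by
  have hζ' : 0 < ζ.im := hζ
  constructor
  · unfold pp
    have h1 : ContDiff ℝ ∞ (fun z : ℂ => z.im ^ 2 * ζ.im) :=
      (imCLM.contDiff.pow 2).mul contDiff_const
    have h2 : ContDiff ℝ ∞ (fun z : ℂ => ‖z - conj ζ‖ ^ 4) := by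
      have h3 : (fun z : ℂ => ‖z - conj ζ‖ ^ 4) = fun z : ℂ => (‖z - conj ζ‖ ^ 2) ^ 2 := by
        funext z
        ring
      rw [h3]
      exact ((contDiff_norm_sq ℝ).comp (contDiff_id.sub contDiff_const)).pow 2
    refine h1.contDiffOn.div h2.contDiffOn (fun z hz => ?_)
    exact pow_ne_zero 4 (w_im hζ hz).2.ne'
  · intro z hz
    have hy : 0 < z.im := hz
    obtain ⟨hyw, hw0⟩ := w_im hζ hz
    obtain ⟨P, hP⟩ : ∃ P : ℂ → ℂ, P = fun w => (w - conj ζ)⁻¹ := ⟨_, rfl⟩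
    obtain ⟨Q, hQ⟩ : ∃ Q : ℂ → ℂ, Q = fun w => conj (P w) := ⟨_, rfl⟩
    obtain ⟨Y, hY⟩ : ∃ Y : ℂ → ℂ, Y = fun w => ((w.im : ℝ) : ℂ) := ⟨_, rfl⟩
    have WP : ∀ u ∈ Hp, W P u (-(P u * P u)) 0 := by
      intro u hu
      rw [hP]
      exact W.P (norm_pos_iff.1 (w_im hζ hu).2)
    have WQ : ∀ u ∈ Hp, W Q u 0 (-(Q u * Q u)) := by
      intro u hu
      have h := (WP u hu).conj'
      rw [map_zero, map_neg, map_mul] at h
      rw [hQ]
      exact h
    have WY : ∀ u, W Y u (-I / 2) (I / 2) := by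
      intro u
      rw [hY]
      exact W.Y u
    obtain ⟨c, hc⟩ : ∃ c : ℂ, c = ((ζ.im : ℝ) : ℂ) := ⟨_, rfl⟩
    have hpp : (fun w => (pp ζ w : ℂ)) = fun w => c * ((Y w * (P w * Q w)) * (Y w * (P w * Q w))) := by
      funext w
      have h1 : P w * Q w = ((‖w - conj ζ‖ ^ 2 : ℝ) : ℂ)⁻¹ := by
        rw [hQ, hP]
        simp only []
        rw [map_inv₀, ← mul_inv, mul_conj, normSq_eq_norm_sq]
      rw [h1, hc, hY]
      unfold pp
      push_cast
      rw [div_eq_mul_inv, ← inv_pow]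
      ring
    rw [hpp]
    obtain ⟨q, hq⟩ : ∃ q : ℂ → ℂ, q = fun w => Y w * (P w * Q w) := ⟨_, rfl⟩
    obtain ⟨R, hR⟩ : ∃ R : ℂ → ℂ, R = fun w => (I / 2) * (P w * Q w) - Y w * (P w * (Q w * Q w)) :=
      ⟨_, rfl⟩
    have Wq : ∀ u ∈ Hp, W q u ((-I / 2) * (P u * Q u) - Y u * (P u * P u * Q u)) (R u) := by
      intro u hu
      have h := (WY u).mul ((WP u hu).mul (WQ u hu))
      rw [hq]
      refine ⟨h.1, h.2.1.trans ?_, h.2.2.trans ?_⟩
      · ring
      · rw [hR]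
        ring
    have WR : ∀ u ∈ Hp, dz R u = -(I / 2) * (P u * P u * Q u) + (I / 2) * (P u * (Q u * Q u)) +
        Y u * (P u * P u * (Q u * Q u)) ∧ DifferentiableAt ℝ R u := by
      intro u hu
      have h := ((W.const (I / 2) u).mul ((WP u hu).mul (WQ u hu))).sub
        ((WY u).mul ((WP u hu).mul ((WQ u hu).mul (WQ u hu))))
      rw [hR]
      refine ⟨h.2.1.trans ?_, h.1⟩
      ring
    have Wpp : ∀ u ∈ Hp, W (fun w => c * (q w * q w)) u
        (2 * c * (q u * ((-I / 2) * (P u * Q u) - Y u * (P u * P u * Q u)))) (2 * c * (q u * R u)) := by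
      intro u hu
      have h := (W.const c u).mul ((Wq u hu).mul (Wq u hu))
      refine ⟨h.1, h.2.1.trans ?_, h.2.2.trans ?_⟩ <;> ring
    have hpq : (fun w => c * ((Y w * (P w * Q w)) * (Y w * (P w * Q w)))) =
        fun w => c * (q w * q w) := by rw [hq]
    rw [hpq]
    -- norms
    obtain ⟨r, hr⟩ : ∃ r : ℝ, r = ‖z - conj ζ‖⁻¹ := ⟨_, rfl⟩
    have hr0 : 0 < r := by rw [hr]; positivity
    have hyr : z.im * r ≤ 1 := by
      rw [hr, ← div_eq_mul_inv, div_le_one hw0]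
      exact hyw
    have nP : ‖P z‖ = r := by rw [hP, hr, norm_inv]
    have nQ : ‖Q z‖ = r := by
      have : Q z = conj (P z) := by rw [hQ]
      rw [this, norm_conj, nP]
    have nY : ‖Y z‖ = z.im := by
      rw [hY]
      show ‖((z.im : ℝ) : ℂ)‖ = z.im
      rw [norm_real, Real.norm_of_nonneg hy.le]
    have nc : ‖c‖ = ζ.im := by rw [hc, norm_real, Real.norm_of_nonneg hζ'.le]
    have nI : ‖(I / 2 : ℂ)‖ = 1 / 2 := by simp
    have nI' : ‖(-I / 2 : ℂ)‖ = 1 / 2 := by rw [neg_div, norm_neg, nI]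
    have nI'' : ‖(-(I / 2) : ℂ)‖ = 1 / 2 := by rw [norm_neg, nI]
    have nq : ‖q z‖ = z.im * (r * r) := by
      have : q z = Y z * (P z * Q z) := by rw [hq]
      rw [this, norm_mul, norm_mul, nY, nP, nQ]
    have n1 : ‖(-I / 2) * (P z * Q z) - Y z * (P z * P z * Q z)‖ ≤ 3 / 2 * (r * r) := by
      refine (norm_sub_le _ _).trans ?_
      rw [norm_mul, norm_mul, norm_mul, norm_mul, norm_mul, nY, nP, nQ, nI']
      nlinarith [mul_le_mul_of_nonneg_right hyr (mul_pos hr0 hr0).le]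
    have n2 : ‖R z‖ ≤ 3 / 2 * (r * r) := by
      have : R z = (I / 2) * (P z * Q z) - Y z * (P z * (Q z * Q z)) := by rw [hR]
      rw [this]
      refine (norm_sub_le _ _).trans ?_
      rw [norm_mul, norm_mul, norm_mul, norm_mul, norm_mul, nY, nP, nQ, nI]
      nlinarith [mul_le_mul_of_nonneg_right hyr (mul_pos hr0 hr0).le]
    have n3 : ‖-(I / 2) * (P z * P z * Q z) + (I / 2) * (P z * (Q z * Q z)) +
        Y z * (P z * P z * (Q z * Q z))‖ ≤ 2 * (r * r * r) := by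
      refine (norm_add_le _ _).trans ?_
      have h1 := norm_add_le (-(I / 2) * (P z * P z * Q z)) ((I / 2) * (P z * (Q z * Q z)))
      have h2 : ‖-(I / 2) * (P z * P z * Q z)‖ = 1 / 2 * (r * r * r) := by
        rw [norm_mul, norm_mul, norm_mul, nP, nQ, nI'']
      have h3 : ‖(I / 2) * (P z * (Q z * Q z))‖ = 1 / 2 * (r * (r * r)) := by
        rw [norm_mul, norm_mul, norm_mul, nP, nQ, nI]
      have h4 : ‖Y z * (P z * P z * (Q z * Q z))‖ = z.im * (r * r * (r * r)) := by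
        rw [norm_mul, norm_mul, norm_mul, norm_mul, nP, nQ, nY]
      rw [h2, h3] at h1
      rw [h4]
      nlinarith [mul_le_mul_of_nonneg_right hyr (mul_pos (mul_pos hr0 hr0) hr0).le]
    have hppr : pp ζ z = ζ.im * (z.im * (r * r)) * (z.im * (r * r)) := by
      unfold pp
      rw [hr, div_eq_mul_inv]
      field_simp
    constructor
    · rw [(Wpp z hz).2.1, norm_mul, norm_mul, norm_mul, norm_ofNat, nc, nq, hppr]
      rw [le_div_iff₀ hy]
      have h1 : 2 * ζ.im * (z.im * (r * r) *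
          ‖(-I / 2) * (P z * Q z) - Y z * (P z * P z * Q z)‖) * z.im ≤
          2 * ζ.im * (z.im * (r * r) * (3 / 2 * (r * r))) * z.im := by
        gcongr
      refine h1.trans (le_of_eq ?_)
      ring
    · have hev : dzb (fun w => c * (q w * q w)) =ᶠ[𝓝 z] fun w => 2 * c * (q w * R w) := by
        filter_upwards [isOpen_Hp.mem_nhds hz] with u hu
        exact (Wpp u hu).2.2
      have h1 : dz (dzb fun w => c * (q w * q w)) z = dz (fun w => 2 * c * (q w * R w)) z := by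
        unfold QC.dz
        rw [hev.fderiv_eq]
      have h2 := (W.const (2 * c) z).mul ((Wq z hz).mul
        (⟨(WR z hz).2, (WR z hz).1, rfl⟩ : W R z _ _))
      rw [h1, h2.2.1, zero_mul, zero_add, norm_mul, norm_mul, norm_ofNat, nc, hppr]
      have h3 : ‖((-I / 2) * (P z * Q z) - Y z * (P z * P z * Q z)) * R z +
          q z * (-(I / 2) * (P z * P z * Q z) + (I / 2) * (P z * (Q z * Q z)) +
          Y z * (P z * P z * (Q z * Q z)))‖ ≤ 17 / 4 * (r * r * (r * r)) := by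
        refine (norm_add_le _ _).trans ?_
        rw [norm_mul, norm_mul, nq]
        have h4 : ‖(-I / 2) * (P z * Q z) - Y z * (P z * P z * Q z)‖ * ‖R z‖ ≤
            (3 / 2 * (r * r)) * (3 / 2 * (r * r)) :=
          mul_le_mul n1 n2 (norm_nonneg _) (by positivity)
        have h5 : z.im * (r * r) * ‖-(I / 2) * (P z * P z * Q z) + (I / 2) * (P z * (Q z * Q z)) +
            Y z * (P z * P z * (Q z * Q z))‖ ≤ z.im * (r * r) * (2 * (r * r * r)) :=
          mul_le_mul_of_nonneg_left n3 (by positivity)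
        have h6 : z.im * (r * r) * (2 * (r * r * r)) ≤ 2 * (r * r * (r * r)) := by
          have h7 := mul_le_mul_of_nonneg_right hyr
            (mul_pos (mul_pos hr0 hr0) (mul_pos hr0 hr0)).le
          nlinarith
        linarith
      rw [le_div_iff₀ (by positivity)]
      have h8 : 2 * ζ.im * ‖((-I / 2) * (P z * Q z) - Y z * (P z * P z * Q z)) * R z +
          q z * (-(I / 2) * (P z * P z * Q z) + (I / 2) * (P z * (Q z * Q z)) +
          Y z * (P z * P z * (Q z * Q z)))‖ * z.im ^ 2 ≤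
          2 * ζ.im * (17 / 4 * (r * r * (r * r))) * z.im ^ 2 := by
        gcongr
      refine h8.trans ?_
      have h9 : 0 ≤ ζ.im * (r * r * (r * r)) * z.im ^ 2 := by positivity
      nlinarith

end Pool.Agent.Work.MP_2cf110_an.Hyp

end
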