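import Pool.Agent.Work.MP_2cf110_an.Hyp.PpA

/-! # The kernel pp: integral and Harnack inequalities

Integral: substitution z = ζ.re + ζ.im u: ∫_Hp pp/y = ∫_Hp (Im u)/|u + i|⁴ du =: C < ∞ (|u + i|⁴ ≥ ((Im u + 1)² + (Re u)²)², and
∫_Re ≤ π/(2 (v+1)³), ∫ v/(v+1)³ < ∞; or bound the integrand by (1+|u|)^(-3)·const: Im u/|u+i|⁴ ≤ 1/|u+i|³ ≤ C (1+|u|)^(-3),
which is integrable in the plane: integrable_one_add_norm).  Harnack: compare the factors. -/

open MeasureTheory Complex Set Metric Filter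
open scoped Topology ContDiff ComplexConjugate

noncomputable section

namespace Pool.Agent.Work.MP_2cf110_an.Hyp

open QC (dz dzb Test Cau)

private theorem im_pos' {z : ℂ} (hz : z ∈ Hp) : 0 < z.im := hz

private theorem im_add_le {ζ z : ℂ} : z.im + ζ.im ≤ ‖z - conj ζ‖ := by
  have h1 : (z - conj ζ).im = z.im + ζ.im := by
    rw [Complex.sub_im, Complex.conj_im, sub_neg_eq_add]
  rw [← h1]
  exact (le_abs_self _).trans (Complex.abs_im_le_norm _)

private theorem norm_sub_le_conj {ζ z : ℂ} (hζ : ζ ∈ Hp) (hz : z ∈ Hp) :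
    ‖z - ζ‖ ≤ ‖z - conj ζ‖ := by
  have h1 := im_pos' hζ
  have h2 := im_pos' hz
  have h3 : ‖z - ζ‖ ^ 2 ≤ ‖z - conj ζ‖ ^ 2 := by
    rw [← Complex.normSq_eq_norm_sq, ← Complex.normSq_eq_norm_sq, Complex.normSq_apply,
      Complex.normSq_apply]
    simp only [Complex.sub_re, Complex.sub_im, Complex.conj_re, Complex.conj_im]
    nlinarith [mul_pos h1 h2]
  exact (sq_le_sq₀ (norm_nonneg _) (norm_nonneg _)).1 h3

theorem pp_int : ∃ C : ℝ, 0 < C ∧ ∀ ζ ∈ Hp, IntegrableOn (fun z => pp ζ z / z.im) Hp ∧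
    ∫ z in Hp, pp ζ z / z.im ≤ C := by
  have hg : Integrable (fun u : ℂ => (1 + ‖u‖) ^ (-(3 : ℝ))) := by
    apply integrable_one_add_norm
    rw [Complex.finrank_real_complex]
    norm_num
  refine ⟨8 * (∫ u : ℂ, (1 + ‖u‖) ^ (-(3 : ℝ))) + 1, ?_, ?_⟩
  · have h1 : 0 ≤ ∫ u : ℂ, (1 + ‖u‖) ^ (-(3 : ℝ)) :=
      integral_nonneg fun u => Real.rpow_nonneg (by positivity) _
    linarith
  · intro ζ hζ
    have hη := im_pos' hζ
    set η := ζ.im with hηd
    let G : ℂ → ℝ := fun z => 8 * (η ^ 2)⁻¹ * (1 + ‖η⁻¹ • (z - ζ)‖) ^ (-(3 : ℝ))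
    have hG : Integrable G :=
      ((hg.comp_smul (inv_ne_zero hη.ne')).comp_sub_right ζ).const_mul _
    have hGi : ∫ z, G z = 8 * ∫ u : ℂ, (1 + ‖u‖) ^ (-(3 : ℝ)) := by
      show ∫ z, 8 * (η ^ 2)⁻¹ * (1 + ‖η⁻¹ • (z - ζ)‖) ^ (-(3 : ℝ)) = _
      rw [integral_const_mul]
      rw [integral_sub_right_eq_self (fun z : ℂ => (1 + ‖η⁻¹ • z‖) ^ (-(3 : ℝ))) ζ]
      rw [Measure.integral_comp_smul volume (fun z : ℂ => (1 + ‖z‖) ^ (-(3 : ℝ))) η⁻¹]
      rw [Complex.finrank_real_complex, smul_eq_mul, inv_pow, inv_inv, abs_of_pos (by positivity)]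
      field_simp
    have hle : ∀ z ∈ Hp, ‖pp ζ z / z.im‖ ≤ G z := by
      intro z hz
      have hy := im_pos' hz
      have h1 := im_add_le (ζ := ζ) (z := z)
      have h2 := norm_sub_le_conj hζ hz
      set w := ‖z - conj ζ‖ with hw
      have hw0 : 0 < w := by linarith
      have h3 : pp ζ z / z.im = z.im * η / w ^ 4 := by
        unfold pp
        rw [← hw, ← hηd]
        field_simp
      rw [h3, Real.norm_of_nonneg (by positivity)]
      have h4 : ‖η⁻¹ • (z - ζ)‖ = ‖z - ζ‖ / η := by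
        rw [norm_smul, norm_inv, Real.norm_of_nonneg hη.le]
        field_simp
      show _ ≤ 8 * (η ^ 2)⁻¹ * (1 + ‖η⁻¹ • (z - ζ)‖) ^ (-(3 : ℝ))
      rw [h4]
      have h5 : 1 + ‖z - ζ‖ / η = (η + ‖z - ζ‖) / η := by field_simp
      have h6 : 0 < η + ‖z - ζ‖ := by positivity
      rw [h5, Real.rpow_neg (by positivity)]
      have h7 : ((η + ‖z - ζ‖) / η) ^ (3 : ℝ) = ((η + ‖z - ζ‖) / η) ^ 3 := by
        exact_mod_cast Real.rpow_natCast ((η + ‖z - ζ‖) / η) 3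
      rw [h7]
      have h8 : 8 * (η ^ 2)⁻¹ * (((η + ‖z - ζ‖) / η) ^ 3)⁻¹ = 8 * η / (η + ‖z - ζ‖) ^ 3 := by
        field_simp
      rw [h8]
      have h9 : η + ‖z - ζ‖ ≤ 2 * w := by linarith
      have h10 : z.im * η / w ^ 4 ≤ η / w ^ 3 := by
        rw [div_le_div_iff₀ (by positivity) (by positivity)]
        have h11 : z.im ≤ w := by linarith
        calc z.im * η * w ^ 3 ≤ w * η * w ^ 3 := by gcongr
          _ = η * w ^ 4 := by ring
      refine h10.trans ?_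
      rw [div_le_div_iff₀ (by positivity) (by positivity)]
      calc η * (η + ‖z - ζ‖) ^ 3 ≤ η * (2 * w) ^ 3 := by gcongr
        _ = 8 * η * w ^ 3 := by ring
    have hm : Measurable fun z => pp ζ z / z.im := by
      unfold pp
      fun_prop
    have hint : IntegrableOn (fun z => pp ζ z / z.im) Hp := by
      refine Integrable.mono' hG.integrableOn hm.aestronglyMeasurable ?_
      exact (ae_restrict_iff' isOpen_Hp.measurableSet).2 (Eventually.of_forall hle)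
    refine ⟨hint, ?_⟩
    have h1 : ∫ z in Hp, pp ζ z / z.im ≤ ∫ z in Hp, G z := by
      refine setIntegral_mono_on hint hG.integrableOn isOpen_Hp.measurableSet ?_
      intro z hz
      exact (le_abs_self _).trans (hle z hz)
    have h2 : ∫ z in Hp, G z ≤ ∫ z, G z := by
      refine setIntegral_le_integral hG (Eventually.of_forall fun z => ?_)
      show 0 ≤ 8 * (η ^ 2)⁻¹ * (1 + ‖η⁻¹ • (z - ζ)‖) ^ (-(3 : ℝ))
      have := Real.rpow_nonneg (show 0 ≤ 1 + ‖η⁻¹ • (z - ζ)‖ by positivity) (-(3 : ℝ))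
      positivity
    rw [hGi] at h2
    linarith

theorem pp_low {ζ z : ℂ} (hζ : ζ ∈ Hp) (hz : z ∈ Hp) (h : ‖z - ζ‖ ≤ z.im / 2) :
    1 / (400 * z.im) ≤ pp ζ z := by
  have hη := im_pos' hζ
  have hy := im_pos' hz
  have h1 : |z.im - ζ.im| ≤ z.im / 2 := by
    have h2 := Complex.abs_im_le_norm (z - ζ)
    rw [Complex.sub_im] at h2
    exact h2.trans h
  rw [abs_le] at h1
  have h3 : ‖z - conj ζ‖ ≤ 7 / 2 * z.im := by
    have h4 : z - conj ζ = (z - ζ) + (ζ - conj ζ) := by ring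
    have h5 : ‖ζ - conj ζ‖ = 2 * ζ.im := by
      rw [Complex.sub_conj, norm_mul, Complex.norm_I, mul_one, Complex.norm_real,
        Real.norm_of_nonneg (by positivity)]
    rw [h4]
    refine (norm_add_le _ _).trans ?_
    rw [h5]
    linarith [h1.1]
  have h6 := im_add_le (ζ := ζ) (z := z)
  have h7 : 0 < ‖z - conj ζ‖ := by linarith
  unfold pp
  rw [div_le_div_iff₀ (by positivity) (by positivity)]
  have h8 : ‖z - conj ζ‖ ^ 4 ≤ (7 / 2 * z.im) ^ 4 := by gcongr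
  have h9 : z.im / 2 ≤ ζ.im := by linarith [h1.2]
  calc 1 * ‖z - conj ζ‖ ^ 4 ≤ (7 / 2 * z.im) ^ 4 := by rw [one_mul]; exact h8
    _ ≤ z.im ^ 2 * (z.im / 2) * (400 * z.im) := by nlinarith [pow_pos hy 4]
    _ ≤ z.im ^ 2 * ζ.im * (400 * z.im) := by gcongr

theorem pp_harnack {ζ z z' : ℂ} (hζ : ζ ∈ Hp) (hz : z ∈ Hp) (h : ‖z - z'‖ ≤ z.im / 3) :
    pp ζ z' ≤ 10 * pp ζ z := by
  have hη := im_pos' hζ
  have hy := im_pos' hz
  have h1 : |z.im - z'.im| ≤ z.im / 3 := by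
    have h2 := Complex.abs_im_le_norm (z - z')
    rw [Complex.sub_im] at h2
    exact h2.trans h
  rw [abs_le] at h1
  have h3 := im_add_le (ζ := ζ) (z := z)
  set w := ‖z - conj ζ‖ with hw
  have hw0 : 0 < w := by linarith
  have h4 : 2 / 3 * w ≤ ‖z' - conj ζ‖ := by
    have h5 : z - conj ζ = (z - z') + (z' - conj ζ) := by ring
    have h6 : w ≤ ‖z - z'‖ + ‖z' - conj ζ‖ := by
      rw [hw, h5]
      exact norm_add_le _ _
    linarith
  have h7 : 0 < ‖z' - conj ζ‖ := lt_of_lt_of_le (by positivity) h4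
  unfold pp
  rw [← hw]
  have h8 : (2 / 3 * w) ^ 4 ≤ ‖z' - conj ζ‖ ^ 4 := by gcongr
  have h9 : z'.im ^ 2 ≤ (4 / 3 * z.im) ^ 2 := by
    apply sq_le_sq'
    · linarith [h1.1, h1.2]
    · linarith [h1.1]
  calc z'.im ^ 2 * ζ.im / ‖z' - conj ζ‖ ^ 4 ≤ (4 / 3 * z.im) ^ 2 * ζ.im / (2 / 3 * w) ^ 4 := by
        gcongr
    _ = 9 * (z.im ^ 2 * ζ.im / w ^ 4) := by
        field_simp
        ring
    _ ≤ 10 * (z.im ^ 2 * ζ.im / w ^ 4) := by
        have : 0 ≤ z.im ^ 2 * ζ.im / w ^ 4 := by positivity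
        linarith

end Pool.Agent.Work.MP_2cf110_an.Hyp

end
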