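import Pool.Agent.Work.MP_2cf110_an.Hyp.Single
import Pool.Agent.Work.MP_2cf110_an.Hyp.AlF

/-! # Replacement in integrals, one function

On the support of w (in closedBall a (5R)) cut a (6R) (8R) = 1, so 1_V h - al = TT V h (cut a (6R) (8R)); single with U = ball a (10R),
E = closedBall a (8R) \ V. -/

open MeasureTheory Complex Set Metric Filter
open scoped Topology ContDiff ComplexConjugate

noncomputable section

namespace Pool.Agent.Work.MP_2cf110_an.Hyp

open QC (dz dzb Test Cau)

theorem prod1 : ∃ C : ℝ, 0 < C ∧ ∀ (V : Set ℂ) (a : ℂ) (R N W : ℝ) (h w : ℂ → ℂ), IsOpen V →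
    0 < R → 0 ≤ N → 0 ≤ W → DifferentiableOn ℂ h (V ∩ ball a (10 * R)) →
    (∀ z ∈ V ∩ ball a (10 * R), ‖h z‖ ≤ N) → Test univ w → tsupport w ⊆ closedBall a (5 * R) →
    (∀ z, ‖w z‖ ≤ W) →
    ‖∫ z, (V.indicator h z - al V a R h z) * w z‖ ≤
      C * N * W * R * cap (closedBall a (8 * R) \ V) := by
  obtain ⟨C, hC, hs⟩ := single
  obtain ⟨Q, hQ, hc⟩ := cut_dzb
  refine ⟨C * Q, by positivity, ?_⟩
  intro V a R N W h w hV hR hN0 hW0 hh hN hw hws hwW
  have h6 : 0 < 6 * R := by positivity
  have h68 : 6 * R < 8 * R := by linarith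
  obtain ⟨f1, f2, f3, f4, -, -⟩ := cut_facts (a := a) h6 h68
  have hsub : tsupport (cut a (6 * R) (8 * R)) ⊆ ball a (10 * R) :=
    f2.trans (closedBall_subset_ball (by linarith))
  have key := hs V (ball a (10 * R)) (closedBall a (8 * R) \ V) a R N Q W h
    (cut a (6 * R) (8 * R)) w hV isOpen_ball hR hN0 hQ hW0 hh hN ⟨f1.smooth, f1.cpt, hsub⟩
    (f2.trans (closedBall_subset_closedBall (by linarith)))
    (fun z hz => ⟨f2 hz.1, hz.2⟩)
    (fun z hz => closedBall_subset_closedBall (by linarith) hz.1) f3 ?_ hw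
    (hws.trans (closedBall_subset_closedBall (by linarith))) hwW
  · have heq : ∫ z, (V.indicator h z - al V a R h z) * w z =
        ∫ z, TT V h (cut a (6 * R) (8 * R)) z * w z := by
      refine integral_congr_ae (Eventually.of_forall fun z => ?_)
      show (V.indicator h z - al V a R h z) * w z = TT V h (cut a (6 * R) (8 * R)) z * w z
      by_cases hz : z ∈ closedBall a (6 * R)
      · have h1 : V.indicator (fun w => cut a (6 * R) (8 * R) w * h w) z = V.indicator h z := by
          by_cases hz' : z ∈ V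
          · rw [indicator_of_mem hz', indicator_of_mem hz', f4 z hz, one_mul]
          · rw [indicator_of_notMem hz', indicator_of_notMem hz']
        unfold TT al
        rw [h1]
      · have h1 : w z = 0 := image_eq_zero_of_notMem_tsupport fun h2 =>
          hz (closedBall_subset_closedBall (by linarith) (hws h2))
        rw [h1, mul_zero, mul_zero]
    rw [heq]
    calc _ ≤ C * N * Q * W * R * cap (closedBall a (8 * R) \ V) := key
      _ = C * Q * N * W * R * cap (closedBall a (8 * R) \ V) := by ring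
  · intro z
    refine (hc a (6 * R) (8 * R) h6 h68 z).trans ?_
    have h1 : (8 * R) ^ 2 - (6 * R) ^ 2 = 28 * R ^ 2 := by ring
    rw [h1, div_le_div_iff₀ (by positivity) hR]
    have h2 : 0 ≤ Q * R ^ 2 := by positivity
    nlinarith

end Pool.Agent.Work.MP_2cf110_an.Hyp

end
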