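import Pool.Agent.Work.MP_2cf110_an.Hyp.Prod2

/-! # Replacement in integrals, product of two functions, general cut-off

Same proof as prod2 (MP_2cf110_an/Hyp/Prod2) with the cut-off φ instead of cut a (6R) (8R): α_i = Cau(1_V h_i dzb φ) is continuous, bounded by 72 N_i Q (cauBdd_le), and
analytic on O (there dzb φ = 0: QC.weyl_cont, see al_facts); T_i = TT V h_i φ is analytic off E, bounded by 73 N_i Q, and far for ‖z - a‖ ≥ 9R; on O: 1_V h_i = α_i + T_i.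
Third term: single with V'' = Eᶜ, U = univ, φ'' = cut a (9R) (12R), and area_le. -/

open MeasureTheory Complex Set Metric Filter
open scoped Topology ContDiff ComplexConjugate

noncomputable section

namespace Pool.Agent.Work.MP_2cf110_an.Hyp

open QC (dz dzb Test Cau)

private theorem pg_supp {U : Set ℂ} {φ : ℂ → ℂ} (hφ : Test U φ) {z : ℂ} (hz : z ∉ tsupport φ) :
    dzb φ z = 0 := by
  have hφ' : Test (tsupport φ) φ := ⟨hφ.smooth, hφ.cpt, subset_rfl⟩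
  have hD := (QC.Test.dz hφ').2
  exact image_eq_zero_of_notMem_tsupport fun h => hz (hD.sub h)

theorem alG {V U O : Set ℂ} {a : ℂ} {R N Q : ℝ} {h φ : ℂ → ℂ} (hV : IsOpen V) (hU : IsOpen U)
    (hO : IsOpen O) (hR : 0 < R) (hN0 : 0 ≤ N) (hQ : 0 ≤ Q) (hh : DifferentiableOn ℂ h (V ∩ U))
    (hN : ∀ z ∈ V ∩ U, ‖h z‖ ≤ N) (hφ : Test U φ) (hs : tsupport φ ⊆ closedBall a (12 * R))
    (hQ' : ∀ z, ‖dzb φ z‖ ≤ Q / R) (h1 : ∀ z ∈ O, dzb φ z = 0) :
    DifferentiableOn ℂ (Cau (V.indicator fun w => h w * dzb φ w)) O ∧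
    Continuous (Cau (V.indicator fun w => h w * dzb φ w)) ∧
    ∀ z, ‖Cau (V.indicator fun w => h w * dzb φ w) z‖ ≤ 72 * N * Q := by
  obtain ⟨g, hg⟩ : ∃ g : ℂ → ℂ, g = V.indicator fun w => h w * dzb φ w := ⟨_, rfl⟩
  rw [← hg]
  have hm : Measurable g := by
    rw [hg]
    exact (TT_meas hV hU hh hφ).2
  have hle : ∀ z, ‖g z‖ ≤ N * (Q / R) := by
    intro z
    have hpos : 0 ≤ N * (Q / R) := by positivity
    rw [hg]
    by_cases hz : z ∈ V
    swap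
    · rw [indicator_of_notMem hz, norm_zero]
      exact hpos
    rw [indicator_of_mem hz]
    by_cases hz2 : z ∈ tsupport φ
    swap
    · rw [pg_supp hφ hz2, mul_zero, norm_zero]
      exact hpos
    rw [norm_mul]
    exact mul_le_mul (hN z ⟨hz, hφ.sub hz2⟩) (hQ' z) (norm_nonneg _) hN0
  have hs' : ∀ z, z ∉ closedBall a (12 * R) → g z = 0 := by
    intro z hz
    rw [hg]
    by_cases hzV : z ∈ V
    · rw [indicator_of_mem hzV, pg_supp hφ fun h => hz (hs h), mul_zero]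
    · rw [indicator_of_notMem hzV]
  have h0 : ∀ z ∈ O, g z = 0 := by
    intro z hz
    rw [hg]
    by_cases hzV : z ∈ V
    · rw [indicator_of_mem hzV, h1 z hz, mul_zero]
    · rw [indicator_of_notMem hzV]
  have h12 : (0 : ℝ) < 12 * R := by linarith
  have hcont : Continuous (Cau g) := cauBdd_cont h12 hm hle hs'
  refine ⟨QC.weyl_cont hO hcont.continuousOn fun ψ hψ => ?_, hcont, fun z => ?_⟩
  · rw [cauBdd_weak hm hle hs' ⟨hψ.smooth, hψ.cpt, subset_univ _⟩]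
    have : (fun z => g z * ψ z) = fun _ => 0 := by
      funext z
      by_cases hz : z ∈ O
      · rw [h0 z hz, zero_mul]
      · rw [image_eq_zero_of_notMem_tsupport fun hz' => hz (hψ.sub hz'), mul_zero]
    rw [this, integral_zero, neg_zero]
  · refine (cauBdd_le h12 hm hle hs' z).trans (le_of_eq ?_)
    field_simp
    ring

private theorem pg_int {f w : ℂ → ℂ} {B : ℝ} (hf : Measurable f) (hB : ∀ z, ‖f z‖ ≤ B)
    (hw : Test univ w) : Integrable (fun z => f z * w z) :=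
  (hw.smooth.continuous.integrable_of_hasCompactSupport hw.cpt).bdd_mul
    hf.aestronglyMeasurable (Filter.Eventually.of_forall hB)

private theorem pg_set {f w : ℂ → ℂ} {S : Set ℂ} {B W : ℝ} (hSv : volume S < ⊤)
    (hB0 : 0 ≤ B) (hB : ∀ z ∈ S, ‖f z‖ ≤ B) (hw : ∀ z, ‖w z‖ ≤ W)
    (h0 : ∀ z, z ∉ S → f z * w z = 0) : ‖∫ z, f z * w z‖ ≤ B * W * volume.real S := by
  rw [← setIntegral_eq_integral_of_forall_compl_eq_zero h0]
  refine norm_setIntegral_le_of_norm_le_const hSv (fun z hz => ?_)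
  rw [norm_mul]
  exact mul_le_mul (hB z hz) (hw z) (norm_nonneg _) hB0

private theorem pg_vol (a : ℂ) {r : ℝ} (hr : 0 ≤ r) : volume.real (closedBall a r) = Real.pi * r ^ 2 := by
  rw [Measure.real, Complex.volume_closedBall, ENNReal.toReal_mul, ENNReal.toReal_pow,
    ENNReal.toReal_ofReal hr]
  simp [NNReal.coe_real_pi, mul_comm]

private theorem pg_T {V U E : Set ℂ} {a : ℂ} {R N Q : ℝ} {h φ : ℂ → ℂ} (hV : IsOpen V)
    (hU : IsOpen U) (hR : 0 < R) (hN0 : 0 ≤ N) (hQ1 : 1 ≤ Q) (hh : DifferentiableOn ℂ h (V ∩ U))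
    (hN : ∀ z ∈ V ∩ U, ‖h z‖ ≤ N) (hφ : Test U φ) (hs : tsupport φ ⊆ closedBall a (12 * R))
    (hE : tsupport φ \ V ⊆ E) (hφ1 : ∀ z, ‖φ z‖ ≤ 1) (hQ : ∀ z, ‖dzb φ z‖ ≤ Q / R) :
    Measurable (TT V h φ) ∧ (∀ z, ‖TT V h φ z‖ ≤ 73 * N * Q) ∧
    DifferentiableOn ℂ (TT V h φ) Eᶜ ∧
    ∃ c, Tendsto (fun z => z * TT V h φ z) (cocompact ℂ) (𝓝 c) := by
  obtain ⟨b1, b2, b3⟩ := TT_bounds hV hU hR hN0 (by linarith) hh hN hφ hs
    (fun z => (hφ1 z).trans hQ1) hQ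
  refine ⟨b1, b2, ?_, _, b3⟩
  exact (TT_holo hV hU hh hN hφ).mono (compl_subset_compl.2 hE)

private theorem pg_far {V U E : Set ℂ} {a : ℂ} {R N Q : ℝ} {h φ : ℂ → ℂ} (hV : IsOpen V)
    (hU : IsOpen U) (hR : 0 < R) (hN0 : 0 < N) (hQ1 : 1 ≤ Q) (hh : DifferentiableOn ℂ h (V ∩ U))
    (hN : ∀ z ∈ V ∩ U, ‖h z‖ ≤ N) (hφ : Test U φ) (hs : tsupport φ ⊆ closedBall a (12 * R))
    (hE : tsupport φ \ V ⊆ E) (hφ1 : ∀ z, ‖φ z‖ ≤ 1) (hQ : ∀ z, ‖dzb φ z‖ ≤ Q / R)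
    (hEc : IsCompact E) (hE8 : E ⊆ closedBall a (8 * R)) {z : ℂ} (hz : 9 * R ≤ ‖z - a‖) :
    ‖TT V h φ z‖ ≤ 73 * N * Q * (2 / R * cap E) := by
  obtain ⟨b1, b2, b3, c, b4⟩ := pg_T hV hU hR hN0.le hQ1 hh hN hφ hs hE hφ1 hQ
  have hP : 0 < 73 * N * Q := by positivity
  have hA : Adm E (fun z => TT V h φ z / ((73 * N * Q : ℝ) : ℂ)) (c / ((73 * N * Q : ℝ) : ℂ)) := by
    refine ⟨b1.div_const _, fun z => ?_, b3.div_const _, ?_⟩
    · rw [norm_div, Complex.norm_real, Real.norm_of_nonneg hP.le, div_le_one hP]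
      exact b2 z
    · have := b4.div_const ((73 * N * Q : ℝ) : ℂ)
      refine this.congr fun z => ?_
      ring
  have h1 := far hEc hE8 hR hA (z₀ := z) (by linarith)
  rw [norm_div, Complex.norm_real, Real.norm_of_nonneg hP.le, div_le_iff₀ hP] at h1
  linarith

/-- the product of a function which is analytic on `O` and a test function with support in `O` -/
private theorem pg_test {O : Set ℂ} {a : ℂ} {R M W : ℝ} {α w : ℂ → ℂ} (hR : 0 < R) (hO : IsOpen O)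
    (hα : DifferentiableOn ℂ α O) (hM : ∀ z, ‖α z‖ ≤ M)
    (hw : Test univ w) (hsO : tsupport w ⊆ O) (hs : tsupport w ⊆ closedBall a (8 * R))
    (hW : ∀ z, ‖w z‖ ≤ W) (hM0 : 0 ≤ M) :
    Test univ (fun z => α z * w z) ∧ tsupport (fun z => α z * w z) ⊆ closedBall a (12 * R) ∧
    ∀ z, ‖α z * w z‖ ≤ M * W := by
  have hsub : tsupport (fun z => α z * w z) ⊆ tsupport w := tsupport_mul_subset_right
  refine ⟨⟨?_, ?_, subset_univ _⟩, hsub.trans (hs.trans (closedBall_subset_closedBall (by linarith))),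
    fun z => ?_⟩
  · rw [contDiff_iff_contDiffAt]
    intro z
    by_cases hz : z ∈ tsupport w
    · have h1 : ContDiffAt ℝ ∞ α z := by
        have h2 : AnalyticAt ℂ α z := hα.analyticAt (hO.mem_nhds (hsO hz))
        exact (h2.contDiffAt (n := ∞)).restrict_scalars ℝ
      exact h1.mul hw.smooth.contDiffAt
    · have h2 : (fun z => α z * w z) =ᶠ[𝓝 z] fun _ => 0 := by
        filter_upwards [(isClosed_tsupport w).isOpen_compl.mem_nhds hz] with y hy
        rw [image_eq_zero_of_notMem_tsupport hy, mul_zero]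
      exact contDiffAt_const.congr_of_eventuallyEq h2
  · exact hw.cpt.mul_left
  · rw [norm_mul]
    exact mul_le_mul (hM z) (hW z) (norm_nonneg _) hM0

private theorem pg_dzb {O : Set ℂ} {φ : ℂ → ℂ} (hO : IsOpen O) (h : ∀ z ∈ O, φ z = 1) :
    ∀ z ∈ O, dzb φ z = 0 := by
  intro z hz
  have h1 : φ =ᶠ[𝓝 z] fun _ => (1 : ℂ) := by
    filter_upwards [hO.mem_nhds hz] with y hy using h y hy
  unfold QC.dzb
  rw [h1.fderiv_eq]
  simp

private theorem pg_main : ∃ C : ℝ, 0 < C ∧ ∀ (V U O E : Set ℂ) (a : ℂ) (R N₁ N₂ Q W : ℝ)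
    (h₁ h₂ φ w : ℂ → ℂ),
    IsOpen V → IsOpen U → IsOpen O → IsCompact E → E ⊆ closedBall a (8 * R) → 0 < R → 0 < N₁ →
    0 < N₂ → 1 ≤ Q → 0 ≤ W → DifferentiableOn ℂ h₁ (V ∩ U) → DifferentiableOn ℂ h₂ (V ∩ U) →
    (∀ z ∈ V ∩ U, ‖h₁ z‖ ≤ N₁) → (∀ z ∈ V ∩ U, ‖h₂ z‖ ≤ N₂) → Test U φ →
    tsupport φ ⊆ closedBall a (8 * R) → tsupport φ \ V ⊆ E → (∀ z, ‖φ z‖ ≤ 1) →
    (∀ z, ‖dzb φ z‖ ≤ Q / R) → (∀ z ∈ O, φ z = 1) → Test univ w → tsupport w ⊆ O →
    tsupport w ⊆ closedBall a (8 * R) → (∀ z, ‖w z‖ ≤ W) →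
    ‖∫ z, (V.indicator (fun z => h₁ z * h₂ z) z - Cau (V.indicator fun u => h₁ u * dzb φ u) z *
        Cau (V.indicator fun u => h₂ u * dzb φ u) z) * w z‖ ≤
      C * Q ^ 4 * N₁ * N₂ * W * R * cap E := by
  obtain ⟨Cs, hCs, hsingle⟩ := single
  obtain ⟨Q', hQ1', hcut⟩ := cut_dzb
  obtain ⟨CA, hCA, harea⟩ := area_le
  obtain ⟨Cc, hCc, hcap⟩ := cap_le
  have hQ0' : 0 < Q' := by linarith
  refine ⟨72 * Cs + 72 * Cs + (Cs * 73 ^ 2 * Q' +
    72 * 4 * 73 ^ 2 * 64 * 8 * Real.pi * Cc * Q' + 73 ^ 2 * CA), by positivity, ?_⟩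
  intro V U O E a R N₁ N₂ Q W h₁ h₂ φ w hV hU hO hEc hE8 hR hN₁ hN₂ hQ1 hW hd₁ hd₂ hb₁ hb₂ hφ hφs
    hφE hφ1 hQa hφO hw hwO hws hwW
  have hQ0 : 0 < Q := by linarith
  have hQb : ∀ z, ‖dzb (cut a (9 * R) (12 * R)) z‖ ≤ Q' / R := by
    intro z
    refine (hcut a (9 * R) (12 * R) (by linarith) (by linarith) z).trans ?_
    rw [div_le_div_iff₀ (by nlinarith) hR]
    have : 0 ≤ Q' * R ^ 2 := by positivity
    nlinarith
  obtain ⟨r1, r2, r3, r4, r5, r6⟩ := cut_facts (a := a) (ρ₁ := 9 * R) (ρ₂ := 12 * R) (by linarith)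
    (by linarith)
  have hφs' : tsupport φ ⊆ closedBall a (12 * R) :=
    hφs.trans (closedBall_subset_closedBall (by linarith))
  have hE12 : E ⊆ closedBall a (12 * R) := hE8.trans (closedBall_subset_closedBall (by linarith))
  have hE0 : 0 ≤ cap E := cap_nonneg E
  have hE1 : cap E ≤ Cc * (8 * R) := hcap E a (8 * R) (by linarith) hE8
  have hφ0 := pg_dzb hO hφO
  set T₁ : ℂ → ℂ := TT V h₁ φ with hT₁
  set T₂ : ℂ → ℂ := TT V h₂ φ with hT₂
  obtain ⟨t1, t2, t3, -⟩ := pg_T hV hU hR hN₁.le hQ1 hd₁ hb₁ hφ hφs' hφE hφ1 hQa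
  obtain ⟨u1, u2, u3, -⟩ := pg_T hV hU hR hN₂.le hQ1 hd₂ hb₂ hφ hφs' hφE hφ1 hQa
  obtain ⟨a1, a2, a3⟩ := alG hV hU hO hR hN₁.le hQ0.le hd₁ hb₁ hφ hφs' hQa hφ0
  obtain ⟨b1, b2, b3⟩ := alG hV hU hO hR hN₂.le hQ0.le hd₂ hb₂ hφ hφs' hQa hφ0
  set α₁ : ℂ → ℂ := Cau (V.indicator fun u => h₁ u * dzb φ u) with hα₁
  set α₂ : ℂ → ℂ := Cau (V.indicator fun u => h₂ u * dzb φ u) with hα₂
  obtain ⟨w1, w2, w3⟩ := pg_test hR hO b1 b3 hw hwO hws hwW (by positivity)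
  obtain ⟨v1, v2, v3⟩ := pg_test hR hO a1 a3 hw hwO hws hwW (by positivity)
  -- the first two integrals
  have P1 : ‖∫ z, T₁ z * (α₂ z * w z)‖ ≤ Cs * N₁ * Q * (72 * N₂ * Q * W) * R * cap E :=
    hsingle V U E a R N₁ Q (72 * N₂ * Q * W) h₁ _ _ hV hU hR hN₁.le hQ1
      (by positivity) hd₁ hb₁ hφ hφs' hφE hE12 hφ1 hQa w1 w2 w3
  have P2 : ‖∫ z, T₂ z * (α₁ z * w z)‖ ≤ Cs * N₂ * Q * (72 * N₁ * Q * W) * R * cap E :=
    hsingle V U E a R N₂ Q (72 * N₁ * Q * W) h₂ _ _ hV hU hR hN₂.le hQ1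
      (by positivity) hd₂ hb₂ hφ hφs' hφE hE12 hφ1 hQa v1 v2 v3
  -- the third integral
  set b : ℂ → ℂ := fun z => T₁ z * T₂ z with hb
  have hbm : Measurable b := t1.mul u1
  set B : ℝ := 73 * N₁ * Q * (73 * N₂ * Q) with hB
  have hB0 : 0 ≤ B := by positivity
  have hbB : ∀ z, ‖b z‖ ≤ B := fun z => by
    rw [hb, norm_mul]
    exact mul_le_mul (t2 z) (u2 z) (norm_nonneg _) (by positivity)
  have hbd : DifferentiableOn ℂ b Eᶜ := t3.mul u3
  have hEo : IsOpen Eᶜ := hEc.isClosed.isOpen_compl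
  set T₃ : ℂ → ℂ := TT Eᶜ b (cut a (9 * R) (12 * R)) with hT₃
  have P3 : ‖∫ z, T₃ z * w z‖ ≤ Cs * B * Q' * W * R * cap E :=
    hsingle Eᶜ univ E a R B Q' W b _ _ hEo isOpen_univ hR hB0 hQ1' hW (by
      rw [inter_univ]; exact hbd) (fun z _ => hbB z) r1 r2 (fun z hz => by
        have := hz.2
        rwa [mem_compl_iff, not_not] at this) hE12 r3 hQb hw
      (hws.trans (closedBall_subset_closedBall (by linarith))) hwW
  obtain ⟨s1, s2, -⟩ := TT_bounds (V := Eᶜ) (U := univ) (h := b) (ψ := cut a (9 * R) (12 * R))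
    (a := a) (R := R) (N := B) (Q := Q') hEo isOpen_univ hR hB0 hQ0'.le (by
      rw [inter_univ]; exact hbd) (fun z _ => hbB z) r1 r2 (fun z => (r3 z).trans hQ1') hQb
  -- the Cauchy transform
  set g : ℂ → ℂ := Eᶜ.indicator fun w => b w * dzb (cut a (9 * R) (12 * R)) w with hg
  have hgm : Measurable g := by
    refine Measurable.indicator ?_ hEo.measurableSet
    exact hbm.mul (QC.contDiff_dz r1.smooth).2.continuous.measurable
  set G : ℝ := 73 * N₁ * Q * (2 / R * cap E) * (73 * N₂ * Q * (2 / R * cap E)) * (Q' / R) with hG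
  have hG0 : 0 ≤ G := by positivity
  have hgz : ∀ z, z ∉ closedBall a (12 * R) → g z = 0 := by
    intro z hz
    rw [hg]
    by_cases hzE : z ∈ Eᶜ
    · rw [indicator_of_mem hzE]
      simp only [r6 z hz, mul_zero]
    · rw [indicator_of_notMem hzE]
  have hgG : ∀ z, ‖g z‖ ≤ G := by
    intro z
    by_cases hz : z ∈ ball a (9 * R)
    · have : g z = 0 := by
        rw [hg]
        by_cases hzE : z ∈ Eᶜ
        · rw [indicator_of_mem hzE]
          simp only [r5 z hz, mul_zero]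
        · rw [indicator_of_notMem hzE]
      rw [this, norm_zero]
      exact hG0
    · have hz' : 9 * R ≤ ‖z - a‖ := by
        rw [mem_ball, dist_eq_norm, not_lt] at hz
        exact hz
      have k1 := pg_far hV hU hR hN₁ hQ1 hd₁ hb₁ hφ hφs' hφE hφ1 hQa hEc hE8 hz'
      have k2 := pg_far hV hU hR hN₂ hQ1 hd₂ hb₂ hφ hφs' hφE hφ1 hQa hEc hE8 hz'
      rw [hg]
      by_cases hzE : z ∈ Eᶜ
      · rw [indicator_of_mem hzE, norm_mul, hb, norm_mul]
        exact mul_le_mul (mul_le_mul k1 k2 (norm_nonneg _) (by positivity)) (hQb z)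
          (norm_nonneg _) (by positivity)
      · rw [indicator_of_notMem hzE, norm_zero]
        exact hG0
  have hcauc : Continuous (Cau g) := cauBdd_cont (by linarith) hgm hgG hgz
  have hcaub : ∀ z, ‖Cau g z‖ ≤ 6 * (12 * R) * G := cauBdd_le (by linarith) hgm hgG hgz
  have P4 : ‖∫ z, Cau g z * w z‖ ≤ 6 * (12 * R) * G * W * (Real.pi * (8 * R) ^ 2) := by
    rw [← pg_vol a (by linarith : (0 : ℝ) ≤ 8 * R)]
    refine pg_set (isCompact_closedBall a (8 * R)).measure_lt_top (by positivity)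
      (fun z _ => hcaub z) hwW (fun z hz => ?_)
    rw [image_eq_zero_of_notMem_tsupport (fun h => hz (hws h)), mul_zero]
  have P5 : ‖∫ z, E.indicator b z * w z‖ ≤ B * W * volume.real E := by
    refine pg_set hEc.measure_lt_top hB0 (fun z hz => ?_) hwW (fun z hz => ?_)
    · rw [indicator_of_mem hz]
      exact hbB z
    · rw [indicator_of_notMem hz, zero_mul]
  have P5' : volume.real E ≤ CA * R * cap E := harea E a R hR hEc hE12
  -- the decomposition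
  have D1 : ∫ z, b z * w z = (∫ z, T₃ z * w z) + (∫ z, Cau g z * w z) +
      ∫ z, E.indicator b z * w z := by
    have i1 : Integrable (fun z => T₃ z * w z) := pg_int s1 s2 hw
    have i2 : Integrable (fun z => Cau g z * w z) := pg_int hcauc.measurable hcaub hw
    have i3 : Integrable (fun z => E.indicator b z * w z) := by
      refine pg_int (B := B) (hbm.indicator hEc.isClosed.measurableSet) (fun z => ?_) hw
      exact (norm_indicator_le_norm_self _ _).trans (hbB z)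
    have i12 : Integrable (fun z => T₃ z * w z + Cau g z * w z) := i1.add i2
    rw [← integral_add i1 i2, ← integral_add i12 i3]
    refine integral_congr_ae (Filter.Eventually.of_forall fun z => ?_)
    show b z * w z = T₃ z * w z + Cau g z * w z + E.indicator b z * w z
    by_cases hz : z ∈ closedBall a (9 * R)
    · have e1 : T₃ z + Cau g z = Eᶜ.indicator b z := by
        rw [hT₃, hg]
        unfold TT
        rw [sub_add_cancel]
        by_cases hzE : z ∈ Eᶜ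
        · rw [indicator_of_mem hzE, indicator_of_mem hzE, r4 z hz, one_mul]
        · rw [indicator_of_notMem hzE, indicator_of_notMem hzE]
      have e2 : b z = Eᶜ.indicator b z + E.indicator b z := by
        by_cases hzE : z ∈ E
        · rw [indicator_of_mem hzE, indicator_of_notMem (by simpa using hzE), zero_add]
        · rw [indicator_of_notMem hzE, indicator_of_mem (show z ∈ Eᶜ from hzE), add_zero]
      rw [← add_mul, ← add_mul, e1, ← e2]
    · have : w z = 0 := image_eq_zero_of_notMem_tsupport fun h =>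
        hz (closedBall_subset_closedBall (by linarith) (hws h))
      rw [this]
      ring
  have D2 : ∫ z, (V.indicator (fun z => h₁ z * h₂ z) z - α₁ z * α₂ z) * w z =
      (∫ z, T₁ z * (α₂ z * w z)) + (∫ z, T₂ z * (α₁ z * w z)) + ∫ z, b z * w z := by
    have i1 : Integrable (fun z => T₁ z * (α₂ z * w z)) := pg_int t1 t2 w1
    have i2 : Integrable (fun z => T₂ z * (α₁ z * w z)) := pg_int u1 u2 v1
    have i3 : Integrable (fun z => b z * w z) := pg_int hbm hbB hw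
    have i12 : Integrable (fun z => T₁ z * (α₂ z * w z) + T₂ z * (α₁ z * w z)) := i1.add i2
    rw [← integral_add i1 i2, ← integral_add i12 i3]
    refine integral_congr_ae (Filter.Eventually.of_forall fun z => ?_)
    show (V.indicator (fun z => h₁ z * h₂ z) z - α₁ z * α₂ z) * w z =
      T₁ z * (α₂ z * w z) + T₂ z * (α₁ z * w z) + T₁ z * T₂ z * w z
    by_cases hz : z ∈ O
    · have ee : ∀ h : ℂ → ℂ, V.indicator (fun w => φ w * h w) z = V.indicator h z := by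
        intro h
        by_cases hzV : z ∈ V
        · rw [indicator_of_mem hzV, indicator_of_mem hzV, hφO z hz, one_mul]
        · rw [indicator_of_notMem hzV, indicator_of_notMem hzV]
      have e1 : T₁ z = V.indicator h₁ z - α₁ z := by
        rw [hT₁]
        unfold TT
        rw [ee]
      have e2 : T₂ z = V.indicator h₂ z - α₂ z := by
        rw [hT₂]
        unfold TT
        rw [ee]
      have e3 : V.indicator (fun z => h₁ z * h₂ z) z = V.indicator h₁ z * V.indicator h₂ z := by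
        by_cases hzV : z ∈ V
        · rw [indicator_of_mem hzV, indicator_of_mem hzV, indicator_of_mem hzV]
        · rw [indicator_of_notMem hzV, indicator_of_notMem hzV, zero_mul]
      rw [e1, e2, e3]
      ring
    · have : w z = 0 := image_eq_zero_of_notMem_tsupport fun h => hz (hwO h)
      rw [this]
      ring
  -- the estimate
  have k0 : 0 ≤ N₁ * N₂ * W := by positivity
  have n4 : 6 * (12 * R) * G * W * (Real.pi * (8 * R) ^ 2) ≤
      72 * 4 * 73 ^ 2 * 64 * 8 * Real.pi * Cc * Q' * Q ^ 2 * (N₁ * N₂ * W) * R * cap E := by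
    have e1 : 6 * (12 * R) * G * W * (Real.pi * (8 * R) ^ 2) =
        72 * 4 * 73 ^ 2 * 64 * Real.pi * Q' * Q ^ 2 * (N₁ * N₂ * W) * cap E * cap E := by
      rw [hG]
      field_simp
      ring
    rw [e1]
    have e2 : 72 * 4 * 73 ^ 2 * 64 * 8 * Real.pi * Cc * Q' * Q ^ 2 * (N₁ * N₂ * W) * R * cap E =
        72 * 4 * 73 ^ 2 * 64 * Real.pi * Q' * Q ^ 2 * (N₁ * N₂ * W) * cap E * (Cc * (8 * R)) := by
      ring
    rw [e2]
    exact mul_le_mul_of_nonneg_left hE1 (by positivity)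
  have n5 : B * W * volume.real E ≤ 73 ^ 2 * Q ^ 2 * CA * (N₁ * N₂ * W) * R * cap E := by
    have e1 : 73 ^ 2 * Q ^ 2 * CA * (N₁ * N₂ * W) * R * cap E = B * W * (CA * R * cap E) := by
      rw [hB]
      ring
    rw [e1]
    exact mul_le_mul_of_nonneg_left P5' (by positivity)
  rw [D2, D1]
  have q1 := norm_add_le ((∫ z, T₁ z * (α₂ z * w z)) + (∫ z, T₂ z * (α₁ z * w z)))
    ((∫ z, T₃ z * w z) + (∫ z, Cau g z * w z) + ∫ z, E.indicator b z * w z)
  have q2 := norm_add_le (∫ z, T₁ z * (α₂ z * w z)) (∫ z, T₂ z * (α₁ z * w z))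
  have q3 := norm_add_le ((∫ z, T₃ z * w z) + (∫ z, Cau g z * w z)) (∫ z, E.indicator b z * w z)
  have q4 := norm_add_le (∫ z, T₃ z * w z) (∫ z, Cau g z * w z)
  have e3 : (72 * Cs + 72 * Cs + (Cs * 73 ^ 2 * Q' +
      72 * 4 * 73 ^ 2 * 64 * 8 * Real.pi * Cc * Q' + 73 ^ 2 * CA)) * Q ^ 2 * (N₁ * N₂ * W * R *
      cap E) = Cs * N₁ * Q * (72 * N₂ * Q * W) * R * cap E + Cs * N₂ * Q * (72 * N₁ * Q * W) * R *
      cap E + (Cs * B * Q' * W * R * cap E +
      72 * 4 * 73 ^ 2 * 64 * 8 * Real.pi * Cc * Q' * Q ^ 2 * (N₁ * N₂ * W) * R * cap E +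
      73 ^ 2 * Q ^ 2 * CA * (N₁ * N₂ * W) * R * cap E) := by
    rw [hB]
    ring
  have e4 : (72 * Cs + 72 * Cs + (Cs * 73 ^ 2 * Q' +
      72 * 4 * 73 ^ 2 * 64 * 8 * Real.pi * Cc * Q' + 73 ^ 2 * CA)) * Q ^ 2 * (N₁ * N₂ * W * R *
      cap E) ≤ (72 * Cs + 72 * Cs + (Cs * 73 ^ 2 * Q' +
      72 * 4 * 73 ^ 2 * 64 * 8 * Real.pi * Cc * Q' + 73 ^ 2 * CA)) * Q ^ 4 * (N₁ * N₂ * W * R *
      cap E) := by
    refine mul_le_mul_of_nonneg_right (mul_le_mul_of_nonneg_left ?_ (by positivity))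
      (by positivity)
    exact pow_le_pow_right₀ hQ1 (by norm_num)
  have e5 : (72 * Cs + 72 * Cs + (Cs * 73 ^ 2 * Q' +
      72 * 4 * 73 ^ 2 * 64 * 8 * Real.pi * Cc * Q' + 73 ^ 2 * CA)) * Q ^ 4 * (N₁ * N₂ * W * R *
      cap E) = (72 * Cs + 72 * Cs + (Cs * 73 ^ 2 * Q' +
      72 * 4 * 73 ^ 2 * 64 * 8 * Real.pi * Cc * Q' + 73 ^ 2 * CA)) * Q ^ 4 * N₁ * N₂ * W * R *
      cap E := by
    ring
  rw [← e5]
  refine le_trans ?_ e4
  rw [e3]
  linarith

theorem prodG : ∃ C : ℝ, 0 < C ∧ ∀ (V U O E : Set ℂ) (a : ℂ) (R N₁ N₂ Q W : ℝ) (h₁ h₂ φ w : ℂ → ℂ),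
    IsOpen V → IsOpen U → IsOpen O → IsCompact E → E ⊆ closedBall a (8 * R) → 0 < R → 0 ≤ N₁ →
    0 ≤ N₂ → 1 ≤ Q → 0 ≤ W → DifferentiableOn ℂ h₁ (V ∩ U) → DifferentiableOn ℂ h₂ (V ∩ U) →
    (∀ z ∈ V ∩ U, ‖h₁ z‖ ≤ N₁) → (∀ z ∈ V ∩ U, ‖h₂ z‖ ≤ N₂) → Test U φ →
    tsupport φ ⊆ closedBall a (8 * R) → tsupport φ \ V ⊆ E → (∀ z, ‖φ z‖ ≤ 1) →
    (∀ z, ‖dzb φ z‖ ≤ Q / R) → (∀ z ∈ O, φ z = 1) → Test univ w → tsupport w ⊆ O →
    tsupport w ⊆ closedBall a (8 * R) → (∀ z, ‖w z‖ ≤ W) →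
    ‖∫ z, (V.indicator (fun z => h₁ z * h₂ z) z - Cau (V.indicator fun u => h₁ u * dzb φ u) z *
        Cau (V.indicator fun u => h₂ u * dzb φ u) z) * w z‖ ≤
      C * Q ^ 4 * N₁ * N₂ * W * R * cap E := by
  obtain ⟨C, hC, hmain⟩ := pg_main
  refine ⟨C, hC, ?_⟩
  intro V U O E a R N₁ N₂ Q W h₁ h₂ φ w hV hU hO hEc hE8 hR hN₁ hN₂ hQ1 hW hd₁ hd₂ hb₁ hb₂ hφ hφs
    hφE hφ1 hQa hφO hw hwO hws hwW
  have hlim : Tendsto (fun ε : ℝ => C * Q ^ 4 * (N₁ + ε) * (N₂ + ε) * W * R * cap E) (𝓝[>] 0)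
      (𝓝 (C * Q ^ 4 * (N₁ + 0) * (N₂ + 0) * W * R * cap E)) := by
    refine Tendsto.mono_left ?_ nhdsWithin_le_nhds
    exact (Continuous.tendsto (by fun_prop) 0)
  rw [add_zero, add_zero] at hlim
  refine ge_of_tendsto hlim ?_
  filter_upwards [self_mem_nhdsWithin] with ε hε
  have hε' : (0 : ℝ) < ε := hε
  exact hmain V U O E a R (N₁ + ε) (N₂ + ε) Q W h₁ h₂ φ w hV hU hO hEc hE8 hR (by linarith)
    (by linarith) hQ1 hW hd₁ hd₂
    (fun z hz => (hb₁ z hz).trans (by linarith)) (fun z hz => (hb₂ z hz).trans (by linarith))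
    hφ hφs hφE hφ1 hQa hφO hw hwO hws hwW

end Pool.Agent.Work.MP_2cf110_an.Hyp

end
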