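import Pool.Agent.Work.MP_2cf110_an.Hyp.GrB
import Pool.Agent.Work.MP_2cf110_an.Hyp.GrC

/-! # The partition of unity in classes

Classes: (i.1 mod 256, i.2 mod 256), L = 256², cent c = the centres of the class, X c z = the sum over the class (finsum; locally
finite by ctr_fin on small closed balls; at each point at most one term is nonzero since the balls of one class are disjoint,
ctr_sep).  ContDiffOn: near z the sum is a finite sum (or a single term) of chi. -/

open MeasureTheory Complex Set Metric Filter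
open scoped Topology ContDiff ComplexConjugate

noncomputable section

namespace Pool.Agent.Work.MP_2cf110_an.Hyp

open QC (dz dzb Test Cau)

/-- the class of an index -/
private def cls (i : ℤ × ℤ) : Fin (256 * 256) :=
  finProdFinEquiv (⟨(i.1 % 256).toNat, by omega⟩, ⟨(i.2 % 256).toNat, by omega⟩)

private theorem cls_eq {i i' : ℤ × ℤ} (h : cls i = cls i') :
    i.1 % 256 = i'.1 % 256 ∧ i.2 % 256 = i'.2 % 256 := by
  have h1 := finProdFinEquiv.injective h
  rw [Prod.mk.injEq, Fin.mk.injEq, Fin.mk.injEq] at h1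
  omega

/-- the sum over a class -/
private def XX (τ : ℝ) (c : Fin (256 * 256)) (z : ℂ) : ℂ :=
  ∑ᶠ i : ℤ × ℤ, if cls i = c then (chi τ i z : ℂ) else 0

theorem pu {s : ℝ} (hs : 0 < s) (hs1 : s ≤ 1 / 64) : ∃ (L : ℕ) (C : ℝ) (X : Fin L → ℂ → ℂ)
    (cent : Fin L → Set ℂ), 0 < C ∧ (∀ c, (cent c).Countable) ∧ (∀ c, cent c ⊆ Hp) ∧
    (∀ c, ∀ a ∈ cent c, ∀ b ∈ cent c, a ≠ b →
      Disjoint (ball a (16 * (s * a.im))) (ball b (16 * (s * b.im)))) ∧
    (∀ c, ∀ z ∈ Hp, X c z ≠ 0 → ∃ a ∈ cent c, z ∈ ball a (s * a.im)) ∧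
    (∀ c, ContDiffOn ℝ ∞ (X c) Hp) ∧ (∀ c, ∀ z ∈ Hp, ‖X c z‖ ≤ 1) ∧ (∀ z ∈ Hp, ∑ c, X c z = 1) ∧
    (∀ c, ∀ z ∈ Hp, ‖dzb (X c) z‖ ≤ C / z.im) := by
  have hτ : 0 < s / 4 := by positivity
  obtain ⟨C, hC, hchi⟩ := chi_dzb hτ (by linarith)
  have hsm := fun i => chi_smooth hτ i
  -- positivity of the radii
  have hY : ∀ i, 0 < (ctr (s / 4) i).im := fun i => ctr_Hp (s / 4) i
  have hrad : ∀ i, s * (ctr (s / 4) i).im < 16 * (s * (ctr (s / 4) i).im) := by
    intro i
    have : 0 < s * (ctr (s / 4) i).im := mul_pos hs (hY i)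
    linarith
  have hb16 : ∀ i, ∀ z ∈ Hp, chi (s / 4) i z ≠ 0 →
      z ∈ ball (ctr (s / 4) i) (16 * (s * (ctr (s / 4) i).im)) := by
    intro i z hz h
    exact ball_subset_ball (hrad i).le (chi_supp hs hs1 hz h)
  -- two indices of one class with meeting balls agree
  have huniq : ∀ i i', cls i = cls i' → ∀ z,
      z ∈ ball (ctr (s / 4) i) (16 * (s * (ctr (s / 4) i).im)) →
      z ∈ ball (ctr (s / 4) i') (16 * (s * (ctr (s / 4) i').im)) → i = i' := by
    intro i i' hc z hz hz'
    have hnd : ¬ Disjoint (ball (ctr (s / 4) i) (16 * (s * (ctr (s / 4) i).im)))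
        (ball (ctr (s / 4) i') (16 * (s * (ctr (s / 4) i').im))) := by
      intro hd
      exact (Set.disjoint_left.1 hd) hz hz'
    obtain ⟨h1, h2⟩ := ctr_sep hs hs1 hnd
    obtain ⟨h3, h4⟩ := cls_eq hc
    rw [abs_lt] at h1
    have h5 : i.1 = i'.1 := by omega
    have h6 := h2 h5
    rw [abs_lt] at h6
    have h7 : i.2 = i'.2 := by omega
    exact Prod.ext h5 h7
  -- local structure of the sums
  have hA : ∀ i, ∀ w ∈ Hp, w ∈ ball (ctr (s / 4) i) (16 * (s * (ctr (s / 4) i).im)) →
      XX (s / 4) (cls i) w = (chi (s / 4) i w : ℂ) := by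
    intro i w hw hwi
    have : XX (s / 4) (cls i) w = if cls i = cls i then (chi (s / 4) i w : ℂ) else 0 := by
      refine finsum_eq_single _ i ?_
      intro j hj
      by_cases hcj : cls j = cls i
      · rw [if_pos hcj]
        by_contra hne
        have hne' : chi (s / 4) j w ≠ 0 := by
          intro h0
          exact hne (by rw [h0]; simp)
        exact hj (huniq j i hcj w (hb16 j w hw hne') hwi)
      · rw [if_neg hcj]
    rw [this, if_pos rfl]
  have hB : ∀ c, ∀ w ∈ Hp, (∀ i, cls i = c → chi (s / 4) i w = 0) → XX (s / 4) c w = 0 := by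
    intro c w hw h
    rw [XX]
    refine finsum_eq_zero_of_forall_eq_zero fun i => ?_
    split_ifs with hi
    · rw [h i hi]; simp
    · rfl
  -- case distinction
  have hcase : ∀ c, ∀ z ∈ Hp, (∃ i, cls i = c ∧ XX (s / 4) c =ᶠ[𝓝 z] fun w => (chi (s / 4) i w : ℂ)) ∨
      XX (s / 4) c =ᶠ[𝓝 z] fun _ => 0 := by
    intro c z hz
    by_cases hex : ∃ i, cls i = c ∧ z ∈ ball (ctr (s / 4) i) (16 * (s * (ctr (s / 4) i).im))
    · obtain ⟨i, hi, hzi⟩ := hex
      left
      refine ⟨i, hi, ?_⟩
      filter_upwards [isOpen_Hp.mem_nhds hz, isOpen_ball.mem_nhds hzi] with w hw hwi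
      rw [← hi]
      exact hA i w hw hwi
    · right
      push Not at hex
      have hz' : 0 < z.im := hz
      have hKc : IsCompact (closedBall z (z.im / 2)) := isCompact_closedBall z _
      have hKH : closedBall z (z.im / 2) ⊆ Hp := by
        intro w hw
        have h1 : ‖w - z‖ ≤ z.im / 2 := by simpa [dist_eq_norm] using hw
        have h2 : |(w - z).im| ≤ ‖w - z‖ := abs_im_le_norm _
        have h3 : (w - z).im = w.im - z.im := by simp
        rw [h3] at h2
        have h4 := (abs_le.1 (h2.trans h1)).1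
        change 0 < w.im
        linarith
      have hfin := ctr_fin hs hs1 hKc hKH
      have hev : ∀ᶠ w in 𝓝 z, ∀ i ∈ {i : ℤ × ℤ | (closedBall z (z.im / 2) ∩
          ball (ctr (s / 4) i) (16 * (s * (ctr (s / 4) i).im))).Nonempty}, cls i = c →
          w ∉ closedBall (ctr (s / 4) i) (s * (ctr (s / 4) i).im) := by
        rw [eventually_all_finite hfin]
        intro i _
        by_cases hc : cls i = c
        · have hzn : z ∉ closedBall (ctr (s / 4) i) (s * (ctr (s / 4) i).im) := by
            intro hmem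
            exact hex i hc (closedBall_subset_ball (hrad i) hmem)
          filter_upwards [isClosed_closedBall.isOpen_compl.mem_nhds hzn] with w hw _
          exact hw
        · exact Eventually.of_forall fun w h => absurd h hc
      filter_upwards [hev, isOpen_Hp.mem_nhds hz, closedBall_mem_nhds z (by linarith : 0 < z.im / 2)]
        with w hw hwH hwK
      refine hB c w hwH fun i hi => ?_
      by_contra hne
      have h1 := hb16 i w hwH hne
      have h2 : i ∈ {i : ℤ × ℤ | (closedBall z (z.im / 2) ∩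
          ball (ctr (s / 4) i) (16 * (s * (ctr (s / 4) i).im))).Nonempty} := ⟨w, hwK, h1⟩
      exact hw i h2 hi (ball_subset_closedBall (chi_supp hs hs1 hwH hne))
  -- smoothness of the complex valued chi
  have hsmc : ∀ i, ∀ z ∈ Hp, ContDiffAt ℝ ∞ (fun w => (chi (s / 4) i w : ℂ)) z := by
    intro i z hz
    have h1 : ContDiffAt ℝ ∞ (chi (s / 4) i) z := (hsm i).contDiffAt (isOpen_Hp.mem_nhds hz)
    exact (ofRealCLM.contDiff.contDiffAt).comp z h1
  refine ⟨256 * 256, C, XX (s / 4), fun c => ctr (s / 4) '' {i | cls i = c}, hC, ?_, ?_, ?_, ?_, ?_,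
    ?_, ?_, ?_⟩
  · intro c
    exact (to_countable _).image _
  · rintro c _ ⟨i, -, rfl⟩
    exact ctr_Hp _ i
  · rintro c _ ⟨i, hi, rfl⟩ _ ⟨i', hi', rfl⟩ hne
    rw [Set.disjoint_left]
    intro z hz hz'
    exact hne (by rw [huniq i i' (hi.trans hi'.symm) z hz hz'])
  · intro c z hz hne
    by_contra hcon
    push Not at hcon
    refine hne (hB c z hz fun i hi => ?_)
    by_contra h0
    exact hcon _ ⟨i, hi, rfl⟩ (chi_supp hs hs1 hz h0)
  · intro c z hz
    refine ContDiffAt.contDiffWithinAt ?_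
    rcases hcase c z hz with ⟨i, -, hi⟩ | h0
    · exact (hsmc i z hz).congr_of_eventuallyEq hi
    · exact contDiffAt_const.congr_of_eventuallyEq h0
  · intro c z hz
    rcases hcase c z hz with ⟨i, -, hi⟩ | h0
    · rw [hi.eq_of_nhds]
      obtain ⟨h1, h2, -⟩ := hchi i z hz
      rw [norm_real, Real.norm_of_nonneg h1]
      exact h2
    · rw [h0.eq_of_nhds]
      simp
  · intro z hz
    have hfin : {i : ℤ × ℤ | chi (s / 4) i z ≠ 0}.Finite := by
      refine (ctr_fin hs hs1 (isCompact_singleton (x := z)) (by simpa using hz)).subset ?_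
      intro i hi
      exact ⟨z, rfl, hb16 i z hz hi⟩
    have hX : ∀ c, XX (s / 4) c z = ∑ i ∈ hfin.toFinset with cls i = c, (chi (s / 4) i z : ℂ) := by
      intro c
      rw [XX, Finset.sum_filter]
      refine finsum_eq_sum_of_support_subset _ ?_
      intro i hi
      simp only [Set.Finite.coe_toFinset, mem_setOf_eq]
      intro h0
      apply hi
      simp [h0]
    simp_rw [hX]
    rw [Finset.sum_fiberwise]
    have := chi_sum hτ hz hfin.toFinset (fun i hi => by simpa using hi)
    rw [← ofReal_sum, this]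
    simp
  · intro c z hz
    have hz' : 0 < z.im := hz
    rcases hcase c z hz with ⟨i, -, hi⟩ | h0
    · have : dzb (XX (s / 4) c) z = dzb (fun w => (chi (s / 4) i w : ℂ)) z := by
        rw [dzb, dzb, hi.fderiv_eq]
      rw [this]
      exact (hchi i z hz).2.2
    · have : dzb (XX (s / 4) c) z = 0 := by
        rw [dzb, h0.fderiv_eq]
        simp
      rw [this, norm_zero]
      positivity

end Pool.Agent.Work.MP_2cf110_an.Hyp

end
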