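import Pool.Agent.Work.MP_2cf110_an.Hyp.Defs
import Pool.Agent.Work.MP_217185_an.CauC1
import Pool.Agent.Work.MP_217185_an.CauB

/-! # Representation by the Cauchy transform

u - Cau (dzb u) is entire (QC.cau_contDiff, QC.dz_cau, QC.cau_dzb, QC.holo_of_dzb) and tends to 0 at infinity (QC.cau_bound), hence is 0 (Liouville). -/

open MeasureTheory Complex Set Metric Filter
open scoped Topology ContDiff ComplexConjugate

noncomputable section

namespace Pool.Agent.Work.MP_2cf110_an.Hyp

open QC (dz dzb Test Cau)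

theorem repU {u : ℂ → ℂ} (hu : ContDiff ℝ ∞ u) (hc : HasCompactSupport (dzb u))
    (h0 : Tendsto u (cocompact ℂ) (𝓝 0)) (z : ℂ) : u z = Cau (dzb u) z := by
  have hT : Test univ (dzb u) := ⟨(QC.contDiff_dz hu).2, hc, subset_univ _⟩
  have hC : ContDiff ℝ ∞ (Cau (dzb u)) := QC.cau_contDiff hT
  have hd : Differentiable ℂ fun z => u z - Cau (dzb u) z := by
    intro z
    have h1 : DifferentiableAt ℝ u z := (hu.differentiable (by simp)) z
    have h2 : DifferentiableAt ℝ (Cau (dzb u)) z := (hC.differentiable (by simp)) z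
    refine QC.holo_of_dzb (h1.sub h2) ?_
    rw [(QC.dz_sub h1 h2).2, (QC.dz_cau hT z).2, QC.cau_dzb hT z, sub_self]
  obtain ⟨C, hC1⟩ := QC.cau_bound hT
  have hC2 : Tendsto (Cau (dzb u)) (cocompact ℂ) (𝓝 0) := by
    have h1 : Tendsto (fun z : ℂ => C / (1 + ‖z‖)) (cocompact ℂ) (𝓝 0) :=
      (tendsto_atTop_add_const_left _ 1 (tendsto_norm_cocompact_atTop (E := ℂ))).const_div_atTop C
    refine squeeze_zero_norm (fun z => ?_) h1
    rw [le_div_iff₀ (by positivity)]
    exact hC1 z
  have h3 : Tendsto (fun z => u z - Cau (dzb u) z) (cocompact ℂ) (𝓝 0) := by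
    have := h0.sub hC2
    rwa [sub_zero] at this
  have h4 := hd.eq_const_of_tendsto_cocompact h3
  have h5 := congrFun h4 z
  exact sub_eq_zero.1 h5

end Pool.Agent.Work.MP_2cf110_an.Hyp

end
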