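import Pool.Agent.Work.MP_2cf110_an.Hyp.VitB
import Pool.Agent.Work.MP_2cf110_an.Hyp.CauBdd
import Pool.Agent.Work.MP_2cf110_an.Hyp.CauBdd2
import Pool.Agent.Work.MP_217185_an.CauC1

/-! # Testing the localized function

∫ TT V h φ w = ∫_V φ h w - ∫ Cau(1_V h dzb φ) w = ∫_V φ h w + ∫_V h dzb φ Cau w (cauBdd_fubini) = ∫_V h dzb(φ Cau w)
(dzb (Cau w) = w: QC.dz_cau, QC.cau_dzb).  Apply vit to ψ = φ Cau w: |ψ| ≤ 72 R W, |dzb ψ| ≤ (Q/R) 72 R W + W ≤ 73 Q W. -/

open MeasureTheory Complex Set Metric Filter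
open scoped Topology ContDiff ComplexConjugate

noncomputable section

namespace Pool.Agent.Work.MP_2cf110_an.Hyp

open QC (dz dzb Test Cau)

theorem single : ∃ C : ℝ, 0 < C ∧ ∀ (V U E : Set ℂ) (a : ℂ) (R N Q W : ℝ) (h φ w : ℂ → ℂ),
    IsOpen V → IsOpen U → 0 < R → 0 ≤ N → 1 ≤ Q → 0 ≤ W →
    DifferentiableOn ℂ h (V ∩ U) → (∀ z ∈ V ∩ U, ‖h z‖ ≤ N) → Test U φ →
    tsupport φ ⊆ closedBall a (12 * R) → tsupport φ \ V ⊆ E → E ⊆ closedBall a (12 * R) →
    (∀ z, ‖φ z‖ ≤ 1) → (∀ z, ‖dzb φ z‖ ≤ Q / R) →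
    Test univ w → tsupport w ⊆ closedBall a (12 * R) → (∀ z, ‖w z‖ ≤ W) →
    ‖∫ z, TT V h φ z * w z‖ ≤ C * N * Q * W * R * cap E := by
  obtain ⟨C, hC, hv⟩ := vit
  refine ⟨73 * C, by positivity, ?_⟩
  intro V U E a R N Q W h φ w hV hU hR hN0 hQ1 hW0 hh hN hφ hs hE hE' hφ1 hφ2 hw hws hwW
  have hQ0 : 0 ≤ Q := le_trans zero_le_one hQ1
  have hR12 : 0 < 12 * R := by positivity
  obtain ⟨hm1, hm2⟩ := TT_meas hV hU hh hφ
  -- the Cauchy transform of w
  have hwc : Continuous w := hw.smooth.continuous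
  have hw0 : ∀ z, z ∉ closedBall a (12 * R) → w z = 0 := fun z hz =>
    image_eq_zero_of_notMem_tsupport fun h1 => hz (hws h1)
  have hCw : ContDiff ℝ ∞ (Cau w) := QC.cau_contDiff hw
  have hCwle : ∀ z, ‖Cau w z‖ ≤ 72 * R * W := by
    intro z
    have := cauBdd_le hR12 hwc.measurable hwW hw0 z
    linarith
  have hdCw : ∀ z, dzb (Cau w) z = w z := fun z => by
    rw [(QC.dz_cau hw z).2, QC.cau_dzb hw z]
  -- the function g
  set g : ℂ → ℂ := V.indicator fun z => h z * dzb φ z with hg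
  have hdφ0 : ∀ z, z ∉ tsupport φ → dzb φ z = 0 := by
    intro z hz
    have h1 : tsupport (dzb φ) ⊆ tsupport φ :=
      (QC.Test.dz (U := tsupport φ) ⟨hφ.smooth, hφ.cpt, le_rfl⟩).2.sub
    exact image_eq_zero_of_notMem_tsupport fun h2 => hz (h1 h2)
  have hφ0 : ∀ z, z ∉ tsupport φ → φ z = 0 := fun z hz => image_eq_zero_of_notMem_tsupport hz
  have hgle : ∀ z, ‖g z‖ ≤ N * (Q / R) := by
    intro z
    have h0 : 0 ≤ N * (Q / R) := by positivity
    by_cases hz : z ∈ V
    · rw [hg, indicator_of_mem hz]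
      by_cases hz' : z ∈ tsupport φ
      · rw [norm_mul]
        exact mul_le_mul (hN z ⟨hz, hφ.sub hz'⟩) (hφ2 z) (norm_nonneg _) hN0
      · rw [hdφ0 z hz', mul_zero, norm_zero]
        exact h0
    · rw [hg, indicator_of_notMem hz, norm_zero]
      exact h0
  have hg0 : ∀ z, z ∉ closedBall a (12 * R) → g z = 0 := by
    intro z hz
    by_cases hz' : z ∈ V
    · rw [hg, indicator_of_mem hz', hdφ0 z (fun h1 => hz (hs h1)), mul_zero]
    · rw [hg, indicator_of_notMem hz']
  have hgm : Measurable g := hm2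
  have hgi : Integrable g := by
    have h1 : IntegrableOn g (closedBall a (12 * R)) := by
      refine Measure.integrableOn_of_bounded (M := N * (Q / R)) ?_ hgm.aestronglyMeasurable
        (Eventually.of_forall hgle)
      exact (isCompact_closedBall a (12 * R)).measure_lt_top.ne
    rwa [integrableOn_iff_integrable_of_support_subset] at h1
    intro z hz
    by_contra hz'
    exact hz (hg0 z hz')
  -- the function A
  set A : ℂ → ℂ := V.indicator fun z => φ z * h z with hA
  have hAle : ∀ z, ‖A z‖ ≤ N := by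
    intro z
    by_cases hz : z ∈ V
    · rw [hA, indicator_of_mem hz]
      by_cases hz' : z ∈ tsupport φ
      · rw [norm_mul]
        calc ‖φ z‖ * ‖h z‖ ≤ 1 * N :=
              mul_le_mul (hφ1 z) (hN z ⟨hz, hφ.sub hz'⟩) (norm_nonneg _) zero_le_one
          _ = N := one_mul N
      · rw [hφ0 z hz', zero_mul, norm_zero]
        exact hN0
    · rw [hA, indicator_of_notMem hz, norm_zero]
      exact hN0
  have hwi : Integrable w := hwc.integrable_of_hasCompactSupport hw.cpt
  have hAw : Integrable fun z => A z * w z := by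
    refine Integrable.bdd_mul (c := N) hwi hm1.aestronglyMeasurable (Eventually.of_forall hAle)
  have hCg : Continuous (Cau g) := cauBdd_cont hR12 hgm hgle hg0
  have hBw : Integrable fun z => Cau g z * w z :=
    (hCg.mul hwc).integrable_of_hasCompactSupport hw.cpt.mul_left
  have hgw : Integrable fun z => g z * Cau w z := by
    refine Integrable.mul_bdd (c := 72 * R * W) hgi hCw.continuous.aestronglyMeasurable
      (Eventually.of_forall hCwle)
  -- the main identity
  have hmain : ∫ z, TT V h φ z * w z = ∫ z in V, h z * dzb (fun z => φ z * Cau w z) z := by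
    have h1 : ∫ z, TT V h φ z * w z = (∫ z, A z * w z) - ∫ z, Cau g z * w z := by
      rw [← integral_sub hAw hBw]
      refine integral_congr_ae (Eventually.of_forall fun z => ?_)
      simp only [TT]
      ring
    rw [h1, cauBdd_fubini hgm hgle hg0 hw, sub_neg_eq_add, ← integral_add hAw hgw,
      ← integral_indicator hV.measurableSet]
    refine integral_congr_ae (Eventually.of_forall fun z => ?_)
    by_cases hz : z ∈ V
    · simp only [hA, hg, indicator_of_mem hz]
      rw [(QC.dz_mul (f := φ) (g := Cau w) (z := z)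
        ((hφ.smooth.differentiable (by simp)) z) ((hCw.differentiable (by simp)) z)).2, hdCw z]
      ring
    · simp only [hA, hg, indicator_of_notMem hz]
      ring
  rw [hmain]
  -- the test function ψ
  have hψ : Test U fun z => φ z * Cau w z := by
    refine ⟨hφ.smooth.mul hCw, hφ.cpt.mul_right, ?_⟩
    exact (tsupport_mul_subset_left (f := φ) (g := Cau w)).trans hφ.sub
  have hψs : tsupport (fun z => φ z * Cau w z) ⊆ tsupport φ :=
    tsupport_mul_subset_left (f := φ) (g := Cau w)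
  have hb := hv V U E a R N (73 * Q * W * R) h (fun z => φ z * Cau w z) hV hU hR hN0
    (by positivity) hh hN hψ (hψs.trans hs)
    (fun z hz => hE ⟨hψs hz.1, hz.2⟩) hE' ?_ ?_
  · calc _ ≤ C * N * (73 * Q * W * R) * cap E := hb
      _ = 73 * C * N * Q * W * R * cap E := by ring
  · intro z
    rw [norm_mul]
    calc ‖φ z‖ * ‖Cau w z‖ ≤ 1 * (72 * R * W) :=
          mul_le_mul (hφ1 z) (hCwle z) (norm_nonneg _) zero_le_one
      _ ≤ 73 * Q * W * R := by nlinarith [mul_nonneg hW0 hR.le, mul_nonneg (sub_nonneg.2 hQ1) (mul_nonneg hW0 hR.le)]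
  · intro z
    rw [(QC.dz_mul (f := φ) (g := Cau w) (z := z)
        ((hφ.smooth.differentiable (by simp)) z) ((hCw.differentiable (by simp)) z)).2, hdCw z]
    have h1 : ‖dzb φ z * Cau w z‖ ≤ (Q / R) * (72 * R * W) := by
      rw [norm_mul]
      exact mul_le_mul (hφ2 z) (hCwle z) (norm_nonneg _) (by positivity)
    have h2 : ‖φ z * w z‖ ≤ 1 * W := by
      rw [norm_mul]
      exact mul_le_mul (hφ1 z) (hwW z) (norm_nonneg _) zero_le_one
    have h3 : (Q / R) * (72 * R * W) = 72 * Q * W := by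
      field_simp
    have h4 : 73 * Q * W * R / R = 73 * Q * W := by
      field_simp
    rw [h4]
    have h5 := norm_add_le (dzb φ z * Cau w z) (φ z * w z)
    nlinarith [mul_nonneg (sub_nonneg.2 hQ1) hW0]

end Pool.Agent.Work.MP_2cf110_an.Hyp

end
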