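import Pool.Agent.Work.MP_2cf110_an.Hyp.KapC
import Pool.Agent.Work.MP_217185_an.CauB
import Pool.Agent.Work.MP_217185_an.CauA

/-! # The smoothing of a test function

k z = Cau (dzb k) z (QC.cau_dzb) and Sm s k z = (1/π) ∫ k ∂̄_ζ Mk = -(1/π) ∫ (dzb k) Mk (QC.integral_mul_dz with U = univ). -/

open MeasureTheory Complex Set Metric Filter
open scoped Topology ContDiff ComplexConjugate

noncomputable section

namespace Pool.Agent.Work.MP_2cf110_an.Hyp

open QC (dz dzb Test Cau)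

theorem sm_formula {s : ℝ} (hs : 0 < s) {k : ℂ → ℂ} (hk : Test univ k) {z : ℂ} (hz : z ∈ Hp) :
    k z - Sm s k z =
      (1 / (Real.pi : ℂ)) * ∫ ζ, dzb k ζ * (((1 - mm (qq s z ζ) : ℝ) : ℂ) / (z - ζ)) := by
  obtain ⟨hM, hdM⟩ := Mk_facts hs hz
  have hT : Test univ (dzb k) := hk.dz.2
  have h1 := (QC.integral_mul_dz isOpen_univ (hM.of_le (by simp)).contDiffOn
    (hk.smooth.of_le (by simp)) hk.cpt (subset_univ _)).2
  have h2 : ∫ ζ, k ζ * kap s z ζ = - ∫ ζ, Mk s z ζ * dzb k ζ := by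
    rw [h1, neg_neg]
    refine integral_congr_ae (Eventually.of_forall fun ζ => ?_)
    simp only
    rw [hdM ζ]
    ring
  have hA : Integrable (fun ζ => dzb k ζ / (z - ζ)) := by
    have h3 := ((QC.cau_integrable hT.smooth.continuous hT.cpt z).comp_sub_left z).const_mul
      (2 * (Real.pi : ℂ))
    refine h3.congr (Eventually.of_forall fun ζ => ?_)
    have hpi : (Real.pi : ℂ) ≠ 0 := by exact_mod_cast Real.pi_ne_zero
    simp only [sub_sub_cancel]
    unfold QC.cker Pool.Agent.Work.MP_089002_mp.ker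
    rw [div_eq_mul_inv]
    field_simp
  have hB : Integrable (fun ζ => Mk s z ζ * dzb k ζ) :=
    (hM.continuous.mul hT.smooth.continuous).integrable_of_hasCompactSupport hT.cpt.mul_left
  have h4 : k z = (1 / (Real.pi : ℂ)) * ∫ ζ, dzb k ζ / (z - ζ) := (QC.cau_dzb hk z).symm
  have h5 : Sm s k z = (1 / (Real.pi : ℂ)) * ∫ ζ, k ζ * kap s z ζ := rfl
  rw [h4, h5, h2, ← mul_sub, sub_neg_eq_add, ← integral_add hA hB]
  congr 1
  refine integral_congr_ae (Eventually.of_forall fun ζ => ?_)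
  simp only
  unfold Mk
  rcases eq_or_ne (z - ζ) 0 with h0 | h0
  · have h6 : ζ - z = 0 := by rw [← neg_sub, h0, neg_zero]
    rw [h0, h6]
    simp
  · have h6 : ζ - z = -(z - ζ) := by ring
    rw [h6, div_neg]
    push_cast
    field_simp
    ring

end Pool.Agent.Work.MP_2cf110_an.Hyp

end
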