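import Pool.Agent.Work.MP_2cf110_an.Hyp.Defs

/-! # Definitions: bounded solutions of the Bezout equation -/

open MeasureTheory Complex Set Metric Filter
open scoped Topology ContDiff ComplexConjugate

noncomputable section

namespace Pool.Agent.Work.MP_2cf110_an.Hyp

open QC (dz dzb Test Cau)

variable {n : ℕ}

/-- all `f j` are analytic on `W` and bounded by `K` -/
def BA (K : ℝ) (W : Set ℂ) (f : Fin n → ℂ → ℂ) : Prop :=
  ∀ j, DifferentiableOn ℂ (f j) W ∧ ∀ z ∈ W, ‖f j z‖ ≤ K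

/-- the Bezout equation for `f` has an analytic solution on `W`, bounded by `C` -/
def Sol (C : ℝ) (W : Set ℂ) (f : Fin n → ℂ → ℂ) : Prop :=
  ∃ g : Fin n → ℂ → ℂ, BA C W g ∧ ∀ z ∈ W, ∑ j, f j z * g j z = 1

/-- the corona condition -/
def Cor (δ : ℝ) (W : Set ℂ) (f : Fin n → ℂ → ℂ) : Prop := ∀ z ∈ W, ∃ j, δ ≤ ‖f j z‖

theorem BA.mono {K : ℝ} {W W' : Set ℂ} {f : Fin n → ℂ → ℂ} (h : BA K W f) (hs : W' ⊆ W) :
    BA K W' f := fun j => ⟨(h j).1.mono hs, fun z hz => (h j).2 z (hs hz)⟩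

theorem BA.le {K K' : ℝ} {W : Set ℂ} {f : Fin n → ℂ → ℂ} (h : BA K W f) (hs : K ≤ K') :
    BA K' W f := fun j => ⟨(h j).1, fun z hz => ((h j).2 z hz).trans hs⟩

theorem Sol.mono {C : ℝ} {W W' : Set ℂ} {f : Fin n → ℂ → ℂ} (h : Sol C W f) (hs : W' ⊆ W) :
    Sol C W' f := by
  obtain ⟨g, hg, h1⟩ := h
  exact ⟨g, hg.mono hs, fun z hz => h1 z (hs hz)⟩

theorem Sol.le {C C' : ℝ} {W : Set ℂ} {f : Fin n → ℂ → ℂ} (h : Sol C W f) (hs : C ≤ C') :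
    Sol C' W f := by
  obtain ⟨g, hg, h1⟩ := h
  exact ⟨g, hg.le hs, h1⟩

theorem Sol.empty {C : ℝ} {f : Fin n → ℂ → ℂ} : Sol C ∅ f :=
  ⟨fun _ _ => 0, fun _ => ⟨fun z hz => absurd hz (by simp), fun z hz => absurd hz (by simp)⟩,
    fun z hz => absurd hz (by simp)⟩

theorem Cor.mono {δ : ℝ} {W W' : Set ℂ} {f : Fin n → ℂ → ℂ} (h : Cor δ W f) (hs : W' ⊆ W) :
    Cor δ W' f := fun z hz => h z (hs hz)

end Pool.Agent.Work.MP_2cf110_an.Hyp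

end
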