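import Pool.Agent.Work.MP_2cf110_an.Hyp.LMain
import Pool.Agent.Work.MP_2cf110_an.Hyp.Cover
import Pool.Agent.Work.MP_2cf110_an.Hyp.W0

/-! # The sum over a cover

Cover of the compact set tsupport (Sm s k) (cover).  S i = max of ‖Sm s k‖ + ε on closedBall (a i) (s Im a_i) (attained: compact, continuous).
lmain for each i; Σ_i ∫_{ball(a i, 16 R_i)} u ≤ N ∫ u (bounded overlap), R_i ≤ C Im z on ball (a i) (16 R_i), w0, and
R_i ε(a_i) ≤ C ∫_{ball (a i) (16R_i)} ε/y (Harnack). -/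

open MeasureTheory Complex Set Metric Filter
open scoped Topology ContDiff ComplexConjugate

noncomputable section

namespace Pool.Agent.Work.MP_2cf110_an.Hyp

open QC (dz dzb Test Cau)

private theorem sl_overlap {m N : ℕ} {a : Fin m → ℂ} {r : Fin m → ℝ}
    (hsub : ∀ i, ball (a i) (r i) ⊆ Hp)
    (hcount : ∀ z, (Finset.univ.filter fun i => ‖z - a i‖ < r i).card ≤ N) {f : ℂ → ℝ}
    (hf0 : ∀ z ∈ Hp, 0 ≤ f z) (hf : IntegrableOn f Hp) :
    ∑ i, ∫ z in ball (a i) (r i), f z ≤ N * ∫ z in Hp, f z := by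
  classical
  have h1 : ∀ i, ∫ z in ball (a i) (r i), f z = ∫ z in Hp, (ball (a i) (r i)).indicator f z := by
    intro i
    rw [setIntegral_indicator measurableSet_ball, Set.inter_eq_self_of_subset_right (hsub i)]
  rw [Finset.sum_congr rfl (fun i _ => h1 i), ← integral_finset_sum, ← integral_const_mul]
  · apply setIntegral_mono_on
    · exact integrable_finset_sum _ (fun i _ => hf.indicator measurableSet_ball)
    · exact hf.const_mul _
    · exact isOpen_Hp.measurableSet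
    · intro z hz
      have h2 : ∑ i, (ball (a i) (r i)).indicator f z =
          ((Finset.univ.filter fun i => ‖z - a i‖ < r i).card : ℝ) * f z := by
        rw [← nsmul_eq_mul, ← Finset.sum_const, Finset.sum_filter]
        refine Finset.sum_congr rfl (fun i _ => ?_)
        by_cases h : ‖z - a i‖ < r i
        · rw [if_pos h, Set.indicator_of_mem (by rw [mem_ball, dist_eq_norm]; exact h)]
        · rw [if_neg h, Set.indicator_of_notMem (by rw [mem_ball, dist_eq_norm]; exact h)]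
      rw [h2]
      apply mul_le_mul_of_nonneg_right _ (hf0 z hz)
      exact_mod_cast hcount z
  · exact fun i _ => hf.indicator measurableSet_ball

private theorem sl_im {s : ℝ} (hs : 0 < s) (hs1 : s ≤ 1 / 64) {a : ℂ} (ha : a ∈ Hp) {z : ℂ}
    (hz : z ∈ ball a (16 * (s * a.im))) : 3 / 4 * a.im ≤ z.im ∧ z.im ≤ 5 / 4 * a.im := by
  have ha' : 0 < a.im := ha
  rw [mem_ball, dist_eq_norm] at hz
  have h1 := (Complex.abs_im_le_norm (z - a)).trans hz.le
  rw [Complex.sub_im, abs_le] at h1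
  have h2 : 16 * (s * a.im) ≤ 1 / 4 * a.im := by nlinarith
  constructor
  · linarith [h1.1]
  · linarith [h1.2]

private theorem sl_eps {s C₁ : ℝ} (hs : 0 < s) (hs1 : s ≤ 1 / 64) (hC₁ : 0 < C₁) {ε : ℂ → ℝ}
    (hε0 : ∀ z, 0 ≤ ε z) (hint : IntegrableOn (fun z => ε z / z.im) Hp) {a : ℂ} (ha : a ∈ Hp)
    (hεa : ∀ z ∈ ball a (16 * (s * a.im)), ε a ≤ C₁ * ε z) :
    s * a.im * ε a ≤ C₁ / s * ∫ z in ball a (16 * (s * a.im)), ε z / z.im := by
  have ha' : 0 < a.im := ha
  have hR : 0 < s * a.im := mul_pos hs ha'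
  have hsub : ball a (16 * (s * a.im)) ⊆ Hp := fun z hz => by
    have h1 := (sl_im hs hs1 ha hz).1
    show 0 < z.im
    linarith
  have h1 : ∫ _z in ball a (16 * (s * a.im)), ε a / (C₁ * (5 / 4 * a.im)) ≤
      ∫ z in ball a (16 * (s * a.im)), ε z / z.im := by
    apply setIntegral_mono_on
    · exact integrableOn_const measure_ball_lt_top.ne
    · exact hint.mono_set hsub
    · exact measurableSet_ball
    · intro z hz
      have h2 := sl_im hs hs1 ha hz
      have h3 : 0 < z.im := hsub hz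
      rw [div_le_div_iff₀ (by positivity) h3]
      calc ε a * z.im ≤ (C₁ * ε z) * (5 / 4 * a.im) :=
            mul_le_mul (hεa z hz) h2.2 h3.le (mul_nonneg hC₁.le (hε0 z))
        _ = ε z * (C₁ * (5 / 4 * a.im)) := by ring
  rw [setIntegral_const, smul_eq_mul] at h1
  have h4 : volume.real (ball a (16 * (s * a.im))) = Real.pi * (16 * (s * a.im)) ^ 2 := by
    rw [measureReal_def, Complex.volume_ball, ENNReal.toReal_mul, ENNReal.toReal_pow,
      ENNReal.toReal_ofReal (by positivity)]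
    have : (((NNReal.pi : NNReal) : ENNReal)).toReal = Real.pi := by simp
    rw [this]
    ring
  rw [h4] at h1
  have h5 : s * a.im * ε a ≤ C₁ / s * (Real.pi * (16 * (s * a.im)) ^ 2 *
      (ε a / (C₁ * (5 / 4 * a.im)))) := by
    have e : C₁ / s * (Real.pi * (16 * (s * a.im)) ^ 2 * (ε a / (C₁ * (5 / 4 * a.im)))) =
        (Real.pi * 256 * (4 / 5)) * (s * a.im * ε a) := by
      field_simp
      ring
    rw [e]
    have h6 : 0 ≤ s * a.im * ε a := mul_nonneg hR.le (hε0 a)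
    have h7 : 1 ≤ Real.pi * 256 * (4 / 5) := by nlinarith [Real.pi_gt_three]
    nlinarith
  refine h5.trans ?_
  apply mul_le_mul_of_nonneg_left h1 (by positivity)

theorem sumL {s C₁ : ℝ} (hs : 0 < s) (hs1 : s ≤ 1 / 64) (hC₁ : 0 < C₁) : ∃ C : ℝ, 0 < C ∧
    ∀ (V : Set ℂ) (k : ℂ → ℂ) (ε : ℂ → ℝ) (B : ℝ), IsOpen V → V ⊆ Hp → Test V k →
    PotD C₁ B (Sm s k) ε → ∫ z, ‖dzb k z‖ ≤ B →
    (∀ a ∈ Hp, ∀ z ∈ ball a (16 * (s * a.im)), ε z ≤ C₁ * ε a ∧ ε a ≤ C₁ * ε z) →
    ∃ (m : ℕ) (a : Fin m → ℂ) (χ : Fin m → ℂ → ℂ) (S : Fin m → ℝ),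
    (∀ i, a i ∈ Hp) ∧ (∀ i, Test univ (χ i)) ∧ (∀ i, tsupport (χ i) ⊆ closedBall (a i) (s * (a i).im)) ∧
    (∀ i z, ‖χ i z‖ ≤ 1) ∧ (∀ z ∈ tsupport (Sm s k), ∑ i, χ i z = 1) ∧
    (∀ i, ∀ z ∈ closedBall (a i) (s * (a i).im), ‖Sm s k z‖ + ε z ≤ S i) ∧
    ∑ i, gam V s (a i) * S i ≤ C * B := by
  obtain ⟨N, hN⟩ := cover hs hs1
  obtain ⟨Cm, hCm, hm⟩ := lmain hs hs1 hC₁
  obtain ⟨C', hC', hw⟩ := w0 hC₁.le
  refine ⟨Cm * (N + N * C' + C₁ / s * N) + 1, by positivity, ?_⟩
  intro V k ε B hVo hV hk hP hB hε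
  obtain ⟨m, a, χ, ha, hχ, hχs, hχ1, hχsum, hcount⟩ :=
    hN (tsupport (Sm s k)) hP.test.cpt hP.test.sub
  obtain ⟨w1, w2, -, -⟩ := hw B (Sm s k) ε hP
  have hB0 : 0 ≤ B := (integral_nonneg fun _ => norm_nonneg _).trans hB
  have hcb : ∀ i, closedBall (a i) (s * (a i).im) ⊆ Hp := by
    intro i z hz
    have h0 : 0 < (a i).im := ha i
    have h1 : z ∈ ball (a i) (16 * (s * (a i).im)) := by
      apply closedBall_subset_ball _ hz
      nlinarith [mul_pos hs h0]
    have h2 := (sl_im hs hs1 (ha i) h1).1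
    show 0 < z.im
    linarith
  have hbH : ∀ i, ball (a i) (16 * (s * (a i).im)) ⊆ Hp := by
    intro i z hz
    have h0 : 0 < (a i).im := ha i
    have h2 := (sl_im hs hs1 (ha i) hz).1
    show 0 < z.im
    linarith
  have hex : ∀ i, ∃ w ∈ closedBall (a i) (s * (a i).im),
      ∀ z ∈ closedBall (a i) (s * (a i).im), ‖Sm s k z‖ + ε z ≤ ‖Sm s k w‖ + ε w := by
    intro i
    have h0 : 0 < (a i).im := ha i
    have hc : ContinuousOn (fun z => ‖Sm s k z‖ + ε z) (closedBall (a i) (s * (a i).im)) :=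
      hP.test.smooth.continuous.norm.continuousOn.add (hP.smooth.continuousOn.mono (hcb i))
    obtain ⟨w, hw, hw'⟩ := (isCompact_closedBall (a i) (s * (a i).im)).exists_isMaxOn
      ⟨a i, mem_closedBall_self (by positivity)⟩ hc
    exact ⟨w, hw, fun z hz => hw' hz⟩
  choose w hwm hwmax using hex
  refine ⟨m, a, χ, fun i => ‖Sm s k (w i)‖ + ε (w i), ha, hχ, hχs, hχ1, hχsum,
    fun i z hz => hwmax i z hz, ?_⟩
  have hdk : Integrable (fun z => ‖dzb k z‖) := by
    have h1 : ContDiff ℝ ∞ (dzb k) := (QC.contDiff_dz hk.smooth).2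
    have h2 : HasCompactSupport (dzb k) := by
      apply hk.cpt.mono'
      intro z hz
      by_contra hc
      apply hz
      have h3 : k =ᶠ[𝓝 z] fun _ => 0 := notMem_tsupport_iff_eventuallyEq.1 hc
      unfold QC.dzb
      rw [h3.fderiv_eq, fderiv_fun_const]
      simp
    exact (h1.continuous.integrable_of_hasCompactSupport h2).norm
  have s1 : ∑ i, ∫ z in ball (a i) (16 * (s * (a i).im)), ‖dzb k z‖ ≤ N * B := by
    refine (sl_overlap hbH hcount (fun z _ => norm_nonneg _) hdk.integrableOn).trans ?_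
    apply mul_le_mul_of_nonneg_left _ (Nat.cast_nonneg N)
    exact (setIntegral_le_integral hdk (Eventually.of_forall fun z => norm_nonneg _)).trans hB
  have s2 : ∑ i, s * (a i).im * ∫ z in ball (a i) (16 * (s * (a i).im)),
      ‖dz (Sm s k) z‖ ^ 2 / Ph (Sm s k) ε z ≤ N * (C' * B) := by
    have h1 : ∀ i, s * (a i).im * ∫ z in ball (a i) (16 * (s * (a i).im)),
        ‖dz (Sm s k) z‖ ^ 2 / Ph (Sm s k) ε z ≤
        ∫ z in ball (a i) (16 * (s * (a i).im)), z.im * (‖dz (Sm s k) z‖ ^ 2 / Ph (Sm s k) ε z) := by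
      intro i
      have h0 : 0 < (a i).im := ha i
      rw [← integral_const_mul]
      have h3 : ∀ z ∈ ball (a i) (16 * (s * (a i).im)), s * (a i).im *
          (‖dz (Sm s k) z‖ ^ 2 / Ph (Sm s k) ε z) ≤
          z.im * (‖dz (Sm s k) z‖ ^ 2 / Ph (Sm s k) ε z) := by
        intro z hz
        have h2 := (sl_im hs hs1 (ha i) hz).1
        have h4 : s * (a i).im ≤ z.im := by nlinarith
        apply mul_le_mul_of_nonneg_right h4
        exact div_nonneg (by positivity) (Real.sqrt_nonneg _)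
      have h5 : IntegrableOn (fun z => z.im * (‖dz (Sm s k) z‖ ^ 2 / Ph (Sm s k) ε z))
          (ball (a i) (16 * (s * (a i).im))) := w1.mono_set (hbH i)
      by_cases h6 : IntegrableOn (fun z => s * (a i).im *
          (‖dz (Sm s k) z‖ ^ 2 / Ph (Sm s k) ε z)) (ball (a i) (16 * (s * (a i).im)))
      · exact setIntegral_mono_on h6 h5 measurableSet_ball h3
      · rw [integral_undef h6]
        apply setIntegral_nonneg measurableSet_ball
        intro z hz
        have h7 : 0 < z.im := hbH i hz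
        exact mul_nonneg h7.le (div_nonneg (by positivity) (Real.sqrt_nonneg _))
    refine (Finset.sum_le_sum (fun i _ => h1 i)).trans ?_
    refine (sl_overlap hbH hcount (fun z hz => ?_) w1).trans ?_
    · have h7 : 0 < z.im := hz
      exact mul_nonneg h7.le (div_nonneg (by positivity) (Real.sqrt_nonneg _))
    · exact mul_le_mul_of_nonneg_left w2 (Nat.cast_nonneg N)
  have s3 : ∑ i, s * (a i).im * ε (a i) ≤ C₁ / s * (N * B) := by
    have h1 : ∀ i, s * (a i).im * ε (a i) ≤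
        C₁ / s * ∫ z in ball (a i) (16 * (s * (a i).im)), ε z / z.im := fun i =>
      sl_eps hs hs1 hC₁ hP.nonneg hP.int (ha i) (fun z hz => (hε (a i) (ha i) z hz).2)
    refine (Finset.sum_le_sum (fun i _ => h1 i)).trans ?_
    rw [← Finset.mul_sum]
    apply mul_le_mul_of_nonneg_left _ (by positivity)
    refine (sl_overlap hbH hcount (fun z hz => ?_) hP.int).trans ?_
    · have h7 : 0 < z.im := hz
      exact div_nonneg (hP.nonneg z) h7.le
    · exact mul_le_mul_of_nonneg_left hP.int_le (Nat.cast_nonneg N)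
  have hi : ∀ i, gam V s (a i) * (‖Sm s k (w i)‖ + ε (w i)) ≤
      Cm * ((∫ z in ball (a i) (16 * (s * (a i).im)), ‖dzb k z‖) + s * (a i).im *
        (∫ z in ball (a i) (16 * (s * (a i).im)), ‖dz (Sm s k) z‖ ^ 2 / Ph (Sm s k) ε z) +
        s * (a i).im * ε (a i)) := fun i =>
    hm V k ε (a i) hVo hV hk (ha i) hP.smooth hP.pos
      (fun z hz => (hε (a i) (ha i) z hz).1) (w i) (hwm i)
  refine (Finset.sum_le_sum (fun i _ => hi i)).trans ?_
  rw [← Finset.mul_sum, Finset.sum_add_distrib, Finset.sum_add_distrib]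
  calc Cm * (∑ i, (∫ z in ball (a i) (16 * (s * (a i).im)), ‖dzb k z‖) +
        ∑ i, s * (a i).im * (∫ z in ball (a i) (16 * (s * (a i).im)),
          ‖dz (Sm s k) z‖ ^ 2 / Ph (Sm s k) ε z) + ∑ i, s * (a i).im * ε (a i))
      ≤ Cm * (N * B + N * (C' * B) + C₁ / s * (N * B)) := by
        apply mul_le_mul_of_nonneg_left _ hCm.le
        linarith
    _ = Cm * (N + N * C' + C₁ / s * N) * B := by ring
    _ ≤ _ := by nlinarith

end Pool.Agent.Work.MP_2cf110_an.Hyp

end
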