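import Pool.Agent.Work.MP_2cf110_an.Hyp.TaDef
import Pool.Agent.Work.MP_2cf110_an.Hyp.ProdG
import Pool.Agent.Work.MP_2cf110_an.Hyp.CutF

/-! # The annular cut-off and the replacement functions

cut_facts, cut_dzb: |dzb (acut x)| ≤ C/rad x; Test (Ux x); alG with a = 0, R = rad x, U = Ux x, O = {rad x/4 < |z| < 4 rad x}. -/

open MeasureTheory Complex Set Metric Filter
open scoped Topology ContDiff ComplexConjugate

noncomputable section

namespace Pool.Agent.Work.MP_2cf110_an.Hyp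

open QC (dz dzb Test Cau)

private theorem ta_rad (x : ℕ) : 0 < rad x := by
  unfold rad
  positivity

private theorem ta_zero {ρ₁ ρ₂ : ℝ} (h1 : 0 < ρ₁) (h2 : ρ₁ < ρ₂) {z : ℂ} (hz : ρ₂ ≤ ‖z‖) :
    cut 0 ρ₁ ρ₂ z = 0 := by
  have h3 : 0 < ρ₂ ^ 2 - ρ₁ ^ 2 := by nlinarith
  have h4 : (ρ₂ ^ 2 - ‖z - 0‖ ^ 2) / (ρ₂ ^ 2 - ρ₁ ^ 2) ≤ 0 := by
    rw [sub_zero]
    apply div_nonpos_of_nonpos_of_nonneg _ h3.le
    nlinarith
  unfold cut
  rw [Real.smoothTransition.zero_of_nonpos h4, ofReal_zero]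

private theorem ta_one {ρ₁ ρ₂ : ℝ} (h1 : 0 < ρ₁) (h2 : ρ₁ < ρ₂) {z : ℂ} (hz : ‖z‖ ≤ ρ₁) :
    cut 0 ρ₁ ρ₂ z = 1 := by
  refine (cut_facts h1 h2).2.2.2.1 z ?_
  rw [mem_closedBall, dist_zero_right]
  exact hz

private theorem ta_eq_one (x : ℕ) {z : ℂ} (h1 : rad x / 4 ≤ ‖z‖) (h2 : ‖z‖ ≤ 4 * rad x) :
    acut x z = 1 := by
  have hr := ta_rad x
  unfold acut
  rw [ta_one (by linarith) (by linarith) h2, ta_zero (by linarith) (by linarith) h1, sub_zero]

private theorem ta_diff (x : ℕ) (z : ℂ) :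
    DifferentiableAt ℝ (cut 0 (4 * rad x) (8 * rad x)) z ∧
    DifferentiableAt ℝ (cut 0 (rad x / 8) (rad x / 4)) z := by
  have hr := ta_rad x
  have h1 := (cut_facts (a := 0) (ρ₁ := 4 * rad x) (ρ₂ := 8 * rad x) (by linarith)
    (by linarith)).1.smooth
  have h2 := (cut_facts (a := 0) (ρ₁ := rad x / 8) (ρ₂ := rad x / 4) (by linarith)
    (by linarith)).1.smooth
  exact ⟨h1.differentiable (by simp) z, h2.differentiable (by simp) z⟩

theorem acut_facts (x : ℕ) : Test (Ux x) (acut x) ∧ (∀ z, ‖acut x z‖ ≤ 1) ∧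
    tsupport (acut x) ⊆ {z | rad x / 8 ≤ ‖z‖ ∧ ‖z‖ ≤ 8 * rad x} ∧
    (∀ z : ℂ, rad x / 4 ≤ ‖z‖ → ‖z‖ ≤ 4 * rad x → acut x z = 1) := by
  have hr := ta_rad x
  have h1 := (cut_facts (a := 0) (ρ₁ := 4 * rad x) (ρ₂ := 8 * rad x) (by linarith)
    (by linarith)).1.smooth
  have h2 := (cut_facts (a := 0) (ρ₁ := rad x / 8) (ρ₂ := rad x / 4) (by linarith)
    (by linarith)).1.smooth
  have hcl : IsClosed {z : ℂ | rad x / 8 ≤ ‖z‖ ∧ ‖z‖ ≤ 8 * rad x} :=
    (isClosed_le continuous_const continuous_norm).inter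
      (isClosed_le continuous_norm continuous_const)
  have hts : tsupport (acut x) ⊆ {z | rad x / 8 ≤ ‖z‖ ∧ ‖z‖ ≤ 8 * rad x} := by
    refine closure_minimal ?_ hcl
    intro z hz
    constructor
    · by_contra hcon
      rw [not_le] at hcon
      apply hz
      unfold acut
      rw [ta_one (by linarith) (by linarith) (by linarith),
        ta_one (by linarith) (by linarith) hcon.le, sub_self]
    · by_contra hcon
      rw [not_le] at hcon
      apply hz
      unfold acut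
      rw [ta_zero (by linarith) (by linarith) hcon.le,
        ta_zero (by linarith) (by linarith) (by linarith), sub_self]
  refine ⟨⟨h1.sub h2, ?_, ?_⟩, ?_, hts, fun z => ta_eq_one x⟩
  · refine (isCompact_closedBall (0 : ℂ) (8 * rad x)).of_isClosed_subset (isClosed_tsupport _)
      (hts.trans fun z hz => ?_)
    rw [mem_closedBall, dist_zero_right]
    exact hz.2
  · refine hts.trans fun z hz => ?_
    exact ⟨by linarith [hz.1], by linarith [hz.2]⟩
  · intro z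
    unfold acut cut
    rw [← ofReal_sub, norm_real, Real.norm_eq_abs, abs_le]
    have a1 := Real.smoothTransition.nonneg
      (((8 * rad x) ^ 2 - ‖z - 0‖ ^ 2) / ((8 * rad x) ^ 2 - (4 * rad x) ^ 2))
    have a2 := Real.smoothTransition.le_one
      (((8 * rad x) ^ 2 - ‖z - 0‖ ^ 2) / ((8 * rad x) ^ 2 - (4 * rad x) ^ 2))
    have a3 := Real.smoothTransition.nonneg
      (((rad x / 4) ^ 2 - ‖z - 0‖ ^ 2) / ((rad x / 4) ^ 2 - (rad x / 8) ^ 2))
    have a4 := Real.smoothTransition.le_one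
      (((rad x / 4) ^ 2 - ‖z - 0‖ ^ 2) / ((rad x / 4) ^ 2 - (rad x / 8) ^ 2))
    constructor <;> linarith

theorem acut_dzb : ∃ Q : ℝ, 1 ≤ Q ∧ ∀ x z, ‖dzb (acut x) z‖ ≤ Q / rad x := by
  obtain ⟨C, hC, h⟩ := cut_dzb
  refine ⟨6 * C, by linarith, fun x z => ?_⟩
  have hr := ta_rad x
  obtain ⟨d1, d2⟩ := ta_diff x z
  have e1 : dzb (acut x) z = dzb (cut 0 (4 * rad x) (8 * rad x)) z -
      dzb (cut 0 (rad x / 8) (rad x / 4)) z := by
    have h1 : fderiv ℝ (acut x) z = fderiv ℝ (cut 0 (4 * rad x) (8 * rad x)) z -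
        fderiv ℝ (cut 0 (rad x / 8) (rad x / 4)) z := fderiv_sub d1 d2
    unfold QC.dzb
    rw [h1]
    simp only [sub_apply]
    ring
  rw [e1]
  refine (norm_sub_le _ _).trans ?_
  have a1 := h 0 (4 * rad x) (8 * rad x) (by linarith) (by linarith) z
  have a2 := h 0 (rad x / 8) (rad x / 4) (by linarith) (by linarith) z
  refine (add_le_add a1 a2).trans ?_
  have e2 : C * (8 * rad x) / ((8 * rad x) ^ 2 - (4 * rad x) ^ 2) = C * (1 / 6) / rad x := by
    field_simp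
    ring
  have e3 : C * (rad x / 4) / ((rad x / 4) ^ 2 - (rad x / 8) ^ 2) = C * (16 / 3) / rad x := by
    field_simp
    ring
  rw [e2, e3, ← add_div]
  exact div_le_div_of_nonneg_right (by linarith) hr.le

theorem alx_facts : ∃ C : ℝ, 0 < C ∧ ∀ (V : Set ℂ) (x : ℕ) (N : ℝ) (h : ℂ → ℂ), IsOpen V → 0 ≤ N →
    DifferentiableOn ℂ h (V ∩ Ux x) → (∀ z ∈ V ∩ Ux x, ‖h z‖ ≤ N) →
    DifferentiableOn ℂ (alx V x h) {z | rad x / 4 < ‖z‖ ∧ ‖z‖ < 4 * rad x} ∧
    Continuous (alx V x h) ∧ ∀ z, ‖alx V x h z‖ ≤ C * N := by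
  obtain ⟨Q, hQ1, hQ⟩ := acut_dzb
  refine ⟨72 * Q, by linarith, fun V x N h hV hN0 hh hN => ?_⟩
  have hr := ta_rad x
  obtain ⟨f1, f2, f3, f4⟩ := acut_facts x
  have hU : IsOpen (Ux x) :=
    (isOpen_lt continuous_const continuous_norm).inter (isOpen_lt continuous_norm continuous_const)
  have hO : IsOpen {z : ℂ | rad x / 4 < ‖z‖ ∧ ‖z‖ < 4 * rad x} :=
    (isOpen_lt continuous_const continuous_norm).inter (isOpen_lt continuous_norm continuous_const)
  obtain ⟨g1, g2, g3⟩ := alG (a := 0) (R := rad x) (Q := Q) (φ := acut x) hV hU hO hr hN0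
    (by linarith) hh hN f1
    (f3.trans fun z hz => by
      rw [mem_closedBall, dist_zero_right]
      linarith [hz.2])
    (hQ x)
    (fun z hz => by
      have h1 : acut x =ᶠ[𝓝 z] fun _ => 1 := by
        filter_upwards [hO.mem_nhds hz] with w hw
        exact f4 w hw.1.le hw.2.le
      unfold QC.dzb
      rw [h1.fderiv_eq]
      simp)
  refine ⟨g1, g2, fun z => (g3 z).trans (le_of_eq ?_)⟩
  ring

end Pool.Agent.Work.MP_2cf110_an.Hyp

end
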