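import Pool.Agent.Work.MP_2cf110_an.Hyp.LamF

/-! # Algebra for two consecutive scales

lam c t = 1/t for c ≤ t.  Σ_j α_j B_j = 1 + O(e), Σ_j α_j G_j = Σ_j c_j G_j + O(e) = 1 + O(e), so b_p + Σ_j α_j (B_j G_p - B_p G_j) = b_p + G_p - B_p + O(e) = G_p + O(e). -/

open MeasureTheory Complex Set Metric Filter
open scoped Topology ContDiff ComplexConjugate

noncomputable section

namespace Pool.Agent.Work.MP_2cf110_an.Hyp

open QC (dz dzb Test Cau)

theorem algx (n : ℕ) {K c : ℝ} (hK : 1 ≤ K) (hc : 0 < c) : ∃ C : ℝ, 0 < C ∧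
    ∀ (e : ℝ) (u α b B : Fin n → ℂ), 0 ≤ e → e ≤ K → (∀ j, ‖u j‖ ≤ K) → (∀ j, ‖b j‖ ≤ K) →
    c ≤ ∑ j, ‖u j‖ ^ 2 → (∀ j, ‖α j - u j‖ ≤ K * e) → (∀ j, ‖B j - b j‖ ≤ K * e) →
    ‖∑ j, α j * b j - 1‖ ≤ K * e → ∀ p,
    ‖b p + ∑ j, α j * (B j * (((lam c (∑ j, ‖u j‖ ^ 2) : ℝ) : ℂ) * conj (u p)) -
        B p * (((lam c (∑ j, ‖u j‖ ^ 2) : ℝ) : ℂ) * conj (u j))) -
      ((lam c (∑ j, ‖u j‖ ^ 2) : ℝ) : ℂ) * conj (u p)‖ ≤ C * e := by
  have hK0 : 0 < K := by linarith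
  refine ⟨K / c * (n * ((K + K * K) * K) + K) + (K + K * K) * (n * (K * (K / c))) + K,
    by positivity, ?_⟩
  intro e u α b B he heK hu hb hc' hα hB hab p
  obtain ⟨t, ht⟩ : ∃ t : ℝ, t = ∑ j, ‖u j‖ ^ 2 := ⟨_, rfl⟩
  rw [← ht] at hc' ⊢
  have ht0 : 0 < t := by linarith
  obtain ⟨G, hG⟩ : ∃ G : Fin n → ℂ, G = fun j => ((lam c t : ℝ) : ℂ) * conj (u j) := ⟨_, rfl⟩
  have hlam : lam c t = 1 / t := lam_eq hc hc'
  have hGle : ∀ j, ‖G j‖ ≤ K / c := by
    intro j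
    rw [hG]
    show ‖((lam c t : ℝ) : ℂ) * conj (u j)‖ ≤ K / c
    rw [norm_mul, norm_real, hlam, RCLike.norm_conj, Real.norm_eq_abs, abs_of_pos (by positivity)]
    calc 1 / t * ‖u j‖ ≤ 1 / c * K := by
          apply mul_le_mul _ (hu j) (norm_nonneg _) (by positivity)
          exact one_div_le_one_div_of_le hc hc'
      _ = K / c := by ring
  have hGs : ∑ j, u j * G j = 1 := by
    rw [hG]
    have h1 : ∀ j, u j * (((lam c t : ℝ) : ℂ) * conj (u j)) =
        ((lam c t : ℝ) : ℂ) * ((‖u j‖ ^ 2 : ℝ) : ℂ) := by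
      intro j
      have h2 : u j * conj (u j) = ((‖u j‖ ^ 2 : ℝ) : ℂ) := by
        rw [mul_conj, normSq_eq_norm_sq]
      rw [← h2]
      ring
    rw [Finset.sum_congr rfl fun j _ => h1 j, ← Finset.mul_sum, ← ofReal_sum, ← ht, hlam,
      ← ofReal_mul, one_div, inv_mul_cancel₀ ht0.ne', ofReal_one]
  have hαle : ∀ j, ‖α j‖ ≤ K + K * K := by
    intro j
    calc ‖α j‖ = ‖u j + (α j - u j)‖ := by congr 1; ring
      _ ≤ ‖u j‖ + ‖α j - u j‖ := norm_add_le _ _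
      _ ≤ K + K * K := by
          have := hα j
          have := hu j
          nlinarith
  have hBle : ‖B p‖ ≤ K + K * K := by
    calc ‖B p‖ = ‖b p + (B p - b p)‖ := by congr 1; ring
      _ ≤ ‖b p‖ + ‖B p - b p‖ := norm_add_le _ _
      _ ≤ K + K * K := by
          have := hB p
          have := hb p
          nlinarith
  have h1 : ‖∑ j, α j * B j - 1‖ ≤ n * ((K + K * K) * (K * e)) + K * e := by
    have h2 : ∑ j, α j * B j - 1 = ∑ j, α j * (B j - b j) + (∑ j, α j * b j - 1) := by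
      have : ∑ j, α j * (B j - b j) = ∑ j, α j * B j - ∑ j, α j * b j := by
        rw [← Finset.sum_sub_distrib]
        exact Finset.sum_congr rfl fun j _ => by ring
      rw [this]
      ring
    rw [h2]
    refine (norm_add_le _ _).trans (add_le_add ?_ hab)
    refine (norm_sum_le_of_le _ fun j _ => ?_ : _ ≤ ∑ _j : Fin n, (K + K * K) * (K * e)).trans ?_
    · rw [norm_mul]
      exact mul_le_mul (hαle j) (hB j) (norm_nonneg _) (by positivity)
    · rw [Finset.sum_const, Finset.card_univ, Fintype.card_fin, nsmul_eq_mul]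
  have h2 : ‖∑ j, α j * G j - 1‖ ≤ n * (K * e * (K / c)) := by
    have h3 : ∑ j, α j * G j - 1 = ∑ j, (α j - u j) * G j := by
      rw [← hGs, ← Finset.sum_sub_distrib]
      exact Finset.sum_congr rfl fun j _ => by ring
    rw [h3]
    refine (norm_sum_le_of_le _ fun j _ => ?_ : _ ≤ ∑ _j : Fin n, K * e * (K / c)).trans ?_
    · rw [norm_mul]
      exact mul_le_mul (hα j) (hGle j) (norm_nonneg _) (by positivity)
    · rw [Finset.sum_const, Finset.card_univ, Fintype.card_fin, nsmul_eq_mul]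
  have h3 : b p + ∑ j, α j * (B j * (((lam c t : ℝ) : ℂ) * conj (u p)) -
        B p * (((lam c t : ℝ) : ℂ) * conj (u j))) - ((lam c t : ℝ) : ℂ) * conj (u p) =
      G p * (∑ j, α j * B j - 1) - B p * (∑ j, α j * G j - 1) - (B p - b p) := by
    have h4 : ∑ j, α j * (B j * (((lam c t : ℝ) : ℂ) * conj (u p)) -
        B p * (((lam c t : ℝ) : ℂ) * conj (u j))) =
        G p * ∑ j, α j * B j - B p * ∑ j, α j * G j := by
      rw [Finset.mul_sum, Finset.mul_sum, ← Finset.sum_sub_distrib, hG]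
      exact Finset.sum_congr rfl fun j _ => by ring
    rw [h4, hG]
    ring
  rw [h3]
  have hBp := hB p
  calc ‖G p * (∑ j, α j * B j - 1) - B p * (∑ j, α j * G j - 1) - (B p - b p)‖
      ≤ ‖G p * (∑ j, α j * B j - 1)‖ + ‖B p * (∑ j, α j * G j - 1)‖ + ‖B p - b p‖ :=
        (norm_sub_le _ _).trans (add_le_add_left (norm_sub_le _ _) _)
    _ ≤ K / c * (n * ((K + K * K) * (K * e)) + K * e) + (K + K * K) * (n * (K * e * (K / c))) +
        K * e := by
        rw [norm_mul, norm_mul]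
        refine add_le_add (add_le_add ?_ ?_) hBp
        · exact mul_le_mul (hGle p) h1 (norm_nonneg _) (by positivity)
        · exact mul_le_mul hBle h2 (norm_nonneg _) (by positivity)
    _ = (K / c * (n * ((K + K * K) * K) + K) + (K + K * K) * (n * (K * (K / c))) + K) * e := by
        ring

/-- `u ↦ λ(|u|²) conj u` is bounded and Lipschitz on bounded sets -/
theorem lam_lip (n : ℕ) {K c : ℝ} (hK : 1 ≤ K) (hc : 0 < c) : ∃ C : ℝ, 0 < C ∧
    ∀ (u v : Fin n → ℂ), (∀ j, ‖u j‖ ≤ K) → (∀ j, ‖v j‖ ≤ K) → ∀ p,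
    ‖((lam c (∑ j, ‖u j‖ ^ 2) : ℝ) : ℂ) * conj (u p)‖ ≤ C ∧
    ‖((lam c (∑ j, ‖u j‖ ^ 2) : ℝ) : ℂ) * conj (u p) -
      ((lam c (∑ j, ‖v j‖ ^ 2) : ℝ) : ℂ) * conj (v p)‖ ≤ C * ∑ j, ‖u j - v j‖ := by
  have hK0 : 0 < K := by linarith
  have hl := lam_smooth hc
  have hl1 : Continuous (deriv (lam c)) := hl.continuous_deriv (by simp)
  obtain ⟨M, hM⟩ := (isCompact_Icc (a := (0:ℝ)) (b := n * K ^ 2)).exists_bound_of_continuousOn
    hl.continuous.continuousOn
  obtain ⟨M1, hM1⟩ := (isCompact_Icc (a := (0:ℝ)) (b := n * K ^ 2)).exists_bound_of_continuousOn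
    hl1.continuousOn
  have hM0 : 0 ≤ M := (norm_nonneg _).trans (hM 0 ⟨le_rfl, by positivity⟩)
  have hM10 : 0 ≤ M1 := (norm_nonneg _).trans (hM1 0 ⟨le_rfl, by positivity⟩)
  refine ⟨M * K + M + M1 * (2 * K) * K + 1, by positivity, ?_⟩
  intro u v hu hv p
  have hmem : ∀ w : Fin n → ℂ, (∀ j, ‖w j‖ ≤ K) → ∑ j, ‖w j‖ ^ 2 ∈ Icc (0:ℝ) (n * K ^ 2) := by
    intro w hw
    constructor
    · exact Finset.sum_nonneg fun j _ => by positivity
    · have : ∀ j ∈ (Finset.univ : Finset (Fin n)), ‖w j‖ ^ 2 ≤ K ^ 2 := fun j _ =>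
        pow_le_pow_left₀ (norm_nonneg _) (hw j) 2
      have h := Finset.sum_le_card_nsmul _ _ _ this
      simpa using h
  have hs := hmem u hu
  have ht := hmem v hv
  obtain ⟨s, hsd⟩ : ∃ s : ℝ, s = ∑ j, ‖u j‖ ^ 2 := ⟨_, rfl⟩
  obtain ⟨t, htd⟩ : ∃ t : ℝ, t = ∑ j, ‖v j‖ ^ 2 := ⟨_, rfl⟩
  rw [← hsd] at hs ⊢
  rw [← htd] at ht ⊢
  obtain ⟨D, hD⟩ : ∃ D : ℝ, D = ∑ j, ‖u j - v j‖ := ⟨_, rfl⟩
  rw [← hD]
  have hD0 : 0 ≤ D := by
    rw [hD]
    exact Finset.sum_nonneg fun j _ => norm_nonneg _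
  have hpD : ‖u p - v p‖ ≤ D := by
    rw [hD]
    exact Finset.single_le_sum (f := fun j => ‖u j - v j‖) (fun j _ => norm_nonneg _)
      (Finset.mem_univ p)
  have hst : |s - t| ≤ 2 * K * D := by
    rw [hsd, htd, ← Finset.sum_sub_distrib, hD, Finset.mul_sum]
    refine (Finset.abs_sum_le_sum_abs _ _).trans (Finset.sum_le_sum fun j _ => ?_)
    have h1 : ‖u j‖ ^ 2 - ‖v j‖ ^ 2 = (‖u j‖ + ‖v j‖) * (‖u j‖ - ‖v j‖) := by ring
    rw [h1, abs_mul]
    refine mul_le_mul ?_ (abs_norm_sub_norm_le _ _) (abs_nonneg _) (by positivity)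
    rw [abs_of_nonneg (by positivity)]
    have := hu j
    have := hv j
    linarith
  have hls : |lam c s| ≤ M := hM s hs
  have hlst : |lam c s - lam c t| ≤ M1 * |s - t| := by
    have h1 := Convex.norm_image_sub_le_of_norm_deriv_le (f := lam c) (C := M1)
      (s := Icc (0:ℝ) (n * K ^ 2)) (x := t) (y := s)
      (fun x _ => hl.contDiffAt.differentiableAt (by simp)) (fun x hx => hM1 x hx)
      (convex_Icc _ _) ht hs
    exact h1
  constructor
  · rw [norm_mul, norm_real, RCLike.norm_conj, Real.norm_eq_abs]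
    have h1 : |lam c s| * ‖u p‖ ≤ M * K := mul_le_mul hls (hu p) (norm_nonneg _) hM0
    have h2 : 0 ≤ M1 * (2 * K) * K := by positivity
    linarith
  · have h1 : ((lam c s : ℝ) : ℂ) * conj (u p) - ((lam c t : ℝ) : ℂ) * conj (v p) =
        ((lam c s : ℝ) : ℂ) * conj (u p - v p) +
          (((lam c s - lam c t : ℝ)) : ℂ) * conj (v p) := by
      rw [map_sub]
      push_cast
      ring
    rw [h1]
    refine (norm_add_le _ _).trans ?_
    rw [norm_mul, norm_mul, norm_real, norm_real, RCLike.norm_conj, RCLike.norm_conj,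
      Real.norm_eq_abs, Real.norm_eq_abs]
    have h2 : |lam c s| * ‖u p - v p‖ ≤ M * D := mul_le_mul hls hpD (norm_nonneg _) hM0
    have h3 : |lam c s - lam c t| * ‖v p‖ ≤ M1 * (2 * K * D) * K := by
      refine mul_le_mul (hlst.trans ?_) (hv p) (norm_nonneg _) (by positivity)
      exact mul_le_mul_of_nonneg_left hst hM10
    have h4 : 0 ≤ M * K * D := by positivity
    nlinarith

end Pool.Agent.Work.MP_2cf110_an.Hyp

end
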