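import Pool.Agent.Work.MP_2cf110_an.Hyp.TaG
import Pool.Agent.Work.MP_2cf110_an.Hyp.GrA

/-! # The global smooth solution

For z in V: Lg z > 0; with x = ⌊Lg z⌋ only th (Lg z - x), th (Lg z - (x+1)) can be nonzero and they are 1 - t, t with t = smoothTransition (Lg z - x).  Near z the same holds with x - 1, x, x + 1.
Smooth on V: locally finite sum.  ω: on x ≤ Lg z ≤ x + 1: dzb GH_l = tau x (gt (x+1) l - gt x l) and GH_p dzb GH_l - GH_l dzb GH_p = tau x * Ag x p l; tau y = 0 unless y ≤ Lg z ≤ y + 1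
(at the integers all tau vanish).  tau x is supported in rad x/2 ≤ |z| ≤ rad x and |tau x| ≤ C/rad x. -/

open MeasureTheory Complex Set Metric Filter
open scoped Topology ContDiff ComplexConjugate

noncomputable section

namespace Pool.Agent.Work.MP_2cf110_an.Hyp

open QC (dz dzb Test Cau)

variable {n : ℕ}

private theorem taf_rad (x : ℕ) : rad x = Real.exp (-(x * Real.log 2)) := by
  unfold rad
  rw [one_div, inv_pow, Real.exp_neg, ← Real.rpow_natCast, Real.rpow_def_of_pos (by norm_num)]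
  ring_nf

private theorem taf_log2 : 0 < Real.log 2 := Real.log_pos (by norm_num)

private theorem taf_norm {z : ℂ} (hz : z ≠ 0) : ‖z‖ = Real.exp (-(Lg z * Real.log 2)) := by
  unfold Lg
  have h := taf_log2
  rw [show -(-(Real.log ‖z‖ / Real.log 2) * Real.log 2) = Real.log ‖z‖ by field_simp,
    Real.exp_log (norm_pos_iff.2 hz)]

private theorem taf_rad_pos (x : ℕ) : 0 < rad x := by
  unfold rad; positivity

private theorem taf_lt {z : ℂ} (hz : z ≠ 0) (x : ℕ) : (x : ℝ) < Lg z ↔ ‖z‖ < rad x := by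
  rw [taf_rad, taf_norm hz, Real.exp_lt_exp]
  have h := taf_log2
  constructor
  · intro h1; nlinarith
  · intro h1
    by_contra h2
    rw [not_lt] at h2
    nlinarith

private theorem taf_gt {z : ℂ} (hz : z ≠ 0) (x : ℕ) : Lg z < (x : ℝ) ↔ rad x < ‖z‖ := by
  rw [taf_rad, taf_norm hz, Real.exp_lt_exp]
  have h := taf_log2
  constructor
  · intro h1; nlinarith
  · intro h1
    by_contra h2
    rw [not_lt] at h2
    nlinarith

private theorem taf_rad_succ (x : ℕ) : rad (x + 1) = rad x / 2 := by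
  unfold rad; rw [pow_succ]; ring

private theorem taf_region {z : ℂ} (hz : z ≠ 0) (x : ℕ) (h : |Lg z - x| < 2) :
    rad x / 4 < ‖z‖ ∧ ‖z‖ < 4 * rad x := by
  have h2 := taf_log2
  obtain ⟨ha, hb⟩ := abs_lt.1 h
  have e4 : (4 : ℝ) = Real.exp (2 * Real.log 2) := by
    rw [two_mul, Real.exp_add, Real.exp_log (by norm_num)]; norm_num
  rw [taf_rad, taf_norm hz]
  constructor
  · rw [div_lt_iff₀ (by norm_num), e4, ← Real.exp_add, Real.exp_lt_exp]
    nlinarith
  · rw [e4, ← Real.exp_add, Real.exp_lt_exp]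
    nlinarith

private theorem taf_Lg_smooth {z : ℂ} (hz : z ≠ 0) : ContDiffAt ℝ ∞ Lg z := by
  unfold Lg
  exact (((contDiffAt_norm ℝ hz).log (norm_ne_zero_iff.2 hz)).div_const _).neg

private theorem taf_Lg_le {z : ℂ} (hz : z ≠ 0) :
    ‖fderiv ℝ Lg z‖ ≤ 1 / (Real.log 2 * ‖z‖) := by
  have h2 := taf_log2
  have hn : ‖z‖ ≠ 0 := norm_ne_zero_iff.2 hz
  have hd : HasFDerivAt (fun w : ℂ => ‖w‖) (fderiv ℝ (fun w : ℂ => ‖w‖) z) z :=
    ((contDiffAt_norm ℝ hz (n := 1)).differentiableAt (by norm_num)).hasFDerivAt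
  have h1 : HasFDerivAt Lg (-((Real.log 2)⁻¹ • (‖z‖⁻¹ • fderiv ℝ (fun w : ℂ => ‖w‖) z))) z := by
    have h3 := ((hd.log hn).mul_const ((Real.log 2)⁻¹)).neg
    have h5 : Lg = fun w => -(Real.log ‖w‖ * (Real.log 2)⁻¹) := by
      funext w; unfold Lg; rw [div_eq_mul_inv]
    rw [h5]
    exact h3
  rw [h1.fderiv, norm_neg, norm_smul, norm_smul, norm_inv, norm_inv, Real.norm_of_nonneg h2.le,
    norm_norm]
  have h4 : ‖fderiv ℝ (fun w : ℂ => ‖w‖) z‖ ≤ 1 := by
    have := norm_fderiv_le_of_lipschitz ℝ (f := fun w : ℂ => ‖w‖) (x₀ := z) (C := 1) lipschitzWith_one_norm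
    simpa using this
  have hz0 : 0 < ‖z‖ := norm_pos_iff.2 hz
  calc (Real.log 2)⁻¹ * (‖z‖⁻¹ * ‖fderiv ℝ (fun w : ℂ => ‖w‖) z‖)
      ≤ (Real.log 2)⁻¹ * (‖z‖⁻¹ * 1) := by gcongr
    _ = _ := by rw [mul_one, one_div, mul_inv]

/-- composition with a smooth function of one variable -/
private theorem taf_comp {φ : ℝ → ℝ} (hφ : Differentiable ℝ φ) (s : ℝ) {z : ℂ} (hz : z ≠ 0) :
    DifferentiableAt ℝ (fun w => ((φ (Lg w - s) : ℝ) : ℂ)) z ∧
    dzb (fun w => ((φ (Lg w - s) : ℝ) : ℂ)) z =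
      ((deriv φ (Lg z - s) : ℝ) : ℂ) * dzb (fun w => ((Lg w : ℝ) : ℂ)) z := by
  have hL : HasFDerivAt Lg (fderiv ℝ Lg z) z :=
    ((taf_Lg_smooth hz).differentiableAt (by simp)).hasFDerivAt
  have h1 : HasFDerivAt (fun w => φ (Lg w - s)) (deriv φ (Lg z - s) • fderiv ℝ Lg z) z :=
    (hφ _).hasDerivAt.comp_hasFDerivAt z (hL.sub_const s)
  have h2 : HasFDerivAt (fun w => ((φ (Lg w - s) : ℝ) : ℂ))
      (Complex.ofRealCLM.comp (deriv φ (Lg z - s) • fderiv ℝ Lg z)) z :=
    Complex.ofRealCLM.hasFDerivAt.comp z h1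
  have h3 : HasFDerivAt (fun w => ((Lg w : ℝ) : ℂ)) (Complex.ofRealCLM.comp (fderiv ℝ Lg z)) z :=
    Complex.ofRealCLM.hasFDerivAt.comp z hL
  refine ⟨h2.differentiableAt, ?_⟩
  unfold dzb
  rw [h2.fderiv, h3.fderiv]
  simp only [ContinuousLinearMap.comp_apply, _root_.smul_apply, Complex.ofRealCLM_apply,
    smul_eq_mul]
  push_cast
  ring

private theorem taf_dL {z : ℂ} (hz : z ≠ 0) :
    ‖dzb (fun w => ((Lg w : ℝ) : ℂ)) z‖ ≤ 1 / (Real.log 2 * ‖z‖) := by
  refine (QC.norm_dzb_le _ _).trans ?_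
  have hL : HasFDerivAt Lg (fderiv ℝ Lg z) z :=
    ((taf_Lg_smooth hz).differentiableAt (by simp)).hasFDerivAt
  have h3 : HasFDerivAt (fun w => ((Lg w : ℝ) : ℂ)) (Complex.ofRealCLM.comp (fderiv ℝ Lg z)) z :=
    Complex.ofRealCLM.hasFDerivAt.comp z hL
  rw [h3.fderiv]
  refine (ContinuousLinearMap.opNorm_comp_le _ _).trans ?_
  rw [Complex.ofRealCLM_norm, one_mul]
  exact taf_Lg_le hz

private theorem taf_sig0 {t : ℝ} (ht : t ≤ 0 ∨ 1 ≤ t) : deriv Real.smoothTransition t = 0 := by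
  rcases ht with ht | ht
  · apply IsLocalMin.deriv_eq_zero
    refine Filter.Eventually.of_forall fun s => ?_
    rw [Real.smoothTransition.zero_of_nonpos ht]
    exact Real.smoothTransition.nonneg s
  · apply IsLocalMax.deriv_eq_zero
    refine Filter.Eventually.of_forall fun s => ?_
    rw [Real.smoothTransition.one_of_one_le ht]
    exact Real.smoothTransition.le_one s

private theorem taf_sigd : Differentiable ℝ Real.smoothTransition :=
  (Real.smoothTransition.contDiff (n := 1)).differentiable (by norm_num)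

private theorem taf_tau0 (x : ℕ) : tau x 0 = 0 := by
  unfold tau dzb
  have h : ¬ DifferentiableAt ℝ (fun w => ((Real.smoothTransition (Lg w - x) : ℝ) : ℂ)) 0 := by
    intro hd
    have hc := hd.continuousAt
    have h0 : ((Real.smoothTransition (Lg (0:ℂ) - x) : ℝ) : ℂ) = 0 := by
      have : Lg (0:ℂ) = 0 := by unfold Lg; simp
      rw [this, Real.smoothTransition.zero_of_nonpos (by simp)]
      simp
    have h1 : Tendsto (fun w => ((Real.smoothTransition (Lg w - x) : ℝ) : ℂ)) (𝓝[≠] 0) (𝓝 1) := by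
      refine Tendsto.congr' (f₁ := fun _ => (1 : ℂ)) ?_ tendsto_const_nhds
      have hb : ball (0:ℂ) (rad (x + 1)) ∈ 𝓝 (0:ℂ) := ball_mem_nhds _ (taf_rad_pos _)
      filter_upwards [self_mem_nhdsWithin, mem_nhdsWithin_of_mem_nhds hb] with w hw hw2
      rw [mem_ball, dist_zero_right] at hw2
      have hw3 := (taf_lt hw (x + 1)).2 hw2
      push_cast at hw3
      rw [Real.smoothTransition.one_of_one_le (by linarith)]
      simp
    have h2 := (hc.tendsto).mono_left (nhdsWithin_le_nhds (s := {0}ᶜ))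
    have h3 := tendsto_nhds_unique h1 h2
    rw [h0] at h3
    exact one_ne_zero h3
  rw [fderiv_zero_of_not_differentiableAt h]
  simp

private theorem taf_tau {x : ℕ} {z : ℂ} (hz : z ≠ 0) :
    tau x z = ((deriv Real.smoothTransition (Lg z - x) : ℝ) : ℂ) *
      dzb (fun w => ((Lg w : ℝ) : ℂ)) z := (taf_comp taf_sigd x hz).2

private theorem taf_tau_ne {x : ℕ} {z : ℂ} (h : tau x z ≠ 0) :
    z ≠ 0 ∧ (x : ℝ) < Lg z ∧ Lg z < x + 1 := by
  have hz : z ≠ 0 := by
    rintro rfl
    exact h (taf_tau0 x)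
  refine ⟨hz, ?_⟩
  rw [taf_tau hz] at h
  have h1 : ¬ (Lg z - x ≤ 0 ∨ 1 ≤ Lg z - x) := by
    intro h2
    rw [taf_sig0 h2] at h
    simp at h
  push Not at h1
  exact ⟨by linarith [h1.1], by linarith [h1.2]⟩

theorem tau_facts : ∃ C : ℝ, 0 < C ∧ ∀ x, Test univ (tau x) ∧
    tsupport (tau x) ⊆ {z | rad x / 2 ≤ ‖z‖ ∧ ‖z‖ ≤ rad x} ∧ ∀ z, ‖tau x z‖ ≤ C / rad x := by
  have hc : HasCompactSupport (deriv Real.smoothTransition) := by
    apply HasCompactSupport.of_support_subset_isCompact (isCompact_Icc (a := (0 : ℝ)) (b := 1))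
    intro t ht
    by_contra h
    rw [mem_Icc, not_and_or] at h
    refine ht (taf_sig0 ?_)
    rcases h with h | h
    · left; linarith
    · right; linarith
  have hd : Continuous (deriv Real.smoothTransition) :=
    (Real.smoothTransition.contDiff (n := ⊤)).continuous_deriv (by simp)
  obtain ⟨C, hC⟩ := hd.bounded_above_of_compact_support hc
  have h2 := taf_log2
  have hC0 : 0 ≤ |C| := abs_nonneg C
  refine ⟨(|C| + 1) * (2 / Real.log 2), by positivity, fun x => ?_⟩
  have hr := taf_rad_pos x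
  have hsup : Function.support (tau x) ⊆ {z | rad x / 2 ≤ ‖z‖ ∧ ‖z‖ ≤ rad x} := by
    intro z hz
    obtain ⟨h0, h1, h3⟩ := taf_tau_ne hz
    have h4 := (taf_lt h0 x).1 h1
    have h5 := (taf_gt h0 (x + 1)).1 (by push_cast; exact h3)
    rw [taf_rad_succ] at h5
    exact ⟨h5.le, h4.le⟩
  have hcl : IsClosed {z : ℂ | rad x / 2 ≤ ‖z‖ ∧ ‖z‖ ≤ rad x} :=
    (isClosed_le continuous_const continuous_norm).inter
      (isClosed_le continuous_norm continuous_const)
  have hts : tsupport (tau x) ⊆ {z | rad x / 2 ≤ ‖z‖ ∧ ‖z‖ ≤ rad x} :=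
    closure_minimal hsup hcl
  refine ⟨⟨?_, ?_, subset_univ _⟩, hts, ?_⟩
  · rw [contDiff_iff_contDiffAt]
    intro z
    by_cases hz : z = 0
    · subst hz
      have h3 : tau x =ᶠ[𝓝 0] fun _ => 0 := by
        have hb : ball (0:ℂ) (rad x / 2) ∈ 𝓝 (0:ℂ) := ball_mem_nhds _ (by positivity)
        filter_upwards [hb] with w hw
        by_contra h4
        have := (hsup h4).1
        rw [mem_ball, dist_zero_right] at hw
        linarith
      exact contDiffAt_const.congr_of_eventuallyEq h3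
    · have hF : ContDiffAt ℝ ∞ (fun w => ((Real.smoothTransition (Lg w - x) : ℝ) : ℂ)) z :=
        (Complex.ofRealCLM.contDiff.contDiffAt).comp z
          ((Real.smoothTransition.contDiff (n := ⊤)).contDiffAt.comp z
            ((taf_Lg_smooth hz).sub contDiffAt_const))
      have hF2 := hF.fderiv_right (m := ∞) (by simp)
      have h1 := hF2.clm_apply (contDiffAt_const (c := (1:ℂ)))
      have h3 := hF2.clm_apply (contDiffAt_const (c := I))
      exact (h1.add (contDiffAt_const.mul h3)).div_const 2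
  · exact HasCompactSupport.of_support_subset_isCompact
      ((isCompact_closedBall (0:ℂ) (rad x)).of_isClosed_subset hcl (fun z hz => by
        rw [mem_closedBall, dist_zero_right]; exact hz.2)) hsup
  · intro z
    by_cases hz : tau x z = 0
    · rw [hz, norm_zero]; positivity
    · obtain ⟨h0, h1, h3⟩ := taf_tau_ne hz
      have h6 := (hsup hz).1
      rw [taf_tau h0, norm_mul, Complex.norm_real]
      have hn : 0 < ‖z‖ := norm_pos_iff.2 h0
      calc ‖deriv Real.smoothTransition (Lg z - x)‖ * ‖dzb (fun w => ((Lg w : ℝ) : ℂ)) z‖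
          ≤ (|C| + 1) * (1 / (Real.log 2 * ‖z‖)) := by
            gcongr
            · exact (hC _).trans ((le_abs_self C).trans (by linarith))
            · exact taf_dL h0
        _ ≤ (|C| + 1) * (1 / (Real.log 2 * (rad x / 2))) := by gcongr
        _ = (|C| + 1) * (2 / Real.log 2) / rad x := by field_simp


/-- one term of `GH` -/
private def taf_term (c : ℝ) (V : Set ℂ) (f : Fin n → ℂ → ℂ) (g : ℕ → Fin n → ℂ → ℂ) (x : ℕ)
    (p : Fin n) (z : ℂ) : ℂ := ((th (Lg z - x) : ℝ) : ℂ) * gt c V f g x p z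

private theorem taf_th0 {t : ℝ} (h : 1 ≤ |t|) : th t = 0 := by
  by_contra h1
  exact absurd (th_facts.2.2.1 t h1) (not_lt.2 h)

private theorem taf_Lgc {z : ℂ} (hz : z ≠ 0) : ContinuousAt Lg z := (taf_Lg_smooth hz).continuousAt

private theorem taf_Lg_pos {z : ℂ} (hz : z ≠ 0) (h1 : ‖z‖ < 1) : 0 < Lg z := by
  have := (taf_lt hz 0).2 (by unfold rad; simpa using h1)
  simpa using this

private theorem taf_term_far {c : ℝ} {V : Set ℂ} {f : Fin n → ℂ → ℂ} {g : ℕ → Fin n → ℂ → ℂ}
    {x : ℕ} {p : Fin n} {z : ℂ} (hz : z ≠ 0) (h : 1 < |Lg z - x|) :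
    taf_term c V f g x p =ᶠ[𝓝 z] fun _ => 0 := by
  have hc : ContinuousAt (fun w => |Lg w - x|) z := ((taf_Lgc hz).sub continuousAt_const).abs
  filter_upwards [hc.eventually_const_lt h] with w hw
  unfold taf_term
  rw [taf_th0 hw.le]
  simp

private theorem taf_gt_holo {C c : ℝ} {V : Set ℂ} {f : Fin n → ℂ → ℂ} {g : ℕ → Fin n → ℂ → ℂ}
    (hV : IsOpen V) {x : ℕ}
    (hg : BA C (V ∩ {z | rad x / 4 < ‖z‖ ∧ ‖z‖ < 4 * rad x}) (gt c V f g x)) {p : Fin n} {z : ℂ}
    (hzV : z ∈ V) (hz : z ≠ 0) (h : |Lg z - x| < 2) :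
    ContDiffAt ℝ ∞ (gt c V f g x p) z ∧ DifferentiableAt ℂ (gt c V f g x p) z := by
  have ho : IsOpen (V ∩ {z : ℂ | rad x / 4 < ‖z‖ ∧ ‖z‖ < 4 * rad x}) :=
    hV.inter ((isOpen_lt continuous_const continuous_norm).inter
      (isOpen_lt continuous_norm continuous_const))
  have hm : z ∈ V ∩ {z : ℂ | rad x / 4 < ‖z‖ ∧ ‖z‖ < 4 * rad x} := ⟨hzV, taf_region hz x h⟩
  have h1 : ContDiffAt ℂ ∞ (gt c V f g x p) z :=
    ((hg p).1.contDiffOn ho).contDiffAt (ho.mem_nhds hm)
  exact ⟨h1.restrict_scalars ℝ, ((hg p).1 z hm).differentiableAt (ho.mem_nhds hm)⟩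

private theorem taf_term_smooth {C c : ℝ} {V : Set ℂ} {f : Fin n → ℂ → ℂ} {g : ℕ → Fin n → ℂ → ℂ}
    (hV : IsOpen V) {x : ℕ}
    (hg : BA C (V ∩ {z | rad x / 4 < ‖z‖ ∧ ‖z‖ < 4 * rad x}) (gt c V f g x)) {p : Fin n} {z : ℂ}
    (hzV : z ∈ V) (hz : z ≠ 0) : ContDiffAt ℝ ∞ (taf_term c V f g x p) z := by
  by_cases h : |Lg z - x| < 2
  · have h1 : ContDiffAt ℝ ∞ (fun w => ((th (Lg w - x) : ℝ) : ℂ)) z :=
      (Complex.ofRealCLM.contDiff.contDiffAt).comp z
        (th_facts.1.contDiffAt.comp z ((taf_Lg_smooth hz).sub contDiffAt_const))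
    exact h1.mul (taf_gt_holo hV hg hzV hz h).1
  · exact contDiffAt_const.congr_of_eventuallyEq (taf_term_far hz (by rw [not_lt] at h; linarith))

private theorem taf_GH_sum {c : ℝ} {V : Set ℂ} {f : Fin n → ℂ → ℂ} {g : ℕ → Fin n → ℂ → ℂ}
    {p : Fin n} {z : ℂ} {N : ℕ} (h : Lg z < N) :
    GH c V f g p z = ∑ x ∈ Finset.range (N + 1), taf_term c V f g x p z := by
  unfold GH
  apply finsum_eq_sum_of_support_subset
  intro x hx
  rw [Finset.coe_range, mem_Iio]
  by_contra h1
  rw [not_lt] at h1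
  apply hx
  have h2 : ((N : ℝ) + 1) ≤ x := by exact_mod_cast h1
  have h3 : th (Lg z - x) = 0 := taf_th0 (by rw [le_abs]; right; linarith)
  simp only [h3]
  simp

private theorem taf_GH_near {c : ℝ} {V : Set ℂ} {f : Fin n → ℂ → ℂ} {g : ℕ → Fin n → ℂ → ℂ}
    {p : Fin n} {z : ℂ} (hz : z ≠ 0) : ∃ N : ℕ,
    GH c V f g p =ᶠ[𝓝 z] fun w => ∑ x ∈ Finset.range (N + 1), taf_term c V f g x p w := by
  obtain ⟨N, hN⟩ := exists_nat_gt (Lg z)
  refine ⟨N, ?_⟩
  filter_upwards [(taf_Lgc hz).eventually_lt_const hN] with w hw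
  exact taf_GH_sum hw

private theorem taf_GH_two {c : ℝ} {V : Set ℂ} {f : Fin n → ℂ → ℂ} {g : ℕ → Fin n → ℂ → ℂ}
    {p : Fin n} {z : ℂ} {m : ℕ} (h1 : (m : ℝ) ≤ Lg z) (h2 : Lg z < m + 1) :
    GH c V f g p z = ((1 - Real.smoothTransition (Lg z - m) : ℝ) : ℂ) * gt c V f g m p z +
      ((Real.smoothTransition (Lg z - m) : ℝ) : ℂ) * gt c V f g (m + 1) p z := by
  have e1 : th (Lg z - m) = 1 - Real.smoothTransition (Lg z - m) := by
    unfold th
    rw [Real.smoothTransition.one_of_one_le (by linarith)]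
  have e2 : th (Lg z - ((m + 1 : ℕ) : ℝ)) = Real.smoothTransition (Lg z - m) := by
    unfold th
    push_cast
    rw [show Lg z - ((m : ℝ) + 1) + 1 = Lg z - m by ring,
      Real.smoothTransition.zero_of_nonpos (show Lg z - ((m : ℝ) + 1) ≤ 0 by linarith), sub_zero]
  have e3 : GH c V f g p z = ∑ x ∈ ({m, m + 1} : Finset ℕ),
      ((th (Lg z - x) : ℝ) : ℂ) * gt c V f g x p z := by
    unfold GH
    apply finsum_eq_sum_of_support_subset
    intro x hx
    rw [Finset.coe_insert, Finset.coe_singleton]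
    by_contra h3
    simp only [mem_insert_iff, mem_singleton_iff, not_or] at h3
    apply hx
    have h4 : th (Lg z - x) = 0 := by
      apply taf_th0
      rw [le_abs]
      rcases lt_or_gt_of_ne h3.1 with h5 | h5
      · left
        have : (x : ℝ) + 1 ≤ m := by exact_mod_cast h5
        linarith
      · right
        have : (m : ℝ) + 2 ≤ x := by
          have : m + 2 ≤ x := by omega
          exact_mod_cast this
        linarith
    simp only [h4]
    simp
  rw [e3, Finset.sum_pair (by omega), e1, e2]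

private theorem taf_th_int (k : ℤ) : deriv th k = 0 := by
  by_cases hk : k = 0
  · subst hk
    apply IsLocalMax.deriv_eq_zero
    refine Filter.Eventually.of_forall fun s => ?_
    have h0 : th ((0 : ℤ) : ℝ) = 1 := by
      unfold th
      rw [Int.cast_zero, Real.smoothTransition.one_of_one_le (by norm_num),
        Real.smoothTransition.zero_of_nonpos le_rfl]
      norm_num
    rw [h0]
    exact (th_facts.2.1 s).2
  · apply IsLocalMin.deriv_eq_zero
    refine Filter.Eventually.of_forall fun s => ?_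
    have h0 : th (k : ℝ) = 0 := by
      apply taf_th0
      have := Int.one_le_abs hk
      exact_mod_cast this
    rw [h0]
    exact (th_facts.2.1 s).1

private theorem taf_dzb_sum {ι : Type*} (s : Finset ι) (F : ι → ℂ → ℂ) (z : ℂ)
    (h : ∀ i ∈ s, DifferentiableAt ℝ (F i) z ∧ dzb (F i) z = 0) :
    dzb (fun w => ∑ i ∈ s, F i w) z = 0 := by
  have h1 : fderiv ℝ (fun w => ∑ i ∈ s, F i w) z = ∑ i ∈ s, fderiv ℝ (F i) z :=
    fderiv_fun_sum fun i hi => (h i hi).1
  unfold dzb
  rw [h1, _root_.sum_apply, _root_.sum_apply, Finset.mul_sum,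
    ← Finset.sum_add_distrib, Finset.sum_div]
  exact Finset.sum_eq_zero fun i hi => (h i hi).2

private theorem taf_congr {F G : ℂ → ℂ} {z : ℂ} (h : F =ᶠ[𝓝 z] G) : dzb F z = dzb G z := by
  unfold dzb
  rw [h.fderiv_eq]

theorem GH_facts {K c : ℝ} (hK : 1 ≤ K) (hc : 0 < c) : ∃ C : ℝ, 0 < C ∧
    ∀ (V : Set ℂ) (f : Fin n → ℂ → ℂ) (g : ℕ → Fin n → ℂ → ℂ), TD K V f g →
    (∀ p, ContDiffOn ℝ ∞ (GH c V f g p) V) ∧ (∀ p, ∀ z ∈ V, ‖GH c V f g p z‖ ≤ C) ∧
    (∀ z ∈ V, ∑ p, f p z * GH c V f g p z = 1) ∧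
    ∀ p l, ∀ z ∈ V, GH c V f g p z * dzb (GH c V f g l) z - GH c V f g l z * dzb (GH c V f g p) z =
      ∑ᶠ x : ℕ, tau x z * Ag c V f g x p l z := by
  obtain ⟨C, hC, hgt⟩ := gt_facts (n := n) hK hc
  refine ⟨C, hC, fun V f g hT => ?_⟩
  have hV := hT.V_open
  have hne : ∀ z ∈ V, z ≠ 0 := fun z hz => by
    have := (hT.V_sub hz).2
    simpa using this
  have hpos : ∀ z ∈ V, 0 < Lg z := fun z hz => by
    have := (hT.V_sub hz).1
    rw [mem_ball, dist_zero_right] at this
    exact taf_Lg_pos (hne z hz) this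
  have hg : ∀ x, BA C (V ∩ {z | rad x / 4 < ‖z‖ ∧ ‖z‖ < 4 * rad x}) (gt c V f g x) := fun x =>
    (hgt V f g hT x).1
  -- membership
  have hmem : ∀ z ∈ V, ∀ x : ℕ, |Lg z - x| < 2 →
      z ∈ V ∩ {z | rad x / 4 < ‖z‖ ∧ ‖z‖ < 4 * rad x} := fun z hz x h =>
    ⟨hz, taf_region (hne z hz) x h⟩
  have hfl : ∀ z ∈ V, ∃ m : ℕ, (m : ℝ) ≤ Lg z ∧ Lg z < m + 1 := fun z hz =>
    ⟨⌊Lg z⌋₊, Nat.floor_le (hpos z hz).le, Nat.lt_floor_add_one _⟩
  have hab1 : ∀ (z : ℂ) (m : ℕ), (m : ℝ) ≤ Lg z → Lg z < m + 1 → |Lg z - m| < 2 := by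
    intro z m h1 h2
    rw [abs_lt]; constructor <;> linarith
  have hab2 : ∀ (z : ℂ) (m : ℕ), (m : ℝ) ≤ Lg z → Lg z < m + 1 →
      |Lg z - ((m + 1 : ℕ) : ℝ)| < 2 := by
    intro z m h1 h2
    push_cast
    rw [abs_lt]; constructor <;> linarith
  refine ⟨?_, ?_, ?_, ?_⟩
  · intro p z hz
    obtain ⟨N, hN⟩ := taf_GH_near (c := c) (V := V) (f := f) (g := g) (p := p) (hne z hz)
    have h1 : ContDiffAt ℝ ∞ (fun w => ∑ x ∈ Finset.range (N + 1), taf_term c V f g x p w) z :=
      ContDiffAt.sum fun x _ => taf_term_smooth hV (hg x) hz (hne z hz)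
    exact (h1.congr_of_eventuallyEq hN).contDiffWithinAt
  · intro p z hz
    obtain ⟨m, h1, h2⟩ := hfl z hz
    rw [taf_GH_two h1 h2]
    have b1 := (hg m p).2 z (hmem z hz m (hab1 z m h1 h2))
    have b2 := (hg (m + 1) p).2 z (hmem z hz (m + 1) (hab2 z m h1 h2))
    have s0 := Real.smoothTransition.nonneg (Lg z - m)
    have s1 := Real.smoothTransition.le_one (Lg z - m)
    refine (norm_add_le _ _).trans ?_
    rw [norm_mul, norm_mul, Complex.norm_real, Complex.norm_real,
      Real.norm_of_nonneg (by linarith : 0 ≤ 1 - Real.smoothTransition (Lg z - m)),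
      Real.norm_of_nonneg s0]
    nlinarith
  · intro z hz
    obtain ⟨m, h1, h2⟩ := hfl z hz
    have b1 := (hgt V f g hT m).2 z (hmem z hz m (hab1 z m h1 h2))
    have b2 := (hgt V f g hT (m + 1)).2 z (hmem z hz (m + 1) (hab2 z m h1 h2))
    have e1 : ∀ p, f p z * GH c V f g p z =
        ((1 - Real.smoothTransition (Lg z - m) : ℝ) : ℂ) * (f p z * gt c V f g m p z) +
        ((Real.smoothTransition (Lg z - m) : ℝ) : ℂ) * (f p z * gt c V f g (m + 1) p z) := by
      intro p
      rw [taf_GH_two h1 h2]; ring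
    rw [Finset.sum_congr rfl fun p _ => e1 p, Finset.sum_add_distrib, ← Finset.mul_sum,
      ← Finset.mul_sum, b1, b2]
    push_cast
    ring
  · intro p l z hz
    have hz0 := hne z hz
    obtain ⟨m, h1, h2⟩ := hfl z hz
    rcases h1.lt_or_eq with h3 | h3
    · -- open interval
      have hnear : ∀ q : Fin n, GH c V f g q =ᶠ[𝓝 z] fun w =>
          ((1 - Real.smoothTransition (Lg w - m) : ℝ) : ℂ) * gt c V f g m q w +
          ((Real.smoothTransition (Lg w - m) : ℝ) : ℂ) * gt c V f g (m + 1) q w := by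
        intro q
        filter_upwards [(taf_Lgc hz0).eventually_lt_const h2,
          (taf_Lgc hz0).eventually_const_lt h3] with w hw1 hw2
        exact taf_GH_two hw2.le hw1
      have hd1 : ∀ q, DifferentiableAt ℂ (gt c V f g m q) z := fun q =>
        (taf_gt_holo hV (hg m) hz hz0 (hab1 z m h1 h2)).2
      have hd2 : ∀ q, DifferentiableAt ℂ (gt c V f g (m + 1) q) z := fun q =>
        (taf_gt_holo hV (hg (m + 1)) hz hz0 (hab2 z m h1 h2)).2
      have hs := taf_comp taf_sigd (m : ℝ) hz0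
      have hs2 : dzb (fun w => ((Real.smoothTransition (Lg w - m) : ℝ) : ℂ)) z = tau m z := rfl
      have hs1 : DifferentiableAt ℝ (fun w => ((1 - Real.smoothTransition (Lg w - m) : ℝ) : ℂ)) z ∧
          dzb (fun w => ((1 - Real.smoothTransition (Lg w - m) : ℝ) : ℂ)) z = - tau m z := by
        have e : (fun w : ℂ => ((1 - Real.smoothTransition (Lg w - m) : ℝ) : ℂ)) =
            fun w => (1 : ℂ) - ((Real.smoothTransition (Lg w - m) : ℝ) : ℂ) := by
          funext w; push_cast; rfl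
        rw [e]
        refine ⟨(differentiableAt_const _).sub hs.1, ?_⟩
        rw [(QC.dz_sub (differentiableAt_const _) hs.1).2, hs2,
          (QC.dz_of_holo (differentiableAt_const (c := (1:ℂ)))).2]
        ring
      have hdz : ∀ q, dzb (GH c V f g q) z =
          tau m z * (gt c V f g (m + 1) q z - gt c V f g m q z) := by
        intro q
        have r1 : DifferentiableAt ℝ (gt c V f g m q) z := (hd1 q).restrictScalars ℝ
        have r2 : DifferentiableAt ℝ (gt c V f g (m + 1) q) z := (hd2 q).restrictScalars ℝ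
        have d1 : DifferentiableAt ℝ (fun w => ((1 - Real.smoothTransition (Lg w - m) : ℝ) : ℂ) *
            gt c V f g m q w) z := hs1.1.mul r1
        have d2 : DifferentiableAt ℝ (fun w => ((Real.smoothTransition (Lg w - m) : ℝ) : ℂ) *
            gt c V f g (m + 1) q w) z := hs.1.mul r2
        have a2 := (QC.dz_mul hs1.1 r1).2
        have a3 := (QC.dz_mul hs.1 r2).2
        rw [taf_congr (hnear q), (QC.dz_add d1 d2).2, a2, a3, hs1.2, hs2,
          (QC.dz_of_holo (hd1 q)).2, (QC.dz_of_holo (hd2 q)).2]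
        ring
      have hR : ∑ᶠ x : ℕ, tau x z * Ag c V f g x p l z = tau m z * Ag c V f g m p l z := by
        apply finsum_eq_single
        intro x hx
        have : tau x z = 0 := by
          by_contra h4
          obtain ⟨-, h5, h6⟩ := taf_tau_ne h4
          apply hx
          have h7 : (x : ℝ) < m + 1 := by linarith
          have h8 : (m : ℝ) < x + 1 := by linarith
          have h9 : x < m + 1 := by exact_mod_cast h7
          have h10 : m < x + 1 := by exact_mod_cast h8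
          omega
        rw [this, zero_mul]
      rw [hR, hdz, hdz, taf_GH_two h1 h2, taf_GH_two h1 h2]
      unfold Ag
      push_cast
      ring
    · -- integer
      have hdz : ∀ q, dzb (GH c V f g q) z = 0 := by
        intro q
        obtain ⟨N, hN⟩ := taf_GH_near (c := c) (V := V) (f := f) (g := g) (p := q) hz0
        rw [taf_congr hN]
        apply taf_dzb_sum
        intro x _
        refine ⟨(taf_term_smooth hV (hg x) hz hz0).differentiableAt (by simp), ?_⟩
        by_cases h4 : |Lg z - x| < 2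
        · have hh := (taf_gt_holo hV (hg x) (p := q) hz hz0 h4).2
          have ht := taf_comp (th_facts.1.differentiable (by simp)) (x : ℝ) hz0
          have hr : DifferentiableAt ℝ (gt c V f g x q) z := hh.restrictScalars ℝ
          have e0 : deriv th (Lg z - x) = 0 := by
            have := taf_th_int ((m : ℤ) - x)
            push_cast at this
            rw [← h3]
            exact this
          have e1 : dzb (taf_term c V f g x q) z = _ := (QC.dz_mul ht.1 hr).2
          rw [e1, ht.2, e0, (QC.dz_of_holo hh).2]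
          simp
        · rw [taf_congr (taf_term_far hz0 (by rw [not_lt] at h4; linarith)),
            (QC.dz_of_holo (differentiableAt_const (c := (0:ℂ)))).2]
      have hR : ∑ᶠ x : ℕ, tau x z * Ag c V f g x p l z = 0 := by
        have : ∀ x : ℕ, tau x z * Ag c V f g x p l z = 0 := by
          intro x
          have h4 : tau x z = 0 := by
            by_contra h4
            obtain ⟨-, h5, h6⟩ := taf_tau_ne h4
            rw [← h3] at h5 h6
            have h9 : x < m := by exact_mod_cast h5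
            have h10 : m < x + 1 := by exact_mod_cast h6
            omega
          rw [h4, zero_mul]
        simp only [this, finsum_zero]
      rw [hR, hdz, hdz]
      ring

end Pool.Agent.Work.MP_2cf110_an.Hyp

end
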