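import Pool.Agent.Work.MP_2cf110_an.Hyp.TaK
import Pool.Agent.Work.MP_2cf110_an.Hyp.LTest
import Pool.Agent.Work.MP_2cf110_an.Hyp.Green
import Pool.Agent.Work.MP_2cf110_an.Hyp.Far
import Pool.Agent.Work.MP_2cf110_an.Hyp.CapB
import Pool.Agent.Work.MP_2cf110_an.Hyp.CutF

/-! # The estimate for Gx |m|

b, c from exists_half for E = Ex V x (compact, disjoint from V), φ = cut 0 (9 rad x) (12 rad x), adm_test with the test function z k(z) (dzb (z k) = z dzb k):
∫ b z k dzb φ = - ∫ b φ z dzb k.  Left = ∫ b (z k - m) dzb φ - π m c (green with ρ = 8 rad x, ρ' = 9 rad x), |b| ≤ (2/rad x) cap E on 9 rad x ≤ |z| (far), |dzb φ| ≤ C/rad x, kdec.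
Right: ≤ ∫_{|z| ≤ 12 rad x} |z||dzb k| ≤ C rad x Ek. -/

open MeasureTheory Complex Set Metric Filter
open scoped Topology ContDiff ComplexConjugate

noncomputable section

namespace Pool.Agent.Work.MP_2cf110_an.Hyp

open QC (dz dzb Test Cau)

private theorem tl_pos (x : ℕ) : 0 < rad x := by
  unfold rad
  positivity

private theorem tl_succ (x : ℕ) : rad (x + 1) = rad x / 2 := by
  unfold rad
  rw [pow_succ]
  ring

private theorem tl_anti {x y : ℕ} (h : x ≤ y) : rad y ≤ rad x := by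
  unfold rad
  exact pow_le_pow_of_le_one (by norm_num) (by norm_num) h

private theorem tl_meas (y : ℕ) : MeasurableSet {ζ : ℂ | rad (y + 1) ≤ ‖ζ‖ ∧ ‖ζ‖ < rad y} :=
  (measurableSet_le measurable_const measurable_norm).inter
    (measurableSet_lt measurable_norm measurable_const)

private theorem tl_disj : Pairwise fun a b : ℕ =>
    Disjoint {ζ : ℂ | rad (a + 1) ≤ ‖ζ‖ ∧ ‖ζ‖ < rad a}
      {ζ : ℂ | rad (b + 1) ≤ ‖ζ‖ ∧ ‖ζ‖ < rad b} := by
  intro a b hab
  rw [Set.disjoint_left]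
  rintro ζ ⟨h1, h2⟩ ⟨h3, h4⟩
  rcases lt_or_gt_of_ne hab with h | h
  · have := tl_anti (show a + 1 ≤ b from h)
    linarith
  · have := tl_anti (show b + 1 ≤ a from h)
    linarith

private theorem tl_cover {ζ : ℂ} (h0 : ζ ≠ 0) (h1 : ‖ζ‖ < 1) :
    ∃ y : ℕ, rad (y + 1) ≤ ‖ζ‖ ∧ ‖ζ‖ < rad y := by
  classical
  have hex : ∃ n : ℕ, rad (n + 1) ≤ ‖ζ‖ := by
    have h2 : Tendsto (fun n : ℕ => (1 / 2 : ℝ) ^ n) atTop (𝓝 0) :=
      tendsto_pow_atTop_nhds_zero_of_lt_one (by norm_num) (by norm_num)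
    have h3 := (h2.eventually (gt_mem_nhds (norm_pos_iff.2 h0))).and (eventually_ge_atTop 1)
    obtain ⟨n, hn, hn1⟩ := h3.exists
    obtain ⟨m, rfl⟩ := Nat.exists_eq_succ_of_ne_zero (show n ≠ 0 by omega)
    exact ⟨m, hn.le⟩
  refine ⟨Nat.find hex, Nat.find_spec hex, ?_⟩
  rcases Nat.eq_zero_or_pos (Nat.find hex) with h | h
  · rw [h]
    unfold rad
    simpa using h1
  · obtain ⟨m, hm⟩ := Nat.exists_eq_succ_of_ne_zero h.ne'
    have h2 := Nat.find_min hex (show m < Nat.find hex by omega)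
    rw [hm]
    exact not_le.1 h2

/-- the integral is the sum of the integrals over the scales -/
private theorem tl_sum {h : ℂ → ℝ} (hi : Integrable h) (hz : ∀ ζ, ζ ∉ ball (0 : ℂ) 1 \ {0} → h ζ = 0) :
    HasSum (fun y : ℕ => ∫ ζ in {ζ : ℂ | rad (y + 1) ≤ ‖ζ‖ ∧ ‖ζ‖ < rad y}, h ζ) (∫ ζ, h ζ) := by
  have h1 := hasSum_integral_iUnion tl_meas tl_disj (hi.integrableOn)
  have h2 : ∫ ζ in ⋃ y : ℕ, {ζ : ℂ | rad (y + 1) ≤ ‖ζ‖ ∧ ‖ζ‖ < rad y}, h ζ = ∫ ζ, h ζ := by
    apply setIntegral_eq_integral_of_forall_compl_eq_zero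
    intro ζ hζ
    apply hz
    rintro ⟨h3, h4⟩
    apply hζ
    rw [mem_ball_zero_iff] at h3
    obtain ⟨y, hy⟩ := tl_cover h4 h3
    exact mem_iUnion.2 ⟨y, hy⟩
  rwa [h2] at h1

private theorem tl_supp {v : ℂ → ℂ} (hv : Test (ball 0 1 \ {0}) v) :
    ∀ ζ, ζ ∉ ball (0 : ℂ) 1 \ {0} → v ζ = 0 := fun ζ hζ =>
  image_eq_zero_of_notMem_tsupport fun h => hζ (hv.sub h)

private theorem tl_int {v : ℂ → ℂ} (hv : Test (ball 0 1 \ {0}) v) : Integrable v :=
  hv.smooth.continuous.integrable_of_hasCompactSupport hv.cpt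

private theorem tl_vsum {v : ℂ → ℂ} (hv : Test (ball 0 1 \ {0}) v) :
    HasSum (vx v) (∫ ζ, ‖v ζ‖) :=
  tl_sum (tl_int hv).norm fun ζ hζ => by rw [tl_supp hv ζ hζ, norm_zero]

private theorem tl_vnn (v : ℂ → ℂ) (y : ℕ) : 0 ≤ vx v y :=
  integral_nonneg fun _ => norm_nonneg _

/-- the weight -/
private def wl (r : ℝ) (ζ : ℂ) : ℝ := min ‖ζ‖ (r ^ 2 / ‖ζ‖)

private theorem wl_nn {r : ℝ} (ζ : ℂ) : 0 ≤ wl r ζ := le_min (norm_nonneg _) (by positivity)

private theorem wl_le {r : ℝ} (hr : 0 < r) (ζ : ℂ) : wl r ζ ≤ r := by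
  unfold wl
  rcases le_or_gt ‖ζ‖ r with h | h
  · exact (min_le_left _ _).trans h
  · refine (min_le_right _ _).trans ?_
    rw [div_le_iff₀ (hr.trans h)]
    nlinarith

private theorem wl_meas (r : ℝ) : Measurable (wl r) :=
  measurable_norm.min (measurable_const.div measurable_norm)

private theorem wl_shell {x y : ℕ} {ζ : ℂ} (h1 : rad (y + 1) ≤ ‖ζ‖) (h2 : ‖ζ‖ < rad y) :
    wl (rad x) ζ ≤ 2 * rad x * (1 / 2) ^ dd x y := by
  have hx := tl_pos x
  have hy := tl_pos (y + 1)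
  rcases le_or_gt x y with h | h
  · refine (min_le_left _ _).trans (h2.le.trans ?_)
    have hd : dd x y = y - x := by unfold dd; omega
    have h3 : rad y = rad x * (1 / 2) ^ dd x y := by
      rw [hd]
      unfold rad
      rw [← pow_add]
      congr 1
      omega
    rw [h3]
    have : 0 < rad x * (1 / 2) ^ dd x y := by positivity
    linarith
  · refine (min_le_right _ _).trans ?_
    have hd : dd x y = x - y := by unfold dd; omega
    have h3 : rad x = rad y * (1 / 2) ^ dd x y := by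
      rw [hd]
      unfold rad
      rw [← pow_add]
      congr 1
      omega
    have h4 : rad y = 2 * rad (y + 1) := by rw [tl_succ]; ring
    rw [div_le_iff₀ (hy.trans_le h1)]
    have h5 : rad x ^ 2 = 2 * rad x * (1 / 2) ^ dd x y * rad (y + 1) := by
      have : rad x ^ 2 = rad x * (rad y * (1 / 2) ^ dd x y) := by rw [← h3]; ring
      rw [this, h4]
      ring
    rw [h5]
    exact mul_le_mul_of_nonneg_left h1 (by positivity)

private theorem tl_wint {v : ℂ → ℂ} (hv : Test (ball 0 1 \ {0}) v) {r : ℝ} (hr : 0 < r) :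
    Integrable fun ζ => ‖v ζ‖ * wl r ζ := by
  refine Integrable.mono' ((tl_int hv).norm.mul_const r)
    ((tl_int hv).norm.aestronglyMeasurable.mul (wl_meas r).aestronglyMeasurable)
    (Eventually.of_forall fun ζ => ?_)
  rw [Real.norm_of_nonneg (mul_nonneg (norm_nonneg _) (wl_nn ζ))]
  exact mul_le_mul_of_nonneg_left (wl_le hr ζ) (norm_nonneg _)

/-- the weighted mass -/
private theorem tl_mass {v : ℂ → ℂ} (hv : Test (ball 0 1 \ {0}) v) (x : ℕ) :
    ∫ ζ, ‖v ζ‖ * wl (rad x) ζ ≤ 2 * rad x * Ek v x := by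
  have h1 := tl_sum (tl_wint hv (tl_pos x)) fun ζ hζ => by rw [tl_supp hv ζ hζ, norm_zero, zero_mul]
  have h2 : Summable fun y => (1 / 2 : ℝ) ^ dd x y * vx v y :=
    Summable.of_nonneg_of_le (fun y => mul_nonneg (by positivity) (tl_vnn v y))
      (fun y => by
        have h3 : (1 / 2 : ℝ) ^ dd x y ≤ 1 := pow_le_one₀ (by norm_num) (by norm_num)
        have h4 := mul_le_mul_of_nonneg_right h3 (tl_vnn v y)
        rwa [one_mul] at h4) (tl_vsum hv).summable
  unfold Ek
  rw [← tsum_mul_left, ← h1.tsum_eq]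
  refine h1.summable.tsum_le_tsum (fun y => ?_) (h2.mul_left _)
  have h3 : 2 * rad x * ((1 / 2) ^ dd x y * vx v y) =
      ∫ ζ in {ζ : ℂ | rad (y + 1) ≤ ‖ζ‖ ∧ ‖ζ‖ < rad y}, ‖v ζ‖ * (2 * rad x * (1 / 2) ^ dd x y) := by
    rw [integral_mul_const]
    unfold vx
    ring
  rw [h3]
  refine setIntegral_mono_on (tl_wint hv (tl_pos x)).integrableOn
    ((tl_int hv).norm.mul_const _).integrableOn (tl_meas y) fun ζ hζ => ?_
  exact mul_le_mul_of_nonneg_left (wl_shell hζ.1 hζ.2) (norm_nonneg _)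

private theorem tl_mulid {V : Set ℂ} {k : ℂ → ℂ} (hk : Test V k) :
    Test V (fun z => z * k z) ∧ ∀ z, dzb (fun z => z * k z) z = z * dzb k z := by
  refine ⟨⟨contDiff_id.mul hk.smooth, hk.cpt.mul_left, ?_⟩, fun z => ?_⟩
  · exact (tsupport_mul_subset_right (f := fun z : ℂ => z) (g := k)).trans hk.sub
  · have h1 : DifferentiableAt ℂ (fun w : ℂ => w) z := differentiableAt_id
    have h2 := (QC.dz_mul (f := fun w : ℂ => w) (g := k) (z := z) (h1.restrictScalars ℝ)
      ((hk.smooth.differentiable (by simp)) z)).2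
    rw [h2, (QC.dz_of_holo h1).2]
    ring

theorem Lx : ∃ C : ℝ, 0 < C ∧ ∀ (V : Set ℂ) (k : ℂ → ℂ), IsOpen V → V ⊆ ball 0 1 \ {0} → Test V k →
    ∀ x, Gx V x * ‖mx (dzb k) x‖ ≤ C * Ek (dzb k) x := by
  obtain ⟨C1, hC1, hkd⟩ := kdec
  obtain ⟨C2, hC2, hcd⟩ := cut_dzb
  refine ⟨2 * (3 * C2 * C1 + 288), by positivity, fun V k hV hVs hk x => ?_⟩
  have hpi3 := Real.pi_gt_three
  have hk' : Test (ball 0 1 \ {0}) k := ⟨hk.smooth, hk.cpt, hk.sub.trans hVs⟩
  have hT : Test (ball 0 1 \ {0}) (dzb k) := hk'.dz.2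
  have hTV : Test V (dzb k) := hk.dz.2
  have hEk : 0 ≤ Ek (dzb k) x := tsum_nonneg fun y => mul_nonneg (by positivity) (tl_vnn _ y)
  have hr := tl_pos x
  have hkd' := hkd k hk' x
  have hms := tl_mass hT x
  obtain ⟨m, hm⟩ : ∃ m, m = mx (dzb k) x := ⟨_, rfl⟩
  rw [← hm] at hkd' ⊢
  obtain ⟨E, hEd⟩ : ∃ E, E = Ex V x := ⟨_, rfl⟩
  have hG : Gx V x = cap E / rad x := by rw [hEd]; rfl
  have hEsub : E ⊆ closedBall 0 (8 * rad x) := by
    rw [hEd]
    intro z hz
    exact mem_closedBall_zero_iff.2 hz.1.2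
  have hEV : Disjoint E V := by
    rw [hEd]
    exact disjoint_sdiff_left
  have hEc : IsCompact E := by
    have h1 : IsClosed {z : ℂ | rad x / 8 ≤ ‖z‖ ∧ ‖z‖ ≤ 8 * rad x} :=
      (isClosed_le continuous_const continuous_norm).inter
        (isClosed_le continuous_norm continuous_const)
    have h2 : IsClosed E := by
      rw [hEd]
      exact h1.sdiff hV
    exact (isCompact_closedBall _ _).of_isClosed_subset h2 hEsub
  rw [hG]
  obtain ⟨r, hrd⟩ : ∃ r, r = rad x := ⟨_, rfl⟩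
  rw [← hrd] at hkd' hms hr hEsub ⊢
  rcases (cap_nonneg E).eq_or_lt with h0 | h0
  · rw [← h0, zero_div, zero_mul]
    positivity
  obtain ⟨b, c, hb, hcb⟩ := exists_half h0
  have h9 : 0 < 9 * r := by linarith
  have h12 : 9 * r < 12 * r := by linarith
  obtain ⟨f1, f2, f3, f4, f5, f6⟩ := cut_facts (a := 0) h9 h12
  obtain ⟨φ, hφ⟩ : ∃ φ, φ = cut 0 (9 * r) (12 * r) := ⟨_, rfl⟩
  have f7 := hcd 0 (9 * r) (12 * r) h9 h12
  rw [← hφ] at f1 f2 f3 f4 f5 f6 f7
  obtain ⟨g1, g2⟩ := tl_mulid hk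
  have e1 := adm_test hEc hV hEV hb g1 f1
  have e2 := green (a := 0) (ρ := 8 * r) (ρ' := 9 * r) (b := b) (c := c)
    (hb.holo.mono (compl_subset_compl.2 hEsub)) hb.lim f1 (by linarith)
    (fun z hz => f4 z (ball_subset_closedBall hz))
  have hφd : Continuous (dzb φ) := f1.dz.2.smooth.continuous
  have hφc : HasCompactSupport (dzb φ) := f1.dz.2.cpt
  have i1 : Integrable (fun z => b z * (z * k z) * dzb φ z) := by
    have : (fun z => b z * (z * k z) * dzb φ z) = fun z => b z * (z * k z * dzb φ z) := by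
      funext z
      ring
    rw [this]
    refine Integrable.bdd_mul (c := 1) ?_ hb.meas.aestronglyMeasurable
      (Eventually.of_forall fun z => hb.le z)
    exact ((continuous_id.mul hk.smooth.continuous).mul hφd).integrable_of_hasCompactSupport
      hφc.mul_left
  have i2 : Integrable (fun z => b z * dzb φ z) :=
    Integrable.bdd_mul (c := 1) (hφd.integrable_of_hasCompactSupport hφc)
      hb.meas.aestronglyMeasurable (Eventually.of_forall fun z => hb.le z)
  have e3 : ∫ z, b z * (z * k z - m) * dzb φ z =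
      (∫ z, b z * (z * k z) * dzb φ z) - m * ∫ z, b z * dzb φ z := by
    rw [← integral_const_mul, ← integral_sub i1 (i2.const_mul m)]
    refine integral_congr_ae (Eventually.of_forall fun z => ?_)
    simp only
    ring
  have e4 : (Real.pi : ℂ) * (m * c) = (∫ z, b z * (z * k z - m) * dzb φ z) +
      ∫ z, b z * φ z * dzb (fun z => z * k z) z := by
    rw [e3, e1, e2]
    ring
  -- the first term
  obtain ⟨A, hA⟩ : ∃ A : Set ℂ, A = {z : ℂ | r / 2 ≤ ‖z‖ ∧ ‖z‖ ≤ 12 * r} := ⟨_, rfl⟩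
  rw [← hA] at hkd'
  have hAcl : IsClosed A := by
    rw [hA]
    exact (isClosed_le continuous_const continuous_norm).inter
      (isClosed_le continuous_norm continuous_const)
  have hAc : IsCompact A := by
    refine (isCompact_closedBall (0 : ℂ) (12 * r)).of_isClosed_subset hAcl fun z hz => ?_
    rw [hA] at hz
    exact mem_closedBall_zero_iff.2 hz.2
  have iA : IntegrableOn (fun z => 3 * C2 * ‖k z - m / z‖) A := by
    refine ContinuousOn.integrableOn_compact hAc ?_
    refine continuousOn_const.mul (ContinuousOn.norm ?_)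
    refine hk.smooth.continuous.continuousOn.sub (continuousOn_const.div continuousOn_id ?_)
    intro z hz
    rw [hA] at hz
    exact norm_pos_iff.1 (lt_of_lt_of_le (by linarith) hz.1)
  have t1 : ‖∫ z, b z * (z * k z - m) * dzb φ z‖ ≤ 3 * C2 * (C1 * r * Ek (dzb k) x) := by
    have h1 : ∀ z, ‖b z * (z * k z - m) * dzb φ z‖ ≤
        A.indicator (fun z => 3 * C2 * ‖k z - m / z‖) z := by
      intro z
      by_cases hz : z ∈ ball (0 : ℂ) (9 * r)
      · rw [f5 z hz, mul_zero, norm_zero]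
        exact indicator_nonneg (fun _ _ => by positivity) _
      by_cases hz' : z ∈ closedBall (0 : ℂ) (12 * r)
      swap
      · rw [f6 z hz', mul_zero, norm_zero]
        exact indicator_nonneg (fun _ _ => by positivity) _
      rw [mem_ball_zero_iff, not_lt] at hz
      rw [mem_closedBall_zero_iff] at hz'
      have hzA : z ∈ A := by
        rw [hA]
        exact ⟨by linarith, hz'⟩
      have hz0 : z ≠ 0 := norm_pos_iff.1 (lt_of_lt_of_le h9 hz)
      rw [indicator_of_mem hzA, norm_mul, norm_mul]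
      have h2 : z * k z - m = z * (k z - m / z) := by
        field_simp
      rw [h2, norm_mul]
      have h3 : ‖dzb φ z‖ ≤ C2 * (4 / 21) / r := by
        refine (f7 z).trans (le_of_eq ?_)
        field_simp
        ring
      have h4 : ‖b z‖ ≤ 1 := hb.le z
      calc ‖b z‖ * (‖z‖ * ‖k z - m / z‖) * ‖dzb φ z‖
          ≤ 1 * (12 * r * ‖k z - m / z‖) * (C2 * (4 / 21) / r) := by
            gcongr
        _ = 16 / 7 * C2 * ‖k z - m / z‖ := by
            field_simp
            ring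
        _ ≤ 3 * C2 * ‖k z - m / z‖ := by
            gcongr
            norm_num
    refine (norm_integral_le_of_norm_le ((integrable_indicator_iff hAcl.measurableSet).2 iA)
      (Eventually.of_forall h1)).trans ?_
    rw [integral_indicator hAcl.measurableSet, integral_const_mul]
    exact mul_le_mul_of_nonneg_left hkd' (by positivity)
  have t2 : ‖∫ z, b z * φ z * dzb (fun z => z * k z) z‖ ≤ 144 * (2 * r * Ek (dzb k) x) := by
    have h1 : ∀ z, ‖b z * φ z * dzb (fun z => z * k z) z‖ ≤ 144 * (‖dzb k z‖ * wl r z) := by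
      intro z
      rw [g2]
      have hn : 0 ≤ 144 * (‖dzb k z‖ * wl r z) :=
        mul_nonneg (by norm_num) (mul_nonneg (norm_nonneg _) (wl_nn z))
      by_cases hz' : z ∈ closedBall (0 : ℂ) (12 * r)
      swap
      · have : φ z = 0 := image_eq_zero_of_notMem_tsupport fun h => hz' (f2 h)
        rw [this, mul_zero, zero_mul, norm_zero]
        exact hn
      rw [mem_closedBall_zero_iff] at hz'
      have h2 : ‖z‖ ≤ 144 * wl r z := by
        rcases eq_or_ne z 0 with h | h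
        · rw [h, norm_zero]
          exact mul_nonneg (by norm_num) (wl_nn 0)
        have hzp : 0 < ‖z‖ := norm_pos_iff.2 h
        unfold wl
        rcases min_choice ‖z‖ (r ^ 2 / ‖z‖) with h3 | h3
        · rw [h3]
          linarith
        · rw [h3, ← mul_div_assoc, le_div_iff₀ hzp]
          nlinarith
      rw [norm_mul, norm_mul, norm_mul]
      calc ‖b z‖ * ‖φ z‖ * (‖z‖ * ‖dzb k z‖) ≤ 1 * 1 * (144 * wl r z * ‖dzb k z‖) := by
            have h4 := hb.le z
            have h5 := f3 z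
            gcongr
        _ = 144 * (‖dzb k z‖ * wl r z) := by ring
    refine (norm_integral_le_of_norm_le ((tl_wint hT hr).const_mul 144)
      (Eventually.of_forall h1)).trans ?_
    rw [integral_const_mul]
    linarith
  have t3 : Real.pi * (‖m‖ * ‖c‖) ≤ (3 * C2 * C1 + 288) * (r * Ek (dzb k) x) := by
    have h1 := congrArg norm e4
    rw [norm_mul, norm_mul, Complex.norm_real, Real.norm_of_nonneg Real.pi_pos.le] at h1
    rw [h1]
    refine (norm_add_le _ _).trans ((add_le_add t1 t2).trans (le_of_eq ?_))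
    ring
  have t4 : cap E / 2 * ‖m‖ ≤ ‖c‖ * ‖m‖ := mul_le_mul_of_nonneg_right hcb (norm_nonneg _)
  have t5 : 0 ≤ ‖m‖ * ‖c‖ := by positivity
  rw [div_mul_eq_mul_div, div_le_iff₀ hr]
  nlinarith

end Pool.Agent.Work.MP_2cf110_an.Hyp

end
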