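import Pool.Agent.Work.MP_2cf110_an.Hyp.TaDef

/-! # Sequences

Σ_x Σ_y 2^(-|x-y|) v y ≤ 3 B.  Σ_x 2^(-x) |m x| ≤ 2 B.  Σ_x Σ_y 2^(-|x-y|) Γ y |m x| ≤ Σ_y Γ y Σ_x 2^(-|x-y|) (|m y| + Σ_{i between} v i) ≤ 3 Σ_y Γ y |m y| + C Σ_i v i Σ_{x ≤ i < y or y ≤ i < x} 2^(-|x-y|)
≤ 3 C Σ Ek + C' B. -/

open MeasureTheory Complex Set Metric Filter
open scoped Topology ContDiff ComplexConjugate

noncomputable section

namespace Pool.Agent.Work.MP_2cf110_an.Hyp

open QC (dz dzb Test Cau)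

private theorem ts_sum1 (y : ℕ) : ∀ N, N ≤ y →
    ∑ x ∈ Finset.range N, (1 / 2 : ℝ) ^ dd x y ≤ (1 / 2) ^ (y - N) := by
  intro N
  induction N with
  | zero => intro _; simp
  | succ N ih =>
    intro hN
    rw [Finset.sum_range_succ]
    have h1 := ih (by omega)
    have h2 : dd N y = y - N := by unfold dd; omega
    have h3 : y - N = (y - (N + 1)) + 1 := by omega
    rw [h2]
    rw [h3] at h1 ⊢
    rw [pow_succ] at h1 ⊢
    linarith

private theorem ts_sum2 (y : ℕ) : ∀ k,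
    ∑ x ∈ Finset.range (y + 1 + k), (1 / 2 : ℝ) ^ dd x y ≤ 3 - (1 / 2) ^ k := by
  intro k
  induction k with
  | zero =>
    rw [add_zero, Finset.sum_range_succ]
    have h1 := ts_sum1 y y le_rfl
    have h2 : dd y y = 0 := by unfold dd; omega
    rw [h2]
    rw [Nat.sub_self, pow_zero] at h1
    norm_num
    linarith
  | succ k ih =>
    rw [← add_assoc, Finset.sum_range_succ]
    have h2 : dd (y + 1 + k) y = k + 1 := by unfold dd; omega
    rw [h2, pow_succ]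
    linarith

private theorem ts_sum (y : ℕ) (s : Finset ℕ) : ∑ x ∈ s, (1 / 2 : ℝ) ^ dd x y ≤ 3 := by
  obtain ⟨k, hk⟩ : ∃ k, s ⊆ Finset.range (y + 1 + k) := by
    refine ⟨s.sup id, fun x hx => ?_⟩
    have := Finset.le_sup (f := id) hx
    simp only [id] at this
    rw [Finset.mem_range]
    omega
  have h1 : ∑ x ∈ s, (1 / 2 : ℝ) ^ dd x y ≤ ∑ x ∈ Finset.range (y + 1 + k), (1 / 2 : ℝ) ^ dd x y :=
    Finset.sum_le_sum_of_subset_of_nonneg hk (fun _ _ _ => by positivity)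
  have h2 := ts_sum2 y k
  have h3 : (0 : ℝ) ≤ (1 / 2) ^ k := by positivity
  linarith

private theorem ts_symm (x y : ℕ) : dd x y = dd y x := by
  unfold dd; omega

private theorem ts_le_one (x y : ℕ) : (1 / 2 : ℝ) ^ dd x y ≤ 1 :=
  pow_le_one₀ (by norm_num) (by norm_num)

private theorem ts_summ {u : ℕ → ℝ} (hu : ∀ y, 0 ≤ u y) (hs : Summable u) (x : ℕ) :
    Summable fun y => (1 / 2 : ℝ) ^ dd x y * u y :=
  Summable.of_nonneg_of_le (fun y => mul_nonneg (by positivity) (hu y))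
    (fun y => mul_le_of_le_one_left (hu y) (ts_le_one x y)) hs

private theorem ts_summK (x : ℕ) : Summable fun y => (1 / 2 : ℝ) ^ dd x y := by
  refine summable_of_sum_le (c := 3) (fun _ => by positivity) fun t => ?_
  simp only [ts_symm x]
  exact ts_sum x t

private theorem ts_E {u : ℕ → ℝ} (hu : ∀ y, 0 ≤ u y) (hs : Summable u) (s : Finset ℕ) :
    ∑ x ∈ s, (∑' y, (1 / 2 : ℝ) ^ dd x y * u y) ≤ 3 * ∑' y, u y := by
  rw [← Summable.tsum_finsetSum (fun x _ => ts_summ hu hs x), ← tsum_mul_left]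
  refine Summable.tsum_le_tsum (fun y => ?_) (summable_sum fun x _ => ts_summ hu hs x)
    (hs.mul_left 3)
  rw [← Finset.sum_mul]
  exact mul_le_mul_of_nonneg_right (ts_sum y s) (hu y)

private theorem ts_split {x y i : ℕ} (h : (x ≤ i ∧ i ≤ y) ∨ (y ≤ i ∧ i ≤ x)) :
    dd x y = dd x i + dd i y := by
  unfold dd; omega

/-- the sum of `v` between `x` and `y` -/
private def tsW (v : ℕ → ℝ) (x y : ℕ) : ℝ := ∑ i ∈ Finset.Ico (min x y) (max x y), v i

private theorem ts_W {v : ℕ → ℝ} (hv : ∀ y, 0 ≤ v y) (hs : Summable v) (x : ℕ) (t : Finset ℕ) :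
    ∑ y ∈ t, (1 / 2 : ℝ) ^ dd x y * tsW v x y ≤ 3 * ∑' i, (1 / 2 : ℝ) ^ dd x i * v i := by
  have h1 : ∀ y, Summable fun i => (1 / 2 : ℝ) ^ dd x i * v i * (1 / 2 : ℝ) ^ dd i y := by
    intro y
    refine Summable.of_nonneg_of_le (fun i => mul_nonneg (mul_nonneg (by positivity) (hv i))
      (by positivity)) (fun i => ?_) (ts_summ hv hs x)
    exact mul_le_of_le_one_right (mul_nonneg (by positivity) (hv i)) (ts_le_one i y)
  have h2 : ∀ y, (1 / 2 : ℝ) ^ dd x y * tsW v x y ≤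
      ∑' i, (1 / 2 : ℝ) ^ dd x i * v i * (1 / 2 : ℝ) ^ dd i y := by
    intro y
    have h3 : (1 / 2 : ℝ) ^ dd x y * tsW v x y =
        ∑ i ∈ Finset.Ico (min x y) (max x y),
          (1 / 2 : ℝ) ^ dd x i * v i * (1 / 2 : ℝ) ^ dd i y := by
      unfold tsW
      rw [Finset.mul_sum]
      refine Finset.sum_congr rfl fun i hi => ?_
      rw [Finset.mem_Ico] at hi
      have h4 : dd x y = dd x i + dd i y := by
        apply ts_split
        omega
      rw [h4, pow_add]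
      ring
    rw [h3]
    exact Summable.sum_le_tsum _ (fun i _ => mul_nonneg (mul_nonneg (by positivity) (hv i))
      (by positivity)) (h1 y)
  refine (Finset.sum_le_sum fun y _ => h2 y).trans ?_
  rw [← Summable.tsum_finsetSum (fun y _ => h1 y), ← tsum_mul_left]
  refine Summable.tsum_le_tsum (fun i => ?_) (summable_sum fun y _ => h1 y)
    ((ts_summ hv hs x).mul_left 3)
  rw [← Finset.mul_sum]
  have h5 : ∑ y ∈ t, (1 / 2 : ℝ) ^ dd i y ≤ 3 := by
    simp only [ts_symm i]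
    exact ts_sum i t
  have h6 : 0 ≤ (1 / 2 : ℝ) ^ dd x i * v i := mul_nonneg (by positivity) (hv i)
  nlinarith

private theorem ts_geo (s : Finset ℕ) : ∑ x ∈ s, (1 / 2 : ℝ) ^ x ≤ 2 := by
  have h := Summable.sum_le_tsum s (fun x _ => by positivity) summable_geometric_two
  rwa [tsum_geometric_two] at h

theorem seqx {C : ℝ} (hC : 0 < C) : ∃ C' : ℝ, 0 < C' ∧ ∀ (G v : ℕ → ℝ) (m : ℕ → ℂ) (B : ℝ),
    (∀ x, 0 ≤ G x) → (∀ x, G x ≤ C) → (∀ x, 0 ≤ v x) → Summable v → ∑' x, v x ≤ B →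
    (∀ x, ‖m x‖ ≤ B) → (∀ x y, x ≤ y → ‖m x - m y‖ ≤ ∑ i ∈ Finset.Ico x y, v i) →
    (∀ x, G x * ‖m x‖ ≤ C * ∑' y, (1 / 2 : ℝ) ^ dd x y * v y) → ∀ s : Finset ℕ,
    ∑ x ∈ s, (∑' y, (1 / 2 : ℝ) ^ dd x y * v y) ≤ C' * B ∧
    ∑ x ∈ s, ((1 / 2) ^ x + ∑' y, (1 / 2 : ℝ) ^ dd x y * G y) * ‖m x‖ ≤ C' * B := by
  refine ⟨3 + 18 * C, by positivity, ?_⟩
  intro G v m B hG0 hGC hv hs hvB hmB hmm hGm s
  have hB : 0 ≤ B := (norm_nonneg _).trans (hmB 0)
  have hE : ∀ t : Finset ℕ, ∑ x ∈ t, (∑' y, (1 / 2 : ℝ) ^ dd x y * v y) ≤ 3 * B := by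
    intro t
    have := ts_E hv hs t
    linarith
  refine ⟨?_, ?_⟩
  · have h1 := hE s
    have h2 : 0 ≤ 18 * C * B := by positivity
    nlinarith
  -- the sequence `e`
  obtain ⟨e, he⟩ : ∃ e : ℕ → ℝ, e = fun x => ∑' y, (1 / 2 : ℝ) ^ dd x y * v y := ⟨_, rfl⟩
  have he0 : ∀ x, 0 ≤ e x := fun x => by
    rw [he]
    exact tsum_nonneg fun y => mul_nonneg (by positivity) (hv y)
  have hes : Summable e := summable_of_sum_le he0 fun t => by rw [he]; exact hE t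
  have heB : ∑' x, e x ≤ 3 * B := hes.tsum_le_of_sum_le fun t => by rw [he]; exact hE t
  -- the sequence `a`
  obtain ⟨a, ha⟩ : ∃ a : ℕ → ℝ, a = fun x => G x * ‖m x‖ := ⟨_, rfl⟩
  have ha0 : ∀ x, 0 ≤ a x := fun x => by
    rw [ha]
    exact mul_nonneg (hG0 x) (norm_nonneg _)
  have hae : ∀ x, a x ≤ C * e x := fun x => by
    rw [ha, he]
    exact hGm x
  have has : Summable a := Summable.of_nonneg_of_le ha0 hae (hes.mul_left C)
  have haB : ∑' x, a x ≤ C * (3 * B) := by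
    have h1 : ∑' x, a x ≤ ∑' x, C * e x := Summable.tsum_le_tsum hae has (hes.mul_left C)
    rw [tsum_mul_left] at h1
    have h2 : C * ∑' x, e x ≤ C * (3 * B) := mul_le_mul_of_nonneg_left heB hC.le
    linarith
  -- the estimate for one `x`
  have hmxy : ∀ x y, ‖m x‖ ≤ ‖m y‖ + tsW v x y := by
    intro x y
    have h1 : ‖m x - m y‖ ≤ tsW v x y := by
      unfold tsW
      rcases le_total x y with h | h
      · rw [min_eq_left h, max_eq_right h]
        exact hmm x y h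
      · rw [min_eq_right h, max_eq_left h, norm_sub_rev]
        exact hmm y x h
    have h2 := norm_sub_norm_le (m x) (m y)
    linarith
  have hone : ∀ x, (∑' y, (1 / 2 : ℝ) ^ dd x y * G y) * ‖m x‖ ≤
      (∑' y, (1 / 2 : ℝ) ^ dd x y * a y) + 3 * C * e x := by
    intro x
    rw [← tsum_mul_right]
    have hsG : Summable fun y => (1 / 2 : ℝ) ^ dd x y * G y :=
      Summable.of_nonneg_of_le (fun y => mul_nonneg (by positivity) (hG0 y))
        (fun y => mul_le_mul_of_nonneg_left (hGC y) (by positivity)) ((ts_summK x).mul_right C)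
    refine (hsG.mul_right ‖m x‖).tsum_le_of_sum_le fun t => ?_
    have h1 : ∀ y ∈ t, (1 / 2 : ℝ) ^ dd x y * G y * ‖m x‖ ≤
        (1 / 2 : ℝ) ^ dd x y * a y + C * ((1 / 2 : ℝ) ^ dd x y * tsW v x y) := by
      intro y _
      have hW : 0 ≤ tsW v x y := Finset.sum_nonneg fun i _ => hv i
      have h2 : G y * ‖m x‖ ≤ a y + C * tsW v x y := by
        have h3 : G y * ‖m x‖ ≤ G y * (‖m y‖ + tsW v x y) :=
          mul_le_mul_of_nonneg_left (hmxy x y) (hG0 y)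
        have h4 : G y * tsW v x y ≤ C * tsW v x y := mul_le_mul_of_nonneg_right (hGC y) hW
        rw [ha]
        simp only
        linarith
      have h5 : (1 / 2 : ℝ) ^ dd x y * (G y * ‖m x‖) ≤ (1 / 2 : ℝ) ^ dd x y * (a y + C * tsW v x y) :=
        mul_le_mul_of_nonneg_left h2 (by positivity)
      linarith
    refine (Finset.sum_le_sum h1).trans ?_
    rw [Finset.sum_add_distrib, ← Finset.mul_sum]
    have h6 : ∑ y ∈ t, (1 / 2 : ℝ) ^ dd x y * a y ≤ ∑' y, (1 / 2 : ℝ) ^ dd x y * a y :=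
      Summable.sum_le_tsum t (fun y _ => mul_nonneg (by positivity) (ha0 y)) (ts_summ ha0 has x)
    have h7 := ts_W hv hs x t
    have h8 : e x = ∑' i, (1 / 2 : ℝ) ^ dd x i * v i := by rw [he]
    rw [← h8] at h7
    have h9 := mul_le_mul_of_nonneg_left h7 hC.le
    linarith
  have hsum : ∑ x ∈ s, ((1 / 2) ^ x + ∑' y, (1 / 2 : ℝ) ^ dd x y * G y) * ‖m x‖ ≤
      ∑ x ∈ s, ((1 / 2 : ℝ) ^ x * B + ((∑' y, (1 / 2 : ℝ) ^ dd x y * a y) + 3 * C * e x)) := by
    refine Finset.sum_le_sum fun x _ => ?_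
    have h1 := hone x
    have h2 : (1 / 2 : ℝ) ^ x * ‖m x‖ ≤ (1 / 2 : ℝ) ^ x * B :=
      mul_le_mul_of_nonneg_left (hmB x) (by positivity)
    rw [add_mul]
    linarith
  refine hsum.trans ?_
  rw [Finset.sum_add_distrib, Finset.sum_add_distrib, ← Finset.sum_mul, ← Finset.mul_sum]
  have h1 : (∑ x ∈ s, (1 / 2 : ℝ) ^ x) * B ≤ 2 * B := mul_le_mul_of_nonneg_right (ts_geo s) hB
  have h2 := ts_E ha0 has s
  have h3 : ∑ x ∈ s, e x ≤ 3 * B := by rw [he]; exact hE s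
  have h4 : 3 * C * ∑ x ∈ s, e x ≤ 3 * C * (3 * B) :=
    mul_le_mul_of_nonneg_left h3 (by positivity)
  nlinarith

end Pool.Agent.Work.MP_2cf110_an.Hyp

end
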