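import Pool.Agent.Work.MP_2cf110_an.Hyp.TaEst
import Pool.Agent.Work.MP_2cf110_an.Hyp.TaForm
import Pool.Agent.Work.MP_2cf110_an.Hyp.TaL
import Pool.Agent.Work.MP_2cf110_an.Hyp.TaSeq

/-! # The estimate ∫ ω k at the origin

k has compact support in V, away from 0: only the scales x in a finite set s matter, ∫_V ω k = Σ_{x in s} ∫_V tau x Ag x k (GH_facts).  For each x: ∫_V tau Ag k = ∫_V tau Ag (k - m/z) + m ∫_V Ag (tau/z);
first ≤ (C/rad x) ∫_{rad x/2 ≤ |z| ≤ rad x} |k - m/z| ≤ C Ek (kdec); second: estx with w = tau x/z, |w| ≤ C/rad x².  Sum: seqx with Lx, mx_facts, Gx_facts. -/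

open MeasureTheory Complex Set Metric Filter
open scoped Topology ContDiff ComplexConjugate

noncomputable section

namespace Pool.Agent.Work.MP_2cf110_an.Hyp

open QC (dz dzb Test Cau)

private theorem rad_pos' (x : ℕ) : 0 < rad x := by
  unfold rad
  positivity

private theorem rad_anti' {x y : ℕ} (h : x ≤ y) : rad y ≤ rad x := by
  unfold rad
  exact pow_le_pow_of_le_one (by norm_num) (by norm_num) h

private theorem rad_succ' (x : ℕ) : rad (x + 1) = rad x / 2 := by
  unfold rad
  rw [pow_succ]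
  ring

/-- the open annulus on which both improved solutions are analytic -/
private def Ox (x : ℕ) : Set ℂ := {z | rad x / 4 < ‖z‖ ∧ ‖z‖ < 2 * rad x}

private theorem isOpen_Ox (x : ℕ) : IsOpen (Ox x) :=
  (isOpen_lt continuous_const continuous_norm).inter (isOpen_lt continuous_norm continuous_const)

private theorem ag_cont {n : ℕ} {c C : ℝ} {V : Set ℂ} {f : Fin n → ℂ → ℂ} {g : ℕ → Fin n → ℂ → ℂ}
    (h : ∀ x, BA C (V ∩ {z | rad x / 4 < ‖z‖ ∧ ‖z‖ < 4 * rad x}) (gt c V f g x)) (x : ℕ)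
    (p l : Fin n) : ContinuousOn (Ag c V f g x p l) (V ∩ Ox x) ∧
      ∀ z ∈ V ∩ Ox x, ‖Ag c V f g x p l z‖ ≤ 2 * C ^ 2 := by
  have s1 : V ∩ Ox x ⊆ V ∩ {z | rad x / 4 < ‖z‖ ∧ ‖z‖ < 4 * rad x} := by
    rintro z ⟨hz, h1, h2⟩
    have := rad_pos' x
    exact ⟨hz, h1, by linarith⟩
  have s2 : V ∩ Ox x ⊆ V ∩ {z | rad (x + 1) / 4 < ‖z‖ ∧ ‖z‖ < 4 * rad (x + 1)} := by
    rintro z ⟨hz, h1, h2⟩
    have := rad_pos' x
    refine ⟨hz, ?_, ?_⟩
    · rw [rad_succ']
      linarith
    · rw [rad_succ']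
      linarith
  have c1 : ∀ j, ContinuousOn (gt c V f g x j) (V ∩ Ox x) := fun j =>
    ((h x j).1.continuousOn).mono s1
  have c2 : ∀ j, ContinuousOn (gt c V f g (x + 1) j) (V ∩ Ox x) := fun j =>
    ((h (x + 1) j).1.continuousOn).mono s2
  refine ⟨((c1 p).mul (c2 l)).sub ((c1 l).mul (c2 p)), fun z hz => ?_⟩
  have b1 : ∀ j, ‖gt c V f g x j z‖ ≤ C := fun j => (h x j).2 z (s1 hz)
  have b2 : ∀ j, ‖gt c V f g (x + 1) j z‖ ≤ C := fun j => (h (x + 1) j).2 z (s2 hz)
  have hC : 0 ≤ C := (norm_nonneg _).trans (b1 p)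
  unfold Ag
  calc ‖gt c V f g x p z * gt c V f g (x + 1) l z - gt c V f g x l z * gt c V f g (x + 1) p z‖
      ≤ ‖gt c V f g x p z * gt c V f g (x + 1) l z‖ + ‖gt c V f g x l z * gt c V f g (x + 1) p z‖ :=
        norm_sub_le _ _
    _ ≤ C * C + C * C := by
        rw [norm_mul, norm_mul]
        exact add_le_add (mul_le_mul (b1 p) (b2 l) (norm_nonneg _) hC)
          (mul_le_mul (b1 l) (b2 p) (norm_nonneg _) hC)
    _ = 2 * C ^ 2 := by ring

private theorem ag_int {V O : Set ℂ} (hV : IsOpen V) (hO : IsOpen O) {A u : ℂ → ℂ} {M : ℝ}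
    (hA : ContinuousOn A (V ∩ O)) (hM : ∀ z ∈ V ∩ O, ‖A z‖ ≤ M) (hu : Continuous u)
    (hc : HasCompactSupport u) (hs : ∀ z, u z ≠ 0 → z ∈ O) :
    IntegrableOn (fun z => A z * u z) V := by
  have hm : MeasurableSet (V ∩ O) := (hV.inter hO).measurableSet
  have h1 : Integrable (fun z => (V ∩ O).indicator A z * u z) := by
    refine (hu.integrable_of_hasCompactSupport hc).bdd_mul (c := max M 0) ?_ ?_
    · exact (aestronglyMeasurable_indicator_iff hm).2 (hA.aestronglyMeasurable hm)
    · refine Eventually.of_forall fun z => ?_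
      by_cases hz : z ∈ V ∩ O
      · rw [indicator_of_mem hz]
        exact (hM z hz).trans (le_max_left _ _)
      · rw [indicator_of_notMem hz, norm_zero]
        exact le_max_right _ _
  refine (h1.integrableOn (s := V)).congr_fun (fun z hz => ?_) hV.measurableSet
  by_cases hu0 : u z = 0
  · simp only [hu0, mul_zero]
  · have hzm : z ∈ V ∩ O := ⟨hz, hs z hu0⟩
    simp only
    rw [indicator_of_mem hzm]

private theorem w_facts {x : ℕ} {C : ℝ} (hC : 0 < C) (h1 : Test univ (tau x))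
    (h2 : tsupport (tau x) ⊆ {z | rad x / 2 ≤ ‖z‖ ∧ ‖z‖ ≤ rad x}) (h3 : ∀ z, ‖tau x z‖ ≤ C / rad x) :
    Test univ (fun z => tau x z / z) ∧
    tsupport (fun z => tau x z / z) ⊆ {z | rad x / 2 ≤ ‖z‖ ∧ ‖z‖ ≤ rad x} ∧
    ∀ z, ‖tau x z / z‖ ≤ 2 * C / rad x ^ 2 := by
  have hr := rad_pos' x
  have h0 : (0 : ℂ) ∉ tsupport (tau x) := by
    intro h
    have := (h2 h).1
    rw [norm_zero] at this
    linarith
  have hsub : tsupport (fun z => tau x z / z) ⊆ tsupport (tau x) := by
    refine closure_mono fun z hz => ?_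
    rw [Function.mem_support] at hz ⊢
    intro h
    exact hz (by rw [h, zero_div])
  refine ⟨⟨?_, ?_, subset_univ _⟩, hsub.trans h2, fun z => ?_⟩
  · rw [contDiff_iff_contDiffAt]
    intro z
    by_cases hz : z = 0
    · have hev : (fun z => tau x z / z) =ᶠ[𝓝 z] fun _ => (0 : ℂ) := by
        rw [hz]
        filter_upwards [(isClosed_tsupport (tau x)).isOpen_compl.mem_nhds h0] with w hw
        rw [image_eq_zero_of_notMem_tsupport hw, zero_div]
      exact contDiffAt_const.congr_of_eventuallyEq hev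
    · have h4 : (fun z => tau x z / z) = fun z => tau x z * (id z)⁻¹ := by
        funext z
        rw [div_eq_mul_inv, id_eq]
      rw [h4]
      exact h1.smooth.contDiffAt.mul (contDiffAt_id.inv hz)
  · exact h1.cpt.of_isClosed_subset (isClosed_tsupport _) hsub
  · by_cases hz : z ∈ tsupport (tau x)
    · have h4 := (h2 hz).1
      rw [norm_div]
      have h5 := h3 z
      have h6 : 0 < ‖z‖ := by linarith
      rw [div_le_div_iff₀ h6 (by positivity)]
      have h7 : ‖tau x z‖ * rad x ≤ C := by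
        rwa [le_div_iff₀ hr] at h5
      calc ‖tau x z‖ * rad x ^ 2 = (‖tau x z‖ * rad x) * rad x := by ring
        _ ≤ C * (2 * ‖z‖) := mul_le_mul h7 (by linarith) hr.le hC.le
        _ = 2 * C * ‖z‖ := by ring
    · rw [image_eq_zero_of_notMem_tsupport hz, zero_div, norm_zero]
      positivity

private theorem first_part {V : Set ℂ} (hV : IsOpen V) {x : ℕ} {A k : ℂ → ℂ} {m : ℂ} {M C : ℝ}
    (hM : 0 ≤ M) (hC : 0 < C)
    (hA : ContinuousOn A (V ∩ Ox x)) (hAM : ∀ z ∈ V ∩ Ox x, ‖A z‖ ≤ M)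
    (hk : Continuous k) (h1 : Test univ (tau x))
    (h2 : tsupport (tau x) ⊆ {z | rad x / 2 ≤ ‖z‖ ∧ ‖z‖ ≤ rad x}) (h3 : ∀ z, ‖tau x z‖ ≤ C / rad x) :
    ‖∫ z in V, A z * (tau x z * k z - m * (tau x z / z))‖ ≤
      M * (C / rad x) * ∫ z in {z : ℂ | rad x / 2 ≤ ‖z‖ ∧ ‖z‖ ≤ 12 * rad x}, ‖k z - m / z‖ := by
  have hr := rad_pos' x
  obtain ⟨w1, w2, w3⟩ := w_facts hC h1 h2 h3
  have hOx : ∀ z, tau x z ≠ 0 → z ∈ Ox x := by
    intro z hz
    have := h2 (subset_tsupport _ hz)
    exact ⟨by linarith [this.1], by linarith [this.2]⟩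
  have hfac : ∀ z, tau x z * k z - m * (tau x z / z) = tau x z * (k z - m / z) := by
    intro z
    ring
  have hint : IntegrableOn (fun z => A z * (tau x z * k z - m * (tau x z / z))) V := by
    refine ag_int hV (isOpen_Ox x) hA hAM ((h1.smooth.continuous.mul hk).sub
      (continuous_const.mul w1.smooth.continuous)) ?_ ?_
    · have hh : HasCompactSupport fun z => tau x z * (k z - m / z) := h1.cpt.mul_right
      have he : (fun z => tau x z * k z - m * (tau x z / z)) = fun z => tau x z * (k z - m / z) :=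
        funext hfac
      rw [← he] at hh
      exact hh
    · intro z hz
      refine hOx z fun h => hz ?_
      rw [hfac, h, zero_mul]
  set B : Set ℂ := {z : ℂ | rad x / 2 ≤ ‖z‖ ∧ ‖z‖ ≤ 12 * rad x} with hB
  have hBc : IsCompact B := by
    refine (isCompact_closedBall (0 : ℂ) (12 * rad x)).of_isClosed_subset ?_ ?_
    · exact (isClosed_le continuous_const continuous_norm).inter
        (isClosed_le continuous_norm continuous_const)
    · intro z hz
      rw [mem_closedBall, dist_zero_right]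
      exact hz.2
  have hBint : IntegrableOn (fun z => ‖k z - m / z‖) B := by
    refine ContinuousOn.integrableOn_compact hBc ?_
    refine (hk.continuousOn.sub (continuousOn_const.div continuousOn_id ?_)).norm
    intro z hz h
    have := hz.1
    rw [id_eq] at h
    rw [h, norm_zero] at this
    linarith
  calc ‖∫ z in V, A z * (tau x z * k z - m * (tau x z / z))‖
      ≤ ∫ z in V, ‖A z * (tau x z * k z - m * (tau x z / z))‖ := norm_integral_le_integral_norm _
    _ = ∫ z, V.indicator (fun z => ‖A z * (tau x z * k z - m * (tau x z / z))‖) z :=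
        (integral_indicator hV.measurableSet).symm
    _ ≤ ∫ z, B.indicator (fun z => M * (C / rad x) * ‖k z - m / z‖) z := by
        refine integral_mono ?_ ?_ ?_
        · exact (integrable_indicator_iff hV.measurableSet).2 hint.norm
        · exact (integrable_indicator_iff hBc.measurableSet).2 (hBint.const_mul _)
        · intro z
          simp only
          by_cases hzV : z ∈ V
          · rw [indicator_of_mem hzV]
            by_cases ht : tau x z = 0
            · rw [hfac, ht, zero_mul, mul_zero, norm_zero]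
              exact indicator_nonneg (fun z _ => by positivity) z
            · have hz1 := h2 (subset_tsupport _ ht)
              have hzB : z ∈ B := ⟨hz1.1, by linarith [hz1.2]⟩
              rw [indicator_of_mem hzB, hfac, norm_mul, norm_mul]
              have e1 := hAM z ⟨hzV, hOx z ht⟩
              have e2 := h3 z
              calc ‖A z‖ * (‖tau x z‖ * ‖k z - m / z‖) = (‖A z‖ * ‖tau x z‖) * ‖k z - m / z‖ := by ring
                _ ≤ (M * (C / rad x)) * ‖k z - m / z‖ :=
                    mul_le_mul_of_nonneg_right (mul_le_mul e1 e2 (norm_nonneg _) hM) (norm_nonneg _)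
          · rw [indicator_of_notMem hzV]
            exact indicator_nonneg (fun z _ => by positivity) z
    _ = M * (C / rad x) * ∫ z in B, ‖k z - m / z‖ := by
        rw [integral_indicator hBc.measurableSet, integral_const_mul]

theorem asmx {n : ℕ} {K : ℝ} (hK : 1 ≤ K) : ∃ c C : ℝ, 0 < c ∧ 0 < C ∧
    ∀ (V : Set ℂ) (f : Fin n → ℂ → ℂ) (g : ℕ → Fin n → ℂ → ℂ), TD K V f g → ∀ p l k, Test V k →
    ‖∫ z in V, (GH c V f g p z * dzb (GH c V f g l) z - GH c V f g l z * dzb (GH c V f g p) z) * k z‖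
      ≤ C * ∫ z, ‖dzb k z‖ := by
  obtain ⟨c, κ, hc, hκ, hlow⟩ := cx_low (n := n) hK
  obtain ⟨Cg, hCg, hgt⟩ := gt_facts (n := n) hK hc
  obtain ⟨Ct, hCt, htau⟩ := tau_facts
  obtain ⟨CH, hCH, hGH⟩ := GH_facts (n := n) hK hc
  obtain ⟨Ce, hCe, hest⟩ := estx (n := n) hK hc hκ
  obtain ⟨CL, hCL, hL⟩ := Lx
  obtain ⟨Ck, hCk, hkd⟩ := kdec
  obtain ⟨CG, hCG, hGx⟩ := Gx_facts
  obtain ⟨C', hC', hseq⟩ := seqx (C := max CL CG) (lt_max_of_lt_left hCL)
  refine ⟨c, (2 * Cg ^ 2 * Ct * Ck + 2 * Ce * Ct) * C', hc, by positivity,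
    fun V f g hT p l k hk => ?_⟩
  have hk' : Test (ball 0 1 \ {0}) k := ⟨hk.smooth, hk.cpt, hk.sub.trans hT.V_sub⟩
  have hV := hT.V_open
  have h0 : (0 : ℂ) ∉ tsupport k := fun h => (hk'.sub h).2 rfl
  obtain ⟨ε, hε, hball⟩ := Metric.isOpen_iff.1 (isClosed_tsupport k).isOpen_compl 0 h0
  have hfar : ∀ z ∈ tsupport k, ε ≤ ‖z‖ := by
    intro z hz
    by_contra h
    push Not at h
    exact hball (by rwa [mem_ball, dist_zero_right]) hz
  obtain ⟨X0, hX0⟩ : ∃ X0 : ℕ, rad X0 < ε := by
    unfold rad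
    exact exists_pow_lt_of_lt_one hε (by norm_num)
  -- the form as a finite sum
  have hform : ∀ z ∈ V, (GH c V f g p z * dzb (GH c V f g l) z -
      GH c V f g l z * dzb (GH c V f g p) z) * k z =
      ∑ x ∈ Finset.range X0, Ag c V f g x p l z * (tau x z * k z) := by
    intro z hz
    rw [(hGH V f g hT).2.2.2 p l z hz]
    by_cases hkz : k z = 0
    · simp only [hkz, mul_zero, Finset.sum_const_zero]
    · have hz1 : ε ≤ ‖z‖ := hfar z (subset_tsupport _ hkz)
      rw [finsum_eq_sum_of_support_subset (s := Finset.range X0), Finset.sum_mul]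
      · exact Finset.sum_congr rfl fun x _ => by ring
      · intro x hx
        rw [Function.mem_support] at hx
        have ht : tau x z ≠ 0 := fun h => hx (by rw [h, zero_mul])
        have h1 := ((htau x).2.1 (subset_tsupport _ ht)).2
        rw [Finset.coe_range, mem_Iio]
        by_contra h
        push Not at h
        have := rad_anti' h
        linarith
  have hagc := fun x => ag_cont (fun x => (hgt V f g hT x).1) x p l
  have hOx : ∀ x z, tau x z ≠ 0 → z ∈ Ox x := by
    intro x z hz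
    have := (htau x).2.1 (subset_tsupport _ hz)
    have hr := rad_pos' x
    exact ⟨by linarith [this.1], by linarith [this.2]⟩
  have hkc : Continuous k := hk.smooth.continuous
  have hi1 : ∀ x, IntegrableOn (fun z => Ag c V f g x p l z * (tau x z * k z)) V := by
    intro x
    refine ag_int hV (isOpen_Ox x) (hagc x).1 (hagc x).2
      ((htau x).1.smooth.continuous.mul hkc) ?_ ?_
    · exact (htau x).1.cpt.mul_right
    · intro z hz
      exact hOx x z fun h => hz (by rw [h, zero_mul])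
  set m : ℕ → ℂ := mx (dzb k) with hm
  have hi2 : ∀ x, IntegrableOn (fun z => Ag c V f g x p l z * (tau x z / z)) V := by
    intro x
    obtain ⟨w1, w2, w3⟩ := w_facts hCt (htau x).1 (htau x).2.1 (htau x).2.2
    refine ag_int hV (isOpen_Ox x) (hagc x).1 (hagc x).2 w1.smooth.continuous w1.cpt ?_
    intro z hz
    exact hOx x z fun h => hz (by simp only [h, zero_div])
  have hone : ∀ x, ‖∫ z in V, Ag c V f g x p l z * (tau x z * k z)‖ ≤
      2 * Cg ^ 2 * Ct * Ck * Ek (dzb k) x + 2 * Ce * Ct * (err V x * ‖m x‖) := by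
    intro x
    have hr := rad_pos' x
    obtain ⟨w1, w2, w3⟩ := w_facts hCt (htau x).1 (htau x).2.1 (htau x).2.2
    have hi3 : IntegrableOn (fun z => Ag c V f g x p l z *
        (tau x z * k z - m x * (tau x z / z))) V := by
      have := (hi1 x).sub ((hi2 x).const_mul (m x))
      refine this.congr_fun (fun z _ => ?_) hV.measurableSet
      show Ag c V f g x p l z * (tau x z * k z) - m x * (Ag c V f g x p l z * (tau x z / z)) = _
      ring
    have hsplit : ∫ z in V, Ag c V f g x p l z * (tau x z * k z) =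
        (∫ z in V, Ag c V f g x p l z * (tau x z * k z - m x * (tau x z / z))) +
          m x * ∫ z in V, Ag c V f g x p l z * (tau x z / z) := by
      rw [← integral_const_mul, ← integral_add hi3 ((hi2 x).const_mul (m x))]
      refine setIntegral_congr_fun hV.measurableSet fun z _ => ?_
      ring
    have p1 := first_part hV (m := m x) (by positivity : (0 : ℝ) ≤ 2 * Cg ^ 2) hCt (hagc x).1
      (hagc x).2 hkc (htau x).1 (htau x).2.1 (htau x).2.2
    have p2 := hkd k hk' x
    have p3 := hest V f g hT (hlow V f g hT) x (fun z => tau x z / z) (2 * Ct / rad x ^ 2) p l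
      (by positivity) w1 w2 w3
    have q1 : 2 * Cg ^ 2 * (Ct / rad x) * (Ck * rad x * Ek (dzb k) x) =
        2 * Cg ^ 2 * Ct * Ck * Ek (dzb k) x := by
      field_simp
    have q2 : Ce * (2 * Ct / rad x ^ 2) * rad x ^ 2 * err V x = 2 * Ce * Ct * err V x := by
      field_simp
    rw [q2] at p3
    rw [hsplit]
    refine (norm_add_le _ _).trans (add_le_add ?_ ?_)
    · refine p1.trans ?_
      rw [← q1]
      exact mul_le_mul_of_nonneg_left p2 (by positivity)
    · rw [norm_mul]
      calc ‖m x‖ * ‖∫ z in V, Ag c V f g x p l z * (tau x z / z)‖ ≤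
          ‖m x‖ * (2 * Ce * Ct * err V x) := mul_le_mul_of_nonneg_left p3 (norm_nonneg _)
        _ = 2 * Ce * Ct * (err V x * ‖m x‖) := by ring
  obtain ⟨f1, f2, f3, f4, f5⟩ := mx_facts hk'
  have hEk0 : ∀ x, 0 ≤ Ek (dzb k) x := by
    intro x
    unfold Ek
    exact tsum_nonneg fun y => mul_nonneg (by positivity) (f3 y)
  obtain ⟨s1, s2⟩ := hseq (Gx V) (vx (dzb k)) m (∫ z, ‖dzb k z‖) (fun x => (hGx V x).1)
    (fun x => (hGx V x).2.1.trans (le_max_right _ _)) f3 f1 f2 f4 f5
    (fun x => (hL V k hV hT.V_sub hk x).trans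
      (mul_le_mul_of_nonneg_right (le_max_left _ _) (hEk0 x))) (Finset.range X0)
  have s1' : ∑ x ∈ Finset.range X0, Ek (dzb k) x ≤ C' * ∫ z, ‖dzb k z‖ := s1
  have s2' : ∑ x ∈ Finset.range X0, err V x * ‖m x‖ ≤ C' * ∫ z, ‖dzb k z‖ := s2
  have hsum : ∫ z in V, (GH c V f g p z * dzb (GH c V f g l) z -
      GH c V f g l z * dzb (GH c V f g p) z) * k z =
      ∑ x ∈ Finset.range X0, ∫ z in V, Ag c V f g x p l z * (tau x z * k z) := by
    rw [← integral_finsetSum _ fun x _ => hi1 x]
    exact setIntegral_congr_fun hV.measurableSet fun z hz => hform z hz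
  rw [hsum]
  calc ‖∑ x ∈ Finset.range X0, ∫ z in V, Ag c V f g x p l z * (tau x z * k z)‖
      ≤ ∑ x ∈ Finset.range X0, ‖∫ z in V, Ag c V f g x p l z * (tau x z * k z)‖ :=
        norm_sum_le _ _
    _ ≤ ∑ x ∈ Finset.range X0, (2 * Cg ^ 2 * Ct * Ck * Ek (dzb k) x +
          2 * Ce * Ct * (err V x * ‖m x‖)) := Finset.sum_le_sum fun x _ => hone x
    _ = 2 * Cg ^ 2 * Ct * Ck * ∑ x ∈ Finset.range X0, Ek (dzb k) x +
          2 * Ce * Ct * ∑ x ∈ Finset.range X0, err V x * ‖m x‖ := by
        rw [Finset.sum_add_distrib, Finset.mul_sum, Finset.mul_sum]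
    _ ≤ 2 * Cg ^ 2 * Ct * Ck * (C' * ∫ z, ‖dzb k z‖) + 2 * Ce * Ct * (C' * ∫ z, ‖dzb k z‖) :=
        add_le_add (mul_le_mul_of_nonneg_left s1' (by positivity))
          (mul_le_mul_of_nonneg_left s2' (by positivity))
    _ = (2 * Cg ^ 2 * Ct * Ck + 2 * Ce * Ct) * C' * ∫ z, ‖dzb k z‖ := by ring

end Pool.Agent.Work.MP_2cf110_an.Hyp

end
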