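import Pool.Agent.Work.MP_2cf110_an.Hyp.CutF
import Pool.Agent.Work.MP_217185_an.CauB
import Pool.Agent.Work.MP_217185_an.CauA

/-! # From weak to pointwise estimates

φ = cut z (ρ/16) (ρ/8), A φ is a test function, A z = (A φ) z = Cau (dzb (A φ)) z = (1/π) ∫ A(ζ) dzb φ(ζ)/(z - ζ) (QC.cau_dzb), and w(ζ) = (1/π) dzb φ(ζ)/(z-ζ) is a test function with
support in closedBall z (ρ/8) (it vanishes on ball z (ρ/16)), bounded by C/ρ² (cut_dzb). -/

open MeasureTheory Complex Set Metric Filter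
open scoped Topology ContDiff ComplexConjugate

noncomputable section

namespace Pool.Agent.Work.MP_2cf110_an.Hyp

open QC (dz dzb Test Cau)

private theorem tapt_test {A φ : ℂ → ℂ} {z : ℂ} {ρ : ℝ} (hA : DifferentiableOn ℂ A (ball z ρ))
    (hφ : Test univ φ) (hs : tsupport φ ⊆ ball z ρ) : Test univ (fun u => A u * φ u) := by
  refine ⟨?_, ?_, subset_univ _⟩
  · rw [contDiff_iff_contDiffAt]
    intro u
    by_cases hu : u ∈ ball z ρ
    · have h1 : ContDiffOn ℂ ∞ A (ball z ρ) := hA.contDiffOn isOpen_ball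
      have h2 : ContDiffAt ℝ ∞ A u := (h1.contDiffAt (isOpen_ball.mem_nhds hu)).restrict_scalars ℝ
      exact h2.mul hφ.smooth.contDiffAt
    · have h3 : u ∉ tsupport φ := fun h => hu (hs h)
      have h4 : φ =ᶠ[𝓝 u] 0 := notMem_tsupport_iff_eventuallyEq.1 h3
      have h5 : (fun u => A u * φ u) =ᶠ[𝓝 u] fun _ => (0 : ℂ) := by
        filter_upwards [h4] with v hv
        rw [hv]
        simp
      exact contDiffAt_const.congr_of_eventuallyEq h5
  · exact hφ.cpt.mul_left (f := A)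

private theorem tapt_dzb {A φ : ℂ → ℂ} {z : ℂ} {ρ : ℝ} (hA : DifferentiableOn ℂ A (ball z ρ))
    (hφ : Test univ φ) (hs : tsupport φ ⊆ ball z ρ) (u : ℂ) :
    dzb (fun u => A u * φ u) u = A u * dzb φ u := by
  by_cases hu : u ∈ ball z ρ
  · have h1 : DifferentiableAt ℂ A u := hA.differentiableAt (isOpen_ball.mem_nhds hu)
    have h2 : DifferentiableAt ℝ φ u := (hφ.smooth.differentiable (by simp)) u
    rw [(QC.dz_mul (h1.restrictScalars ℝ) h2).2, (QC.dz_of_holo h1).2, zero_mul, zero_add]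
  · have h3 : u ∉ tsupport φ := fun h => hu (hs h)
    have h4 : φ =ᶠ[𝓝 u] 0 := notMem_tsupport_iff_eventuallyEq.1 h3
    have h5 : (fun u => A u * φ u) =ᶠ[𝓝 u] 0 := by
      filter_upwards [h4] with v hv
      rw [hv]
      simp
    have h6 : dzb (fun u => A u * φ u) u = 0 := by
      unfold QC.dzb
      rw [h5.fderiv_eq]
      simp
    have h7 : dzb φ u = 0 := by
      unfold QC.dzb
      rw [h4.fderiv_eq]
      simp
    rw [h6, h7, mul_zero]

theorem ptw : ∃ C : ℝ, 0 < C ∧ ∀ (A : ℂ → ℂ) (z : ℂ) (ρ ε : ℝ), 0 < ρ → 0 ≤ ε →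
    DifferentiableOn ℂ A (ball z ρ) →
    (∀ (w : ℂ → ℂ) (W : ℝ), Test univ w → tsupport w ⊆ closedBall z (ρ / 8) → (∀ u, ‖w u‖ ≤ W) →
      ‖∫ u, A u * w u‖ ≤ ε * W * ρ ^ 2) → ‖A z‖ ≤ C * ε := by
  obtain ⟨C₀, hC₀, hD⟩ := cut_dzb
  refine ⟨171 * C₀, by linarith, fun A z ρ ε hρ hε hA hint => ?_⟩
  have r1 : (0 : ℝ) < ρ / 16 := by positivity
  have r2 : ρ / 16 < ρ / 8 := by linarith
  obtain ⟨hT, hsup, -, hone, hin, hout⟩ := cut_facts (a := z) r1 r2
  set φ : ℂ → ℂ := cut z (ρ / 16) (ρ / 8) with hφd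
  have hs : tsupport φ ⊆ ball z ρ := hsup.trans (closedBall_subset_ball (by linarith))
  have hG := tapt_test hA hT hs
  set w : ℂ → ℂ := fun ζ => (1 / (Real.pi : ℂ)) * (dzb φ ζ * (z - ζ)⁻¹) with hw
  have hw0 : ∀ ζ, ζ ∉ closedBall z (ρ / 8) → w ζ = 0 := by
    intro ζ hζ
    rw [hw]
    simp only
    rw [hout ζ hζ]
    simp
  have hw1 : ∀ ζ, ζ ∈ ball z (ρ / 16) → w ζ = 0 := by
    intro ζ hζ
    rw [hw]
    simp only
    rw [hin ζ hζ]
    simp
  have hwsup : tsupport w ⊆ closedBall z (ρ / 8) := by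
    refine closure_minimal ?_ isClosed_closedBall
    intro ζ hζ
    by_contra h
    exact hζ (hw0 ζ h)
  have hwT : Test univ w := by
    refine ⟨?_, (isCompact_closedBall z (ρ / 8)).of_isClosed_subset (isClosed_tsupport _) hwsup,
      subset_univ _⟩
    rw [contDiff_iff_contDiffAt]
    intro ζ
    by_cases hζ : ζ ∈ ball z (ρ / 16)
    · have h5 : w =ᶠ[𝓝 ζ] fun _ => (0 : ℂ) := by
        filter_upwards [isOpen_ball.mem_nhds hζ] with v hv
        exact hw1 v hv
      exact contDiffAt_const.congr_of_eventuallyEq h5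
    · have hne : z - ζ ≠ 0 := by
        intro h
        rw [sub_eq_zero] at h
        rw [← h] at hζ
        exact hζ (mem_ball_self r1)
      have h6 : ContDiffAt ℝ ∞ (fun ζ => (z - ζ)⁻¹) ζ :=
        (contDiffAt_const.sub contDiffAt_id).inv hne
      exact contDiffAt_const.mul (hT.dz.2.smooth.contDiffAt.mul h6)
  have hWb : ∀ ζ, ‖w ζ‖ ≤ 171 * C₀ / ρ ^ 2 := by
    intro ζ
    by_cases hζ : ζ ∈ ball z (ρ / 16)
    · rw [hw1 ζ hζ, norm_zero]
      positivity
    · rw [mem_ball, dist_comm, dist_eq, not_lt] at hζ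
      have h7 : ‖dzb φ ζ‖ ≤ C₀ * 32 / (3 * ρ) := by
        refine (hD z (ρ / 16) (ρ / 8) r1 r2 ζ).trans (le_of_eq ?_)
        field_simp
        ring
      have h8 : ‖(z - ζ)⁻¹‖ ≤ 16 / ρ := by
        rw [norm_inv, inv_le_comm₀ (lt_of_lt_of_le r1 hζ) (by positivity)]
        rw [inv_div]
        exact hζ
      have h9 : ‖(1 / (Real.pi : ℂ))‖ ≤ 1 := by
        rw [norm_div, norm_one, norm_real, Real.norm_eq_abs, abs_of_pos Real.pi_pos]
        rw [div_le_one Real.pi_pos]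
        linarith [Real.pi_gt_three]
      calc ‖w ζ‖ = ‖(1 / (Real.pi : ℂ))‖ * (‖dzb φ ζ‖ * ‖(z - ζ)⁻¹‖) := by
            rw [hw]
            simp only
            rw [norm_mul, norm_mul]
        _ ≤ 1 * ((C₀ * 32 / (3 * ρ)) * (16 / ρ)) := by
            refine mul_le_mul h9 ?_ (by positivity) zero_le_one
            exact mul_le_mul h7 h8 (norm_nonneg _) (by positivity)
        _ = (512 / 3) * C₀ / ρ ^ 2 := by
            field_simp
            ring
        _ ≤ 171 * C₀ / ρ ^ 2 := by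
            refine div_le_div_of_nonneg_right ?_ (by positivity)
            nlinarith
  have hAz : A z = ∫ u, A u * w u := by
    have h1 : φ z = 1 := hone z (mem_closedBall_self r1.le)
    have h2 := QC.cau_dzb hG z
    rw [h1, mul_one] at h2
    rw [← h2]
    unfold QC.Cau
    rw [← integral_const_mul]
    refine integral_congr_ae (Eventually.of_forall fun ζ => ?_)
    simp only
    rw [tapt_dzb hA hT hs ζ, hw]
    simp only
    rw [div_eq_mul_inv (A ζ * dzb φ ζ) (z - ζ)]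
    ring
  rw [hAz]
  have h10 := hint w (171 * C₀ / ρ ^ 2) hwT hwsup hWb
  refine h10.trans (le_of_eq ?_)
  field_simp

end Pool.Agent.Work.MP_2cf110_an.Hyp

end
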