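import Pool.Agent.Work.MP_2cf110_an.Hyp.TaP
import Pool.Agent.Work.MP_2cf110_an.Hyp.TaPt
import Pool.Agent.Work.MP_2cf110_an.Hyp.Area

/-! # The Bezout equation for the replacement functions, and consecutive scales

bez: apply ptw at z with ρ = rad x/8 to A = Σ alx f_j alx g_j - 1 (analytic near): ∫ A w = Σ_j ∫ (alx alx - 1_V f_j g_j) w + ∫ (1_V - 1) w, prodx and area_le (the support of w is in
rad x/3 ≤ |z| ≤ 3 rad x; area of it outside V ≤ C rad x cap).
cons: A = alx V x h - alx V (x+1) h, both analytic on rad x/4 < |z| < 2 rad x; singlex for x and x + 1. -/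

open MeasureTheory Complex Set Metric Filter
open scoped Topology ContDiff ComplexConjugate

noncomputable section

namespace Pool.Agent.Work.MP_2cf110_an.Hyp

open QC (dz dzb Test Cau)

private theorem tb_rad (x : ℕ) : 0 < rad x := by
  unfold rad
  positivity

private theorem tb_rad_succ (x : ℕ) : rad (x + 1) = rad x / 2 := by
  unfold rad
  rw [pow_succ]
  ring

private theorem tb_norm {z u : ℂ} {r : ℝ} (h : dist u z ≤ r) : ‖z‖ - r ≤ ‖u‖ ∧ ‖u‖ ≤ ‖z‖ + r := by
  rw [dist_eq] at h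
  have h1 := norm_sub_norm_le z u
  have h2 := norm_sub_norm_le u z
  rw [norm_sub_rev] at h1
  constructor <;> linarith

private theorem tb_isOpen_Ux (x : ℕ) : IsOpen (Ux x) :=
  (isOpen_lt continuous_const continuous_norm).inter (isOpen_lt continuous_norm continuous_const)

private theorem tb_int {V : Set ℂ} {x : ℕ} {N : ℝ} {F w : ℂ → ℂ} (hV : IsOpen V)
    (hF : DifferentiableOn ℂ F (V ∩ Ux x)) (hN : ∀ z ∈ V ∩ Ux x, ‖F z‖ ≤ N) (hw : Test univ w)
    (hs : tsupport w ⊆ Ux x) : Integrable (fun u => V.indicator F u * w u) := by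
  have hO : IsOpen (V ∩ Ux x) := hV.inter (tb_isOpen_Ux x)
  have hwc : Continuous w := hw.smooth.continuous
  have hwi : Integrable w := hwc.integrable_of_hasCompactSupport hw.cpt
  have he : (fun u => V.indicator F u * w u) = (fun u => (V ∩ Ux x).indicator F u * w u) := by
    funext u
    by_cases hu : u ∈ Ux x
    · by_cases hv : u ∈ V
      · have hvu : u ∈ V ∩ Ux x := ⟨hv, hu⟩
        rw [indicator_of_mem hv, indicator_of_mem hvu]
      · rw [indicator_of_notMem hv, indicator_of_notMem (fun h => hv h.1)]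
    · have : w u = 0 := image_eq_zero_of_notMem_tsupport fun h => hu (hs h)
      rw [this, mul_zero, mul_zero]
  rw [he]
  have hm : AEStronglyMeasurable ((V ∩ Ux x).indicator F) volume := by
    rw [aestronglyMeasurable_indicator_iff hO.measurableSet]
    exact hF.continuousOn.aestronglyMeasurable hO.measurableSet
  refine Integrable.bdd_mul (c := max N 0) hwi hm (Eventually.of_forall fun u => ?_)
  by_cases hu : u ∈ V ∩ Ux x
  · rw [indicator_of_mem hu]
    exact (hN u hu).trans (le_max_left _ _)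
  · rw [indicator_of_notMem hu, norm_zero]
    exact le_max_right _ _

/-- the area of the complement of `V` in the support of `w` -/
private theorem tb_area : ∃ C : ℝ, 0 < C ∧ ∀ (V : Set ℂ) (x : ℕ) (W : ℝ) (w : ℂ → ℂ), IsOpen V →
    0 ≤ W → Test univ w → tsupport w ⊆ {z | rad x / 3 ≤ ‖z‖ ∧ ‖z‖ ≤ 3 * rad x} →
    (∀ z, ‖w z‖ ≤ W) → ‖∫ z, (V.indicator (fun _ => (1 : ℂ)) z - 1) * w z‖ ≤
      C * W * rad x ^ 2 * Gx V x := by
  obtain ⟨C, hC, hA⟩ := area_le
  refine ⟨C, hC, fun V x W w hV hW hw hs hWb => ?_⟩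
  have hr := tb_rad x
  have hE : IsCompact (Ex V x) := by
    have h1 : IsCompact {z : ℂ | rad x / 8 ≤ ‖z‖ ∧ ‖z‖ ≤ 8 * rad x} := by
      refine (isCompact_closedBall (0 : ℂ) (8 * rad x)).of_isClosed_subset ?_ ?_
      · exact (isClosed_le continuous_const continuous_norm).inter
          (isClosed_le continuous_norm continuous_const)
      · intro z hz
        rw [mem_closedBall, dist_zero_right]
        exact hz.2
    exact h1.diff hV
  have hEs : Ex V x ⊆ closedBall 0 (12 * rad x) := by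
    intro z hz
    rw [mem_closedBall, dist_zero_right]
    have := hz.1.2
    linarith
  have h2 := hA (Ex V x) 0 (rad x) hr hE hEs
  have h3 : ‖∫ z, (V.indicator (fun _ => (1 : ℂ)) z - 1) * w z‖ ≤ W * volume.real (Ex V x) := by
    have h4 : ∫ z, (V.indicator (fun _ => (1 : ℂ)) z - 1) * w z =
        ∫ z in Ex V x, (V.indicator (fun _ => (1 : ℂ)) z - 1) * w z := by
      rw [setIntegral_eq_integral_of_forall_compl_eq_zero]
      intro z hz
      by_cases hv : z ∈ V
      · rw [indicator_of_mem hv, sub_self, zero_mul]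
      · have h5 : z ∉ tsupport w := by
          intro h6
          have h7 := hs h6
          refine hz ⟨⟨?_, ?_⟩, hv⟩
          · have := h7.1
            linarith
          · have := h7.2
            linarith
        rw [image_eq_zero_of_notMem_tsupport h5, mul_zero]
    rw [h4]
    refine norm_setIntegral_le_of_norm_le_const hE.measure_lt_top (fun z hz => ?_)
    rw [indicator_of_notMem hz.2, zero_sub, norm_mul, norm_neg, norm_one, one_mul]
    exact hWb z
  refine h3.trans ?_
  calc W * volume.real (Ex V x) ≤ W * (C * rad x * cap (Ex V x)) := mul_le_mul_of_nonneg_left h2 hW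
    _ = C * W * rad x ^ 2 * Gx V x := by
      unfold Gx
      field_simp

private theorem tb_supp {x : ℕ} {z : ℂ} (h1 : rad x / 2 ≤ ‖z‖) (h2 : ‖z‖ ≤ 2 * rad x) :
    closedBall z (rad x / 8 / 8) ⊆ {z | rad x / 3 ≤ ‖z‖ ∧ ‖z‖ ≤ 3 * rad x} := by
  intro u hu
  have hr := tb_rad x
  obtain ⟨h3, h4⟩ := tb_norm (mem_closedBall.1 hu)
  constructor <;> linarith

private theorem tb_ball {x : ℕ} {z : ℂ} (h1 : rad x / 2 ≤ ‖z‖) (h2 : ‖z‖ ≤ 2 * rad x) :
    ball z (rad x / 8) ⊆ {z | rad x / 4 < ‖z‖ ∧ ‖z‖ < 4 * rad x} := by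
  intro u hu
  have hr := tb_rad x
  obtain ⟨h3, h4⟩ := tb_norm (mem_ball.1 hu).le
  constructor <;> linarith

private theorem tb_Ux (x : ℕ) : {z | rad x / 3 ≤ ‖z‖ ∧ ‖z‖ ≤ 3 * rad x} ⊆ Ux x := by
  intro u hu
  have hr := tb_rad x
  have h1 := hu.1
  have h2 := hu.2
  constructor <;> linarith

theorem bezx (n : ℕ) : ∃ C : ℝ, 0 < C ∧ ∀ (V : Set ℂ) (x : ℕ) (N₁ N₂ : ℝ) (f g : Fin n → ℂ → ℂ),
    IsOpen V → 0 ≤ N₁ → 0 ≤ N₂ → BA N₁ (V ∩ Ux x) f → BA N₂ (V ∩ Ux x) g →
    (∀ z ∈ V ∩ Ux x, ∑ j, f j z * g j z = 1) → ∀ z : ℂ, rad x / 2 ≤ ‖z‖ → ‖z‖ ≤ 2 * rad x →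
    ‖∑ j, alx V x (f j) z * alx V x (g j) z - 1‖ ≤ C * (1 + N₁ * N₂) * Gx V x := by
  obtain ⟨C₁, hC₁, hptw⟩ := ptw
  obtain ⟨C₂, hC₂, hprod⟩ := prodx
  obtain ⟨C₃, hC₃, harea⟩ := tb_area
  obtain ⟨C₄, hC₄, hfac⟩ := alx_facts
  obtain ⟨C₅, hC₅, hGx⟩ := Gx_facts
  refine ⟨64 * C₁ * (n * C₂ + C₃), by positivity, ?_⟩
  intro V x N₁ N₂ f g hV hN₁ hN₂ hf hg hb z hz1 hz2
  have hr := tb_rad x
  have hG := (hGx V x).1
  have hρ : 0 < rad x / 8 := by positivity
  have hNN : 0 ≤ N₁ * N₂ := mul_nonneg hN₁ hN₂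
  have hfa := fun j => hfac V x N₁ (f j) hV hN₁ (hf j).1 (hf j).2
  have hga := fun j => hfac V x N₂ (g j) hV hN₂ (hg j).1 (hg j).2
  have hAd : DifferentiableOn ℂ (fun u => ∑ j, alx V x (f j) u * alx V x (g j) u - 1)
      (ball z (rad x / 8)) := by
    refine (DifferentiableOn.fun_sum fun j _ => ?_).sub_const 1
    exact (((hfa j).1.mul (hga j).1).mono (tb_ball hz1 hz2))
  have hmain := hptw (fun u => ∑ j, alx V x (f j) u * alx V x (g j) u - 1) z (rad x / 8)
    (64 * (n * C₂ * (N₁ * N₂) + C₃) * Gx V x) hρ (by positivity) hAd ?_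
  · refine hmain.trans ?_
    have e1 : C₁ * (64 * (n * C₂ * (N₁ * N₂) + C₃) * Gx V x) =
        64 * C₁ * (n * C₂ * (N₁ * N₂) + C₃) * Gx V x := by ring
    rw [e1]
    refine mul_le_mul_of_nonneg_right ?_ hG
    rw [mul_assoc (64 * C₁)]
    refine mul_le_mul_of_nonneg_left ?_ (by positivity)
    have e2 : 0 ≤ (n : ℝ) * C₂ := by positivity
    nlinarith [mul_nonneg hC₃.le hNN]
  · intro w W hw hws hW
    have hW0 : 0 ≤ W := (norm_nonneg _).trans (hW 0)
    have hs1 : tsupport w ⊆ {z | rad x / 3 ≤ ‖z‖ ∧ ‖z‖ ≤ 3 * rad x} := hws.trans (tb_supp hz1 hz2)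
    have hsU : tsupport w ⊆ Ux x := hs1.trans (tb_Ux x)
    have hwc : Continuous w := hw.smooth.continuous
    have i1 : ∀ j, Integrable fun u => (V.indicator (fun z => f j z * g j z) u -
        alx V x (f j) u * alx V x (g j) u) * w u := by
      intro j
      have h1 : Integrable fun u => V.indicator (fun z => f j z * g j z) u * w u := by
        refine tb_int (x := x) (N := N₁ * N₂) hV ((hf j).1.mul (hg j).1) (fun u hu => ?_) hw hsU
        rw [norm_mul]
        exact mul_le_mul ((hf j).2 u hu) ((hg j).2 u hu) (norm_nonneg _) hN₁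
      have h2 : Integrable fun u => alx V x (f j) u * alx V x (g j) u * w u :=
        ((((hfa j).2.1).mul (hga j).2.1).mul hwc).integrable_of_hasCompactSupport hw.cpt.mul_left
      refine (h1.sub h2).congr (Eventually.of_forall fun u => ?_)
      simp only [Pi.sub_apply]
      ring
    have i2 : Integrable fun u => (V.indicator (fun _ => (1 : ℂ)) u - 1) * w u := by
      have h1 : Integrable fun u => V.indicator (fun _ => (1 : ℂ)) u * w u := by
        refine tb_int (x := x) (N := 1) hV (differentiableOn_const _) (fun u _ => ?_) hw hsU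
        simp
      have h2 : Integrable w := hwc.integrable_of_hasCompactSupport hw.cpt
      refine (h1.sub h2).congr (Eventually.of_forall fun u => ?_)
      simp only [Pi.sub_apply]
      ring
    have hid : ∫ u, (∑ j, alx V x (f j) u * alx V x (g j) u - 1) * w u =
        (∫ u, (V.indicator (fun _ => (1 : ℂ)) u - 1) * w u) -
          ∑ j, ∫ u, (V.indicator (fun z => f j z * g j z) u -
            alx V x (f j) u * alx V x (g j) u) * w u := by
      rw [← integral_finsetSum _ (fun j _ => i1 j), ← integral_sub i2 (integrable_finsetSum _ fun j _ => i1 j)]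
      refine integral_congr_ae (Eventually.of_forall fun u => ?_)
      simp only
      by_cases hu : u ∈ Ux x
      · by_cases hv : u ∈ V
        · simp only [indicator_of_mem hv]
          rw [← Finset.sum_mul, Finset.sum_sub_distrib, hb u ⟨hv, hu⟩]
          ring
        · simp only [indicator_of_notMem hv]
          rw [← Finset.sum_mul, Finset.sum_sub_distrib, Finset.sum_const_zero]
          ring
      · have h0 : w u = 0 := image_eq_zero_of_notMem_tsupport fun h => hu (hsU h)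
        simp only [h0, mul_zero, Finset.sum_const_zero, sub_zero]
    rw [hid]
    refine (norm_sub_le _ _).trans ?_
    have b1 := harea V x W w hV hW0 hw hs1 hW
    have b2 : ‖∑ j, ∫ u, (V.indicator (fun z => f j z * g j z) u -
        alx V x (f j) u * alx V x (g j) u) * w u‖ ≤ n * (C₂ * N₁ * N₂ * W * rad x ^ 2 * Gx V x) := by
      refine (norm_sum_le _ _).trans ?_
      refine (Finset.sum_le_card_nsmul _ _ _ (fun j _ =>
        hprod V x N₁ N₂ W (f j) (g j) w hV hN₁ hN₂ hW0 (hf j).1 (hg j).1 (hf j).2 (hg j).2 hw hs1 hW)).trans ?_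
      rw [Finset.card_univ, Fintype.card_fin, nsmul_eq_mul]
    refine (add_le_add b1 b2).trans (le_of_eq ?_)
    ring

theorem consx : ∃ C : ℝ, 0 < C ∧ ∀ (V : Set ℂ) (x : ℕ) (N : ℝ) (h : ℂ → ℂ), IsOpen V → 0 ≤ N →
    DifferentiableOn ℂ h (V ∩ Ux x) → DifferentiableOn ℂ h (V ∩ Ux (x + 1)) →
    (∀ z ∈ V ∩ Ux x, ‖h z‖ ≤ N) → (∀ z ∈ V ∩ Ux (x + 1), ‖h z‖ ≤ N) → ∀ z : ℂ, rad x / 2 ≤ ‖z‖ →
    ‖z‖ ≤ rad x → ‖alx V x h z - alx V (x + 1) h z‖ ≤ C * N * (Gx V x + Gx V (x + 1)) := by
  obtain ⟨C₁, hC₁, hptw⟩ := ptw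
  obtain ⟨C₂, hC₂, hsin⟩ := singlex
  obtain ⟨C₄, hC₄, hfac⟩ := alx_facts
  obtain ⟨C₅, hC₅, hGx⟩ := Gx_facts
  refine ⟨64 * C₁ * C₂, by positivity, ?_⟩
  intro V x N h hV hN hd1 hd2 hb1 hb2 z hz1 hz2
  have hr := tb_rad x
  have hr2 := tb_rad_succ x
  have hG := (hGx V x).1
  have hG' := (hGx V (x + 1)).1
  have hρ : 0 < rad x / 8 := by positivity
  have hz2' : ‖z‖ ≤ 2 * rad x := by linarith
  have ha1 := hfac V x N h hV hN hd1 hb1
  have ha2 := hfac V (x + 1) N h hV hN hd2 hb2
  have hz1' : rad (x + 1) / 2 ≤ ‖z‖ := by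
    rw [hr2]
    linarith
  have hsub2 : ball z (rad x / 8) ⊆ {z | rad (x + 1) / 4 < ‖z‖ ∧ ‖z‖ < 4 * rad (x + 1)} := by
    intro u hu
    obtain ⟨h3, h4⟩ := tb_norm (mem_ball.1 hu).le
    simp only [mem_ofPred_eq]
    rw [hr2]
    constructor <;> linarith
  have hAd : DifferentiableOn ℂ (fun u => alx V x h u - alx V (x + 1) h u) (ball z (rad x / 8)) :=
    (ha1.1.mono (tb_ball hz1 hz2')).sub (ha2.1.mono hsub2)
  have hmain := hptw (fun u => alx V x h u - alx V (x + 1) h u) z (rad x / 8)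
    (64 * C₂ * N * (Gx V x + Gx V (x + 1))) hρ (by positivity) hAd ?_
  · refine hmain.trans (le_of_eq ?_)
    ring
  · intro w W hw hws hW
    have hW0 : 0 ≤ W := (norm_nonneg _).trans (hW 0)
    have hs1 : tsupport w ⊆ {z | rad x / 3 ≤ ‖z‖ ∧ ‖z‖ ≤ 3 * rad x} := hws.trans (tb_supp hz1 hz2')
    have hs2 : tsupport w ⊆ {z | rad (x + 1) / 3 ≤ ‖z‖ ∧ ‖z‖ ≤ 3 * rad (x + 1)} := by
      intro u hu
      obtain ⟨h3, h4⟩ := tb_norm (mem_closedBall.1 (hws hu))
      simp only [mem_ofPred_eq]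
      rw [hr2]
      constructor <;> linarith
    have hwc : Continuous w := hw.smooth.continuous
    have i1 : Integrable fun u => (V.indicator h u - alx V x h u) * w u := by
      have h1 : Integrable fun u => V.indicator h u * w u :=
        tb_int (x := x) (N := N) hV hd1 hb1 hw (hs1.trans (tb_Ux x))
      have h2 : Integrable fun u => alx V x h u * w u :=
        (ha1.2.1.mul hwc).integrable_of_hasCompactSupport hw.cpt.mul_left
      refine (h1.sub h2).congr (Eventually.of_forall fun u => ?_)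
      simp only [Pi.sub_apply]
      ring
    have i2 : Integrable fun u => (V.indicator h u - alx V (x + 1) h u) * w u := by
      have h1 : Integrable fun u => V.indicator h u * w u :=
        tb_int (x := x + 1) (N := N) hV hd2 hb2 hw (hs2.trans (tb_Ux (x + 1)))
      have h2 : Integrable fun u => alx V (x + 1) h u * w u :=
        (ha2.2.1.mul hwc).integrable_of_hasCompactSupport hw.cpt.mul_left
      refine (h1.sub h2).congr (Eventually.of_forall fun u => ?_)
      simp only [Pi.sub_apply]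
      ring
    have hid : ∫ u, (alx V x h u - alx V (x + 1) h u) * w u =
        (∫ u, (V.indicator h u - alx V (x + 1) h u) * w u) -
          ∫ u, (V.indicator h u - alx V x h u) * w u := by
      rw [← integral_sub i2 i1]
      refine integral_congr_ae (Eventually.of_forall fun u => ?_)
      simp only
      ring
    rw [hid]
    refine (norm_sub_le _ _).trans ?_
    have b1 := hsin V (x + 1) N W h w hV hN hW0 hd2 hb2 hw hs2 hW
    have b2 := hsin V x N W h w hV hN hW0 hd1 hb1 hw hs1 hW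
    have b3 : C₂ * N * W * rad (x + 1) ^ 2 * Gx V (x + 1) ≤ C₂ * N * W * rad x ^ 2 * Gx V (x + 1) := by
      refine mul_le_mul_of_nonneg_right ?_ hG'
      refine mul_le_mul_of_nonneg_left ?_ (by positivity)
      rw [hr2]
      nlinarith
    refine (add_le_add (b1.trans b3) b2).trans (le_of_eq ?_)
    ring

end Pool.Agent.Work.MP_2cf110_an.Hyp

end
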