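import Pool.Agent.Work.MP_2cf110_an.Hyp.SolDef
import Pool.Agent.Work.MP_2cf110_an.Hyp.GrDef

/-! # Definitions: scales at the origin -/

open MeasureTheory Complex Set Metric Filter
open scoped Topology ContDiff ComplexConjugate

noncomputable section

namespace Pool.Agent.Work.MP_2cf110_an.Hyp

open QC (dz dzb Test Cau)

/-- the radii `2^(-x)` -/
def rad (x : ℕ) : ℝ := (1 / 2) ^ x

/-- a large annulus at the scale `x` -/
def Ann (x : ℕ) : Set ℂ := {z | rad x / 32 < ‖z‖ ∧ ‖z‖ < 32 * rad x}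

/-- an annulus which contains the support of `acut x` -/
def Ux (x : ℕ) : Set ℂ := {z | rad x / 16 < ‖z‖ ∧ ‖z‖ < 16 * rad x}

/-- annular cut-off function: `1` for `rad x / 4 ≤ |z| ≤ 4 rad x` and `0` outside
`rad x / 8 ≤ |z| ≤ 8 rad x` -/
def acut (x : ℕ) (z : ℂ) : ℂ := cut 0 (4 * rad x) (8 * rad x) z - cut 0 (rad x / 8) (rad x / 4) z

/-- the complement of `V` at the scale `x` -/
def Ex (V : Set ℂ) (x : ℕ) : Set ℂ := {z | rad x / 8 ≤ ‖z‖ ∧ ‖z‖ ≤ 8 * rad x} \ V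

/-- its relative capacity -/
def Gx (V : Set ℂ) (x : ℕ) : ℝ := cap (Ex V x) / rad x

/-- the analytic replacement of `h` at the scale `x` -/
def alx (V : Set ℂ) (x : ℕ) (h : ℂ → ℂ) : ℂ → ℂ :=
  Cau (V.indicator fun w => h w * dzb (acut x) w)

/-- the distance of `x` and `y` -/
def dd (x y : ℕ) : ℕ := (x - y) + (y - x)

/-- the error at the scale `x` -/
def err (V : Set ℂ) (x : ℕ) : ℝ := (1 / 2) ^ x + ∑' y, (1 / 2 : ℝ) ^ dd x y * Gx V y

section

variable {n : ℕ}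

/-- the approximate value of `f` at the scale `x` -/
def cx (V : Set ℂ) (f : Fin n → ℂ → ℂ) (x : ℕ) (j : Fin n) : ℂ := alx V x (f j) (rad x : ℂ)

/-- the approximate value of the solution at the scale `x` -/
def GC (c : ℝ) (V : Set ℂ) (f : Fin n → ℂ → ℂ) (x : ℕ) (p : Fin n) : ℂ :=
  ((lam c (∑ j, ‖cx V f x j‖ ^ 2) : ℝ) : ℂ) * conj (cx V f x p)

/-- the improved local solution at the scale `x` -/
def gt (c : ℝ) (V : Set ℂ) (f : Fin n → ℂ → ℂ) (g : ℕ → Fin n → ℂ → ℂ) (x : ℕ) (p : Fin n)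
    (z : ℂ) : ℂ :=
  g x p z + ∑ j, f j z * (alx V x (g x j) z * GC c V f x p - alx V x (g x p) z * GC c V f x j)

/-- the logarithmic scale of `z` -/
def Lg (z : ℂ) : ℝ := -(Real.log ‖z‖ / Real.log 2)

/-- the global smooth solution -/
def GH (c : ℝ) (V : Set ℂ) (f : Fin n → ℂ → ℂ) (g : ℕ → Fin n → ℂ → ℂ) (p : Fin n) (z : ℂ) : ℂ :=
  ∑ᶠ x : ℕ, ((th (Lg z - x) : ℝ) : ℂ) * gt c V f g x p z

/-- the derivative of the transition function between the scales `x` and `x + 1` -/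
def tau (x : ℕ) (z : ℂ) : ℂ := dzb (fun w => ((Real.smoothTransition (Lg w - x) : ℝ) : ℂ)) z

/-- the antisymmetric expression in two consecutive local solutions -/
def Ag (c : ℝ) (V : Set ℂ) (f : Fin n → ℂ → ℂ) (g : ℕ → Fin n → ℂ → ℂ) (x : ℕ) (p l : Fin n)
    (z : ℂ) : ℂ :=
  gt c V f g x p z * gt c V f g (x + 1) l z - gt c V f g x l z * gt c V f g (x + 1) p z

/-- the data: `V` is open in the punctured disc and `g x` is a local solution on `V ∩ Ann x` -/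
structure TD (K : ℝ) (V : Set ℂ) (f : Fin n → ℂ → ℂ) (g : ℕ → Fin n → ℂ → ℂ) : Prop where
  V_open : IsOpen V
  V_sub : V ⊆ ball 0 1 \ {0}
  f_ba : BA K V f
  g_ba : ∀ x, BA K (V ∩ Ann x) (g x)
  sol : ∀ x, ∀ z ∈ V ∩ Ann x, ∑ j, f j z * g x j z = 1

end

end Pool.Agent.Work.MP_2cf110_an.Hyp

end
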