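import Pool.Agent.Work.MP_2cf110_an.Hyp.TaAl

/-! # Replacement in integrals at the scale x

single (with φ = acut x, which is 1 on the support of w, so that 1_V h - alx = TT V h (acut x) there) and prodG with a = 0, R = rad x, U = Ux x, E = Ex V x. -/

open MeasureTheory Complex Set Metric Filter
open scoped Topology ContDiff ComplexConjugate

noncomputable section

namespace Pool.Agent.Work.MP_2cf110_an.Hyp

open QC (dz dzb Test Cau)

private theorem rad_pos (x : ℕ) : 0 < rad x := by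
  unfold rad
  positivity

private theorem rad_succ (x : ℕ) : rad (x + 1) = rad x / 2 := by
  unfold rad
  rw [pow_succ]
  ring

private theorem Ex_sub (V : Set ℂ) (x : ℕ) : Ex V x ⊆ closedBall 0 (8 * rad x) := by
  rintro z ⟨⟨-, h⟩, -⟩
  rw [mem_closedBall, dist_zero_right]
  exact h

private theorem Ex_compact {V : Set ℂ} (hV : IsOpen V) (x : ℕ) : IsCompact (Ex V x) := by
  refine (isCompact_closedBall (0 : ℂ) (8 * rad x)).of_isClosed_subset ?_ (Ex_sub V x)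
  unfold Ex
  rw [sdiff_eq]
  refine IsClosed.inter ?_ hV.isClosed_compl
  have : {z : ℂ | rad x / 8 ≤ ‖z‖ ∧ ‖z‖ ≤ 8 * rad x} = {z : ℂ | rad x / 8 ≤ ‖z‖} ∩ {z : ℂ | ‖z‖ ≤ 8 * rad x} := rfl
  rw [this]
  exact (isClosed_le continuous_const continuous_norm).inter
    (isClosed_le continuous_norm continuous_const)

private theorem Ux_open (x : ℕ) : IsOpen (Ux x) := by
  have : Ux x = {z : ℂ | rad x / 16 < ‖z‖} ∩ {z : ℂ | ‖z‖ < 16 * rad x} := rfl
  rw [this]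
  exact (isOpen_lt continuous_const continuous_norm).inter
    (isOpen_lt continuous_norm continuous_const)

private theorem cap_Ex (V : Set ℂ) (x : ℕ) : cap (Ex V x) = Gx V x * rad x := by
  unfold Gx
  rw [div_mul_cancel₀ _ (rad_pos x).ne']

theorem singlex : ∃ C : ℝ, 0 < C ∧ ∀ (V : Set ℂ) (x : ℕ) (N W : ℝ) (h w : ℂ → ℂ), IsOpen V → 0 ≤ N →
    0 ≤ W → DifferentiableOn ℂ h (V ∩ Ux x) → (∀ z ∈ V ∩ Ux x, ‖h z‖ ≤ N) → Test univ w →
    tsupport w ⊆ {z | rad x / 3 ≤ ‖z‖ ∧ ‖z‖ ≤ 3 * rad x} → (∀ z, ‖w z‖ ≤ W) →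
    ‖∫ z, (V.indicator h z - alx V x h z) * w z‖ ≤ C * N * W * rad x ^ 2 * Gx V x := by
  obtain ⟨C, hC, hs⟩ := single
  obtain ⟨Q, hQ1, hQ⟩ := acut_dzb
  refine ⟨C * Q, by positivity, ?_⟩
  intro V x N W h w hV hN0 hW0 hh hN hw hws hwW
  have hr := rad_pos x
  obtain ⟨a1, a2, a3, a4⟩ := acut_facts x
  have h12 : (8 : ℝ) * rad x ≤ 12 * rad x := by linarith
  have e1 : tsupport (acut x) ⊆ closedBall 0 (12 * rad x) := fun z hz => by
    rw [mem_closedBall, dist_zero_right]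
    exact (a3 hz).2.trans h12
  have e2 : tsupport (acut x) \ V ⊆ Ex V x := fun z hz => ⟨a3 hz.1, hz.2⟩
  have e3 : Ex V x ⊆ closedBall 0 (12 * rad x) :=
    (Ex_sub V x).trans (closedBall_subset_closedBall h12)
  have e4 : tsupport w ⊆ closedBall 0 (12 * rad x) := fun z hz => by
    rw [mem_closedBall, dist_zero_right]
    have := (hws hz).2
    linarith
  have key := hs V (Ux x) (Ex V x) 0 (rad x) N Q W h (acut x) w hV (Ux_open x) hr hN0 hQ1 hW0 hh hN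
    a1 e1 e2 e3 a2 (hQ x) hw e4 hwW
  have heq : ∫ z, (V.indicator h z - alx V x h z) * w z = ∫ z, TT V h (acut x) z * w z := by
    congr 1
    funext z
    by_cases hz : z ∈ tsupport w
    · have hz1 := hws hz
      have hz2 : acut x z = 1 := a4 z (by linarith [hz1.1]) (by linarith [hz1.2])
      congr 1
      unfold TT alx
      congr 1
      by_cases hzV : z ∈ V
      · rw [indicator_of_mem hzV, indicator_of_mem hzV, hz2, one_mul]
      · rw [indicator_of_notMem hzV, indicator_of_notMem hzV]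
    · rw [image_eq_zero_of_notMem_tsupport hz, mul_zero, mul_zero]
  rw [heq]
  refine key.trans (le_of_eq ?_)
  rw [cap_Ex]
  ring

theorem prodx : ∃ C : ℝ, 0 < C ∧ ∀ (V : Set ℂ) (x : ℕ) (N₁ N₂ W : ℝ) (h₁ h₂ w : ℂ → ℂ), IsOpen V →
    0 ≤ N₁ → 0 ≤ N₂ → 0 ≤ W → DifferentiableOn ℂ h₁ (V ∩ Ux x) → DifferentiableOn ℂ h₂ (V ∩ Ux x) →
    (∀ z ∈ V ∩ Ux x, ‖h₁ z‖ ≤ N₁) → (∀ z ∈ V ∩ Ux x, ‖h₂ z‖ ≤ N₂) → Test univ w →
    tsupport w ⊆ {z | rad x / 3 ≤ ‖z‖ ∧ ‖z‖ ≤ 3 * rad x} → (∀ z, ‖w z‖ ≤ W) →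
    ‖∫ z, (V.indicator (fun z => h₁ z * h₂ z) z - alx V x h₁ z * alx V x h₂ z) * w z‖ ≤
      C * N₁ * N₂ * W * rad x ^ 2 * Gx V x := by
  obtain ⟨C, hC, hs⟩ := prodG
  obtain ⟨Q, hQ1, hQ⟩ := acut_dzb
  refine ⟨C * Q ^ 4, by positivity, ?_⟩
  intro V x N₁ N₂ W h₁ h₂ w hV hN₁ hN₂ hW0 hh₁ hh₂ hb₁ hb₂ hw hws hwW
  have hr := rad_pos x
  obtain ⟨a1, a2, a3, a4⟩ := acut_facts x
  have e1 : tsupport (acut x) ⊆ closedBall 0 (8 * rad x) := fun z hz => by
    rw [mem_closedBall, dist_zero_right]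
    exact (a3 hz).2
  have e2 : tsupport (acut x) \ V ⊆ Ex V x := fun z hz => ⟨a3 hz.1, hz.2⟩
  have e4 : tsupport w ⊆ closedBall 0 (8 * rad x) := fun z hz => by
    rw [mem_closedBall, dist_zero_right]
    have := (hws hz).2
    linarith
  have hO : IsOpen {z : ℂ | rad x / 4 < ‖z‖ ∧ ‖z‖ < 4 * rad x} := by
    have : {z : ℂ | rad x / 4 < ‖z‖ ∧ ‖z‖ < 4 * rad x} =
      {z : ℂ | rad x / 4 < ‖z‖} ∩ {z : ℂ | ‖z‖ < 4 * rad x} := rfl
    rw [this]
    exact (isOpen_lt continuous_const continuous_norm).inter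
      (isOpen_lt continuous_norm continuous_const)
  have e5 : tsupport w ⊆ {z : ℂ | rad x / 4 < ‖z‖ ∧ ‖z‖ < 4 * rad x} := fun z hz => by
    have := hws hz
    exact ⟨by linarith [this.1], by linarith [this.2]⟩
  have key := hs V (Ux x) {z : ℂ | rad x / 4 < ‖z‖ ∧ ‖z‖ < 4 * rad x} (Ex V x) 0 (rad x) N₁ N₂ Q W
    h₁ h₂ (acut x) w hV (Ux_open x) hO (Ex_compact hV x) (Ex_sub V x) hr hN₁ hN₂ hQ1 hW0 hh₁ hh₂
    hb₁ hb₂ a1 e1 e2 a2 (hQ x) (fun z hz => a4 z hz.1.le hz.2.le) hw e5 e4 hwW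
  refine key.trans (le_of_eq ?_)
  rw [cap_Ex]
  ring

private theorem dd_summable (x : ℕ) : Summable fun y => (1 / 2 : ℝ) ^ dd x y := by
  refine Summable.of_nonneg_of_le (fun y => by positivity)
    (fun y => ?_) ((summable_geometric_two).mul_left ((2 : ℝ) ^ x))
  have h : y ≤ dd x y + x := by unfold dd; omega
  have h1 : (1 / 2 : ℝ) ^ (dd x y + x) ≤ (1 / 2) ^ y :=
    pow_le_pow_of_le_one (by norm_num) (by norm_num) h
  have h2 : (1 / 2 : ℝ) ^ dd x y = 2 ^ x * (1 / 2) ^ (dd x y + x) := by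
    rw [pow_add, mul_comm, mul_assoc, ← mul_pow]
    norm_num
  rw [h2]
  exact mul_le_mul_of_nonneg_left h1 (by positivity)

private theorem dd_tsum (x : ℕ) : ∑' y, (1 / 2 : ℝ) ^ dd x y ≤ 3 := by
  rw [← (dd_summable x).sum_add_tsum_nat_add x]
  have h1 : ∑ y ∈ Finset.range x, (1 / 2 : ℝ) ^ dd x y ≤ 1 := by
    have : ∑ y ∈ Finset.range x, (1 / 2 : ℝ) ^ dd x y = 1 - (1 / 2) ^ x := by
      rw [← Finset.sum_range_reflect]
      have : ∀ m : ℕ, ∑ y ∈ Finset.range m, (1 / 2 : ℝ) ^ (y + 1) = 1 - (1 / 2) ^ m := by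
        intro m
        induction m with
        | zero => simp
        | succ m ih => rw [Finset.sum_range_succ, ih]; ring
      rw [← this x]
      refine Finset.sum_congr rfl fun y hy => ?_
      rw [Finset.mem_range] at hy
      congr 1
      unfold dd
      omega
    rw [this]
    have : (0 : ℝ) ≤ (1 / 2) ^ x := by positivity
    linarith
  have h2 : ∑' y, (1 / 2 : ℝ) ^ dd x (y + x) = 2 := by
    have h3 : ∀ y, dd x (y + x) = y := fun y => by unfold dd; omega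
    simp_rw [h3]
    exact tsum_geometric_two
  rw [h2]
  linarith

theorem Gx_facts : ∃ C : ℝ, 0 < C ∧ ∀ (V : Set ℂ) (x : ℕ), 0 ≤ Gx V x ∧ Gx V x ≤ C ∧
    Gx V x ≤ err V x ∧ err V x ≤ C ∧ err V x ≤ 2 * err V (x + 1) ∧ err V (x + 1) ≤ 2 * err V x ∧
    (1 / 2) ^ x ≤ err V x := by
  obtain ⟨C, hC0, hC⟩ := cap_le
  have g0 : ∀ (V : Set ℂ) x, 0 ≤ Gx V x := fun V x =>
    div_nonneg (cap_nonneg _) (rad_pos x).le
  have g1 : ∀ (V : Set ℂ) x, Gx V x ≤ 8 * C := fun V x => by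
    unfold Gx
    rw [div_le_iff₀ (rad_pos x)]
    have := hC (Ex V x) 0 (8 * rad x) (by have := rad_pos x; positivity) (Ex_sub V x)
    linarith
  have hsum : ∀ (V : Set ℂ) x, Summable fun y => (1 / 2 : ℝ) ^ dd x y * Gx V y := fun V x =>
    Summable.of_nonneg_of_le (fun y => mul_nonneg (by positivity) (g0 V y))
      (fun y => mul_le_mul_of_nonneg_left (g1 V y) (by positivity)) ((dd_summable x).mul_right (8 * C))
  have hp : ∀ x : ℕ, (0 : ℝ) < (1 / 2) ^ x := fun x => by positivity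
  have cmp : ∀ (V : Set ℂ) (x x' : ℕ), (∀ y, dd x' y ≤ dd x y + 1) →
      ∑' y, (1 / 2 : ℝ) ^ dd x y * Gx V y ≤ 2 * ∑' y, (1 / 2 : ℝ) ^ dd x' y * Gx V y := by
    intro V x x' h
    rw [← tsum_mul_left]
    refine (hsum V x).tsum_le_tsum (fun y => ?_) ((hsum V x').mul_left 2)
    have h1 : (1 / 2 : ℝ) ^ (dd x y + 1) ≤ (1 / 2) ^ dd x' y :=
      pow_le_pow_of_le_one (by norm_num) (by norm_num) (h y)
    rw [← mul_assoc]
    refine mul_le_mul_of_nonneg_right ?_ (g0 V y)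
    rw [pow_succ] at h1
    linarith
  refine ⟨8 * C + 1 + 3 * (8 * C), by positivity, fun V x => ⟨g0 V x, ?_, ?_, ?_, ?_, ?_, ?_⟩⟩
  · have := g1 V x
    nlinarith
  · have h1 := (hsum V x).le_tsum x (fun y _ => mul_nonneg (by positivity) (g0 V y))
    have h2 : dd x x = 0 := by unfold dd; omega
    rw [h2, pow_zero, one_mul] at h1
    unfold err
    linarith [hp x]
  · unfold err
    have h1 : ∑' y, (1 / 2 : ℝ) ^ dd x y * Gx V y ≤ ∑' y, (1 / 2 : ℝ) ^ dd x y * (8 * C) :=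
      (hsum V x).tsum_le_tsum (fun y => mul_le_mul_of_nonneg_left (g1 V y) (by positivity))
        ((dd_summable x).mul_right (8 * C))
    rw [tsum_mul_right] at h1
    have h2 := dd_tsum x
    have h3 : (1 / 2 : ℝ) ^ x ≤ 1 := pow_le_one₀ (by norm_num) (by norm_num)
    have h4 : (∑' y, (1 / 2 : ℝ) ^ dd x y) * (8 * C) ≤ 3 * (8 * C) :=
      mul_le_mul_of_nonneg_right h2 (by positivity)
    linarith
  · unfold err
    have h1 := cmp V x (x + 1) (fun y => by unfold dd; omega)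
    have h2 : (1 / 2 : ℝ) ^ (x + 1) = (1 / 2) ^ x / 2 := by rw [pow_succ]; ring
    rw [h2]
    linarith
  · unfold err
    have h1 := cmp V (x + 1) x (fun y => by unfold dd; omega)
    have h2 : (1 / 2 : ℝ) ^ (x + 1) = (1 / 2) ^ x / 2 := by rw [pow_succ]; ring
    rw [h2]
    linarith [hp x]
  · unfold err
    have : 0 ≤ ∑' y, (1 / 2 : ℝ) ^ dd x y * Gx V y :=
      tsum_nonneg fun y => mul_nonneg (by positivity) (g0 V y)
    linarith

end Pool.Agent.Work.MP_2cf110_an.Hyp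

end
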