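import Pool.Agent.Work.MP_2cf110_an.Hyp.TaG
import Pool.Agent.Work.MP_2cf110_an.Hyp.TaP

/-! # The weak estimate for two consecutive improved solutions

If err > κ: trivial (|Ag| ≤ C, area of the annulus ≤ C rad x²).  If err x and err (x+1) ≤ κ: expand Ag into products of two micro functions (f_j, g x j, g (x+1) j, all analytic on V ∩ Ux x ⊆
V ∩ Ann x, V ∩ Ann (x+1)) with coefficients alx V x (g x j), alx V (x+1) (g (x+1) j), GC (smooth on the support of w, bounded): prodx for each (and singlex with the constant 1 for single factors).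
Then at every z of the support: with α_j = alx V x (f j) z, b_j = alx V x (g x j) z, b'_j = alx V x (g (x+1) j) z, B'_j = alx V (x+1) (g (x+1) j) z: the replaced gt x p is GC x p + O(err)
(algx with u = cx x, B = b; oscx), the replaced gt (x+1) l is GC (x+1) l + O(err) (algx with u = cx (x+1), b = b', B = B'; consx, cx_step, bezx), and |GC x - GC (x+1)| ≤ C err (lam_lip). -/

open MeasureTheory Complex Set Metric Filter
open scoped Topology ContDiff ComplexConjugate

noncomputable section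

namespace Pool.Agent.Work.MP_2cf110_an.Hyp

open QC (dz dzb Test Cau)

private theorem rad_pos (x : ℕ) : 0 < rad x := by
  unfold rad
  positivity

private theorem rad_succ (x : ℕ) : rad (x + 1) = rad x / 2 := by
  unfold rad
  rw [pow_succ]
  ring

private theorem Ux_Ann (x : ℕ) : Ux x ⊆ Ann x := by
  intro z hz
  have hr := rad_pos x
  exact ⟨lt_of_le_of_lt (by linarith) hz.1, lt_of_lt_of_le hz.2 (by linarith)⟩

private theorem Ux_Ann' (x : ℕ) : Ux x ⊆ Ann (x + 1) := by
  intro z hz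
  have hr := rad_pos x
  have h1 := hz.1
  have h2 := hz.2
  refine ⟨?_, ?_⟩
  · rw [rad_succ]
    linarith
  · rw [rad_succ]
    linarith

private theorem Ux_open (x : ℕ) : IsOpen (Ux x) := by
  have : Ux x = {z : ℂ | rad x / 16 < ‖z‖} ∩ {z : ℂ | ‖z‖ < 16 * rad x} := rfl
  rw [this]
  exact (isOpen_lt continuous_const continuous_norm).inter
    (isOpen_lt continuous_norm continuous_const)

private def Oo (x : ℕ) : Set ℂ := {z | rad x / 4 < ‖z‖ ∧ ‖z‖ < 2 * rad x}

private theorem Oo_open (x : ℕ) : IsOpen (Oo x) := by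
  have : Oo x = {z : ℂ | rad x / 4 < ‖z‖} ∩ {z : ℂ | ‖z‖ < 2 * rad x} := rfl
  rw [this]
  exact (isOpen_lt continuous_const continuous_norm).inter
    (isOpen_lt continuous_norm continuous_const)

private theorem ex_int {f w : ℂ → ℂ} {B : ℝ} (hf : Measurable f) (hB : ∀ z, ‖f z‖ ≤ B)
    (hw : Test univ w) : Integrable (fun z => f z * w z) :=
  (hw.smooth.continuous.integrable_of_hasCompactSupport hw.cpt).bdd_mul
    hf.aestronglyMeasurable (Filter.Eventually.of_forall hB)

private theorem ex_set {F : ℂ → ℂ} {S : Set ℂ} {B : ℝ} (hSv : volume S < ⊤)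
    (hB : ∀ z ∈ S, ‖F z‖ ≤ B) (h0 : ∀ z, z ∉ S → F z = 0) :
    ‖∫ z, F z‖ ≤ B * volume.real S := by
  rw [← setIntegral_eq_integral_of_forall_compl_eq_zero h0]
  exact norm_setIntegral_le_of_norm_le_const hSv hB

private theorem ex_vol {r : ℝ} (hr : 0 ≤ r) :
    volume.real (closedBall (0 : ℂ) r) = Real.pi * r ^ 2 := by
  rw [Measure.real, Complex.volume_closedBall, ENNReal.toReal_mul, ENNReal.toReal_pow,
    ENNReal.toReal_ofReal hr]
  simp [NNReal.coe_real_pi, mul_comm]

private theorem ex_test {O : Set ℂ} {M W : ℝ} {α w : ℂ → ℂ} (hO : IsOpen O)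
    (hα : DifferentiableOn ℂ α O) (hM : ∀ z, ‖α z‖ ≤ M)
    (hw : Test univ w) (hs : tsupport w ⊆ O) (hW : ∀ z, ‖w z‖ ≤ W) (hM0 : 0 ≤ M) :
    Test univ (fun z => α z * w z) ∧ tsupport (fun z => α z * w z) ⊆ tsupport w ∧
    ∀ z, ‖α z * w z‖ ≤ M * W := by
  have hsub : tsupport (fun z => α z * w z) ⊆ tsupport w := tsupport_mul_subset_right
  refine ⟨⟨?_, ?_, subset_univ _⟩, hsub, fun z => ?_⟩
  · rw [contDiff_iff_contDiffAt]
    intro z
    by_cases hz : z ∈ tsupport w
    · have h1 : ContDiffAt ℝ ∞ α z := by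
        have h2 : AnalyticAt ℂ α z := hα.analyticAt (hO.mem_nhds (hs hz))
        exact (h2.contDiffAt (n := ∞)).restrict_scalars ℝ
      exact h1.mul hw.smooth.contDiffAt
    · have h2 : (fun z => α z * w z) =ᶠ[𝓝 z] fun _ => 0 := by
        filter_upwards [(isClosed_tsupport w).isOpen_compl.mem_nhds hz] with y hy
        rw [image_eq_zero_of_notMem_tsupport hy, mul_zero]
      exact contDiffAt_const.congr_of_eventuallyEq h2
  · exact hw.cpt.mul_left
  · rw [norm_mul]
    exact mul_le_mul (hM z) (hW z) (norm_nonneg _) hM0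

private theorem ex_meas {W : Set ℂ} (hW : IsOpen W) {f : ℂ → ℂ} (hf : ContinuousOn f W) :
    Measurable (W.indicator f) := by
  classical
  have h := ContinuousOn.measurable_piecewise hf (continuousOn_const (c := (0 : ℂ)))
    hW.measurableSet
  have h1 : W.piecewise f (fun _ => 0) = W.indicator f := Set.piecewise_eq_indicator
  rwa [h1] at h

private theorem ex_ind {V U : Set ℂ} {h u : ℂ → ℂ} {N : ℝ} (hV : IsOpen V) (hU : IsOpen U)
    (hN0 : 0 ≤ N) (hh : ContinuousOn h (V ∩ U)) (hb : ∀ z ∈ V ∩ U, ‖h z‖ ≤ N) (hu : Test univ u)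
    (hs : tsupport u ⊆ U) : Integrable (fun z => V.indicator h z * u z) := by
  have h1 : (fun z => V.indicator h z * u z) = fun z => (V ∩ U).indicator h z * u z := by
    funext z
    by_cases hz : z ∈ U
    · congr 1
      by_cases hzV : z ∈ V
      · rw [indicator_of_mem hzV, indicator_of_mem (show z ∈ V ∩ U from ⟨hzV, hz⟩)]
      · rw [indicator_of_notMem hzV, indicator_of_notMem (fun h => hzV h.1)]
    · rw [image_eq_zero_of_notMem_tsupport (fun h => hz (hs h)), mul_zero, mul_zero]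
  rw [h1]
  refine ex_int (B := N) (ex_meas (hV.inter hU) hh) (fun z => ?_) hu
  by_cases hz : z ∈ V ∩ U
  · rw [indicator_of_mem hz]
    exact hb z hz
  · rw [indicator_of_notMem hz, norm_zero]
    exact hN0

/-- replacement of the micro functions in a product of two sums -/
private theorem repl : ∃ C : ℝ, 0 < C ∧ ∀ {ι : Type} [Fintype ι] (V : Set ℂ) (x : ℕ) (N D W : ℝ)
    (H H' c c' : ι → ℂ → ℂ) (w : ℂ → ℂ), IsOpen V → 0 ≤ N → 0 ≤ D → 0 ≤ W →
    (∀ m, DifferentiableOn ℂ (H m) (V ∩ Ux x)) → (∀ m, ∀ z ∈ V ∩ Ux x, ‖H m z‖ ≤ N) →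
    (∀ m, DifferentiableOn ℂ (H' m) (V ∩ Ux x)) → (∀ m, ∀ z ∈ V ∩ Ux x, ‖H' m z‖ ≤ N) →
    (∀ m, DifferentiableOn ℂ (c m) (Oo x)) → (∀ m z, ‖c m z‖ ≤ D) →
    (∀ m, DifferentiableOn ℂ (c' m) (Oo x)) → (∀ m z, ‖c' m z‖ ≤ D) → Test univ w →
    tsupport w ⊆ {z | rad x / 2 ≤ ‖z‖ ∧ ‖z‖ ≤ rad x} → (∀ z, ‖w z‖ ≤ W) →
    IntegrableOn (fun z => (∑ m, H m z * c m z) * (∑ m, H' m z * c' m z) * w z) V ∧
    Integrable (fun z => (∑ m, alx V x (H m) z * c m z) * (∑ m, alx V x (H' m) z * c' m z) * w z) ∧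
    ‖(∫ z in V, (∑ m, H m z * c m z) * (∑ m, H' m z * c' m z) * w z) -
      ∫ z, (∑ m, alx V x (H m) z * c m z) * (∑ m, alx V x (H' m) z * c' m z) * w z‖ ≤
      (Fintype.card ι : ℝ) * ((Fintype.card ι : ℝ) *
        (C * N * N * (D * (D * W)) * rad x ^ 2 * Gx V x)) := by
  obtain ⟨C, hC, hprod⟩ := prodx
  obtain ⟨C1, hC1, hal⟩ := alx_facts
  refine ⟨C, hC, ?_⟩
  intro ι _ V x N D W H H' c c' w hV hN0 hD0 hW0 hH hHb hH' hHb' hc hcb hc' hcb' hw hws hwW
  have hr := rad_pos x
  have hwO : tsupport w ⊆ Oo x := fun z hz => by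
    have := hws hz
    exact ⟨by linarith [this.1], by linarith [this.2]⟩
  have hw3 : tsupport w ⊆ {z | rad x / 3 ≤ ‖z‖ ∧ ‖z‖ ≤ 3 * rad x} := fun z hz => by
    have := hws hz
    exact ⟨by linarith [this.1], by linarith [this.2]⟩
  have hwU : tsupport w ⊆ Ux x := fun z hz => by
    have := hws hz
    exact ⟨by linarith [this.1], by linarith [this.2]⟩
  have hU := Ux_open x
  -- the test functions
  have hu : ∀ m m', Test univ (fun z => c m z * (c' m' z * w z)) ∧
      tsupport (fun z => c m z * (c' m' z * w z)) ⊆ tsupport w ∧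
      ∀ z, ‖c m z * (c' m' z * w z)‖ ≤ D * (D * W) := fun m m' => by
    obtain ⟨t1, t2, t3⟩ := ex_test (Oo_open x) (hc' m') (hcb' m') hw hwO hwW hD0
    obtain ⟨s1, s2, s3⟩ := ex_test (Oo_open x) (hc m) (hcb m) t1 (t2.trans hwO) t3 hD0
    exact ⟨s1, s2.trans t2, s3⟩
  have hT1 : ∀ m m', Integrable (fun z => V.indicator (fun z => H m z * H' m' z) z *
      (c m z * (c' m' z * w z))) := fun m m' => by
    refine ex_ind (N := N * N) hV hU (mul_nonneg hN0 hN0)
      ((hH m).continuousOn.mul (hH' m').continuousOn) (fun z hz => ?_) (hu m m').1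
      ((hu m m').2.1.trans hwU)
    rw [norm_mul]
    exact mul_le_mul (hHb m z hz) (hHb' m' z hz) (norm_nonneg _) hN0
  have hT2 : ∀ m m', Integrable (fun z => (alx V x (H m) z * alx V x (H' m') z) *
      (c m z * (c' m' z * w z))) := fun m m' => by
    obtain ⟨-, a1, a2⟩ := hal V x N (H m) hV hN0 (hH m) (hHb m)
    obtain ⟨-, b1, b2⟩ := hal V x N (H' m') hV hN0 (hH' m') (hHb' m')
    refine ex_int (B := (C1 * N) * (C1 * N)) (a1.mul b1).measurable (fun z => ?_) (hu m m').1
    rw [norm_mul]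
    exact mul_le_mul (a2 z) (b2 z) (norm_nonneg _) (by positivity)
  have hF : V.indicator (fun z => (∑ m, H m z * c m z) * (∑ m, H' m z * c' m z) * w z) =
      fun z => ∑ m, ∑ m', V.indicator (fun z => H m z * H' m' z) z * (c m z * (c' m' z * w z)) := by
    funext z
    by_cases hz : z ∈ V
    · rw [indicator_of_mem hz]
      simp only [indicator_of_mem hz]
      rw [Finset.sum_mul_sum, Finset.sum_mul]
      refine Finset.sum_congr rfl fun m _ => ?_
      rw [Finset.sum_mul]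
      refine Finset.sum_congr rfl fun m' _ => ?_
      ring
    · rw [indicator_of_notMem hz]
      simp only [indicator_of_notMem hz, zero_mul, Finset.sum_const_zero]
  have hG : (fun z => (∑ m, alx V x (H m) z * c m z) * (∑ m, alx V x (H' m) z * c' m z) * w z) =
      fun z => ∑ m, ∑ m', (alx V x (H m) z * alx V x (H' m') z) * (c m z * (c' m' z * w z)) := by
    funext z
    rw [Finset.sum_mul_sum, Finset.sum_mul]
    refine Finset.sum_congr rfl fun m _ => ?_
    rw [Finset.sum_mul]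
    refine Finset.sum_congr rfl fun m' _ => ?_
    ring
  have iF : Integrable (V.indicator
      (fun z => (∑ m, H m z * c m z) * (∑ m, H' m z * c' m z) * w z)) := by
    rw [hF]
    exact integrable_finsetSum _ fun m _ => integrable_finsetSum _ fun m' _ => hT1 m m'
  have iG : Integrable (fun z => (∑ m, alx V x (H m) z * c m z) *
      (∑ m, alx V x (H' m) z * c' m z) * w z) := by
    rw [hG]
    exact integrable_finsetSum _ fun m _ => integrable_finsetSum _ fun m' _ => hT2 m m'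
  refine ⟨(integrable_indicator_iff hV.measurableSet).1 iF, iG, ?_⟩
  rw [← integral_indicator hV.measurableSet, hF, hG,
    integral_finsetSum _ (fun m _ => integrable_finsetSum _ fun m' _ => hT1 m m'),
    integral_finsetSum _ (fun m _ => integrable_finsetSum _ fun m' _ => hT2 m m'),
    ← Finset.sum_sub_distrib]
  refine (norm_sum_le _ _).trans ?_
  have hin : ∀ m ∈ (Finset.univ : Finset ι),
      ‖(∫ z, ∑ m', V.indicator (fun z => H m z * H' m' z) z * (c m z * (c' m' z * w z))) -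
        ∫ z, ∑ m', (alx V x (H m) z * alx V x (H' m') z) * (c m z * (c' m' z * w z))‖ ≤
      (Fintype.card ι : ℝ) * (C * N * N * (D * (D * W)) * rad x ^ 2 * Gx V x) := by
    intro m _
    rw [integral_finsetSum _ (fun m' _ => hT1 m m'), integral_finsetSum _ (fun m' _ => hT2 m m'),
      ← Finset.sum_sub_distrib]
    refine (norm_sum_le _ _).trans ?_
    have hin2 : ∀ m' ∈ (Finset.univ : Finset ι),
        ‖(∫ z, V.indicator (fun z => H m z * H' m' z) z * (c m z * (c' m' z * w z))) -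
          ∫ z, (alx V x (H m) z * alx V x (H' m') z) * (c m z * (c' m' z * w z))‖ ≤
        C * N * N * (D * (D * W)) * rad x ^ 2 * Gx V x := by
      intro m' _
      rw [← integral_sub (hT1 m m') (hT2 m m')]
      have key := hprod V x N N (D * (D * W)) (H m) (H' m') _ hV hN0 hN0 (by positivity) (hH m)
        (hH' m') (hHb m) (hHb' m') (hu m m').1 ((hu m m').2.1.trans hw3) (hu m m').2.2
      refine le_trans (le_of_eq ?_) key
      congr 2
      funext z
      ring
    refine (Finset.sum_le_sum hin2).trans (le_of_eq ?_)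
    rw [Finset.sum_const, Finset.card_univ, nsmul_eq_mul]
  refine (Finset.sum_le_sum hin).trans (le_of_eq ?_)
  rw [Finset.sum_const, Finset.card_univ, nsmul_eq_mul]

section

variable {n : ℕ}

private def HO (h0 : ℂ → ℂ) (f : Fin n → ℂ → ℂ) : Option (Fin n) → ℂ → ℂ := fun m => m.elim h0 f

private def cO (A : Fin n → ℂ → ℂ) (G : Fin n → ℂ) (p : Fin n) : Option (Fin n) → ℂ → ℂ :=
  fun m => m.elim (fun _ => 1) (fun j z => A j z * G p - A p z * G j)

private theorem gt_eq (c : ℝ) (V : Set ℂ) (f : Fin n → ℂ → ℂ) (g : ℕ → Fin n → ℂ → ℂ) (x : ℕ)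
    (p : Fin n) (z : ℂ) : gt c V f g x p z =
      ∑ m, HO (g x p) f m z * cO (fun j => alx V x (g x j)) (GC c V f x) p m z := by
  rw [Fintype.sum_option]
  simp only [HO, cO, Option.elim, mul_one]
  rfl

private theorem mt_eq (V : Set ℂ) (x : ℕ) (h0 : ℂ → ℂ) (f : Fin n → ℂ → ℂ) (A : Fin n → ℂ → ℂ)
    (G : Fin n → ℂ) (p : Fin n) (z : ℂ) :
    ∑ m, alx V x (HO h0 f m) z * cO A G p m z =
      alx V x h0 z + ∑ j, alx V x (f j) z * (A j z * G p - A p z * G j) := by
  rw [Fintype.sum_option]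
  simp only [HO, cO, Option.elim, mul_one]

private theorem cO_diff {O : Set ℂ} {A : Fin n → ℂ → ℂ} (G : Fin n → ℂ) (p : Fin n)
    (hA : ∀ j, DifferentiableOn ℂ (A j) O) (m : Option (Fin n)) :
    DifferentiableOn ℂ (cO A G p m) O := by
  cases m with
  | none => exact differentiableOn_const _
  | some j => exact ((hA j).mul_const _).sub ((hA p).mul_const _)

private theorem cO_bdd {A : Fin n → ℂ → ℂ} {G : Fin n → ℂ} (p : Fin n) {a b : ℝ} (ha : 0 ≤ a)
    (hA : ∀ j z, ‖A j z‖ ≤ a) (hG : ∀ j, ‖G j‖ ≤ b) (m : Option (Fin n)) (z : ℂ) :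
    ‖cO A G p m z‖ ≤ 1 + 2 * (a * b) := by
  have hb : 0 ≤ b := (norm_nonneg _).trans (hG p)
  cases m with
  | none =>
    simp only [cO, Option.elim, norm_one]
    have : 0 ≤ a * b := mul_nonneg ha hb
    linarith
  | some j =>
    simp only [cO, Option.elim]
    have h1 : ‖A j z * G p - A p z * G j‖ ≤ 2 * (a * b) := by
      refine (norm_sub_le _ _).trans ?_
      rw [norm_mul, norm_mul, two_mul]
      exact add_le_add (mul_le_mul (hA j z) (hG p) (norm_nonneg _) ha)
        (mul_le_mul (hA p z) (hG j) (norm_nonneg _) ha)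
    linarith

private theorem HO_diff {O : Set ℂ} {h0 : ℂ → ℂ} {f : Fin n → ℂ → ℂ}
    (h : DifferentiableOn ℂ h0 O) (hf : ∀ j, DifferentiableOn ℂ (f j) O) (m : Option (Fin n)) :
    DifferentiableOn ℂ (HO h0 f m) O := by
  cases m with
  | none => exact h
  | some j => exact hf j

private theorem HO_bdd {O : Set ℂ} {h0 : ℂ → ℂ} {f : Fin n → ℂ → ℂ} {N : ℝ}
    (h : ∀ z ∈ O, ‖h0 z‖ ≤ N) (hf : ∀ j, ∀ z ∈ O, ‖f j z‖ ≤ N) (m : Option (Fin n)) :
    ∀ z ∈ O, ‖HO h0 f m z‖ ≤ N := by
  cases m with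
  | none => exact h
  | some j => exact hf j

/-- the macroscopic value of the product -/
private def P1 (c : ℝ) (V : Set ℂ) (f : Fin n → ℂ → ℂ) (g : ℕ → Fin n → ℂ → ℂ) (x y : ℕ)
    (p : Fin n) (z : ℂ) : ℂ :=
  alx V x (g y p) z + ∑ j, alx V x (f j) z *
    (alx V y (g y j) z * GC c V f y p - alx V y (g y p) z * GC c V f y j)

end

/-- the pointwise estimate -/
private theorem point {n : ℕ} {K c κ : ℝ} (hK : 1 ≤ K) (hc : 0 < c) (hκ : 0 < κ) : ∃ C : ℝ, 0 < C ∧
    ∀ (V : Set ℂ) (f : Fin n → ℂ → ℂ) (g : ℕ → Fin n → ℂ → ℂ), TD K V f g →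
    (∀ x, err V x ≤ κ → c ≤ ∑ j, ‖cx V f x j‖ ^ 2) →
    ∀ (x : ℕ) (p l : Fin n) (z : ℂ), err V x ≤ κ / 2 → rad x / 2 ≤ ‖z‖ → ‖z‖ ≤ rad x →
    ‖P1 c V f g x x p z * P1 c V f g x (x + 1) l z -
      P1 c V f g x x l z * P1 c V f g x (x + 1) p z‖ ≤ C * err V x := by
  obtain ⟨Ca, hCa, hal⟩ := alx_facts
  obtain ⟨Cg, hCg, hG⟩ := Gx_facts
  obtain ⟨Cb, hCb, hbez⟩ := bezx n
  obtain ⟨Cc, hCc, hcons⟩ := consx
  obtain ⟨Co, hCo, hosc⟩ := oscx
  obtain ⟨Cs, hCs, hst⟩ := cx_step (n := n) hK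
  have hK0 : 0 < K := by linarith
  set K' : ℝ := 1 + Cg + Cs + Ca * K + Co * K + Cc * K * 3 + Cb * (1 + K * K) with hK'
  have p1 : 0 < Ca * K := by positivity
  have p2 : 0 < Co * K := by positivity
  have p3 : 0 < Cc * K * 3 := by positivity
  have p4 : 0 < Cb * (1 + K * K) := by positivity
  have hK'1 : 1 ≤ K' := by linarith
  obtain ⟨C1, hC1, halg⟩ := algx n hK'1 hc
  obtain ⟨C2, hC2, hlip⟩ := lam_lip n hK'1 hc
  set E2 : ℝ := C1 + C2 * (n * Cs) with hE2
  have hE20 : 0 < E2 := by positivity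
  refine ⟨2 * (C1 * (C2 + C1 * Cg) + C2 * E2), by positivity, ?_⟩
  intro V f g hT hlow x p l z hx hz1 hz2
  have hr := rad_pos x
  have he0 : 0 ≤ err V x := (hG V x).1.trans (hG V x).2.2.1
  have heC : err V x ≤ Cg := (hG V x).2.2.2.1
  have he1 : err V (x + 1) ≤ 2 * err V x := (hG V x).2.2.2.2.2.1
  have hz3 : ‖z‖ ≤ 2 * rad x := by linarith
  have hsubV : ∀ y, V ∩ Ux y ⊆ V := fun y => inter_subset_left
  have hfb : BA K (V ∩ Ux x) f := hT.f_ba.mono inter_subset_left
  have hg1 : BA K (V ∩ Ux x) (g x) := (hT.g_ba x).mono (inter_subset_inter_right _ (Ux_Ann x))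
  have hg2 : BA K (V ∩ Ux x) (g (x + 1)) :=
    (hT.g_ba (x + 1)).mono (inter_subset_inter_right _ (Ux_Ann' x))
  have hg3 : BA K (V ∩ Ux (x + 1)) (g (x + 1)) :=
    (hT.g_ba (x + 1)).mono (inter_subset_inter_right _ (Ux_Ann (x + 1)))
  have hGG : Gx V x + Gx V (x + 1) ≤ 3 * err V x := by
    have a := (hG V x).2.2.1
    have b := (hG V (x + 1)).2.2.1
    linarith
  -- the values of `f`
  have hα : ∀ j, ‖alx V x (f j) z - cx V f x j‖ ≤ Co * K * err V x := fun j => by
    have hn : ‖((rad x : ℝ) : ℂ)‖ = rad x := by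
      rw [Complex.norm_real, Real.norm_of_nonneg hr.le]
    exact hosc V K (f j) x hT.V_open hT.V_sub hK0.le (hT.f_ba j).1 (hT.f_ba j).2 z _ hz1 hz3
      (by rw [hn]; linarith) (by rw [hn]; linarith)
  have hal0 : ∀ (h : ℂ → ℂ), DifferentiableOn ℂ h (V ∩ Ux x) → (∀ z ∈ V ∩ Ux x, ‖h z‖ ≤ K) →
      ‖alx V x h z‖ ≤ Ca * K := fun h h1 h2 => (hal V x K h hT.V_open hK0.le h1 h2).2.2 z
  have hu1 : ∀ y j, ‖cx V f y j‖ ≤ K' := fun y j => by
    have := (hst V f g hT y j).1
    linarith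
  have heK : err V x ≤ K' := by linarith
  -- first factor
  have hP1 : ∀ q, ‖P1 c V f g x x q z - GC c V f x q‖ ≤ C1 * err V x := fun q => by
    refine halg (err V x) (cx V f x) (fun j => alx V x (f j) z) (fun j => alx V x (g x j) z)
      (fun j => alx V x (g x j) z) he0 heK (hu1 x) (fun j => ?_) (hlow x (by linarith)) (fun j => ?_)
      (fun j => ?_) ?_ q
    · have := hal0 (g x j) (hg1 j).1 (hg1 j).2
      linarith
    · exact (hα j).trans (mul_le_mul_of_nonneg_right (by linarith) he0)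
    · rw [sub_self, norm_zero]
      positivity
    · have h1 := hbez V x K K f (g x) hT.V_open hK0.le hK0.le hfb hg1
        (fun z hz => hT.sol x z ⟨hz.1, Ux_Ann x hz.2⟩) z hz1 hz3
      refine h1.trans ?_
      refine mul_le_mul (by linarith) (hG V x).2.2.1 (hG V x).1 (by linarith)
  -- second factor
  have hP2 : ∀ q, ‖P1 c V f g x (x + 1) q z - GC c V f (x + 1) q‖ ≤ C1 * err V x := fun q => by
    refine halg (err V x) (cx V f (x + 1)) (fun j => alx V x (f j) z)
      (fun j => alx V x (g (x + 1) j) z) (fun j => alx V (x + 1) (g (x + 1) j) z) he0 heK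
      (hu1 (x + 1)) (fun j => ?_) (hlow (x + 1) (by linarith)) (fun j => ?_)
      (fun j => ?_) ?_ q
    · have := hal0 (g (x + 1) j) (hg2 j).1 (hg2 j).2
      linarith
    · have h1 : alx V x (f j) z - cx V f (x + 1) j =
        (alx V x (f j) z - cx V f x j) - (cx V f (x + 1) j - cx V f x j) := by ring
      rw [h1]
      refine (norm_sub_le _ _).trans ?_
      have h2 := hα j
      have h3 := (hst V f g hT x j).2
      have h4 : (Co * K + Cs) * err V x ≤ K' * err V x :=
        mul_le_mul_of_nonneg_right (by linarith) he0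
      linarith
    · rw [norm_sub_rev]
      have h1 := hcons V x K (g (x + 1) j) hT.V_open hK0.le (hg2 j).1 (hg3 j).1 (hg2 j).2
        (hg3 j).2 z hz1 hz2
      have h2 : Cc * K * (Gx V x + Gx V (x + 1)) ≤ Cc * K * (3 * err V x) :=
        mul_le_mul_of_nonneg_left hGG (by positivity)
      have h3 : Cc * K * 3 * err V x ≤ K' * err V x :=
        mul_le_mul_of_nonneg_right (by linarith) he0
      linarith
    · have h1 := hbez V x K K f (g (x + 1)) hT.V_open hK0.le hK0.le hfb hg2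
        (fun z hz => hT.sol (x + 1) z ⟨hz.1, Ux_Ann' x hz.2⟩) z hz1 hz3
      refine h1.trans ?_
      refine mul_le_mul (by linarith) (hG V x).2.2.1 (hG V x).1 (by linarith)
  have hGb : ∀ y q, ‖GC c V f y q‖ ≤ C2 := fun y q => (hlip (cx V f y) (cx V f y) (hu1 y) (hu1 y) q).1
  have hGd : ∀ q, ‖GC c V f (x + 1) q - GC c V f x q‖ ≤ C2 * (n * Cs) * err V x := fun q => by
    refine ((hlip (cx V f (x + 1)) (cx V f x) (hu1 _) (hu1 _) q).2).trans ?_
    have h1 : ∑ j, ‖cx V f (x + 1) j - cx V f x j‖ ≤ ∑ _j : Fin n, Cs * err V x :=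
      Finset.sum_le_sum fun j _ => (hst V f g hT x j).2
    rw [Finset.sum_const, Finset.card_univ, Fintype.card_fin, nsmul_eq_mul] at h1
    calc C2 * ∑ j, ‖cx V f (x + 1) j - cx V f x j‖ ≤ C2 * (n * (Cs * err V x)) :=
          mul_le_mul_of_nonneg_left h1 hC2.le
      _ = C2 * (n * Cs) * err V x := by ring
  have hP2' : ∀ q, ‖P1 c V f g x (x + 1) q z - GC c V f x q‖ ≤ E2 * err V x := fun q => by
    have h1 : P1 c V f g x (x + 1) q z - GC c V f x q =
      (P1 c V f g x (x + 1) q z - GC c V f (x + 1) q) +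
      (GC c V f (x + 1) q - GC c V f x q) := by ring
    rw [h1]
    refine (norm_add_le _ _).trans ?_
    have := add_le_add (hP2 q) (hGd q)
    refine this.trans (le_of_eq ?_)
    rw [hE2]
    ring
  have hP2b : ∀ q, ‖P1 c V f g x (x + 1) q z‖ ≤ C2 + C1 * Cg := fun q => by
    have h1 : P1 c V f g x (x + 1) q z = GC c V f (x + 1) q +
      (P1 c V f g x (x + 1) q z - GC c V f (x + 1) q) := by ring
    rw [h1]
    refine (norm_add_le _ _).trans (add_le_add (hGb _ _) ((hP2 q).trans ?_))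
    exact mul_le_mul_of_nonneg_left heC hC1.le
  have hid : P1 c V f g x x p z * P1 c V f g x (x + 1) l z -
      P1 c V f g x x l z * P1 c V f g x (x + 1) p z =
      ((P1 c V f g x x p z - GC c V f x p) * P1 c V f g x (x + 1) l z +
        GC c V f x p * (P1 c V f g x (x + 1) l z - GC c V f x l)) -
      ((P1 c V f g x x l z - GC c V f x l) * P1 c V f g x (x + 1) p z +
        GC c V f x l * (P1 c V f g x (x + 1) p z - GC c V f x p)) := by ring
  have hone : ∀ q r, ‖(P1 c V f g x x q z - GC c V f x q) * P1 c V f g x (x + 1) r z +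
        GC c V f x q * (P1 c V f g x (x + 1) r z - GC c V f x r)‖ ≤
      (C1 * (C2 + C1 * Cg) + C2 * E2) * err V x := fun q r => by
    refine (norm_add_le _ _).trans ?_
    rw [norm_mul, norm_mul]
    have h1 := mul_le_mul (hP1 q) (hP2b r) (norm_nonneg _) (by positivity)
    have h2 := mul_le_mul (hGb x q) (hP2' r) (norm_nonneg _) hC2.le
    refine (add_le_add h1 h2).trans (le_of_eq ?_)
    ring
  rw [hid]
  refine (norm_sub_le _ _).trans ((add_le_add (hone p l) (hone l p)).trans (le_of_eq ?_))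
  ring

theorem estx {n : ℕ} {K c κ : ℝ} (hK : 1 ≤ K) (hc : 0 < c) (hκ : 0 < κ) : ∃ C : ℝ, 0 < C ∧
    ∀ (V : Set ℂ) (f : Fin n → ℂ → ℂ) (g : ℕ → Fin n → ℂ → ℂ), TD K V f g →
    (∀ x, err V x ≤ κ → c ≤ ∑ j, ‖cx V f x j‖ ^ 2) →
    ∀ (x : ℕ) (w : ℂ → ℂ) (W : ℝ) (p l : Fin n), 0 ≤ W → Test univ w →
    tsupport w ⊆ {z | rad x / 2 ≤ ‖z‖ ∧ ‖z‖ ≤ rad x} → (∀ z, ‖w z‖ ≤ W) →
    ‖∫ z in V, Ag c V f g x p l z * w z‖ ≤ C * W * rad x ^ 2 * err V x := by
  obtain ⟨Ca, hCa, hal⟩ := alx_facts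
  obtain ⟨Cg, hCg, hG⟩ := Gx_facts
  obtain ⟨Cs, hCs, hst⟩ := cx_step (n := n) hK
  have hK0 : 0 < K := by linarith
  have hK2 : 1 ≤ max 1 Cs := le_max_left _ _
  obtain ⟨C2, hC2, hlip⟩ := lam_lip n hK2 hc
  obtain ⟨Cp, hCp, hpt⟩ := point (n := n) hK hc hκ
  obtain ⟨Ct, hCt, hgt⟩ := gt_facts (n := n) hK hc
  obtain ⟨Cr, hCr, hrep⟩ := repl
  set D : ℝ := 1 + 2 * (Ca * K * C2) with hD
  have hD0 : 0 < D := by positivity
  refine ⟨2 * Ct ^ 2 * Real.pi * (2 / κ) + 2 * ((n + 1) * ((n + 1) * (Cr * K * K * (D * D)))) +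
    Cp * Real.pi, by positivity, ?_⟩
  intro V f g hT hlow x w W p l hW0 hw hws hwW
  have hr := rad_pos x
  have he0 : 0 ≤ err V x := (hG V x).1.trans (hG V x).2.2.1
  have hvol : volume (closedBall (0 : ℂ) (rad x)) < ⊤ := (isCompact_closedBall _ _).measure_lt_top
  have hw0 : ∀ z, z ∉ closedBall (0 : ℂ) (rad x) → w z = 0 := fun z hz =>
    image_eq_zero_of_notMem_tsupport fun h1 => hz (by
      rw [mem_closedBall, dist_zero_right]
      exact (hws h1).2)
  have hX : 0 ≤ W * rad x ^ 2 * err V x := by positivity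
  by_cases hx : err V x ≤ κ / 2
  · -- the two products
    have hg1 : BA K (V ∩ Ux x) (g x) := (hT.g_ba x).mono (inter_subset_inter_right _ (Ux_Ann x))
    have hg2 : BA K (V ∩ Ux x) (g (x + 1)) :=
      (hT.g_ba (x + 1)).mono (inter_subset_inter_right _ (Ux_Ann' x))
    have hg3 : BA K (V ∩ Ux (x + 1)) (g (x + 1)) :=
      (hT.g_ba (x + 1)).mono (inter_subset_inter_right _ (Ux_Ann (x + 1)))
    have hfb : BA K (V ∩ Ux x) f := hT.f_ba.mono inter_subset_left
    have hGb : ∀ y q, ‖GC c V f y q‖ ≤ C2 := fun y q =>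
      (hlip (cx V f y) (cx V f y) (fun j => ((hst V f g hT y j).1).trans (le_max_right _ _))
        (fun j => ((hst V f g hT y j).1).trans (le_max_right _ _)) q).1
    have hA1 : ∀ j, DifferentiableOn ℂ (alx V x (g x j)) (Oo x) := fun j =>
      (hal V x K (g x j) hT.V_open hK0.le (hg1 j).1 (hg1 j).2).1.mono fun z hz =>
        ⟨hz.1, by linarith [hz.2]⟩
    have hA2 : ∀ j, DifferentiableOn ℂ (alx V (x + 1) (g (x + 1) j)) (Oo x) := fun j =>
      (hal V (x + 1) K (g (x + 1) j) hT.V_open hK0.le (hg3 j).1 (hg3 j).2).1.mono fun z hz => by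
        have h1 := hz.1
        have h2 := hz.2
        refine ⟨?_, ?_⟩
        · rw [rad_succ]
          linarith
        · rw [rad_succ]
          linarith
    have hB1 : ∀ j z, ‖alx V x (g x j) z‖ ≤ Ca * K := fun j z =>
      (hal V x K (g x j) hT.V_open hK0.le (hg1 j).1 (hg1 j).2).2.2 z
    have hB2 : ∀ j z, ‖alx V (x + 1) (g (x + 1) j) z‖ ≤ Ca * K := fun j z =>
      (hal V (x + 1) K (g (x + 1) j) hT.V_open hK0.le (hg3 j).1 (hg3 j).2).2.2 z
    have hCaK : 0 ≤ Ca * K := by positivity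
    have hR : ∀ q r, IntegrableOn (fun z => gt c V f g x q z * gt c V f g (x + 1) r z * w z) V ∧
        Integrable (fun z => P1 c V f g x x q z * P1 c V f g x (x + 1) r z * w z) ∧
        ‖(∫ z in V, gt c V f g x q z * gt c V f g (x + 1) r z * w z) -
          ∫ z, P1 c V f g x x q z * P1 c V f g x (x + 1) r z * w z‖ ≤
          ((n : ℝ) + 1) * (((n : ℝ) + 1) * (Cr * K * K * (D * (D * W)) * rad x ^ 2 * Gx V x)) := by
      intro q r
      have key := hrep V x K D W (HO (g x q) f) (HO (g (x + 1) r) f)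
        (cO (fun j => alx V x (g x j)) (GC c V f x) q)
        (cO (fun j => alx V (x + 1) (g (x + 1) j)) (GC c V f (x + 1)) r) w hT.V_open hK0.le hD0.le
        hW0 (HO_diff (hg1 q).1 fun j => (hfb j).1) (HO_bdd (hg1 q).2 fun j => (hfb j).2)
        (HO_diff (hg2 r).1 fun j => (hfb j).1) (HO_bdd (hg2 r).2 fun j => (hfb j).2)
        (cO_diff _ q hA1) (cO_bdd q hCaK hB1 (hGb x))
        (cO_diff _ r hA2) (cO_bdd r hCaK hB2 (hGb (x + 1))) hw hws hwW
      simp only [← gt_eq, mt_eq, Fintype.card_option, Fintype.card_fin, Nat.cast_add,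
        Nat.cast_one] at key
      exact key
    obtain ⟨i1, j1, k1⟩ := hR p l
    obtain ⟨i2, j2, k2⟩ := hR l p
    have hsplit : ∫ z in V, Ag c V f g x p l z * w z =
        (∫ z in V, gt c V f g x p z * gt c V f g (x + 1) l z * w z) -
        ∫ z in V, gt c V f g x l z * gt c V f g (x + 1) p z * w z := by
      rw [← integral_sub i1 i2]
      congr 1
      funext z
      unfold Ag
      ring
    have hmac : ‖(∫ z, P1 c V f g x x p z * P1 c V f g x (x + 1) l z * w z) -
        ∫ z, P1 c V f g x x l z * P1 c V f g x (x + 1) p z * w z‖ ≤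
        Cp * err V x * W * (Real.pi * rad x ^ 2) := by
      rw [← integral_sub j1 j2, ← ex_vol hr.le]
      refine ex_set hvol (fun z _ => ?_) (fun z hz => ?_)
      · rw [← sub_mul, norm_mul]
        by_cases hzs : z ∈ tsupport w
        · exact mul_le_mul (hpt V f g hT hlow x p l z hx (hws hzs).1 (hws hzs).2) (hwW z)
            (norm_nonneg _) (by positivity)
        · rw [image_eq_zero_of_notMem_tsupport hzs, norm_zero, mul_zero]
          positivity
      · rw [hw0 z hz, mul_zero, mul_zero, sub_zero]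
    have hGle : ((n : ℝ) + 1) * (((n : ℝ) + 1) * (Cr * K * K * (D * (D * W)) * rad x ^ 2 *
        Gx V x)) ≤ ((n : ℝ) + 1) * (((n : ℝ) + 1) * (Cr * K * K * (D * D))) *
        (W * rad x ^ 2 * err V x) := by
      have h1 : ((n : ℝ) + 1) * (((n : ℝ) + 1) * (Cr * K * K * (D * (D * W)) * rad x ^ 2 *
        Gx V x)) = ((n : ℝ) + 1) * (((n : ℝ) + 1) * (Cr * K * K * (D * D))) *
        (W * rad x ^ 2 * Gx V x) := by ring
      rw [h1]
      exact mul_le_mul_of_nonneg_left (mul_le_mul_of_nonneg_left (hG V x).2.2.1 (by positivity))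
        (by positivity)
    rw [hsplit]
    have hdec : ∀ a b a' b' : ℂ, a - b = (a - a') - (b - b') + (a' - b') := fun a b a' b' => by ring
    rw [hdec _ _ (∫ z, P1 c V f g x x p z * P1 c V f g x (x + 1) l z * w z)
      (∫ z, P1 c V f g x x l z * P1 c V f g x (x + 1) p z * w z)]
    refine (norm_add_le _ _).trans ?_
    refine (add_le_add ((norm_sub_le _ _).trans (add_le_add (k1.trans hGle) (k2.trans hGle)))
      hmac).trans ?_
    have h1 : 0 ≤ 2 * Ct ^ 2 * Real.pi * (2 / κ) := by positivity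
    nlinarith
  · push Not at hx
    have hb : ∀ z ∈ closedBall (0 : ℂ) (rad x),
        ‖V.indicator (fun z => Ag c V f g x p l z * w z) z‖ ≤ 2 * Ct ^ 2 * W := by
      intro z _
      by_cases hzV : z ∈ V
      · rw [indicator_of_mem hzV, norm_mul]
        by_cases hzs : z ∈ tsupport w
        · have hz := hws hzs
          have m1 : z ∈ V ∩ {z | rad x / 4 < ‖z‖ ∧ ‖z‖ < 4 * rad x} :=
            ⟨hzV, by linarith [hz.1], by linarith [hz.2]⟩
          have m2 : z ∈ V ∩ {z | rad (x + 1) / 4 < ‖z‖ ∧ ‖z‖ < 4 * rad (x + 1)} := by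
            refine ⟨hzV, ?_, ?_⟩
            · rw [rad_succ]
              linarith [hz.1]
            · rw [rad_succ]
              linarith [hz.2]
          have b1 : ∀ q, ‖gt c V f g x q z‖ ≤ Ct := fun q => ((hgt V f g hT x).1 q).2 z m1
          have b2 : ∀ q, ‖gt c V f g (x + 1) q z‖ ≤ Ct := fun q =>
            ((hgt V f g hT (x + 1)).1 q).2 z m2
          have b3 : ‖Ag c V f g x p l z‖ ≤ 2 * Ct ^ 2 := by
            unfold Ag
            refine (norm_sub_le _ _).trans ?_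
            rw [norm_mul, norm_mul]
            have h1 := mul_le_mul (b1 p) (b2 l) (norm_nonneg _) hCt.le
            have h2 := mul_le_mul (b1 l) (b2 p) (norm_nonneg _) hCt.le
            nlinarith
          exact mul_le_mul b3 (hwW z) (norm_nonneg _) (by positivity)
        · rw [image_eq_zero_of_notMem_tsupport hzs, norm_zero, mul_zero]
          positivity
      · rw [indicator_of_notMem hzV, norm_zero]
        positivity
    have h0 : ∀ z, z ∉ closedBall (0 : ℂ) (rad x) →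
        V.indicator (fun z => Ag c V f g x p l z * w z) z = 0 := by
      intro z hz
      by_cases hzV : z ∈ V
      · rw [indicator_of_mem hzV, hw0 z hz, mul_zero]
      · rw [indicator_of_notMem hzV]
    have h1 := ex_set hvol hb h0
    rw [integral_indicator hT.V_open.measurableSet, ex_vol hr.le] at h1
    refine h1.trans ?_
    have h2 : 1 ≤ 2 / κ * err V x := by
      rw [div_mul_eq_mul_div, le_div_iff₀ hκ]
      linarith
    have h3 : 2 * Ct ^ 2 * W * (Real.pi * rad x ^ 2) ≤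
        2 * Ct ^ 2 * W * (Real.pi * rad x ^ 2) * (2 / κ * err V x) :=
      le_mul_of_one_le_right (by positivity) h2
    have h4 : 0 ≤ (2 * ((n + 1) * ((n + 1) * (Cr * K * K * (D * D)))) + Cp * Real.pi) *
        (W * rad x ^ 2 * err V x) := by positivity
    refine h3.trans ?_
    nlinarith

end Pool.Agent.Work.MP_2cf110_an.Hyp

end
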