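import Pool.Agent.Work.MP_2cf110_an.Hyp.TaT
import Pool.Agent.Work.MP_2cf110_an.Hyp.TaBez

/-! # Oscillation of the replacement function

Trivial for x < 8 (err ≥ 2^(-x)).  For Y > x + 8: S = Σ_{1 ≤ y ≤ Y} psx y = smoothTransition(Lg - 0) - smoothTransition(Lg - Y) (telescoping), equal to 1 for rad Y ≤ |z| ≤ 1/2.  On
rad x/3 ≤ |z| ≤ 3 rad x: 1_V f = Σ_y T_y + Cau(1_V f dzb S) = H + Σ_{|y-x| ≤ 4} T_y, H = Cau(1_V f dzb S) + Σ_{|y-x| > 4} T_y analytic there.  dzb S lives where 1/2 ≤ |z| ≤ 1 (contribution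
to Cau with derivative ≤ C N near the annulus) and rad Y/2 ≤ |z| ≤ rad Y (contribution ≤ C N rad Y/rad x).  Tx_facts: for y < x - 4: oscillation ≤ C N Gx rad x/rad y; for y > x + 4:
≤ C N Gx rad y/rad x.  Weak estimates (Tx_facts last item for |y-x| ≤ 4, singlex) and ptw: |alx V x f z - H z| ≤ C N Σ_{|y-x| ≤ 4} Gx y ≤ C N err.  Let Y → ∞. -/

open MeasureTheory Complex Set Metric Filter
open scoped Topology ContDiff ComplexConjugate

noncomputable section

namespace Pool.Agent.Work.MP_2cf110_an.Hyp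

open QC (dz dzb Test Cau)

private theorem to_rad_pos (x : ℕ) : 0 < rad x := by
  unfold rad
  positivity

private theorem to_rad_le {a b : ℕ} (k : ℕ) (h : a + k ≤ b) : rad b ≤ rad a * (1 / 2) ^ k := by
  unfold rad
  rw [← pow_add]
  exact pow_le_pow_of_le_one (by norm_num) (by norm_num) h

/-- the sum of the pieces -/
private def toS (Y : ℕ) (z : ℂ) : ℂ := ∑ y ∈ Finset.Icc 1 Y, psx y z

private theorem toS_tele {z : ℂ} (hz : z ≠ 0) (Y : ℕ) :
    toS Y z = ((Real.smoothTransition (Lg z) - Real.smoothTransition (Lg z - Y) : ℝ) : ℂ) := by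
  unfold toS
  induction Y with
  | zero => simp
  | succ Y ih =>
    rw [Finset.sum_Icc_succ_top (by omega), ih]
    unfold psx
    rw [if_neg hz]
    unfold th
    have h : Lg z - ((Y + 1 : ℕ) : ℝ) + 1 = Lg z - Y := by
      push_cast
      ring
    rw [h]
    push_cast
    ring

private theorem toS_one {z : ℂ} {Y : ℕ} (h1 : rad Y ≤ ‖z‖) (h2 : ‖z‖ ≤ 1 / 2) : toS Y z = 1 := by
  have hz0 : 0 < ‖z‖ := (to_rad_pos Y).trans_le h1
  have hz : z ≠ 0 := norm_pos_iff.1 hz0
  have hl2 : 0 < Real.log 2 := Real.log_pos (by norm_num)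
  have e1 : 1 ≤ Lg z := by
    unfold Lg
    have h3 : Real.log ‖z‖ ≤ Real.log (1 / 2) := Real.log_le_log hz0 h2
    rw [one_div, Real.log_inv] at h3
    rw [le_neg, div_le_iff₀ hl2]
    linarith
  have e2 : Lg z - Y ≤ 0 := by
    have h3 := Real.log_le_log (to_rad_pos Y) h1
    unfold rad at h3
    rw [Real.log_pow, one_div, Real.log_inv] at h3
    unfold Lg
    rw [sub_nonpos, neg_le, le_div_iff₀ hl2]
    linarith
  rw [toS_tele hz, Real.smoothTransition.one_of_one_le e1,
    Real.smoothTransition.zero_of_nonpos e2]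
  simp

private theorem to_out {ψ : ℂ → ℂ} {U : Set ℂ} (hψ : Test U ψ) {z : ℂ} (hz : z ∉ tsupport ψ) :
    ψ z = 0 ∧ dzb ψ z = 0 := by
  have h1 : Test (tsupport ψ) ψ := ⟨hψ.smooth, hψ.cpt, Subset.rfl⟩
  refine ⟨image_eq_zero_of_notMem_tsupport hz, ?_⟩
  exact image_eq_zero_of_notMem_tsupport fun h2 => hz (h1.dz.2.sub h2)

private theorem to_psx0 {y : ℕ} {z : ℂ} (h : ¬(rad y / 2 ≤ ‖z‖ ∧ ‖z‖ ≤ 2 * rad y)) :
    psx y z = 0 ∧ dzb (psx y) z = 0 :=
  to_out (psx_facts y).1 fun hz => h ((psx_facts y).2.2 hz)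

private theorem toS_test (Y : ℕ) : Test univ (toS Y) ∧ ∀ z, z ∉ closedBall (0 : ℂ) 1 → toS Y z = 0 := by
  have h0 : ∀ z, z ∉ closedBall (0 : ℂ) 1 → toS Y z = 0 := by
    intro z hz
    rw [mem_closedBall, dist_zero_right, not_le] at hz
    unfold toS
    refine Finset.sum_eq_zero fun y hy => ?_
    refine (to_psx0 fun h => ?_).1
    have h1 : 1 ≤ y := (Finset.mem_Icc.1 hy).1
    have h2 := to_rad_le (a := 0) 1 (by omega : 0 + 1 ≤ y)
    have h3 : rad 0 = 1 := by
      unfold rad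
      simp
    rw [h3] at h2
    linarith [h.2]
  refine ⟨⟨?_, HasCompactSupport.intro (isCompact_closedBall 0 1) h0, subset_univ _⟩, h0⟩
  unfold toS
  exact ContDiff.sum fun y _ => (psx_facts y).1.smooth

private theorem toS_dzb (Y : ℕ) (z : ℂ) : dzb (toS Y) z = ∑ y ∈ Finset.Icc 1 Y, dzb (psx y) z := by
  have hd : ∀ y, DifferentiableAt ℝ (psx y) z := fun y =>
    ((psx_facts y).1.smooth.differentiable (by simp)) z
  have h1 : fderiv ℝ (toS Y) z = ∑ y ∈ Finset.Icc 1 Y, fderiv ℝ (psx y) z := by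
    have h2 : toS Y = fun z => ∑ y ∈ Finset.Icc 1 Y, psx y z := rfl
    rw [h2]
    exact fderiv_fun_sum fun y _ => hd y
  unfold QC.dzb
  rw [h1, sum_apply, sum_apply, Finset.mul_sum,
    ← Finset.sum_add_distrib, Finset.sum_div]

private theorem toS_bd {Q : ℝ} (hQ : 1 ≤ Q) (hb : ∀ y z, ‖dzb (psx y) z‖ ≤ Q / rad y) (Y : ℕ)
    {z : ℂ} (hz : z ≠ 0) : ‖dzb (toS Y) z‖ ≤ 10 * Q / ‖z‖ := by
  have hz0 : 0 < ‖z‖ := norm_pos_iff.2 hz
  rw [toS_dzb]
  have hQ0 : 0 ≤ 2 * Q / ‖z‖ := by positivity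
  have h1 : ∀ y, ‖dzb (psx y) z‖ ≤ 2 * Q / ‖z‖ := by
    intro y
    by_cases h : rad y / 2 ≤ ‖z‖ ∧ ‖z‖ ≤ 2 * rad y
    · refine (hb y z).trans ?_
      rw [div_le_div_iff₀ (to_rad_pos y) hz0]
      nlinarith [h.2]
    · rw [(to_psx0 h).2, norm_zero]
      exact hQ0
  by_cases hex : ∃ y₀, rad y₀ / 2 ≤ ‖z‖ ∧ ‖z‖ ≤ 2 * rad y₀
  · obtain ⟨y₀, ha, hb'⟩ := hex
    have h2 : ∀ y, ‖dzb (psx y) z‖ ≤
        if y ∈ Finset.Icc (y₀ - 2) (y₀ + 2) then 2 * Q / ‖z‖ else 0 := by
      intro y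
      split_ifs with hy
      · exact h1 y
      · refine le_of_eq ?_
        rw [norm_eq_zero]
        refine (to_psx0 ?_).2
        rintro ⟨h3, h4⟩
        apply hy
        rw [Finset.mem_Icc]
        constructor
        · by_contra h5
          have h6 := to_rad_le (a := y) 3 (by omega : y + 3 ≤ y₀)
          have h7 := to_rad_pos y
          norm_num at h6
          linarith
        · by_contra h5
          have h6 := to_rad_le (a := y₀) 3 (by omega : y₀ + 3 ≤ y)
          have h7 := to_rad_pos y₀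
          norm_num at h6
          linarith
    refine (norm_sum_le _ _).trans ((Finset.sum_le_sum fun y _ => h2 y).trans ?_)
    rw [Finset.sum_ite_mem, Finset.sum_const, nsmul_eq_mul]
    have h3 : (Finset.Icc 1 Y ∩ Finset.Icc (y₀ - 2) (y₀ + 2)).card ≤ 5 := by
      refine (Finset.card_le_card Finset.inter_subset_right).trans ?_
      rw [Nat.card_Icc]
      omega
    have h4 : ((Finset.Icc 1 Y ∩ Finset.Icc (y₀ - 2) (y₀ + 2)).card : ℝ) ≤ 5 := by
      exact_mod_cast h3
    calc ((Finset.Icc 1 Y ∩ Finset.Icc (y₀ - 2) (y₀ + 2)).card : ℝ) * (2 * Q / ‖z‖)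
        ≤ 5 * (2 * Q / ‖z‖) := mul_le_mul_of_nonneg_right h4 hQ0
      _ = 10 * Q / ‖z‖ := by ring
  · push Not at hex
    rw [Finset.sum_eq_zero fun y _ => (to_psx0 (z := z) (y := y) (by
      rintro ⟨h2, h3⟩
      exact absurd h3 (not_le.2 (hex y h2)))).2, norm_zero]
    positivity

private theorem toS_in (Y : ℕ) {z : ℂ} (hz : ‖z‖ < rad Y / 2) : dzb (toS Y) z = 0 := by
  rw [toS_dzb]
  refine Finset.sum_eq_zero fun y hy => (to_psx0 ?_).2
  rintro ⟨h1, -⟩
  have h2 := to_rad_le (a := y) (b := Y) 0 (by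
    have := (Finset.mem_Icc.1 hy).2
    omega)
  rw [pow_zero, mul_one] at h2
  linarith

private theorem toS_mid (Y : ℕ) {z : ℂ} (h1 : rad Y < ‖z‖) (h2 : ‖z‖ < 1 / 2) :
    dzb (toS Y) z = 0 := by
  have h3 : toS Y =ᶠ[𝓝 z] fun _ => (1 : ℂ) := by
    have h4 : {u : ℂ | rad Y < ‖u‖ ∧ ‖u‖ < 1 / 2} ∈ 𝓝 z := by
      refine IsOpen.mem_nhds ?_ ⟨h1, h2⟩
      exact (isOpen_lt continuous_const continuous_norm).inter
        (isOpen_lt continuous_norm continuous_const)
    filter_upwards [h4] with u hu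
    exact toS_one hu.1.le hu.2.le
  unfold QC.dzb
  rw [h3.fderiv_eq]
  simp

private theorem to_int {g : ℂ → ℂ} {a : ℂ} {ρ N : ℝ} (hρ : 0 < ρ) (hg : Measurable g)
    (hN : ∀ z, ‖g z‖ ≤ N) (hs : ∀ z, z ∉ closedBall a ρ → g z = 0) (z : ℂ) :
    Integrable (fun ζ => g ζ / (z - ζ)) := by
  have h1 : IntegrableOn (fun ζ => g ζ / (z - ζ)) (closedBall a ρ) := by
    refine Integrable.mono' ((pot_ball (a := a) (z := z) hρ).1.const_mul N) ?_ ?_
    · exact (hg.div (measurable_const.sub measurable_id)).aestronglyMeasurable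
    · refine Eventually.of_forall fun ζ => ?_
      rw [norm_div, div_eq_mul_one_div]
      exact mul_le_mul_of_nonneg_right (hN ζ) (by positivity)
  refine (integrableOn_iff_integrable_of_support_subset ?_).1 h1
  intro ζ hζ
  by_contra h
  apply hζ
  simp only
  rw [hs ζ h, zero_div]

private theorem to_cau_sum {ι : Type} (s : Finset ι) (g : ι → ℂ → ℂ) (z : ℂ)
    (h : ∀ i ∈ s, Integrable fun ζ => g i ζ / (z - ζ)) :
    Cau (fun ζ => ∑ i ∈ s, g i ζ) z = ∑ i ∈ s, Cau (g i) z := by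
  unfold QC.Cau
  rw [← Finset.mul_sum, ← integral_finsetSum s h]
  congr 1
  refine integral_congr_ae (Eventually.of_forall fun ζ => ?_)
  simp only [Finset.sum_div]

/-- the density -/
private def toG (V : Set ℂ) (f : ℂ → ℂ) (Y : ℕ) : ℂ → ℂ := V.indicator fun w => f w * dzb (toS Y) w

private theorem toG_facts {V : Set ℂ} {f : ℂ → ℂ} {N Q : ℝ} (hV : IsOpen V) (hN0 : 0 ≤ N)
    (hf : DifferentiableOn ℂ f V) (hfN : ∀ z ∈ V, ‖f z‖ ≤ N) (hQ : 1 ≤ Q)
    (hb : ∀ y z, ‖dzb (psx y) z‖ ≤ Q / rad y) (Y : ℕ) :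
    Measurable (toG V f Y) ∧ (∀ z, ‖toG V f Y z‖ ≤ N * (20 * Q / rad Y)) ∧
    (∀ z, z ∉ closedBall (0 : ℂ) 1 → toG V f Y z = 0) ∧
    (∀ z : ℂ, rad Y < ‖z‖ → ‖z‖ < 1 / 2 → toG V f Y z = 0) ∧
    (∀ z : ℂ, 1 / 2 ≤ ‖z‖ → ‖toG V f Y z‖ ≤ N * (20 * Q)) := by
  have hY := to_rad_pos Y
  have hT := (toS_test Y).1
  have key : ∀ (z : ℂ) (M : ℝ), 0 ≤ M → ‖dzb (toS Y) z‖ ≤ M → ‖toG V f Y z‖ ≤ N * M := by
    intro z M hM h
    unfold toG
    by_cases hz : z ∈ V
    · rw [indicator_of_mem hz, norm_mul]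
      exact mul_le_mul (hfN z hz) h (norm_nonneg _) hN0
    · rw [indicator_of_notMem hz, norm_zero]
      positivity
  have key0 : ∀ z : ℂ, dzb (toS Y) z = 0 → toG V f Y z = 0 := by
    intro z h
    unfold toG
    by_cases hz : z ∈ V
    · rw [indicator_of_mem hz, h, mul_zero]
    · rw [indicator_of_notMem hz]
  refine ⟨?_, fun z => ?_, fun z hz => ?_, fun z h1 h2 => key0 z (toS_mid Y h1 h2),
    fun z hz => ?_⟩
  · exact (TT_meas hV isOpen_univ (by rwa [inter_univ]) hT).2
  · refine key z _ (by positivity) ?_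
    by_cases hz : ‖z‖ < rad Y / 2
    · rw [toS_in Y hz, norm_zero]
      positivity
    · rw [not_lt] at hz
      have hz0 : 0 < ‖z‖ := lt_of_lt_of_le (by positivity) hz
      refine (toS_bd hQ hb Y (norm_pos_iff.1 hz0)).trans ?_
      rw [div_le_div_iff₀ hz0 hY]
      nlinarith
  · refine key0 z (to_out hT ?_).2
    intro h
    have h1 : tsupport (toS Y) ⊆ closedBall (0 : ℂ) 1 := by
      refine closure_minimal ?_ isClosed_closedBall
      intro u hu
      by_contra hu'
      exact hu ((toS_test Y).2 u hu')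
    exact hz (h1 h)
  · refine key z _ (by positivity) ?_
    have hz0 : 0 < ‖z‖ := by linarith
    refine (toS_bd hQ hb Y (norm_pos_iff.1 hz0)).trans ?_
    rw [div_le_iff₀ hz0]
    nlinarith

/-- oscillation of the Cauchy transform of the density -/
private theorem toG_osc {V : Set ℂ} {f : ℂ → ℂ} {N Q : ℝ} (hV : IsOpen V) (hN0 : 0 ≤ N)
    (hf : DifferentiableOn ℂ f V) (hfN : ∀ z ∈ V, ‖f z‖ ≤ N) (hQ : 1 ≤ Q)
    (hb : ∀ y z, ‖dzb (psx y) z‖ ≤ Q / rad y) (Y : ℕ) {z z' : ℂ} (hz1 : 2 * rad Y ≤ ‖z‖)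
    (hz2 : ‖z‖ ≤ 1 / 4) (hz1' : 2 * rad Y ≤ ‖z'‖) (hz2' : ‖z'‖ ≤ 1 / 4) :
    ‖Cau (toG V f Y) z - Cau (toG V f Y) z'‖ ≤
      320 * Q * N * ‖z - z'‖ + 40 * Q * N * rad Y * (1 / ‖z‖ + 1 / ‖z'‖) := by
  obtain ⟨g1, g2, g3, g4, g5⟩ := toG_facts hV hN0 hf hfN hQ hb Y
  have hY := to_rad_pos Y
  have i1 := to_int one_pos g1 g2 g3 z
  have i2 := to_int one_pos g1 g2 g3 z'
  have hz0 : 0 < ‖z‖ := by linarith
  have hz0' : 0 < ‖z'‖ := by linarith
  set c₁ : ℝ := 320 * Q * N * ‖z - z'‖ with hc₁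
  set c₂ : ℝ := N * (20 * Q / rad Y) * (2 / ‖z‖ + 2 / ‖z'‖) with hc₂
  have hc1 : 0 ≤ c₁ := by positivity
  have hc2 : 0 ≤ c₂ := by positivity
  have hbd : ∀ ζ, ‖toG V f Y ζ / (z - ζ) - toG V f Y ζ / (z' - ζ)‖ ≤
      (closedBall (0 : ℂ) 1).indicator (fun _ => c₁) ζ +
      (closedBall (0 : ℂ) (rad Y)).indicator (fun _ => c₂) ζ := by
    intro ζ
    have n1 : 0 ≤ (closedBall (0 : ℂ) 1).indicator (fun _ => c₁) ζ := indicator_nonneg (fun _ _ => hc1) ζ
    have n2 : 0 ≤ (closedBall (0 : ℂ) (rad Y)).indicator (fun _ => c₂) ζ :=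
      indicator_nonneg (fun _ _ => hc2) ζ
    by_cases h1 : ζ ∈ closedBall (0 : ℂ) 1
    swap
    · rw [g3 ζ h1, zero_div, zero_div, sub_zero, norm_zero]
      linarith
    by_cases h2 : ζ ∈ closedBall (0 : ℂ) (rad Y)
    · rw [indicator_of_mem h2]
      rw [mem_closedBall, dist_zero_right] at h2
      have k : ∀ u : ℂ, 2 * rad Y ≤ ‖u‖ → ‖toG V f Y ζ / (u - ζ)‖ ≤
          N * (20 * Q / rad Y) * (2 / ‖u‖) := by
        intro u hu
        have hu0 : 0 < ‖u‖ := by linarith
        have k1 : ‖u‖ / 2 ≤ ‖u - ζ‖ := by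
          have := norm_sub_norm_le u ζ
          linarith
        have k2 : 0 < ‖u - ζ‖ := by linarith
        rw [norm_div, div_eq_mul_one_div]
        refine mul_le_mul (g2 ζ) ?_ (by positivity) (by positivity)
        rw [div_le_div_iff₀ k2 hu0]
        linarith
      have k3 := k z hz1
      have k4 := k z' hz1'
      have k5 := norm_sub_le (toG V f Y ζ / (z - ζ)) (toG V f Y ζ / (z' - ζ))
      have k6 : c₂ = N * (20 * Q / rad Y) * (2 / ‖z‖) + N * (20 * Q / rad Y) * (2 / ‖z'‖) := by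
        rw [hc₂]
        ring
      linarith
    · by_cases h3 : ‖ζ‖ < 1 / 2
      · rw [mem_closedBall, dist_zero_right, not_le] at h2
        rw [g4 ζ h2 h3, zero_div, zero_div, sub_zero, norm_zero]
        linarith
      · rw [not_lt] at h3
        rw [indicator_of_mem h1]
        have k1 : 1 / 4 ≤ ‖z - ζ‖ := by
          have := norm_sub_norm_le ζ z
          rw [norm_sub_rev] at this
          linarith
        have k2 : 1 / 4 ≤ ‖z' - ζ‖ := by
          have := norm_sub_norm_le ζ z'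
          rw [norm_sub_rev] at this
          linarith
        have m1 : z - ζ ≠ 0 := norm_pos_iff.1 (by linarith)
        have m2 : z' - ζ ≠ 0 := norm_pos_iff.1 (by linarith)
        have k3 : toG V f Y ζ / (z - ζ) - toG V f Y ζ / (z' - ζ) =
            toG V f Y ζ * (z' - z) / ((z - ζ) * (z' - ζ)) := by
          field_simp
          ring
        rw [k3, norm_div, norm_mul, norm_mul]
        have k4 : 1 / 16 ≤ ‖z - ζ‖ * ‖z' - ζ‖ := by nlinarith
        have k5 : ‖toG V f Y ζ‖ * ‖z' - z‖ / (‖z - ζ‖ * ‖z' - ζ‖) ≤ c₁ := by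
          rw [div_le_iff₀ (by linarith), norm_sub_rev z' z]
          have k6 := g5 ζ h3
          have k7 : ‖toG V f Y ζ‖ * ‖z - z'‖ ≤ N * (20 * Q) * ‖z - z'‖ :=
            mul_le_mul_of_nonneg_right k6 (norm_nonneg _)
          have k8 : c₁ * (1 / 16) ≤ c₁ * (‖z - ζ‖ * ‖z' - ζ‖) :=
            mul_le_mul_of_nonneg_left k4 hc1
          rw [hc₁] at k8 ⊢
          linarith
        linarith
  have j1 : Integrable ((closedBall (0 : ℂ) 1).indicator (fun _ : ℂ => c₁)) := by
    rw [integrable_indicator_iff measurableSet_closedBall]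
    exact integrableOn_const measure_closedBall_lt_top.ne
  have j2 : Integrable ((closedBall (0 : ℂ) (rad Y)).indicator (fun _ : ℂ => c₂)) := by
    rw [integrable_indicator_iff measurableSet_closedBall]
    exact integrableOn_const measure_closedBall_lt_top.ne
  have hvol : ∀ r : ℝ, 0 ≤ r → volume.real (closedBall (0 : ℂ) r) = Real.pi * r ^ 2 := by
    intro r hr
    rw [Measure.real, Complex.volume_closedBall, ENNReal.toReal_mul, ENNReal.toReal_pow,
      ENNReal.toReal_ofReal hr]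
    simp [NNReal.coe_real_pi, mul_comm]
  have m1 : ‖∫ ζ, (toG V f Y ζ / (z - ζ) - toG V f Y ζ / (z' - ζ))‖ ≤
      Real.pi * c₁ + Real.pi * rad Y ^ 2 * c₂ := by
    refine (norm_integral_le_of_norm_le (j1.add j2) (Eventually.of_forall hbd)).trans ?_
    have e1 : ∫ ζ, ((closedBall (0 : ℂ) 1).indicator (fun _ : ℂ => c₁) +
        (closedBall (0 : ℂ) (rad Y)).indicator (fun _ : ℂ => c₂)) ζ =
        (∫ ζ, (closedBall (0 : ℂ) 1).indicator (fun _ : ℂ => c₁) ζ) +
        ∫ ζ, (closedBall (0 : ℂ) (rad Y)).indicator (fun _ : ℂ => c₂) ζ := integral_add j1 j2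
    rw [e1, integral_indicator_const _ measurableSet_closedBall,
      integral_indicator_const _ measurableSet_closedBall, hvol 1 zero_le_one, hvol _ hY.le]
    simp [smul_eq_mul]
  have m2 : Cau (toG V f Y) z - Cau (toG V f Y) z' =
      (1 / (Real.pi : ℂ)) * ∫ ζ, (toG V f Y ζ / (z - ζ) - toG V f Y ζ / (z' - ζ)) := by
    rw [integral_sub i1 i2]
    unfold QC.Cau
    ring
  rw [m2, norm_mul, norm_div, norm_one, Complex.norm_real, Real.norm_of_nonneg Real.pi_pos.le]
  have hpi := Real.pi_pos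
  calc 1 / Real.pi * ‖∫ ζ, (toG V f Y ζ / (z - ζ) - toG V f Y ζ / (z' - ζ))‖
      ≤ 1 / Real.pi * (Real.pi * c₁ + Real.pi * rad Y ^ 2 * c₂) :=
        mul_le_mul_of_nonneg_left m1 (by positivity)
    _ = 320 * Q * N * ‖z - z'‖ + 40 * Q * N * rad Y * (1 / ‖z‖ + 1 / ‖z'‖) := by
        rw [hc₁, hc₂]
        field_simp
        ring

/-- the decomposition -/
private theorem to_dec {V : Set ℂ} {f : ℂ → ℂ} {N Q : ℝ} (hV : IsOpen V) (hN0 : 0 ≤ N)
    (hf : DifferentiableOn ℂ f V) (hfN : ∀ z ∈ V, ‖f z‖ ≤ N) (hQ : 1 ≤ Q)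
    (hb : ∀ y z, ‖dzb (psx y) z‖ ≤ Q / rad y) (Y : ℕ) {z : ℂ} (h1 : rad Y ≤ ‖z‖)
    (h2 : ‖z‖ ≤ 1 / 2) :
    V.indicator f z = (∑ y ∈ Finset.Icc 1 Y, TT V f (psx y) z) + Cau (toG V f Y) z := by
  have e1 : toG V f Y = fun ζ => ∑ y ∈ Finset.Icc 1 Y,
      V.indicator (fun w => f w * dzb (psx y) w) ζ := by
    funext ζ
    unfold toG
    by_cases hζ : ζ ∈ V
    · rw [indicator_of_mem hζ, toS_dzb, Finset.mul_sum]
      exact Finset.sum_congr rfl fun y _ => by rw [indicator_of_mem hζ]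
    · rw [indicator_of_notMem hζ, Finset.sum_eq_zero fun y _ => indicator_of_notMem hζ _]
  have e2 : Cau (toG V f Y) z = ∑ y ∈ Finset.Icc 1 Y,
      Cau (V.indicator fun w => f w * dzb (psx y) w) z := by
    rw [e1]
    refine to_cau_sum _ _ z fun y _ => ?_
    have hT := (psx_facts y).1
    have hm := (TT_meas hV isOpen_univ (by rwa [inter_univ]) hT).2
    have hY := to_rad_pos y
    refine to_int (a := 0) (ρ := 2 * rad y) (N := N * (Q / rad y)) (by positivity) hm
      (fun u => ?_) (fun u hu => ?_) z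
    · by_cases hu : u ∈ V
      · rw [indicator_of_mem hu, norm_mul]
        exact mul_le_mul (hfN u hu) (hb y u) (norm_nonneg _) hN0
      · rw [indicator_of_notMem hu, norm_zero]
        positivity
    · rw [mem_closedBall, dist_zero_right] at hu
      by_cases hu' : u ∈ V
      · rw [indicator_of_mem hu', (to_psx0 fun h => hu h.2).2, mul_zero]
      · rw [indicator_of_notMem hu']
  rw [e2, ← Finset.sum_add_distrib]
  have e3 : ∀ y, TT V f (psx y) z + Cau (V.indicator fun w => f w * dzb (psx y) w) z =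
      psx y z * V.indicator f z := by
    intro y
    unfold TT
    rw [sub_add_cancel]
    by_cases hz : z ∈ V
    · rw [indicator_of_mem hz, indicator_of_mem hz]
    · rw [indicator_of_notMem hz, indicator_of_notMem hz, mul_zero]
  rw [Finset.sum_congr rfl fun y _ => e3 y, ← Finset.sum_mul]
  have e4 : ∑ y ∈ Finset.Icc 1 Y, psx y z = 1 := toS_one h1 h2
  rw [e4, one_mul]

private theorem to_err (V : Set ℂ) (x : ℕ) (s : Finset ℕ) :
    ∑ y ∈ s, (1 / 2 : ℝ) ^ dd x y * Gx V y ≤ err V x := by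
  obtain ⟨C, hC, hG⟩ := Gx_facts
  have h0 : ∀ y, 0 ≤ (1 / 2 : ℝ) ^ dd x y * Gx V y := fun y =>
    mul_nonneg (by positivity) (hG V y).1
  have hsum : Summable fun y => (1 / 2 : ℝ) ^ dd x y * Gx V y := by
    refine Summable.of_nonneg_of_le h0 (fun y => ?_)
      ((summable_geometric_of_lt_one (r := (1 / 2 : ℝ)) (by norm_num) (by norm_num)).mul_left
        (2 ^ x * C))
    have h1 : (1 / 2 : ℝ) ^ dd x y ≤ 2 ^ x * (1 / 2) ^ y := by
      have h2 : y ≤ dd x y + x := by
        unfold dd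
        omega
      have h3 : (1 / 2 : ℝ) ^ (dd x y + x) ≤ (1 / 2) ^ y :=
        pow_le_pow_of_le_one (by norm_num) (by norm_num) h2
      rw [pow_add] at h3
      have h4 : (1 / 2 : ℝ) ^ x * 2 ^ x = 1 := by
        rw [← mul_pow]
        norm_num
      have h5 : (0 : ℝ) < 2 ^ x := by positivity
      calc (1 / 2 : ℝ) ^ dd x y = (1 / 2) ^ dd x y * ((1 / 2) ^ x * 2 ^ x) := by rw [h4, mul_one]
        _ = 2 ^ x * ((1 / 2) ^ dd x y * (1 / 2) ^ x) := by ring
        _ ≤ 2 ^ x * (1 / 2) ^ y := mul_le_mul_of_nonneg_left h3 h5.le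
    calc (1 / 2 : ℝ) ^ dd x y * Gx V y ≤ (2 ^ x * (1 / 2) ^ y) * C :=
          mul_le_mul h1 (hG V y).2.1 (hG V y).1 (by positivity)
      _ = 2 ^ x * C * (1 / 2) ^ y := by ring
  have h1 := hsum.sum_le_tsum s fun y _ => h0 y
  unfold err
  have h2 : (0 : ℝ) ≤ (1 / 2) ^ x := by positivity
  linarith

/-- the approximation by `H` -/
private theorem to_main : ∃ C : ℝ, 0 < C ∧ ∀ (V : Set ℂ) (N : ℝ) (f : ℂ → ℂ) (x Y : ℕ), IsOpen V →
    0 ≤ N → DifferentiableOn ℂ f V → (∀ z ∈ V, ‖f z‖ ≤ N) → 3 ≤ x → x + 9 ≤ Y →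
    ∀ z : ℂ, rad x / 2 ≤ ‖z‖ → ‖z‖ ≤ 2 * rad x →
    ‖alx V x f z - (Cau (toG V f Y) z +
      ∑ y ∈ (Finset.Icc 1 Y).filter fun y => ¬ dd x y ≤ 4, TT V f (psx y) z)‖ ≤
      C * N * err V x := by
  obtain ⟨Q, hQ, hb⟩ := psx_dzb
  obtain ⟨CT, hCT, hT⟩ := Tx_facts
  obtain ⟨Cp, hCp, hp⟩ := ptw
  obtain ⟨Cs, hCs, hs⟩ := singlex
  obtain ⟨Ca, hCa, ha⟩ := alx_facts
  obtain ⟨Cg, hCg, hG⟩ := Gx_facts
  refine ⟨Cp * (16 * (Cs + CT * 256 * 16)), by positivity, ?_⟩
  intro V N f x Y hV hN0 hf hfN hx hxY z₀ hz1 hz2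
  have hr := to_rad_pos x
  have hY := to_rad_pos Y
  have hx8 : rad x ≤ 1 / 8 := by
    have h1 := to_rad_le (a := 0) (b := x) 3 (by omega)
    have h3 : rad 0 = 1 := by
      unfold rad
      simp
    rw [h3] at h1
    norm_num at h1
    linarith
  have hY9 : rad Y ≤ rad x / 512 := by
    have h1 := to_rad_le (a := x) (b := Y) 9 hxY
    norm_num at h1
    linarith
  have hfU : DifferentiableOn ℂ f (V ∩ Ux x) := hf.mono inter_subset_left
  have hNU : ∀ z ∈ V ∩ Ux x, ‖f z‖ ≤ N := fun z hz => hfN z hz.1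
  obtain ⟨a1, a2, a3⟩ := ha V x N f hV hN0 hfU hNU
  obtain ⟨g1, g2, g3, g4, g5⟩ := toG_facts hV hN0 hf hfN hQ hb Y
  have hcont : Continuous (Cau (toG V f Y)) := cauBdd_cont one_pos g1 g2 g3
  have hball : ∀ z ∈ ball z₀ (rad x / 4), rad x / 4 < ‖z‖ ∧ ‖z‖ < 3 * rad x := by
    intro z hz
    rw [mem_ball, dist_eq_norm] at hz
    have k1 := norm_sub_norm_le z₀ z
    have k2 := norm_sub_norm_le z z₀
    rw [norm_sub_rev] at k1
    constructor <;> linarith
  -- analyticity
  have hdG : DifferentiableOn ℂ (Cau (toG V f Y)) {z : ℂ | rad Y < ‖z‖ ∧ ‖z‖ < 1 / 2} := by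
    have hO : IsOpen {z : ℂ | rad Y < ‖z‖ ∧ ‖z‖ < 1 / 2} :=
      (isOpen_lt continuous_const continuous_norm).inter
        (isOpen_lt continuous_norm continuous_const)
    refine QC.weyl_cont hO hcont.continuousOn fun ψ hψ => ?_
    rw [cauBdd_weak g1 g2 g3 ⟨hψ.smooth, hψ.cpt, subset_univ _⟩]
    have : (fun z => toG V f Y z * ψ z) = fun _ => 0 := by
      funext z
      by_cases hz : z ∈ {z : ℂ | rad Y < ‖z‖ ∧ ‖z‖ < 1 / 2}
      · rw [g4 z hz.1 hz.2, zero_mul]
      · rw [image_eq_zero_of_notMem_tsupport fun hz' => hz (hψ.sub hz'), mul_zero]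
    rw [this, integral_zero, neg_zero]
  have hdT : ∀ y, ¬ dd x y ≤ 4 → DifferentiableOn ℂ (TT V f (psx y)) (ball z₀ (rad x / 4)) := by
    intro y hy
    refine (hT V N f y hV hN0 hf hfN).1.mono ?_
    intro z hz hzE
    obtain ⟨k1, k2⟩ := hball z hz
    obtain ⟨⟨k3, k4⟩, -⟩ := hzE
    unfold dd at hy
    rcases le_total x y with h | h
    · have k5 := to_rad_le (a := x) (b := y) 5 (by omega)
      norm_num at k5
      linarith
    · have k5 := to_rad_le (a := y) (b := x) 5 (by omega)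
      norm_num at k5
      linarith
  set A : ℂ → ℂ := fun z => alx V x f z - (Cau (toG V f Y) z +
      ∑ y ∈ (Finset.Icc 1 Y).filter fun y => ¬ dd x y ≤ 4, TT V f (psx y) z) with hA
  have hdA : DifferentiableOn ℂ A (ball z₀ (rad x / 4)) := by
    refine (a1.mono fun z hz => ?_).sub ((hdG.mono fun z hz => ?_).add ?_)
    · have := hball z hz
      exact ⟨this.1, by linarith [this.2]⟩
    · have := hball z hz
      exact ⟨by linarith [this.1], by linarith [this.2]⟩
    · refine DifferentiableOn.fun_sum fun y hy => ?_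
      exact hdT y (Finset.mem_filter.1 hy).2
  -- the weak estimate
  have herr0 : 0 ≤ err V x := (hG V x).1.trans (hG V x).2.2.1
  have hweak : ∀ (w : ℂ → ℂ) (W : ℝ), Test univ w → tsupport w ⊆ closedBall z₀ (rad x / 4 / 8) →
      (∀ u, ‖w u‖ ≤ W) →
      ‖∫ u, A u * w u‖ ≤ 16 * (Cs + CT * 256 * 16) * (N * err V x) * W * (rad x / 4) ^ 2 := by
    intro w W hw hws hwW
    have hW : 0 ≤ W := (norm_nonneg _).trans (hwW 0)
    have hwi := hw.smooth.continuous.integrable_of_hasCompactSupport (μ := volume) hw.cpt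
    have hsupp : ∀ z ∈ tsupport w, rad x / 3 ≤ ‖z‖ ∧ ‖z‖ ≤ 3 * rad x := by
      intro z hz
      have h1 := hws hz
      rw [mem_closedBall, dist_eq_norm] at h1
      have k1 := norm_sub_norm_le z₀ z
      have k2 := norm_sub_norm_le z z₀
      rw [norm_sub_rev] at k1
      constructor <;> linarith
    have hs1 := hs V x N W f w hV hN0 hW hfU hNU hw (fun z hz => hsupp z hz) hwW
    have hTm : ∀ y, Measurable (TT V f (psx y)) ∧ ∀ z, ‖TT V f (psx y) z‖ ≤ 73 * N * Q := by
      intro y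
      obtain ⟨p1, p2, p3⟩ := psx_facts y
      have hry := to_rad_pos y
      obtain ⟨b1, b2, -⟩ := TT_bounds (a := 0) (R := rad y) hV isOpen_univ hry hN0
        (by linarith : (0 : ℝ) ≤ Q) (by rwa [inter_univ]) (fun z hz => hfN z hz.1) p1
        (fun z hz => by
          have := (p3 hz).2
          rw [mem_closedBall, dist_zero_right]
          linarith) (fun z => (p2 z).trans hQ) (hb y)
      exact ⟨b1, b2⟩
    have hTi : ∀ y, Integrable fun z => TT V f (psx y) z * w z := fun y =>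
      hwi.bdd_mul (hTm y).1.aestronglyMeasurable (Filter.Eventually.of_forall (hTm y).2)
    have hVf : AEStronglyMeasurable (V.indicator f) volume :=
      (aestronglyMeasurable_indicator_iff hV.measurableSet).2
        (hf.continuousOn.aestronglyMeasurable hV.measurableSet)
    have hVN : ∀ z, ‖V.indicator f z‖ ≤ N := by
      intro z
      by_cases hz : z ∈ V
      · rw [indicator_of_mem hz]
        exact hfN z hz
      · rw [indicator_of_notMem hz, norm_zero]
        exact hN0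
    have i1 : Integrable fun z => (V.indicator f z - alx V x f z) * w z := by
      refine hwi.bdd_mul (c := N + Ca * N) (hVf.sub a2.aestronglyMeasurable)
        (Filter.Eventually.of_forall fun z => ?_)
      exact (norm_sub_le _ _).trans (add_le_add (hVN z) (a3 z))
    have hD : ∀ y ∈ (Finset.Icc 1 Y).filter fun y => dd x y ≤ 4,
        ‖∫ z, TT V f (psx y) z * w z‖ ≤
          CT * N * W * (256 * rad x ^ 2) * (16 * ((1 / 2) ^ dd x y * Gx V y)) := by
      intro y hy
      have hy4 : dd x y ≤ 4 := (Finset.mem_filter.1 hy).2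
      have hry := to_rad_pos y
      have hy5 : rad x ≤ 16 * rad y := by
        have h1 : y ≤ x + 4 := by
          unfold dd at hy4
          omega
        have h2 : rad (x + 4) ≤ rad y := by
          have := to_rad_le (a := y) (b := x + 4) 0 (by omega)
          rwa [pow_zero, mul_one] at this
        have h3 : rad (x + 4) = rad x * (1 / 2) ^ 4 := by
          unfold rad
          rw [pow_add]
        rw [h3] at h2
        norm_num at h2
        linarith
      have hy6 : rad y ≤ 16 * rad x := by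
        have h1 : x ≤ y + 4 := by
          unfold dd at hy4
          omega
        have h2 : rad (y + 4) ≤ rad x := by
          have := to_rad_le (a := x) (b := y + 4) 0 (by omega)
          rwa [pow_zero, mul_one] at this
        have h3 : rad (y + 4) = rad y * (1 / 2) ^ 4 := by
          unfold rad
          rw [pow_add]
        rw [h3] at h2
        norm_num at h2
        linarith
      have h1 := (hT V N f y hV hN0 hf hfN).2.2.2 w W hw (fun z hz => by
        have := (hsupp z hz).2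
        rw [mem_closedBall, dist_zero_right]
        linarith) hwW
      refine h1.trans ?_
      have hGy := (hG V y).1
      have h2 : rad y ^ 2 ≤ 256 * rad x ^ 2 := by nlinarith
      have h3 : Gx V y ≤ 16 * ((1 / 2) ^ dd x y * Gx V y) := by
        have h4 : (1 / 2 : ℝ) ^ 4 ≤ (1 / 2) ^ dd x y :=
          pow_le_pow_of_le_one (by norm_num) (by norm_num) hy4
        norm_num at h4
        nlinarith
      calc CT * N * W * rad y ^ 2 * Gx V y ≤ CT * N * W * (256 * rad x ^ 2) * Gx V y := by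
            refine mul_le_mul_of_nonneg_right ?_ hGy
            exact mul_le_mul_of_nonneg_left h2 (by positivity)
        _ ≤ _ := mul_le_mul_of_nonneg_left h3 (by positivity)
    have hsplit : ∫ u, A u * w u = -(∫ z, (V.indicator f z - alx V x f z) * w z) +
        ∑ y ∈ (Finset.Icc 1 Y).filter fun y => dd x y ≤ 4, ∫ z, TT V f (psx y) z * w z := by
      have j1 : Integrable fun z => -((V.indicator f z - alx V x f z) * w z) := i1.neg
      have j2 : Integrable fun z => ∑ y ∈ (Finset.Icc 1 Y).filter fun y => dd x y ≤ 4,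
          TT V f (psx y) z * w z := integrable_finsetSum _ fun y _ => hTi y
      rw [← integral_finsetSum _ fun y _ => hTi y, ← integral_neg, ← integral_add j1 j2]
      refine integral_congr_ae (Eventually.of_forall fun z => ?_)
      simp only [hA]
      by_cases hz : z ∈ tsupport w
      · obtain ⟨k1, k2⟩ := hsupp z hz
        have k3 := to_dec hV hN0 hf hfN hQ hb Y (z := z) (by linarith) (by linarith)
        have k4 := Finset.sum_filter_add_sum_filter_not (Finset.Icc 1 Y) (fun y => dd x y ≤ 4)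
          (fun y => TT V f (psx y) z)
        rw [k3, ← k4, ← Finset.sum_mul]
        ring
      · rw [image_eq_zero_of_notMem_tsupport hz]
        simp
    rw [hsplit]
    refine (norm_add_le _ _).trans ?_
    rw [norm_neg]
    have m1 : ‖∑ y ∈ (Finset.Icc 1 Y).filter fun y => dd x y ≤ 4,
        ∫ z, TT V f (psx y) z * w z‖ ≤ CT * N * W * (256 * rad x ^ 2) * (16 * err V x) := by
      refine (norm_sum_le_of_le _ hD).trans ?_
      rw [← Finset.mul_sum, ← Finset.mul_sum]
      exact mul_le_mul_of_nonneg_left (mul_le_mul_of_nonneg_left (to_err V x _) (by norm_num))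
        (by positivity)
    have m2 : Cs * N * W * rad x ^ 2 * Gx V x ≤ Cs * N * W * rad x ^ 2 * err V x :=
      mul_le_mul_of_nonneg_left (hG V x).2.2.1 (by positivity)
    have m3 : 16 * (Cs + CT * 256 * 16) * (N * err V x) * W * (rad x / 4) ^ 2 =
        Cs * N * W * rad x ^ 2 * err V x + CT * N * W * (256 * rad x ^ 2) * (16 * err V x) := by
      ring
    rw [m3]
    linarith
  have hfin := hp A z₀ (rad x / 4) (16 * (Cs + CT * 256 * 16) * (N * err V x)) (by positivity)
    (by positivity) hdA hweak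
  have e1 : Cp * (16 * (Cs + CT * 256 * 16) * (N * err V x)) =
      Cp * (16 * (Cs + CT * 256 * 16)) * N * err V x := by
    ring
  rw [e1] at hfin
  exact hfin

theorem oscx : ∃ C : ℝ, 0 < C ∧ ∀ (V : Set ℂ) (N : ℝ) (f : ℂ → ℂ) (x : ℕ), IsOpen V →
    V ⊆ ball 0 1 \ {0} → 0 ≤ N → DifferentiableOn ℂ f V → (∀ z ∈ V, ‖f z‖ ≤ N) →
    ∀ z z' : ℂ, rad x / 2 ≤ ‖z‖ → ‖z‖ ≤ 2 * rad x → rad x / 2 ≤ ‖z'‖ → ‖z'‖ ≤ 2 * rad x →
    ‖alx V x f z - alx V x f z'‖ ≤ C * N * err V x := by
  obtain ⟨Q, hQ, hb⟩ := psx_dzb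
  obtain ⟨CT, hCT, hT⟩ := Tx_facts
  obtain ⟨Cm, hCm, hm⟩ := to_main
  obtain ⟨Ca, hCa, ha⟩ := alx_facts
  obtain ⟨Cg, hCg, hG⟩ := Gx_facts
  refine ⟨2 * Ca * 8 + 2 * Cm + (320 * Q * 4 + 160 * Q + 4 * CT), by positivity, ?_⟩
  intro V N f x hV _ hN0 hf hfN z z' hz1 hz2 hz1' hz2'
  have hr := to_rad_pos x
  have hfU : DifferentiableOn ℂ f (V ∩ Ux x) := hf.mono inter_subset_left
  have hNU : ∀ z ∈ V ∩ Ux x, ‖f z‖ ≤ N := fun z hz => hfN z hz.1
  obtain ⟨-, -, a3⟩ := ha V x N f hV hN0 hfU hNU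
  have herr : (1 / 2 : ℝ) ^ x ≤ err V x := (hG V x).2.2.2.2.2.2
  have herr0 : 0 ≤ err V x := le_trans (by positivity) herr
  have hNe : 0 ≤ N * err V x := mul_nonneg hN0 herr0
  rcases Nat.lt_or_ge x 3 with hx | hx
  · have h1 : (1 / 8 : ℝ) ≤ (1 / 2) ^ x := by
      have h2 : (1 / 2 : ℝ) ^ 3 ≤ (1 / 2) ^ x :=
        pow_le_pow_of_le_one (by norm_num) (by norm_num) hx.le
      norm_num at h2
      norm_num
      linarith
    have h2 := (norm_sub_le (alx V x f z) (alx V x f z')).trans (add_le_add (a3 z) (a3 z'))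
    have h3 : N * 1 ≤ N * (8 * err V x) := mul_le_mul_of_nonneg_left (by linarith) hN0
    have h4 : Ca * N ≤ Ca * (8 * (N * err V x)) := by nlinarith
    have h5 : (2 * Ca * 8 + 2 * Cm + (320 * Q * 4 + 160 * Q + 4 * CT)) * N * err V x =
        2 * (Ca * (8 * (N * err V x))) + (2 * Cm + (320 * Q * 4 + 160 * Q + 4 * CT)) *
          (N * err V x) := by ring
    have h6 : 0 ≤ (2 * Cm + (320 * Q * 4 + 160 * Q + 4 * CT)) * (N * err V x) := by positivity
    rw [h5]
    linarith
  · have hx8 : rad x ≤ 1 / 8 := by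
      have h1 := to_rad_le (a := 0) (b := x) 3 (by omega)
      have h3 : rad 0 = 1 := by
        unfold rad
        simp
      rw [h3] at h1
      norm_num at h1
      linarith
    obtain ⟨Y, hY⟩ : ∃ Y, Y = 2 * x + 9 := ⟨_, rfl⟩
    have hYp := to_rad_pos Y
    have hY1 : rad Y ≤ rad x * rad x := by
      have h1 := to_rad_le (a := x) (b := Y) x (by omega)
      exact h1
    have hY2 : rad Y ≤ rad x / 4 := by
      have h1 := to_rad_le (a := x) (b := Y) 2 (by omega)
      norm_num at h1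
      linarith
    have hme := hm V N f x Y hV hN0 hf hfN hx (by omega)
    have k1 := hme z hz1 hz2
    have k2 := hme z' hz1' hz2'
    have k3 := toG_osc hV hN0 hf hfN hQ hb Y (z := z) (z' := z') (by linarith) (by linarith)
      (by linarith) (by linarith)
    have hz0 : 0 < ‖z‖ := by linarith
    have hz0' : 0 < ‖z'‖ := by linarith
    have hzz : ‖z - z'‖ ≤ 4 * rad x := by
      have := norm_sub_le z z'
      linarith
    have hre : rad x ≤ err V x := herr
    have k4 : 320 * Q * N * ‖z - z'‖ + 40 * Q * N * rad Y * (1 / ‖z‖ + 1 / ‖z'‖) ≤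
        (320 * Q * 4 + 160 * Q) * (N * err V x) := by
      have e1 : ‖z - z'‖ ≤ 4 * err V x := by linarith
      have e2 : 1 / ‖z‖ + 1 / ‖z'‖ ≤ 4 / rad x := by
        have e3 : 1 / ‖z‖ ≤ 2 / rad x := by
          rw [div_le_div_iff₀ hz0 hr]
          linarith
        have e4 : 1 / ‖z'‖ ≤ 2 / rad x := by
          rw [div_le_div_iff₀ hz0' hr]
          linarith
        have e5 : 4 / rad x = 2 / rad x + 2 / rad x := by ring
        linarith
      have e3 : rad Y * (1 / ‖z‖ + 1 / ‖z'‖) ≤ 4 * err V x := by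
        calc rad Y * (1 / ‖z‖ + 1 / ‖z'‖) ≤ rad x * rad x * (4 / rad x) :=
              mul_le_mul hY1 e2 (by positivity) (by positivity)
          _ = 4 * rad x := by
              field_simp
          _ ≤ 4 * err V x := by linarith
      have e4 : 320 * Q * N * ‖z - z'‖ ≤ 320 * Q * N * (4 * err V x) :=
        mul_le_mul_of_nonneg_left e1 (by positivity)
      have e5 : 40 * Q * N * (rad Y * (1 / ‖z‖ + 1 / ‖z'‖)) ≤ 40 * Q * N * (4 * err V x) :=
        mul_le_mul_of_nonneg_left e3 (by positivity)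
      calc 320 * Q * N * ‖z - z'‖ + 40 * Q * N * rad Y * (1 / ‖z‖ + 1 / ‖z'‖) =
          320 * Q * N * ‖z - z'‖ + 40 * Q * N * (rad Y * (1 / ‖z‖ + 1 / ‖z'‖)) := by ring
        _ ≤ 320 * Q * N * (4 * err V x) + 40 * Q * N * (4 * err V x) := add_le_add e4 e5
        _ = (320 * Q * 4 + 160 * Q) * (N * err V x) := by ring
    have k5 : ‖(∑ y ∈ (Finset.Icc 1 Y).filter fun y => ¬ dd x y ≤ 4, TT V f (psx y) z) -
        ∑ y ∈ (Finset.Icc 1 Y).filter fun y => ¬ dd x y ≤ 4, TT V f (psx y) z'‖ ≤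
        4 * CT * (N * err V x) := by
      rw [← Finset.sum_sub_distrib]
      have e1 : ∀ y ∈ (Finset.Icc 1 Y).filter fun y => ¬ dd x y ≤ 4,
          ‖TT V f (psx y) z - TT V f (psx y) z'‖ ≤
            4 * CT * N * ((1 / 2) ^ dd x y * Gx V y) := by
        intro y hy
        have hy4 : ¬ dd x y ≤ 4 := (Finset.mem_filter.1 hy).2
        have hry := to_rad_pos y
        have hGy := (hG V y).1
        obtain ⟨-, t2, t3, -⟩ := hT V N f y hV hN0 hf hfN
        rcases le_total x y with h | h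
        · have hd : dd x y = y - x := by
            unfold dd
            omega
          have e2 : rad y = rad x * (1 / 2) ^ dd x y := by
            unfold rad
            rw [← pow_add]
            congr 1
            omega
          have e3 : rad y ≤ rad x / 32 := by
            have := to_rad_le (a := x) (b := y) 5 (by omega)
            norm_num at this
            linarith
          have e4 : ∀ u : ℂ, rad x / 2 ≤ ‖u‖ → ‖TT V f (psx y) u‖ ≤
              2 * CT * N * ((1 / 2) ^ dd x y * Gx V y) := by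
            intro u hu
            have hu0 : 0 < ‖u‖ := by linarith
            refine (t2 u (by linarith)).trans ?_
            rw [div_le_iff₀ hu0, e2]
            have e5 : 0 ≤ CT * N * Gx V y * (1 / 2) ^ dd x y := by positivity
            nlinarith
          refine (norm_sub_le _ _).trans ((add_le_add (e4 z hz1) (e4 z' hz1')).trans (le_of_eq ?_))
          ring
        · have hd : dd x y = x - y := by
            unfold dd
            omega
          have e2 : rad x = rad y * (1 / 2) ^ dd x y := by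
            unfold rad
            rw [← pow_add]
            congr 1
            omega
          have e3 : rad x ≤ rad y / 32 := by
            have := to_rad_le (a := y) (b := x) 5 (by omega)
            norm_num at this
            linarith
          refine (t3 z z' (by linarith) (by linarith)).trans ?_
          rw [div_le_iff₀ hry]
          have e5 : CT * N * Gx V y * ‖z - z'‖ ≤ CT * N * Gx V y * (4 * rad x) :=
            mul_le_mul_of_nonneg_left hzz (by positivity)
          refine e5.trans (le_of_eq ?_)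
          rw [e2]
          ring
      refine (norm_sum_le_of_le _ e1).trans ?_
      rw [← Finset.mul_sum]
      calc 4 * CT * N * ∑ y ∈ (Finset.Icc 1 Y).filter fun y => ¬ dd x y ≤ 4,
            (1 / 2) ^ dd x y * Gx V y ≤ 4 * CT * N * err V x :=
            mul_le_mul_of_nonneg_left (to_err V x _) (by positivity)
        _ = 4 * CT * (N * err V x) := by ring
    set s₁ : ℂ := ∑ y ∈ (Finset.Icc 1 Y).filter fun y => ¬ dd x y ≤ 4, TT V f (psx y) z with hs₁
    set s₂ : ℂ := ∑ y ∈ (Finset.Icc 1 Y).filter fun y => ¬ dd x y ≤ 4, TT V f (psx y) z' with hs₂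
    have e1 : alx V x f z - alx V x f z' = (alx V x f z - (Cau (toG V f Y) z + s₁)) -
        (alx V x f z' - (Cau (toG V f Y) z' + s₂)) +
        ((Cau (toG V f Y) z - Cau (toG V f Y) z') + (s₁ - s₂)) := by ring
    rw [e1]
    have n1 := norm_add_le ((alx V x f z - (Cau (toG V f Y) z + s₁)) -
        (alx V x f z' - (Cau (toG V f Y) z' + s₂)))
        ((Cau (toG V f Y) z - Cau (toG V f Y) z') + (s₁ - s₂))
    have n2 := norm_sub_le (alx V x f z - (Cau (toG V f Y) z + s₁))
        (alx V x f z' - (Cau (toG V f Y) z' + s₂))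
    have n3 := norm_add_le (Cau (toG V f Y) z - Cau (toG V f Y) z') (s₁ - s₂)
    have n4 : (2 * Ca * 8 + 2 * Cm + (320 * Q * 4 + 160 * Q + 4 * CT)) * N * err V x =
        2 * Ca * 8 * (N * err V x) + (2 * (Cm * N * err V x)) +
        ((320 * Q * 4 + 160 * Q) * (N * err V x) + 4 * CT * (N * err V x)) := by ring
    have n5 : 0 ≤ 2 * Ca * 8 * (N * err V x) := by positivity
    rw [n4]
    linarith

end Pool.Agent.Work.MP_2cf110_an.Hyp

end
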