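import Pool.Agent.Work.MP_2cf110_an.Hyp.TaBez
import Pool.Agent.Work.MP_2cf110_an.Hyp.TaOsc
import Pool.Agent.Work.MP_2cf110_an.Hyp.TaAlg

/-! # Lower bound for the approximate values, and the improved solutions

low: bezx at z = rad x: |Σ cx_j b_j - 1| ≤ C Gx ≤ C err, |b_j| ≤ C.  gt is analytic where alx V x is (rad x/4 < |z| < 4 rad x), bounded; Σ_p f_p gt_p = 1 since the correction is antisymmetric.
step: |cx (x+1) - cx x| ≤ C err: consx at z = rad (x+1) = rad x/2 and oscx. -/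

open MeasureTheory Complex Set Metric Filter
open scoped Topology ContDiff ComplexConjugate

noncomputable section

namespace Pool.Agent.Work.MP_2cf110_an.Hyp

open QC (dz dzb Test Cau)

variable {n : ℕ}

private theorem rad_pos (x : ℕ) : 0 < rad x := by
  unfold rad
  positivity

private theorem rad_succ (x : ℕ) : rad (x + 1) = rad x / 2 := by
  unfold rad
  rw [pow_succ]
  ring

private theorem norm_rad (x : ℕ) : ‖((rad x : ℝ) : ℂ)‖ = rad x := by
  rw [Complex.norm_real, Real.norm_of_nonneg (rad_pos x).le]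

private theorem Ux_Ann (x : ℕ) : Ux x ⊆ Ann x := by
  intro z hz
  have hr := rad_pos x
  exact ⟨lt_of_le_of_lt (by linarith) hz.1, lt_of_lt_of_le hz.2 (by linarith)⟩

theorem cx_low {K : ℝ} (hK : 1 ≤ K) : ∃ c κ : ℝ, 0 < c ∧ 0 < κ ∧
    ∀ (V : Set ℂ) (f : Fin n → ℂ → ℂ) (g : ℕ → Fin n → ℂ → ℂ), TD K V f g →
    ∀ x, err V x ≤ κ → c ≤ ∑ j, ‖cx V f x j‖ ^ 2 := by
  obtain ⟨C, hC, hbez⟩ := bezx n
  obtain ⟨C1, hC1, hal⟩ := alx_facts
  obtain ⟨C2, hC2, hG⟩ := Gx_facts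
  have hK0 : 0 < K := by linarith
  set M : ℝ := C1 * K with hM
  have hM0 : 0 < M := by positivity
  refine ⟨1 / (4 * M ^ 2 * (n + 1)), 1 / (2 * (C * (1 + K * K))), by positivity, by positivity, ?_⟩
  intro V f g hT x hx
  have hr := rad_pos x
  have hnr := norm_rad x
  have hf : BA K (V ∩ Ux x) f := hT.f_ba.mono inter_subset_left
  have hgb : BA K (V ∩ Ux x) (g x) := (hT.g_ba x).mono (inter_subset_inter_right _ (Ux_Ann x))
  have hs : ∀ z ∈ V ∩ Ux x, ∑ j, f j z * g x j z = 1 := fun z hz =>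
    hT.sol x z ⟨hz.1, Ux_Ann x hz.2⟩
  have key := hbez V x K K f (g x) hT.V_open hK0.le hK0.le hf hgb hs ((rad x : ℝ) : ℂ)
    (by rw [hnr]; linarith) (by rw [hnr]; linarith)
  have hb : ∀ j, ‖alx V x (g x j) ((rad x : ℝ) : ℂ)‖ ≤ M := fun j =>
    (hal V x K (g x j) hT.V_open hK0.le (hgb j).1 (hgb j).2).2.2 _
  have h1 : C * (1 + K * K) * Gx V x ≤ 1 / 2 := by
    have h2 : Gx V x ≤ 1 / (2 * (C * (1 + K * K))) := (hG V x).2.2.1.trans hx
    have h3 : 0 < C * (1 + K * K) := by positivity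
    rw [le_div_iff₀ (by positivity)] at h2
    nlinarith
  have h2 : ‖∑ j, cx V f x j * alx V x (g x j) ((rad x : ℝ) : ℂ) - 1‖ ≤ 1 / 2 := key.trans h1
  have h3 : 1 / 2 ≤ ‖∑ j, cx V f x j * alx V x (g x j) ((rad x : ℝ) : ℂ)‖ := by
    have h4 := norm_sub_norm_le (1 : ℂ) (∑ j, cx V f x j * alx V x (g x j) ((rad x : ℝ) : ℂ))
    rw [norm_one, norm_sub_rev] at h4
    linarith
  have h4 : ‖∑ j, cx V f x j * alx V x (g x j) ((rad x : ℝ) : ℂ)‖ ≤ M * ∑ j, ‖cx V f x j‖ := by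
    refine (norm_sum_le _ _).trans ?_
    rw [Finset.mul_sum]
    refine Finset.sum_le_sum fun j _ => ?_
    rw [norm_mul, mul_comm]
    exact mul_le_mul_of_nonneg_right (hb j) (norm_nonneg _)
  have h5 : (∑ j, ‖cx V f x j‖) ^ 2 ≤ n * ∑ j, ‖cx V f x j‖ ^ 2 := by
    have := sq_sum_le_card_mul_sum_sq (s := (Finset.univ : Finset (Fin n)))
      (f := fun j => ‖cx V f x j‖)
    simpa using this
  have h6 : 0 ≤ ∑ j, ‖cx V f x j‖ ^ 2 := Finset.sum_nonneg fun j _ => by positivity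
  have h7 : 0 ≤ ∑ j, ‖cx V f x j‖ := Finset.sum_nonneg fun j _ => norm_nonneg _
  have h8 : 1 / 2 ≤ M * ∑ j, ‖cx V f x j‖ := h3.trans h4
  have h9 : 1 / 4 ≤ M ^ 2 * (∑ j, ‖cx V f x j‖) ^ 2 := by
    have := mul_self_le_mul_self (by norm_num : (0 : ℝ) ≤ 1 / 2) h8
    nlinarith
  have h10 : 1 / 4 ≤ M ^ 2 * ((n + 1) * ∑ j, ‖cx V f x j‖ ^ 2) := by
    refine h9.trans (mul_le_mul_of_nonneg_left ?_ (by positivity))
    linarith
  rw [div_le_iff₀ (by positivity)]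
  nlinarith

theorem cx_step {K : ℝ} (hK : 1 ≤ K) : ∃ C : ℝ, 0 < C ∧
    ∀ (V : Set ℂ) (f : Fin n → ℂ → ℂ) (g : ℕ → Fin n → ℂ → ℂ), TD K V f g →
    ∀ x j, ‖cx V f x j‖ ≤ C ∧ ‖cx V f (x + 1) j - cx V f x j‖ ≤ C * err V x := by
  obtain ⟨C1, hC1, hal⟩ := alx_facts
  obtain ⟨C2, hC2, hG⟩ := Gx_facts
  obtain ⟨C3, hC3, hcons⟩ := consx
  obtain ⟨C4, hC4, hosc⟩ := oscx
  have hK0 : 0 < K := by linarith
  refine ⟨C1 * K + C3 * K * 3 + C4 * K, by positivity, ?_⟩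
  intro V f g hT x j
  have hr := rad_pos x
  have hd : ∀ y, DifferentiableOn ℂ (f j) (V ∩ Ux y) := fun y =>
    (hT.f_ba j).1.mono inter_subset_left
  have hb : ∀ y, ∀ z ∈ V ∩ Ux y, ‖f j z‖ ≤ K := fun y z hz => (hT.f_ba j).2 z hz.1
  have hnr := norm_rad x
  have hnr1 : ‖((rad (x + 1) : ℝ) : ℂ)‖ = rad x / 2 := by rw [norm_rad, rad_succ]
  refine ⟨?_, ?_⟩
  · have := (hal V x K (f j) hT.V_open hK0.le (hd x) (hb x)).2.2 ((rad x : ℝ) : ℂ)
    have h2 : 0 < C3 * K * 3 + C4 * K := by positivity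
    unfold cx
    linarith
  · have h1 := hcons V x K (f j) hT.V_open hK0.le (hd x) (hd (x + 1)) (hb x) (hb (x + 1))
      ((rad (x + 1) : ℝ) : ℂ) (by rw [hnr1]) (by rw [hnr1]; linarith)
    have h2 := hosc V K (f j) x hT.V_open hT.V_sub hK0.le (hT.f_ba j).1 (hT.f_ba j).2
      ((rad (x + 1) : ℝ) : ℂ) ((rad x : ℝ) : ℂ) (by rw [hnr1]) (by rw [hnr1]; linarith)
      (by rw [hnr]; linarith) (by rw [hnr]; linarith)
    have h3 : Gx V x + Gx V (x + 1) ≤ 3 * err V x := by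
      have a := (hG V x).2.2.1
      have b := (hG V (x + 1)).2.2.1
      have c := (hG V x).2.2.2.2.2.1
      linarith
    have h4 : 0 ≤ err V x := (hG V x).1.trans (hG V x).2.2.1
    have h5 : C3 * K * (Gx V x + Gx V (x + 1)) ≤ C3 * K * (3 * err V x) :=
      mul_le_mul_of_nonneg_left h3 (by positivity)
    unfold cx
    have h6 : alx V (x + 1) (f j) ((rad (x + 1) : ℝ) : ℂ) - alx V x (f j) ((rad x : ℝ) : ℂ) =
      -(alx V x (f j) ((rad (x + 1) : ℝ) : ℂ) - alx V (x + 1) (f j) ((rad (x + 1) : ℝ) : ℂ)) +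
      (alx V x (f j) ((rad (x + 1) : ℝ) : ℂ) - alx V x (f j) ((rad x : ℝ) : ℂ)) := by ring
    rw [h6]
    refine (norm_add_le _ _).trans ?_
    rw [norm_neg]
    have h7 : 0 ≤ C1 * K * err V x := by positivity
    nlinarith

theorem gt_facts {K c : ℝ} (hK : 1 ≤ K) (hc : 0 < c) : ∃ C : ℝ, 0 < C ∧
    ∀ (V : Set ℂ) (f : Fin n → ℂ → ℂ) (g : ℕ → Fin n → ℂ → ℂ), TD K V f g → ∀ x,
    BA C (V ∩ {z | rad x / 4 < ‖z‖ ∧ ‖z‖ < 4 * rad x}) (gt c V f g x) ∧
    ∀ z ∈ V ∩ {z | rad x / 4 < ‖z‖ ∧ ‖z‖ < 4 * rad x}, ∑ j, f j z * gt c V f g x j z = 1 := by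
  obtain ⟨C1, hC1, hal⟩ := alx_facts
  obtain ⟨C2, hC2, hst⟩ := cx_step (n := n) hK
  have hK2 : 1 ≤ max 1 C2 := le_max_left _ _
  obtain ⟨C3, hC3, hlip⟩ := lam_lip n hK2 hc
  have hK0 : 0 < K := by linarith
  refine ⟨K + n * (K * (2 * (C1 * K * C3))), by positivity, ?_⟩
  intro V f g hT x
  have hr := rad_pos x
  have hgb : BA K (V ∩ Ux x) (g x) := (hT.g_ba x).mono (inter_subset_inter_right _ (Ux_Ann x))
  have hGC : ∀ p, ‖GC c V f x p‖ ≤ C3 := fun p =>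
    (hlip (cx V f x) (cx V f x) (fun j => ((hst V f g hT x j).1).trans (le_max_right _ _))
      (fun j => ((hst V f g hT x j).1).trans (le_max_right _ _)) p).1
  have hA : ∀ j, DifferentiableOn ℂ (alx V x (g x j)) {z | rad x / 4 < ‖z‖ ∧ ‖z‖ < 4 * rad x} ∧
      ∀ z, ‖alx V x (g x j) z‖ ≤ C1 * K := fun j => by
    have := hal V x K (g x j) hT.V_open hK0.le (hgb j).1 (hgb j).2
    exact ⟨this.1, this.2.2⟩
  have hsub : V ∩ {z | rad x / 4 < ‖z‖ ∧ ‖z‖ < 4 * rad x} ⊆ V ∩ Ann x := by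
    rintro z ⟨h1, h2, h3⟩
    exact ⟨h1, by linarith, by linarith⟩
  refine ⟨fun p => ⟨?_, ?_⟩, ?_⟩
  · unfold gt
    refine ((hT.g_ba x p).1.mono hsub).add ?_
    refine DifferentiableOn.fun_sum fun j _ => ?_
    refine ((hT.f_ba j).1.mono inter_subset_left).mul ?_
    exact (((hA j).1.mono inter_subset_right).mul_const _).sub
      (((hA p).1.mono inter_subset_right).mul_const _)
  · intro z hz
    unfold gt
    refine (norm_add_le _ _).trans (add_le_add ((hT.g_ba x p).2 z (hsub hz)) ?_)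
    refine (norm_sum_le _ _).trans ?_
    have h1 : ∀ j ∈ (Finset.univ : Finset (Fin n)),
        ‖f j z * (alx V x (g x j) z * GC c V f x p - alx V x (g x p) z * GC c V f x j)‖ ≤
        K * (2 * (C1 * K * C3)) := by
      intro j _
      rw [norm_mul]
      refine mul_le_mul ((hT.f_ba j).2 z hz.1) ?_ (norm_nonneg _) hK0.le
      refine (norm_sub_le _ _).trans ?_
      rw [norm_mul, norm_mul, two_mul]
      exact add_le_add
        (mul_le_mul ((hA j).2 z) (hGC p) (norm_nonneg _) (by positivity))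
        (mul_le_mul ((hA p).2 z) (hGC j) (norm_nonneg _) (by positivity))
    refine (Finset.sum_le_sum h1).trans (le_of_eq ?_)
    rw [Finset.sum_const, Finset.card_univ, Fintype.card_fin, nsmul_eq_mul]
  · intro z hz
    have h1 : ∀ p, f p z * gt c V f g x p z = f p z * g x p z +
        ∑ j, (f p z * f j z * (alx V x (g x j) z * GC c V f x p) -
          f p z * f j z * (alx V x (g x p) z * GC c V f x j)) := by
      intro p
      unfold gt
      rw [mul_add, Finset.mul_sum]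
      congr 1
      refine Finset.sum_congr rfl fun j _ => ?_
      ring
    rw [Finset.sum_congr rfl fun p _ => h1 p, Finset.sum_add_distrib, hT.sol x z (hsub hz)]
    have h2 : ∑ p, ∑ j, (f p z * f j z * (alx V x (g x j) z * GC c V f x p) -
          f p z * f j z * (alx V x (g x p) z * GC c V f x j)) = 0 := by
      simp_rw [Finset.sum_sub_distrib]
      rw [sub_eq_zero, Finset.sum_comm]
      refine Finset.sum_congr rfl fun j _ => Finset.sum_congr rfl fun p _ => ?_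
      ring
    rw [h2, add_zero]

end Pool.Agent.Work.MP_2cf110_an.Hyp

end
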