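import Pool.Agent.Work.MP_2cf110_an.Hyp.TaDef
import Pool.Agent.Work.MP_2cf110_an.Hyp.Pot0
import Pool.Agent.Work.MP_217185_an.CauA
import Pool.Agent.Work.MP_217185_an.CauB

/-! # The kernel side

k = Cau v, v = dzb k supported in ball 0 1 minus 0.  For z in the annulus rad x/2 ≤ |z| ≤ 12 rad x: k z - mx/z = (1/π) [∫_{|ζ| < rad x} v (1/(z-ζ) - 1/z) + ∫_{|ζ| ≥ rad x} v/(z-ζ)].
Integrate over the annulus (Fubini): |ζ| < rad x/4: ≤ C |ζ|; rad x/4 ≤ |ζ| ≤ 24 rad x: ≤ C rad x; |ζ| > 24 rad x: ≤ C rad x²/|ζ|. -/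

open MeasureTheory Complex Set Metric Filter
open scoped Topology ContDiff ComplexConjugate

noncomputable section

namespace Pool.Agent.Work.MP_2cf110_an.Hyp

open QC (dz dzb Test Cau)

/-- the moment of `v` inside the ball of radius `rad x` -/
def mx (v : ℂ → ℂ) (x : ℕ) : ℂ := (1 / (Real.pi : ℂ)) * ∫ ζ in ball 0 (rad x), v ζ

/-- the mass of `v` at the scale `y` -/
def vx (v : ℂ → ℂ) (y : ℕ) : ℝ := ∫ ζ in {ζ : ℂ | rad (y + 1) ≤ ‖ζ‖ ∧ ‖ζ‖ < rad y}, ‖v ζ‖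

/-- the weighted mass near the scale `x` -/
def Ek (v : ℂ → ℂ) (x : ℕ) : ℝ := ∑' y, (1 / 2 : ℝ) ^ dd x y * vx v y

private theorem tk_pos (x : ℕ) : 0 < rad x := by
  unfold rad
  positivity

private theorem tk_succ (x : ℕ) : rad (x + 1) = rad x / 2 := by
  unfold rad
  rw [pow_succ]
  ring

private theorem tk_anti {x y : ℕ} (h : x ≤ y) : rad y ≤ rad x := by
  unfold rad
  exact pow_le_pow_of_le_one (by norm_num) (by norm_num) h

private theorem tk_meas (y : ℕ) : MeasurableSet {ζ : ℂ | rad (y + 1) ≤ ‖ζ‖ ∧ ‖ζ‖ < rad y} :=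
  (measurableSet_le measurable_const measurable_norm).inter
    (measurableSet_lt measurable_norm measurable_const)

private theorem tk_disj : Pairwise fun a b : ℕ =>
    Disjoint {ζ : ℂ | rad (a + 1) ≤ ‖ζ‖ ∧ ‖ζ‖ < rad a}
      {ζ : ℂ | rad (b + 1) ≤ ‖ζ‖ ∧ ‖ζ‖ < rad b} := by
  intro a b hab
  rw [Set.disjoint_left]
  rintro ζ ⟨h1, h2⟩ ⟨h3, h4⟩
  rcases lt_or_gt_of_ne hab with h | h
  · have := tk_anti (show a + 1 ≤ b from h)
    linarith
  · have := tk_anti (show b + 1 ≤ a from h)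
    linarith

private theorem tk_cover {ζ : ℂ} (h0 : ζ ≠ 0) (h1 : ‖ζ‖ < 1) :
    ∃ y : ℕ, rad (y + 1) ≤ ‖ζ‖ ∧ ‖ζ‖ < rad y := by
  classical
  have hex : ∃ n : ℕ, rad (n + 1) ≤ ‖ζ‖ := by
    have h2 : Tendsto (fun n : ℕ => (1 / 2 : ℝ) ^ n) atTop (𝓝 0) :=
      tendsto_pow_atTop_nhds_zero_of_lt_one (by norm_num) (by norm_num)
    have h3 := (h2.eventually (gt_mem_nhds (norm_pos_iff.2 h0))).and (eventually_ge_atTop 1)
    obtain ⟨n, hn, hn1⟩ := h3.exists
    obtain ⟨m, rfl⟩ := Nat.exists_eq_succ_of_ne_zero (show n ≠ 0 by omega)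
    exact ⟨m, hn.le⟩
  refine ⟨Nat.find hex, Nat.find_spec hex, ?_⟩
  rcases Nat.eq_zero_or_pos (Nat.find hex) with h | h
  · rw [h]
    unfold rad
    simpa using h1
  · obtain ⟨m, hm⟩ := Nat.exists_eq_succ_of_ne_zero h.ne'
    have h2 := Nat.find_min hex (show m < Nat.find hex by omega)
    rw [hm]
    exact not_le.1 h2

/-- the integral is the sum of the integrals over the scales -/
private theorem tk_sum {h : ℂ → ℝ} (hi : Integrable h) (hz : ∀ ζ, ζ ∉ ball (0 : ℂ) 1 \ {0} → h ζ = 0) :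
    HasSum (fun y : ℕ => ∫ ζ in {ζ : ℂ | rad (y + 1) ≤ ‖ζ‖ ∧ ‖ζ‖ < rad y}, h ζ) (∫ ζ, h ζ) := by
  have h1 := hasSum_integral_iUnion tk_meas tk_disj (hi.integrableOn)
  have h2 : ∫ ζ in ⋃ y : ℕ, {ζ : ℂ | rad (y + 1) ≤ ‖ζ‖ ∧ ‖ζ‖ < rad y}, h ζ = ∫ ζ, h ζ := by
    apply setIntegral_eq_integral_of_forall_compl_eq_zero
    intro ζ hζ
    apply hz
    rintro ⟨h3, h4⟩
    apply hζ
    rw [mem_ball_zero_iff] at h3
    obtain ⟨y, hy⟩ := tk_cover h4 h3
    exact mem_iUnion.2 ⟨y, hy⟩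
  rwa [h2] at h1

private theorem tk_supp {v : ℂ → ℂ} (hv : Test (ball 0 1 \ {0}) v) :
    ∀ ζ, ζ ∉ ball (0 : ℂ) 1 \ {0} → v ζ = 0 := fun ζ hζ =>
  image_eq_zero_of_notMem_tsupport fun h => hζ (hv.sub h)

private theorem tk_int {v : ℂ → ℂ} (hv : Test (ball 0 1 \ {0}) v) : Integrable v :=
  hv.smooth.continuous.integrable_of_hasCompactSupport hv.cpt

private theorem tk_vsum {v : ℂ → ℂ} (hv : Test (ball 0 1 \ {0}) v) :
    HasSum (vx v) (∫ ζ, ‖v ζ‖) :=
  tk_sum (tk_int hv).norm fun ζ hζ => by rw [tk_supp hv ζ hζ, norm_zero]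

private theorem tk_vnn (v : ℂ → ℂ) (y : ℕ) : 0 ≤ vx v y :=
  integral_nonneg fun _ => norm_nonneg _

/-- the weight -/
private def wt (r : ℝ) (ζ : ℂ) : ℝ := min ‖ζ‖ (r ^ 2 / ‖ζ‖)

private theorem wt_nn {r : ℝ} (ζ : ℂ) : 0 ≤ wt r ζ := le_min (norm_nonneg _) (by positivity)

private theorem wt_le {r : ℝ} (hr : 0 < r) (ζ : ℂ) : wt r ζ ≤ r := by
  unfold wt
  rcases le_or_gt ‖ζ‖ r with h | h
  · exact (min_le_left _ _).trans h
  · refine (min_le_right _ _).trans ?_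
    rw [div_le_iff₀ (hr.trans h)]
    nlinarith

private theorem wt_meas (r : ℝ) : Measurable (wt r) :=
  measurable_norm.min (measurable_const.div measurable_norm)

private theorem wt_shell {x y : ℕ} {ζ : ℂ} (h1 : rad (y + 1) ≤ ‖ζ‖) (h2 : ‖ζ‖ < rad y) :
    wt (rad x) ζ ≤ 2 * rad x * (1 / 2) ^ dd x y := by
  have hx := tk_pos x
  have hy := tk_pos (y + 1)
  rcases le_or_gt x y with h | h
  · refine (min_le_left _ _).trans (h2.le.trans ?_)
    have hd : dd x y = y - x := by unfold dd; omega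
    have h3 : rad y = rad x * (1 / 2) ^ dd x y := by
      rw [hd]
      unfold rad
      rw [← pow_add]
      congr 1
      omega
    rw [h3]
    have : 0 < rad x * (1 / 2) ^ dd x y := by positivity
    linarith
  · refine (min_le_right _ _).trans ?_
    have hd : dd x y = x - y := by unfold dd; omega
    have h3 : rad x = rad y * (1 / 2) ^ dd x y := by
      rw [hd]
      unfold rad
      rw [← pow_add]
      congr 1
      omega
    have h4 : rad y = 2 * rad (y + 1) := by rw [tk_succ]; ring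
    rw [div_le_iff₀ (hy.trans_le h1)]
    have h5 : rad x ^ 2 = 2 * rad x * (1 / 2) ^ dd x y * rad (y + 1) := by
      have : rad x ^ 2 = rad x * (rad y * (1 / 2) ^ dd x y) := by rw [← h3]; ring
      rw [this, h4]
      ring
    rw [h5]
    exact mul_le_mul_of_nonneg_left h1 (by positivity)

private theorem tk_wint {v : ℂ → ℂ} (hv : Test (ball 0 1 \ {0}) v) {r : ℝ} (hr : 0 < r) :
    Integrable fun ζ => ‖v ζ‖ * wt r ζ := by
  refine Integrable.mono' ((tk_int hv).norm.mul_const r)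
    ((tk_int hv).norm.aestronglyMeasurable.mul (wt_meas r).aestronglyMeasurable)
    (Eventually.of_forall fun ζ => ?_)
  rw [Real.norm_of_nonneg (mul_nonneg (norm_nonneg _) (wt_nn ζ))]
  exact mul_le_mul_of_nonneg_left (wt_le hr ζ) (norm_nonneg _)

/-- the weighted mass -/
private theorem tk_mass {v : ℂ → ℂ} (hv : Test (ball 0 1 \ {0}) v) (x : ℕ) :
    ∫ ζ, ‖v ζ‖ * wt (rad x) ζ ≤ 2 * rad x * Ek v x := by
  have h1 := tk_sum (tk_wint hv (tk_pos x)) fun ζ hζ => by rw [tk_supp hv ζ hζ, norm_zero, zero_mul]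
  have h2 : Summable fun y => (1 / 2 : ℝ) ^ dd x y * vx v y :=
    Summable.of_nonneg_of_le (fun y => mul_nonneg (by positivity) (tk_vnn v y))
      (fun y => by
        have h3 : (1 / 2 : ℝ) ^ dd x y ≤ 1 := pow_le_one₀ (by norm_num) (by norm_num)
        have h4 := mul_le_mul_of_nonneg_right h3 (tk_vnn v y)
        rwa [one_mul] at h4) (tk_vsum hv).summable
  unfold Ek
  rw [← tsum_mul_left, ← h1.tsum_eq]
  refine h1.summable.tsum_le_tsum (fun y => ?_) (h2.mul_left _)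
  have h3 : 2 * rad x * ((1 / 2) ^ dd x y * vx v y) =
      ∫ ζ in {ζ : ℂ | rad (y + 1) ≤ ‖ζ‖ ∧ ‖ζ‖ < rad y}, ‖v ζ‖ * (2 * rad x * (1 / 2) ^ dd x y) := by
    rw [integral_mul_const]
    unfold vx
    ring
  rw [h3]
  refine setIntegral_mono_on (tk_wint hv (tk_pos x)).integrableOn
    ((tk_int hv).norm.mul_const _).integrableOn (tk_meas y) fun ζ hζ => ?_
  exact mul_le_mul_of_nonneg_left (wt_shell hζ.1 hζ.2) (norm_nonneg _)

/-- the difference of the kernels -/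
private def Fi (r : ℝ) (z ζ : ℂ) : ℂ := 1 / (z - ζ) - (ball (0 : ℂ) r).indicator 1 ζ / z

private theorem Fi_meas (r : ℝ) : Measurable fun p : ℂ × ℂ => Fi r p.1 p.2 := by
  unfold Fi
  refine (measurable_const.div (measurable_fst.sub measurable_snd)).sub ?_
  refine Measurable.div ?_ measurable_fst
  exact (measurable_one.indicator measurableSet_ball).comp measurable_snd

private theorem tk_vol {r : ℝ} (hr : 0 < r) :
    volume (closedBall (0 : ℂ) (12 * r)) = ENNReal.ofReal (144 * Real.pi * r ^ 2) := by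
  rw [Complex.volume_closedBall, ← ENNReal.ofReal_pow (by positivity)]
  have : (NNReal.pi : ENNReal) = ENNReal.ofReal Real.pi := by
    rw [← NNReal.coe_real_pi, ENNReal.ofReal_coe_nnreal]
  rw [this, ← ENNReal.ofReal_mul (by positivity)]
  congr 1
  ring

private theorem tk_cst {r B : ℝ} (hr : 0 < r) (hB : 0 ≤ B) {g : ℂ → ℂ}
    (hg : ∀ z, r / 2 ≤ ‖z‖ → ‖z‖ ≤ 12 * r → ‖g z‖ ≤ B) :
    ∫⁻ z in {z : ℂ | r / 2 ≤ ‖z‖ ∧ ‖z‖ ≤ 12 * r}, ‖g z‖ₑ ≤
      ENNReal.ofReal (144 * Real.pi * r ^ 2 * B) := by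
  have hA : MeasurableSet {z : ℂ | r / 2 ≤ ‖z‖ ∧ ‖z‖ ≤ 12 * r} :=
    (measurableSet_le measurable_const measurable_norm).inter
      (measurableSet_le measurable_norm measurable_const)
  have hsub : {z : ℂ | r / 2 ≤ ‖z‖ ∧ ‖z‖ ≤ 12 * r} ⊆ closedBall 0 (12 * r) := fun z hz =>
    mem_closedBall_zero_iff.2 hz.2
  calc ∫⁻ z in {z : ℂ | r / 2 ≤ ‖z‖ ∧ ‖z‖ ≤ 12 * r}, ‖g z‖ₑ
      ≤ ∫⁻ _z in {z : ℂ | r / 2 ≤ ‖z‖ ∧ ‖z‖ ≤ 12 * r}, ENNReal.ofReal B := by
        refine setLIntegral_mono' hA fun z hz => ?_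
        rw [← ofReal_norm]
        exact ENNReal.ofReal_le_ofReal (hg z hz.1 hz.2)
    _ = ENNReal.ofReal B * volume {z : ℂ | r / 2 ≤ ‖z‖ ∧ ‖z‖ ≤ 12 * r} := by
        rw [setLIntegral_const]
    _ ≤ ENNReal.ofReal B * ENNReal.ofReal (144 * Real.pi * r ^ 2) := by
        rw [← tk_vol hr]
        gcongr
    _ = ENNReal.ofReal (144 * Real.pi * r ^ 2 * B) := by
        rw [← ENNReal.ofReal_mul hB]
        congr 1
        ring

private theorem tk_W {r : ℝ} (hr : 0 < r) {ζ : ℂ} (h0 : ζ ≠ 0) :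
    ∫⁻ z in {z : ℂ | r / 2 ≤ ‖z‖ ∧ ‖z‖ ≤ 12 * r}, ‖Fi r z ζ‖ₑ ≤
      ENNReal.ofReal (8640 * Real.pi * wt r ζ) := by
  have hpi := Real.pi_pos
  have hζ : 0 < ‖ζ‖ := norm_pos_iff.2 h0
  rcases lt_or_ge ‖ζ‖ (r / 4) with h1 | h1
  · have hB : ∀ z : ℂ, r / 2 ≤ ‖z‖ → ‖z‖ ≤ 12 * r → ‖Fi r z ζ‖ ≤ 8 * ‖ζ‖ / r ^ 2 := by
      intro z hz1 _
      have hin : ζ ∈ ball (0 : ℂ) r := by rw [mem_ball_zero_iff]; linarith
      have hz0 : z ≠ 0 := norm_pos_iff.1 (by linarith)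
      have h3 : r / 4 ≤ ‖z - ζ‖ := by
        have := norm_sub_norm_le z ζ
        linarith
      have h4 : z - ζ ≠ 0 := norm_pos_iff.1 (by linarith)
      have h5 : Fi r z ζ = ζ / (z * (z - ζ)) := by
        unfold Fi
        rw [indicator_of_mem hin, Pi.one_apply]
        field_simp
        ring
      rw [h5, norm_div, norm_mul, div_le_div_iff₀ (by positivity) (by positivity)]
      have h6 : r / 2 * (r / 4) ≤ ‖z‖ * ‖z - ζ‖ :=
        mul_le_mul hz1 h3 (by positivity) (norm_nonneg _)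
      nlinarith
    refine (tk_cst hr (by positivity) hB).trans (ENNReal.ofReal_le_ofReal ?_)
    have h3 : wt r ζ = ‖ζ‖ := by
      unfold wt
      apply min_eq_left
      rw [le_div_iff₀ hζ]
      nlinarith
    rw [h3]
    have h4 : 144 * Real.pi * r ^ 2 * (8 * ‖ζ‖ / r ^ 2) = 1152 * Real.pi * ‖ζ‖ := by
      field_simp
      ring
    rw [h4]
    have : 0 < Real.pi * ‖ζ‖ := by positivity
    linarith
  rcases le_or_gt ‖ζ‖ (24 * r) with h2 | h2
  · have hA : MeasurableSet {z : ℂ | r / 2 ≤ ‖z‖ ∧ ‖z‖ ≤ 12 * r} :=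
      (measurableSet_le measurable_const measurable_norm).inter
        (measurableSet_le measurable_norm measurable_const)
    have hsub : {z : ℂ | r / 2 ≤ ‖z‖ ∧ ‖z‖ ≤ 12 * r} ⊆ closedBall 0 (12 * r) := fun z hz =>
      mem_closedBall_zero_iff.2 hz.2
    obtain ⟨p1, p2⟩ := pot_ball (a := 0) (z := ζ) (ρ := 12 * r) (by positivity)
    have hc : IntegrableOn (fun _ : ℂ => 2 / r) (closedBall 0 (12 * r)) :=
      integrableOn_const measure_closedBall_lt_top.ne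
    have hs : IntegrableOn (fun z : ℂ => 1 / ‖ζ - z‖ + 2 / r) (closedBall 0 (12 * r)) := p1.add hc
    have hvr : volume.real (closedBall (0 : ℂ) (12 * r)) = 144 * Real.pi * r ^ 2 := by
      rw [Measure.real, tk_vol hr, ENNReal.toReal_ofReal (by positivity)]
    calc ∫⁻ z in {z : ℂ | r / 2 ≤ ‖z‖ ∧ ‖z‖ ≤ 12 * r}, ‖Fi r z ζ‖ₑ
        ≤ ∫⁻ z in {z : ℂ | r / 2 ≤ ‖z‖ ∧ ‖z‖ ≤ 12 * r}, ENNReal.ofReal (1 / ‖ζ - z‖ + 2 / r) := by
          refine setLIntegral_mono' hA fun z hz => ?_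
          rw [← ofReal_norm]
          refine ENNReal.ofReal_le_ofReal ?_
          unfold Fi
          refine (norm_sub_le _ _).trans (add_le_add ?_ ?_)
          · rw [norm_div, norm_one, norm_sub_rev]
          · rw [norm_div]
            have h3 : ‖(ball (0 : ℂ) r).indicator (1 : ℂ → ℂ) ζ‖ ≤ 1 := by
              by_cases h : ζ ∈ ball (0 : ℂ) r
              · rw [indicator_of_mem h, Pi.one_apply, norm_one]
              · rw [indicator_of_notMem h, norm_zero]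
                exact zero_le_one
            rw [div_le_div_iff₀ (by linarith [hz.1]) hr]
            nlinarith [hz.1]
      _ ≤ ∫⁻ z in closedBall 0 (12 * r), ENNReal.ofReal (1 / ‖ζ - z‖ + 2 / r) :=
          lintegral_mono_set hsub
      _ = ENNReal.ofReal (∫ z in closedBall 0 (12 * r), (1 / ‖ζ - z‖ + 2 / r)) := by
          rw [ofReal_integral_eq_lintegral_ofReal hs (Eventually.of_forall fun z => by positivity)]
      _ ≤ ENNReal.ofReal (8640 * Real.pi * wt r ζ) := by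
          refine ENNReal.ofReal_le_ofReal ?_
          rw [integral_add p1 hc, setIntegral_const, hvr, smul_eq_mul]
          have h3 : 144 * Real.pi * r ^ 2 * (2 / r) = 288 * Real.pi * r := by
            field_simp
            ring
          rw [h3]
          have h4 : r / 24 ≤ wt r ζ := by
            unfold wt
            refine le_min (by linarith) ?_
            rw [le_div_iff₀ hζ]
            nlinarith
          have h5 : 8640 * Real.pi * (r / 24) ≤ 8640 * Real.pi * wt r ζ :=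
            mul_le_mul_of_nonneg_left h4 (by positivity)
          nlinarith [mul_pos hpi hr]
  · have hB : ∀ z : ℂ, r / 2 ≤ ‖z‖ → ‖z‖ ≤ 12 * r → ‖Fi r z ζ‖ ≤ 2 / ‖ζ‖ := by
      intro z _ hz2
      have hin : ζ ∉ ball (0 : ℂ) r := by rw [mem_ball_zero_iff]; linarith
      have h3 : ‖ζ‖ / 2 ≤ ‖z - ζ‖ := by
        have := norm_sub_norm_le ζ z
        rw [norm_sub_rev] at this
        linarith
      unfold Fi
      rw [indicator_of_notMem hin, zero_div, sub_zero, norm_div, norm_one,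
        div_le_div_iff₀ (by linarith) hζ]
      linarith
    refine (tk_cst hr (by positivity) hB).trans (ENNReal.ofReal_le_ofReal ?_)
    have h3 : wt r ζ = r ^ 2 / ‖ζ‖ := by
      unfold wt
      apply min_eq_right
      rw [div_le_iff₀ hζ]
      nlinarith
    rw [h3]
    have h4 : 144 * Real.pi * r ^ 2 * (2 / ‖ζ‖) = 288 * (Real.pi * (r ^ 2 / ‖ζ‖)) := by ring
    have : 0 < Real.pi * (r ^ 2 / ‖ζ‖) := by positivity
    linarith

private theorem tk_cint {v : ℂ → ℂ} (hv : Test (ball 0 1 \ {0}) v) (z : ℂ) :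
    Integrable (fun ζ => v ζ / (z - ζ)) := by
  have h3 := ((QC.cau_integrable hv.smooth.continuous hv.cpt z).comp_sub_left z).const_mul
    (2 * (Real.pi : ℂ))
  refine h3.congr (Eventually.of_forall fun ζ => ?_)
  have hpi : (Real.pi : ℂ) ≠ 0 := by exact_mod_cast Real.pi_ne_zero
  simp only [sub_sub_cancel]
  unfold QC.cker Pool.Agent.Work.MP_089002_mp.ker
  rw [div_eq_mul_inv]
  field_simp

private theorem tk_rep {k : ℂ → ℂ} (hk : Test (ball 0 1 \ {0}) k) (x : ℕ) (z : ℂ) :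
    k z - mx (dzb k) x / z = (1 / (Real.pi : ℂ)) * ∫ ζ, dzb k ζ * Fi (rad x) z ζ := by
  have hT : Test (ball 0 1 \ {0}) (dzb k) := hk.dz.2
  have hku : Test univ k := ⟨hk.smooth, hk.cpt, subset_univ _⟩
  have h4 : k z = (1 / (Real.pi : ℂ)) * ∫ ζ, dzb k ζ / (z - ζ) := (QC.cau_dzb hku z).symm
  have hI := tk_cint hT z
  have hJ : Integrable ((ball (0 : ℂ) (rad x)).indicator (dzb k)) :=
    (tk_int hT).indicator measurableSet_ball
  have h5 : mx (dzb k) x / z = (1 / (Real.pi : ℂ)) *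
      ∫ ζ, (ball (0 : ℂ) (rad x)).indicator (dzb k) ζ / z := by
    unfold mx
    rw [← integral_indicator measurableSet_ball, integral_div]
    ring
  rw [h4, h5, ← mul_sub, ← integral_sub hI (hJ.div_const z)]
  congr 1
  refine integral_congr_ae (Eventually.of_forall fun ζ => ?_)
  simp only
  unfold Fi
  by_cases h : ζ ∈ ball (0 : ℂ) (rad x)
  · rw [indicator_of_mem h, indicator_of_mem h, Pi.one_apply]
    ring
  · rw [indicator_of_notMem h, indicator_of_notMem h]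
    ring

theorem kdec : ∃ C : ℝ, 0 < C ∧ ∀ (k : ℂ → ℂ), Test (ball 0 1 \ {0}) k → ∀ x,
    ∫ z in {z : ℂ | rad x / 2 ≤ ‖z‖ ∧ ‖z‖ ≤ 12 * rad x}, ‖k z - mx (dzb k) x / z‖ ≤
      C * rad x * Ek (dzb k) x := by
  refine ⟨17280, by norm_num, fun k hk x => ?_⟩
  have hpi := Real.pi_pos
  have hT : Test (ball 0 1 \ {0}) (dzb k) := hk.dz.2
  have hr := tk_pos x
  obtain ⟨A, hA⟩ : ∃ A : Set ℂ, A = {z : ℂ | rad x / 2 ≤ ‖z‖ ∧ ‖z‖ ≤ 12 * rad x} := ⟨_, rfl⟩
  have hW := fun ζ : ℂ => tk_W (ζ := ζ) hr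
  rw [← hA] at hW ⊢
  have hmv : Measurable (dzb k) := hT.smooth.continuous.measurable
  have hm : Measurable fun z => k z - mx (dzb k) x / z :=
    hk.smooth.continuous.measurable.sub (measurable_const.div measurable_id)
  have hEk : 0 ≤ Ek (dzb k) x := tsum_nonneg fun y => mul_nonneg (by positivity) (tk_vnn _ y)
  rw [integral_norm_eq_lintegral_enorm hm.aestronglyMeasurable]
  refine ENNReal.toReal_le_of_le_ofReal (by positivity) ?_
  have hM2 : Measurable fun p : ℂ × ℂ => ‖dzb k p.2‖ₑ * ‖Fi (rad x) p.1 p.2‖ₑ :=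
    ((hmv.comp measurable_snd).enorm).mul (Fi_meas _).enorm
  have hF1 : ∀ ζ, Measurable fun z => ‖Fi (rad x) z ζ‖ₑ := fun ζ =>
    ((Fi_meas (rad x)).comp (measurable_id.prodMk measurable_const)).enorm
  calc ∫⁻ z in A, ‖k z - mx (dzb k) x / z‖ₑ
      ≤ ∫⁻ z in A, ‖(1 / (Real.pi : ℂ))‖ₑ * ∫⁻ ζ, ‖dzb k ζ‖ₑ * ‖Fi (rad x) z ζ‖ₑ := by
        refine lintegral_mono fun z => ?_
        rw [tk_rep hk x z, enorm_mul]
        refine mul_le_mul_right ((enorm_integral_le_lintegral_enorm _).trans ?_) _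
        refine lintegral_mono fun ζ => ?_
        rw [enorm_mul]
    _ = ‖(1 / (Real.pi : ℂ))‖ₑ * ∫⁻ z in A, ∫⁻ ζ, ‖dzb k ζ‖ₑ * ‖Fi (rad x) z ζ‖ₑ := by
        rw [lintegral_const_mul' _ _ enorm_ne_top]
    _ = ‖(1 / (Real.pi : ℂ))‖ₑ * ∫⁻ ζ, ∫⁻ z in A, ‖dzb k ζ‖ₑ * ‖Fi (rad x) z ζ‖ₑ := by
        congr 1
        exact lintegral_lintegral_swap hM2.aemeasurable
    _ ≤ ‖(1 / (Real.pi : ℂ))‖ₑ *
        ∫⁻ ζ, ENNReal.ofReal (8640 * Real.pi * (‖dzb k ζ‖ * wt (rad x) ζ)) := by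
        refine mul_le_mul_right (lintegral_mono fun ζ => ?_) _
        rw [lintegral_const_mul' _ _ enorm_ne_top]
        rcases eq_or_ne ζ 0 with h0 | h0
        · have : dzb k ζ = 0 := tk_supp hT ζ (by rw [h0]; simp)
          rw [this]
          simp
        · refine (mul_le_mul_right (hW ζ h0) _).trans (le_of_eq ?_)
          rw [← ofReal_norm, ← ENNReal.ofReal_mul (norm_nonneg _)]
          congr 1
          ring
    _ = ENNReal.ofReal (1 / Real.pi *
        ∫ ζ, 8640 * Real.pi * (‖dzb k ζ‖ * wt (rad x) ζ)) := by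
        have hI : Integrable fun ζ => 8640 * Real.pi * (‖dzb k ζ‖ * wt (rad x) ζ) :=
          (tk_wint hT hr).const_mul _
        rw [← ofReal_integral_eq_lintegral_ofReal hI (Eventually.of_forall fun ζ =>
          mul_nonneg (by positivity) (mul_nonneg (norm_nonneg _) (wt_nn ζ))), ← ofReal_norm,
          ← ENNReal.ofReal_mul (norm_nonneg _)]
        congr 2
        rw [norm_div, norm_one, Complex.norm_real, Real.norm_of_nonneg hpi.le]
    _ ≤ ENNReal.ofReal (17280 * rad x * Ek (dzb k) x) := by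
        refine ENNReal.ofReal_le_ofReal ?_
        rw [integral_const_mul]
        have h1 := tk_mass hT x
        have h2 : 1 / Real.pi * (8640 * Real.pi * ∫ ζ, ‖dzb k ζ‖ * wt (rad x) ζ) =
            8640 * ∫ ζ, ‖dzb k ζ‖ * wt (rad x) ζ := by
          field_simp
        rw [h2]
        linarith

theorem mx_facts {k : ℂ → ℂ} (hk : Test (ball 0 1 \ {0}) k) :
    Summable (vx (dzb k)) ∧ ∑' y, vx (dzb k) y ≤ ∫ z, ‖dzb k z‖ ∧ (∀ y, 0 ≤ vx (dzb k) y) ∧
    (∀ x, ‖mx (dzb k) x‖ ≤ ∫ z, ‖dzb k z‖) ∧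
    ∀ x y, x ≤ y → ‖mx (dzb k) x - mx (dzb k) y‖ ≤ ∑ i ∈ Finset.Ico x y, vx (dzb k) i := by
  have hT : Test (ball 0 1 \ {0}) (dzb k) := hk.dz.2
  have hs := tk_vsum hT
  have hI := tk_int hT
  have hpi1 : ‖(1 / (Real.pi : ℂ))‖ ≤ 1 := by
    rw [norm_div, norm_one, Complex.norm_real, Real.norm_of_nonneg Real.pi_pos.le]
    rw [div_le_one Real.pi_pos]
    linarith [Real.pi_gt_three]
  have hstep : ∀ x, ‖mx (dzb k) x - mx (dzb k) (x + 1)‖ ≤ vx (dzb k) x := by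
    intro x
    have hu : ball (0 : ℂ) (rad x) =
        ball 0 (rad (x + 1)) ∪ {ζ : ℂ | rad (x + 1) ≤ ‖ζ‖ ∧ ‖ζ‖ < rad x} := by
      ext ζ
      simp only [mem_ball_zero_iff, mem_union, mem_setOf_eq]
      have := tk_anti (Nat.le_succ x)
      constructor
      · intro h
        rcases lt_or_ge ‖ζ‖ (rad (x + 1)) with h1 | h1
        · exact Or.inl h1
        · exact Or.inr ⟨h1, h⟩
      · rintro (h | h)
        · exact h.trans_le this
        · exact h.2
    have hd : Disjoint (ball (0 : ℂ) (rad (x + 1))) {ζ : ℂ | rad (x + 1) ≤ ‖ζ‖ ∧ ‖ζ‖ < rad x} := by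
      rw [Set.disjoint_left]
      intro ζ h1 h2
      rw [mem_ball_zero_iff] at h1
      exact absurd h2.1 (not_le.2 h1)
    have h1 : mx (dzb k) x - mx (dzb k) (x + 1) = (1 / (Real.pi : ℂ)) *
        ∫ ζ in {ζ : ℂ | rad (x + 1) ≤ ‖ζ‖ ∧ ‖ζ‖ < rad x}, dzb k ζ := by
      unfold mx
      rw [hu, setIntegral_union hd (tk_meas x) hI.integrableOn hI.integrableOn]
      ring
    rw [h1, norm_mul]
    calc ‖(1 / (Real.pi : ℂ))‖ * ‖∫ ζ in {ζ : ℂ | rad (x + 1) ≤ ‖ζ‖ ∧ ‖ζ‖ < rad x}, dzb k ζ‖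
        ≤ 1 * ‖∫ ζ in {ζ : ℂ | rad (x + 1) ≤ ‖ζ‖ ∧ ‖ζ‖ < rad x}, dzb k ζ‖ :=
          mul_le_mul_of_nonneg_right hpi1 (norm_nonneg _)
      _ ≤ vx (dzb k) x := by
          rw [one_mul]
          exact norm_integral_le_integral_norm _
  refine ⟨hs.summable, hs.tsum_eq.le, tk_vnn _, fun x => ?_, fun x y hxy => ?_⟩
  · unfold mx
    rw [norm_mul]
    calc ‖(1 / (Real.pi : ℂ))‖ * ‖∫ ζ in ball 0 (rad x), dzb k ζ‖
        ≤ 1 * ‖∫ ζ in ball 0 (rad x), dzb k ζ‖ :=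
          mul_le_mul_of_nonneg_right hpi1 (norm_nonneg _)
      _ ≤ ∫ ζ in ball 0 (rad x), ‖dzb k ζ‖ := by
          rw [one_mul]
          exact norm_integral_le_integral_norm _
      _ ≤ ∫ z, ‖dzb k z‖ :=
          setIntegral_le_integral hI.norm (Eventually.of_forall fun z => norm_nonneg _)
  · induction y, hxy using Nat.le_induction with
    | base => simp
    | succ y hxy ih =>
      rw [Finset.sum_Ico_succ_top hxy]
      calc ‖mx (dzb k) x - mx (dzb k) (y + 1)‖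
          = ‖(mx (dzb k) x - mx (dzb k) y) + (mx (dzb k) y - mx (dzb k) (y + 1))‖ := by
            congr 1
            ring
        _ ≤ _ := (norm_add_le _ _).trans (add_le_add ih (hstep y))

end Pool.Agent.Work.MP_2cf110_an.Hyp

end
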