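import Pool.Agent.Work.MP_2cf110_an.Hyp.TaAsm
import Pool.Agent.Work.MP_2cf110_an.Hyp.Fin
import Pool.Agent.Work.MP_2cf110_an.Hyp.HypOne

/-! # Localization at the scale of the distance to a point

On V ∩ Ann x: hyp_one with Φ z = z/(32 rad x) and r' = r/2048: a nonempty local set is contained in ball z₀ (r |z₀|) for a point z₀ of it: Sol M.  So there are local solutions g x bounded by a
constant C₁ on V ∩ Ann x: TD (max ...) V f g.  asmx, GH_facts and finish. -/

open MeasureTheory Complex Set Metric Filter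
open scoped Topology ContDiff ComplexConjugate

noncomputable section

namespace Pool.Agent.Work.MP_2cf110_an.Hyp

open QC (dz dzb Test Cau)

theorem scale_loc (n : ℕ) {r K M : ℝ} (hr : 0 < r) (hr1 : r ≤ 1) : ∃ C : ℝ,
    ∀ (V : Set ℂ) (f : Fin n → ℂ → ℂ), IsOpen V → V ⊆ ball 0 1 \ {0} → BA K V f →
    (∀ a : ℂ, a ≠ 0 → ‖a‖ < 1 → Sol M (V ∩ ball a (r * ‖a‖)) f) → Sol C V f := by
  obtain ⟨C₁, hC₁⟩ := hyp_one n (r := r / 2048) (K := K) (M := M) (by positivity) (by linarith)
  set K₁ : ℝ := max 1 (max K C₁) with hK₁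
  have h1K : 1 ≤ K₁ := le_max_left _ _
  have hKK : K ≤ K₁ := (le_max_left _ _).trans (le_max_right _ _)
  have hCK : C₁ ≤ K₁ := (le_max_right _ _).trans (le_max_right _ _)
  obtain ⟨c, C, hc, hC, ha⟩ := asmx (n := n) (K := K₁) h1K
  obtain ⟨C₂, hC₂, hg⟩ := GH_facts (n := n) h1K hc
  refine ⟨C₂ + n * (K₁ * C), fun V f hV hVs hf hloc => ?_⟩
  have hsol : ∀ x : ℕ, Sol C₁ (V ∩ Ann x) f := by
    intro x
    have hr0 : 0 < rad x := by unfold rad; positivity
    have hAo : IsOpen (Ann x) := by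
      have h1 : IsOpen {z : ℂ | rad x / 32 < ‖z‖} := isOpen_lt continuous_const continuous_norm
      have h2 : IsOpen {z : ℂ | ‖z‖ < 32 * rad x} := isOpen_lt continuous_norm continuous_const
      exact h1.inter h2
    have hne : (32 * (rad x : ℂ)) ≠ 0 := by
      have : (rad x : ℂ) ≠ 0 := by exact_mod_cast hr0.ne'
      exact mul_ne_zero (by norm_num) this
    have hnn : ‖(32 * (rad x : ℂ))‖ = 32 * rad x := by
      rw [norm_mul, Complex.norm_real, Real.norm_of_nonneg hr0.le]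
      norm_num
    refine hC₁ (V ∩ Ann x) f (fun z => z / (32 * (rad x : ℂ))) (hV.inter hAo)
      (hf.mono inter_subset_left) (differentiableOn_id.div_const _) ?_ ?_ ?_
    · intro z _ w _ h
      exact (div_left_inj' hne).1 h
    · rintro z ⟨-, hz⟩
      rw [norm_div, hnn, div_lt_one (by positivity)]
      exact hz.2
    · intro a hal
      rcases Set.eq_empty_or_nonempty {z ∈ V ∩ Ann x | ‖z / (32 * (rad x : ℂ)) - a‖ < r / 2048 * (1 - ‖a‖)}
        with he | ⟨z₀, hz₀⟩
      · rw [he]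
        exact Sol.empty
      · have hV0 : z₀ ∈ ball (0:ℂ) 1 \ {0} := hVs hz₀.1.1
        have hz0 : z₀ ≠ 0 := hV0.2
        have hz1 : ‖z₀‖ < 1 := by simpa using hV0.1
        refine (hloc z₀ hz0 hz1).mono ?_
        rintro z ⟨⟨hz, -⟩, hza⟩
        refine ⟨hz, ?_⟩
        have e1 : z - z₀ = (32 * (rad x : ℂ)) * ((z / (32 * (rad x : ℂ)) - a) -
            (z₀ / (32 * (rad x : ℂ)) - a)) := by
          have h3 : (z / (32 * (rad x : ℂ)) - a) - (z₀ / (32 * (rad x : ℂ)) - a) =
              (z - z₀) / (32 * (rad x : ℂ)) := by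
            rw [sub_div]
            abel
          rw [h3, mul_div_cancel₀ _ hne]
        have e2 : ‖z - z₀‖ ≤ 32 * rad x * (‖z / (32 * (rad x : ℂ)) - a‖ + ‖z₀ / (32 * (rad x : ℂ)) - a‖) := by
          rw [e1, norm_mul, hnn]
          exact mul_le_mul_of_nonneg_left (norm_sub_le _ _) (by positivity)
        have e3 : ‖z₀ / (32 * (rad x : ℂ)) - a‖ < r / 2048 * (1 - ‖a‖) := hz₀.2
        have e4 : r / 2048 * (1 - ‖a‖) ≤ r / 2048 := by
          have := norm_nonneg a
          nlinarith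
        have e5 : rad x / 32 < ‖z₀‖ := hz₀.1.2.1
        have e6 : ‖z - z₀‖ ≤ 32 * rad x * (r / 2048 + r / 2048) := by
          refine e2.trans (mul_le_mul_of_nonneg_left ?_ (by positivity))
          linarith
        have e7 : 32 * rad x * (r / 2048 + r / 2048) = r * (rad x / 32) := by ring
        rw [mem_ball, dist_eq_norm]
        calc ‖z - z₀‖ ≤ r * (rad x / 32) := by rw [← e7]; exact e6
          _ < r * ‖z₀‖ := by gcongr
  choose g hg1 hg2 using hsol
  have D : TD K₁ V f g := ⟨hV, hVs, hf.le hKK, fun x => (hg1 x).le hCK, fun x z hz => hg2 x z hz⟩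
  obtain ⟨g1, g2, g3, g4⟩ := hg V f g D
  obtain ⟨q, q1, q2, q3⟩ := finish hV (by linarith : (0:ℝ) ≤ K₁) hC.le (fun j => (hf j).1)
    (fun j => (hf.le hKK j).2) g1 g2 g3 fun p l k hk => ha V f g D p l k hk
  exact ⟨q, fun j => ⟨q1 j, q2 j⟩, q3⟩

end Pool.Agent.Work.MP_2cf110_an.Hyp

end
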