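import Pool.Agent.Work.MP_2cf110_an.Hyp.TaDef
import Pool.Agent.Work.MP_2cf110_an.Hyp.VitB
import Pool.Agent.Work.MP_2cf110_an.Hyp.FarG
import Pool.Agent.Work.MP_2cf110_an.Hyp.CutF
import Pool.Agent.Work.MP_2cf110_an.Hyp.GrA
import Pool.Agent.Work.MP_2cf110_an.Hyp.Single
import Pool.Agent.Work.MP_2cf110_an.Hyp.Far

/-! # The pieces at the scale y

psx y (0 at z = 0) is a test function supported in rad y/2 ≤ |z| ≤ 2 rad y with |dzb| ≤ C/rad y (|Lg z - y| ≤ 1 there, z ↦ Lg z is smooth off 0 with derivative ≤ 2/|z|; near 0 it is 0).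
T_y = TT V f (psx y) is admissible for Ex V y up to the factor C N (U = univ; TT_bounds with a = 0, R = rad y; TT_holo, as in the proof of vit, VitB; measurable: TT_meas; if N = 0 then T_y = 0).  far and farG: for |z| ≥ 16 rad y the ball z (|z|/2) is in the complement, |T_y z| ≤ C N Gx rad y/|z|; for |z| ≤ rad y/16 the ball z (rad y/16):
|T_y z| ≤ C N Gx, and the Lipschitz bound by the Cauchy estimate on ball 0 (rad y/8) (use |z| ≤ 3 rad y/32, d = rad y/32).  Last item: single with a = 0, R = 8 rad y, U = univ,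
E = Ex V y and 8 Q for Q (|dzb psx y| ≤ Q/rad y = 8Q/R), the support of w is in closedBall 0 (12 R). -/

open MeasureTheory Complex Set Metric Filter
open scoped Topology ContDiff ComplexConjugate

noncomputable section

namespace Pool.Agent.Work.MP_2cf110_an.Hyp

open QC (dz dzb Test Cau)

/-- the piece of the partition of unity at the scale `y` -/
def psx (y : ℕ) (z : ℂ) : ℂ := if z = 0 then 0 else ((th (Lg z - y) : ℝ) : ℂ)

private theorem rad_pos (y : ℕ) : 0 < rad y := by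
  unfold rad
  positivity

private theorem log_rad (y : ℕ) : Real.log (rad y) = -(y * Real.log 2) := by
  unfold rad
  rw [Real.log_pow, one_div, Real.log_inv]
  ring

private theorem psx_ne {y : ℕ} {z : ℂ} (h : psx y z ≠ 0) : rad y / 2 < ‖z‖ ∧ ‖z‖ < 2 * rad y := by
  have hz : z ≠ 0 := by
    rintro rfl
    exact h (by simp [psx])
  have h1 : th (Lg z - y) ≠ 0 := by
    intro h0
    apply h
    unfold psx
    rw [if_neg hz, h0, ofReal_zero]
  have h2 := th_facts.2.2.1 _ h1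
  rw [abs_lt] at h2
  unfold Lg at h2
  have hl2 : 0 < Real.log 2 := Real.log_pos (by norm_num)
  have hn : 0 < ‖z‖ := norm_pos_iff.2 hz
  have hr := rad_pos y
  obtain ⟨h3, h4⟩ := h2
  have e : Real.log ‖z‖ = (Real.log ‖z‖ / Real.log 2) * Real.log 2 := by
    field_simp
  constructor
  · rw [← Real.log_lt_log_iff (by positivity) hn, Real.log_div hr.ne' (by norm_num), log_rad, e]
    nlinarith
  · rw [← Real.log_lt_log_iff hn (by positivity), Real.log_mul (by norm_num) hr.ne', log_rad, e]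
    nlinarith

theorem psx_facts (y : ℕ) : Test univ (psx y) ∧ (∀ z, ‖psx y z‖ ≤ 1) ∧
    tsupport (psx y) ⊆ {z | rad y / 2 ≤ ‖z‖ ∧ ‖z‖ ≤ 2 * rad y} := by
  have hr := rad_pos y
  have hcl : IsClosed {z : ℂ | rad y / 2 ≤ ‖z‖ ∧ ‖z‖ ≤ 2 * rad y} :=
    (isClosed_le continuous_const continuous_norm).inter (isClosed_le continuous_norm continuous_const)
  have hsub : Function.support (psx y) ⊆ {z : ℂ | rad y / 2 ≤ ‖z‖ ∧ ‖z‖ ≤ 2 * rad y} := by
    intro z hz
    obtain ⟨h1, h2⟩ := psx_ne hz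
    exact ⟨h1.le, h2.le⟩
  have hts : tsupport (psx y) ⊆ {z : ℂ | rad y / 2 ≤ ‖z‖ ∧ ‖z‖ ≤ 2 * rad y} :=
    closure_minimal hsub hcl
  refine ⟨⟨?_, ?_, subset_univ _⟩, ?_, hts⟩
  · rw [contDiff_iff_contDiffAt]
    intro z
    by_cases hz : z = 0
    · have h0 : psx y =ᶠ[𝓝 z] fun _ => (0 : ℂ) := by
        rw [hz]
        filter_upwards [ball_mem_nhds (0 : ℂ) (half_pos hr)] with w hw
        by_contra hne
        have := (psx_ne hne).1
        rw [mem_ball, dist_zero_right] at hw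
        linarith
      exact contDiffAt_const.congr_of_eventuallyEq h0
    · have h0 : psx y =ᶠ[𝓝 z] fun w => ((th (Lg w - y) : ℝ) : ℂ) := by
        filter_upwards [isOpen_ne.mem_nhds hz] with w hw
        unfold psx
        rw [if_neg hw]
      refine ContDiffAt.congr_of_eventuallyEq ?_ h0
      have h1 : ContDiffAt ℝ ∞ (fun w : ℂ => Real.log ‖w‖) z :=
        (contDiffAt_norm ℝ hz).log (norm_ne_zero_iff.2 hz)
      have h2 : ContDiffAt ℝ ∞ (fun w : ℂ => Lg w - y) z := by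
        unfold Lg
        exact ((h1.div_const _).neg).sub contDiffAt_const
      have h3 : ContDiffAt ℝ ∞ (fun w : ℂ => th (Lg w - y)) z :=
        th_facts.1.contDiffAt.comp z h2
      exact Complex.ofRealCLM.contDiff.contDiffAt.comp z h3
  · refine HasCompactSupport.of_support_subset_isCompact (isCompact_closedBall (0 : ℂ) (2 * rad y)) ?_
    intro z hz
    rw [mem_closedBall, dist_zero_right]
    exact (psx_ne hz).2.le
  · intro z
    unfold psx
    split_ifs with h
    · simp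
    · rw [norm_real, Real.norm_of_nonneg (th_facts.2.1 _).1]
      exact (th_facts.2.1 _).2

private theorem psx_scale (y : ℕ) (z : ℂ) : psx y z = psx 0 ((2 : ℂ) ^ y * z) := by
  by_cases hz : z = 0
  · simp [psx, hz]
  · have h2 : (2 : ℂ) ^ y * z ≠ 0 := mul_ne_zero (pow_ne_zero _ two_ne_zero) hz
    unfold psx
    rw [if_neg hz, if_neg h2]
    congr 2
    unfold Lg
    have hl2 : Real.log 2 ≠ 0 := (Real.log_pos (by norm_num)).ne'
    rw [norm_mul, norm_pow, Complex.norm_ofNat, Real.log_mul (by positivity) (norm_ne_zero_iff.2 hz),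
      Real.log_pow]
    field_simp
    push_cast
    ring

theorem psx_dzb : ∃ Q : ℝ, 1 ≤ Q ∧ ∀ y z, ‖dzb (psx y) z‖ ≤ Q / rad y := by
  have ht := (QC.Test.dz (psx_facts 0).1).2
  obtain ⟨C, hC⟩ := ht.smooth.continuous.bounded_above_of_compact_support ht.cpt
  refine ⟨max C 1, le_max_right _ _, fun y z => ?_⟩
  have hr := rad_pos y
  have e : psx y = fun z => psx 0 ((2 : ℂ) ^ y * z) := funext (psx_scale y)
  have hg : DifferentiableAt ℂ (fun z : ℂ => (2 : ℂ) ^ y * z) z :=
    differentiableAt_id.const_mul _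
  have h1 := (QC.dz_comp (f := psx 0) (g := fun z : ℂ => (2 : ℂ) ^ y * z) (z := z)
    ((psx_facts 0).1.smooth.differentiable (by simp) _) (hg.restrictScalars ℝ)).2
  obtain ⟨h2, h3⟩ := QC.dz_of_holo hg
  have h4 : deriv (fun z : ℂ => (2 : ℂ) ^ y * z) z = (2 : ℂ) ^ y := by
    rw [deriv_const_mul _ differentiableAt_id, deriv_id'', mul_one]
  rw [e, h1, h2, h3, h4, mul_zero, zero_add, norm_mul, Complex.norm_conj, norm_pow,
    Complex.norm_ofNat]
  have h5 : (2 : ℝ) ^ y = 1 / rad y := by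
    unfold rad
    rw [one_div_pow, one_div_one_div]
  rw [h5, mul_one_div]
  exact div_le_div_of_nonneg_right ((hC _).trans (le_max_left _ _)) hr.le

private theorem Ex_sub (V : Set ℂ) (y : ℕ) : Ex V y ⊆ closedBall 0 (8 * rad y) := by
  intro z hz
  rw [mem_closedBall, dist_zero_right]
  exact hz.1.2

private theorem Ex_cpt {V : Set ℂ} (hV : IsOpen V) (y : ℕ) : IsCompact (Ex V y) := by
  have h1 : IsClosed {z : ℂ | rad y / 8 ≤ ‖z‖ ∧ ‖z‖ ≤ 8 * rad y} :=
    (isClosed_le continuous_const continuous_norm).inter (isClosed_le continuous_norm continuous_const)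
  have h2 : IsClosed (Ex V y) := h1.sdiff hV
  exact (isCompact_closedBall (0 : ℂ) (8 * rad y)).of_isClosed_subset h2 (Ex_sub V y)

private theorem ts_Ex (V : Set ℂ) (y : ℕ) : tsupport (psx y) \ V ⊆ Ex V y := by
  intro z hz
  have hr := rad_pos y
  obtain ⟨h1, h2⟩ := (psx_facts y).2.2 hz.1
  exact ⟨⟨by linarith, by linarith⟩, hz.2⟩

/-- `T_y` is a multiple of an admissible function -/
private theorem Tx_adm {Q : ℝ} (hQ1 : 1 ≤ Q) (hQ : ∀ y z, ‖dzb (psx y) z‖ ≤ Q / rad y)
    {V : Set ℂ} {N : ℝ} {f : ℂ → ℂ} (y : ℕ) (hV : IsOpen V) (hN : 0 ≤ N)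
    (hf : DifferentiableOn ℂ f V) (hfN : ∀ z ∈ V, ‖f z‖ ≤ N) :
    ∃ (b : ℂ → ℂ) (c : ℂ), Adm (Ex V y) b c ∧ ∀ z, TT V f (psx y) z = ((73 * N * Q : ℝ) : ℂ) * b z := by
  have hr := rad_pos y
  obtain ⟨hT, hT1, hTs⟩ := psx_facts y
  have hf' : DifferentiableOn ℂ f (V ∩ univ) := by rwa [inter_univ]
  have hfN' : ∀ z ∈ V ∩ univ, ‖f z‖ ≤ N := fun z hz => hfN z hz.1
  have hs : tsupport (psx y) ⊆ closedBall 0 (12 * rad y) := by
    intro z hz
    rw [mem_closedBall, dist_zero_right]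
    have := (hTs hz).2
    linarith
  have hQ0 : 0 ≤ Q := by linarith
  obtain ⟨hm, hb, hl⟩ := TT_bounds (a := 0) (R := rad y) hV isOpen_univ hr hN hQ0 hf' hfN' hT hs
    (fun z => (hT1 z).trans hQ1) (hQ y)
  obtain ⟨M, hM⟩ : ∃ M : ℝ, M = 73 * N * Q := ⟨_, rfl⟩
  rw [← hM] at hb ⊢
  have hM0 : 0 ≤ M := by rw [hM]; positivity
  rcases hM0.eq_or_lt with h0 | h0
  · refine ⟨fun _ => 0, 0, ⟨measurable_const, fun z => by simp, differentiableOn_const _, ?_⟩, ?_⟩
    · simp
    · intro z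
      have h1 := hb z
      rw [← h0] at h1 ⊢
      rw [ofReal_zero, zero_mul]
      exact norm_le_zero_iff.1 h1
  · have hMc : (M : ℂ) ≠ 0 := ofReal_ne_zero.2 h0.ne'
    refine ⟨fun z => TT V f (psx y) z / M,
      -((1 / (Real.pi : ℂ)) * ∫ z in V, f z * dzb (psx y) z) / M, ⟨hm.div_const _, ?_, ?_, ?_⟩, ?_⟩
    · intro z
      rw [norm_div, norm_real, Real.norm_of_nonneg hM0, div_le_one h0]
      exact hb z
    · exact ((TT_holo hV isOpen_univ hf' hfN' hT).mono
        (compl_subset_compl.2 (ts_Ex V y))).div_const _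
    · refine (hl.div_const (M : ℂ)).congr fun z => ?_
      rw [mul_div_assoc]
    · intro z
      field_simp

theorem Tx_facts : ∃ C : ℝ, 0 < C ∧ ∀ (V : Set ℂ) (N : ℝ) (f : ℂ → ℂ) (y : ℕ), IsOpen V → 0 ≤ N →
    DifferentiableOn ℂ f V → (∀ z ∈ V, ‖f z‖ ≤ N) →
    DifferentiableOn ℂ (TT V f (psx y)) (Ex V y)ᶜ ∧
    (∀ z : ℂ, 16 * rad y ≤ ‖z‖ → ‖TT V f (psx y) z‖ ≤ C * N * Gx V y * rad y / ‖z‖) ∧
    (∀ z z' : ℂ, ‖z‖ ≤ rad y / 16 → ‖z'‖ ≤ rad y / 16 →
      ‖TT V f (psx y) z - TT V f (psx y) z'‖ ≤ C * N * Gx V y * ‖z - z'‖ / rad y) ∧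
    ∀ (w : ℂ → ℂ) (W : ℝ), Test univ w → tsupport w ⊆ closedBall 0 (64 * rad y) →
      (∀ z, ‖w z‖ ≤ W) → ‖∫ z, TT V f (psx y) z * w z‖ ≤ C * N * W * rad y ^ 2 * Gx V y := by
  obtain ⟨Q, hQ1, hQ⟩ := psx_dzb
  obtain ⟨C₁, hC₁, hsg⟩ := single
  have hQ0 : 0 < Q := by linarith
  refine ⟨73 * Q * 2048 + C₁ * (8 * Q) * 8, by positivity, ?_⟩
  intro V N f y hV hN hf hfN
  have hr := rad_pos y
  obtain ⟨hT, hT1, hTs⟩ := psx_facts y
  have hf' : DifferentiableOn ℂ f (V ∩ univ) := by rwa [inter_univ]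
  have hfN' : ∀ z ∈ V ∩ univ, ‖f z‖ ≤ N := fun z hz => hfN z hz.1
  obtain ⟨b, c, hb, hTb⟩ := Tx_adm hQ1 hQ y hV hN hf hfN
  have hcpt := Ex_cpt hV y
  have hcap : 0 ≤ cap (Ex V y) := cap_nonneg _
  have hG : cap (Ex V y) = Gx V y * rad y := by
    unfold Gx
    field_simp
  have hG0 : 0 ≤ Gx V y := div_nonneg hcap hr.le
  have hM : ‖((73 * N * Q : ℝ) : ℂ)‖ = 73 * N * Q := by
    rw [norm_real, Real.norm_of_nonneg (by positivity)]
  refine ⟨?_, ?_, ?_, ?_⟩
  · exact (TT_holo hV isOpen_univ hf' hfN' hT).mono (compl_subset_compl.2 (ts_Ex V y))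
  · intro z hz
    have hz0 : 0 < ‖z‖ := by linarith
    have h1 := far (z₀ := z) hcpt (Ex_sub V y) (half_pos hz0) hb (by rw [sub_zero]; linarith)
    rw [hG] at h1
    rw [hTb z, norm_mul, hM]
    calc 73 * N * Q * ‖b z‖ ≤ 73 * N * Q * (2 / (‖z‖ / 2) * (Gx V y * rad y)) :=
          mul_le_mul_of_nonneg_left h1 (by positivity)
      _ = (73 * Q * 4) * (N * Gx V y * rad y / ‖z‖) := by
        field_simp
        ring
      _ ≤ (73 * Q * 2048 + C₁ * (8 * Q) * 8) * (N * Gx V y * rad y / ‖z‖) := by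
        apply mul_le_mul_of_nonneg_right _ (by positivity)
        have : 0 ≤ C₁ * (8 * Q) * 8 := by positivity
        linarith
      _ = (73 * Q * 2048 + C₁ * (8 * Q) * 8) * N * Gx V y * rad y / ‖z‖ := by ring
  · intro z z' hz hz'
    have hbd : ∀ z₀ : ℂ, ‖z₀‖ ≤ 3 * rad y / 32 → ‖b z₀‖ ≤ 64 * Gx V y := by
      intro z₀ h0
      have h1 := farG (z₀ := z₀) (d := rad y / 32) hcpt (Ex_sub V y) (by positivity) hb (by
        intro w hw he
        rw [mem_ball, dist_eq_norm] at hw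
        have h2 := he.1.1
        have h3 : ‖w‖ ≤ ‖w - z₀‖ + ‖z₀‖ := by
          calc ‖w‖ = ‖(w - z₀) + z₀‖ := by rw [sub_add_cancel]
            _ ≤ _ := norm_add_le _ _
        linarith)
      rw [hG] at h1
      refine h1.trans (le_of_eq ?_)
      field_simp
      ring
    have hopen : IsOpen (Ex V y)ᶜ := hcpt.isClosed.isOpen_compl
    have hball : ∀ w : ℂ, ‖w‖ ≤ 3 * rad y / 32 → w ∈ (Ex V y)ᶜ := by
      intro w hw he
      have h2 := he.1.1
      linarith
    have hdiff : ∀ w : ℂ, ‖w‖ ≤ rad y / 16 → DifferentiableAt ℂ b w := by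
      intro w hw
      exact hb.holo.differentiableAt (hopen.mem_nhds (hball w (by linarith)))
    have hder : ∀ w ∈ closedBall (0 : ℂ) (rad y / 16), ‖deriv b w‖ ≤ 2048 * Gx V y / rad y := by
      intro w hw
      rw [mem_closedBall, dist_zero_right] at hw
      have hs1 : ∀ u ∈ closedBall w (rad y / 32), ‖u‖ ≤ 3 * rad y / 32 := by
        intro u hu
        rw [mem_closedBall, dist_eq_norm] at hu
        calc ‖u‖ = ‖(u - w) + w‖ := by rw [sub_add_cancel]
          _ ≤ ‖u - w‖ + ‖w‖ := norm_add_le _ _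
          _ ≤ 3 * rad y / 32 := by linarith
      have h1 : DiffContOnCl ℂ b (ball w (rad y / 32)) := by
        apply DifferentiableOn.diffContOnCl
        rw [closure_ball _ (by positivity : rad y / 32 ≠ 0)]
        exact hb.holo.mono fun u hu => hball u (hs1 u hu)
      have h2 := Complex.norm_deriv_le_of_forall_mem_sphere_norm_le (c := w) (R := rad y / 32)
        (C := 64 * Gx V y) (f := b) (by positivity) h1
        (fun u hu => hbd u (hs1 u (sphere_subset_closedBall hu)))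
      refine h2.trans (le_of_eq ?_)
      field_simp
      ring
    have h3 := (convex_closedBall (0 : ℂ) (rad y / 16)).norm_image_sub_le_of_norm_deriv_le
      (f := b) (C := 2048 * Gx V y / rad y) (x := z') (y := z)
      (fun w hw => hdiff w (by rwa [mem_closedBall, dist_zero_right] at hw)) hder
      (by rwa [mem_closedBall, dist_zero_right]) (by rwa [mem_closedBall, dist_zero_right])
    rw [hTb z, hTb z', ← mul_sub, norm_mul, hM]
    calc 73 * N * Q * ‖b z - b z'‖ ≤ 73 * N * Q * (2048 * Gx V y / rad y * ‖z - z'‖) :=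
          mul_le_mul_of_nonneg_left h3 (by positivity)
      _ = (73 * Q * 2048) * (N * Gx V y * ‖z - z'‖ / rad y) := by ring
      _ ≤ (73 * Q * 2048 + C₁ * (8 * Q) * 8) * (N * Gx V y * ‖z - z'‖ / rad y) := by
        apply mul_le_mul_of_nonneg_right _ (by positivity)
        have : 0 ≤ C₁ * (8 * Q) * 8 := by positivity
        linarith
      _ = (73 * Q * 2048 + C₁ * (8 * Q) * 8) * N * Gx V y * ‖z - z'‖ / rad y := by ring
  · intro w W hw hws hwW
    have hW0 : 0 ≤ W := (norm_nonneg _).trans (hwW 0)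
    have h1 := hsg V univ (Ex V y) 0 (8 * rad y) N (8 * Q) W f (psx y) w hV isOpen_univ
      (by positivity) hN (by linarith) hW0 hf' hfN' hT
      (fun z hz => by
        rw [mem_closedBall, dist_zero_right]
        have := (hTs hz).2
        linarith) (ts_Ex V y)
      (fun z hz => by
        rw [mem_closedBall, dist_zero_right]
        have := hz.1.2
        linarith) hT1
      (fun z => by
        refine (hQ y z).trans (le_of_eq ?_)
        field_simp) hw
      (fun z hz => by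
        have := hws hz
        rw [mem_closedBall, dist_zero_right] at this ⊢
        linarith) hwW
    rw [hG] at h1
    refine h1.trans ?_
    calc C₁ * N * (8 * Q) * W * (8 * rad y) * (Gx V y * rad y)
        = (C₁ * (8 * Q) * 8) * (N * W * rad y ^ 2 * Gx V y) := by ring
      _ ≤ (73 * Q * 2048 + C₁ * (8 * Q) * 8) * (N * W * rad y ^ 2 * Gx V y) := by
        apply mul_le_mul_of_nonneg_right _ (by positivity)
        have : 0 ≤ 73 * Q * 2048 := by positivity
        linarith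
      _ = (73 * Q * 2048 + C₁ * (8 * Q) * 8) * N * W * rad y ^ 2 * Gx V y := by ring

end Pool.Agent.Work.MP_2cf110_an.Hyp

end
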