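import Pool.Agent.Work.MP_2cf110_an.Hyp.Kato

/-! # P = Φ - ε is a test function

PP κ ε = 0 off tsupport κ (Φ = |ε| = ε there), smooth on Hp (Ph_smooth). -/

open MeasureTheory Complex Set Metric Filter
open scoped Topology ContDiff ComplexConjugate

noncomputable section

namespace Pool.Agent.Work.MP_2cf110_an.Hyp

open QC (dz dzb Test Cau)

private lemma ph_ge (κ : ℂ → ℂ) (ε : ℂ → ℝ) (z : ℂ) : ε z ≤ Ph κ ε z := by
  rw [Ph]
  apply Real.le_sqrt_of_sq_le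
  nlinarith [sq_nonneg ‖κ z‖]

private lemma ph_zero {κ : ℂ → ℂ} {ε : ℂ → ℝ} {z : ℂ} (h : κ z = 0) (hε : 0 ≤ ε z) : Ph κ ε z = ε z := by
  rw [Ph, h, norm_zero]
  rw [show (0 : ℝ) ^ 2 + ε z ^ 2 = ε z ^ 2 by ring]
  exact Real.sqrt_sq hε

private lemma epsC {ε : ℂ → ℝ} (hε : ContDiffOn ℝ ∞ ε Hp) : ContDiffOn ℝ ∞ (fun w => (ε w : ℂ)) Hp :=
  Complex.ofRealCLM.contDiff.comp_contDiffOn hε

private lemma dzb_on {f : ℂ → ℂ} (hf : ContDiffOn ℝ ∞ f Hp) : ContDiffOn ℝ ∞ (dzb f) Hp := by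
  have h1 : ContDiffOn ℝ ∞ (fderiv ℝ f) Hp := hf.fderiv_of_isOpen isOpen_Hp (by simp)
  have h2 : ∀ v : ℂ, ContDiffOn ℝ ∞ (fun z => fderiv ℝ f z v) Hp := fun v =>
    h1.clm_apply contDiffOn_const
  unfold QC.dzb
  exact ((h2 1).add (contDiffOn_const.mul (h2 I))).div_const 2

theorem PP_test {C B : ℝ} {κ : ℂ → ℂ} {ε : ℂ → ℝ} (h : PotD C B κ ε) :
    Test Hp (PP κ ε) ∧ tsupport (PP κ ε) ⊆ tsupport κ ∧ (∀ z, 0 ≤ Ph κ ε z - ε z) ∧
    ∀ z ∈ Hp, ‖dz (PP κ ε) z‖ ≤ (‖dz κ z‖ + ‖dzb κ z‖) / 2 + 2 * ‖dz (fun w => (ε w : ℂ)) z‖ := by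
  have hκ : ContDiffOn ℝ ∞ κ Hp := h.test.smooth.contDiffOn
  have hPs := Ph_smooth hκ h.smooth h.pos
  have hεs := epsC h.smooth
  have hPPe : PP κ ε = fun z => (Ph κ ε z : ℂ) - (ε z : ℂ) := by
    funext z
    simp [PP]
  have hPPs : ContDiffOn ℝ ∞ (PP κ ε) Hp := by
    rw [hPPe]
    exact hPs.sub hεs
  have hzero : ∀ z, κ z = 0 → PP κ ε z = 0 := by
    intro z hz
    rw [hPPe]
    simp only
    rw [ph_zero hz (h.nonneg z), sub_self]
  have hsupp : tsupport (PP κ ε) ⊆ tsupport κ := by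
    refine closure_mono ?_
    intro z hz hz0
    exact hz (hzero z hz0)
  refine ⟨⟨?_, ?_, hsupp.trans h.test.sub⟩, hsupp, fun z => sub_nonneg.2 (ph_ge κ ε z), ?_⟩
  · rw [contDiff_iff_contDiffAt]
    intro z
    by_cases hz : z ∈ Hp
    · exact hPPs.contDiffAt (isOpen_Hp.mem_nhds hz)
    · have hz' : z ∉ tsupport κ := fun h' => hz (h.test.sub h')
      have hev : PP κ ε =ᶠ[𝓝 z] fun _ => (0 : ℂ) := by
        filter_upwards [(isClosed_tsupport κ).isOpen_compl.mem_nhds hz'] with w hw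
        exact hzero w (image_eq_zero_of_notMem_tsupport hw)
      exact contDiffAt_const.congr_of_eventuallyEq hev
  · exact h.test.cpt.of_isClosed_subset (isClosed_tsupport _) hsupp
  · intro z hz
    have hP1 : DifferentiableAt ℝ (fun z => (Ph κ ε z : ℂ)) z :=
      ((hPs.contDiffAt (isOpen_Hp.mem_nhds hz)).differentiableAt (by simp))
    have hε1 : DifferentiableAt ℝ (fun w => (ε w : ℂ)) z :=
      ((hεs.contDiffAt (isOpen_Hp.mem_nhds hz)).differentiableAt (by simp))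
    rw [hPPe, (QC.dz_sub hP1 hε1).1]
    have h1 := Ph_dz hκ h.smooth h.pos hz
    have h2 := norm_sub_le (dz (fun z => (Ph κ ε z : ℂ)) z) (dz (fun w => (ε w : ℂ)) z)
    linarith

theorem PP_low {C B : ℝ} {κ : ℂ → ℂ} {ε : ℂ → ℝ} (hC : 0 ≤ C) (h : PotD C B κ ε) {z : ℂ}
    (hz : z ∈ Hp) :
    ‖dz κ z‖ ^ 2 / (8 * Ph κ ε z) - (2 + 2 * C) * ε z / z.im ^ 2 ≤ (dz (dzb (PP κ ε)) z).re ∧
    (dz (dzb (PP κ ε)) z).im = 0 := by
  have hκ : ContDiffOn ℝ ∞ κ Hp := h.test.smooth.contDiffOn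
  have hPs := Ph_smooth hκ h.smooth h.pos
  have hεs := epsC h.smooth
  have hPPe : PP κ ε = fun z => (Ph κ ε z : ℂ) - (ε z : ℂ) := by
    funext z
    simp [PP]
  have hdP := dzb_on hPs
  have hdε := dzb_on hεs
  have hnh : Hp ∈ 𝓝 z := isOpen_Hp.mem_nhds hz
  have hev : dzb (PP κ ε) =ᶠ[𝓝 z] fun w => dzb (fun z => (Ph κ ε z : ℂ)) w - dzb (fun w => (ε w : ℂ)) w := by
    filter_upwards [hnh] with w hw
    have hwn : Hp ∈ 𝓝 w := isOpen_Hp.mem_nhds hw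
    rw [hPPe]
    exact (QC.dz_sub ((hPs.contDiffAt hwn).differentiableAt (by simp))
      ((hεs.contDiffAt hwn).differentiableAt (by simp))).2
  have heq : dz (dzb (PP κ ε)) z = dz (dzb (fun z => (Ph κ ε z : ℂ))) z - dz (dzb (fun w => (ε w : ℂ))) z := by
    have h1 : dz (dzb (PP κ ε)) z
        = dz (fun w => dzb (fun z => (Ph κ ε z : ℂ)) w - dzb (fun w => (ε w : ℂ)) w) z := by
      unfold QC.dz
      rw [hev.fderiv_eq]
    rw [h1]
    exact (QC.dz_sub ((hdP.contDiffAt hnh).differentiableAt (by simp))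
      ((hdε.contDiffAt hnh).differentiableAt (by simp))).1
  obtain ⟨hk1, hk2⟩ := kato hκ h.smooth h.pos hz
  have hk3 : (dz (dzb (fun w => (ε w : ℂ))) z).im = 0 := by
    have h1 := (kato (κ := fun _ => (0 : ℂ)) contDiffOn_const h.smooth h.pos hz).2
    have h2 : (fun z => (Ph (fun _ => (0 : ℂ)) ε z : ℂ)) = fun w => (ε w : ℂ) := by
      funext w
      rw [ph_zero rfl (h.nonneg w)]
    rw [h2] at h1
    exact h1
  have hy : 0 < z.im := hz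
  have hε0 : 0 < ε z := h.pos z hz
  have hPh : ε z ≤ Ph κ ε z := ph_ge κ ε z
  have hPh0 : 0 < Ph κ ε z := lt_of_lt_of_le hε0 hPh
  have b1 : ‖dzb κ z‖ ^ 2 / (4 * Ph κ ε z) ≤ ε z / z.im ^ 2 := by
    have h1 := h.k1 z hz
    have h2 : ‖dzb κ z‖ ^ 2 ≤ (ε z / z.im) ^ 2 := pow_le_pow_left₀ (norm_nonneg _) h1 2
    rw [div_le_iff₀ (by positivity)]
    have h3 : (ε z / z.im) ^ 2 = ε z / z.im ^ 2 * ε z := by
      rw [div_pow]
      ring
    have h4 : 0 ≤ ε z / z.im ^ 2 := by positivity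
    calc ‖dzb κ z‖ ^ 2 ≤ ε z / z.im ^ 2 * ε z := by rw [← h3]; exact h2
      _ ≤ ε z / z.im ^ 2 * (4 * Ph κ ε z) := mul_le_mul_of_nonneg_left (by linarith) h4
  have b2 := h.k2 z hz
  have b3 := h.e2 z hz
  have b4 : (dz (dzb (fun w => (ε w : ℂ))) z).re ≤ ‖dz (dzb (fun w => (ε w : ℂ))) z‖ :=
    Complex.re_le_norm _
  rw [heq, Complex.sub_re, Complex.sub_im, hk2, hk3]
  refine ⟨?_, by ring⟩
  have e1 : (2 + 2 * C) * ε z / z.im ^ 2 = 2 * (ε z / z.im ^ 2) + 2 * (C * ε z / z.im ^ 2) := by ring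
  rw [e1]
  linarith

end Pool.Agent.Work.MP_2cf110_an.Hyp

end
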