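import Pool.Agent.Work.MP_2cf110_an.Hyp.W0a

/-! # Pointwise inequality for ∂∂̄(|F|² P)

N = Σ F_j conj F_j (real), P real: ∂∂̄(NP) = N∂∂̄P + ∂N ∂̄P + ∂̄N ∂P + P ∂∂̄N, the middle terms are conjugate;
∂∂̄N = Σ (|∂F|² + |∂̄F|² + 2 Re(conj F ∂∂̄F)) ≥ Σ |∂F|² - 2 Σ |F||∂∂̄F|, |∂N| ≤ Σ |F| (|∂F| + |∂̄F|). -/

open MeasureTheory Complex Set Metric Filter
open scoped Topology ContDiff ComplexConjugate

noncomputable section

namespace Pool.Agent.Work.MP_2cf110_an.Hyp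

open QC (dz dzb Test Cau)

private theorem w1a_da {f : ℂ → ℂ} (hf : ContDiffOn ℝ ∞ f Hp) {z : ℂ} (hz : z ∈ Hp) :
    DifferentiableAt ℝ f z :=
  (hf.contDiffAt (isOpen_Hp.mem_nhds hz)).differentiableAt (by simp)

private theorem w1a_dz {f : ℂ → ℂ} (hf : ContDiffOn ℝ ∞ f Hp) :
    ContDiffOn ℝ ∞ (dz f) Hp ∧ ContDiffOn ℝ ∞ (dzb f) Hp := by
  have h1 : ContDiffOn ℝ ∞ (fderiv ℝ f) Hp := hf.fderiv_of_isOpen isOpen_Hp (by simp)
  have h2 : ∀ v : ℂ, ContDiffOn ℝ ∞ (fun z => fderiv ℝ f z v) Hp :=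
    fun v => h1.clm_apply contDiffOn_const
  constructor
  · exact ((h2 1).sub (contDiffOn_const.mul (h2 I))).div_const 2
  · exact ((h2 1).add (contDiffOn_const.mul (h2 I))).div_const 2

private theorem w1a_comm {f : ℂ → ℂ} (hf : ContDiffOn ℝ ∞ f Hp) {z : ℂ} (hz : z ∈ Hp) :
    dz (dzb f) z = dzb (dz f) z := by
  have h1 : ContDiffOn ℝ ∞ (fderiv ℝ f) Hp := hf.fderiv_of_isOpen isOpen_Hp (by simp)
  have hd : DifferentiableAt ℝ (fderiv ℝ f) z :=
    (h1.contDiffAt (isOpen_Hp.mem_nhds hz)).differentiableAt (by simp)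
  have h2 : ∀ v : ℂ, HasFDerivAt (fun z => fderiv ℝ f z v)
      ((ContinuousLinearMap.apply ℝ ℂ v).comp (fderiv ℝ (fderiv ℝ f) z)) z := fun v =>
    (ContinuousLinearMap.apply ℝ ℂ v).hasFDerivAt.comp z hd.hasFDerivAt
  have hsymm : fderiv ℝ (fderiv ℝ f) z 1 I = fderiv ℝ (fderiv ℝ f) z I 1 := by
    have := (hf.contDiffAt (isOpen_Hp.mem_nhds hz)).isSymmSndFDerivAt (by
      simp only [minSmoothness_of_isRCLikeNormedField]
      exact WithTop.coe_le_coe.2 (le_top : (2 : ℕ∞) ≤ ⊤))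
    exact this 1 I
  have e1 : HasFDerivAt (dzb f) ((2:ℂ)⁻¹ • (((ContinuousLinearMap.apply ℝ ℂ (1:ℂ)).comp
      (fderiv ℝ (fderiv ℝ f) z)) + I • ((ContinuousLinearMap.apply ℝ ℂ I).comp
      (fderiv ℝ (fderiv ℝ f) z)))) z := by
    have := ((h2 1).add ((h2 I).const_smul I)).const_smul (2:ℂ)⁻¹
    refine this.congr_of_eventuallyEq (Filter.Eventually.of_forall fun w => ?_)
    simp only [dzb, Pi.add_apply, Pi.smul_apply, smul_eq_mul]
    ring
  have e2 : HasFDerivAt (dz f) ((2:ℂ)⁻¹ • (((ContinuousLinearMap.apply ℝ ℂ (1:ℂ)).comp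
      (fderiv ℝ (fderiv ℝ f) z)) - I • ((ContinuousLinearMap.apply ℝ ℂ I).comp
      (fderiv ℝ (fderiv ℝ f) z)))) z := by
    have := ((h2 1).sub ((h2 I).const_smul I)).const_smul (2:ℂ)⁻¹
    refine this.congr_of_eventuallyEq (Filter.Eventually.of_forall fun w => ?_)
    simp only [dz, Pi.sub_apply, Pi.smul_apply, smul_eq_mul]
    ring
  have a1 : dz (dzb f) z = (fderiv ℝ (dzb f) z 1 - I * fderiv ℝ (dzb f) z I) / 2 := rfl
  have a2 : dzb (dz f) z = (fderiv ℝ (dz f) z 1 + I * fderiv ℝ (dz f) z I) / 2 := rfl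
  rw [a1, a2, e1.fderiv, e2.fderiv]
  simp only [smul_apply, add_apply, sub_apply, ContinuousLinearMap.comp_apply,
    ContinuousLinearMap.apply_apply, smul_eq_mul]
  rw [hsymm]
  ring

private theorem w1a_congr {f g : ℂ → ℂ} (h : ∀ w ∈ Hp, f w = g w) {z : ℂ} (hz : z ∈ Hp) :
    dz f z = dz g z ∧ dzb f z = dzb g z := by
  have h1 : f =ᶠ[𝓝 z] g := by
    filter_upwards [isOpen_Hp.mem_nhds hz] with w hw
    exact h w hw
  unfold QC.dz QC.dzb
  rw [h1.fderiv_eq]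
  exact ⟨rfl, rfl⟩

private theorem w1a_sum {n : ℕ} {f : Fin n → ℂ → ℂ} {z : ℂ}
    (hf : ∀ j, DifferentiableAt ℝ (f j) z) :
    dz (fun w => ∑ j, f j w) z = ∑ j, dz (f j) z ∧
    dzb (fun w => ∑ j, f j w) z = ∑ j, dzb (f j) z := by
  unfold QC.dz QC.dzb
  rw [fderiv_fun_sum fun j _ => hf j]
  constructor
  · simp only [sum_apply]
    rw [← Finset.sum_div, Finset.sum_sub_distrib, Finset.mul_sum]
  · simp only [sum_apply]
    rw [← Finset.sum_div, Finset.sum_add_distrib, Finset.mul_sum]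

private theorem w1a_conj {f : ℂ → ℂ} {z : ℂ} (hf : DifferentiableAt ℝ f z) :
    DifferentiableAt ℝ (fun w => conj (f w)) z :=
  (Complex.conjCLE.differentiableAt (x := f z)).comp z hf

theorem w1a {n : ℕ} {F : Fin n → ℂ → ℂ} {P : ℂ → ℂ} (hF : ∀ j, ContDiffOn ℝ ∞ (F j) Hp)
    (hP : ContDiffOn ℝ ∞ P Hp) (hre : ∀ z, (P z).im = 0) (hpos : ∀ z, 0 ≤ (P z).re) {z : ℂ}
    (hz : z ∈ Hp) :
    (P z).re * ∑ j, ‖dz (F j) z‖ ^ 2 ≤
      (dz (dzb fun z => ((nsq F z : ℝ) : ℂ) * P z) z).re + nsq F z * ‖dz (dzb P) z‖ +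
      2 * (∑ j, ‖F j z‖ * (‖dz (F j) z‖ + ‖dzb (F j) z‖)) * ‖dz P z‖ +
      2 * (P z).re * ∑ j, ‖F j z‖ * ‖dz (dzb (F j)) z‖ := by
  have hFd := fun j (w : ℂ) (hw : w ∈ Hp) => w1a_da (hF j) hw
  have hF1 := fun j => w1a_dz (hF j)
  have hP1 := w1a_dz hP
  -- the function `N`
  let N : ℂ → ℂ := fun w => ∑ j, F j w * conj (F j w)
  have hN : ∀ w, ((nsq F w : ℝ) : ℂ) = N w := by
    intro w
    show ((∑ j, ‖F j w‖ ^ 2 : ℝ) : ℂ) = ∑ j, F j w * conj (F j w)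
    push_cast
    refine Finset.sum_congr rfl fun j _ => ?_
    rw [Complex.mul_conj, Complex.normSq_eq_norm_sq]
    push_cast
    rfl
  have hterm : ∀ j, ∀ w ∈ Hp, dz (fun w => F j w * conj (F j w)) w =
      dz (F j) w * conj (F j w) + F j w * conj (dzb (F j) w) ∧
      dzb (fun w => F j w * conj (F j w)) w =
      dzb (F j) w * conj (F j w) + F j w * conj (dz (F j) w) := by
    intro j w hw
    have h1 := QC.dz_mul (hFd j w hw) (w1a_conj (hFd j w hw))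
    rw [(QC.dz_conj (F j) w).1, (QC.dz_conj (F j) w).2] at h1
    exact h1
  have hdt : ∀ j, ∀ w ∈ Hp, DifferentiableAt ℝ (fun w => F j w * conj (F j w)) w :=
    fun j w hw => (hFd j w hw).mul (w1a_conj (hFd j w hw))
  have hNz : ∀ w ∈ Hp, dz N w = ∑ j, (dz (F j) w * conj (F j w) + F j w * conj (dzb (F j) w)) := by
    intro w hw
    show dz (fun w => ∑ j, F j w * conj (F j w)) w = _
    rw [(w1a_sum fun j => hdt j w hw).1]
    exact Finset.sum_congr rfl fun j _ => (hterm j w hw).1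
  have hNzb : ∀ w ∈ Hp, dzb N w =
      ∑ j, (dzb (F j) w * conj (F j w) + F j w * conj (dz (F j) w)) := by
    intro w hw
    show dzb (fun w => ∑ j, F j w * conj (F j w)) w = _
    rw [(w1a_sum fun j => hdt j w hw).2]
    exact Finset.sum_congr rfl fun j _ => (hterm j w hw).2
  have hNd : ∀ w ∈ Hp, DifferentiableAt ℝ N w := fun w hw =>
    DifferentiableAt.fun_sum fun j _ => hdt j w hw
  have hA : ∀ j, ∀ w ∈ Hp, DifferentiableAt ℝ
      (fun w => dzb (F j) w * conj (F j w) + F j w * conj (dz (F j) w)) w := by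
    intro j w hw
    exact ((w1a_da (hF1 j).2 hw).mul (w1a_conj (hFd j w hw))).add
      ((hFd j w hw).mul (w1a_conj (w1a_da (hF1 j).1 hw)))
  have hNN : dz (dzb N) z = ∑ j, (dz (dzb (F j)) z * conj (F j z) +
      dzb (F j) z * conj (dzb (F j) z) + (dz (F j) z * conj (dz (F j) z) +
      F j z * conj (dz (dzb (F j)) z))) := by
    rw [(w1a_congr hNzb hz).1, (w1a_sum fun j => hA j z hz).1]
    refine Finset.sum_congr rfl fun j _ => ?_
    rw [(QC.dz_add ((w1a_da (hF1 j).2 hz).fun_mul (w1a_conj (hFd j z hz)))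
      ((hFd j z hz).fun_mul (w1a_conj (w1a_da (hF1 j).1 hz)))).1,
      (QC.dz_mul (w1a_da (hF1 j).2 hz) (w1a_conj (hFd j z hz))).1,
      (QC.dz_mul (hFd j z hz) (w1a_conj (w1a_da (hF1 j).1 hz))).1,
      (QC.dz_conj (F j) z).1, (QC.dz_conj (dz (F j)) z).1, ← w1a_comm (hF j) hz]
  have hNbd : ∀ w ∈ Hp, DifferentiableAt ℝ (dzb N) w := by
    intro w hw
    have h1 : DifferentiableAt ℝ (fun w => ∑ j, (dzb (F j) w * conj (F j w) +
        F j w * conj (dz (F j) w))) w := DifferentiableAt.fun_sum fun j _ => hA j w hw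
    refine h1.congr_of_eventuallyEq ?_
    filter_upwards [isOpen_Hp.mem_nhds hw] with x hx
    exact hNzb x hx
  -- the product rule
  have hG : dz (dzb fun w => ((nsq F w : ℝ) : ℂ) * P w) z =
      (dz (dzb N) z * P z + dzb N z * dz P z) + (dz N z * dzb P z + N z * dz (dzb P) z) := by
    have h0 : (fun w => ((nsq F w : ℝ) : ℂ) * P w) = fun w => N w * P w := by
      funext w
      rw [hN]
    rw [h0]
    have h1 : ∀ w ∈ Hp, dzb (fun w => N w * P w) w = dzb N w * P w + N w * dzb P w :=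
      fun w hw => (QC.dz_mul (hNd w hw) (w1a_da hP hw)).2
    rw [(w1a_congr h1 hz).1,
      (QC.dz_add ((hNbd z hz).fun_mul (w1a_da hP hz)) ((hNd z hz).fun_mul (w1a_da hP1.2 hz))).1,
      (QC.dz_mul (hNbd z hz) (w1a_da hP hz)).1, (QC.dz_mul (hNd z hz) (w1a_da hP1.2 hz)).1]
  -- `P` is real
  have hPr : (fun w => conj (P w)) = P := by
    funext w
    exact Complex.conj_eq_iff_im.2 (hre w)
  have hPb : ‖dzb P z‖ = ‖dz P z‖ := by
    have h1 := (QC.dz_conj P z).2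
    rw [hPr] at h1
    rw [h1, Complex.norm_conj]
  have hPz : P z = (((P z).re : ℝ) : ℂ) := (Complex.ext (by simp) (by simp [hre z]))
  set S := ∑ j, ‖F j z‖ * (‖dz (F j) z‖ + ‖dzb (F j) z‖) with hS
  have hN1 : ‖dz N z‖ ≤ S := by
    rw [hNz z hz]
    refine (norm_sum_le _ _).trans (Finset.sum_le_sum fun j _ => ?_)
    refine (norm_add_le _ _).trans (le_of_eq ?_)
    rw [norm_mul, norm_mul, Complex.norm_conj, Complex.norm_conj]
    ring
  have hN2 : ‖dzb N z‖ ≤ S := by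
    rw [hNzb z hz]
    refine (norm_sum_le _ _).trans (Finset.sum_le_sum fun j _ => ?_)
    refine (norm_add_le _ _).trans (le_of_eq ?_)
    rw [norm_mul, norm_mul, Complex.norm_conj, Complex.norm_conj]
    ring
  have hN3 : ∑ j, ‖dz (F j) z‖ ^ 2 - 2 * ∑ j, ‖F j z‖ * ‖dz (dzb (F j)) z‖ ≤
      (dz (dzb N) z).re := by
    rw [hNN, Complex.re_sum, Finset.mul_sum, ← Finset.sum_sub_distrib]
    refine Finset.sum_le_sum fun j _ => ?_
    rw [Complex.add_re, Complex.add_re, Complex.add_re, Complex.mul_conj, Complex.mul_conj,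
      Complex.ofReal_re, Complex.ofReal_re, Complex.normSq_eq_norm_sq, Complex.normSq_eq_norm_sq]
    have h1 := (abs_le.1 (Complex.abs_re_le_norm (dz (dzb (F j)) z * conj (F j z)))).1
    have h2 := (abs_le.1 (Complex.abs_re_le_norm (F j z * conj (dz (dzb (F j)) z)))).1
    rw [norm_mul, Complex.norm_conj] at h1 h2
    nlinarith [sq_nonneg ‖dzb (F j) z‖]
  rw [hG]
  have hNre : N z = ((nsq F z : ℝ) : ℂ) := (hN z).symm
  have hNn : 0 ≤ nsq F z := Finset.sum_nonneg fun j _ => sq_nonneg _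
  have e1 : (dz (dzb N) z * P z).re = (dz (dzb N) z).re * (P z).re := by
    rw [Complex.mul_re, hre z, mul_zero, sub_zero]
  have e2 : (N z * dz (dzb P) z).re = nsq F z * (dz (dzb P) z).re := by
    rw [hNre, Complex.re_ofReal_mul]
  rw [Complex.add_re, Complex.add_re, Complex.add_re, e1, e2]
  have b1 := (abs_le.1 (Complex.abs_re_le_norm (dzb N z * dz P z))).1
  have b2 := (abs_le.1 (Complex.abs_re_le_norm (dz N z * dzb P z))).1
  rw [norm_mul] at b1 b2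
  rw [hPb] at b2
  have b3 := (abs_le.1 (Complex.abs_re_le_norm (dz (dzb P) z))).1
  have b4 : ‖dzb N z‖ * ‖dz P z‖ ≤ S * ‖dz P z‖ := mul_le_mul_of_nonneg_right hN2 (norm_nonneg _)
  have b5 : ‖dz N z‖ * ‖dz P z‖ ≤ S * ‖dz P z‖ := mul_le_mul_of_nonneg_right hN1 (norm_nonneg _)
  have b6 : -(nsq F z * ‖dz (dzb P) z‖) ≤ nsq F z * (dz (dzb P) z).re := by
    nlinarith
  have b7 : (P z).re * (∑ j, ‖dz (F j) z‖ ^ 2 - 2 * ∑ j, ‖F j z‖ * ‖dz (dzb (F j)) z‖) ≤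
      (P z).re * (dz (dzb N) z).re := mul_le_mul_of_nonneg_left hN3 (hpos z)
  nlinarith

end Pool.Agent.Work.MP_2cf110_an.Hyp

end
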