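import Pool.Agent.Work.MP_2cf110_an.Hyp.PotDef
import Pool.Agent.Work.MP_2cf110_an.Hyp.LamF

/-! # Pointwise bound for Wolff's estimate

X = λ² conj F_p conj(∂F_l) κ; ∂X = ∂(λ²) ... + λ² conj(∂̄F_p) ... + λ² conj F_p conj(∂̄∂F_l) κ + λ² conj F_p conj(∂F_l) ∂κ;
∂̄∂F_l = ∂∂̄F_l on Hp (local version of QC.dz_dzb_comm); lam_nsq; |∂(λ²)| ≤ 2|λ||∂λ| ≤ C Σ (|∂F_j| + |∂̄F_j|);
products |∂F_j||∂F_l| |κ| ≤ (|∂F_j|² + |∂F_l|²) Φ, |∂̄F| ≤ C T/y and ≤ C/y, |∂F_l| ≤ C/y, |∂F_l||∂κ| ≤ |∂F_l|²Φ + |∂κ|²/Φ, |κ| ≤ Φ. -/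

open MeasureTheory Complex Set Metric Filter
open scoped Topology ContDiff ComplexConjugate

noncomputable section

namespace Pool.Agent.Work.MP_2cf110_an.Hyp

open QC (dz dzb Test Cau)

private theorem sm_dz {f : ℂ → ℂ} (h : ContDiffOn ℝ ∞ f Hp) :
    ContDiffOn ℝ ∞ (dz f) Hp ∧ ContDiffOn ℝ ∞ (dzb f) Hp := by
  have h1 : ContDiffOn ℝ ∞ (fderiv ℝ f) Hp := h.fderiv_of_isOpen isOpen_Hp (by simp)
  have h2 : ∀ v : ℂ, ContDiffOn ℝ ∞ (fun z => fderiv ℝ f z v) Hp :=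
    fun v => h1.clm_apply contDiffOn_const
  constructor
  · exact ((h2 1).sub (contDiffOn_const.mul (h2 I))).div_const 2
  · exact ((h2 1).add (contDiffOn_const.mul (h2 I))).div_const 2

private theorem sm_diff {f : ℂ → ℂ} (h : ContDiffOn ℝ ∞ f Hp) {z : ℂ} (hz : z ∈ Hp) :
    DifferentiableAt ℝ f z :=
  (h.differentiableOn (by simp)).differentiableAt (isOpen_Hp.mem_nhds hz)

private theorem comm_loc {f : ℂ → ℂ} (h : ContDiffOn ℝ ∞ f Hp) {z : ℂ} (hz : z ∈ Hp) :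
    dz (dzb f) z = dzb (dz f) z := by
  have h1 : ContDiffOn ℝ ∞ (fderiv ℝ f) Hp := h.fderiv_of_isOpen isOpen_Hp (by simp)
  have hd : DifferentiableAt ℝ (fderiv ℝ f) z :=
    (h1.differentiableOn (by simp)).differentiableAt (isOpen_Hp.mem_nhds hz)
  have h2 : ∀ v : ℂ, HasFDerivAt (fun z => fderiv ℝ f z v)
      ((ContinuousLinearMap.apply ℝ ℂ v).comp (fderiv ℝ (fderiv ℝ f) z)) z := fun v =>
    (ContinuousLinearMap.apply ℝ ℂ v).hasFDerivAt.comp z hd.hasFDerivAt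
  have hsymm : fderiv ℝ (fderiv ℝ f) z 1 I = fderiv ℝ (fderiv ℝ f) z I 1 := by
    have := (h.contDiffAt (isOpen_Hp.mem_nhds hz)).isSymmSndFDerivAt (by
      simp only [minSmoothness_of_isRCLikeNormedField]
      exact WithTop.coe_le_coe.2 (le_top : (2 : ℕ∞) ≤ ⊤))
    exact this 1 I
  have e1 : HasFDerivAt (dzb f) ((2:ℂ)⁻¹ • (((ContinuousLinearMap.apply ℝ ℂ (1:ℂ)).comp
      (fderiv ℝ (fderiv ℝ f) z)) + I • ((ContinuousLinearMap.apply ℝ ℂ I).comp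
      (fderiv ℝ (fderiv ℝ f) z)))) z := by
    have := ((h2 1).add ((h2 I).const_smul I)).const_smul (2:ℂ)⁻¹
    refine this.congr_of_eventuallyEq (Filter.Eventually.of_forall fun w => ?_)
    simp only [QC.dzb, Pi.add_apply, Pi.smul_apply, smul_eq_mul]
    ring
  have e2 : HasFDerivAt (dz f) ((2:ℂ)⁻¹ • (((ContinuousLinearMap.apply ℝ ℂ (1:ℂ)).comp
      (fderiv ℝ (fderiv ℝ f) z)) - I • ((ContinuousLinearMap.apply ℝ ℂ I).comp
      (fderiv ℝ (fderiv ℝ f) z)))) z := by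
    have := ((h2 1).sub ((h2 I).const_smul I)).const_smul (2:ℂ)⁻¹
    refine this.congr_of_eventuallyEq (Filter.Eventually.of_forall fun w => ?_)
    simp only [QC.dz, Pi.sub_apply, Pi.smul_apply, smul_eq_mul]
    ring
  have a1 : dz (dzb f) z = (fderiv ℝ (dzb f) z 1 - I * fderiv ℝ (dzb f) z I) / 2 := rfl
  have a2 : dzb (dz f) z = (fderiv ℝ (dz f) z 1 + I * fderiv ℝ (dz f) z I) / 2 := rfl
  rw [a1, a2, e1.fderiv, e2.fderiv]
  simp only [smul_apply, add_apply, sub_apply, ContinuousLinearMap.comp_apply,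
    ContinuousLinearMap.apply_apply, smul_eq_mul]
  rw [hsymm]
  ring

private theorem dz_congr {f g : ℂ → ℂ} {z : ℂ} (h : f =ᶠ[𝓝 z] g) : dz f z = dz g z ∧ dzb f z = dzb g z := by
  unfold QC.dz QC.dzb
  rw [h.fderiv_eq]
  exact ⟨rfl, rfl⟩

/-- the function whose integral is estimated -/
def XX {n : ℕ} (c : ℝ) (F : Fin n → ℂ → ℂ) (κ : ℂ → ℂ) (p l : Fin n) (z : ℂ) : ℂ :=
  ((lam c (nsq F z) : ℝ) : ℂ) ^ 2 * (conj (F p z) * conj (dz (F l) z)) * κ z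


private theorem ph_ge (κ : ℂ → ℂ) (ε : ℂ → ℝ) (z : ℂ) : ‖κ z‖ ≤ Ph κ ε z := by
  unfold Ph
  apply Real.le_sqrt_of_sq_le
  nlinarith [sq_nonneg (ε z)]

private theorem ph_pos {κ : ℂ → ℂ} {ε : ℂ → ℝ} {z : ℂ} (h : 0 < ε z) : 0 < Ph κ ε z := by
  unfold Ph
  positivity

private theorem prod5 {L p l k : ℂ → ℂ} {z : ℂ} (hL : DifferentiableAt ℝ L z)
    (hp : DifferentiableAt ℝ p z) (hl : DifferentiableAt ℝ l z) (hk : DifferentiableAt ℝ k z) :
    dz (fun z => L z * L z * (p z * l z) * k z) z =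
      2 * L z * dz L z * (p z * l z) * k z + L z ^ 2 * (dz p z * l z) * k z +
      L z ^ 2 * (p z * dz l z) * k z + L z ^ 2 * (p z * l z) * dz k z := by
  have b1 := (QC.dz_mul hL hL).1
  have b2 := (QC.dz_mul hp hl).1
  have b3 := (QC.dz_mul (f := fun z => L z * L z) (g := fun z => p z * l z)
    (hL.mul hL) (hp.mul hl)).1
  have b4 := (QC.dz_mul (f := fun z => L z * L z * (p z * l z)) (g := k)
    ((hL.mul hL).mul (hp.mul hl)) hk).1
  rw [b4, b3, b1, b2]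
  ring

/-- the derivative of the product -/
private theorem dz_XX {n : ℕ} {c : ℝ} {F : Fin n → ℂ → ℂ} {κ : ℂ → ℂ} (p l : Fin n)
    (hF : ∀ j, ContDiffOn ℝ ∞ (F j) Hp) (hκ : ContDiffOn ℝ ∞ κ Hp)
    (hL : ContDiffOn ℝ ∞ (fun z => ((lam c (nsq F z) : ℝ) : ℂ)) Hp) {z : ℂ} (hz : z ∈ Hp) :
    dz (XX c F κ p l) z =
      2 * ((lam c (nsq F z) : ℝ) : ℂ) * dz (fun z => ((lam c (nsq F z) : ℝ) : ℂ)) z *
        (conj (F p z) * conj (dz (F l) z)) * κ z +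
      ((lam c (nsq F z) : ℝ) : ℂ) ^ 2 * (conj (dzb (F p) z) * conj (dz (F l) z)) * κ z +
      ((lam c (nsq F z) : ℝ) : ℂ) ^ 2 * (conj (F p z) * conj (dz (dzb (F l)) z)) * κ z +
      ((lam c (nsq F z) : ℝ) : ℂ) ^ 2 * (conj (F p z) * conj (dz (F l) z)) * dz κ z := by
  have dL := sm_diff hL hz
  have dk := sm_diff hκ hz
  have dp := sm_diff (hF p) hz
  have dl := sm_diff (sm_dz (hF l)).1 hz
  have cp : DifferentiableAt ℝ (fun z => conj (F p z)) z :=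
    Complex.conjCLE.differentiableAt.comp z dp
  have cl : DifferentiableAt ℝ (fun z => conj (dz (F l) z)) z :=
    Complex.conjCLE.differentiableAt.comp z dl
  have b := prod5 dL cp cl dk
  rw [(QC.dz_conj (F p) z).1, (QC.dz_conj (dz (F l)) z).1, ← comm_loc (hF l) hz] at b
  have e : XX c F κ p l = fun z => ((lam c (nsq F z) : ℝ) : ℂ) * ((lam c (nsq F z) : ℝ) : ℂ) *
      (conj (F p z) * conj (dz (F l) z)) * κ z := by
    funext w
    simp only [XX]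
    ring
  rw [e]
  exact b

private theorem am {a k P : ℝ} (hP : 0 < P) : a * k ≤ a ^ 2 * P + k ^ 2 / P := by
  have h : k = (k / P) * P := by field_simp
  have h2 : k ^ 2 / P = (k / P) ^ 2 * P := by field_simp
  rw [h2]
  nth_rewrite 1 [h]
  nlinarith [sq_nonneg (a - k / P), sq_nonneg a, sq_nonneg (k / P), sq_nonneg (a + k / P),
    mul_nonneg hP.le (sq_nonneg (a - k / P)), mul_nonneg hP.le (sq_nonneg a),
    mul_nonneg hP.le (sq_nonneg (k / P))]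

/-- the numerical part -/
private theorem num {n : ℕ} {C D y P t k' kk L L' a0 b0 d0 f0 : ℝ} {a b : Fin n → ℝ}
    (hC : 0 < C) (hD : 0 < D) (hy : 0 < y) (hP : 0 < P) (ht : 0 ≤ t) (hk' : 0 ≤ k')
    (hkk : 0 ≤ kk) (hkP : kk ≤ P) (hL0 : 0 ≤ L) (hL : L ≤ D) (hL'0 : 0 ≤ L') (hL' : L' ≤ D * ∑ j, (a j + b j))
    (ha : ∀ j, 0 ≤ a j) (hb : ∀ j, 0 ≤ b j) (hab : ∀ j, b j ≤ C * t / y) (l : Fin n)
    (ha0 : a0 = a l) (haC : a0 ≤ C / y) (hb0 : 0 ≤ b0) (hb1 : b0 ≤ C * t / y)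
    (hd0 : 0 ≤ d0) (hd1 : d0 ≤ C * t / y ^ 2) (hf0 : 0 ≤ f0) (hf : f0 ≤ C) :
    y * (2 * L * L' * (f0 * a0) * kk + L ^ 2 * (b0 * a0) * kk + L ^ 2 * (f0 * d0) * kk +
      L ^ 2 * (f0 * a0) * k') ≤
    (2 * D ^ 2 * C * (1 + n) + 2 * D ^ 2 * n * C ^ 3 + 2 * D ^ 2 * C ^ 2 + D ^ 2 * C) *
      ((∑ j, y * (a j ^ 2 * P)) + y * (k' ^ 2 / P) + t * P / y) := by
  have ha1 : 0 ≤ a0 := ha0 ▸ ha l
  set S := ∑ j, y * (a j ^ 2 * P) with hS
  set K := y * (k' ^ 2 / P) with hK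
  set Q := t * P / y with hQ
  have hS0 : 0 ≤ S := Finset.sum_nonneg fun j _ => by positivity
  have hK0 : 0 ≤ K := by positivity
  have hQ0 : 0 ≤ Q := by positivity
  have hl : y * (a0 ^ 2 * P) ≤ S := by
    rw [ha0]
    exact Finset.single_le_sum (f := fun j => y * (a j ^ 2 * P)) (fun j _ => by positivity)
      (Finset.mem_univ l)
  -- first term
  have t1 : y * ((∑ j, (a j + b j)) * a0 * P) ≤ (1 + n) * S + n * (C ^ 2 * Q) := by
    have e : y * ((∑ j, (a j + b j)) * a0 * P) = ∑ j, (y * (a j * a0 * P) + y * (b j * a0 * P)) := by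
      rw [Finset.sum_mul, Finset.sum_mul, Finset.mul_sum]
      exact Finset.sum_congr rfl fun j _ => by ring
    rw [e]
    have h : ∀ j ∈ Finset.univ, y * (a j * a0 * P) + y * (b j * a0 * P) ≤
        (y * (a j ^ 2 * P) + S) + C ^ 2 * Q := by
      intro j _
      have h1 : y * (a j * a0 * P) ≤ y * (a j ^ 2 * P) + y * (a0 ^ 2 * P) := by
        have : a j * a0 ≤ a j ^ 2 + a0 ^ 2 := by
          nlinarith [sq_nonneg (a j - a0), sq_nonneg (a j + a0), sq_nonneg (a j), sq_nonneg a0]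
        have h3 : y * (a j * a0 * P) ≤ y * ((a j ^ 2 + a0 ^ 2) * P) := by gcongr
        linarith
      have h2 : y * (b j * a0 * P) ≤ C ^ 2 * Q := by
        have : b j * a0 ≤ (C * t / y) * (C / y) :=
          mul_le_mul (hab j) haC ha1 (by positivity)
        calc y * (b j * a0 * P) ≤ y * ((C * t / y) * (C / y) * P) := by gcongr
          _ = C ^ 2 * Q := by rw [hQ]; field_simp
      linarith
    refine (Finset.sum_le_sum h).trans (le_of_eq ?_)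
    rw [Finset.sum_add_distrib, Finset.sum_add_distrib]
    simp only [Finset.sum_const, Finset.card_univ, Fintype.card_fin, nsmul_eq_mul]
    ring
  have s0 : 0 ≤ ∑ j, (a j + b j) := Finset.sum_nonneg fun j _ => add_nonneg (ha j) (hb j)
  have T1 : y * (2 * L * L' * (f0 * a0) * kk) ≤ 2 * D ^ 2 * C * ((1 + n) * S + n * (C ^ 2 * Q)) := by
    have h1 : y * (2 * L * L' * (f0 * a0) * kk) ≤
        y * (2 * D * (D * ∑ j, (a j + b j)) * (C * a0) * P) := by gcongr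
    calc _ ≤ _ := h1
      _ = 2 * D ^ 2 * C * (y * ((∑ j, (a j + b j)) * a0 * P)) := by ring
      _ ≤ _ := by gcongr
  have T2 : y * (L ^ 2 * (b0 * a0) * kk) ≤ D ^ 2 * (C ^ 2 * Q) := by
    calc y * (L ^ 2 * (b0 * a0) * kk) ≤ y * (D ^ 2 * ((C * t / y) * (C / y)) * P) := by gcongr
      _ = D ^ 2 * (C ^ 2 * Q) := by rw [hQ]; field_simp
  have T3 : y * (L ^ 2 * (f0 * d0) * kk) ≤ D ^ 2 * (C ^ 2 * Q) := by
    calc y * (L ^ 2 * (f0 * d0) * kk) ≤ y * (D ^ 2 * (C * (C * t / y ^ 2)) * P) := by gcongr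
      _ = D ^ 2 * (C ^ 2 * Q) := by rw [hQ]; field_simp
  have T4 : y * (L ^ 2 * (f0 * a0) * k') ≤ D ^ 2 * C * (S + K) := by
    have h1 : a0 * k' ≤ a0 ^ 2 * P + k' ^ 2 / P := am hP
    calc y * (L ^ 2 * (f0 * a0) * k') = L ^ 2 * f0 * (y * (a0 * k')) := by ring
      _ ≤ D ^ 2 * C * (y * (a0 ^ 2 * P + k' ^ 2 / P)) := by gcongr
      _ = D ^ 2 * C * (y * (a0 ^ 2 * P) + K) := by rw [hK]; ring
      _ ≤ D ^ 2 * C * (S + K) := by gcongr
  have e1 : 0 ≤ D ^ 2 * C * (1 + n) := by positivity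
  have e2 : 0 ≤ D ^ 2 * n * C ^ 3 := by positivity
  have e3 : 0 ≤ D ^ 2 * C ^ 2 := by positivity
  have e4 : 0 ≤ D ^ 2 * C := by positivity
  have fin : 2 * D ^ 2 * C * ((1 + n) * S + n * (C ^ 2 * Q)) + D ^ 2 * (C ^ 2 * Q) +
      D ^ 2 * (C ^ 2 * Q) + D ^ 2 * C * (S + K) ≤
      (2 * D ^ 2 * C * (1 + n) + 2 * D ^ 2 * n * C ^ 3 + 2 * D ^ 2 * C ^ 2 + D ^ 2 * C) *
      (S + K + Q) := by
    nlinarith [mul_nonneg e1 hK0, mul_nonneg e1 hQ0, mul_nonneg e2 hS0, mul_nonneg e2 hK0,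
      mul_nonneg e3 hS0, mul_nonneg e3 hK0, mul_nonneg e4 hQ0]
  linarith

theorem wo1 (n : ℕ) {C c : ℝ} (hC : 0 < C) (hc : 0 < c) : ∃ C' : ℝ, 0 < C' ∧
    ∀ (B : ℝ) (κ : ℂ → ℂ) (ε : ℂ → ℝ) (F : Fin n → ℂ → ℂ) (T : ℂ → ℝ),
    PotD C B κ ε → FD C B κ ε F T → ∀ p l,
    Test Hp (XX c F κ p l) ∧ tsupport (XX c F κ p l) ⊆ tsupport κ ∧
    ∀ z ∈ tsupport κ, z.im * ‖dz (XX c F κ p l) z‖ ≤
      C' * ((∑ j, z.im * (‖dz (F j) z‖ ^ 2 * Ph κ ε z)) + z.im * (‖dz κ z‖ ^ 2 / Ph κ ε z) +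
        T z * Ph κ ε z / z.im) := by
  obtain ⟨D, hD, hlam⟩ := lam_nsq (n := n) hc hC
  refine ⟨2 * D ^ 2 * C * (1 + n) + 2 * D ^ 2 * n * C ^ 3 + 2 * D ^ 2 * C ^ 2 + D ^ 2 * C,
    by positivity, fun B κ ε F T hp hf p l => ?_⟩
  have hκ : ContDiffOn ℝ ∞ κ Hp := hp.test.smooth.contDiffOn
  obtain ⟨hL, hL2⟩ := hlam F hf.smooth
  have hsup : Function.support (XX c F κ p l) ⊆ tsupport κ := by
    intro z hz
    by_contra h
    exact hz (by simp [XX, image_eq_zero_of_notMem_tsupport h])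
  have hts : tsupport (XX c F κ p l) ⊆ tsupport κ := closure_minimal hsup (isClosed_tsupport κ)
  have hsm : ContDiffOn ℝ ∞ (XX c F κ p l) Hp := by
    unfold XX
    have c1 : ContDiffOn ℝ ∞ (fun z => conj (F p z)) Hp :=
      Complex.conjCLE.contDiff.comp_contDiffOn (hf.smooth p)
    have c2 : ContDiffOn ℝ ∞ (fun z => conj (dz (F l) z)) Hp :=
      Complex.conjCLE.contDiff.comp_contDiffOn (sm_dz (hf.smooth l)).1
    exact ((hL.pow 2).mul (c1.mul c2)).mul hκ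
  refine ⟨⟨?_, hp.test.cpt.mono' hsup, hts.trans hp.test.sub⟩, hts, fun z hz => ?_⟩
  · rw [contDiff_iff_contDiffAt]
    intro z
    by_cases h : z ∈ Hp
    · exact hsm.contDiffAt (isOpen_Hp.mem_nhds h)
    · have h1 : z ∉ tsupport κ := fun h2 => h (hp.test.sub h2)
      have h2 : XX c F κ p l =ᶠ[𝓝 z] fun _ => 0 := by
        filter_upwards [(isClosed_tsupport κ).isOpen_compl.mem_nhds h1] with w hw
        simp [XX, image_eq_zero_of_notMem_tsupport hw]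
      exact contDiffAt_const.congr_of_eventuallyEq h2
  · have hzH := hp.test.sub hz
    obtain ⟨l1, l2, -⟩ := hL2 z hzH fun j => hf.le j z hzH
    rw [dz_XX p l hf.smooth hκ hL hzH]
    have hy : 0 < z.im := hzH
    refine (mul_le_mul_of_nonneg_left ?_ hy.le).trans
      (num (L := |lam c (nsq F z)|) (L' := ‖dz (fun z => ((lam c (nsq F z) : ℝ) : ℂ)) z‖)
        (a0 := ‖dz (F l) z‖) (b0 := ‖dzb (F p) z‖) (d0 := ‖dz (dzb (F l)) z‖) (f0 := ‖F p z‖)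
        (a := fun j => ‖dz (F j) z‖) (b := fun j => ‖dzb (F j) z‖) (kk := ‖κ z‖)
        hC hD hy (ph_pos (hp.pos z hzH)) (hf.t0 z)
        (norm_nonneg _) (norm_nonneg _) (ph_ge κ ε z) (abs_nonneg _) l1 (norm_nonneg _) l2
        (fun j => norm_nonneg _) (fun j => norm_nonneg _) (fun j => hf.t1 j z hz) l rfl
        (hf.d1 l z hzH) (norm_nonneg _) (hf.t1 p z hz) (norm_nonneg _) (hf.t2 l z hz)
        (norm_nonneg _) (hf.le p z hzH))
    refine (norm_add_le _ _).trans (add_le_add ((norm_add_le _ _).trans (add_le_add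
      ((norm_add_le _ _).trans (add_le_add ?_ ?_)) ?_)) ?_)
    · simp only [norm_mul, Complex.norm_conj, Complex.norm_ofNat, Complex.norm_real,
        Real.norm_eq_abs, le_refl]
    · simp only [norm_mul, norm_pow, Complex.norm_conj, Complex.norm_real,
        Real.norm_eq_abs, le_refl]
    · simp only [norm_mul, norm_pow, Complex.norm_conj, Complex.norm_real,
        Real.norm_eq_abs, le_refl]
    · simp only [norm_mul, norm_pow, Complex.norm_conj, Complex.norm_real,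
        Real.norm_eq_abs, le_refl]

end Pool.Agent.Work.MP_2cf110_an.Hyp

end
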